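import Pool.Agent.Lib.MP_ec4eff_co.R5.Srch

/-! Generated file (project R5): results of the first lune -/

namespace Pool.Agent.EC4.Run

def r11_0_0 : List Wr := [
    ⟨true, nat_lit 4, nat_lit 7, nat_lit 1, nat_lit 1⟩, ⟨false, nat_lit 64, nat_lit 123, nat_lit 2, nat_lit 1⟩, ⟨false, nat_lit 8, nat_lit 75, nat_lit 1, nat_lit 2⟩,
    ⟨true, nat_lit 2, nat_lit 79, nat_lit 2, nat_lit 0⟩, ⟨false, nat_lit 128, nat_lit 177, nat_lit 1, nat_lit 2⟩, ⟨false, nat_lit 32, nat_lit 241, nat_lit 2, nat_lit 0⟩,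
    ⟨true, nat_lit 1, nat_lit 239, nat_lit 2, nat_lit 2⟩, ⟨false, nat_lit 2048, nat_lit 3856, nat_lit 2, nat_lit 0⟩, ⟨false, nat_lit 256, nat_lit 2320, nat_lit 1, nat_lit 1⟩,
    ⟨true, nat_lit 16, nat_lit 2544, nat_lit 2, nat_lit 1⟩, ⟨true, nat_lit 1024, nat_lit 3584, nat_lit 1, nat_lit 1⟩, ⟨false, nat_lit 32768, nat_lit 61952, nat_lit 2, nat_lit 0⟩,
    ⟨false, nat_lit 4096, nat_lit 37376, nat_lit 1, nat_lit 1⟩, ⟨true, nat_lit 512, nat_lit 40448, nat_lit 2, nat_lit 0⟩, ⟨false, nat_lit 16384, nat_lit 57344, nat_lit 1, nat_lit 1⟩,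
    ⟨false, nat_lit 8192, nat_lit 57344, nat_lit 1, nat_lit 1⟩]

def r11_0_1 : List Wr := [
    ⟨true, nat_lit 4, nat_lit 7, nat_lit 1, nat_lit 1⟩, ⟨false, nat_lit 64, nat_lit 123, nat_lit 2, nat_lit 1⟩, ⟨false, nat_lit 8, nat_lit 75, nat_lit 1, nat_lit 2⟩,
    ⟨true, nat_lit 2, nat_lit 79, nat_lit 2, nat_lit 0⟩, ⟨false, nat_lit 2048, nat_lit 4017, nat_lit 3, nat_lit 0⟩, ⟨false, nat_lit 32, nat_lit 2161, nat_lit 2, nat_lit 0⟩,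
    ⟨true, nat_lit 1, nat_lit 2159, nat_lit 2, nat_lit 2⟩, ⟨true, nat_lit 256, nat_lit 2448, nat_lit 1, nat_lit 2⟩, ⟨false, nat_lit 4096, nat_lit 5776, nat_lit 1, nat_lit 3⟩,
    ⟨false, nat_lit 1024, nat_lit 7824, nat_lit 2, nat_lit 1⟩, ⟨true, nat_lit 128, nat_lit 7568, nat_lit 2, nat_lit 1⟩, ⟨false, nat_lit 32768, nat_lit 57872, nat_lit 2, nat_lit 0⟩,
    ⟨false, nat_lit 512, nat_lit 40464, nat_lit 2, nat_lit 1⟩, ⟨true, nat_lit 16, nat_lit 40944, nat_lit 3, nat_lit 2⟩, ⟨false, nat_lit 16384, nat_lit 57344, nat_lit 1, nat_lit 1⟩,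
    ⟨false, nat_lit 8192, nat_lit 57344, nat_lit 1, nat_lit 1⟩]

def r11_0_2 : List Wr := [
    ⟨true, nat_lit 4, nat_lit 7, nat_lit 1, nat_lit 1⟩, ⟨false, nat_lit 64, nat_lit 123, nat_lit 2, nat_lit 1⟩, ⟨false, nat_lit 8, nat_lit 75, nat_lit 1, nat_lit 2⟩,
    ⟨true, nat_lit 2, nat_lit 79, nat_lit 2, nat_lit 0⟩, ⟨false, nat_lit 2048, nat_lit 4017, nat_lit 3, nat_lit 0⟩, ⟨false, nat_lit 32, nat_lit 2161, nat_lit 2, nat_lit 0⟩,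
    ⟨true, nat_lit 1, nat_lit 2159, nat_lit 2, nat_lit 2⟩, ⟨false, nat_lit 256, nat_lit 2448, nat_lit 1, nat_lit 2⟩, ⟨true, nat_lit 128, nat_lit 2448, nat_lit 1, nat_lit 2⟩,
    ⟨false, nat_lit 32768, nat_lit 62992, nat_lit 2, nat_lit 2⟩, ⟨false, nat_lit 1024, nat_lit 36368, nat_lit 2, nat_lit 0⟩, ⟨true, nat_lit 16, nat_lit 36336, nat_lit 3, nat_lit 0⟩,
    ⟨false, nat_lit 16384, nat_lit 61952, nat_lit 2, nat_lit 0⟩, ⟨false, nat_lit 4096, nat_lit 53760, nat_lit 1, nat_lit 2⟩, ⟨true, nat_lit 512, nat_lit 56832, nat_lit 2, nat_lit 1⟩,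
    ⟨false, nat_lit 8192, nat_lit 57344, nat_lit 1, nat_lit 1⟩]

def r11_0_3 : List Wr := [
    ⟨true, nat_lit 4, nat_lit 7, nat_lit 1, nat_lit 1⟩, ⟨false, nat_lit 64, nat_lit 123, nat_lit 2, nat_lit 1⟩, ⟨false, nat_lit 8, nat_lit 75, nat_lit 1, nat_lit 2⟩,
    ⟨true, nat_lit 2, nat_lit 79, nat_lit 2, nat_lit 0⟩, ⟨false, nat_lit 256, nat_lit 433, nat_lit 1, nat_lit 3⟩, ⟨false, nat_lit 32, nat_lit 369, nat_lit 2, nat_lit 0⟩,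
    ⟨true, nat_lit 1, nat_lit 367, nat_lit 2, nat_lit 2⟩, ⟨false, nat_lit 2048, nat_lit 3728, nat_lit 2, nat_lit 0⟩, ⟨false, nat_lit 128, nat_lit 2448, nat_lit 1, nat_lit 2⟩,
    ⟨true, nat_lit 16, nat_lit 2544, nat_lit 2, nat_lit 1⟩, ⟨true, nat_lit 1024, nat_lit 3584, nat_lit 1, nat_lit 1⟩, ⟨false, nat_lit 32768, nat_lit 61952, nat_lit 2, nat_lit 0⟩,
    ⟨false, nat_lit 4096, nat_lit 37376, nat_lit 1, nat_lit 1⟩, ⟨true, nat_lit 512, nat_lit 40448, nat_lit 2, nat_lit 0⟩, ⟨false, nat_lit 16384, nat_lit 57344, nat_lit 1, nat_lit 1⟩,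
    ⟨false, nat_lit 8192, nat_lit 57344, nat_lit 1, nat_lit 1⟩]

def r11_0_4 : List Wr := [
    ⟨true, nat_lit 4, nat_lit 7, nat_lit 1, nat_lit 1⟩, ⟨false, nat_lit 2048, nat_lit 4091, nat_lit 4, nat_lit 0⟩, ⟨false, nat_lit 64, nat_lit 2171, nat_lit 2, nat_lit 2⟩,
    ⟨true, nat_lit 2, nat_lit 2119, nat_lit 2, nat_lit 0⟩, ⟨true, nat_lit 32, nat_lit 2169, nat_lit 2, nat_lit 1⟩, ⟨false, nat_lit 32768, nat_lit 63385, nat_lit 3, nat_lit 3⟩,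
    ⟨false, nat_lit 256, nat_lit 35225, nat_lit 2, nat_lit 2⟩, ⟨true, nat_lit 8, nat_lit 35177, nat_lit 2, nat_lit 2⟩, ⟨false, nat_lit 4096, nat_lit 38545, nat_lit 2, nat_lit 2⟩,
    ⟨false, nat_lit 128, nat_lit 39313, nat_lit 2, nat_lit 2⟩, ⟨true, nat_lit 1, nat_lit 39407, nat_lit 3, nat_lit 3⟩, ⟨true, nat_lit 1024, nat_lit 40464, nat_lit 2, nat_lit 1⟩,
    ⟨false, nat_lit 16384, nat_lit 57872, nat_lit 2, nat_lit 0⟩, ⟨false, nat_lit 512, nat_lit 56848, nat_lit 2, nat_lit 2⟩, ⟨true, nat_lit 16, nat_lit 57328, nat_lit 4, nat_lit 0⟩,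
    ⟨false, nat_lit 8192, nat_lit 57344, nat_lit 1, nat_lit 1⟩]

def l11_0 : List (Nat × List Wr × Nat) := [
  (nat_lit 4, r11_0_0, nat_lit 0), (nat_lit 6, r11_0_1, nat_lit 0), (nat_lit 4, r11_0_2, nat_lit 0),
  (nat_lit 6, r11_0_3, nat_lit 0), (nat_lit 6, r11_0_4, nat_lit 0)]

def r11_1_0 : List Wr := [
    ⟨false, nat_lit 4, nat_lit 7, nat_lit 1, nat_lit 1⟩, ⟨true, nat_lit 2, nat_lit 7, nat_lit 1, nat_lit 1⟩, ⟨false, nat_lit 2048, nat_lit 4089, nat_lit 3, nat_lit 2⟩,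
    ⟨false, nat_lit 64, nat_lit 2169, nat_lit 2, nat_lit 1⟩, ⟨true, nat_lit 1, nat_lit 2119, nat_lit 2, nat_lit 0⟩, ⟨false, nat_lit 256, nat_lit 2488, nat_lit 2, nat_lit 1⟩,
    ⟨false, nat_lit 32, nat_lit 2424, nat_lit 2, nat_lit 1⟩, ⟨true, nat_lit 8, nat_lit 2408, nat_lit 1, nat_lit 3⟩, ⟨true, nat_lit 128, nat_lit 2448, nat_lit 1, nat_lit 2⟩,
    ⟨false, nat_lit 32768, nat_lit 62992, nat_lit 2, nat_lit 2⟩, ⟨false, nat_lit 1024, nat_lit 36368, nat_lit 2, nat_lit 0⟩, ⟨true, nat_lit 16, nat_lit 36336, nat_lit 3, nat_lit 0⟩,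
    ⟨false, nat_lit 16384, nat_lit 61952, nat_lit 2, nat_lit 0⟩, ⟨false, nat_lit 4096, nat_lit 53760, nat_lit 1, nat_lit 2⟩, ⟨true, nat_lit 512, nat_lit 56832, nat_lit 2, nat_lit 1⟩,
    ⟨false, nat_lit 8192, nat_lit 57344, nat_lit 1, nat_lit 1⟩]

def l11_1 : List (Nat × List Wr × Nat) := [
  (nat_lit 6, r11_1_0, nat_lit 0)]

def r11_2_0 : List Wr := [
    ⟨false, nat_lit 4, nat_lit 7, nat_lit 1, nat_lit 1⟩, ⟨true, nat_lit 2, nat_lit 7, nat_lit 1, nat_lit 1⟩, ⟨false, nat_lit 64, nat_lit 121, nat_lit 2, nat_lit 0⟩,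
    ⟨false, nat_lit 8, nat_lit 73, nat_lit 1, nat_lit 1⟩, ⟨true, nat_lit 1, nat_lit 79, nat_lit 2, nat_lit 0⟩, ⟨false, nat_lit 2048, nat_lit 4016, nat_lit 2, nat_lit 2⟩,
    ⟨false, nat_lit 128, nat_lit 2224, nat_lit 1, nat_lit 2⟩, ⟨true, nat_lit 32, nat_lit 2288, nat_lit 2, nat_lit 0⟩, ⟨false, nat_lit 1024, nat_lit 3856, nat_lit 2, nat_lit 0⟩,
    ⟨false, nat_lit 256, nat_lit 3344, nat_lit 1, nat_lit 2⟩, ⟨true, nat_lit 16, nat_lit 3568, nat_lit 2, nat_lit 2⟩, ⟨false, nat_lit 32768, nat_lit 61952, nat_lit 2, nat_lit 0⟩,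
    ⟨false, nat_lit 4096, nat_lit 37376, nat_lit 1, nat_lit 1⟩, ⟨true, nat_lit 512, nat_lit 40448, nat_lit 2, nat_lit 0⟩, ⟨false, nat_lit 16384, nat_lit 57344, nat_lit 1, nat_lit 1⟩,
    ⟨false, nat_lit 8192, nat_lit 57344, nat_lit 1, nat_lit 1⟩]

def l11_2 : List (Nat × List Wr × Nat) := [
  (nat_lit 4, r11_2_0, nat_lit 0)]

def r11_3_0 : List Wr := [
    ⟨true, nat_lit 4, nat_lit 7, nat_lit 1, nat_lit 1⟩, ⟨true, nat_lit 2048, nat_lit 4091, nat_lit 3, nat_lit 3⟩, ⟨false, nat_lit 32768, nat_lit 63483, nat_lit 4, nat_lit 3⟩,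
    ⟨false, nat_lit 64, nat_lit 34939, nat_lit 3, nat_lit 0⟩, ⟨true, nat_lit 2, nat_lit 34887, nat_lit 2, nat_lit 1⟩, ⟨false, nat_lit 4096, nat_lit 38841, nat_lit 3, nat_lit 2⟩,
    ⟨false, nat_lit 256, nat_lit 39353, nat_lit 3, nat_lit 1⟩, ⟨true, nat_lit 8, nat_lit 39241, nat_lit 2, nat_lit 2⟩, ⟨false, nat_lit 1024, nat_lit 40625, nat_lit 2, nat_lit 4⟩,
    ⟨false, nat_lit 512, nat_lit 40625, nat_lit 3, nat_lit 1⟩, ⟨false, nat_lit 128, nat_lit 40881, nat_lit 3, nat_lit 2⟩, ⟨true, nat_lit 32, nat_lit 40945, nat_lit 3, nat_lit 3⟩,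
    ⟨false, nat_lit 16384, nat_lit 57361, nat_lit 2, nat_lit 0⟩, ⟨false, nat_lit 16, nat_lit 57329, nat_lit 4, nat_lit 1⟩, ⟨true, nat_lit 1, nat_lit 57343, nat_lit 5, nat_lit 1⟩,
    ⟨false, nat_lit 8192, nat_lit 57344, nat_lit 1, nat_lit 1⟩]

def r11_3_1 : List Wr := [
    ⟨true, nat_lit 4, nat_lit 7, nat_lit 1, nat_lit 1⟩, ⟨false, nat_lit 32768, nat_lit 65531, nat_lit 5, nat_lit 1⟩, ⟨false, nat_lit 2048, nat_lit 36859, nat_lit 4, nat_lit 1⟩,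
    ⟨true, nat_lit 2, nat_lit 34823, nat_lit 2, nat_lit 0⟩, ⟨false, nat_lit 1024, nat_lit 36857, nat_lit 3, nat_lit 3⟩, ⟨false, nat_lit 256, nat_lit 36345, nat_lit 3, nat_lit 2⟩,
    ⟨false, nat_lit 64, nat_lit 36217, nat_lit 3, nat_lit 1⟩, ⟨true, nat_lit 32, nat_lit 36217, nat_lit 2, nat_lit 4⟩, ⟨false, nat_lit 4096, nat_lit 37529, nat_lit 2, nat_lit 2⟩,
    ⟨false, nat_lit 128, nat_lit 40345, nat_lit 3, nat_lit 1⟩, ⟨true, nat_lit 8, nat_lit 40425, nat_lit 3, nat_lit 2⟩, ⟨true, nat_lit 512, nat_lit 40465, nat_lit 2, nat_lit 2⟩,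
    ⟨false, nat_lit 16384, nat_lit 57361, nat_lit 2, nat_lit 0⟩, ⟨false, nat_lit 16, nat_lit 57329, nat_lit 4, nat_lit 1⟩, ⟨true, nat_lit 1, nat_lit 57343, nat_lit 4, nat_lit 4⟩,
    ⟨false, nat_lit 8192, nat_lit 57344, nat_lit 1, nat_lit 1⟩]

def r11_3_2 : List Wr := [
    ⟨true, nat_lit 4, nat_lit 7, nat_lit 1, nat_lit 1⟩, ⟨false, nat_lit 32768, nat_lit 65531, nat_lit 5, nat_lit 1⟩, ⟨false, nat_lit 2048, nat_lit 36859, nat_lit 4, nat_lit 1⟩,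
    ⟨true, nat_lit 2, nat_lit 34823, nat_lit 2, nat_lit 0⟩, ⟨false, nat_lit 1024, nat_lit 36857, nat_lit 3, nat_lit 3⟩, ⟨false, nat_lit 256, nat_lit 36345, nat_lit 3, nat_lit 2⟩,
    ⟨false, nat_lit 64, nat_lit 36217, nat_lit 3, nat_lit 1⟩, ⟨true, nat_lit 32, nat_lit 36217, nat_lit 2, nat_lit 4⟩, ⟨false, nat_lit 4096, nat_lit 37529, nat_lit 2, nat_lit 2⟩,
    ⟨false, nat_lit 128, nat_lit 40345, nat_lit 3, nat_lit 1⟩, ⟨true, nat_lit 8, nat_lit 40425, nat_lit 3, nat_lit 2⟩, ⟨false, nat_lit 16384, nat_lit 57873, nat_lit 2, nat_lit 1⟩,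
    ⟨false, nat_lit 512, nat_lit 56849, nat_lit 3, nat_lit 0⟩, ⟨true, nat_lit 1, nat_lit 57327, nat_lit 4, nat_lit 3⟩, ⟨true, nat_lit 16, nat_lit 57328, nat_lit 3, nat_lit 3⟩,
    ⟨false, nat_lit 8192, nat_lit 57344, nat_lit 1, nat_lit 1⟩]

def r11_3_3 : List Wr := [
    ⟨true, nat_lit 4, nat_lit 7, nat_lit 1, nat_lit 1⟩, ⟨false, nat_lit 32768, nat_lit 65531, nat_lit 4, nat_lit 4⟩, ⟨false, nat_lit 2048, nat_lit 36859, nat_lit 4, nat_lit 1⟩,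
    ⟨true, nat_lit 2, nat_lit 34823, nat_lit 2, nat_lit 0⟩, ⟨true, nat_lit 64, nat_lit 34937, nat_lit 2, nat_lit 2⟩, ⟨false, nat_lit 4096, nat_lit 38841, nat_lit 3, nat_lit 2⟩,
    ⟨false, nat_lit 256, nat_lit 39353, nat_lit 3, nat_lit 1⟩, ⟨true, nat_lit 8, nat_lit 39241, nat_lit 2, nat_lit 2⟩, ⟨false, nat_lit 1024, nat_lit 40625, nat_lit 2, nat_lit 4⟩,
    ⟨false, nat_lit 512, nat_lit 40625, nat_lit 3, nat_lit 1⟩, ⟨false, nat_lit 128, nat_lit 40881, nat_lit 3, nat_lit 2⟩, ⟨true, nat_lit 32, nat_lit 40945, nat_lit 3, nat_lit 3⟩,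
    ⟨false, nat_lit 16384, nat_lit 57361, nat_lit 2, nat_lit 0⟩, ⟨false, nat_lit 16, nat_lit 57329, nat_lit 4, nat_lit 1⟩, ⟨true, nat_lit 1, nat_lit 57343, nat_lit 5, nat_lit 1⟩,
    ⟨false, nat_lit 8192, nat_lit 57344, nat_lit 1, nat_lit 1⟩]

def r11_3_4 : List Wr := [
    ⟨false, nat_lit 4, nat_lit 7, nat_lit 1, nat_lit 1⟩, ⟨true, nat_lit 2, nat_lit 7, nat_lit 1, nat_lit 1⟩, ⟨false, nat_lit 64, nat_lit 121, nat_lit 2, nat_lit 0⟩,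
    ⟨false, nat_lit 8, nat_lit 73, nat_lit 1, nat_lit 1⟩, ⟨true, nat_lit 1, nat_lit 79, nat_lit 2, nat_lit 0⟩, ⟨false, nat_lit 2048, nat_lit 4016, nat_lit 2, nat_lit 2⟩,
    ⟨false, nat_lit 256, nat_lit 2480, nat_lit 1, nat_lit 3⟩, ⟨true, nat_lit 32, nat_lit 2416, nat_lit 2, nat_lit 0⟩, ⟨false, nat_lit 1024, nat_lit 3728, nat_lit 2, nat_lit 0⟩,
    ⟨false, nat_lit 128, nat_lit 3472, nat_lit 1, nat_lit 3⟩, ⟨true, nat_lit 16, nat_lit 3568, nat_lit 2, nat_lit 2⟩, ⟨false, nat_lit 32768, nat_lit 61952, nat_lit 2, nat_lit 0⟩,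
    ⟨false, nat_lit 4096, nat_lit 37376, nat_lit 1, nat_lit 1⟩, ⟨true, nat_lit 512, nat_lit 40448, nat_lit 2, nat_lit 0⟩, ⟨false, nat_lit 16384, nat_lit 57344, nat_lit 1, nat_lit 1⟩,
    ⟨false, nat_lit 8192, nat_lit 57344, nat_lit 1, nat_lit 1⟩]

def r11_3_5 : List Wr := [
    ⟨false, nat_lit 4, nat_lit 7, nat_lit 1, nat_lit 1⟩, ⟨true, nat_lit 2, nat_lit 7, nat_lit 1, nat_lit 1⟩, ⟨false, nat_lit 64, nat_lit 121, nat_lit 2, nat_lit 0⟩,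
    ⟨false, nat_lit 8, nat_lit 73, nat_lit 1, nat_lit 1⟩, ⟨true, nat_lit 1, nat_lit 79, nat_lit 2, nat_lit 0⟩, ⟨true, nat_lit 32, nat_lit 112, nat_lit 1, nat_lit 1⟩,
    ⟨false, nat_lit 2048, nat_lit 3984, nat_lit 2, nat_lit 1⟩, ⟨false, nat_lit 256, nat_lit 2448, nat_lit 1, nat_lit 2⟩, ⟨true, nat_lit 16, nat_lit 2416, nat_lit 2, nat_lit 0⟩,
    ⟨false, nat_lit 32768, nat_lit 63104, nat_lit 2, nat_lit 2⟩, ⟨false, nat_lit 1024, nat_lit 36480, nat_lit 2, nat_lit 0⟩, ⟨true, nat_lit 128, nat_lit 36224, nat_lit 1, nat_lit 3⟩,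
    ⟨false, nat_lit 16384, nat_lit 61952, nat_lit 2, nat_lit 0⟩, ⟨false, nat_lit 4096, nat_lit 53760, nat_lit 1, nat_lit 2⟩, ⟨true, nat_lit 512, nat_lit 56832, nat_lit 2, nat_lit 1⟩,
    ⟨false, nat_lit 8192, nat_lit 57344, nat_lit 1, nat_lit 1⟩]

def r11_3_6 : List Wr := [
    ⟨false, nat_lit 4, nat_lit 7, nat_lit 1, nat_lit 1⟩, ⟨true, nat_lit 2, nat_lit 7, nat_lit 1, nat_lit 1⟩, ⟨false, nat_lit 64, nat_lit 121, nat_lit 2, nat_lit 0⟩,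
    ⟨false, nat_lit 8, nat_lit 73, nat_lit 1, nat_lit 1⟩, ⟨true, nat_lit 1, nat_lit 79, nat_lit 2, nat_lit 0⟩, ⟨true, nat_lit 32, nat_lit 112, nat_lit 1, nat_lit 1⟩,
    ⟨false, nat_lit 2048, nat_lit 3984, nat_lit 2, nat_lit 1⟩, ⟨false, nat_lit 128, nat_lit 2192, nat_lit 1, nat_lit 1⟩, ⟨true, nat_lit 16, nat_lit 2288, nat_lit 2, nat_lit 0⟩,
    ⟨false, nat_lit 32768, nat_lit 63232, nat_lit 2, nat_lit 2⟩, ⟨false, nat_lit 1024, nat_lit 36608, nat_lit 2, nat_lit 0⟩, ⟨true, nat_lit 256, nat_lit 36096, nat_lit 1, nat_lit 2⟩,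
    ⟨false, nat_lit 16384, nat_lit 61952, nat_lit 2, nat_lit 0⟩, ⟨false, nat_lit 4096, nat_lit 53760, nat_lit 1, nat_lit 2⟩, ⟨true, nat_lit 512, nat_lit 56832, nat_lit 2, nat_lit 1⟩,
    ⟨false, nat_lit 8192, nat_lit 57344, nat_lit 1, nat_lit 1⟩]

def l11_3 : List (Nat × List Wr × Nat) := [
  (nat_lit 6, r11_3_0, nat_lit 0), (nat_lit 6, r11_3_1, nat_lit 0), (nat_lit 6, r11_3_2, nat_lit 0),
  (nat_lit 6, r11_3_3, nat_lit 0), (nat_lit 6, r11_3_4, nat_lit 0), (nat_lit 6, r11_3_5, nat_lit 0),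
  (nat_lit 4, r11_3_6, nat_lit 0)]

end Pool.Agent.EC4.Run
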