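import Pool.Agent.Lib.MP_ec4eff_co.R5.Srch

/-! Generated file (project R5): results of the first lune -/

namespace Pool.Agent.EC4.Run

def r17_0_0 : List Wr := [
    ⟨false, nat_lit 32768, nat_lit 65535, nat_lit 5, nat_lit 2⟩, ⟨false, nat_lit 128, nat_lit 33023, nat_lit 3, nat_lit 1⟩, ⟨true, nat_lit 4, nat_lit 32903, nat_lit 2, nat_lit 0⟩,
    ⟨false, nat_lit 64, nat_lit 33019, nat_lit 2, nat_lit 3⟩, ⟨true, nat_lit 16, nat_lit 32987, nat_lit 2, nat_lit 2⟩, ⟨false, nat_lit 1024, nat_lit 34603, nat_lit 3, nat_lit 0⟩,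
    ⟨false, nat_lit 8, nat_lit 34011, nat_lit 2, nat_lit 3⟩, ⟨true, nat_lit 2, nat_lit 34015, nat_lit 3, nat_lit 1⟩, ⟨false, nat_lit 4096, nat_lit 39713, nat_lit 2, nat_lit 2⟩,
    ⟨false, nat_lit 512, nat_lit 38689, nat_lit 2, nat_lit 2⟩, ⟨true, nat_lit 32, nat_lit 38625, nat_lit 3, nat_lit 0⟩, ⟨true, nat_lit 2048, nat_lit 39169, nat_lit 1, nat_lit 3⟩,
    ⟨false, nat_lit 16384, nat_lit 57601, nat_lit 2, nat_lit 0⟩, ⟨false, nat_lit 256, nat_lit 57089, nat_lit 3, nat_lit 0⟩, ⟨true, nat_lit 1, nat_lit 57343, nat_lit 4, nat_lit 4⟩,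
    ⟨false, nat_lit 8192, nat_lit 57344, nat_lit 1, nat_lit 1⟩]

def r17_0_1 : List Wr := [
    ⟨false, nat_lit 32768, nat_lit 65535, nat_lit 5, nat_lit 2⟩, ⟨false, nat_lit 128, nat_lit 33023, nat_lit 3, nat_lit 1⟩, ⟨true, nat_lit 4, nat_lit 32903, nat_lit 2, nat_lit 0⟩,
    ⟨false, nat_lit 64, nat_lit 33019, nat_lit 2, nat_lit 3⟩, ⟨true, nat_lit 16, nat_lit 32987, nat_lit 2, nat_lit 2⟩, ⟨false, nat_lit 1024, nat_lit 34603, nat_lit 3, nat_lit 0⟩,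
    ⟨false, nat_lit 8, nat_lit 34011, nat_lit 2, nat_lit 3⟩, ⟨true, nat_lit 2, nat_lit 34015, nat_lit 3, nat_lit 1⟩, ⟨false, nat_lit 4096, nat_lit 39713, nat_lit 2, nat_lit 2⟩,
    ⟨false, nat_lit 512, nat_lit 38689, nat_lit 2, nat_lit 2⟩, ⟨true, nat_lit 32, nat_lit 38625, nat_lit 3, nat_lit 0⟩, ⟨false, nat_lit 16384, nat_lit 59649, nat_lit 2, nat_lit 1⟩,
    ⟨false, nat_lit 2048, nat_lit 55553, nat_lit 2, nat_lit 1⟩, ⟨true, nat_lit 1, nat_lit 57087, nat_lit 4, nat_lit 3⟩, ⟨true, nat_lit 256, nat_lit 57088, nat_lit 2, nat_lit 2⟩,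
    ⟨false, nat_lit 8192, nat_lit 57344, nat_lit 1, nat_lit 1⟩]

def r17_0_2 : List Wr := [
    ⟨false, nat_lit 32768, nat_lit 65535, nat_lit 5, nat_lit 2⟩, ⟨false, nat_lit 128, nat_lit 33023, nat_lit 3, nat_lit 1⟩, ⟨true, nat_lit 4, nat_lit 32903, nat_lit 2, nat_lit 0⟩,
    ⟨false, nat_lit 64, nat_lit 33019, nat_lit 2, nat_lit 3⟩, ⟨true, nat_lit 16, nat_lit 32987, nat_lit 2, nat_lit 2⟩, ⟨false, nat_lit 1024, nat_lit 34603, nat_lit 3, nat_lit 0⟩,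
    ⟨false, nat_lit 8, nat_lit 34011, nat_lit 2, nat_lit 3⟩, ⟨true, nat_lit 2, nat_lit 34015, nat_lit 3, nat_lit 1⟩, ⟨false, nat_lit 16384, nat_lit 64289, nat_lit 3, nat_lit 1⟩,
    ⟨false, nat_lit 4096, nat_lit 56097, nat_lit 2, nat_lit 3⟩, ⟨true, nat_lit 32, nat_lit 54497, nat_lit 3, nat_lit 0⟩, ⟨false, nat_lit 2048, nat_lit 56065, nat_lit 2, nat_lit 2⟩,
    ⟨true, nat_lit 512, nat_lit 57089, nat_lit 2, nat_lit 3⟩, ⟨false, nat_lit 8192, nat_lit 57601, nat_lit 2, nat_lit 0⟩, ⟨false, nat_lit 256, nat_lit 65281, nat_lit 3, nat_lit 1⟩,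
    ⟨false, nat_lit 1, nat_lit 65535, nat_lit 5, nat_lit 2⟩]

def r17_0_3 : List Wr := [
    ⟨true, nat_lit 4, nat_lit 7, nat_lit 1, nat_lit 1⟩, ⟨true, nat_lit 128, nat_lit 251, nat_lit 2, nat_lit 2⟩, ⟨false, nat_lit 32768, nat_lit 65403, nat_lit 4, nat_lit 3⟩,
    ⟨false, nat_lit 16, nat_lit 32923, nat_lit 2, nat_lit 1⟩, ⟨true, nat_lit 2, nat_lit 32919, nat_lit 2, nat_lit 1⟩, ⟨false, nat_lit 1024, nat_lit 34665, nat_lit 3, nat_lit 0⟩,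
    ⟨false, nat_lit 64, nat_lit 34025, nat_lit 2, nat_lit 2⟩, ⟨true, nat_lit 8, nat_lit 34009, nat_lit 2, nat_lit 2⟩, ⟨false, nat_lit 16384, nat_lit 64289, nat_lit 3, nat_lit 1⟩,
    ⟨false, nat_lit 4096, nat_lit 56097, nat_lit 2, nat_lit 3⟩, ⟨true, nat_lit 32, nat_lit 54497, nat_lit 3, nat_lit 0⟩, ⟨false, nat_lit 2048, nat_lit 56065, nat_lit 2, nat_lit 2⟩,
    ⟨true, nat_lit 512, nat_lit 57089, nat_lit 2, nat_lit 3⟩, ⟨false, nat_lit 8192, nat_lit 57601, nat_lit 2, nat_lit 0⟩, ⟨false, nat_lit 256, nat_lit 65281, nat_lit 3, nat_lit 1⟩,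
    ⟨false, nat_lit 1, nat_lit 65535, nat_lit 5, nat_lit 2⟩]

def r17_0_4 : List Wr := [
    ⟨true, nat_lit 4, nat_lit 7, nat_lit 1, nat_lit 1⟩, ⟨true, nat_lit 128, nat_lit 251, nat_lit 2, nat_lit 2⟩, ⟨false, nat_lit 32768, nat_lit 65403, nat_lit 4, nat_lit 3⟩,
    ⟨false, nat_lit 16, nat_lit 32923, nat_lit 2, nat_lit 1⟩, ⟨true, nat_lit 2, nat_lit 32919, nat_lit 2, nat_lit 1⟩, ⟨false, nat_lit 4096, nat_lit 40809, nat_lit 3, nat_lit 2⟩,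
    ⟨false, nat_lit 1024, nat_lit 38761, nat_lit 3, nat_lit 1⟩, ⟨true, nat_lit 8, nat_lit 38041, nat_lit 2, nat_lit 2⟩, ⟨false, nat_lit 2048, nat_lit 39777, nat_lit 2, nat_lit 3⟩,
    ⟨false, nat_lit 512, nat_lit 40801, nat_lit 3, nat_lit 1⟩, ⟨false, nat_lit 64, nat_lit 40673, nat_lit 3, nat_lit 1⟩, ⟨true, nat_lit 32, nat_lit 40673, nat_lit 2, nat_lit 4⟩,
    ⟨false, nat_lit 16384, nat_lit 57601, nat_lit 2, nat_lit 0⟩, ⟨false, nat_lit 256, nat_lit 57089, nat_lit 3, nat_lit 0⟩, ⟨true, nat_lit 1, nat_lit 57343, nat_lit 5, nat_lit 1⟩,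
    ⟨false, nat_lit 8192, nat_lit 57344, nat_lit 1, nat_lit 1⟩]

def r17_0_5 : List Wr := [
    ⟨true, nat_lit 4, nat_lit 7, nat_lit 1, nat_lit 1⟩, ⟨false, nat_lit 32768, nat_lit 65531, nat_lit 5, nat_lit 1⟩, ⟨false, nat_lit 128, nat_lit 33019, nat_lit 3, nat_lit 0⟩,
    ⟨true, nat_lit 2, nat_lit 32903, nat_lit 2, nat_lit 0⟩, ⟨false, nat_lit 1024, nat_lit 34681, nat_lit 2, nat_lit 4⟩, ⟨false, nat_lit 512, nat_lit 34681, nat_lit 3, nat_lit 1⟩,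
    ⟨false, nat_lit 64, nat_lit 34553, nat_lit 3, nat_lit 1⟩, ⟨true, nat_lit 16, nat_lit 34521, nat_lit 2, nat_lit 3⟩, ⟨false, nat_lit 4096, nat_lit 39209, nat_lit 2, nat_lit 2⟩,
    ⟨false, nat_lit 32, nat_lit 38633, nat_lit 3, nat_lit 1⟩, ⟨true, nat_lit 8, nat_lit 38649, nat_lit 3, nat_lit 2⟩, ⟨true, nat_lit 2048, nat_lit 39169, nat_lit 1, nat_lit 3⟩,
    ⟨false, nat_lit 16384, nat_lit 57601, nat_lit 2, nat_lit 0⟩, ⟨false, nat_lit 256, nat_lit 57089, nat_lit 3, nat_lit 0⟩, ⟨true, nat_lit 1, nat_lit 57343, nat_lit 4, nat_lit 4⟩,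
    ⟨false, nat_lit 8192, nat_lit 57344, nat_lit 1, nat_lit 1⟩]

def r17_0_6 : List Wr := [
    ⟨true, nat_lit 4, nat_lit 7, nat_lit 1, nat_lit 1⟩, ⟨false, nat_lit 32768, nat_lit 65531, nat_lit 5, nat_lit 1⟩, ⟨false, nat_lit 128, nat_lit 33019, nat_lit 3, nat_lit 0⟩,
    ⟨true, nat_lit 2, nat_lit 32903, nat_lit 2, nat_lit 0⟩, ⟨false, nat_lit 1024, nat_lit 34681, nat_lit 2, nat_lit 4⟩, ⟨false, nat_lit 512, nat_lit 34681, nat_lit 3, nat_lit 1⟩,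
    ⟨false, nat_lit 64, nat_lit 34553, nat_lit 3, nat_lit 1⟩, ⟨true, nat_lit 16, nat_lit 34521, nat_lit 2, nat_lit 3⟩, ⟨false, nat_lit 4096, nat_lit 39209, nat_lit 2, nat_lit 2⟩,
    ⟨false, nat_lit 32, nat_lit 38633, nat_lit 3, nat_lit 1⟩, ⟨true, nat_lit 8, nat_lit 38649, nat_lit 3, nat_lit 2⟩, ⟨false, nat_lit 16384, nat_lit 59649, nat_lit 2, nat_lit 1⟩,
    ⟨false, nat_lit 2048, nat_lit 55553, nat_lit 2, nat_lit 1⟩, ⟨true, nat_lit 1, nat_lit 57087, nat_lit 4, nat_lit 3⟩, ⟨true, nat_lit 256, nat_lit 57088, nat_lit 2, nat_lit 2⟩,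
    ⟨false, nat_lit 8192, nat_lit 57344, nat_lit 1, nat_lit 1⟩]

def r17_0_7 : List Wr := [
    ⟨true, nat_lit 4, nat_lit 7, nat_lit 1, nat_lit 1⟩, ⟨false, nat_lit 32768, nat_lit 65531, nat_lit 4, nat_lit 4⟩, ⟨false, nat_lit 128, nat_lit 33019, nat_lit 3, nat_lit 0⟩,
    ⟨true, nat_lit 2, nat_lit 32903, nat_lit 2, nat_lit 0⟩, ⟨true, nat_lit 16, nat_lit 32921, nat_lit 1, nat_lit 3⟩, ⟨false, nat_lit 1024, nat_lit 34665, nat_lit 3, nat_lit 0⟩,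
    ⟨false, nat_lit 64, nat_lit 34025, nat_lit 2, nat_lit 2⟩, ⟨true, nat_lit 8, nat_lit 34009, nat_lit 2, nat_lit 2⟩, ⟨false, nat_lit 16384, nat_lit 64289, nat_lit 3, nat_lit 1⟩,
    ⟨false, nat_lit 4096, nat_lit 56097, nat_lit 2, nat_lit 3⟩, ⟨true, nat_lit 32, nat_lit 54497, nat_lit 3, nat_lit 0⟩, ⟨false, nat_lit 2048, nat_lit 56065, nat_lit 2, nat_lit 2⟩,
    ⟨true, nat_lit 512, nat_lit 57089, nat_lit 2, nat_lit 3⟩, ⟨false, nat_lit 8192, nat_lit 57601, nat_lit 2, nat_lit 0⟩, ⟨false, nat_lit 256, nat_lit 65281, nat_lit 3, nat_lit 1⟩,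
    ⟨false, nat_lit 1, nat_lit 65535, nat_lit 5, nat_lit 2⟩]

def r17_0_8 : List Wr := [
    ⟨true, nat_lit 4, nat_lit 7, nat_lit 1, nat_lit 1⟩, ⟨false, nat_lit 32768, nat_lit 65531, nat_lit 4, nat_lit 4⟩, ⟨false, nat_lit 128, nat_lit 33019, nat_lit 3, nat_lit 0⟩,
    ⟨true, nat_lit 2, nat_lit 32903, nat_lit 2, nat_lit 0⟩, ⟨true, nat_lit 16, nat_lit 32921, nat_lit 1, nat_lit 3⟩, ⟨false, nat_lit 4096, nat_lit 40809, nat_lit 3, nat_lit 2⟩,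
    ⟨false, nat_lit 1024, nat_lit 38761, nat_lit 3, nat_lit 1⟩, ⟨true, nat_lit 8, nat_lit 38041, nat_lit 2, nat_lit 2⟩, ⟨false, nat_lit 2048, nat_lit 39777, nat_lit 2, nat_lit 3⟩,
    ⟨false, nat_lit 512, nat_lit 40801, nat_lit 3, nat_lit 1⟩, ⟨false, nat_lit 64, nat_lit 40673, nat_lit 3, nat_lit 1⟩, ⟨true, nat_lit 32, nat_lit 40673, nat_lit 2, nat_lit 4⟩,
    ⟨false, nat_lit 16384, nat_lit 57601, nat_lit 2, nat_lit 0⟩, ⟨false, nat_lit 256, nat_lit 57089, nat_lit 3, nat_lit 0⟩, ⟨true, nat_lit 1, nat_lit 57343, nat_lit 5, nat_lit 1⟩,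
    ⟨false, nat_lit 8192, nat_lit 57344, nat_lit 1, nat_lit 1⟩]

def r17_0_9 : List Wr := [
    ⟨false, nat_lit 4, nat_lit 7, nat_lit 1, nat_lit 1⟩, ⟨true, nat_lit 2, nat_lit 7, nat_lit 1, nat_lit 1⟩, ⟨false, nat_lit 128, nat_lit 249, nat_lit 2, nat_lit 1⟩,
    ⟨false, nat_lit 16, nat_lit 153, nat_lit 1, nat_lit 2⟩, ⟨true, nat_lit 1, nat_lit 151, nat_lit 2, nat_lit 0⟩, ⟨false, nat_lit 1024, nat_lit 1896, nat_lit 2, nat_lit 1⟩,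
    ⟨false, nat_lit 64, nat_lit 1256, nat_lit 2, nat_lit 0⟩, ⟨true, nat_lit 8, nat_lit 1240, nat_lit 1, nat_lit 3⟩, ⟨false, nat_lit 2048, nat_lit 2848, nat_lit 1, nat_lit 2⟩,
    ⟨false, nat_lit 512, nat_lit 3872, nat_lit 2, nat_lit 0⟩, ⟨true, nat_lit 32, nat_lit 3808, nat_lit 2, nat_lit 1⟩, ⟨false, nat_lit 32768, nat_lit 61696, nat_lit 2, nat_lit 0⟩,
    ⟨false, nat_lit 4096, nat_lit 37120, nat_lit 1, nat_lit 1⟩, ⟨true, nat_lit 256, nat_lit 40704, nat_lit 2, nat_lit 1⟩, ⟨false, nat_lit 16384, nat_lit 57344, nat_lit 1, nat_lit 1⟩,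
    ⟨false, nat_lit 8192, nat_lit 57344, nat_lit 1, nat_lit 1⟩]

def r17_0_10 : List Wr := [
    ⟨false, nat_lit 4, nat_lit 7, nat_lit 1, nat_lit 1⟩, ⟨true, nat_lit 2, nat_lit 7, nat_lit 1, nat_lit 1⟩, ⟨false, nat_lit 128, nat_lit 249, nat_lit 2, nat_lit 1⟩,
    ⟨false, nat_lit 8, nat_lit 137, nat_lit 1, nat_lit 1⟩, ⟨true, nat_lit 1, nat_lit 143, nat_lit 2, nat_lit 0⟩, ⟨false, nat_lit 1024, nat_lit 1904, nat_lit 2, nat_lit 1⟩,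
    ⟨false, nat_lit 64, nat_lit 1264, nat_lit 2, nat_lit 0⟩, ⟨true, nat_lit 16, nat_lit 1232, nat_lit 1, nat_lit 2⟩, ⟨false, nat_lit 2048, nat_lit 2848, nat_lit 1, nat_lit 2⟩,
    ⟨false, nat_lit 512, nat_lit 3872, nat_lit 2, nat_lit 0⟩, ⟨true, nat_lit 32, nat_lit 3808, nat_lit 2, nat_lit 1⟩, ⟨false, nat_lit 32768, nat_lit 61696, nat_lit 2, nat_lit 0⟩,
    ⟨false, nat_lit 4096, nat_lit 37120, nat_lit 1, nat_lit 1⟩, ⟨true, nat_lit 256, nat_lit 40704, nat_lit 2, nat_lit 1⟩, ⟨false, nat_lit 16384, nat_lit 57344, nat_lit 1, nat_lit 1⟩,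
    ⟨false, nat_lit 8192, nat_lit 57344, nat_lit 1, nat_lit 1⟩]

def r17_0_11 : List Wr := [
    ⟨false, nat_lit 4, nat_lit 7, nat_lit 1, nat_lit 1⟩, ⟨true, nat_lit 2, nat_lit 7, nat_lit 1, nat_lit 1⟩, ⟨false, nat_lit 128, nat_lit 249, nat_lit 2, nat_lit 1⟩,
    ⟨false, nat_lit 8, nat_lit 137, nat_lit 1, nat_lit 1⟩, ⟨true, nat_lit 1, nat_lit 143, nat_lit 2, nat_lit 0⟩, ⟨false, nat_lit 1024, nat_lit 1904, nat_lit 2, nat_lit 1⟩,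
    ⟨false, nat_lit 64, nat_lit 1264, nat_lit 2, nat_lit 0⟩, ⟨true, nat_lit 16, nat_lit 1232, nat_lit 1, nat_lit 2⟩, ⟨false, nat_lit 4096, nat_lit 6944, nat_lit 1, nat_lit 3⟩,
    ⟨false, nat_lit 512, nat_lit 5920, nat_lit 2, nat_lit 0⟩, ⟨true, nat_lit 32, nat_lit 5856, nat_lit 2, nat_lit 1⟩, ⟨false, nat_lit 32768, nat_lit 59648, nat_lit 2, nat_lit 0⟩,
    ⟨false, nat_lit 2048, nat_lit 39168, nat_lit 1, nat_lit 2⟩, ⟨true, nat_lit 256, nat_lit 40704, nat_lit 2, nat_lit 1⟩, ⟨false, nat_lit 16384, nat_lit 57344, nat_lit 1, nat_lit 1⟩,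
    ⟨false, nat_lit 8192, nat_lit 57344, nat_lit 1, nat_lit 1⟩]

def l17_0 : List (Nat × List Wr × Nat) := [
  (nat_lit 6, r17_0_0, nat_lit 0), (nat_lit 6, r17_0_1, nat_lit 0), (nat_lit 4, r17_0_2, nat_lit 0),
  (nat_lit 6, r17_0_3, nat_lit 0), (nat_lit 6, r17_0_4, nat_lit 0), (nat_lit 6, r17_0_5, nat_lit 0),
  (nat_lit 6, r17_0_6, nat_lit 0), (nat_lit 6, r17_0_7, nat_lit 0), (nat_lit 6, r17_0_8, nat_lit 0),
  (nat_lit 6, r17_0_9, nat_lit 0), (nat_lit 4, r17_0_10, nat_lit 0), (nat_lit 6, r17_0_11, nat_lit 0)]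

end Pool.Agent.EC4.Run
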