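import Pool.Agent.Lib.MP_ec4eff_co.R5.Srch

/-! Generated file (project R5): results of the first lune -/

namespace Pool.Agent.EC4.Run

def r23_0_0 : List Wr := [
    ⟨true, nat_lit 4, nat_lit 7, nat_lit 1, nat_lit 1⟩, ⟨false, nat_lit 16, nat_lit 27, nat_lit 1, nat_lit 2⟩, ⟨false, nat_lit 8, nat_lit 27, nat_lit 1, nat_lit 2⟩,
    ⟨true, nat_lit 2, nat_lit 31, nat_lit 2, nat_lit 0⟩, ⟨false, nat_lit 256, nat_lit 481, nat_lit 2, nat_lit 0⟩, ⟨false, nat_lit 32, nat_lit 289, nat_lit 1, nat_lit 1⟩,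
    ⟨true, nat_lit 1, nat_lit 319, nat_lit 2, nat_lit 2⟩, ⟨false, nat_lit 32768, nat_lit 65216, nat_lit 3, nat_lit 1⟩, ⟨false, nat_lit 4096, nat_lit 40640, nat_lit 2, nat_lit 2⟩,
    ⟨true, nat_lit 128, nat_lit 37312, nat_lit 2, nat_lit 0⟩, ⟨false, nat_lit 2048, nat_lit 40512, nat_lit 2, nat_lit 1⟩, ⟨true, nat_lit 512, nat_lit 39488, nat_lit 1, nat_lit 3⟩,
    ⟨false, nat_lit 16384, nat_lit 58432, nat_lit 2, nat_lit 0⟩, ⟨false, nat_lit 1024, nat_lit 56384, nat_lit 2, nat_lit 1⟩, ⟨true, nat_lit 64, nat_lit 57280, nat_lit 3, nat_lit 1⟩,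
    ⟨false, nat_lit 8192, nat_lit 57344, nat_lit 1, nat_lit 1⟩]

def r23_0_1 : List Wr := [
    ⟨true, nat_lit 4, nat_lit 7, nat_lit 1, nat_lit 1⟩, ⟨false, nat_lit 256, nat_lit 507, nat_lit 3, nat_lit 0⟩, ⟨false, nat_lit 8, nat_lit 267, nat_lit 1, nat_lit 2⟩,
    ⟨true, nat_lit 2, nat_lit 271, nat_lit 2, nat_lit 0⟩, ⟨false, nat_lit 4096, nat_lit 7921, nat_lit 3, nat_lit 1⟩, ⟨false, nat_lit 128, nat_lit 4593, nat_lit 2, nat_lit 2⟩,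
    ⟨true, nat_lit 32, nat_lit 4529, nat_lit 2, nat_lit 1⟩, ⟨true, nat_lit 512, nat_lit 4689, nat_lit 1, nat_lit 3⟩, ⟨false, nat_lit 2048, nat_lit 7249, nat_lit 2, nat_lit 1⟩,
    ⟨false, nat_lit 64, nat_lit 7121, nat_lit 3, nat_lit 0⟩, ⟨true, nat_lit 16, nat_lit 7153, nat_lit 2, nat_lit 4⟩, ⟨false, nat_lit 32768, nat_lit 58369, nat_lit 2, nat_lit 0⟩,
    ⟨false, nat_lit 1024, nat_lit 39937, nat_lit 2, nat_lit 0⟩, ⟨true, nat_lit 1, nat_lit 40959, nat_lit 4, nat_lit 3⟩, ⟨false, nat_lit 16384, nat_lit 57344, nat_lit 1, nat_lit 1⟩,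
    ⟨false, nat_lit 8192, nat_lit 57344, nat_lit 1, nat_lit 1⟩]

def r23_0_2 : List Wr := [
    ⟨true, nat_lit 4, nat_lit 7, nat_lit 1, nat_lit 1⟩, ⟨false, nat_lit 256, nat_lit 507, nat_lit 3, nat_lit 0⟩, ⟨false, nat_lit 8, nat_lit 267, nat_lit 1, nat_lit 2⟩,
    ⟨true, nat_lit 2, nat_lit 271, nat_lit 2, nat_lit 0⟩, ⟨false, nat_lit 4096, nat_lit 7921, nat_lit 3, nat_lit 1⟩, ⟨false, nat_lit 128, nat_lit 4593, nat_lit 2, nat_lit 2⟩,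
    ⟨true, nat_lit 32, nat_lit 4529, nat_lit 2, nat_lit 1⟩, ⟨false, nat_lit 2048, nat_lit 7761, nat_lit 2, nat_lit 2⟩, ⟨false, nat_lit 512, nat_lit 6737, nat_lit 2, nat_lit 1⟩,
    ⟨true, nat_lit 16, nat_lit 7089, nat_lit 2, nat_lit 3⟩, ⟨true, nat_lit 64, nat_lit 7105, nat_lit 2, nat_lit 2⟩, ⟨false, nat_lit 32768, nat_lit 58369, nat_lit 2, nat_lit 0⟩,
    ⟨false, nat_lit 1024, nat_lit 39937, nat_lit 2, nat_lit 0⟩, ⟨true, nat_lit 1, nat_lit 40959, nat_lit 4, nat_lit 3⟩, ⟨false, nat_lit 16384, nat_lit 57344, nat_lit 1, nat_lit 1⟩,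
    ⟨false, nat_lit 8192, nat_lit 57344, nat_lit 1, nat_lit 1⟩]

def r23_0_3 : List Wr := [
    ⟨true, nat_lit 4, nat_lit 7, nat_lit 1, nat_lit 1⟩, ⟨false, nat_lit 256, nat_lit 507, nat_lit 3, nat_lit 0⟩, ⟨false, nat_lit 8, nat_lit 267, nat_lit 1, nat_lit 2⟩,
    ⟨true, nat_lit 2, nat_lit 271, nat_lit 2, nat_lit 0⟩, ⟨true, nat_lit 32, nat_lit 305, nat_lit 1, nat_lit 2⟩, ⟨false, nat_lit 4096, nat_lit 7889, nat_lit 3, nat_lit 0⟩,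
    ⟨false, nat_lit 128, nat_lit 4561, nat_lit 2, nat_lit 1⟩, ⟨true, nat_lit 16, nat_lit 4529, nat_lit 2, nat_lit 1⟩, ⟨true, nat_lit 512, nat_lit 4673, nat_lit 1, nat_lit 2⟩,
    ⟨false, nat_lit 32768, nat_lit 60481, nat_lit 2, nat_lit 2⟩, ⟨false, nat_lit 2048, nat_lit 40001, nat_lit 2, nat_lit 1⟩, ⟨true, nat_lit 64, nat_lit 39873, nat_lit 3, nat_lit 0⟩,
    ⟨false, nat_lit 16384, nat_lit 58369, nat_lit 2, nat_lit 0⟩, ⟨false, nat_lit 1024, nat_lit 56321, nat_lit 2, nat_lit 1⟩, ⟨true, nat_lit 1, nat_lit 57343, nat_lit 4, nat_lit 4⟩,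
    ⟨false, nat_lit 8192, nat_lit 57344, nat_lit 1, nat_lit 1⟩]

def r23_0_4 : List Wr := [
    ⟨true, nat_lit 4, nat_lit 7, nat_lit 1, nat_lit 1⟩, ⟨false, nat_lit 256, nat_lit 507, nat_lit 3, nat_lit 0⟩, ⟨false, nat_lit 8, nat_lit 267, nat_lit 1, nat_lit 2⟩,
    ⟨true, nat_lit 2, nat_lit 271, nat_lit 2, nat_lit 0⟩, ⟨false, nat_lit 32, nat_lit 305, nat_lit 1, nat_lit 2⟩, ⟨true, nat_lit 16, nat_lit 305, nat_lit 1, nat_lit 2⟩,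
    ⟨false, nat_lit 32768, nat_lit 65217, nat_lit 3, nat_lit 2⟩, ⟨false, nat_lit 128, nat_lit 33217, nat_lit 2, nat_lit 0⟩, ⟨true, nat_lit 1, nat_lit 33215, nat_lit 3, nat_lit 1⟩,
    ⟨true, nat_lit 4096, nat_lit 40512, nat_lit 2, nat_lit 1⟩, ⟨false, nat_lit 16384, nat_lit 60992, nat_lit 2, nat_lit 2⟩, ⟨false, nat_lit 2048, nat_lit 56896, nat_lit 2, nat_lit 2⟩,
    ⟨true, nat_lit 512, nat_lit 55872, nat_lit 2, nat_lit 1⟩, ⟨false, nat_lit 8192, nat_lit 58432, nat_lit 2, nat_lit 0⟩, ⟨false, nat_lit 1024, nat_lit 64576, nat_lit 2, nat_lit 2⟩,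
    ⟨false, nat_lit 64, nat_lit 65472, nat_lit 3, nat_lit 2⟩]

def r23_0_5 : List Wr := [
    ⟨true, nat_lit 4, nat_lit 7, nat_lit 1, nat_lit 1⟩, ⟨false, nat_lit 256, nat_lit 507, nat_lit 3, nat_lit 0⟩, ⟨false, nat_lit 16, nat_lit 283, nat_lit 1, nat_lit 3⟩,
    ⟨true, nat_lit 2, nat_lit 279, nat_lit 2, nat_lit 0⟩, ⟨true, nat_lit 32, nat_lit 297, nat_lit 1, nat_lit 2⟩, ⟨false, nat_lit 4096, nat_lit 7881, nat_lit 3, nat_lit 0⟩,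
    ⟨false, nat_lit 128, nat_lit 4553, nat_lit 2, nat_lit 1⟩, ⟨true, nat_lit 8, nat_lit 4537, nat_lit 2, nat_lit 2⟩, ⟨true, nat_lit 512, nat_lit 4673, nat_lit 1, nat_lit 2⟩,
    ⟨false, nat_lit 32768, nat_lit 60481, nat_lit 2, nat_lit 2⟩, ⟨false, nat_lit 2048, nat_lit 40001, nat_lit 2, nat_lit 1⟩, ⟨true, nat_lit 64, nat_lit 39873, nat_lit 3, nat_lit 0⟩,
    ⟨false, nat_lit 16384, nat_lit 58369, nat_lit 2, nat_lit 0⟩, ⟨false, nat_lit 1024, nat_lit 56321, nat_lit 2, nat_lit 1⟩, ⟨true, nat_lit 1, nat_lit 57343, nat_lit 4, nat_lit 4⟩,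
    ⟨false, nat_lit 8192, nat_lit 57344, nat_lit 1, nat_lit 1⟩]

def r23_0_6 : List Wr := [
    ⟨true, nat_lit 4, nat_lit 7, nat_lit 1, nat_lit 1⟩, ⟨false, nat_lit 4096, nat_lit 8187, nat_lit 4, nat_lit 1⟩, ⟨false, nat_lit 256, nat_lit 4603, nat_lit 3, nat_lit 1⟩,
    ⟨true, nat_lit 2, nat_lit 4359, nat_lit 2, nat_lit 0⟩, ⟨false, nat_lit 512, nat_lit 4857, nat_lit 2, nat_lit 3⟩, ⟨false, nat_lit 128, nat_lit 5113, nat_lit 3, nat_lit 1⟩,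
    ⟨true, nat_lit 32, nat_lit 5049, nat_lit 2, nat_lit 3⟩, ⟨false, nat_lit 32768, nat_lit 60505, nat_lit 3, nat_lit 1⟩, ⟨false, nat_lit 64, nat_lit 37849, nat_lit 3, nat_lit 1⟩,
    ⟨true, nat_lit 16, nat_lit 37881, nat_lit 3, nat_lit 2⟩, ⟨false, nat_lit 2048, nat_lit 39945, nat_lit 2, nat_lit 1⟩, ⟨true, nat_lit 8, nat_lit 39929, nat_lit 3, nat_lit 3⟩,
    ⟨false, nat_lit 16384, nat_lit 58369, nat_lit 2, nat_lit 0⟩, ⟨false, nat_lit 1024, nat_lit 56321, nat_lit 2, nat_lit 1⟩, ⟨true, nat_lit 1, nat_lit 57343, nat_lit 4, nat_lit 4⟩,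
    ⟨false, nat_lit 8192, nat_lit 57344, nat_lit 1, nat_lit 1⟩]

def r23_0_7 : List Wr := [
    ⟨true, nat_lit 4, nat_lit 7, nat_lit 1, nat_lit 1⟩, ⟨false, nat_lit 4096, nat_lit 8187, nat_lit 4, nat_lit 1⟩, ⟨false, nat_lit 256, nat_lit 4603, nat_lit 3, nat_lit 1⟩,
    ⟨true, nat_lit 2, nat_lit 4359, nat_lit 2, nat_lit 0⟩, ⟨false, nat_lit 512, nat_lit 4857, nat_lit 2, nat_lit 3⟩, ⟨false, nat_lit 128, nat_lit 5113, nat_lit 3, nat_lit 1⟩,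
    ⟨false, nat_lit 32, nat_lit 5049, nat_lit 2, nat_lit 3⟩, ⟨true, nat_lit 16, nat_lit 5049, nat_lit 2, nat_lit 3⟩, ⟨false, nat_lit 2048, nat_lit 7241, nat_lit 2, nat_lit 1⟩,
    ⟨false, nat_lit 64, nat_lit 7113, nat_lit 3, nat_lit 0⟩, ⟨true, nat_lit 1, nat_lit 7159, nat_lit 3, nat_lit 3⟩, ⟨false, nat_lit 32768, nat_lit 58376, nat_lit 2, nat_lit 0⟩,
    ⟨false, nat_lit 1024, nat_lit 39944, nat_lit 2, nat_lit 0⟩, ⟨true, nat_lit 8, nat_lit 40952, nat_lit 3, nat_lit 3⟩, ⟨false, nat_lit 16384, nat_lit 57344, nat_lit 1, nat_lit 1⟩,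
    ⟨false, nat_lit 8192, nat_lit 57344, nat_lit 1, nat_lit 1⟩]

def r23_0_8 : List Wr := [
    ⟨true, nat_lit 4, nat_lit 7, nat_lit 1, nat_lit 1⟩, ⟨false, nat_lit 4096, nat_lit 8187, nat_lit 4, nat_lit 1⟩, ⟨false, nat_lit 256, nat_lit 4603, nat_lit 3, nat_lit 1⟩,
    ⟨true, nat_lit 2, nat_lit 4359, nat_lit 2, nat_lit 0⟩, ⟨false, nat_lit 128, nat_lit 4601, nat_lit 2, nat_lit 3⟩, ⟨true, nat_lit 32, nat_lit 4537, nat_lit 2, nat_lit 2⟩,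
    ⟨false, nat_lit 512, nat_lit 4697, nat_lit 2, nat_lit 1⟩, ⟨false, nat_lit 16, nat_lit 5049, nat_lit 2, nat_lit 3⟩, ⟨true, nat_lit 1, nat_lit 5047, nat_lit 3, nat_lit 1⟩,
    ⟨false, nat_lit 32768, nat_lit 60488, nat_lit 2, nat_lit 2⟩, ⟨false, nat_lit 2048, nat_lit 40008, nat_lit 2, nat_lit 1⟩, ⟨true, nat_lit 64, nat_lit 39880, nat_lit 3, nat_lit 0⟩,
    ⟨false, nat_lit 16384, nat_lit 58376, nat_lit 2, nat_lit 0⟩, ⟨false, nat_lit 1024, nat_lit 56328, nat_lit 2, nat_lit 1⟩, ⟨true, nat_lit 8, nat_lit 57336, nat_lit 3, nat_lit 4⟩,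
    ⟨false, nat_lit 8192, nat_lit 57344, nat_lit 1, nat_lit 1⟩]

def r23_0_9 : List Wr := [
    ⟨true, nat_lit 4, nat_lit 7, nat_lit 1, nat_lit 1⟩, ⟨false, nat_lit 4096, nat_lit 8187, nat_lit 4, nat_lit 1⟩, ⟨false, nat_lit 256, nat_lit 4603, nat_lit 3, nat_lit 1⟩,
    ⟨true, nat_lit 2, nat_lit 4359, nat_lit 2, nat_lit 0⟩, ⟨true, nat_lit 128, nat_lit 4601, nat_lit 2, nat_lit 3⟩, ⟨false, nat_lit 512, nat_lit 4729, nat_lit 2, nat_lit 2⟩,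
    ⟨false, nat_lit 32, nat_lit 5049, nat_lit 2, nat_lit 3⟩, ⟨true, nat_lit 16, nat_lit 5049, nat_lit 2, nat_lit 3⟩, ⟨false, nat_lit 2048, nat_lit 7241, nat_lit 2, nat_lit 1⟩,
    ⟨false, nat_lit 64, nat_lit 7113, nat_lit 3, nat_lit 0⟩, ⟨true, nat_lit 8, nat_lit 7161, nat_lit 3, nat_lit 2⟩, ⟨false, nat_lit 32768, nat_lit 58369, nat_lit 2, nat_lit 0⟩,
    ⟨false, nat_lit 1024, nat_lit 39937, nat_lit 2, nat_lit 0⟩, ⟨true, nat_lit 1, nat_lit 40959, nat_lit 4, nat_lit 3⟩, ⟨false, nat_lit 16384, nat_lit 57344, nat_lit 1, nat_lit 1⟩,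
    ⟨false, nat_lit 8192, nat_lit 57344, nat_lit 1, nat_lit 1⟩]

def r23_0_10 : List Wr := [
    ⟨false, nat_lit 4, nat_lit 7, nat_lit 1, nat_lit 1⟩, ⟨true, nat_lit 2, nat_lit 7, nat_lit 1, nat_lit 1⟩, ⟨false, nat_lit 32768, nat_lit 65529, nat_lit 4, nat_lit 3⟩,
    ⟨false, nat_lit 8, nat_lit 32777, nat_lit 1, nat_lit 1⟩, ⟨true, nat_lit 1, nat_lit 32783, nat_lit 2, nat_lit 0⟩, ⟨true, nat_lit 256, nat_lit 33264, nat_lit 2, nat_lit 1⟩,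
    ⟨false, nat_lit 4096, nat_lit 40688, nat_lit 3, nat_lit 1⟩, ⟨false, nat_lit 128, nat_lit 37360, nat_lit 2, nat_lit 2⟩, ⟨true, nat_lit 32, nat_lit 37296, nat_lit 2, nat_lit 1⟩,
    ⟨false, nat_lit 2048, nat_lit 40528, nat_lit 2, nat_lit 2⟩, ⟨false, nat_lit 512, nat_lit 39504, nat_lit 2, nat_lit 1⟩, ⟨true, nat_lit 16, nat_lit 39856, nat_lit 2, nat_lit 3⟩,
    ⟨false, nat_lit 16384, nat_lit 58432, nat_lit 2, nat_lit 0⟩, ⟨false, nat_lit 1024, nat_lit 56384, nat_lit 2, nat_lit 1⟩, ⟨true, nat_lit 64, nat_lit 57280, nat_lit 3, nat_lit 1⟩,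
    ⟨false, nat_lit 8192, nat_lit 57344, nat_lit 1, nat_lit 1⟩]

def r23_0_11 : List Wr := [
    ⟨false, nat_lit 4, nat_lit 7, nat_lit 1, nat_lit 1⟩, ⟨true, nat_lit 2, nat_lit 7, nat_lit 1, nat_lit 1⟩, ⟨false, nat_lit 32768, nat_lit 65529, nat_lit 4, nat_lit 3⟩,
    ⟨false, nat_lit 8, nat_lit 32777, nat_lit 1, nat_lit 1⟩, ⟨true, nat_lit 1, nat_lit 32783, nat_lit 2, nat_lit 0⟩, ⟨false, nat_lit 256, nat_lit 33264, nat_lit 2, nat_lit 1⟩,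
    ⟨true, nat_lit 32, nat_lit 33072, nat_lit 1, nat_lit 2⟩, ⟨false, nat_lit 4096, nat_lit 40656, nat_lit 3, nat_lit 0⟩, ⟨false, nat_lit 128, nat_lit 37328, nat_lit 2, nat_lit 1⟩,
    ⟨true, nat_lit 16, nat_lit 37296, nat_lit 2, nat_lit 1⟩, ⟨false, nat_lit 16384, nat_lit 60992, nat_lit 2, nat_lit 2⟩, ⟨false, nat_lit 2048, nat_lit 56896, nat_lit 2, nat_lit 2⟩,
    ⟨true, nat_lit 512, nat_lit 55872, nat_lit 2, nat_lit 1⟩, ⟨false, nat_lit 8192, nat_lit 58432, nat_lit 2, nat_lit 0⟩, ⟨false, nat_lit 1024, nat_lit 64576, nat_lit 2, nat_lit 2⟩,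
    ⟨false, nat_lit 64, nat_lit 65472, nat_lit 3, nat_lit 2⟩]

def r23_0_12 : List Wr := [
    ⟨false, nat_lit 4, nat_lit 7, nat_lit 1, nat_lit 1⟩, ⟨true, nat_lit 2, nat_lit 7, nat_lit 1, nat_lit 1⟩, ⟨false, nat_lit 16, nat_lit 25, nat_lit 1, nat_lit 1⟩,
    ⟨false, nat_lit 8, nat_lit 25, nat_lit 1, nat_lit 1⟩, ⟨true, nat_lit 1, nat_lit 31, nat_lit 2, nat_lit 0⟩, ⟨false, nat_lit 32768, nat_lit 65504, nat_lit 3, nat_lit 3⟩,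
    ⟨false, nat_lit 256, nat_lit 33248, nat_lit 2, nat_lit 0⟩, ⟨true, nat_lit 32, nat_lit 33056, nat_lit 1, nat_lit 1⟩, ⟨false, nat_lit 4096, nat_lit 40640, nat_lit 2, nat_lit 2⟩,
    ⟨false, nat_lit 2048, nat_lit 40640, nat_lit 2, nat_lit 2⟩, ⟨false, nat_lit 512, nat_lit 39616, nat_lit 2, nat_lit 1⟩, ⟨true, nat_lit 128, nat_lit 39872, nat_lit 2, nat_lit 2⟩,
    ⟨false, nat_lit 16384, nat_lit 58432, nat_lit 2, nat_lit 0⟩, ⟨false, nat_lit 1024, nat_lit 56384, nat_lit 2, nat_lit 1⟩, ⟨true, nat_lit 64, nat_lit 57280, nat_lit 3, nat_lit 1⟩,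
    ⟨false, nat_lit 8192, nat_lit 57344, nat_lit 1, nat_lit 1⟩]

def l23_0 : List (Nat × List Wr × Nat) := [
  (nat_lit 6, r23_0_0, nat_lit 0), (nat_lit 6, r23_0_1, nat_lit 0), (nat_lit 6, r23_0_2, nat_lit 0),
  (nat_lit 4, r23_0_3, nat_lit 0), (nat_lit 6, r23_0_4, nat_lit 0), (nat_lit 6, r23_0_5, nat_lit 0),
  (nat_lit 6, r23_0_6, nat_lit 0), (nat_lit 6, r23_0_7, nat_lit 0), (nat_lit 6, r23_0_8, nat_lit 0),
  (nat_lit 6, r23_0_9, nat_lit 0), (nat_lit 6, r23_0_10, nat_lit 0), (nat_lit 6, r23_0_11, nat_lit 0),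
  (nat_lit 6, r23_0_12, nat_lit 0)]

def r78_0_0 : List Wr := [
    ⟨false, nat_lit 16, nat_lit 31, nat_lit 2, nat_lit 0⟩, ⟨false, nat_lit 2, nat_lit 19, nat_lit 1, nat_lit 1⟩, ⟨true, nat_lit 1, nat_lit 19, nat_lit 1, nat_lit 1⟩,
    ⟨false, nat_lit 32768, nat_lit 65516, nat_lit 4, nat_lit 2⟩, ⟨false, nat_lit 128, nat_lit 33004, nat_lit 2, nat_lit 1⟩, ⟨true, nat_lit 8, nat_lit 32924, nat_lit 2, nat_lit 0⟩,
    ⟨false, nat_lit 1024, nat_lit 34660, nat_lit 2, nat_lit 2⟩, ⟨true, nat_lit 64, nat_lit 34020, nat_lit 2, nat_lit 1⟩, ⟨false, nat_lit 4096, nat_lit 39716, nat_lit 2, nat_lit 2⟩,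
    ⟨false, nat_lit 512, nat_lit 38692, nat_lit 2, nat_lit 2⟩, ⟨true, nat_lit 4, nat_lit 38620, nat_lit 3, nat_lit 1⟩, ⟨true, nat_lit 256, nat_lit 38688, nat_lit 2, nat_lit 1⟩,
    ⟨false, nat_lit 16384, nat_lit 59424, nat_lit 2, nat_lit 0⟩, ⟨false, nat_lit 2048, nat_lit 55328, nat_lit 1, nat_lit 3⟩, ⟨true, nat_lit 32, nat_lit 57312, nat_lit 3, nat_lit 2⟩,
    ⟨false, nat_lit 8192, nat_lit 57344, nat_lit 1, nat_lit 1⟩]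

def r78_0_1 : List Wr := [
    ⟨false, nat_lit 16, nat_lit 31, nat_lit 2, nat_lit 0⟩, ⟨false, nat_lit 2, nat_lit 19, nat_lit 1, nat_lit 1⟩, ⟨true, nat_lit 1, nat_lit 19, nat_lit 1, nat_lit 1⟩,
    ⟨true, nat_lit 8, nat_lit 28, nat_lit 1, nat_lit 1⟩, ⟨true, nat_lit 128, nat_lit 228, nat_lit 1, nat_lit 2⟩, ⟨false, nat_lit 1024, nat_lit 1892, nat_lit 2, nat_lit 1⟩,
    ⟨false, nat_lit 64, nat_lit 1252, nat_lit 2, nat_lit 0⟩, ⟨true, nat_lit 4, nat_lit 1244, nat_lit 2, nat_lit 1⟩, ⟨false, nat_lit 4096, nat_lit 6944, nat_lit 1, nat_lit 3⟩,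
    ⟨false, nat_lit 512, nat_lit 5920, nat_lit 2, nat_lit 0⟩, ⟨true, nat_lit 32, nat_lit 5856, nat_lit 2, nat_lit 1⟩, ⟨false, nat_lit 32768, nat_lit 59648, nat_lit 2, nat_lit 0⟩,
    ⟨false, nat_lit 2048, nat_lit 39168, nat_lit 1, nat_lit 2⟩, ⟨true, nat_lit 256, nat_lit 40704, nat_lit 2, nat_lit 1⟩, ⟨false, nat_lit 16384, nat_lit 57344, nat_lit 1, nat_lit 1⟩,
    ⟨false, nat_lit 8192, nat_lit 57344, nat_lit 1, nat_lit 1⟩]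

def r78_0_2 : List Wr := [
    ⟨false, nat_lit 16, nat_lit 31, nat_lit 2, nat_lit 0⟩, ⟨false, nat_lit 2, nat_lit 19, nat_lit 1, nat_lit 1⟩, ⟨true, nat_lit 1, nat_lit 19, nat_lit 1, nat_lit 1⟩,
    ⟨false, nat_lit 128, nat_lit 236, nat_lit 1, nat_lit 3⟩, ⟨true, nat_lit 8, nat_lit 156, nat_lit 1, nat_lit 2⟩, ⟨false, nat_lit 1024, nat_lit 1892, nat_lit 2, nat_lit 1⟩,
    ⟨false, nat_lit 64, nat_lit 1252, nat_lit 2, nat_lit 0⟩, ⟨true, nat_lit 4, nat_lit 1244, nat_lit 2, nat_lit 1⟩, ⟨false, nat_lit 4096, nat_lit 6944, nat_lit 1, nat_lit 3⟩,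
    ⟨false, nat_lit 512, nat_lit 5920, nat_lit 2, nat_lit 0⟩, ⟨true, nat_lit 32, nat_lit 5856, nat_lit 2, nat_lit 1⟩, ⟨false, nat_lit 32768, nat_lit 59648, nat_lit 2, nat_lit 0⟩,
    ⟨false, nat_lit 2048, nat_lit 39168, nat_lit 1, nat_lit 2⟩, ⟨true, nat_lit 256, nat_lit 40704, nat_lit 2, nat_lit 1⟩, ⟨false, nat_lit 16384, nat_lit 57344, nat_lit 1, nat_lit 1⟩,
    ⟨false, nat_lit 8192, nat_lit 57344, nat_lit 1, nat_lit 1⟩]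

def r78_0_3 : List Wr := [
    ⟨false, nat_lit 16, nat_lit 31, nat_lit 2, nat_lit 0⟩, ⟨false, nat_lit 2, nat_lit 19, nat_lit 1, nat_lit 1⟩, ⟨true, nat_lit 1, nat_lit 19, nat_lit 1, nat_lit 1⟩,
    ⟨true, nat_lit 8, nat_lit 28, nat_lit 1, nat_lit 1⟩, ⟨false, nat_lit 1024, nat_lit 2020, nat_lit 2, nat_lit 2⟩, ⟨false, nat_lit 128, nat_lit 1252, nat_lit 2, nat_lit 0⟩,
    ⟨true, nat_lit 4, nat_lit 1180, nat_lit 2, nat_lit 0⟩, ⟨false, nat_lit 32768, nat_lit 64352, nat_lit 3, nat_lit 1⟩, ⟨false, nat_lit 512, nat_lit 34656, nat_lit 2, nat_lit 1⟩,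
    ⟨true, nat_lit 64, nat_lit 34528, nat_lit 2, nat_lit 1⟩, ⟨false, nat_lit 4096, nat_lit 39200, nat_lit 1, nat_lit 3⟩, ⟨true, nat_lit 256, nat_lit 38688, nat_lit 2, nat_lit 1⟩,
    ⟨false, nat_lit 16384, nat_lit 59424, nat_lit 2, nat_lit 0⟩, ⟨false, nat_lit 2048, nat_lit 55328, nat_lit 1, nat_lit 3⟩, ⟨true, nat_lit 32, nat_lit 57312, nat_lit 3, nat_lit 2⟩,
    ⟨false, nat_lit 8192, nat_lit 57344, nat_lit 1, nat_lit 1⟩]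

def r78_0_4 : List Wr := [
    ⟨false, nat_lit 16, nat_lit 31, nat_lit 2, nat_lit 0⟩, ⟨false, nat_lit 2, nat_lit 19, nat_lit 1, nat_lit 1⟩, ⟨true, nat_lit 1, nat_lit 19, nat_lit 1, nat_lit 1⟩,
    ⟨true, nat_lit 8, nat_lit 28, nat_lit 1, nat_lit 1⟩, ⟨false, nat_lit 1024, nat_lit 2020, nat_lit 2, nat_lit 2⟩, ⟨false, nat_lit 128, nat_lit 1252, nat_lit 2, nat_lit 0⟩,
    ⟨true, nat_lit 4, nat_lit 1180, nat_lit 2, nat_lit 0⟩, ⟨true, nat_lit 64, nat_lit 1248, nat_lit 1, nat_lit 2⟩, ⟨false, nat_lit 4096, nat_lit 6944, nat_lit 1, nat_lit 3⟩,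
    ⟨false, nat_lit 512, nat_lit 5920, nat_lit 2, nat_lit 0⟩, ⟨true, nat_lit 32, nat_lit 5856, nat_lit 2, nat_lit 1⟩, ⟨false, nat_lit 32768, nat_lit 59648, nat_lit 2, nat_lit 0⟩,
    ⟨false, nat_lit 2048, nat_lit 39168, nat_lit 1, nat_lit 2⟩, ⟨true, nat_lit 256, nat_lit 40704, nat_lit 2, nat_lit 1⟩, ⟨false, nat_lit 16384, nat_lit 57344, nat_lit 1, nat_lit 1⟩,
    ⟨false, nat_lit 8192, nat_lit 57344, nat_lit 1, nat_lit 1⟩]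

def l78_0 : List (Nat × List Wr × Nat) := [
  (nat_lit 5, r78_0_0, nat_lit 0), (nat_lit 5, r78_0_1, nat_lit 0), (nat_lit 6, r78_0_2, nat_lit 1),
  (nat_lit 5, r78_0_3, nat_lit 0), (nat_lit 5, r78_0_4, nat_lit 0)]

def r97_0_0 : List Wr := [
    ⟨false, nat_lit 32, nat_lit 63, nat_lit 2, nat_lit 1⟩, ⟨false, nat_lit 4, nat_lit 39, nat_lit 1, nat_lit 2⟩, ⟨true, nat_lit 1, nat_lit 37, nat_lit 1, nat_lit 1⟩,
    ⟨false, nat_lit 4096, nat_lit 8154, nat_lit 3, nat_lit 2⟩, ⟨false, nat_lit 16, nat_lit 4154, nat_lit 2, nat_lit 0⟩, ⟨true, nat_lit 2, nat_lit 4150, nat_lit 1, nat_lit 3⟩,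
    ⟨true, nat_lit 512, nat_lit 5064, nat_lit 2, nat_lit 1⟩, ⟨false, nat_lit 32768, nat_lit 60872, nat_lit 3, nat_lit 1⟩, ⟨false, nat_lit 256, nat_lit 37832, nat_lit 2, nat_lit 2⟩,
    ⟨true, nat_lit 64, nat_lit 37704, nat_lit 2, nat_lit 1⟩, ⟨false, nat_lit 2048, nat_lit 40072, nat_lit 2, nat_lit 1⟩, ⟨true, nat_lit 128, nat_lit 39816, nat_lit 2, nat_lit 2⟩,
    ⟨false, nat_lit 16384, nat_lit 58376, nat_lit 2, nat_lit 0⟩, ⟨false, nat_lit 1024, nat_lit 56328, nat_lit 2, nat_lit 1⟩, ⟨true, nat_lit 8, nat_lit 57336, nat_lit 4, nat_lit 1⟩,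
    ⟨false, nat_lit 8192, nat_lit 57344, nat_lit 1, nat_lit 1⟩]

def r97_0_1 : List Wr := [
    ⟨false, nat_lit 32, nat_lit 63, nat_lit 2, nat_lit 1⟩, ⟨false, nat_lit 4, nat_lit 39, nat_lit 1, nat_lit 2⟩, ⟨true, nat_lit 1, nat_lit 37, nat_lit 1, nat_lit 1⟩,
    ⟨false, nat_lit 4096, nat_lit 8154, nat_lit 3, nat_lit 2⟩, ⟨false, nat_lit 16, nat_lit 4154, nat_lit 2, nat_lit 0⟩, ⟨true, nat_lit 2, nat_lit 4150, nat_lit 1, nat_lit 3⟩,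
    ⟨false, nat_lit 512, nat_lit 5064, nat_lit 2, nat_lit 1⟩, ⟨true, nat_lit 64, nat_lit 4680, nat_lit 1, nat_lit 2⟩, ⟨false, nat_lit 2048, nat_lit 7560, nat_lit 2, nat_lit 1⟩,
    ⟨false, nat_lit 256, nat_lit 7048, nat_lit 2, nat_lit 1⟩, ⟨true, nat_lit 8, nat_lit 7032, nat_lit 3, nat_lit 0⟩, ⟨false, nat_lit 32768, nat_lit 58496, nat_lit 2, nat_lit 0⟩,
    ⟨false, nat_lit 1024, nat_lit 40064, nat_lit 2, nat_lit 0⟩, ⟨true, nat_lit 128, nat_lit 40832, nat_lit 2, nat_lit 2⟩, ⟨false, nat_lit 16384, nat_lit 57344, nat_lit 1, nat_lit 1⟩,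
    ⟨false, nat_lit 8192, nat_lit 57344, nat_lit 1, nat_lit 1⟩]

def l97_0 : List (Nat × List Wr × Nat) := [
  (nat_lit 5, r97_0_0, nat_lit 0), (nat_lit 5, r97_0_1, nat_lit 0)]

end Pool.Agent.EC4.Run
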