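import Pool.Agent.Lib.MP_ec4eff_co.R5.Dec
import Pool.Agent.Lib.MP_ec4eff_co.R5.Run.D13

/-! Generated file (project R5): the first lune -/

namespace Pool.Agent.EC4.Run

theorem a23 : runA (l23_0) [0, 1, 1, 1, 0, 1, 0, 0] = false := by decide +kernel

theorem a13 : runA ([]) [0, 1, 0, 1, 2, 0, 0] = false := by decide +kernel

theorem a78 : runA (l78_0) [1, 1, 0, 0, 0, 2, 0] = false := by decide +kernel

theorem a97 : runA (l97_0) [1, 2, 0, 1, 0, 0, 0] = false := by decide +kernel

end Pool.Agent.EC4.Run
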