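import Pool.Agent.Lib.MP_ec4eff_co.R5.Srch

/-! Generated file (project R5): results of the first lune -/

namespace Pool.Agent.EC4.Run

def r58_0_0 : List Wr := [
    ⟨false, nat_lit 32768, nat_lit 65535, nat_lit 5, nat_lit 2⟩, ⟨false, nat_lit 8, nat_lit 32783, nat_lit 2, nat_lit 0⟩, ⟨true, nat_lit 1, nat_lit 32777, nat_lit 1, nat_lit 1⟩,
    ⟨false, nat_lit 128, nat_lit 33014, nat_lit 2, nat_lit 2⟩, ⟨true, nat_lit 16, nat_lit 32918, nat_lit 1, nat_lit 3⟩, ⟨false, nat_lit 1024, nat_lit 34662, nat_lit 3, nat_lit 0⟩,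
    ⟨false, nat_lit 64, nat_lit 34022, nat_lit 2, nat_lit 2⟩, ⟨true, nat_lit 4, nat_lit 34014, nat_lit 3, nat_lit 0⟩, ⟨false, nat_lit 16384, nat_lit 64290, nat_lit 3, nat_lit 1⟩,
    ⟨false, nat_lit 4096, nat_lit 56098, nat_lit 2, nat_lit 3⟩, ⟨true, nat_lit 32, nat_lit 54498, nat_lit 3, nat_lit 0⟩, ⟨false, nat_lit 2048, nat_lit 56066, nat_lit 2, nat_lit 2⟩,
    ⟨true, nat_lit 512, nat_lit 57090, nat_lit 2, nat_lit 3⟩, ⟨false, nat_lit 8192, nat_lit 57602, nat_lit 2, nat_lit 0⟩, ⟨false, nat_lit 256, nat_lit 65282, nat_lit 3, nat_lit 1⟩,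
    ⟨false, nat_lit 2, nat_lit 65534, nat_lit 4, nat_lit 4⟩]

def r58_0_1 : List Wr := [
    ⟨true, nat_lit 1, nat_lit 1, nat_lit 0, nat_lit 2⟩, ⟨true, nat_lit 8, nat_lit 14, nat_lit 1, nat_lit 1⟩, ⟨false, nat_lit 128, nat_lit 246, nat_lit 2, nat_lit 1⟩,
    ⟨false, nat_lit 16, nat_lit 150, nat_lit 1, nat_lit 2⟩, ⟨true, nat_lit 4, nat_lit 158, nat_lit 2, nat_lit 0⟩, ⟨false, nat_lit 1024, nat_lit 1890, nat_lit 2, nat_lit 1⟩,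
    ⟨false, nat_lit 64, nat_lit 1250, nat_lit 2, nat_lit 0⟩, ⟨true, nat_lit 2, nat_lit 1246, nat_lit 2, nat_lit 2⟩, ⟨false, nat_lit 2048, nat_lit 2848, nat_lit 1, nat_lit 2⟩,
    ⟨false, nat_lit 512, nat_lit 3872, nat_lit 2, nat_lit 0⟩, ⟨true, nat_lit 32, nat_lit 3808, nat_lit 2, nat_lit 1⟩, ⟨false, nat_lit 32768, nat_lit 61696, nat_lit 2, nat_lit 0⟩,
    ⟨false, nat_lit 4096, nat_lit 37120, nat_lit 1, nat_lit 1⟩, ⟨true, nat_lit 256, nat_lit 40704, nat_lit 2, nat_lit 1⟩, ⟨false, nat_lit 16384, nat_lit 57344, nat_lit 1, nat_lit 1⟩,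
    ⟨false, nat_lit 8192, nat_lit 57344, nat_lit 1, nat_lit 1⟩]

def r58_0_2 : List Wr := [
    ⟨false, nat_lit 32768, nat_lit 65535, nat_lit 5, nat_lit 2⟩, ⟨false, nat_lit 8, nat_lit 32783, nat_lit 2, nat_lit 0⟩, ⟨true, nat_lit 1, nat_lit 32777, nat_lit 1, nat_lit 1⟩,
    ⟨false, nat_lit 128, nat_lit 33014, nat_lit 2, nat_lit 2⟩, ⟨true, nat_lit 16, nat_lit 32918, nat_lit 1, nat_lit 3⟩, ⟨false, nat_lit 4096, nat_lit 40806, nat_lit 3, nat_lit 2⟩,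
    ⟨false, nat_lit 1024, nat_lit 38758, nat_lit 3, nat_lit 1⟩, ⟨true, nat_lit 4, nat_lit 38046, nat_lit 3, nat_lit 0⟩, ⟨false, nat_lit 2048, nat_lit 39778, nat_lit 2, nat_lit 3⟩,
    ⟨false, nat_lit 512, nat_lit 40802, nat_lit 3, nat_lit 1⟩, ⟨false, nat_lit 64, nat_lit 40674, nat_lit 3, nat_lit 1⟩, ⟨true, nat_lit 32, nat_lit 40674, nat_lit 2, nat_lit 4⟩,
    ⟨false, nat_lit 16384, nat_lit 57602, nat_lit 2, nat_lit 0⟩, ⟨false, nat_lit 256, nat_lit 57090, nat_lit 3, nat_lit 0⟩, ⟨true, nat_lit 2, nat_lit 57342, nat_lit 4, nat_lit 3⟩,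
    ⟨false, nat_lit 8192, nat_lit 57344, nat_lit 1, nat_lit 1⟩]

def r58_0_3 : List Wr := [
    ⟨false, nat_lit 32768, nat_lit 65535, nat_lit 5, nat_lit 2⟩, ⟨false, nat_lit 8, nat_lit 32783, nat_lit 2, nat_lit 0⟩, ⟨true, nat_lit 1, nat_lit 32777, nat_lit 1, nat_lit 1⟩,
    ⟨false, nat_lit 1024, nat_lit 34806, nat_lit 3, nat_lit 2⟩, ⟨true, nat_lit 128, nat_lit 34038, nat_lit 2, nat_lit 3⟩, ⟨false, nat_lit 512, nat_lit 34678, nat_lit 3, nat_lit 1⟩,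
    ⟨false, nat_lit 64, nat_lit 34550, nat_lit 3, nat_lit 1⟩, ⟨true, nat_lit 4, nat_lit 34510, nat_lit 3, nat_lit 0⟩, ⟨false, nat_lit 4096, nat_lit 39218, nat_lit 2, nat_lit 2⟩,
    ⟨false, nat_lit 32, nat_lit 38642, nat_lit 3, nat_lit 1⟩, ⟨true, nat_lit 16, nat_lit 38642, nat_lit 2, nat_lit 4⟩, ⟨true, nat_lit 2048, nat_lit 39170, nat_lit 1, nat_lit 3⟩,
    ⟨false, nat_lit 16384, nat_lit 57602, nat_lit 2, nat_lit 0⟩, ⟨false, nat_lit 256, nat_lit 57090, nat_lit 3, nat_lit 0⟩, ⟨true, nat_lit 2, nat_lit 57342, nat_lit 4, nat_lit 3⟩,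
    ⟨false, nat_lit 8192, nat_lit 57344, nat_lit 1, nat_lit 1⟩]

def r58_0_4 : List Wr := [
    ⟨false, nat_lit 32768, nat_lit 65535, nat_lit 5, nat_lit 2⟩, ⟨false, nat_lit 8, nat_lit 32783, nat_lit 2, nat_lit 0⟩, ⟨true, nat_lit 1, nat_lit 32777, nat_lit 1, nat_lit 1⟩,
    ⟨false, nat_lit 1024, nat_lit 34806, nat_lit 3, nat_lit 2⟩, ⟨true, nat_lit 128, nat_lit 34038, nat_lit 2, nat_lit 3⟩, ⟨false, nat_lit 512, nat_lit 34678, nat_lit 3, nat_lit 1⟩,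
    ⟨false, nat_lit 64, nat_lit 34550, nat_lit 3, nat_lit 1⟩, ⟨true, nat_lit 4, nat_lit 34510, nat_lit 3, nat_lit 0⟩, ⟨false, nat_lit 4096, nat_lit 39218, nat_lit 2, nat_lit 2⟩,
    ⟨false, nat_lit 32, nat_lit 38642, nat_lit 3, nat_lit 1⟩, ⟨true, nat_lit 16, nat_lit 38642, nat_lit 2, nat_lit 4⟩, ⟨false, nat_lit 16384, nat_lit 59650, nat_lit 2, nat_lit 1⟩,
    ⟨false, nat_lit 2048, nat_lit 55554, nat_lit 2, nat_lit 1⟩, ⟨true, nat_lit 2, nat_lit 57086, nat_lit 4, nat_lit 2⟩, ⟨true, nat_lit 256, nat_lit 57088, nat_lit 2, nat_lit 2⟩,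
    ⟨false, nat_lit 8192, nat_lit 57344, nat_lit 1, nat_lit 1⟩]

def r58_0_5 : List Wr := [
    ⟨false, nat_lit 1024, nat_lit 2047, nat_lit 3, nat_lit 3⟩, ⟨false, nat_lit 8, nat_lit 1039, nat_lit 2, nat_lit 0⟩, ⟨true, nat_lit 1, nat_lit 1033, nat_lit 1, nat_lit 1⟩,
    ⟨false, nat_lit 128, nat_lit 1270, nat_lit 2, nat_lit 2⟩, ⟨false, nat_lit 64, nat_lit 1270, nat_lit 2, nat_lit 2⟩, ⟨false, nat_lit 16, nat_lit 1238, nat_lit 2, nat_lit 1⟩,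
    ⟨true, nat_lit 4, nat_lit 1246, nat_lit 2, nat_lit 2⟩, ⟨false, nat_lit 512, nat_lit 1826, nat_lit 2, nat_lit 0⟩, ⟨false, nat_lit 32, nat_lit 1762, nat_lit 2, nat_lit 1⟩,
    ⟨true, nat_lit 2, nat_lit 1790, nat_lit 3, nat_lit 1⟩, ⟨true, nat_lit 256, nat_lit 1792, nat_lit 1, nat_lit 1⟩, ⟨false, nat_lit 32768, nat_lit 63488, nat_lit 2, nat_lit 0⟩,
    ⟨false, nat_lit 4096, nat_lit 38912, nat_lit 1, nat_lit 1⟩, ⟨true, nat_lit 2048, nat_lit 38912, nat_lit 1, nat_lit 1⟩, ⟨false, nat_lit 16384, nat_lit 57344, nat_lit 1, nat_lit 1⟩,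
    ⟨false, nat_lit 8192, nat_lit 57344, nat_lit 1, nat_lit 1⟩]

def r58_0_6 : List Wr := [
    ⟨false, nat_lit 1024, nat_lit 2047, nat_lit 3, nat_lit 3⟩, ⟨false, nat_lit 8, nat_lit 1039, nat_lit 2, nat_lit 0⟩, ⟨true, nat_lit 1, nat_lit 1033, nat_lit 1, nat_lit 1⟩,
    ⟨false, nat_lit 128, nat_lit 1270, nat_lit 2, nat_lit 2⟩, ⟨false, nat_lit 64, nat_lit 1270, nat_lit 2, nat_lit 2⟩, ⟨false, nat_lit 16, nat_lit 1238, nat_lit 2, nat_lit 1⟩,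
    ⟨true, nat_lit 4, nat_lit 1246, nat_lit 2, nat_lit 2⟩, ⟨false, nat_lit 512, nat_lit 1826, nat_lit 2, nat_lit 0⟩, ⟨false, nat_lit 32, nat_lit 1762, nat_lit 2, nat_lit 1⟩,
    ⟨true, nat_lit 2, nat_lit 1790, nat_lit 3, nat_lit 1⟩, ⟨false, nat_lit 4096, nat_lit 6400, nat_lit 1, nat_lit 1⟩, ⟨false, nat_lit 2048, nat_lit 6400, nat_lit 1, nat_lit 1⟩,
    ⟨true, nat_lit 256, nat_lit 7936, nat_lit 2, nat_lit 0⟩, ⟨false, nat_lit 32768, nat_lit 57344, nat_lit 1, nat_lit 1⟩, ⟨false, nat_lit 16384, nat_lit 57344, nat_lit 1, nat_lit 1⟩,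
    ⟨false, nat_lit 8192, nat_lit 57344, nat_lit 1, nat_lit 1⟩]

def l58_0 : List (Nat × List Wr × Nat) := [
  (nat_lit 6, r58_0_0, nat_lit 0), (nat_lit 6, r58_0_1, nat_lit 0), (nat_lit 6, r58_0_2, nat_lit 0),
  (nat_lit 6, r58_0_3, nat_lit 0), (nat_lit 6, r58_0_4, nat_lit 0), (nat_lit 6, r58_0_5, nat_lit 0),
  (nat_lit 6, r58_0_6, nat_lit 0)]

def r87_0_0 : List Wr := [
    ⟨false, nat_lit 16, nat_lit 31, nat_lit 2, nat_lit 0⟩, ⟨false, nat_lit 2, nat_lit 19, nat_lit 1, nat_lit 1⟩, ⟨true, nat_lit 1, nat_lit 19, nat_lit 1, nat_lit 1⟩,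
    ⟨false, nat_lit 4096, nat_lit 8172, nat_lit 3, nat_lit 2⟩, ⟨false, nat_lit 64, nat_lit 4204, nat_lit 1, nat_lit 3⟩, ⟨true, nat_lit 8, nat_lit 4188, nat_lit 2, nat_lit 0⟩,
    ⟨true, nat_lit 512, nat_lit 5028, nat_lit 2, nat_lit 1⟩, ⟨false, nat_lit 32768, nat_lit 60836, nat_lit 3, nat_lit 1⟩, ⟨false, nat_lit 256, nat_lit 37796, nat_lit 2, nat_lit 2⟩,
    ⟨true, nat_lit 32, nat_lit 37732, nat_lit 2, nat_lit 2⟩, ⟨false, nat_lit 2048, nat_lit 40068, nat_lit 2, nat_lit 1⟩, ⟨true, nat_lit 128, nat_lit 39812, nat_lit 2, nat_lit 2⟩,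
    ⟨false, nat_lit 16384, nat_lit 58372, nat_lit 2, nat_lit 0⟩, ⟨false, nat_lit 1024, nat_lit 56324, nat_lit 2, nat_lit 1⟩, ⟨true, nat_lit 4, nat_lit 57340, nat_lit 4, nat_lit 2⟩,
    ⟨false, nat_lit 8192, nat_lit 57344, nat_lit 1, nat_lit 1⟩]

def r87_0_1 : List Wr := [
    ⟨false, nat_lit 16, nat_lit 31, nat_lit 2, nat_lit 0⟩, ⟨false, nat_lit 2, nat_lit 19, nat_lit 1, nat_lit 1⟩, ⟨true, nat_lit 1, nat_lit 19, nat_lit 1, nat_lit 1⟩,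
    ⟨false, nat_lit 4096, nat_lit 8172, nat_lit 3, nat_lit 2⟩, ⟨false, nat_lit 64, nat_lit 4204, nat_lit 1, nat_lit 3⟩, ⟨true, nat_lit 8, nat_lit 4188, nat_lit 2, nat_lit 0⟩,
    ⟨false, nat_lit 512, nat_lit 5028, nat_lit 2, nat_lit 1⟩, ⟨true, nat_lit 32, nat_lit 4708, nat_lit 1, nat_lit 3⟩, ⟨false, nat_lit 2048, nat_lit 7556, nat_lit 2, nat_lit 1⟩,
    ⟨false, nat_lit 256, nat_lit 7044, nat_lit 2, nat_lit 1⟩, ⟨true, nat_lit 4, nat_lit 7036, nat_lit 3, nat_lit 1⟩, ⟨false, nat_lit 32768, nat_lit 58496, nat_lit 2, nat_lit 0⟩,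
    ⟨false, nat_lit 1024, nat_lit 40064, nat_lit 2, nat_lit 0⟩, ⟨true, nat_lit 128, nat_lit 40832, nat_lit 2, nat_lit 2⟩, ⟨false, nat_lit 16384, nat_lit 57344, nat_lit 1, nat_lit 1⟩,
    ⟨false, nat_lit 8192, nat_lit 57344, nat_lit 1, nat_lit 1⟩]

def r87_0_2 : List Wr := [
    ⟨false, nat_lit 16, nat_lit 31, nat_lit 2, nat_lit 0⟩, ⟨false, nat_lit 2, nat_lit 19, nat_lit 1, nat_lit 1⟩, ⟨true, nat_lit 1, nat_lit 19, nat_lit 1, nat_lit 1⟩,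
    ⟨true, nat_lit 8, nat_lit 28, nat_lit 1, nat_lit 1⟩, ⟨false, nat_lit 512, nat_lit 996, nat_lit 2, nat_lit 1⟩, ⟨false, nat_lit 64, nat_lit 612, nat_lit 1, nat_lit 2⟩,
    ⟨true, nat_lit 4, nat_lit 604, nat_lit 2, nat_lit 0⟩, ⟨false, nat_lit 4096, nat_lit 7584, nat_lit 2, nat_lit 1⟩, ⟨false, nat_lit 256, nat_lit 5024, nat_lit 2, nat_lit 0⟩,
    ⟨true, nat_lit 32, nat_lit 4960, nat_lit 1, nat_lit 3⟩, ⟨true, nat_lit 2048, nat_lit 7296, nat_lit 1, nat_lit 2⟩, ⟨false, nat_lit 32768, nat_lit 58496, nat_lit 2, nat_lit 0⟩,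
    ⟨false, nat_lit 1024, nat_lit 40064, nat_lit 2, nat_lit 0⟩, ⟨true, nat_lit 128, nat_lit 40832, nat_lit 2, nat_lit 2⟩, ⟨false, nat_lit 16384, nat_lit 57344, nat_lit 1, nat_lit 1⟩,
    ⟨false, nat_lit 8192, nat_lit 57344, nat_lit 1, nat_lit 1⟩]

def r87_0_3 : List Wr := [
    ⟨false, nat_lit 16, nat_lit 31, nat_lit 2, nat_lit 0⟩, ⟨false, nat_lit 2, nat_lit 19, nat_lit 1, nat_lit 1⟩, ⟨true, nat_lit 1, nat_lit 19, nat_lit 1, nat_lit 1⟩,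
    ⟨true, nat_lit 8, nat_lit 28, nat_lit 1, nat_lit 1⟩, ⟨false, nat_lit 512, nat_lit 996, nat_lit 2, nat_lit 1⟩, ⟨false, nat_lit 64, nat_lit 612, nat_lit 1, nat_lit 2⟩,
    ⟨true, nat_lit 4, nat_lit 604, nat_lit 2, nat_lit 0⟩, ⟨false, nat_lit 4096, nat_lit 7584, nat_lit 2, nat_lit 1⟩, ⟨false, nat_lit 256, nat_lit 5024, nat_lit 2, nat_lit 0⟩,
    ⟨true, nat_lit 32, nat_lit 4960, nat_lit 1, nat_lit 3⟩, ⟨false, nat_lit 32768, nat_lit 60544, nat_lit 2, nat_lit 1⟩, ⟨false, nat_lit 2048, nat_lit 40064, nat_lit 2, nat_lit 0⟩,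
    ⟨true, nat_lit 128, nat_lit 39808, nat_lit 2, nat_lit 1⟩, ⟨true, nat_lit 1024, nat_lit 39936, nat_lit 1, nat_lit 2⟩, ⟨false, nat_lit 16384, nat_lit 57344, nat_lit 1, nat_lit 1⟩,
    ⟨false, nat_lit 8192, nat_lit 57344, nat_lit 1, nat_lit 1⟩]

def r87_0_4 : List Wr := [
    ⟨false, nat_lit 16, nat_lit 31, nat_lit 2, nat_lit 0⟩, ⟨false, nat_lit 2, nat_lit 19, nat_lit 1, nat_lit 1⟩, ⟨true, nat_lit 1, nat_lit 19, nat_lit 1, nat_lit 1⟩,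
    ⟨true, nat_lit 8, nat_lit 28, nat_lit 1, nat_lit 1⟩, ⟨false, nat_lit 512, nat_lit 996, nat_lit 2, nat_lit 1⟩, ⟨false, nat_lit 64, nat_lit 612, nat_lit 1, nat_lit 2⟩,
    ⟨true, nat_lit 4, nat_lit 604, nat_lit 2, nat_lit 0⟩, ⟨false, nat_lit 4096, nat_lit 7584, nat_lit 2, nat_lit 1⟩, ⟨false, nat_lit 256, nat_lit 5024, nat_lit 2, nat_lit 0⟩,
    ⟨true, nat_lit 32, nat_lit 4960, nat_lit 1, nat_lit 3⟩, ⟨false, nat_lit 32768, nat_lit 60544, nat_lit 2, nat_lit 1⟩, ⟨false, nat_lit 2048, nat_lit 40064, nat_lit 2, nat_lit 0⟩,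
    ⟨true, nat_lit 128, nat_lit 39808, nat_lit 2, nat_lit 1⟩, ⟨false, nat_lit 16384, nat_lit 58368, nat_lit 1, nat_lit 2⟩, ⟨true, nat_lit 1024, nat_lit 56320, nat_lit 1, nat_lit 3⟩,
    ⟨false, nat_lit 8192, nat_lit 57344, nat_lit 1, nat_lit 1⟩]

def l87_0 : List (Nat × List Wr × Nat) := [
  (nat_lit 5, r87_0_0, nat_lit 0), (nat_lit 5, r87_0_1, nat_lit 0), (nat_lit 5, r87_0_2, nat_lit 0),
  (nat_lit 5, r87_0_3, nat_lit 0), (nat_lit 6, r87_0_4, nat_lit 1)]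

def r18_0_0 : List Wr := [
    ⟨false, nat_lit 4, nat_lit 7, nat_lit 1, nat_lit 1⟩, ⟨true, nat_lit 2, nat_lit 7, nat_lit 1, nat_lit 1⟩, ⟨false, nat_lit 128, nat_lit 249, nat_lit 2, nat_lit 1⟩,
    ⟨false, nat_lit 8, nat_lit 137, nat_lit 1, nat_lit 1⟩, ⟨true, nat_lit 1, nat_lit 143, nat_lit 2, nat_lit 0⟩, ⟨false, nat_lit 1024, nat_lit 1904, nat_lit 2, nat_lit 1⟩,
    ⟨false, nat_lit 64, nat_lit 1264, nat_lit 2, nat_lit 0⟩, ⟨true, nat_lit 16, nat_lit 1232, nat_lit 1, nat_lit 2⟩, ⟨false, nat_lit 4096, nat_lit 6944, nat_lit 1, nat_lit 3⟩,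
    ⟨false, nat_lit 512, nat_lit 5920, nat_lit 2, nat_lit 0⟩, ⟨true, nat_lit 32, nat_lit 5856, nat_lit 2, nat_lit 1⟩, ⟨false, nat_lit 32768, nat_lit 59648, nat_lit 2, nat_lit 0⟩,
    ⟨false, nat_lit 2048, nat_lit 39168, nat_lit 1, nat_lit 2⟩, ⟨true, nat_lit 256, nat_lit 40704, nat_lit 2, nat_lit 1⟩, ⟨false, nat_lit 16384, nat_lit 57344, nat_lit 1, nat_lit 1⟩,
    ⟨false, nat_lit 8192, nat_lit 57344, nat_lit 1, nat_lit 1⟩]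

def l18_0 : List (Nat × List Wr × Nat) := [
  (nat_lit 5, r18_0_0, nat_lit 0)]

end Pool.Agent.EC4.Run
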