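import Pool.Agent.Lib.MP_ec4eff_co.R5.Dec
import Pool.Agent.Lib.MP_ec4eff_co.R5.Run.D14

/-! Generated file (project R5): the first lune -/

namespace Pool.Agent.EC4.Run

theorem a58 : runA (l58_0) [1, 0, 1, 0, 0, 1, 1, 0] = false := by decide +kernel

theorem a87 : runA (l87_0) [1, 1, 0, 2, 0, 0, 0] = false := by decide +kernel

theorem a26 : runA ([]) [0, 1, 2, 0, 0, 1, 0] = false := by decide +kernel

theorem a18 : runA (l18_0) [0, 1, 1, 0, 0, 2, 0] = false := by decide +kernel

theorem a54 : runA ([]) [1, 0, 0, 2, 1, 0, 0] = false := by decide +kernel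

theorem a102 : runA ([]) [2, 0, 0, 0, 2, 0] = false := by decide +kernel

end Pool.Agent.EC4.Run
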