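import Pool.Agent.Lib.MP_ec4eff_co.R5.Srch

/-! Generated file (project R5): results of the first lune -/

namespace Pool.Agent.EC4.Run

def r22_0_0 : List Wr := [
    ⟨false, nat_lit 256, nat_lit 511, nat_lit 3, nat_lit 1⟩, ⟨false, nat_lit 8, nat_lit 271, nat_lit 1, nat_lit 3⟩, ⟨true, nat_lit 4, nat_lit 271, nat_lit 2, nat_lit 0⟩,
    ⟨true, nat_lit 32, nat_lit 307, nat_lit 1, nat_lit 3⟩, ⟨false, nat_lit 128, nat_lit 467, nat_lit 2, nat_lit 1⟩, ⟨false, nat_lit 16, nat_lit 435, nat_lit 2, nat_lit 1⟩,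
    ⟨true, nat_lit 2, nat_lit 447, nat_lit 2, nat_lit 3⟩, ⟨false, nat_lit 2048, nat_lit 3649, nat_lit 2, nat_lit 0⟩, ⟨false, nat_lit 64, nat_lit 2497, nat_lit 2, nat_lit 0⟩,
    ⟨true, nat_lit 1, nat_lit 2559, nat_lit 3, nat_lit 2⟩, ⟨true, nat_lit 1024, nat_lit 3584, nat_lit 1, nat_lit 1⟩, ⟨false, nat_lit 32768, nat_lit 61952, nat_lit 2, nat_lit 0⟩,
    ⟨false, nat_lit 4096, nat_lit 37376, nat_lit 1, nat_lit 1⟩, ⟨true, nat_lit 512, nat_lit 40448, nat_lit 2, nat_lit 0⟩, ⟨false, nat_lit 16384, nat_lit 57344, nat_lit 1, nat_lit 1⟩,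
    ⟨false, nat_lit 8192, nat_lit 57344, nat_lit 1, nat_lit 1⟩]

def r22_0_1 : List Wr := [
    ⟨false, nat_lit 256, nat_lit 511, nat_lit 3, nat_lit 1⟩, ⟨false, nat_lit 8, nat_lit 271, nat_lit 1, nat_lit 3⟩, ⟨true, nat_lit 4, nat_lit 271, nat_lit 2, nat_lit 0⟩,
    ⟨false, nat_lit 128, nat_lit 499, nat_lit 2, nat_lit 2⟩, ⟨false, nat_lit 32, nat_lit 435, nat_lit 2, nat_lit 1⟩, ⟨true, nat_lit 2, nat_lit 431, nat_lit 2, nat_lit 2⟩,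
    ⟨true, nat_lit 16, nat_lit 433, nat_lit 1, nat_lit 3⟩, ⟨false, nat_lit 2048, nat_lit 3649, nat_lit 2, nat_lit 0⟩, ⟨false, nat_lit 64, nat_lit 2497, nat_lit 2, nat_lit 0⟩,
    ⟨true, nat_lit 1, nat_lit 2559, nat_lit 3, nat_lit 2⟩, ⟨true, nat_lit 1024, nat_lit 3584, nat_lit 1, nat_lit 1⟩, ⟨false, nat_lit 32768, nat_lit 61952, nat_lit 2, nat_lit 0⟩,
    ⟨false, nat_lit 4096, nat_lit 37376, nat_lit 1, nat_lit 1⟩, ⟨true, nat_lit 512, nat_lit 40448, nat_lit 2, nat_lit 0⟩, ⟨false, nat_lit 16384, nat_lit 57344, nat_lit 1, nat_lit 1⟩,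
    ⟨false, nat_lit 8192, nat_lit 57344, nat_lit 1, nat_lit 1⟩]

def r22_0_2 : List Wr := [
    ⟨true, nat_lit 4, nat_lit 7, nat_lit 1, nat_lit 1⟩, ⟨false, nat_lit 16, nat_lit 27, nat_lit 1, nat_lit 2⟩, ⟨false, nat_lit 8, nat_lit 27, nat_lit 1, nat_lit 2⟩,
    ⟨true, nat_lit 2, nat_lit 31, nat_lit 2, nat_lit 0⟩, ⟨false, nat_lit 256, nat_lit 481, nat_lit 2, nat_lit 0⟩, ⟨false, nat_lit 32, nat_lit 289, nat_lit 1, nat_lit 1⟩,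
    ⟨true, nat_lit 1, nat_lit 319, nat_lit 2, nat_lit 2⟩, ⟨false, nat_lit 32768, nat_lit 65216, nat_lit 3, nat_lit 1⟩, ⟨false, nat_lit 2048, nat_lit 36544, nat_lit 2, nat_lit 1⟩,
    ⟨true, nat_lit 128, nat_lit 35264, nat_lit 2, nat_lit 0⟩, ⟨false, nat_lit 4096, nat_lit 38464, nat_lit 1, nat_lit 3⟩, ⟨true, nat_lit 1024, nat_lit 40512, nat_lit 2, nat_lit 1⟩,
    ⟨false, nat_lit 16384, nat_lit 57920, nat_lit 2, nat_lit 0⟩, ⟨false, nat_lit 512, nat_lit 56896, nat_lit 2, nat_lit 2⟩, ⟨true, nat_lit 64, nat_lit 57280, nat_lit 3, nat_lit 1⟩,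
    ⟨false, nat_lit 8192, nat_lit 57344, nat_lit 1, nat_lit 1⟩]

def r22_0_3 : List Wr := [
    ⟨true, nat_lit 4, nat_lit 7, nat_lit 1, nat_lit 1⟩, ⟨false, nat_lit 256, nat_lit 507, nat_lit 3, nat_lit 0⟩, ⟨false, nat_lit 8, nat_lit 267, nat_lit 1, nat_lit 2⟩,
    ⟨true, nat_lit 2, nat_lit 271, nat_lit 2, nat_lit 0⟩, ⟨true, nat_lit 32, nat_lit 305, nat_lit 1, nat_lit 2⟩, ⟨false, nat_lit 2048, nat_lit 3793, nat_lit 2, nat_lit 2⟩,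
    ⟨false, nat_lit 128, nat_lit 2513, nat_lit 2, nat_lit 1⟩, ⟨true, nat_lit 16, nat_lit 2481, nat_lit 2, nat_lit 1⟩, ⟨false, nat_lit 1024, nat_lit 3649, nat_lit 2, nat_lit 0⟩,
    ⟨false, nat_lit 64, nat_lit 3521, nat_lit 2, nat_lit 1⟩, ⟨true, nat_lit 1, nat_lit 3583, nat_lit 3, nat_lit 3⟩, ⟨false, nat_lit 32768, nat_lit 61952, nat_lit 2, nat_lit 0⟩,
    ⟨false, nat_lit 4096, nat_lit 37376, nat_lit 1, nat_lit 1⟩, ⟨true, nat_lit 512, nat_lit 40448, nat_lit 2, nat_lit 0⟩, ⟨false, nat_lit 16384, nat_lit 57344, nat_lit 1, nat_lit 1⟩,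
    ⟨false, nat_lit 8192, nat_lit 57344, nat_lit 1, nat_lit 1⟩]

def r22_0_4 : List Wr := [
    ⟨true, nat_lit 4, nat_lit 7, nat_lit 1, nat_lit 1⟩, ⟨false, nat_lit 256, nat_lit 507, nat_lit 3, nat_lit 0⟩, ⟨false, nat_lit 8, nat_lit 267, nat_lit 1, nat_lit 2⟩,
    ⟨true, nat_lit 2, nat_lit 271, nat_lit 2, nat_lit 0⟩, ⟨false, nat_lit 32, nat_lit 305, nat_lit 1, nat_lit 2⟩, ⟨true, nat_lit 16, nat_lit 305, nat_lit 1, nat_lit 2⟩,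
    ⟨false, nat_lit 2048, nat_lit 3777, nat_lit 2, nat_lit 1⟩, ⟨false, nat_lit 128, nat_lit 2497, nat_lit 2, nat_lit 0⟩, ⟨true, nat_lit 1, nat_lit 2495, nat_lit 3, nat_lit 1⟩,
    ⟨false, nat_lit 32768, nat_lit 63040, nat_lit 2, nat_lit 2⟩, ⟨false, nat_lit 1024, nat_lit 36416, nat_lit 2, nat_lit 0⟩, ⟨true, nat_lit 64, nat_lit 36288, nat_lit 2, nat_lit 1⟩,
    ⟨false, nat_lit 16384, nat_lit 61952, nat_lit 2, nat_lit 0⟩, ⟨false, nat_lit 4096, nat_lit 53760, nat_lit 1, nat_lit 2⟩, ⟨true, nat_lit 512, nat_lit 56832, nat_lit 2, nat_lit 1⟩,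
    ⟨false, nat_lit 8192, nat_lit 57344, nat_lit 1, nat_lit 1⟩]

def r22_0_5 : List Wr := [
    ⟨true, nat_lit 4, nat_lit 7, nat_lit 1, nat_lit 1⟩, ⟨false, nat_lit 256, nat_lit 507, nat_lit 3, nat_lit 0⟩, ⟨false, nat_lit 16, nat_lit 283, nat_lit 1, nat_lit 3⟩,
    ⟨true, nat_lit 2, nat_lit 279, nat_lit 2, nat_lit 0⟩, ⟨true, nat_lit 32, nat_lit 297, nat_lit 1, nat_lit 2⟩, ⟨false, nat_lit 2048, nat_lit 3785, nat_lit 2, nat_lit 2⟩,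
    ⟨false, nat_lit 128, nat_lit 2505, nat_lit 2, nat_lit 1⟩, ⟨true, nat_lit 8, nat_lit 2489, nat_lit 2, nat_lit 2⟩, ⟨false, nat_lit 1024, nat_lit 3649, nat_lit 2, nat_lit 0⟩,
    ⟨false, nat_lit 64, nat_lit 3521, nat_lit 2, nat_lit 1⟩, ⟨true, nat_lit 1, nat_lit 3583, nat_lit 3, nat_lit 3⟩, ⟨false, nat_lit 32768, nat_lit 61952, nat_lit 2, nat_lit 0⟩,
    ⟨false, nat_lit 4096, nat_lit 37376, nat_lit 1, nat_lit 1⟩, ⟨true, nat_lit 512, nat_lit 40448, nat_lit 2, nat_lit 0⟩, ⟨false, nat_lit 16384, nat_lit 57344, nat_lit 1, nat_lit 1⟩,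
    ⟨false, nat_lit 8192, nat_lit 57344, nat_lit 1, nat_lit 1⟩]

def r22_0_6 : List Wr := [
    ⟨true, nat_lit 4, nat_lit 7, nat_lit 1, nat_lit 1⟩, ⟨false, nat_lit 256, nat_lit 507, nat_lit 3, nat_lit 0⟩, ⟨false, nat_lit 16, nat_lit 283, nat_lit 1, nat_lit 3⟩,
    ⟨true, nat_lit 2, nat_lit 279, nat_lit 2, nat_lit 0⟩, ⟨false, nat_lit 32, nat_lit 297, nat_lit 1, nat_lit 2⟩, ⟨true, nat_lit 8, nat_lit 313, nat_lit 1, nat_lit 3⟩,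
    ⟨false, nat_lit 2048, nat_lit 3777, nat_lit 2, nat_lit 1⟩, ⟨false, nat_lit 128, nat_lit 2497, nat_lit 2, nat_lit 0⟩, ⟨true, nat_lit 1, nat_lit 2495, nat_lit 3, nat_lit 1⟩,
    ⟨false, nat_lit 32768, nat_lit 63040, nat_lit 2, nat_lit 2⟩, ⟨false, nat_lit 1024, nat_lit 36416, nat_lit 2, nat_lit 0⟩, ⟨true, nat_lit 64, nat_lit 36288, nat_lit 2, nat_lit 1⟩,
    ⟨false, nat_lit 16384, nat_lit 61952, nat_lit 2, nat_lit 0⟩, ⟨false, nat_lit 4096, nat_lit 53760, nat_lit 1, nat_lit 2⟩, ⟨true, nat_lit 512, nat_lit 56832, nat_lit 2, nat_lit 1⟩,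
    ⟨false, nat_lit 8192, nat_lit 57344, nat_lit 1, nat_lit 1⟩]

def l22_0 : List (Nat × List Wr × Nat) := [
  (nat_lit 6, r22_0_0, nat_lit 0), (nat_lit 6, r22_0_1, nat_lit 0), (nat_lit 6, r22_0_2, nat_lit 0),
  (nat_lit 4, r22_0_3, nat_lit 0), (nat_lit 4, r22_0_4, nat_lit 0), (nat_lit 6, r22_0_5, nat_lit 0),
  (nat_lit 6, r22_0_6, nat_lit 0)]

def r22_1_0 : List Wr := [
    ⟨false, nat_lit 4, nat_lit 7, nat_lit 1, nat_lit 1⟩, ⟨false, nat_lit 2, nat_lit 7, nat_lit 1, nat_lit 1⟩, ⟨true, nat_lit 1, nat_lit 7, nat_lit 1, nat_lit 1⟩,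
    ⟨false, nat_lit 256, nat_lit 504, nat_lit 2, nat_lit 1⟩, ⟨false, nat_lit 16, nat_lit 280, nat_lit 1, nat_lit 1⟩, ⟨true, nat_lit 8, nat_lit 280, nat_lit 1, nat_lit 1⟩,
    ⟨false, nat_lit 2048, nat_lit 3808, nat_lit 2, nat_lit 1⟩, ⟨false, nat_lit 128, nat_lit 2528, nat_lit 2, nat_lit 0⟩, ⟨true, nat_lit 32, nat_lit 2464, nat_lit 1, nat_lit 2⟩,
    ⟨false, nat_lit 32768, nat_lit 63040, nat_lit 2, nat_lit 2⟩, ⟨false, nat_lit 1024, nat_lit 36416, nat_lit 2, nat_lit 0⟩, ⟨true, nat_lit 64, nat_lit 36288, nat_lit 2, nat_lit 1⟩,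
    ⟨false, nat_lit 16384, nat_lit 61952, nat_lit 2, nat_lit 0⟩, ⟨false, nat_lit 4096, nat_lit 53760, nat_lit 1, nat_lit 2⟩, ⟨true, nat_lit 512, nat_lit 56832, nat_lit 2, nat_lit 1⟩,
    ⟨false, nat_lit 8192, nat_lit 57344, nat_lit 1, nat_lit 1⟩]

def r22_1_1 : List Wr := [
    ⟨false, nat_lit 4, nat_lit 7, nat_lit 1, nat_lit 1⟩, ⟨true, nat_lit 2, nat_lit 7, nat_lit 1, nat_lit 1⟩, ⟨false, nat_lit 16, nat_lit 25, nat_lit 1, nat_lit 1⟩,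
    ⟨false, nat_lit 8, nat_lit 25, nat_lit 1, nat_lit 1⟩, ⟨true, nat_lit 1, nat_lit 31, nat_lit 2, nat_lit 0⟩, ⟨true, nat_lit 256, nat_lit 480, nat_lit 1, nat_lit 2⟩,
    ⟨false, nat_lit 2048, nat_lit 3808, nat_lit 2, nat_lit 1⟩, ⟨false, nat_lit 128, nat_lit 2528, nat_lit 2, nat_lit 0⟩, ⟨true, nat_lit 32, nat_lit 2464, nat_lit 1, nat_lit 2⟩,
    ⟨false, nat_lit 32768, nat_lit 63040, nat_lit 2, nat_lit 2⟩, ⟨false, nat_lit 1024, nat_lit 36416, nat_lit 2, nat_lit 0⟩, ⟨true, nat_lit 64, nat_lit 36288, nat_lit 2, nat_lit 1⟩,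
    ⟨false, nat_lit 16384, nat_lit 61952, nat_lit 2, nat_lit 0⟩, ⟨false, nat_lit 4096, nat_lit 53760, nat_lit 1, nat_lit 2⟩, ⟨true, nat_lit 512, nat_lit 56832, nat_lit 2, nat_lit 1⟩,
    ⟨false, nat_lit 8192, nat_lit 57344, nat_lit 1, nat_lit 1⟩]

def r22_1_2 : List Wr := [
    ⟨false, nat_lit 4, nat_lit 7, nat_lit 1, nat_lit 1⟩, ⟨true, nat_lit 2, nat_lit 7, nat_lit 1, nat_lit 1⟩, ⟨false, nat_lit 16, nat_lit 25, nat_lit 1, nat_lit 1⟩,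
    ⟨false, nat_lit 8, nat_lit 25, nat_lit 1, nat_lit 1⟩, ⟨true, nat_lit 1, nat_lit 31, nat_lit 2, nat_lit 0⟩, ⟨false, nat_lit 2048, nat_lit 4064, nat_lit 2, nat_lit 2⟩,
    ⟨false, nat_lit 256, nat_lit 2528, nat_lit 2, nat_lit 0⟩, ⟨true, nat_lit 32, nat_lit 2336, nat_lit 1, nat_lit 1⟩, ⟨true, nat_lit 128, nat_lit 2496, nat_lit 1, nat_lit 2⟩,
    ⟨false, nat_lit 32768, nat_lit 63040, nat_lit 2, nat_lit 2⟩, ⟨false, nat_lit 1024, nat_lit 36416, nat_lit 2, nat_lit 0⟩, ⟨true, nat_lit 64, nat_lit 36288, nat_lit 2, nat_lit 1⟩,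
    ⟨false, nat_lit 16384, nat_lit 61952, nat_lit 2, nat_lit 0⟩, ⟨false, nat_lit 4096, nat_lit 53760, nat_lit 1, nat_lit 2⟩, ⟨true, nat_lit 512, nat_lit 56832, nat_lit 2, nat_lit 1⟩,
    ⟨false, nat_lit 8192, nat_lit 57344, nat_lit 1, nat_lit 1⟩]

def r22_1_3 : List Wr := [
    ⟨false, nat_lit 4, nat_lit 7, nat_lit 1, nat_lit 1⟩, ⟨true, nat_lit 2, nat_lit 7, nat_lit 1, nat_lit 1⟩, ⟨false, nat_lit 16, nat_lit 25, nat_lit 1, nat_lit 1⟩,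
    ⟨false, nat_lit 8, nat_lit 25, nat_lit 1, nat_lit 1⟩, ⟨true, nat_lit 1, nat_lit 31, nat_lit 2, nat_lit 0⟩, ⟨false, nat_lit 32768, nat_lit 65504, nat_lit 3, nat_lit 3⟩,
    ⟨false, nat_lit 256, nat_lit 33248, nat_lit 2, nat_lit 0⟩, ⟨true, nat_lit 32, nat_lit 33056, nat_lit 1, nat_lit 1⟩, ⟨false, nat_lit 4096, nat_lit 40640, nat_lit 2, nat_lit 2⟩,
    ⟨false, nat_lit 2048, nat_lit 40640, nat_lit 2, nat_lit 2⟩, ⟨true, nat_lit 128, nat_lit 39360, nat_lit 2, nat_lit 1⟩, ⟨true, nat_lit 1024, nat_lit 40512, nat_lit 2, nat_lit 1⟩,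
    ⟨false, nat_lit 16384, nat_lit 57920, nat_lit 2, nat_lit 0⟩, ⟨false, nat_lit 512, nat_lit 56896, nat_lit 2, nat_lit 2⟩, ⟨true, nat_lit 64, nat_lit 57280, nat_lit 3, nat_lit 1⟩,
    ⟨false, nat_lit 8192, nat_lit 57344, nat_lit 1, nat_lit 1⟩]

def l22_1 : List (Nat × List Wr × Nat) := [
  (nat_lit 6, r22_1_0, nat_lit 0), (nat_lit 6, r22_1_1, nat_lit 0), (nat_lit 6, r22_1_2, nat_lit 0),
  (nat_lit 6, r22_1_3, nat_lit 0)]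

def r95_0_0 : List Wr := [
    ⟨false, nat_lit 32, nat_lit 63, nat_lit 2, nat_lit 1⟩, ⟨false, nat_lit 4, nat_lit 39, nat_lit 1, nat_lit 2⟩, ⟨true, nat_lit 1, nat_lit 37, nat_lit 1, nat_lit 1⟩,
    ⟨false, nat_lit 256, nat_lit 474, nat_lit 2, nat_lit 1⟩, ⟨false, nat_lit 16, nat_lit 314, nat_lit 2, nat_lit 0⟩, ⟨true, nat_lit 2, nat_lit 310, nat_lit 1, nat_lit 3⟩,
    ⟨true, nat_lit 128, nat_lit 456, nat_lit 1, nat_lit 2⟩, ⟨false, nat_lit 2048, nat_lit 3656, nat_lit 2, nat_lit 0⟩, ⟨false, nat_lit 64, nat_lit 2504, nat_lit 2, nat_lit 0⟩,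
    ⟨true, nat_lit 8, nat_lit 2552, nat_lit 2, nat_lit 2⟩, ⟨true, nat_lit 1024, nat_lit 3584, nat_lit 1, nat_lit 1⟩, ⟨false, nat_lit 32768, nat_lit 61952, nat_lit 2, nat_lit 0⟩,
    ⟨false, nat_lit 4096, nat_lit 37376, nat_lit 1, nat_lit 1⟩, ⟨true, nat_lit 512, nat_lit 40448, nat_lit 2, nat_lit 0⟩, ⟨false, nat_lit 16384, nat_lit 57344, nat_lit 1, nat_lit 1⟩,
    ⟨false, nat_lit 8192, nat_lit 57344, nat_lit 1, nat_lit 1⟩]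

def r95_0_1 : List Wr := [
    ⟨false, nat_lit 32, nat_lit 63, nat_lit 2, nat_lit 1⟩, ⟨false, nat_lit 4, nat_lit 39, nat_lit 1, nat_lit 2⟩, ⟨true, nat_lit 1, nat_lit 37, nat_lit 1, nat_lit 1⟩,
    ⟨false, nat_lit 256, nat_lit 474, nat_lit 2, nat_lit 1⟩, ⟨false, nat_lit 16, nat_lit 314, nat_lit 2, nat_lit 0⟩, ⟨true, nat_lit 2, nat_lit 310, nat_lit 1, nat_lit 3⟩,
    ⟨false, nat_lit 2048, nat_lit 3784, nat_lit 2, nat_lit 1⟩, ⟨false, nat_lit 128, nat_lit 2504, nat_lit 2, nat_lit 0⟩, ⟨true, nat_lit 8, nat_lit 2488, nat_lit 2, nat_lit 1⟩,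
    ⟨true, nat_lit 64, nat_lit 2496, nat_lit 1, nat_lit 2⟩, ⟨true, nat_lit 1024, nat_lit 3584, nat_lit 1, nat_lit 1⟩, ⟨false, nat_lit 32768, nat_lit 61952, nat_lit 2, nat_lit 0⟩,
    ⟨false, nat_lit 4096, nat_lit 37376, nat_lit 1, nat_lit 1⟩, ⟨true, nat_lit 512, nat_lit 40448, nat_lit 2, nat_lit 0⟩, ⟨false, nat_lit 16384, nat_lit 57344, nat_lit 1, nat_lit 1⟩,
    ⟨false, nat_lit 8192, nat_lit 57344, nat_lit 1, nat_lit 1⟩]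

def r95_0_2 : List Wr := [
    ⟨false, nat_lit 32, nat_lit 63, nat_lit 2, nat_lit 1⟩, ⟨false, nat_lit 4, nat_lit 39, nat_lit 1, nat_lit 2⟩, ⟨true, nat_lit 1, nat_lit 37, nat_lit 1, nat_lit 1⟩,
    ⟨false, nat_lit 256, nat_lit 474, nat_lit 2, nat_lit 1⟩, ⟨false, nat_lit 16, nat_lit 314, nat_lit 2, nat_lit 0⟩, ⟨true, nat_lit 2, nat_lit 310, nat_lit 1, nat_lit 3⟩,
    ⟨false, nat_lit 2048, nat_lit 3784, nat_lit 2, nat_lit 1⟩, ⟨false, nat_lit 128, nat_lit 2504, nat_lit 2, nat_lit 0⟩, ⟨true, nat_lit 8, nat_lit 2488, nat_lit 2, nat_lit 1⟩,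
    ⟨false, nat_lit 1024, nat_lit 3648, nat_lit 1, nat_lit 2⟩, ⟨true, nat_lit 64, nat_lit 3520, nat_lit 1, nat_lit 3⟩, ⟨false, nat_lit 32768, nat_lit 61952, nat_lit 2, nat_lit 0⟩,
    ⟨false, nat_lit 4096, nat_lit 37376, nat_lit 1, nat_lit 1⟩, ⟨true, nat_lit 512, nat_lit 40448, nat_lit 2, nat_lit 0⟩, ⟨false, nat_lit 16384, nat_lit 57344, nat_lit 1, nat_lit 1⟩,
    ⟨false, nat_lit 8192, nat_lit 57344, nat_lit 1, nat_lit 1⟩]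

def l95_0 : List (Nat × List Wr × Nat) := [
  (nat_lit 5, r95_0_0, nat_lit 0), (nat_lit 5, r95_0_1, nat_lit 0), (nat_lit 6, r95_0_2, nat_lit 1)]

def r8_0_0 : List Wr := [
    ⟨true, nat_lit 4, nat_lit 7, nat_lit 1, nat_lit 1⟩, ⟨false, nat_lit 64, nat_lit 123, nat_lit 2, nat_lit 1⟩, ⟨false, nat_lit 8, nat_lit 75, nat_lit 1, nat_lit 2⟩,
    ⟨true, nat_lit 2, nat_lit 79, nat_lit 2, nat_lit 0⟩, ⟨false, nat_lit 512, nat_lit 945, nat_lit 2, nat_lit 1⟩, ⟨false, nat_lit 32, nat_lit 625, nat_lit 2, nat_lit 0⟩,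
    ⟨true, nat_lit 1, nat_lit 623, nat_lit 2, nat_lit 2⟩, ⟨false, nat_lit 32768, nat_lit 64912, nat_lit 3, nat_lit 1⟩, ⟨false, nat_lit 256, nat_lit 33680, nat_lit 2, nat_lit 0⟩,
    ⟨true, nat_lit 16, nat_lit 33648, nat_lit 2, nat_lit 1⟩, ⟨false, nat_lit 4096, nat_lit 40064, nat_lit 1, nat_lit 3⟩, ⟨true, nat_lit 1024, nat_lit 38016, nat_lit 1, nat_lit 2⟩,
    ⟨false, nat_lit 16384, nat_lit 59520, nat_lit 2, nat_lit 0⟩, ⟨false, nat_lit 2048, nat_lit 55424, nat_lit 1, nat_lit 3⟩, ⟨true, nat_lit 128, nat_lit 57216, nat_lit 3, nat_lit 0⟩,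
    ⟨false, nat_lit 8192, nat_lit 57344, nat_lit 1, nat_lit 1⟩]

def r8_0_1 : List Wr := [
    ⟨false, nat_lit 4, nat_lit 7, nat_lit 1, nat_lit 1⟩, ⟨true, nat_lit 2, nat_lit 7, nat_lit 1, nat_lit 1⟩, ⟨false, nat_lit 64, nat_lit 121, nat_lit 2, nat_lit 0⟩,
    ⟨false, nat_lit 8, nat_lit 73, nat_lit 1, nat_lit 1⟩, ⟨true, nat_lit 1, nat_lit 79, nat_lit 2, nat_lit 0⟩, ⟨false, nat_lit 32768, nat_lit 65456, nat_lit 3, nat_lit 3⟩,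
    ⟨false, nat_lit 512, nat_lit 33712, nat_lit 2, nat_lit 1⟩, ⟨true, nat_lit 32, nat_lit 33392, nat_lit 2, nat_lit 0⟩, ⟨false, nat_lit 4096, nat_lit 40336, nat_lit 2, nat_lit 2⟩,
    ⟨false, nat_lit 256, nat_lit 37776, nat_lit 2, nat_lit 1⟩, ⟨true, nat_lit 16, nat_lit 37744, nat_lit 2, nat_lit 2⟩, ⟨true, nat_lit 1024, nat_lit 38016, nat_lit 1, nat_lit 2⟩,
    ⟨false, nat_lit 16384, nat_lit 59520, nat_lit 2, nat_lit 0⟩, ⟨false, nat_lit 2048, nat_lit 55424, nat_lit 1, nat_lit 3⟩, ⟨true, nat_lit 128, nat_lit 57216, nat_lit 3, nat_lit 0⟩,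
    ⟨false, nat_lit 8192, nat_lit 57344, nat_lit 1, nat_lit 1⟩]

def l8_0 : List (Nat × List Wr × Nat) := [
  (nat_lit 5, r8_0_0, nat_lit 0), (nat_lit 5, r8_0_1, nat_lit 0)]

end Pool.Agent.EC4.Run
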