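import Pool.Agent.Lib.MP_ec4eff_co.R5.Srch

/-! Generated file (project R5): results of the first lune -/

namespace Pool.Agent.EC4.Run

def r77_0_0 : List Wr := [
    ⟨false, nat_lit 32768, nat_lit 65535, nat_lit 5, nat_lit 2⟩, ⟨false, nat_lit 16, nat_lit 32799, nat_lit 2, nat_lit 1⟩, ⟨true, nat_lit 1, nat_lit 32785, nat_lit 1, nat_lit 1⟩,
    ⟨false, nat_lit 128, nat_lit 33006, nat_lit 2, nat_lit 2⟩, ⟨true, nat_lit 8, nat_lit 32926, nat_lit 2, nat_lit 1⟩, ⟨false, nat_lit 1024, nat_lit 34662, nat_lit 3, nat_lit 0⟩,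
    ⟨false, nat_lit 64, nat_lit 34022, nat_lit 2, nat_lit 2⟩, ⟨true, nat_lit 2, nat_lit 34010, nat_lit 2, nat_lit 2⟩, ⟨false, nat_lit 16384, nat_lit 64292, nat_lit 3, nat_lit 1⟩,
    ⟨false, nat_lit 4096, nat_lit 56100, nat_lit 2, nat_lit 3⟩, ⟨true, nat_lit 32, nat_lit 54500, nat_lit 3, nat_lit 0⟩, ⟨false, nat_lit 2048, nat_lit 56068, nat_lit 2, nat_lit 2⟩,
    ⟨true, nat_lit 512, nat_lit 57092, nat_lit 2, nat_lit 3⟩, ⟨false, nat_lit 8192, nat_lit 57604, nat_lit 2, nat_lit 0⟩, ⟨false, nat_lit 256, nat_lit 65284, nat_lit 3, nat_lit 1⟩,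
    ⟨false, nat_lit 4, nat_lit 65532, nat_lit 4, nat_lit 3⟩]

def r77_0_1 : List Wr := [
    ⟨true, nat_lit 1, nat_lit 1, nat_lit 0, nat_lit 2⟩, ⟨true, nat_lit 16, nat_lit 30, nat_lit 1, nat_lit 2⟩, ⟨false, nat_lit 128, nat_lit 238, nat_lit 2, nat_lit 1⟩,
    ⟨false, nat_lit 8, nat_lit 158, nat_lit 2, nat_lit 0⟩, ⟨true, nat_lit 2, nat_lit 154, nat_lit 1, nat_lit 2⟩, ⟨false, nat_lit 1024, nat_lit 1892, nat_lit 2, nat_lit 1⟩,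
    ⟨false, nat_lit 64, nat_lit 1252, nat_lit 2, nat_lit 0⟩, ⟨true, nat_lit 4, nat_lit 1244, nat_lit 2, nat_lit 1⟩, ⟨false, nat_lit 2048, nat_lit 2848, nat_lit 1, nat_lit 2⟩,
    ⟨false, nat_lit 512, nat_lit 3872, nat_lit 2, nat_lit 0⟩, ⟨true, nat_lit 32, nat_lit 3808, nat_lit 2, nat_lit 1⟩, ⟨false, nat_lit 32768, nat_lit 61696, nat_lit 2, nat_lit 0⟩,
    ⟨false, nat_lit 4096, nat_lit 37120, nat_lit 1, nat_lit 1⟩, ⟨true, nat_lit 256, nat_lit 40704, nat_lit 2, nat_lit 1⟩, ⟨false, nat_lit 16384, nat_lit 57344, nat_lit 1, nat_lit 1⟩,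
    ⟨false, nat_lit 8192, nat_lit 57344, nat_lit 1, nat_lit 1⟩]

def r77_0_2 : List Wr := [
    ⟨false, nat_lit 32768, nat_lit 65535, nat_lit 5, nat_lit 2⟩, ⟨false, nat_lit 16, nat_lit 32799, nat_lit 2, nat_lit 1⟩, ⟨true, nat_lit 1, nat_lit 32785, nat_lit 1, nat_lit 1⟩,
    ⟨false, nat_lit 128, nat_lit 33006, nat_lit 2, nat_lit 2⟩, ⟨true, nat_lit 8, nat_lit 32926, nat_lit 2, nat_lit 1⟩, ⟨false, nat_lit 4096, nat_lit 40806, nat_lit 3, nat_lit 2⟩,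
    ⟨false, nat_lit 1024, nat_lit 38758, nat_lit 3, nat_lit 1⟩, ⟨true, nat_lit 2, nat_lit 38042, nat_lit 2, nat_lit 2⟩, ⟨false, nat_lit 2048, nat_lit 39780, nat_lit 2, nat_lit 3⟩,
    ⟨false, nat_lit 512, nat_lit 40804, nat_lit 3, nat_lit 1⟩, ⟨false, nat_lit 64, nat_lit 40676, nat_lit 3, nat_lit 1⟩, ⟨true, nat_lit 32, nat_lit 40676, nat_lit 2, nat_lit 4⟩,
    ⟨false, nat_lit 16384, nat_lit 57604, nat_lit 2, nat_lit 0⟩, ⟨false, nat_lit 256, nat_lit 57092, nat_lit 3, nat_lit 0⟩, ⟨true, nat_lit 4, nat_lit 57340, nat_lit 4, nat_lit 2⟩,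
    ⟨false, nat_lit 8192, nat_lit 57344, nat_lit 1, nat_lit 1⟩]

def r77_0_3 : List Wr := [
    ⟨true, nat_lit 1, nat_lit 1, nat_lit 0, nat_lit 2⟩, ⟨false, nat_lit 128, nat_lit 254, nat_lit 2, nat_lit 2⟩, ⟨false, nat_lit 16, nat_lit 158, nat_lit 2, nat_lit 0⟩,
    ⟨true, nat_lit 2, nat_lit 146, nat_lit 1, nat_lit 1⟩, ⟨false, nat_lit 32768, nat_lit 65388, nat_lit 4, nat_lit 1⟩, ⟨false, nat_lit 64, nat_lit 33004, nat_lit 2, nat_lit 1⟩,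
    ⟨true, nat_lit 8, nat_lit 32988, nat_lit 2, nat_lit 1⟩, ⟨true, nat_lit 1024, nat_lit 34596, nat_lit 2, nat_lit 1⟩, ⟨false, nat_lit 16384, nat_lit 64292, nat_lit 3, nat_lit 1⟩,
    ⟨false, nat_lit 4096, nat_lit 56100, nat_lit 2, nat_lit 3⟩, ⟨true, nat_lit 32, nat_lit 54500, nat_lit 3, nat_lit 0⟩, ⟨false, nat_lit 2048, nat_lit 56068, nat_lit 2, nat_lit 2⟩,
    ⟨true, nat_lit 512, nat_lit 57092, nat_lit 2, nat_lit 3⟩, ⟨false, nat_lit 8192, nat_lit 57604, nat_lit 2, nat_lit 0⟩, ⟨false, nat_lit 256, nat_lit 65284, nat_lit 3, nat_lit 1⟩,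
    ⟨false, nat_lit 4, nat_lit 65532, nat_lit 4, nat_lit 3⟩]

def r77_0_4 : List Wr := [
    ⟨false, nat_lit 16, nat_lit 31, nat_lit 2, nat_lit 0⟩, ⟨false, nat_lit 2, nat_lit 19, nat_lit 1, nat_lit 1⟩, ⟨true, nat_lit 1, nat_lit 19, nat_lit 1, nat_lit 1⟩,
    ⟨true, nat_lit 128, nat_lit 236, nat_lit 1, nat_lit 3⟩, ⟨false, nat_lit 32768, nat_lit 65388, nat_lit 4, nat_lit 1⟩, ⟨false, nat_lit 64, nat_lit 33004, nat_lit 2, nat_lit 1⟩,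
    ⟨true, nat_lit 8, nat_lit 32988, nat_lit 2, nat_lit 1⟩, ⟨true, nat_lit 1024, nat_lit 34596, nat_lit 2, nat_lit 1⟩, ⟨false, nat_lit 16384, nat_lit 64292, nat_lit 3, nat_lit 1⟩,
    ⟨false, nat_lit 4096, nat_lit 56100, nat_lit 2, nat_lit 3⟩, ⟨true, nat_lit 32, nat_lit 54500, nat_lit 3, nat_lit 0⟩, ⟨false, nat_lit 2048, nat_lit 56068, nat_lit 2, nat_lit 2⟩,
    ⟨true, nat_lit 512, nat_lit 57092, nat_lit 2, nat_lit 3⟩, ⟨false, nat_lit 8192, nat_lit 57604, nat_lit 2, nat_lit 0⟩, ⟨false, nat_lit 256, nat_lit 65284, nat_lit 3, nat_lit 1⟩,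
    ⟨false, nat_lit 4, nat_lit 65532, nat_lit 4, nat_lit 3⟩]

def r77_0_5 : List Wr := [
    ⟨true, nat_lit 1, nat_lit 1, nat_lit 0, nat_lit 2⟩, ⟨false, nat_lit 128, nat_lit 254, nat_lit 2, nat_lit 2⟩, ⟨false, nat_lit 16, nat_lit 158, nat_lit 2, nat_lit 0⟩,
    ⟨true, nat_lit 2, nat_lit 146, nat_lit 1, nat_lit 1⟩, ⟨true, nat_lit 8, nat_lit 156, nat_lit 1, nat_lit 2⟩, ⟨false, nat_lit 1024, nat_lit 1892, nat_lit 2, nat_lit 1⟩,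
    ⟨false, nat_lit 64, nat_lit 1252, nat_lit 2, nat_lit 0⟩, ⟨true, nat_lit 4, nat_lit 1244, nat_lit 2, nat_lit 1⟩, ⟨false, nat_lit 2048, nat_lit 2848, nat_lit 1, nat_lit 2⟩,
    ⟨false, nat_lit 512, nat_lit 3872, nat_lit 2, nat_lit 0⟩, ⟨true, nat_lit 32, nat_lit 3808, nat_lit 2, nat_lit 1⟩, ⟨false, nat_lit 32768, nat_lit 61696, nat_lit 2, nat_lit 0⟩,
    ⟨false, nat_lit 4096, nat_lit 37120, nat_lit 1, nat_lit 1⟩, ⟨true, nat_lit 256, nat_lit 40704, nat_lit 2, nat_lit 1⟩, ⟨false, nat_lit 16384, nat_lit 57344, nat_lit 1, nat_lit 1⟩,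
    ⟨false, nat_lit 8192, nat_lit 57344, nat_lit 1, nat_lit 1⟩]

def r77_0_6 : List Wr := [
    ⟨false, nat_lit 16, nat_lit 31, nat_lit 2, nat_lit 0⟩, ⟨false, nat_lit 2, nat_lit 19, nat_lit 1, nat_lit 1⟩, ⟨true, nat_lit 1, nat_lit 19, nat_lit 1, nat_lit 1⟩,
    ⟨false, nat_lit 128, nat_lit 236, nat_lit 1, nat_lit 3⟩, ⟨true, nat_lit 8, nat_lit 156, nat_lit 1, nat_lit 2⟩, ⟨false, nat_lit 1024, nat_lit 1892, nat_lit 2, nat_lit 1⟩,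
    ⟨false, nat_lit 64, nat_lit 1252, nat_lit 2, nat_lit 0⟩, ⟨true, nat_lit 4, nat_lit 1244, nat_lit 2, nat_lit 1⟩, ⟨false, nat_lit 2048, nat_lit 2848, nat_lit 1, nat_lit 2⟩,
    ⟨false, nat_lit 512, nat_lit 3872, nat_lit 2, nat_lit 0⟩, ⟨true, nat_lit 32, nat_lit 3808, nat_lit 2, nat_lit 1⟩, ⟨false, nat_lit 32768, nat_lit 61696, nat_lit 2, nat_lit 0⟩,
    ⟨false, nat_lit 4096, nat_lit 37120, nat_lit 1, nat_lit 1⟩, ⟨true, nat_lit 256, nat_lit 40704, nat_lit 2, nat_lit 1⟩, ⟨false, nat_lit 16384, nat_lit 57344, nat_lit 1, nat_lit 1⟩,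
    ⟨false, nat_lit 8192, nat_lit 57344, nat_lit 1, nat_lit 1⟩]

def r77_0_7 : List Wr := [
    ⟨false, nat_lit 16, nat_lit 31, nat_lit 2, nat_lit 0⟩, ⟨false, nat_lit 2, nat_lit 19, nat_lit 1, nat_lit 1⟩, ⟨true, nat_lit 1, nat_lit 19, nat_lit 1, nat_lit 1⟩,
    ⟨false, nat_lit 32768, nat_lit 65516, nat_lit 4, nat_lit 2⟩, ⟨false, nat_lit 128, nat_lit 33004, nat_lit 2, nat_lit 1⟩, ⟨true, nat_lit 8, nat_lit 32924, nat_lit 2, nat_lit 0⟩,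
    ⟨true, nat_lit 64, nat_lit 32996, nat_lit 1, nat_lit 3⟩, ⟨true, nat_lit 1024, nat_lit 34596, nat_lit 2, nat_lit 1⟩, ⟨false, nat_lit 16384, nat_lit 64292, nat_lit 3, nat_lit 1⟩,
    ⟨false, nat_lit 4096, nat_lit 56100, nat_lit 2, nat_lit 3⟩, ⟨true, nat_lit 32, nat_lit 54500, nat_lit 3, nat_lit 0⟩, ⟨false, nat_lit 2048, nat_lit 56068, nat_lit 2, nat_lit 2⟩,
    ⟨true, nat_lit 512, nat_lit 57092, nat_lit 2, nat_lit 3⟩, ⟨false, nat_lit 8192, nat_lit 57604, nat_lit 2, nat_lit 0⟩, ⟨false, nat_lit 256, nat_lit 65284, nat_lit 3, nat_lit 1⟩,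
    ⟨false, nat_lit 4, nat_lit 65532, nat_lit 4, nat_lit 3⟩]

def r77_0_8 : List Wr := [
    ⟨false, nat_lit 16, nat_lit 31, nat_lit 2, nat_lit 0⟩, ⟨false, nat_lit 2, nat_lit 19, nat_lit 1, nat_lit 1⟩, ⟨true, nat_lit 1, nat_lit 19, nat_lit 1, nat_lit 1⟩,
    ⟨false, nat_lit 32768, nat_lit 65516, nat_lit 4, nat_lit 2⟩, ⟨false, nat_lit 128, nat_lit 33004, nat_lit 2, nat_lit 1⟩, ⟨true, nat_lit 8, nat_lit 32924, nat_lit 2, nat_lit 0⟩,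
    ⟨false, nat_lit 1024, nat_lit 34660, nat_lit 2, nat_lit 2⟩, ⟨true, nat_lit 64, nat_lit 34020, nat_lit 2, nat_lit 1⟩, ⟨false, nat_lit 4096, nat_lit 39716, nat_lit 2, nat_lit 2⟩,
    ⟨false, nat_lit 512, nat_lit 38692, nat_lit 2, nat_lit 2⟩, ⟨true, nat_lit 4, nat_lit 38620, nat_lit 3, nat_lit 1⟩, ⟨true, nat_lit 256, nat_lit 38688, nat_lit 2, nat_lit 1⟩,
    ⟨false, nat_lit 16384, nat_lit 59424, nat_lit 2, nat_lit 0⟩, ⟨false, nat_lit 2048, nat_lit 55328, nat_lit 1, nat_lit 3⟩, ⟨true, nat_lit 32, nat_lit 57312, nat_lit 3, nat_lit 2⟩,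
    ⟨false, nat_lit 8192, nat_lit 57344, nat_lit 1, nat_lit 1⟩]

def r77_0_9 : List Wr := [
    ⟨false, nat_lit 16, nat_lit 31, nat_lit 2, nat_lit 0⟩, ⟨false, nat_lit 2, nat_lit 19, nat_lit 1, nat_lit 1⟩, ⟨true, nat_lit 1, nat_lit 19, nat_lit 1, nat_lit 1⟩,
    ⟨false, nat_lit 32768, nat_lit 65516, nat_lit 4, nat_lit 2⟩, ⟨false, nat_lit 128, nat_lit 33004, nat_lit 2, nat_lit 1⟩, ⟨true, nat_lit 8, nat_lit 32924, nat_lit 2, nat_lit 0⟩,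
    ⟨false, nat_lit 1024, nat_lit 34660, nat_lit 2, nat_lit 2⟩, ⟨true, nat_lit 64, nat_lit 34020, nat_lit 2, nat_lit 1⟩, ⟨false, nat_lit 2048, nat_lit 35620, nat_lit 2, nat_lit 1⟩,
    ⟨false, nat_lit 512, nat_lit 36644, nat_lit 2, nat_lit 2⟩, ⟨true, nat_lit 4, nat_lit 36572, nat_lit 3, nat_lit 1⟩, ⟨true, nat_lit 256, nat_lit 36640, nat_lit 2, nat_lit 1⟩,
    ⟨false, nat_lit 16384, nat_lit 61472, nat_lit 2, nat_lit 0⟩, ⟨false, nat_lit 4096, nat_lit 53280, nat_lit 1, nat_lit 2⟩, ⟨true, nat_lit 32, nat_lit 57312, nat_lit 3, nat_lit 2⟩,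
    ⟨false, nat_lit 8192, nat_lit 57344, nat_lit 1, nat_lit 1⟩]

def l77_0 : List (Nat × List Wr × Nat) := [
  (nat_lit 6, r77_0_0, nat_lit 0), (nat_lit 6, r77_0_1, nat_lit 0), (nat_lit 6, r77_0_2, nat_lit 0),
  (nat_lit 6, r77_0_3, nat_lit 0), (nat_lit 6, r77_0_4, nat_lit 0), (nat_lit 6, r77_0_5, nat_lit 0),
  (nat_lit 6, r77_0_6, nat_lit 0), (nat_lit 6, r77_0_7, nat_lit 0), (nat_lit 6, r77_0_8, nat_lit 0),
  (nat_lit 4, r77_0_9, nat_lit 0)]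

def r77_1_0 : List Wr := [
    ⟨false, nat_lit 16, nat_lit 31, nat_lit 2, nat_lit 0⟩, ⟨false, nat_lit 2, nat_lit 19, nat_lit 1, nat_lit 1⟩, ⟨true, nat_lit 1, nat_lit 19, nat_lit 1, nat_lit 1⟩,
    ⟨true, nat_lit 8, nat_lit 28, nat_lit 1, nat_lit 1⟩, ⟨true, nat_lit 128, nat_lit 228, nat_lit 1, nat_lit 2⟩, ⟨false, nat_lit 1024, nat_lit 1892, nat_lit 2, nat_lit 1⟩,
    ⟨false, nat_lit 64, nat_lit 1252, nat_lit 2, nat_lit 0⟩, ⟨true, nat_lit 4, nat_lit 1244, nat_lit 2, nat_lit 1⟩, ⟨false, nat_lit 2048, nat_lit 2848, nat_lit 1, nat_lit 2⟩,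
    ⟨false, nat_lit 512, nat_lit 3872, nat_lit 2, nat_lit 0⟩, ⟨true, nat_lit 32, nat_lit 3808, nat_lit 2, nat_lit 1⟩, ⟨false, nat_lit 32768, nat_lit 61696, nat_lit 2, nat_lit 0⟩,
    ⟨false, nat_lit 4096, nat_lit 37120, nat_lit 1, nat_lit 1⟩, ⟨true, nat_lit 256, nat_lit 40704, nat_lit 2, nat_lit 1⟩, ⟨false, nat_lit 16384, nat_lit 57344, nat_lit 1, nat_lit 1⟩,
    ⟨false, nat_lit 8192, nat_lit 57344, nat_lit 1, nat_lit 1⟩]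

def r77_1_1 : List Wr := [
    ⟨false, nat_lit 16, nat_lit 31, nat_lit 2, nat_lit 0⟩, ⟨false, nat_lit 2, nat_lit 19, nat_lit 1, nat_lit 1⟩, ⟨true, nat_lit 1, nat_lit 19, nat_lit 1, nat_lit 1⟩,
    ⟨false, nat_lit 128, nat_lit 236, nat_lit 1, nat_lit 3⟩, ⟨true, nat_lit 8, nat_lit 156, nat_lit 1, nat_lit 2⟩, ⟨false, nat_lit 1024, nat_lit 1892, nat_lit 2, nat_lit 1⟩,
    ⟨false, nat_lit 64, nat_lit 1252, nat_lit 2, nat_lit 0⟩, ⟨true, nat_lit 4, nat_lit 1244, nat_lit 2, nat_lit 1⟩, ⟨false, nat_lit 2048, nat_lit 2848, nat_lit 1, nat_lit 2⟩,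
    ⟨false, nat_lit 512, nat_lit 3872, nat_lit 2, nat_lit 0⟩, ⟨true, nat_lit 32, nat_lit 3808, nat_lit 2, nat_lit 1⟩, ⟨false, nat_lit 32768, nat_lit 61696, nat_lit 2, nat_lit 0⟩,
    ⟨false, nat_lit 4096, nat_lit 37120, nat_lit 1, nat_lit 1⟩, ⟨true, nat_lit 256, nat_lit 40704, nat_lit 2, nat_lit 1⟩, ⟨false, nat_lit 16384, nat_lit 57344, nat_lit 1, nat_lit 1⟩,
    ⟨false, nat_lit 8192, nat_lit 57344, nat_lit 1, nat_lit 1⟩]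

def r77_1_2 : List Wr := [
    ⟨false, nat_lit 16, nat_lit 31, nat_lit 2, nat_lit 0⟩, ⟨false, nat_lit 2, nat_lit 19, nat_lit 1, nat_lit 1⟩, ⟨true, nat_lit 1, nat_lit 19, nat_lit 1, nat_lit 1⟩,
    ⟨false, nat_lit 2048, nat_lit 4076, nat_lit 2, nat_lit 4⟩, ⟨false, nat_lit 128, nat_lit 2284, nat_lit 2, nat_lit 1⟩, ⟨true, nat_lit 8, nat_lit 2204, nat_lit 2, nat_lit 0⟩,
    ⟨false, nat_lit 1024, nat_lit 3940, nat_lit 2, nat_lit 2⟩, ⟨true, nat_lit 64, nat_lit 3300, nat_lit 2, nat_lit 1⟩, ⟨false, nat_lit 512, nat_lit 3876, nat_lit 2, nat_lit 1⟩,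
    ⟨false, nat_lit 32, nat_lit 3812, nat_lit 2, nat_lit 2⟩, ⟨true, nat_lit 4, nat_lit 3836, nat_lit 3, nat_lit 1⟩, ⟨false, nat_lit 32768, nat_lit 61696, nat_lit 2, nat_lit 0⟩,
    ⟨false, nat_lit 4096, nat_lit 37120, nat_lit 1, nat_lit 1⟩, ⟨true, nat_lit 256, nat_lit 40704, nat_lit 2, nat_lit 1⟩, ⟨false, nat_lit 16384, nat_lit 57344, nat_lit 1, nat_lit 1⟩,
    ⟨false, nat_lit 8192, nat_lit 57344, nat_lit 1, nat_lit 1⟩]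

def r77_1_3 : List Wr := [
    ⟨false, nat_lit 16, nat_lit 31, nat_lit 2, nat_lit 0⟩, ⟨false, nat_lit 2, nat_lit 19, nat_lit 1, nat_lit 1⟩, ⟨true, nat_lit 1, nat_lit 19, nat_lit 1, nat_lit 1⟩,
    ⟨false, nat_lit 32768, nat_lit 65516, nat_lit 4, nat_lit 2⟩, ⟨false, nat_lit 128, nat_lit 33004, nat_lit 2, nat_lit 1⟩, ⟨true, nat_lit 8, nat_lit 32924, nat_lit 2, nat_lit 0⟩,
    ⟨true, nat_lit 1024, nat_lit 34660, nat_lit 2, nat_lit 2⟩, ⟨false, nat_lit 4096, nat_lit 39780, nat_lit 2, nat_lit 3⟩, ⟨false, nat_lit 2048, nat_lit 39780, nat_lit 2, nat_lit 3⟩,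
    ⟨false, nat_lit 512, nat_lit 40804, nat_lit 3, nat_lit 1⟩, ⟨false, nat_lit 64, nat_lit 40676, nat_lit 3, nat_lit 1⟩, ⟨true, nat_lit 32, nat_lit 40676, nat_lit 2, nat_lit 4⟩,
    ⟨false, nat_lit 16384, nat_lit 57604, nat_lit 2, nat_lit 0⟩, ⟨false, nat_lit 256, nat_lit 57092, nat_lit 3, nat_lit 0⟩, ⟨true, nat_lit 4, nat_lit 57340, nat_lit 4, nat_lit 2⟩,
    ⟨false, nat_lit 8192, nat_lit 57344, nat_lit 1, nat_lit 1⟩]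

def r77_1_4 : List Wr := [
    ⟨false, nat_lit 16, nat_lit 31, nat_lit 2, nat_lit 0⟩, ⟨false, nat_lit 2, nat_lit 19, nat_lit 1, nat_lit 1⟩, ⟨true, nat_lit 1, nat_lit 19, nat_lit 1, nat_lit 1⟩,
    ⟨false, nat_lit 32768, nat_lit 65516, nat_lit 4, nat_lit 2⟩, ⟨false, nat_lit 128, nat_lit 33004, nat_lit 2, nat_lit 1⟩, ⟨true, nat_lit 8, nat_lit 32924, nat_lit 2, nat_lit 0⟩,
    ⟨false, nat_lit 1024, nat_lit 34660, nat_lit 2, nat_lit 2⟩, ⟨true, nat_lit 64, nat_lit 34020, nat_lit 2, nat_lit 1⟩, ⟨false, nat_lit 4096, nat_lit 39716, nat_lit 2, nat_lit 2⟩,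
    ⟨true, nat_lit 512, nat_lit 38692, nat_lit 2, nat_lit 2⟩, ⟨false, nat_lit 16384, nat_lit 59684, nat_lit 2, nat_lit 2⟩, ⟨false, nat_lit 2048, nat_lit 55588, nat_lit 2, nat_lit 2⟩,
    ⟨true, nat_lit 32, nat_lit 57060, nat_lit 3, nat_lit 2⟩, ⟨false, nat_lit 8192, nat_lit 57604, nat_lit 2, nat_lit 0⟩, ⟨false, nat_lit 256, nat_lit 65284, nat_lit 3, nat_lit 1⟩,
    ⟨false, nat_lit 4, nat_lit 65532, nat_lit 4, nat_lit 3⟩]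

def r77_1_5 : List Wr := [
    ⟨false, nat_lit 16, nat_lit 31, nat_lit 2, nat_lit 0⟩, ⟨false, nat_lit 2, nat_lit 19, nat_lit 1, nat_lit 1⟩, ⟨true, nat_lit 1, nat_lit 19, nat_lit 1, nat_lit 1⟩,
    ⟨false, nat_lit 32768, nat_lit 65516, nat_lit 4, nat_lit 2⟩, ⟨false, nat_lit 128, nat_lit 33004, nat_lit 2, nat_lit 1⟩, ⟨true, nat_lit 8, nat_lit 32924, nat_lit 2, nat_lit 0⟩,
    ⟨false, nat_lit 1024, nat_lit 34660, nat_lit 2, nat_lit 2⟩, ⟨true, nat_lit 64, nat_lit 34020, nat_lit 2, nat_lit 1⟩, ⟨false, nat_lit 16384, nat_lit 64292, nat_lit 3, nat_lit 1⟩,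
    ⟨false, nat_lit 4096, nat_lit 56100, nat_lit 2, nat_lit 3⟩, ⟨true, nat_lit 4, nat_lit 54492, nat_lit 3, nat_lit 1⟩, ⟨false, nat_lit 2048, nat_lit 56096, nat_lit 2, nat_lit 2⟩,
    ⟨true, nat_lit 512, nat_lit 57120, nat_lit 2, nat_lit 3⟩, ⟨false, nat_lit 8192, nat_lit 57632, nat_lit 2, nat_lit 0⟩, ⟨false, nat_lit 256, nat_lit 65312, nat_lit 3, nat_lit 1⟩,
    ⟨false, nat_lit 32, nat_lit 65504, nat_lit 3, nat_lit 3⟩]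

def r77_1_6 : List Wr := [
    ⟨false, nat_lit 16, nat_lit 31, nat_lit 2, nat_lit 0⟩, ⟨false, nat_lit 2, nat_lit 19, nat_lit 1, nat_lit 1⟩, ⟨true, nat_lit 1, nat_lit 19, nat_lit 1, nat_lit 1⟩,
    ⟨false, nat_lit 32768, nat_lit 65516, nat_lit 4, nat_lit 2⟩, ⟨false, nat_lit 128, nat_lit 33004, nat_lit 2, nat_lit 1⟩, ⟨true, nat_lit 8, nat_lit 32924, nat_lit 2, nat_lit 0⟩,
    ⟨false, nat_lit 1024, nat_lit 34660, nat_lit 2, nat_lit 2⟩, ⟨true, nat_lit 64, nat_lit 34020, nat_lit 2, nat_lit 1⟩, ⟨false, nat_lit 4096, nat_lit 39716, nat_lit 2, nat_lit 2⟩,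
    ⟨false, nat_lit 32, nat_lit 38116, nat_lit 2, nat_lit 2⟩, ⟨true, nat_lit 4, nat_lit 38140, nat_lit 3, nat_lit 1⟩, ⟨false, nat_lit 16384, nat_lit 60160, nat_lit 2, nat_lit 1⟩,
    ⟨false, nat_lit 2048, nat_lit 56064, nat_lit 2, nat_lit 1⟩, ⟨false, nat_lit 512, nat_lit 57088, nat_lit 2, nat_lit 2⟩, ⟨true, nat_lit 256, nat_lit 57088, nat_lit 2, nat_lit 2⟩,
    ⟨false, nat_lit 8192, nat_lit 57344, nat_lit 1, nat_lit 1⟩]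

def l77_1 : List (Nat × List Wr × Nat) := [
  (nat_lit 4, r77_1_0, nat_lit 0), (nat_lit 5, r77_1_1, nat_lit 1), (nat_lit 6, r77_1_2, nat_lit 0),
  (nat_lit 6, r77_1_3, nat_lit 0), (nat_lit 6, r77_1_4, nat_lit 0), (nat_lit 6, r77_1_5, nat_lit 0),
  (nat_lit 6, r77_1_6, nat_lit 0)]

def r77_2_0 : List Wr := [
    ⟨false, nat_lit 16, nat_lit 31, nat_lit 2, nat_lit 0⟩, ⟨false, nat_lit 2, nat_lit 19, nat_lit 1, nat_lit 1⟩, ⟨true, nat_lit 1, nat_lit 19, nat_lit 1, nat_lit 1⟩,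
    ⟨true, nat_lit 8, nat_lit 28, nat_lit 1, nat_lit 1⟩, ⟨true, nat_lit 128, nat_lit 228, nat_lit 1, nat_lit 2⟩, ⟨false, nat_lit 1024, nat_lit 1892, nat_lit 2, nat_lit 1⟩,
    ⟨false, nat_lit 64, nat_lit 1252, nat_lit 2, nat_lit 0⟩, ⟨true, nat_lit 4, nat_lit 1244, nat_lit 2, nat_lit 1⟩, ⟨false, nat_lit 4096, nat_lit 6944, nat_lit 1, nat_lit 3⟩,
    ⟨false, nat_lit 512, nat_lit 5920, nat_lit 2, nat_lit 0⟩, ⟨true, nat_lit 32, nat_lit 5856, nat_lit 2, nat_lit 1⟩, ⟨false, nat_lit 32768, nat_lit 59648, nat_lit 2, nat_lit 0⟩,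
    ⟨false, nat_lit 2048, nat_lit 39168, nat_lit 1, nat_lit 2⟩, ⟨true, nat_lit 256, nat_lit 40704, nat_lit 2, nat_lit 1⟩, ⟨false, nat_lit 16384, nat_lit 57344, nat_lit 1, nat_lit 1⟩,
    ⟨false, nat_lit 8192, nat_lit 57344, nat_lit 1, nat_lit 1⟩]

def r77_2_1 : List Wr := [
    ⟨false, nat_lit 16, nat_lit 31, nat_lit 2, nat_lit 0⟩, ⟨false, nat_lit 2, nat_lit 19, nat_lit 1, nat_lit 1⟩, ⟨true, nat_lit 1, nat_lit 19, nat_lit 1, nat_lit 1⟩,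
    ⟨true, nat_lit 8, nat_lit 28, nat_lit 1, nat_lit 1⟩, ⟨false, nat_lit 1024, nat_lit 2020, nat_lit 2, nat_lit 2⟩, ⟨false, nat_lit 128, nat_lit 1252, nat_lit 2, nat_lit 0⟩,
    ⟨true, nat_lit 4, nat_lit 1180, nat_lit 2, nat_lit 0⟩, ⟨false, nat_lit 32768, nat_lit 64352, nat_lit 3, nat_lit 1⟩, ⟨false, nat_lit 512, nat_lit 34656, nat_lit 2, nat_lit 1⟩,
    ⟨true, nat_lit 64, nat_lit 34528, nat_lit 2, nat_lit 1⟩, ⟨false, nat_lit 4096, nat_lit 39200, nat_lit 1, nat_lit 3⟩, ⟨true, nat_lit 256, nat_lit 38688, nat_lit 2, nat_lit 1⟩,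
    ⟨false, nat_lit 16384, nat_lit 59424, nat_lit 2, nat_lit 0⟩, ⟨false, nat_lit 2048, nat_lit 55328, nat_lit 1, nat_lit 3⟩, ⟨true, nat_lit 32, nat_lit 57312, nat_lit 3, nat_lit 2⟩,
    ⟨false, nat_lit 8192, nat_lit 57344, nat_lit 1, nat_lit 1⟩]

def l77_2 : List (Nat × List Wr × Nat) := [
  (nat_lit 6, r77_2_0, nat_lit 0), (nat_lit 6, r77_2_1, nat_lit 0)]

def r77_3_0 : List Wr := [
    ⟨false, nat_lit 16, nat_lit 31, nat_lit 2, nat_lit 0⟩, ⟨false, nat_lit 2, nat_lit 19, nat_lit 1, nat_lit 1⟩, ⟨true, nat_lit 1, nat_lit 19, nat_lit 1, nat_lit 1⟩,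
    ⟨true, nat_lit 8, nat_lit 28, nat_lit 1, nat_lit 1⟩, ⟨false, nat_lit 1024, nat_lit 2020, nat_lit 2, nat_lit 2⟩, ⟨false, nat_lit 128, nat_lit 1252, nat_lit 2, nat_lit 0⟩,
    ⟨true, nat_lit 4, nat_lit 1180, nat_lit 2, nat_lit 0⟩, ⟨false, nat_lit 32768, nat_lit 64352, nat_lit 3, nat_lit 1⟩, ⟨false, nat_lit 512, nat_lit 34656, nat_lit 2, nat_lit 1⟩,
    ⟨true, nat_lit 64, nat_lit 34528, nat_lit 2, nat_lit 1⟩, ⟨false, nat_lit 2048, nat_lit 35104, nat_lit 1, nat_lit 2⟩, ⟨true, nat_lit 256, nat_lit 36640, nat_lit 2, nat_lit 1⟩,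
    ⟨false, nat_lit 16384, nat_lit 61472, nat_lit 2, nat_lit 0⟩, ⟨false, nat_lit 4096, nat_lit 53280, nat_lit 1, nat_lit 2⟩, ⟨true, nat_lit 32, nat_lit 57312, nat_lit 3, nat_lit 2⟩,
    ⟨false, nat_lit 8192, nat_lit 57344, nat_lit 1, nat_lit 1⟩]

def l77_3 : List (Nat × List Wr × Nat) := [
  (nat_lit 4, r77_3_0, nat_lit 0)]

def r77_4_0 : List Wr := [
    ⟨false, nat_lit 16, nat_lit 31, nat_lit 2, nat_lit 0⟩, ⟨false, nat_lit 2, nat_lit 19, nat_lit 1, nat_lit 1⟩, ⟨true, nat_lit 1, nat_lit 19, nat_lit 1, nat_lit 1⟩,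
    ⟨true, nat_lit 8, nat_lit 28, nat_lit 1, nat_lit 1⟩, ⟨false, nat_lit 1024, nat_lit 2020, nat_lit 2, nat_lit 2⟩, ⟨false, nat_lit 128, nat_lit 1252, nat_lit 2, nat_lit 0⟩,
    ⟨true, nat_lit 4, nat_lit 1180, nat_lit 2, nat_lit 0⟩, ⟨true, nat_lit 64, nat_lit 1248, nat_lit 1, nat_lit 2⟩, ⟨false, nat_lit 2048, nat_lit 2848, nat_lit 1, nat_lit 2⟩,
    ⟨false, nat_lit 512, nat_lit 3872, nat_lit 2, nat_lit 0⟩, ⟨true, nat_lit 32, nat_lit 3808, nat_lit 2, nat_lit 1⟩, ⟨false, nat_lit 32768, nat_lit 61696, nat_lit 2, nat_lit 0⟩,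
    ⟨false, nat_lit 4096, nat_lit 37120, nat_lit 1, nat_lit 1⟩, ⟨true, nat_lit 256, nat_lit 40704, nat_lit 2, nat_lit 1⟩, ⟨false, nat_lit 16384, nat_lit 57344, nat_lit 1, nat_lit 1⟩,
    ⟨false, nat_lit 8192, nat_lit 57344, nat_lit 1, nat_lit 1⟩]

def r77_4_1 : List Wr := [
    ⟨false, nat_lit 16, nat_lit 31, nat_lit 2, nat_lit 0⟩, ⟨false, nat_lit 2, nat_lit 19, nat_lit 1, nat_lit 1⟩, ⟨true, nat_lit 1, nat_lit 19, nat_lit 1, nat_lit 1⟩,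
    ⟨true, nat_lit 8, nat_lit 28, nat_lit 1, nat_lit 1⟩, ⟨false, nat_lit 1024, nat_lit 2020, nat_lit 2, nat_lit 2⟩, ⟨false, nat_lit 128, nat_lit 1252, nat_lit 2, nat_lit 0⟩,
    ⟨true, nat_lit 4, nat_lit 1180, nat_lit 2, nat_lit 0⟩, ⟨true, nat_lit 64, nat_lit 1248, nat_lit 1, nat_lit 2⟩, ⟨false, nat_lit 4096, nat_lit 6944, nat_lit 1, nat_lit 3⟩,
    ⟨false, nat_lit 512, nat_lit 5920, nat_lit 2, nat_lit 0⟩, ⟨true, nat_lit 32, nat_lit 5856, nat_lit 2, nat_lit 1⟩, ⟨false, nat_lit 32768, nat_lit 59648, nat_lit 2, nat_lit 0⟩,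
    ⟨false, nat_lit 2048, nat_lit 39168, nat_lit 1, nat_lit 2⟩, ⟨true, nat_lit 256, nat_lit 40704, nat_lit 2, nat_lit 1⟩, ⟨false, nat_lit 16384, nat_lit 57344, nat_lit 1, nat_lit 1⟩,
    ⟨false, nat_lit 8192, nat_lit 57344, nat_lit 1, nat_lit 1⟩]

def r77_4_2 : List Wr := [
    ⟨false, nat_lit 16, nat_lit 31, nat_lit 2, nat_lit 0⟩, ⟨false, nat_lit 2, nat_lit 19, nat_lit 1, nat_lit 1⟩, ⟨true, nat_lit 1, nat_lit 19, nat_lit 1, nat_lit 1⟩,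
    ⟨true, nat_lit 8, nat_lit 28, nat_lit 1, nat_lit 1⟩, ⟨false, nat_lit 4096, nat_lit 8164, nat_lit 2, nat_lit 4⟩, ⟨false, nat_lit 128, nat_lit 4324, nat_lit 2, nat_lit 0⟩,
    ⟨true, nat_lit 4, nat_lit 4252, nat_lit 2, nat_lit 0⟩, ⟨false, nat_lit 2048, nat_lit 8032, nat_lit 2, nat_lit 2⟩, ⟨false, nat_lit 1024, nat_lit 8032, nat_lit 2, nat_lit 2⟩,
    ⟨true, nat_lit 64, nat_lit 7392, nat_lit 2, nat_lit 1⟩, ⟨true, nat_lit 512, nat_lit 7968, nat_lit 2, nat_lit 1⟩, ⟨false, nat_lit 32768, nat_lit 57632, nat_lit 2, nat_lit 0⟩,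
    ⟨false, nat_lit 256, nat_lit 40736, nat_lit 2, nat_lit 2⟩, ⟨true, nat_lit 32, nat_lit 40928, nat_lit 3, nat_lit 1⟩, ⟨false, nat_lit 16384, nat_lit 57344, nat_lit 1, nat_lit 1⟩,
    ⟨false, nat_lit 8192, nat_lit 57344, nat_lit 1, nat_lit 1⟩]

def l77_4 : List (Nat × List Wr × Nat) := [
  (nat_lit 4, r77_4_0, nat_lit 0), (nat_lit 6, r77_4_1, nat_lit 0), (nat_lit 6, r77_4_2, nat_lit 0)]

def r47_0_0 : List Wr := [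
    ⟨false, nat_lit 64, nat_lit 127, nat_lit 2, nat_lit 2⟩, ⟨false, nat_lit 8, nat_lit 79, nat_lit 2, nat_lit 0⟩, ⟨true, nat_lit 1, nat_lit 73, nat_lit 1, nat_lit 1⟩,
    ⟨false, nat_lit 1024, nat_lit 1974, nat_lit 3, nat_lit 0⟩, ⟨false, nat_lit 32, nat_lit 1142, nat_lit 2, nat_lit 1⟩, ⟨true, nat_lit 4, nat_lit 1134, nat_lit 2, nat_lit 1⟩,
    ⟨true, nat_lit 128, nat_lit 1170, nat_lit 1, nat_lit 2⟩, ⟨false, nat_lit 32768, nat_lit 64274, nat_lit 3, nat_lit 1⟩, ⟨false, nat_lit 512, nat_lit 34578, nat_lit 2, nat_lit 1⟩,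
    ⟨true, nat_lit 16, nat_lit 34546, nat_lit 3, nat_lit 0⟩, ⟨false, nat_lit 4096, nat_lit 39170, nat_lit 1, nat_lit 3⟩, ⟨true, nat_lit 256, nat_lit 38658, nat_lit 2, nat_lit 1⟩,
    ⟨false, nat_lit 16384, nat_lit 59394, nat_lit 2, nat_lit 0⟩, ⟨false, nat_lit 2048, nat_lit 55298, nat_lit 1, nat_lit 3⟩, ⟨true, nat_lit 2, nat_lit 57342, nat_lit 4, nat_lit 3⟩,
    ⟨false, nat_lit 8192, nat_lit 57344, nat_lit 1, nat_lit 1⟩]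

def r47_0_1 : List Wr := [
    ⟨false, nat_lit 64, nat_lit 127, nat_lit 2, nat_lit 2⟩, ⟨false, nat_lit 8, nat_lit 79, nat_lit 2, nat_lit 0⟩, ⟨true, nat_lit 1, nat_lit 73, nat_lit 1, nat_lit 1⟩,
    ⟨false, nat_lit 1024, nat_lit 1974, nat_lit 3, nat_lit 0⟩, ⟨false, nat_lit 32, nat_lit 1142, nat_lit 2, nat_lit 1⟩, ⟨true, nat_lit 4, nat_lit 1134, nat_lit 2, nat_lit 1⟩,
    ⟨false, nat_lit 128, nat_lit 1170, nat_lit 1, nat_lit 2⟩, ⟨true, nat_lit 16, nat_lit 1266, nat_lit 2, nat_lit 1⟩, ⟨false, nat_lit 4096, nat_lit 6914, nat_lit 1, nat_lit 3⟩,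
    ⟨false, nat_lit 512, nat_lit 5890, nat_lit 2, nat_lit 0⟩, ⟨true, nat_lit 2, nat_lit 5886, nat_lit 3, nat_lit 2⟩, ⟨false, nat_lit 32768, nat_lit 59648, nat_lit 2, nat_lit 0⟩,
    ⟨false, nat_lit 2048, nat_lit 39168, nat_lit 1, nat_lit 2⟩, ⟨true, nat_lit 256, nat_lit 40704, nat_lit 2, nat_lit 1⟩, ⟨false, nat_lit 16384, nat_lit 57344, nat_lit 1, nat_lit 1⟩,
    ⟨false, nat_lit 8192, nat_lit 57344, nat_lit 1, nat_lit 1⟩]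

def l47_0 : List (Nat × List Wr × Nat) := [
  (nat_lit 5, r47_0_0, nat_lit 0), (nat_lit 5, r47_0_1, nat_lit 0)]

def r53_0_0 : List Wr := [
    ⟨true, nat_lit 8, nat_lit 15, nat_lit 1, nat_lit 2⟩, ⟨false, nat_lit 64, nat_lit 119, nat_lit 2, nat_lit 1⟩, ⟨false, nat_lit 4, nat_lit 79, nat_lit 2, nat_lit 0⟩,
    ⟨true, nat_lit 1, nat_lit 77, nat_lit 1, nat_lit 2⟩, ⟨false, nat_lit 256, nat_lit 434, nat_lit 1, nat_lit 3⟩, ⟨false, nat_lit 32, nat_lit 370, nat_lit 2, nat_lit 0⟩,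
    ⟨true, nat_lit 2, nat_lit 366, nat_lit 2, nat_lit 1⟩, ⟨false, nat_lit 2048, nat_lit 3728, nat_lit 2, nat_lit 0⟩, ⟨false, nat_lit 128, nat_lit 2448, nat_lit 1, nat_lit 2⟩,
    ⟨true, nat_lit 16, nat_lit 2544, nat_lit 2, nat_lit 1⟩, ⟨true, nat_lit 1024, nat_lit 3584, nat_lit 1, nat_lit 1⟩, ⟨false, nat_lit 32768, nat_lit 61952, nat_lit 2, nat_lit 0⟩,
    ⟨false, nat_lit 4096, nat_lit 37376, nat_lit 1, nat_lit 1⟩, ⟨true, nat_lit 512, nat_lit 40448, nat_lit 2, nat_lit 0⟩, ⟨false, nat_lit 16384, nat_lit 57344, nat_lit 1, nat_lit 1⟩,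
    ⟨false, nat_lit 8192, nat_lit 57344, nat_lit 1, nat_lit 1⟩]

def r53_0_1 : List Wr := [
    ⟨false, nat_lit 64, nat_lit 127, nat_lit 2, nat_lit 2⟩, ⟨false, nat_lit 8, nat_lit 79, nat_lit 2, nat_lit 0⟩, ⟨true, nat_lit 1, nat_lit 73, nat_lit 1, nat_lit 1⟩,
    ⟨false, nat_lit 2048, nat_lit 4022, nat_lit 3, nat_lit 1⟩, ⟨false, nat_lit 32, nat_lit 2166, nat_lit 2, nat_lit 1⟩, ⟨true, nat_lit 4, nat_lit 2158, nat_lit 2, nat_lit 1⟩,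
    ⟨false, nat_lit 256, nat_lit 2450, nat_lit 1, nat_lit 3⟩, ⟨true, nat_lit 16, nat_lit 2418, nat_lit 2, nat_lit 1⟩, ⟨false, nat_lit 1024, nat_lit 3714, nat_lit 2, nat_lit 0⟩,
    ⟨false, nat_lit 128, nat_lit 3458, nat_lit 1, nat_lit 3⟩, ⟨true, nat_lit 2, nat_lit 3582, nat_lit 3, nat_lit 2⟩, ⟨false, nat_lit 32768, nat_lit 61952, nat_lit 2, nat_lit 0⟩,
    ⟨false, nat_lit 4096, nat_lit 37376, nat_lit 1, nat_lit 1⟩, ⟨true, nat_lit 512, nat_lit 40448, nat_lit 2, nat_lit 0⟩, ⟨false, nat_lit 16384, nat_lit 57344, nat_lit 1, nat_lit 1⟩,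
    ⟨false, nat_lit 8192, nat_lit 57344, nat_lit 1, nat_lit 1⟩]

def r53_0_2 : List Wr := [
    ⟨false, nat_lit 64, nat_lit 127, nat_lit 2, nat_lit 2⟩, ⟨false, nat_lit 8, nat_lit 79, nat_lit 2, nat_lit 0⟩, ⟨true, nat_lit 1, nat_lit 73, nat_lit 1, nat_lit 1⟩,
    ⟨true, nat_lit 4, nat_lit 78, nat_lit 1, nat_lit 2⟩, ⟨false, nat_lit 256, nat_lit 434, nat_lit 1, nat_lit 3⟩, ⟨false, nat_lit 32, nat_lit 370, nat_lit 2, nat_lit 0⟩,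
    ⟨true, nat_lit 2, nat_lit 366, nat_lit 2, nat_lit 1⟩, ⟨false, nat_lit 2048, nat_lit 3728, nat_lit 2, nat_lit 0⟩, ⟨false, nat_lit 128, nat_lit 2448, nat_lit 1, nat_lit 2⟩,
    ⟨true, nat_lit 16, nat_lit 2544, nat_lit 2, nat_lit 1⟩, ⟨true, nat_lit 1024, nat_lit 3584, nat_lit 1, nat_lit 1⟩, ⟨false, nat_lit 32768, nat_lit 61952, nat_lit 2, nat_lit 0⟩,
    ⟨false, nat_lit 4096, nat_lit 37376, nat_lit 1, nat_lit 1⟩, ⟨true, nat_lit 512, nat_lit 40448, nat_lit 2, nat_lit 0⟩, ⟨false, nat_lit 16384, nat_lit 57344, nat_lit 1, nat_lit 1⟩,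
    ⟨false, nat_lit 8192, nat_lit 57344, nat_lit 1, nat_lit 1⟩]

def l53_0 : List (Nat × List Wr × Nat) := [
  (nat_lit 5, r53_0_0, nat_lit 0), (nat_lit 5, r53_0_1, nat_lit 0), (nat_lit 5, r53_0_2, nat_lit 0)]

end Pool.Agent.EC4.Run
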