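import Pool.Agent.Lib.MP_ec4eff_co.R5.Srch

/-! Generated file (project R5): results of the first lune -/

namespace Pool.Agent.EC4.Run

def r14_0_0 : List Wr := [
    ⟨true, nat_lit 4, nat_lit 7, nat_lit 1, nat_lit 1⟩, ⟨false, nat_lit 64, nat_lit 123, nat_lit 2, nat_lit 1⟩, ⟨false, nat_lit 8, nat_lit 75, nat_lit 1, nat_lit 2⟩,
    ⟨true, nat_lit 2, nat_lit 79, nat_lit 2, nat_lit 0⟩, ⟨false, nat_lit 256, nat_lit 433, nat_lit 1, nat_lit 3⟩, ⟨false, nat_lit 32, nat_lit 369, nat_lit 2, nat_lit 0⟩,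
    ⟨true, nat_lit 1, nat_lit 367, nat_lit 2, nat_lit 2⟩, ⟨false, nat_lit 2048, nat_lit 3728, nat_lit 2, nat_lit 0⟩, ⟨false, nat_lit 128, nat_lit 2448, nat_lit 1, nat_lit 2⟩,
    ⟨true, nat_lit 16, nat_lit 2544, nat_lit 2, nat_lit 1⟩, ⟨true, nat_lit 1024, nat_lit 3584, nat_lit 1, nat_lit 1⟩, ⟨false, nat_lit 32768, nat_lit 61952, nat_lit 2, nat_lit 0⟩,
    ⟨false, nat_lit 4096, nat_lit 37376, nat_lit 1, nat_lit 1⟩, ⟨true, nat_lit 512, nat_lit 40448, nat_lit 2, nat_lit 0⟩, ⟨false, nat_lit 16384, nat_lit 57344, nat_lit 1, nat_lit 1⟩,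
    ⟨false, nat_lit 8192, nat_lit 57344, nat_lit 1, nat_lit 1⟩]

def r14_0_1 : List Wr := [
    ⟨false, nat_lit 4, nat_lit 7, nat_lit 1, nat_lit 1⟩, ⟨true, nat_lit 2, nat_lit 7, nat_lit 1, nat_lit 1⟩, ⟨false, nat_lit 64, nat_lit 121, nat_lit 2, nat_lit 0⟩,
    ⟨false, nat_lit 8, nat_lit 73, nat_lit 1, nat_lit 1⟩, ⟨true, nat_lit 1, nat_lit 79, nat_lit 2, nat_lit 0⟩, ⟨false, nat_lit 2048, nat_lit 4016, nat_lit 2, nat_lit 2⟩,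
    ⟨false, nat_lit 256, nat_lit 2480, nat_lit 1, nat_lit 3⟩, ⟨true, nat_lit 32, nat_lit 2416, nat_lit 2, nat_lit 0⟩, ⟨false, nat_lit 1024, nat_lit 3728, nat_lit 2, nat_lit 0⟩,
    ⟨false, nat_lit 128, nat_lit 3472, nat_lit 1, nat_lit 3⟩, ⟨true, nat_lit 16, nat_lit 3568, nat_lit 2, nat_lit 2⟩, ⟨false, nat_lit 32768, nat_lit 61952, nat_lit 2, nat_lit 0⟩,
    ⟨false, nat_lit 4096, nat_lit 37376, nat_lit 1, nat_lit 1⟩, ⟨true, nat_lit 512, nat_lit 40448, nat_lit 2, nat_lit 0⟩, ⟨false, nat_lit 16384, nat_lit 57344, nat_lit 1, nat_lit 1⟩,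
    ⟨false, nat_lit 8192, nat_lit 57344, nat_lit 1, nat_lit 1⟩]

def r14_0_2 : List Wr := [
    ⟨false, nat_lit 4, nat_lit 7, nat_lit 1, nat_lit 1⟩, ⟨true, nat_lit 2, nat_lit 7, nat_lit 1, nat_lit 1⟩, ⟨false, nat_lit 64, nat_lit 121, nat_lit 2, nat_lit 0⟩,
    ⟨false, nat_lit 8, nat_lit 73, nat_lit 1, nat_lit 1⟩, ⟨true, nat_lit 1, nat_lit 79, nat_lit 2, nat_lit 0⟩, ⟨true, nat_lit 32, nat_lit 112, nat_lit 1, nat_lit 1⟩,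
    ⟨false, nat_lit 2048, nat_lit 3984, nat_lit 2, nat_lit 1⟩, ⟨false, nat_lit 256, nat_lit 2448, nat_lit 1, nat_lit 2⟩, ⟨true, nat_lit 16, nat_lit 2416, nat_lit 2, nat_lit 0⟩,
    ⟨false, nat_lit 32768, nat_lit 63104, nat_lit 2, nat_lit 2⟩, ⟨false, nat_lit 1024, nat_lit 36480, nat_lit 2, nat_lit 0⟩, ⟨true, nat_lit 128, nat_lit 36224, nat_lit 1, nat_lit 3⟩,
    ⟨false, nat_lit 16384, nat_lit 61952, nat_lit 2, nat_lit 0⟩, ⟨false, nat_lit 4096, nat_lit 53760, nat_lit 1, nat_lit 2⟩, ⟨true, nat_lit 512, nat_lit 56832, nat_lit 2, nat_lit 1⟩,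
    ⟨false, nat_lit 8192, nat_lit 57344, nat_lit 1, nat_lit 1⟩]

def l14_0 : List (Nat × List Wr × Nat) := [
  (nat_lit 5, r14_0_0, nat_lit 0), (nat_lit 5, r14_0_1, nat_lit 0), (nat_lit 5, r14_0_2, nat_lit 0)]

end Pool.Agent.EC4.Run
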