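import Pool.Agent.Lib.MP_ec4eff_co.R5.Dec
import Pool.Agent.Lib.MP_ec4eff_co.R5.Run.D16
import Pool.Agent.Lib.MP_ec4eff_co.R5.Run.D17

/-! Generated file (project R5): the first lune -/

namespace Pool.Agent.EC4.Run

theorem a77 : runA (l77_0 ++ (l77_1 ++ (l77_2 ++ (l77_3 ++ (l77_4))))) [1, 1, 0, 0, 0, 1, 1, 0] = false := by decide +kernel

theorem a47 : runA (l47_0) [1, 0, 0, 1, 0, 2, 0] = false := by decide +kernel

theorem a53 : runA (l53_0) [1, 0, 0, 2, 0, 1, 0] = false := by decide +kernel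

theorem a101 : runA ([]) [2, 0, 0, 0, 1, 1, 0] = false := by decide +kernel

theorem a25 : runA ([]) [0, 1, 1, 2, 0, 0, 0] = false := by decide +kernel

theorem a14 : runA (l14_0) [0, 1, 0, 2, 0, 1, 0] = false := by decide +kernel

theorem a108 : runA ([]) [2, 0, 1, 1, 0, 0, 0] = false := by decide +kernel

end Pool.Agent.EC4.Run
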