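import Pool.Agent.Lib.MP_ec4eff_co.R5.Srch

/-! Generated file (project R5): results of the first lune -/

namespace Pool.Agent.EC4.Run

def r41_0_0 : List Wr := [
    ⟨true, nat_lit 8, nat_lit 15, nat_lit 1, nat_lit 2⟩, ⟨false, nat_lit 64, nat_lit 119, nat_lit 2, nat_lit 1⟩, ⟨false, nat_lit 4, nat_lit 79, nat_lit 2, nat_lit 0⟩,
    ⟨true, nat_lit 1, nat_lit 77, nat_lit 1, nat_lit 2⟩, ⟨false, nat_lit 512, nat_lit 946, nat_lit 2, nat_lit 1⟩, ⟨false, nat_lit 32, nat_lit 626, nat_lit 2, nat_lit 0⟩,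
    ⟨true, nat_lit 2, nat_lit 622, nat_lit 2, nat_lit 1⟩, ⟨true, nat_lit 256, nat_lit 912, nat_lit 1, nat_lit 2⟩, ⟨false, nat_lit 1024, nat_lit 1168, nat_lit 1, nat_lit 1⟩,
    ⟨false, nat_lit 128, nat_lit 1936, nat_lit 2, nat_lit 0⟩, ⟨true, nat_lit 16, nat_lit 2032, nat_lit 2, nat_lit 2⟩, ⟨false, nat_lit 32768, nat_lit 63488, nat_lit 2, nat_lit 0⟩,
    ⟨false, nat_lit 4096, nat_lit 38912, nat_lit 1, nat_lit 1⟩, ⟨true, nat_lit 2048, nat_lit 38912, nat_lit 1, nat_lit 1⟩, ⟨false, nat_lit 16384, nat_lit 57344, nat_lit 1, nat_lit 1⟩,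
    ⟨false, nat_lit 8192, nat_lit 57344, nat_lit 1, nat_lit 1⟩]

def r41_0_1 : List Wr := [
    ⟨true, nat_lit 8, nat_lit 15, nat_lit 1, nat_lit 2⟩, ⟨false, nat_lit 64, nat_lit 119, nat_lit 2, nat_lit 1⟩, ⟨false, nat_lit 4, nat_lit 79, nat_lit 2, nat_lit 0⟩,
    ⟨true, nat_lit 1, nat_lit 77, nat_lit 1, nat_lit 2⟩, ⟨false, nat_lit 512, nat_lit 946, nat_lit 2, nat_lit 1⟩, ⟨false, nat_lit 32, nat_lit 626, nat_lit 2, nat_lit 0⟩,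
    ⟨true, nat_lit 2, nat_lit 622, nat_lit 2, nat_lit 1⟩, ⟨false, nat_lit 1024, nat_lit 1424, nat_lit 1, nat_lit 2⟩, ⟨false, nat_lit 256, nat_lit 1936, nat_lit 2, nat_lit 0⟩,
    ⟨true, nat_lit 16, nat_lit 1904, nat_lit 2, nat_lit 1⟩, ⟨true, nat_lit 128, nat_lit 1920, nat_lit 1, nat_lit 2⟩, ⟨false, nat_lit 32768, nat_lit 63488, nat_lit 2, nat_lit 0⟩,
    ⟨false, nat_lit 4096, nat_lit 38912, nat_lit 1, nat_lit 1⟩, ⟨true, nat_lit 2048, nat_lit 38912, nat_lit 1, nat_lit 1⟩, ⟨false, nat_lit 16384, nat_lit 57344, nat_lit 1, nat_lit 1⟩,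
    ⟨false, nat_lit 8192, nat_lit 57344, nat_lit 1, nat_lit 1⟩]

def r41_0_2 : List Wr := [
    ⟨true, nat_lit 8, nat_lit 15, nat_lit 1, nat_lit 2⟩, ⟨false, nat_lit 64, nat_lit 119, nat_lit 2, nat_lit 1⟩, ⟨false, nat_lit 4, nat_lit 79, nat_lit 2, nat_lit 0⟩,
    ⟨true, nat_lit 1, nat_lit 77, nat_lit 1, nat_lit 2⟩, ⟨false, nat_lit 512, nat_lit 946, nat_lit 2, nat_lit 1⟩, ⟨false, nat_lit 32, nat_lit 626, nat_lit 2, nat_lit 0⟩,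
    ⟨true, nat_lit 2, nat_lit 622, nat_lit 2, nat_lit 1⟩, ⟨false, nat_lit 1024, nat_lit 1424, nat_lit 1, nat_lit 2⟩, ⟨false, nat_lit 256, nat_lit 1936, nat_lit 2, nat_lit 0⟩,
    ⟨true, nat_lit 16, nat_lit 1904, nat_lit 2, nat_lit 1⟩, ⟨false, nat_lit 4096, nat_lit 6272, nat_lit 1, nat_lit 1⟩, ⟨false, nat_lit 2048, nat_lit 6272, nat_lit 1, nat_lit 1⟩,
    ⟨true, nat_lit 128, nat_lit 8064, nat_lit 2, nat_lit 1⟩, ⟨false, nat_lit 32768, nat_lit 57344, nat_lit 1, nat_lit 1⟩, ⟨false, nat_lit 16384, nat_lit 57344, nat_lit 1, nat_lit 1⟩,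
    ⟨false, nat_lit 8192, nat_lit 57344, nat_lit 1, nat_lit 1⟩]

def r41_0_3 : List Wr := [
    ⟨true, nat_lit 8, nat_lit 15, nat_lit 1, nat_lit 2⟩, ⟨false, nat_lit 64, nat_lit 119, nat_lit 2, nat_lit 1⟩, ⟨false, nat_lit 4, nat_lit 79, nat_lit 2, nat_lit 0⟩,
    ⟨true, nat_lit 1, nat_lit 77, nat_lit 1, nat_lit 2⟩, ⟨false, nat_lit 512, nat_lit 946, nat_lit 2, nat_lit 1⟩, ⟨false, nat_lit 32, nat_lit 626, nat_lit 2, nat_lit 0⟩,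
    ⟨true, nat_lit 2, nat_lit 622, nat_lit 2, nat_lit 1⟩, ⟨false, nat_lit 32768, nat_lit 64912, nat_lit 3, nat_lit 1⟩, ⟨false, nat_lit 256, nat_lit 33680, nat_lit 2, nat_lit 0⟩,
    ⟨true, nat_lit 16, nat_lit 33648, nat_lit 2, nat_lit 1⟩, ⟨false, nat_lit 4096, nat_lit 40064, nat_lit 1, nat_lit 3⟩, ⟨true, nat_lit 1024, nat_lit 38016, nat_lit 1, nat_lit 2⟩,
    ⟨false, nat_lit 16384, nat_lit 59520, nat_lit 2, nat_lit 0⟩, ⟨false, nat_lit 2048, nat_lit 55424, nat_lit 1, nat_lit 3⟩, ⟨true, nat_lit 128, nat_lit 57216, nat_lit 3, nat_lit 0⟩,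
    ⟨false, nat_lit 8192, nat_lit 57344, nat_lit 1, nat_lit 1⟩]

def r41_0_4 : List Wr := [
    ⟨true, nat_lit 8, nat_lit 15, nat_lit 1, nat_lit 2⟩, ⟨false, nat_lit 64, nat_lit 119, nat_lit 2, nat_lit 1⟩, ⟨false, nat_lit 4, nat_lit 79, nat_lit 2, nat_lit 0⟩,
    ⟨true, nat_lit 1, nat_lit 77, nat_lit 1, nat_lit 2⟩, ⟨false, nat_lit 512, nat_lit 946, nat_lit 2, nat_lit 1⟩, ⟨false, nat_lit 32, nat_lit 626, nat_lit 2, nat_lit 0⟩,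
    ⟨true, nat_lit 2, nat_lit 622, nat_lit 2, nat_lit 1⟩, ⟨false, nat_lit 32768, nat_lit 64912, nat_lit 3, nat_lit 1⟩, ⟨false, nat_lit 256, nat_lit 33680, nat_lit 2, nat_lit 0⟩,
    ⟨true, nat_lit 16, nat_lit 33648, nat_lit 2, nat_lit 1⟩, ⟨false, nat_lit 2048, nat_lit 35968, nat_lit 1, nat_lit 2⟩, ⟨true, nat_lit 1024, nat_lit 35968, nat_lit 1, nat_lit 2⟩,
    ⟨false, nat_lit 16384, nat_lit 61568, nat_lit 2, nat_lit 0⟩, ⟨false, nat_lit 4096, nat_lit 53376, nat_lit 1, nat_lit 2⟩, ⟨true, nat_lit 128, nat_lit 57216, nat_lit 3, nat_lit 0⟩,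
    ⟨false, nat_lit 8192, nat_lit 57344, nat_lit 1, nat_lit 1⟩]

def r41_0_5 : List Wr := [
    ⟨false, nat_lit 64, nat_lit 127, nat_lit 2, nat_lit 2⟩, ⟨false, nat_lit 8, nat_lit 79, nat_lit 2, nat_lit 0⟩, ⟨true, nat_lit 1, nat_lit 73, nat_lit 1, nat_lit 1⟩,
    ⟨false, nat_lit 4096, nat_lit 8118, nat_lit 3, nat_lit 2⟩, ⟨false, nat_lit 32, nat_lit 4214, nat_lit 2, nat_lit 1⟩, ⟨true, nat_lit 4, nat_lit 4206, nat_lit 2, nat_lit 1⟩,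
    ⟨true, nat_lit 512, nat_lit 5010, nat_lit 2, nat_lit 1⟩, ⟨false, nat_lit 32768, nat_lit 60818, nat_lit 3, nat_lit 1⟩, ⟨false, nat_lit 2048, nat_lit 40338, nat_lit 2, nat_lit 3⟩,
    ⟨true, nat_lit 16, nat_lit 39538, nat_lit 3, nat_lit 0⟩, ⟨false, nat_lit 1024, nat_lit 40322, nat_lit 2, nat_lit 2⟩, ⟨true, nat_lit 256, nat_lit 40834, nat_lit 2, nat_lit 3⟩,
    ⟨false, nat_lit 16384, nat_lit 57474, nat_lit 2, nat_lit 0⟩, ⟨false, nat_lit 128, nat_lit 57218, nat_lit 3, nat_lit 1⟩, ⟨true, nat_lit 2, nat_lit 57342, nat_lit 4, nat_lit 3⟩,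
    ⟨false, nat_lit 8192, nat_lit 57344, nat_lit 1, nat_lit 1⟩]

def r41_0_6 : List Wr := [
    ⟨false, nat_lit 64, nat_lit 127, nat_lit 2, nat_lit 2⟩, ⟨false, nat_lit 8, nat_lit 79, nat_lit 2, nat_lit 0⟩, ⟨true, nat_lit 1, nat_lit 73, nat_lit 1, nat_lit 1⟩,
    ⟨false, nat_lit 32768, nat_lit 65462, nat_lit 4, nat_lit 2⟩, ⟨false, nat_lit 32, nat_lit 32886, nat_lit 2, nat_lit 1⟩, ⟨true, nat_lit 4, nat_lit 32878, nat_lit 2, nat_lit 1⟩,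
    ⟨false, nat_lit 512, nat_lit 33682, nat_lit 2, nat_lit 1⟩, ⟨true, nat_lit 16, nat_lit 33394, nat_lit 2, nat_lit 1⟩, ⟨false, nat_lit 4096, nat_lit 40322, nat_lit 2, nat_lit 2⟩,
    ⟨false, nat_lit 256, nat_lit 37762, nat_lit 2, nat_lit 1⟩, ⟨true, nat_lit 2, nat_lit 37758, nat_lit 3, nat_lit 2⟩, ⟨true, nat_lit 1024, nat_lit 38016, nat_lit 1, nat_lit 2⟩,
    ⟨false, nat_lit 16384, nat_lit 59520, nat_lit 2, nat_lit 0⟩, ⟨false, nat_lit 2048, nat_lit 55424, nat_lit 1, nat_lit 3⟩, ⟨true, nat_lit 128, nat_lit 57216, nat_lit 3, nat_lit 0⟩,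
    ⟨false, nat_lit 8192, nat_lit 57344, nat_lit 1, nat_lit 1⟩]

def r41_0_7 : List Wr := [
    ⟨false, nat_lit 64, nat_lit 127, nat_lit 2, nat_lit 2⟩, ⟨false, nat_lit 8, nat_lit 79, nat_lit 2, nat_lit 0⟩, ⟨true, nat_lit 1, nat_lit 73, nat_lit 1, nat_lit 1⟩,
    ⟨false, nat_lit 32768, nat_lit 65462, nat_lit 4, nat_lit 2⟩, ⟨false, nat_lit 32, nat_lit 32886, nat_lit 2, nat_lit 1⟩, ⟨true, nat_lit 4, nat_lit 32878, nat_lit 2, nat_lit 1⟩,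
    ⟨false, nat_lit 512, nat_lit 33682, nat_lit 2, nat_lit 1⟩, ⟨true, nat_lit 16, nat_lit 33394, nat_lit 2, nat_lit 1⟩, ⟨false, nat_lit 2048, nat_lit 36226, nat_lit 2, nat_lit 1⟩,
    ⟨false, nat_lit 256, nat_lit 35714, nat_lit 2, nat_lit 1⟩, ⟨true, nat_lit 2, nat_lit 35710, nat_lit 3, nat_lit 2⟩, ⟨true, nat_lit 1024, nat_lit 35968, nat_lit 1, nat_lit 2⟩,
    ⟨false, nat_lit 16384, nat_lit 61568, nat_lit 2, nat_lit 0⟩, ⟨false, nat_lit 4096, nat_lit 53376, nat_lit 1, nat_lit 2⟩, ⟨true, nat_lit 128, nat_lit 57216, nat_lit 3, nat_lit 0⟩,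
    ⟨false, nat_lit 8192, nat_lit 57344, nat_lit 1, nat_lit 1⟩]

def l41_0 : List (Nat × List Wr × Nat) := [
  (nat_lit 6, r41_0_0, nat_lit 0), (nat_lit 6, r41_0_1, nat_lit 0), (nat_lit 6, r41_0_2, nat_lit 0),
  (nat_lit 6, r41_0_3, nat_lit 0), (nat_lit 4, r41_0_4, nat_lit 0), (nat_lit 6, r41_0_5, nat_lit 0),
  (nat_lit 6, r41_0_6, nat_lit 0), (nat_lit 4, r41_0_7, nat_lit 0)]

def r41_1_0 : List Wr := [
    ⟨false, nat_lit 64, nat_lit 127, nat_lit 2, nat_lit 2⟩, ⟨false, nat_lit 8, nat_lit 79, nat_lit 2, nat_lit 0⟩, ⟨true, nat_lit 1, nat_lit 73, nat_lit 1, nat_lit 1⟩,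
    ⟨true, nat_lit 4, nat_lit 78, nat_lit 1, nat_lit 2⟩, ⟨false, nat_lit 512, nat_lit 946, nat_lit 2, nat_lit 1⟩, ⟨false, nat_lit 32, nat_lit 626, nat_lit 2, nat_lit 0⟩,
    ⟨true, nat_lit 2, nat_lit 622, nat_lit 2, nat_lit 1⟩, ⟨true, nat_lit 256, nat_lit 912, nat_lit 1, nat_lit 2⟩, ⟨false, nat_lit 1024, nat_lit 1168, nat_lit 1, nat_lit 1⟩,
    ⟨false, nat_lit 128, nat_lit 1936, nat_lit 2, nat_lit 0⟩, ⟨true, nat_lit 16, nat_lit 2032, nat_lit 2, nat_lit 2⟩, ⟨false, nat_lit 32768, nat_lit 63488, nat_lit 2, nat_lit 0⟩,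
    ⟨false, nat_lit 4096, nat_lit 38912, nat_lit 1, nat_lit 1⟩, ⟨true, nat_lit 2048, nat_lit 38912, nat_lit 1, nat_lit 1⟩, ⟨false, nat_lit 16384, nat_lit 57344, nat_lit 1, nat_lit 1⟩,
    ⟨false, nat_lit 8192, nat_lit 57344, nat_lit 1, nat_lit 1⟩]

def r41_1_1 : List Wr := [
    ⟨false, nat_lit 64, nat_lit 127, nat_lit 2, nat_lit 2⟩, ⟨false, nat_lit 8, nat_lit 79, nat_lit 2, nat_lit 0⟩, ⟨true, nat_lit 1, nat_lit 73, nat_lit 1, nat_lit 1⟩,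
    ⟨true, nat_lit 4, nat_lit 78, nat_lit 1, nat_lit 2⟩, ⟨false, nat_lit 512, nat_lit 946, nat_lit 2, nat_lit 1⟩, ⟨false, nat_lit 32, nat_lit 626, nat_lit 2, nat_lit 0⟩,
    ⟨true, nat_lit 2, nat_lit 622, nat_lit 2, nat_lit 1⟩, ⟨false, nat_lit 1024, nat_lit 1424, nat_lit 1, nat_lit 2⟩, ⟨false, nat_lit 256, nat_lit 1936, nat_lit 2, nat_lit 0⟩,
    ⟨true, nat_lit 16, nat_lit 1904, nat_lit 2, nat_lit 1⟩, ⟨true, nat_lit 128, nat_lit 1920, nat_lit 1, nat_lit 2⟩, ⟨false, nat_lit 32768, nat_lit 63488, nat_lit 2, nat_lit 0⟩,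
    ⟨false, nat_lit 4096, nat_lit 38912, nat_lit 1, nat_lit 1⟩, ⟨true, nat_lit 2048, nat_lit 38912, nat_lit 1, nat_lit 1⟩, ⟨false, nat_lit 16384, nat_lit 57344, nat_lit 1, nat_lit 1⟩,
    ⟨false, nat_lit 8192, nat_lit 57344, nat_lit 1, nat_lit 1⟩]

def r41_1_2 : List Wr := [
    ⟨false, nat_lit 64, nat_lit 127, nat_lit 2, nat_lit 2⟩, ⟨false, nat_lit 8, nat_lit 79, nat_lit 2, nat_lit 0⟩, ⟨true, nat_lit 1, nat_lit 73, nat_lit 1, nat_lit 1⟩,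
    ⟨true, nat_lit 4, nat_lit 78, nat_lit 1, nat_lit 2⟩, ⟨false, nat_lit 512, nat_lit 946, nat_lit 2, nat_lit 1⟩, ⟨false, nat_lit 32, nat_lit 626, nat_lit 2, nat_lit 0⟩,
    ⟨true, nat_lit 2, nat_lit 622, nat_lit 2, nat_lit 1⟩, ⟨false, nat_lit 1024, nat_lit 1424, nat_lit 1, nat_lit 2⟩, ⟨false, nat_lit 256, nat_lit 1936, nat_lit 2, nat_lit 0⟩,
    ⟨true, nat_lit 16, nat_lit 1904, nat_lit 2, nat_lit 1⟩, ⟨false, nat_lit 4096, nat_lit 6272, nat_lit 1, nat_lit 1⟩, ⟨false, nat_lit 2048, nat_lit 6272, nat_lit 1, nat_lit 1⟩,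
    ⟨true, nat_lit 128, nat_lit 8064, nat_lit 2, nat_lit 1⟩, ⟨false, nat_lit 32768, nat_lit 57344, nat_lit 1, nat_lit 1⟩, ⟨false, nat_lit 16384, nat_lit 57344, nat_lit 1, nat_lit 1⟩,
    ⟨false, nat_lit 8192, nat_lit 57344, nat_lit 1, nat_lit 1⟩]

def r41_1_3 : List Wr := [
    ⟨false, nat_lit 64, nat_lit 127, nat_lit 2, nat_lit 2⟩, ⟨false, nat_lit 8, nat_lit 79, nat_lit 2, nat_lit 0⟩, ⟨true, nat_lit 1, nat_lit 73, nat_lit 1, nat_lit 1⟩,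
    ⟨true, nat_lit 4, nat_lit 78, nat_lit 1, nat_lit 2⟩, ⟨false, nat_lit 512, nat_lit 946, nat_lit 2, nat_lit 1⟩, ⟨false, nat_lit 32, nat_lit 626, nat_lit 2, nat_lit 0⟩,
    ⟨true, nat_lit 2, nat_lit 622, nat_lit 2, nat_lit 1⟩, ⟨false, nat_lit 32768, nat_lit 64912, nat_lit 3, nat_lit 1⟩, ⟨false, nat_lit 256, nat_lit 33680, nat_lit 2, nat_lit 0⟩,
    ⟨true, nat_lit 16, nat_lit 33648, nat_lit 2, nat_lit 1⟩, ⟨false, nat_lit 4096, nat_lit 40064, nat_lit 1, nat_lit 3⟩, ⟨true, nat_lit 1024, nat_lit 38016, nat_lit 1, nat_lit 2⟩,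
    ⟨false, nat_lit 16384, nat_lit 59520, nat_lit 2, nat_lit 0⟩, ⟨false, nat_lit 2048, nat_lit 55424, nat_lit 1, nat_lit 3⟩, ⟨true, nat_lit 128, nat_lit 57216, nat_lit 3, nat_lit 0⟩,
    ⟨false, nat_lit 8192, nat_lit 57344, nat_lit 1, nat_lit 1⟩]

def r41_1_4 : List Wr := [
    ⟨false, nat_lit 64, nat_lit 127, nat_lit 2, nat_lit 2⟩, ⟨false, nat_lit 8, nat_lit 79, nat_lit 2, nat_lit 0⟩, ⟨true, nat_lit 1, nat_lit 73, nat_lit 1, nat_lit 1⟩,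
    ⟨true, nat_lit 4, nat_lit 78, nat_lit 1, nat_lit 2⟩, ⟨false, nat_lit 512, nat_lit 946, nat_lit 2, nat_lit 1⟩, ⟨false, nat_lit 32, nat_lit 626, nat_lit 2, nat_lit 0⟩,
    ⟨true, nat_lit 2, nat_lit 622, nat_lit 2, nat_lit 1⟩, ⟨false, nat_lit 32768, nat_lit 64912, nat_lit 3, nat_lit 1⟩, ⟨false, nat_lit 256, nat_lit 33680, nat_lit 2, nat_lit 0⟩,
    ⟨true, nat_lit 16, nat_lit 33648, nat_lit 2, nat_lit 1⟩, ⟨false, nat_lit 2048, nat_lit 35968, nat_lit 1, nat_lit 2⟩, ⟨true, nat_lit 1024, nat_lit 35968, nat_lit 1, nat_lit 2⟩,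
    ⟨false, nat_lit 16384, nat_lit 61568, nat_lit 2, nat_lit 0⟩, ⟨false, nat_lit 4096, nat_lit 53376, nat_lit 1, nat_lit 2⟩, ⟨true, nat_lit 128, nat_lit 57216, nat_lit 3, nat_lit 0⟩,
    ⟨false, nat_lit 8192, nat_lit 57344, nat_lit 1, nat_lit 1⟩]

def r41_1_5 : List Wr := [
    ⟨false, nat_lit 2048, nat_lit 4095, nat_lit 3, nat_lit 4⟩, ⟨false, nat_lit 8, nat_lit 2063, nat_lit 2, nat_lit 0⟩, ⟨true, nat_lit 1, nat_lit 2057, nat_lit 1, nat_lit 1⟩,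
    ⟨false, nat_lit 512, nat_lit 3062, nat_lit 3, nat_lit 1⟩, ⟨false, nat_lit 64, nat_lit 2678, nat_lit 2, nat_lit 2⟩, ⟨true, nat_lit 4, nat_lit 2638, nat_lit 2, nat_lit 1⟩,
    ⟨true, nat_lit 32, nat_lit 2674, nat_lit 2, nat_lit 1⟩, ⟨false, nat_lit 1024, nat_lit 3474, nat_lit 2, nat_lit 1⟩, ⟨false, nat_lit 256, nat_lit 3986, nat_lit 2, nat_lit 2⟩,
    ⟨true, nat_lit 2, nat_lit 3950, nat_lit 3, nat_lit 1⟩, ⟨true, nat_lit 128, nat_lit 3984, nat_lit 2, nat_lit 1⟩, ⟨false, nat_lit 32768, nat_lit 61456, nat_lit 2, nat_lit 0⟩,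
    ⟨false, nat_lit 4096, nat_lit 36880, nat_lit 1, nat_lit 1⟩, ⟨true, nat_lit 16, nat_lit 40944, nat_lit 3, nat_lit 2⟩, ⟨false, nat_lit 16384, nat_lit 57344, nat_lit 1, nat_lit 1⟩,
    ⟨false, nat_lit 8192, nat_lit 57344, nat_lit 1, nat_lit 1⟩]

def l41_1 : List (Nat × List Wr × Nat) := [
  (nat_lit 6, r41_1_0, nat_lit 0), (nat_lit 6, r41_1_1, nat_lit 0), (nat_lit 6, r41_1_2, nat_lit 0),
  (nat_lit 6, r41_1_3, nat_lit 0), (nat_lit 4, r41_1_4, nat_lit 0), (nat_lit 6, r41_1_5, nat_lit 0)]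

end Pool.Agent.EC4.Run
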