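import Pool.Agent.Lib.MP_ec4eff_co.R5.Dec
import Pool.Agent.Lib.MP_ec4eff_co.R5.Run.D18

/-! Generated file (project R5): the first lune -/

namespace Pool.Agent.EC4.Run

theorem a41 : runA (l41_0 ++ l41_1) [1, 0, 0, 0, 1, 1, 1, 0] = false := by decide +kernel

theorem a3 : runA ([]) [0, 0, 1, 1, 2, 0, 0] = false := by decide +kernel

theorem a4 : runA ([]) [0, 0, 1, 2, 1, 0, 0] = false := by decide +kernel

theorem a104 : runA ([]) [2, 0, 0, 1, 1, 0, 0] = false := by decide +kernel

theorem a45 : runA ([]) [1, 0, 0, 1, 0, 0, 2] = false := by decide +kernel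

theorem a96 : runA ([]) [1, 2, 0, 0, 1, 0, 0] = false := by decide +kernel

theorem a113 : runA ([]) [2, 1, 1, 0, 0, 0, 0] = false := by decide +kernel

theorem a40 : runA ([]) [1, 0, 0, 0, 1, 0, 2] = false := by decide +kernel

theorem a34 : runA ([]) [0, 2, 1, 1, 0, 0, 0] = false := by decide +kernel

theorem a56 : runA ([]) [1, 0, 1, 0, 0, 0, 2] = false := by decide +kernel

end Pool.Agent.EC4.Run
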