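import Pool.Agent.Lib.MP_ec4eff_co.R5.Srch

/-! Generated file (project R5): results of the first lune -/

namespace Pool.Agent.EC4.Run

def r64_0_0 : List Wr := [
    ⟨true, nat_lit 8, nat_lit 15, nat_lit 1, nat_lit 2⟩, ⟨false, nat_lit 256, nat_lit 503, nat_lit 3, nat_lit 0⟩, ⟨false, nat_lit 4, nat_lit 271, nat_lit 2, nat_lit 0⟩,
    ⟨true, nat_lit 1, nat_lit 269, nat_lit 1, nat_lit 2⟩, ⟨true, nat_lit 32, nat_lit 306, nat_lit 1, nat_lit 2⟩, ⟨false, nat_lit 16384, nat_lit 32466, nat_lit 3, nat_lit 2⟩,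
    ⟨false, nat_lit 128, nat_lit 16850, nat_lit 2, nat_lit 1⟩, ⟨true, nat_lit 16, nat_lit 16818, nat_lit 2, nat_lit 1⟩, ⟨false, nat_lit 2048, nat_lit 20034, nat_lit 2, nat_lit 1⟩,
    ⟨true, nat_lit 64, nat_lit 18882, nat_lit 2, nat_lit 1⟩, ⟨false, nat_lit 8192, nat_lit 30210, nat_lit 2, nat_lit 1⟩, ⟨false, nat_lit 1024, nat_lit 28162, nat_lit 2, nat_lit 1⟩,
    ⟨true, nat_lit 2, nat_lit 28158, nat_lit 4, nat_lit 1⟩, ⟨false, nat_lit 32768, nat_lit 37376, nat_lit 1, nat_lit 1⟩, ⟨false, nat_lit 4096, nat_lit 61952, nat_lit 2, nat_lit 0⟩,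
    ⟨false, nat_lit 512, nat_lit 65024, nat_lit 2, nat_lit 2⟩]

def r64_0_1 : List Wr := [
    ⟨true, nat_lit 8, nat_lit 15, nat_lit 1, nat_lit 2⟩, ⟨false, nat_lit 256, nat_lit 503, nat_lit 3, nat_lit 0⟩, ⟨false, nat_lit 4, nat_lit 271, nat_lit 2, nat_lit 0⟩,
    ⟨true, nat_lit 1, nat_lit 269, nat_lit 1, nat_lit 2⟩, ⟨false, nat_lit 32, nat_lit 306, nat_lit 1, nat_lit 2⟩, ⟨true, nat_lit 16, nat_lit 306, nat_lit 1, nat_lit 2⟩,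
    ⟨false, nat_lit 2048, nat_lit 3778, nat_lit 2, nat_lit 1⟩, ⟨false, nat_lit 128, nat_lit 2498, nat_lit 2, nat_lit 0⟩, ⟨true, nat_lit 2, nat_lit 2494, nat_lit 3, nat_lit 0⟩,
    ⟨false, nat_lit 16384, nat_lit 30272, nat_lit 2, nat_lit 1⟩, ⟨false, nat_lit 1024, nat_lit 20032, nat_lit 2, nat_lit 0⟩, ⟨true, nat_lit 64, nat_lit 19904, nat_lit 2, nat_lit 1⟩,
    ⟨true, nat_lit 8192, nat_lit 29184, nat_lit 1, nat_lit 2⟩, ⟨false, nat_lit 32768, nat_lit 37376, nat_lit 1, nat_lit 1⟩, ⟨false, nat_lit 4096, nat_lit 61952, nat_lit 2, nat_lit 0⟩,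
    ⟨false, nat_lit 512, nat_lit 65024, nat_lit 2, nat_lit 2⟩]

def r64_0_2 : List Wr := [
    ⟨true, nat_lit 8, nat_lit 15, nat_lit 1, nat_lit 2⟩, ⟨false, nat_lit 256, nat_lit 503, nat_lit 3, nat_lit 0⟩, ⟨false, nat_lit 4, nat_lit 271, nat_lit 2, nat_lit 0⟩,
    ⟨true, nat_lit 1, nat_lit 269, nat_lit 1, nat_lit 2⟩, ⟨false, nat_lit 32, nat_lit 306, nat_lit 1, nat_lit 2⟩, ⟨true, nat_lit 16, nat_lit 306, nat_lit 1, nat_lit 2⟩,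
    ⟨false, nat_lit 2048, nat_lit 3778, nat_lit 2, nat_lit 1⟩, ⟨false, nat_lit 128, nat_lit 2498, nat_lit 2, nat_lit 0⟩, ⟨true, nat_lit 2, nat_lit 2494, nat_lit 3, nat_lit 0⟩,
    ⟨false, nat_lit 16384, nat_lit 30272, nat_lit 2, nat_lit 1⟩, ⟨false, nat_lit 1024, nat_lit 20032, nat_lit 2, nat_lit 0⟩, ⟨true, nat_lit 64, nat_lit 19904, nat_lit 2, nat_lit 1⟩,
    ⟨false, nat_lit 32768, nat_lit 45568, nat_lit 1, nat_lit 2⟩, ⟨false, nat_lit 8192, nat_lit 61952, nat_lit 2, nat_lit 0⟩, ⟨true, nat_lit 512, nat_lit 60928, nat_lit 2, nat_lit 1⟩,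
    ⟨false, nat_lit 4096, nat_lit 61440, nat_lit 1, nat_lit 2⟩]

def r64_0_3 : List Wr := [
    ⟨false, nat_lit 256, nat_lit 511, nat_lit 3, nat_lit 1⟩, ⟨false, nat_lit 8, nat_lit 271, nat_lit 2, nat_lit 0⟩, ⟨true, nat_lit 1, nat_lit 265, nat_lit 1, nat_lit 1⟩,
    ⟨false, nat_lit 32, nat_lit 310, nat_lit 1, nat_lit 3⟩, ⟨true, nat_lit 4, nat_lit 302, nat_lit 1, nat_lit 3⟩, ⟨false, nat_lit 16384, nat_lit 32466, nat_lit 3, nat_lit 2⟩,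
    ⟨false, nat_lit 128, nat_lit 16850, nat_lit 2, nat_lit 1⟩, ⟨true, nat_lit 16, nat_lit 16818, nat_lit 2, nat_lit 1⟩, ⟨false, nat_lit 2048, nat_lit 20034, nat_lit 2, nat_lit 1⟩,
    ⟨true, nat_lit 64, nat_lit 18882, nat_lit 2, nat_lit 1⟩, ⟨false, nat_lit 8192, nat_lit 30210, nat_lit 2, nat_lit 1⟩, ⟨false, nat_lit 1024, nat_lit 28162, nat_lit 2, nat_lit 1⟩,
    ⟨true, nat_lit 2, nat_lit 28158, nat_lit 4, nat_lit 1⟩, ⟨false, nat_lit 32768, nat_lit 37376, nat_lit 1, nat_lit 1⟩, ⟨false, nat_lit 4096, nat_lit 61952, nat_lit 2, nat_lit 0⟩,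
    ⟨false, nat_lit 512, nat_lit 65024, nat_lit 2, nat_lit 2⟩]

def r64_0_4 : List Wr := [
    ⟨false, nat_lit 256, nat_lit 511, nat_lit 3, nat_lit 1⟩, ⟨false, nat_lit 8, nat_lit 271, nat_lit 2, nat_lit 0⟩, ⟨true, nat_lit 1, nat_lit 265, nat_lit 1, nat_lit 1⟩,
    ⟨true, nat_lit 32, nat_lit 310, nat_lit 1, nat_lit 3⟩, ⟨false, nat_lit 128, nat_lit 470, nat_lit 2, nat_lit 1⟩, ⟨false, nat_lit 16, nat_lit 438, nat_lit 2, nat_lit 1⟩,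
    ⟨true, nat_lit 4, nat_lit 446, nat_lit 2, nat_lit 2⟩, ⟨false, nat_lit 16384, nat_lit 32322, nat_lit 2, nat_lit 3⟩, ⟨false, nat_lit 2048, nat_lit 20034, nat_lit 2, nat_lit 1⟩,
    ⟨true, nat_lit 64, nat_lit 18882, nat_lit 2, nat_lit 1⟩, ⟨false, nat_lit 8192, nat_lit 30210, nat_lit 2, nat_lit 1⟩, ⟨false, nat_lit 1024, nat_lit 28162, nat_lit 2, nat_lit 1⟩,
    ⟨true, nat_lit 2, nat_lit 28158, nat_lit 4, nat_lit 1⟩, ⟨false, nat_lit 32768, nat_lit 37376, nat_lit 1, nat_lit 1⟩, ⟨false, nat_lit 4096, nat_lit 61952, nat_lit 2, nat_lit 0⟩,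
    ⟨false, nat_lit 512, nat_lit 65024, nat_lit 2, nat_lit 2⟩]

def r64_0_5 : List Wr := [
    ⟨false, nat_lit 256, nat_lit 511, nat_lit 3, nat_lit 1⟩, ⟨false, nat_lit 8, nat_lit 271, nat_lit 2, nat_lit 0⟩, ⟨true, nat_lit 1, nat_lit 265, nat_lit 1, nat_lit 1⟩,
    ⟨true, nat_lit 32, nat_lit 310, nat_lit 1, nat_lit 3⟩, ⟨false, nat_lit 128, nat_lit 470, nat_lit 2, nat_lit 1⟩, ⟨false, nat_lit 16, nat_lit 438, nat_lit 2, nat_lit 1⟩,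
    ⟨true, nat_lit 4, nat_lit 446, nat_lit 2, nat_lit 2⟩, ⟨false, nat_lit 2048, nat_lit 3650, nat_lit 2, nat_lit 0⟩, ⟨false, nat_lit 64, nat_lit 2498, nat_lit 2, nat_lit 0⟩,
    ⟨true, nat_lit 2, nat_lit 2558, nat_lit 3, nat_lit 1⟩, ⟨true, nat_lit 1024, nat_lit 3584, nat_lit 1, nat_lit 1⟩, ⟨false, nat_lit 16384, nat_lit 29184, nat_lit 1, nat_lit 2⟩,
    ⟨true, nat_lit 8192, nat_lit 29184, nat_lit 1, nat_lit 2⟩, ⟨false, nat_lit 32768, nat_lit 37376, nat_lit 1, nat_lit 1⟩, ⟨false, nat_lit 4096, nat_lit 61952, nat_lit 2, nat_lit 0⟩,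
    ⟨false, nat_lit 512, nat_lit 65024, nat_lit 2, nat_lit 2⟩]

def l64_0 : List (Nat × List Wr × Nat) := [
  (nat_lit 4, r64_0_0, nat_lit 0), (nat_lit 4, r64_0_1, nat_lit 0), (nat_lit 4, r64_0_2, nat_lit 0),
  (nat_lit 6, r64_0_3, nat_lit 0), (nat_lit 6, r64_0_4, nat_lit 0), (nat_lit 6, r64_0_5, nat_lit 0)]

def r64_1_0 : List Wr := [
    ⟨false, nat_lit 256, nat_lit 511, nat_lit 3, nat_lit 1⟩, ⟨false, nat_lit 8, nat_lit 271, nat_lit 2, nat_lit 0⟩, ⟨true, nat_lit 1, nat_lit 265, nat_lit 1, nat_lit 1⟩,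
    ⟨true, nat_lit 32, nat_lit 310, nat_lit 1, nat_lit 3⟩, ⟨false, nat_lit 128, nat_lit 470, nat_lit 2, nat_lit 1⟩, ⟨false, nat_lit 16, nat_lit 438, nat_lit 2, nat_lit 1⟩,
    ⟨true, nat_lit 4, nat_lit 446, nat_lit 2, nat_lit 2⟩, ⟨false, nat_lit 2048, nat_lit 3650, nat_lit 2, nat_lit 0⟩, ⟨false, nat_lit 64, nat_lit 2498, nat_lit 2, nat_lit 0⟩,
    ⟨true, nat_lit 2, nat_lit 2558, nat_lit 3, nat_lit 1⟩, ⟨true, nat_lit 1024, nat_lit 3584, nat_lit 1, nat_lit 1⟩, ⟨true, nat_lit 16384, nat_lit 29184, nat_lit 1, nat_lit 2⟩,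
    ⟨false, nat_lit 32768, nat_lit 45568, nat_lit 1, nat_lit 2⟩, ⟨false, nat_lit 8192, nat_lit 61952, nat_lit 2, nat_lit 0⟩, ⟨true, nat_lit 512, nat_lit 60928, nat_lit 2, nat_lit 1⟩,
    ⟨false, nat_lit 4096, nat_lit 61440, nat_lit 1, nat_lit 2⟩]

def r64_1_1 : List Wr := [
    ⟨false, nat_lit 256, nat_lit 511, nat_lit 3, nat_lit 1⟩, ⟨false, nat_lit 8, nat_lit 271, nat_lit 2, nat_lit 0⟩, ⟨true, nat_lit 1, nat_lit 265, nat_lit 1, nat_lit 1⟩,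
    ⟨true, nat_lit 32, nat_lit 310, nat_lit 1, nat_lit 3⟩, ⟨false, nat_lit 128, nat_lit 470, nat_lit 2, nat_lit 1⟩, ⟨false, nat_lit 16, nat_lit 438, nat_lit 2, nat_lit 1⟩,
    ⟨true, nat_lit 4, nat_lit 446, nat_lit 2, nat_lit 2⟩, ⟨false, nat_lit 2048, nat_lit 3650, nat_lit 2, nat_lit 0⟩, ⟨false, nat_lit 64, nat_lit 2498, nat_lit 2, nat_lit 0⟩,
    ⟨true, nat_lit 2, nat_lit 2558, nat_lit 3, nat_lit 1⟩, ⟨true, nat_lit 1024, nat_lit 3584, nat_lit 1, nat_lit 1⟩, ⟨false, nat_lit 32768, nat_lit 61952, nat_lit 1, nat_lit 3⟩,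
    ⟨false, nat_lit 16384, nat_lit 61952, nat_lit 2, nat_lit 0⟩, ⟨true, nat_lit 512, nat_lit 52736, nat_lit 2, nat_lit 0⟩, ⟨false, nat_lit 8192, nat_lit 61440, nat_lit 1, nat_lit 2⟩,
    ⟨false, nat_lit 4096, nat_lit 61440, nat_lit 1, nat_lit 2⟩]

def r64_1_2 : List Wr := [
    ⟨false, nat_lit 256, nat_lit 511, nat_lit 3, nat_lit 1⟩, ⟨false, nat_lit 8, nat_lit 271, nat_lit 2, nat_lit 0⟩, ⟨true, nat_lit 1, nat_lit 265, nat_lit 1, nat_lit 1⟩,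
    ⟨false, nat_lit 32, nat_lit 310, nat_lit 1, nat_lit 3⟩, ⟨true, nat_lit 4, nat_lit 302, nat_lit 1, nat_lit 3⟩, ⟨true, nat_lit 16, nat_lit 306, nat_lit 1, nat_lit 2⟩,
    ⟨false, nat_lit 2048, nat_lit 3778, nat_lit 2, nat_lit 1⟩, ⟨false, nat_lit 128, nat_lit 2498, nat_lit 2, nat_lit 0⟩, ⟨true, nat_lit 2, nat_lit 2494, nat_lit 3, nat_lit 0⟩,
    ⟨false, nat_lit 16384, nat_lit 30272, nat_lit 2, nat_lit 1⟩, ⟨false, nat_lit 1024, nat_lit 20032, nat_lit 2, nat_lit 0⟩, ⟨true, nat_lit 64, nat_lit 19904, nat_lit 2, nat_lit 1⟩,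
    ⟨true, nat_lit 8192, nat_lit 29184, nat_lit 1, nat_lit 2⟩, ⟨false, nat_lit 32768, nat_lit 37376, nat_lit 1, nat_lit 1⟩, ⟨false, nat_lit 4096, nat_lit 61952, nat_lit 2, nat_lit 0⟩,
    ⟨false, nat_lit 512, nat_lit 65024, nat_lit 2, nat_lit 2⟩]

def r64_1_3 : List Wr := [
    ⟨false, nat_lit 256, nat_lit 511, nat_lit 3, nat_lit 1⟩, ⟨false, nat_lit 8, nat_lit 271, nat_lit 2, nat_lit 0⟩, ⟨true, nat_lit 1, nat_lit 265, nat_lit 1, nat_lit 1⟩,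
    ⟨false, nat_lit 32, nat_lit 310, nat_lit 1, nat_lit 3⟩, ⟨true, nat_lit 4, nat_lit 302, nat_lit 1, nat_lit 3⟩, ⟨true, nat_lit 16, nat_lit 306, nat_lit 1, nat_lit 2⟩,
    ⟨false, nat_lit 2048, nat_lit 3778, nat_lit 2, nat_lit 1⟩, ⟨false, nat_lit 128, nat_lit 2498, nat_lit 2, nat_lit 0⟩, ⟨true, nat_lit 2, nat_lit 2494, nat_lit 3, nat_lit 0⟩,
    ⟨false, nat_lit 16384, nat_lit 30272, nat_lit 2, nat_lit 1⟩, ⟨false, nat_lit 1024, nat_lit 20032, nat_lit 2, nat_lit 0⟩, ⟨true, nat_lit 64, nat_lit 19904, nat_lit 2, nat_lit 1⟩,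
    ⟨false, nat_lit 32768, nat_lit 45568, nat_lit 1, nat_lit 2⟩, ⟨false, nat_lit 8192, nat_lit 61952, nat_lit 2, nat_lit 0⟩, ⟨true, nat_lit 512, nat_lit 60928, nat_lit 2, nat_lit 1⟩,
    ⟨false, nat_lit 4096, nat_lit 61440, nat_lit 1, nat_lit 2⟩]

def r64_1_4 : List Wr := [
    ⟨false, nat_lit 256, nat_lit 511, nat_lit 3, nat_lit 1⟩, ⟨false, nat_lit 8, nat_lit 271, nat_lit 2, nat_lit 0⟩, ⟨true, nat_lit 1, nat_lit 265, nat_lit 1, nat_lit 1⟩,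
    ⟨false, nat_lit 128, nat_lit 502, nat_lit 2, nat_lit 2⟩, ⟨false, nat_lit 32, nat_lit 438, nat_lit 2, nat_lit 1⟩, ⟨true, nat_lit 4, nat_lit 430, nat_lit 2, nat_lit 1⟩,
    ⟨false, nat_lit 16384, nat_lit 32338, nat_lit 3, nat_lit 1⟩, ⟨false, nat_lit 2048, nat_lit 20050, nat_lit 2, nat_lit 2⟩, ⟨true, nat_lit 16, nat_lit 18866, nat_lit 2, nat_lit 2⟩,
    ⟨false, nat_lit 1024, nat_lit 20034, nat_lit 2, nat_lit 1⟩, ⟨true, nat_lit 64, nat_lit 19906, nat_lit 2, nat_lit 2⟩, ⟨false, nat_lit 8192, nat_lit 29186, nat_lit 2, nat_lit 0⟩,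
    ⟨false, nat_lit 512, nat_lit 28162, nat_lit 2, nat_lit 1⟩, ⟨true, nat_lit 2, nat_lit 28670, nat_lit 4, nat_lit 2⟩, ⟨true, nat_lit 4096, nat_lit 28672, nat_lit 1, nat_lit 1⟩,
    ⟨false, nat_lit 32768, nat_lit 32768, nat_lit 0, nat_lit 2⟩]

def r64_1_5 : List Wr := [
    ⟨true, nat_lit 1, nat_lit 1, nat_lit 0, nat_lit 2⟩, ⟨false, nat_lit 16384, nat_lit 32766, nat_lit 4, nat_lit 3⟩, ⟨false, nat_lit 256, nat_lit 16894, nat_lit 3, nat_lit 1⟩,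
    ⟨true, nat_lit 8, nat_lit 16654, nat_lit 2, nat_lit 0⟩, ⟨false, nat_lit 128, nat_lit 16886, nat_lit 2, nat_lit 3⟩, ⟨true, nat_lit 32, nat_lit 16822, nat_lit 2, nat_lit 2⟩,
    ⟨false, nat_lit 2048, nat_lit 20054, nat_lit 3, nat_lit 0⟩, ⟨false, nat_lit 16, nat_lit 18870, nat_lit 2, nat_lit 3⟩, ⟨true, nat_lit 4, nat_lit 18878, nat_lit 3, nat_lit 1⟩,
    ⟨true, nat_lit 64, nat_lit 18882, nat_lit 2, nat_lit 1⟩, ⟨false, nat_lit 8192, nat_lit 30210, nat_lit 2, nat_lit 1⟩, ⟨false, nat_lit 1024, nat_lit 28162, nat_lit 2, nat_lit 1⟩,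
    ⟨true, nat_lit 2, nat_lit 28158, nat_lit 4, nat_lit 1⟩, ⟨false, nat_lit 32768, nat_lit 37376, nat_lit 1, nat_lit 1⟩, ⟨false, nat_lit 4096, nat_lit 61952, nat_lit 2, nat_lit 0⟩,
    ⟨false, nat_lit 512, nat_lit 65024, nat_lit 2, nat_lit 2⟩]

def r64_1_6 : List Wr := [
    ⟨false, nat_lit 256, nat_lit 511, nat_lit 3, nat_lit 1⟩, ⟨false, nat_lit 8, nat_lit 271, nat_lit 2, nat_lit 0⟩, ⟨true, nat_lit 1, nat_lit 265, nat_lit 1, nat_lit 1⟩,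
    ⟨false, nat_lit 16384, nat_lit 32502, nat_lit 3, nat_lit 4⟩, ⟨false, nat_lit 128, nat_lit 16886, nat_lit 2, nat_lit 3⟩, ⟨true, nat_lit 32, nat_lit 16822, nat_lit 2, nat_lit 2⟩,
    ⟨false, nat_lit 2048, nat_lit 20054, nat_lit 3, nat_lit 0⟩, ⟨false, nat_lit 16, nat_lit 18870, nat_lit 2, nat_lit 3⟩, ⟨true, nat_lit 4, nat_lit 18878, nat_lit 3, nat_lit 1⟩,
    ⟨true, nat_lit 64, nat_lit 18882, nat_lit 2, nat_lit 1⟩, ⟨false, nat_lit 8192, nat_lit 30210, nat_lit 2, nat_lit 1⟩, ⟨false, nat_lit 1024, nat_lit 28162, nat_lit 2, nat_lit 1⟩,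
    ⟨true, nat_lit 2, nat_lit 28158, nat_lit 4, nat_lit 1⟩, ⟨false, nat_lit 32768, nat_lit 37376, nat_lit 1, nat_lit 1⟩, ⟨false, nat_lit 4096, nat_lit 61952, nat_lit 2, nat_lit 0⟩,
    ⟨false, nat_lit 512, nat_lit 65024, nat_lit 2, nat_lit 2⟩]

def r64_1_7 : List Wr := [
    ⟨false, nat_lit 256, nat_lit 511, nat_lit 3, nat_lit 1⟩, ⟨false, nat_lit 8, nat_lit 271, nat_lit 2, nat_lit 0⟩, ⟨true, nat_lit 1, nat_lit 265, nat_lit 1, nat_lit 1⟩,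
    ⟨false, nat_lit 128, nat_lit 502, nat_lit 2, nat_lit 2⟩, ⟨false, nat_lit 32, nat_lit 438, nat_lit 2, nat_lit 1⟩, ⟨true, nat_lit 4, nat_lit 430, nat_lit 2, nat_lit 1⟩,
    ⟨true, nat_lit 16, nat_lit 434, nat_lit 1, nat_lit 3⟩, ⟨false, nat_lit 16384, nat_lit 32322, nat_lit 2, nat_lit 3⟩, ⟨false, nat_lit 2048, nat_lit 20034, nat_lit 2, nat_lit 1⟩,
    ⟨true, nat_lit 64, nat_lit 18882, nat_lit 2, nat_lit 1⟩, ⟨false, nat_lit 8192, nat_lit 30210, nat_lit 2, nat_lit 1⟩, ⟨false, nat_lit 1024, nat_lit 28162, nat_lit 2, nat_lit 1⟩,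
    ⟨true, nat_lit 2, nat_lit 28158, nat_lit 4, nat_lit 1⟩, ⟨false, nat_lit 32768, nat_lit 37376, nat_lit 1, nat_lit 1⟩, ⟨false, nat_lit 4096, nat_lit 61952, nat_lit 2, nat_lit 0⟩,
    ⟨false, nat_lit 512, nat_lit 65024, nat_lit 2, nat_lit 2⟩]

def r64_1_8 : List Wr := [
    ⟨false, nat_lit 256, nat_lit 511, nat_lit 3, nat_lit 1⟩, ⟨false, nat_lit 8, nat_lit 271, nat_lit 2, nat_lit 0⟩, ⟨true, nat_lit 1, nat_lit 265, nat_lit 1, nat_lit 1⟩,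
    ⟨false, nat_lit 128, nat_lit 502, nat_lit 2, nat_lit 2⟩, ⟨false, nat_lit 32, nat_lit 438, nat_lit 2, nat_lit 1⟩, ⟨true, nat_lit 4, nat_lit 430, nat_lit 2, nat_lit 1⟩,
    ⟨true, nat_lit 16, nat_lit 434, nat_lit 1, nat_lit 3⟩, ⟨false, nat_lit 2048, nat_lit 3650, nat_lit 2, nat_lit 0⟩, ⟨false, nat_lit 64, nat_lit 2498, nat_lit 2, nat_lit 0⟩,
    ⟨true, nat_lit 2, nat_lit 2558, nat_lit 3, nat_lit 1⟩, ⟨true, nat_lit 1024, nat_lit 3584, nat_lit 1, nat_lit 1⟩, ⟨false, nat_lit 16384, nat_lit 29184, nat_lit 1, nat_lit 2⟩,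
    ⟨true, nat_lit 8192, nat_lit 29184, nat_lit 1, nat_lit 2⟩, ⟨false, nat_lit 32768, nat_lit 37376, nat_lit 1, nat_lit 1⟩, ⟨false, nat_lit 4096, nat_lit 61952, nat_lit 2, nat_lit 0⟩,
    ⟨false, nat_lit 512, nat_lit 65024, nat_lit 2, nat_lit 2⟩]

def r64_1_9 : List Wr := [
    ⟨false, nat_lit 256, nat_lit 511, nat_lit 3, nat_lit 1⟩, ⟨false, nat_lit 8, nat_lit 271, nat_lit 2, nat_lit 0⟩, ⟨true, nat_lit 1, nat_lit 265, nat_lit 1, nat_lit 1⟩,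
    ⟨false, nat_lit 128, nat_lit 502, nat_lit 2, nat_lit 2⟩, ⟨false, nat_lit 32, nat_lit 438, nat_lit 2, nat_lit 1⟩, ⟨true, nat_lit 4, nat_lit 430, nat_lit 2, nat_lit 1⟩,
    ⟨true, nat_lit 16, nat_lit 434, nat_lit 1, nat_lit 3⟩, ⟨false, nat_lit 2048, nat_lit 3650, nat_lit 2, nat_lit 0⟩, ⟨false, nat_lit 64, nat_lit 2498, nat_lit 2, nat_lit 0⟩,
    ⟨true, nat_lit 2, nat_lit 2558, nat_lit 3, nat_lit 1⟩, ⟨true, nat_lit 1024, nat_lit 3584, nat_lit 1, nat_lit 1⟩, ⟨true, nat_lit 16384, nat_lit 29184, nat_lit 1, nat_lit 2⟩,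
    ⟨false, nat_lit 32768, nat_lit 45568, nat_lit 1, nat_lit 2⟩, ⟨false, nat_lit 8192, nat_lit 61952, nat_lit 2, nat_lit 0⟩, ⟨true, nat_lit 512, nat_lit 60928, nat_lit 2, nat_lit 1⟩,
    ⟨false, nat_lit 4096, nat_lit 61440, nat_lit 1, nat_lit 2⟩]

def r64_1_10 : List Wr := [
    ⟨false, nat_lit 256, nat_lit 511, nat_lit 3, nat_lit 1⟩, ⟨false, nat_lit 8, nat_lit 271, nat_lit 2, nat_lit 0⟩, ⟨true, nat_lit 1, nat_lit 265, nat_lit 1, nat_lit 1⟩,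
    ⟨false, nat_lit 128, nat_lit 502, nat_lit 2, nat_lit 2⟩, ⟨false, nat_lit 32, nat_lit 438, nat_lit 2, nat_lit 1⟩, ⟨true, nat_lit 4, nat_lit 430, nat_lit 2, nat_lit 1⟩,
    ⟨true, nat_lit 16, nat_lit 434, nat_lit 1, nat_lit 3⟩, ⟨false, nat_lit 2048, nat_lit 3650, nat_lit 2, nat_lit 0⟩, ⟨false, nat_lit 64, nat_lit 2498, nat_lit 2, nat_lit 0⟩,
    ⟨true, nat_lit 2, nat_lit 2558, nat_lit 3, nat_lit 1⟩, ⟨true, nat_lit 1024, nat_lit 3584, nat_lit 1, nat_lit 1⟩, ⟨false, nat_lit 32768, nat_lit 61952, nat_lit 1, nat_lit 3⟩,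
    ⟨false, nat_lit 16384, nat_lit 61952, nat_lit 2, nat_lit 0⟩, ⟨true, nat_lit 512, nat_lit 52736, nat_lit 2, nat_lit 0⟩, ⟨false, nat_lit 8192, nat_lit 61440, nat_lit 1, nat_lit 2⟩,
    ⟨false, nat_lit 4096, nat_lit 61440, nat_lit 1, nat_lit 2⟩]

def r64_1_11 : List Wr := [
    ⟨false, nat_lit 256, nat_lit 511, nat_lit 3, nat_lit 1⟩, ⟨false, nat_lit 8, nat_lit 271, nat_lit 2, nat_lit 0⟩, ⟨true, nat_lit 1, nat_lit 265, nat_lit 1, nat_lit 1⟩,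
    ⟨false, nat_lit 16384, nat_lit 32502, nat_lit 4, nat_lit 1⟩, ⟨false, nat_lit 32, nat_lit 16694, nat_lit 2, nat_lit 1⟩, ⟨true, nat_lit 4, nat_lit 16686, nat_lit 2, nat_lit 1⟩,
    ⟨true, nat_lit 2048, nat_lit 20178, nat_lit 2, nat_lit 3⟩, ⟨false, nat_lit 8192, nat_lit 30418, nat_lit 3, nat_lit 1⟩, ⟨false, nat_lit 1024, nat_lit 28370, nat_lit 3, nat_lit 1⟩,
    ⟨true, nat_lit 128, nat_lit 28114, nat_lit 3, nat_lit 1⟩, ⟨false, nat_lit 512, nat_lit 28242, nat_lit 2, nat_lit 3⟩, ⟨false, nat_lit 64, nat_lit 28626, nat_lit 3, nat_lit 2⟩,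
    ⟨true, nat_lit 16, nat_lit 28658, nat_lit 3, nat_lit 3⟩, ⟨false, nat_lit 32768, nat_lit 36866, nat_lit 1, nat_lit 1⟩, ⟨false, nat_lit 4096, nat_lit 61442, nat_lit 2, nat_lit 0⟩,
    ⟨false, nat_lit 2, nat_lit 65534, nat_lit 4, nat_lit 4⟩]

def r64_1_12 : List Wr := [
    ⟨false, nat_lit 256, nat_lit 511, nat_lit 3, nat_lit 1⟩, ⟨false, nat_lit 8, nat_lit 271, nat_lit 2, nat_lit 0⟩, ⟨true, nat_lit 1, nat_lit 265, nat_lit 1, nat_lit 1⟩,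
    ⟨false, nat_lit 16384, nat_lit 32502, nat_lit 4, nat_lit 1⟩, ⟨false, nat_lit 32, nat_lit 16694, nat_lit 2, nat_lit 1⟩, ⟨true, nat_lit 4, nat_lit 16686, nat_lit 2, nat_lit 1⟩,
    ⟨false, nat_lit 2048, nat_lit 20178, nat_lit 2, nat_lit 3⟩, ⟨false, nat_lit 128, nat_lit 18898, nat_lit 2, nat_lit 2⟩, ⟨true, nat_lit 16, nat_lit 18866, nat_lit 2, nat_lit 2⟩,
    ⟨true, nat_lit 1024, nat_lit 20034, nat_lit 2, nat_lit 1⟩, ⟨false, nat_lit 8192, nat_lit 29250, nat_lit 2, nat_lit 1⟩, ⟨false, nat_lit 512, nat_lit 28226, nat_lit 2, nat_lit 2⟩,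
    ⟨true, nat_lit 64, nat_lit 28610, nat_lit 3, nat_lit 1⟩, ⟨false, nat_lit 32768, nat_lit 36866, nat_lit 1, nat_lit 1⟩, ⟨false, nat_lit 4096, nat_lit 61442, nat_lit 2, nat_lit 0⟩,
    ⟨false, nat_lit 2, nat_lit 65534, nat_lit 4, nat_lit 4⟩]

def l64_1 : List (Nat × List Wr × Nat) := [
  (nat_lit 6, r64_1_0, nat_lit 0), (nat_lit 6, r64_1_1, nat_lit 0), (nat_lit 6, r64_1_2, nat_lit 0),
  (nat_lit 6, r64_1_3, nat_lit 0), (nat_lit 6, r64_1_4, nat_lit 0), (nat_lit 6, r64_1_5, nat_lit 0),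
  (nat_lit 6, r64_1_6, nat_lit 0), (nat_lit 6, r64_1_7, nat_lit 0), (nat_lit 6, r64_1_8, nat_lit 0),
  (nat_lit 6, r64_1_9, nat_lit 0), (nat_lit 6, r64_1_10, nat_lit 0), (nat_lit 6, r64_1_11, nat_lit 0),
  (nat_lit 6, r64_1_12, nat_lit 0)]

def r64_2_0 : List Wr := [
    ⟨false, nat_lit 256, nat_lit 511, nat_lit 3, nat_lit 1⟩, ⟨false, nat_lit 8, nat_lit 271, nat_lit 2, nat_lit 0⟩, ⟨true, nat_lit 1, nat_lit 265, nat_lit 1, nat_lit 1⟩,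
    ⟨true, nat_lit 4, nat_lit 270, nat_lit 1, nat_lit 2⟩, ⟨true, nat_lit 32, nat_lit 306, nat_lit 1, nat_lit 2⟩, ⟨false, nat_lit 16384, nat_lit 32466, nat_lit 3, nat_lit 2⟩,
    ⟨false, nat_lit 128, nat_lit 16850, nat_lit 2, nat_lit 1⟩, ⟨true, nat_lit 16, nat_lit 16818, nat_lit 2, nat_lit 1⟩, ⟨false, nat_lit 2048, nat_lit 20034, nat_lit 2, nat_lit 1⟩,
    ⟨true, nat_lit 64, nat_lit 18882, nat_lit 2, nat_lit 1⟩, ⟨false, nat_lit 8192, nat_lit 30210, nat_lit 2, nat_lit 1⟩, ⟨false, nat_lit 1024, nat_lit 28162, nat_lit 2, nat_lit 1⟩,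
    ⟨true, nat_lit 2, nat_lit 28158, nat_lit 4, nat_lit 1⟩, ⟨false, nat_lit 32768, nat_lit 37376, nat_lit 1, nat_lit 1⟩, ⟨false, nat_lit 4096, nat_lit 61952, nat_lit 2, nat_lit 0⟩,
    ⟨false, nat_lit 512, nat_lit 65024, nat_lit 2, nat_lit 2⟩]

def r64_2_1 : List Wr := [
    ⟨false, nat_lit 256, nat_lit 511, nat_lit 3, nat_lit 1⟩, ⟨false, nat_lit 8, nat_lit 271, nat_lit 2, nat_lit 0⟩, ⟨true, nat_lit 1, nat_lit 265, nat_lit 1, nat_lit 1⟩,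
    ⟨false, nat_lit 32, nat_lit 310, nat_lit 1, nat_lit 3⟩, ⟨true, nat_lit 4, nat_lit 302, nat_lit 1, nat_lit 3⟩, ⟨false, nat_lit 16384, nat_lit 32466, nat_lit 3, nat_lit 2⟩,
    ⟨false, nat_lit 128, nat_lit 16850, nat_lit 2, nat_lit 1⟩, ⟨true, nat_lit 16, nat_lit 16818, nat_lit 2, nat_lit 1⟩, ⟨false, nat_lit 2048, nat_lit 20034, nat_lit 2, nat_lit 1⟩,
    ⟨true, nat_lit 64, nat_lit 18882, nat_lit 2, nat_lit 1⟩, ⟨false, nat_lit 8192, nat_lit 30210, nat_lit 2, nat_lit 1⟩, ⟨false, nat_lit 1024, nat_lit 28162, nat_lit 2, nat_lit 1⟩,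
    ⟨true, nat_lit 2, nat_lit 28158, nat_lit 4, nat_lit 1⟩, ⟨false, nat_lit 32768, nat_lit 37376, nat_lit 1, nat_lit 1⟩, ⟨false, nat_lit 4096, nat_lit 61952, nat_lit 2, nat_lit 0⟩,
    ⟨false, nat_lit 512, nat_lit 65024, nat_lit 2, nat_lit 2⟩]

def l64_2 : List (Nat × List Wr × Nat) := [
  (nat_lit 4, r64_2_0, nat_lit 0), (nat_lit 5, r64_2_1, nat_lit 1)]

def r64_3_0 : List Wr := [
    ⟨false, nat_lit 256, nat_lit 511, nat_lit 3, nat_lit 1⟩, ⟨false, nat_lit 8, nat_lit 271, nat_lit 2, nat_lit 0⟩, ⟨true, nat_lit 1, nat_lit 265, nat_lit 1, nat_lit 1⟩,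
    ⟨true, nat_lit 4, nat_lit 270, nat_lit 1, nat_lit 2⟩, ⟨false, nat_lit 32, nat_lit 306, nat_lit 1, nat_lit 2⟩, ⟨true, nat_lit 16, nat_lit 306, nat_lit 1, nat_lit 2⟩,
    ⟨false, nat_lit 2048, nat_lit 3778, nat_lit 2, nat_lit 1⟩, ⟨false, nat_lit 128, nat_lit 2498, nat_lit 2, nat_lit 0⟩, ⟨true, nat_lit 2, nat_lit 2494, nat_lit 3, nat_lit 0⟩,
    ⟨false, nat_lit 16384, nat_lit 30272, nat_lit 2, nat_lit 1⟩, ⟨false, nat_lit 1024, nat_lit 20032, nat_lit 2, nat_lit 0⟩, ⟨true, nat_lit 64, nat_lit 19904, nat_lit 2, nat_lit 1⟩,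
    ⟨true, nat_lit 8192, nat_lit 29184, nat_lit 1, nat_lit 2⟩, ⟨false, nat_lit 32768, nat_lit 37376, nat_lit 1, nat_lit 1⟩, ⟨false, nat_lit 4096, nat_lit 61952, nat_lit 2, nat_lit 0⟩,
    ⟨false, nat_lit 512, nat_lit 65024, nat_lit 2, nat_lit 2⟩]

def r64_3_1 : List Wr := [
    ⟨false, nat_lit 256, nat_lit 511, nat_lit 3, nat_lit 1⟩, ⟨false, nat_lit 8, nat_lit 271, nat_lit 2, nat_lit 0⟩, ⟨true, nat_lit 1, nat_lit 265, nat_lit 1, nat_lit 1⟩,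
    ⟨false, nat_lit 32, nat_lit 310, nat_lit 1, nat_lit 3⟩, ⟨true, nat_lit 4, nat_lit 302, nat_lit 1, nat_lit 3⟩, ⟨true, nat_lit 16, nat_lit 306, nat_lit 1, nat_lit 2⟩,
    ⟨false, nat_lit 2048, nat_lit 3778, nat_lit 2, nat_lit 1⟩, ⟨false, nat_lit 128, nat_lit 2498, nat_lit 2, nat_lit 0⟩, ⟨true, nat_lit 2, nat_lit 2494, nat_lit 3, nat_lit 0⟩,
    ⟨false, nat_lit 16384, nat_lit 30272, nat_lit 2, nat_lit 1⟩, ⟨false, nat_lit 1024, nat_lit 20032, nat_lit 2, nat_lit 0⟩, ⟨true, nat_lit 64, nat_lit 19904, nat_lit 2, nat_lit 1⟩,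
    ⟨true, nat_lit 8192, nat_lit 29184, nat_lit 1, nat_lit 2⟩, ⟨false, nat_lit 32768, nat_lit 37376, nat_lit 1, nat_lit 1⟩, ⟨false, nat_lit 4096, nat_lit 61952, nat_lit 2, nat_lit 0⟩,
    ⟨false, nat_lit 512, nat_lit 65024, nat_lit 2, nat_lit 2⟩]

def l64_3 : List (Nat × List Wr × Nat) := [
  (nat_lit 4, r64_3_0, nat_lit 0), (nat_lit 5, r64_3_1, nat_lit 1)]

def r64_4_0 : List Wr := [
    ⟨false, nat_lit 256, nat_lit 511, nat_lit 3, nat_lit 1⟩, ⟨false, nat_lit 8, nat_lit 271, nat_lit 2, nat_lit 0⟩, ⟨true, nat_lit 1, nat_lit 265, nat_lit 1, nat_lit 1⟩,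
    ⟨true, nat_lit 4, nat_lit 270, nat_lit 1, nat_lit 2⟩, ⟨false, nat_lit 32, nat_lit 306, nat_lit 1, nat_lit 2⟩, ⟨true, nat_lit 16, nat_lit 306, nat_lit 1, nat_lit 2⟩,
    ⟨false, nat_lit 2048, nat_lit 3778, nat_lit 2, nat_lit 1⟩, ⟨false, nat_lit 128, nat_lit 2498, nat_lit 2, nat_lit 0⟩, ⟨true, nat_lit 2, nat_lit 2494, nat_lit 3, nat_lit 0⟩,
    ⟨false, nat_lit 16384, nat_lit 30272, nat_lit 2, nat_lit 1⟩, ⟨false, nat_lit 1024, nat_lit 20032, nat_lit 2, nat_lit 0⟩, ⟨true, nat_lit 64, nat_lit 19904, nat_lit 2, nat_lit 1⟩,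
    ⟨false, nat_lit 32768, nat_lit 45568, nat_lit 1, nat_lit 2⟩, ⟨false, nat_lit 8192, nat_lit 61952, nat_lit 2, nat_lit 0⟩, ⟨true, nat_lit 512, nat_lit 60928, nat_lit 2, nat_lit 1⟩,
    ⟨false, nat_lit 4096, nat_lit 61440, nat_lit 1, nat_lit 2⟩]

def r64_4_1 : List Wr := [
    ⟨false, nat_lit 256, nat_lit 511, nat_lit 3, nat_lit 1⟩, ⟨false, nat_lit 8, nat_lit 271, nat_lit 2, nat_lit 0⟩, ⟨true, nat_lit 1, nat_lit 265, nat_lit 1, nat_lit 1⟩,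
    ⟨false, nat_lit 32, nat_lit 310, nat_lit 1, nat_lit 3⟩, ⟨true, nat_lit 4, nat_lit 302, nat_lit 1, nat_lit 3⟩, ⟨true, nat_lit 16, nat_lit 306, nat_lit 1, nat_lit 2⟩,
    ⟨false, nat_lit 2048, nat_lit 3778, nat_lit 2, nat_lit 1⟩, ⟨false, nat_lit 128, nat_lit 2498, nat_lit 2, nat_lit 0⟩, ⟨true, nat_lit 2, nat_lit 2494, nat_lit 3, nat_lit 0⟩,
    ⟨false, nat_lit 16384, nat_lit 30272, nat_lit 2, nat_lit 1⟩, ⟨false, nat_lit 1024, nat_lit 20032, nat_lit 2, nat_lit 0⟩, ⟨true, nat_lit 64, nat_lit 19904, nat_lit 2, nat_lit 1⟩,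
    ⟨false, nat_lit 32768, nat_lit 45568, nat_lit 1, nat_lit 2⟩, ⟨false, nat_lit 8192, nat_lit 61952, nat_lit 2, nat_lit 0⟩, ⟨true, nat_lit 512, nat_lit 60928, nat_lit 2, nat_lit 1⟩,
    ⟨false, nat_lit 4096, nat_lit 61440, nat_lit 1, nat_lit 2⟩]

def r64_4_2 : List Wr := [
    ⟨true, nat_lit 1, nat_lit 1, nat_lit 0, nat_lit 2⟩, ⟨false, nat_lit 8, nat_lit 14, nat_lit 1, nat_lit 1⟩, ⟨true, nat_lit 4, nat_lit 14, nat_lit 1, nat_lit 1⟩,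
    ⟨false, nat_lit 256, nat_lit 498, nat_lit 2, nat_lit 1⟩, ⟨false, nat_lit 16, nat_lit 274, nat_lit 1, nat_lit 1⟩, ⟨true, nat_lit 2, nat_lit 286, nat_lit 2, nat_lit 0⟩,
    ⟨false, nat_lit 2048, nat_lit 3808, nat_lit 2, nat_lit 1⟩, ⟨false, nat_lit 128, nat_lit 2528, nat_lit 2, nat_lit 0⟩, ⟨true, nat_lit 32, nat_lit 2464, nat_lit 1, nat_lit 2⟩,
    ⟨false, nat_lit 16384, nat_lit 30272, nat_lit 2, nat_lit 1⟩, ⟨false, nat_lit 1024, nat_lit 20032, nat_lit 2, nat_lit 0⟩, ⟨true, nat_lit 64, nat_lit 19904, nat_lit 2, nat_lit 1⟩,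
    ⟨true, nat_lit 8192, nat_lit 29184, nat_lit 1, nat_lit 2⟩, ⟨false, nat_lit 32768, nat_lit 37376, nat_lit 1, nat_lit 1⟩, ⟨false, nat_lit 4096, nat_lit 61952, nat_lit 2, nat_lit 0⟩,
    ⟨false, nat_lit 512, nat_lit 65024, nat_lit 2, nat_lit 2⟩]

def l64_4 : List (Nat × List Wr × Nat) := [
  (nat_lit 4, r64_4_0, nat_lit 0), (nat_lit 5, r64_4_1, nat_lit 1), (nat_lit 6, r64_4_2, nat_lit 0)]

def r64_5_0 : List Wr := [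
    ⟨true, nat_lit 1, nat_lit 1, nat_lit 0, nat_lit 2⟩, ⟨false, nat_lit 8, nat_lit 14, nat_lit 1, nat_lit 1⟩, ⟨true, nat_lit 4, nat_lit 14, nat_lit 1, nat_lit 1⟩,
    ⟨false, nat_lit 256, nat_lit 498, nat_lit 2, nat_lit 1⟩, ⟨false, nat_lit 16, nat_lit 274, nat_lit 1, nat_lit 1⟩, ⟨true, nat_lit 2, nat_lit 286, nat_lit 2, nat_lit 0⟩,
    ⟨false, nat_lit 2048, nat_lit 3808, nat_lit 2, nat_lit 1⟩, ⟨false, nat_lit 128, nat_lit 2528, nat_lit 2, nat_lit 0⟩, ⟨true, nat_lit 32, nat_lit 2464, nat_lit 1, nat_lit 2⟩,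
    ⟨false, nat_lit 16384, nat_lit 30272, nat_lit 2, nat_lit 1⟩, ⟨false, nat_lit 1024, nat_lit 20032, nat_lit 2, nat_lit 0⟩, ⟨true, nat_lit 64, nat_lit 19904, nat_lit 2, nat_lit 1⟩,
    ⟨false, nat_lit 32768, nat_lit 45568, nat_lit 1, nat_lit 2⟩, ⟨false, nat_lit 8192, nat_lit 61952, nat_lit 2, nat_lit 0⟩, ⟨true, nat_lit 512, nat_lit 60928, nat_lit 2, nat_lit 1⟩,
    ⟨false, nat_lit 4096, nat_lit 61440, nat_lit 1, nat_lit 2⟩]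

def l64_5 : List (Nat × List Wr × Nat) := [
  (nat_lit 6, r64_5_0, nat_lit 0)]

end Pool.Agent.EC4.Run
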