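import Pool.Agent.Lib.MP_ec4eff_co.R5.Srch

/-! Generated file (project R5): results of the first lune -/

namespace Pool.Agent.EC4.Run

def r10_0_0 : List Wr := [
    ⟨false, nat_lit 4, nat_lit 7, nat_lit 1, nat_lit 1⟩, ⟨true, nat_lit 2, nat_lit 7, nat_lit 1, nat_lit 1⟩, ⟨false, nat_lit 64, nat_lit 121, nat_lit 2, nat_lit 0⟩,
    ⟨false, nat_lit 8, nat_lit 73, nat_lit 1, nat_lit 1⟩, ⟨true, nat_lit 1, nat_lit 79, nat_lit 2, nat_lit 0⟩, ⟨false, nat_lit 1024, nat_lit 1968, nat_lit 2, nat_lit 1⟩,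
    ⟨false, nat_lit 128, nat_lit 1200, nat_lit 1, nat_lit 2⟩, ⟨true, nat_lit 32, nat_lit 1264, nat_lit 2, nat_lit 0⟩, ⟨false, nat_lit 4096, nat_lit 6928, nat_lit 1, nat_lit 3⟩,
    ⟨false, nat_lit 512, nat_lit 5904, nat_lit 2, nat_lit 0⟩, ⟨true, nat_lit 16, nat_lit 5872, nat_lit 2, nat_lit 2⟩, ⟨false, nat_lit 32768, nat_lit 59648, nat_lit 2, nat_lit 0⟩,
    ⟨false, nat_lit 2048, nat_lit 39168, nat_lit 1, nat_lit 2⟩, ⟨true, nat_lit 256, nat_lit 40704, nat_lit 2, nat_lit 1⟩, ⟨false, nat_lit 16384, nat_lit 57344, nat_lit 1, nat_lit 1⟩,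
    ⟨false, nat_lit 8192, nat_lit 57344, nat_lit 1, nat_lit 1⟩]

def r10_0_1 : List Wr := [
    ⟨false, nat_lit 4, nat_lit 7, nat_lit 1, nat_lit 1⟩, ⟨true, nat_lit 2, nat_lit 7, nat_lit 1, nat_lit 1⟩, ⟨false, nat_lit 64, nat_lit 121, nat_lit 2, nat_lit 0⟩,
    ⟨false, nat_lit 8, nat_lit 73, nat_lit 1, nat_lit 1⟩, ⟨true, nat_lit 1, nat_lit 79, nat_lit 2, nat_lit 0⟩, ⟨true, nat_lit 32, nat_lit 112, nat_lit 1, nat_lit 1⟩,
    ⟨false, nat_lit 1024, nat_lit 1936, nat_lit 2, nat_lit 0⟩, ⟨false, nat_lit 128, nat_lit 1168, nat_lit 1, nat_lit 1⟩, ⟨true, nat_lit 16, nat_lit 1264, nat_lit 2, nat_lit 0⟩,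
    ⟨false, nat_lit 32768, nat_lit 64256, nat_lit 2, nat_lit 2⟩, ⟨false, nat_lit 4096, nat_lit 39680, nat_lit 1, nat_lit 3⟩, ⟨true, nat_lit 512, nat_lit 38656, nat_lit 2, nat_lit 0⟩,
    ⟨false, nat_lit 16384, nat_lit 59648, nat_lit 2, nat_lit 0⟩, ⟨false, nat_lit 2048, nat_lit 55552, nat_lit 1, nat_lit 3⟩, ⟨true, nat_lit 256, nat_lit 57088, nat_lit 2, nat_lit 2⟩,
    ⟨false, nat_lit 8192, nat_lit 57344, nat_lit 1, nat_lit 1⟩]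

def l10_0 : List (Nat × List Wr × Nat) := [
  (nat_lit 5, r10_0_0, nat_lit 0), (nat_lit 5, r10_0_1, nat_lit 0)]

end Pool.Agent.EC4.Run
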