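import Pool.Agent.Lib.MP_ec4eff_co.R5.Dec
import Pool.Agent.Lib.MP_ec4eff_co.R5.Run.D19
import Pool.Agent.Lib.MP_ec4eff_co.R5.Run.D20

/-! Generated file (project R5): the first lune -/

namespace Pool.Agent.EC4.Run

theorem a64 : runA (l64_0 ++ (l64_1 ++ (l64_2 ++ (l64_3 ++ (l64_4 ++ (l64_5)))))) [1, 0, 1, 1, 0, 0, 0, 1] = false := by decide +kernel

theorem a71 : runA ([]) [1, 0, 2, 0, 1, 0, 0] = false := by decide +kernel

theorem a106 : runA ([]) [2, 0, 1, 0, 0, 1, 0] = false := by decide +kernel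

theorem a52 : runA ([]) [1, 0, 0, 2, 0, 0, 1] = false := by decide +kernel

theorem a98 : runA ([]) [1, 2, 1, 0, 0, 0, 0] = false := by decide +kernel

theorem a59 : runA ([]) [1, 0, 1, 0, 0, 2, 0] = false := by decide +kernel

theorem a70 : runA ([]) [1, 0, 2, 0, 0, 1, 0] = false := by decide +kernel

theorem a10 : runA (l10_0) [0, 1, 0, 1, 0, 2, 0] = false := by decide +kernel

theorem a111 : runA ([]) [2, 1, 0, 0, 1, 0, 0] = false := by decide +kernel

theorem a82 : runA ([]) [1, 1, 0, 0, 2, 0, 0] = false := by decide +kernel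

theorem a93 : runA ([]) [1, 1, 2, 0, 0, 0, 0] = false := by decide +kernel

theorem a38 : runA ([]) [1, 0, 0, 0, 0, 1, 2] = false := by decide +kernel

theorem a35 : runA ([]) [0, 2, 2, 0, 0, 0] = false := by decide +kernel

end Pool.Agent.EC4.Run
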