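import Pool.Agent.Lib.MP_ec4eff_co.R5.Srch

/-! Generated file (project R5): results of the first lune -/

namespace Pool.Agent.EC4.Run

def r86_0_0 : List Wr := [
    ⟨false, nat_lit 512, nat_lit 1023, nat_lit 3, nat_lit 2⟩, ⟨false, nat_lit 16, nat_lit 543, nat_lit 2, nat_lit 1⟩, ⟨true, nat_lit 1, nat_lit 529, nat_lit 1, nat_lit 1⟩,
    ⟨false, nat_lit 64, nat_lit 622, nat_lit 2, nat_lit 1⟩, ⟨false, nat_lit 8, nat_lit 606, nat_lit 2, nat_lit 1⟩, ⟨true, nat_lit 2, nat_lit 602, nat_lit 1, nat_lit 3⟩,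
    ⟨true, nat_lit 32, nat_lit 612, nat_lit 1, nat_lit 2⟩, ⟨false, nat_lit 4096, nat_lit 7556, nat_lit 2, nat_lit 1⟩, ⟨false, nat_lit 256, nat_lit 4996, nat_lit 2, nat_lit 0⟩,
    ⟨true, nat_lit 4, nat_lit 4988, nat_lit 3, nat_lit 0⟩, ⟨true, nat_lit 2048, nat_lit 7296, nat_lit 1, nat_lit 2⟩, ⟨false, nat_lit 32768, nat_lit 58496, nat_lit 2, nat_lit 0⟩,
    ⟨false, nat_lit 1024, nat_lit 40064, nat_lit 2, nat_lit 0⟩, ⟨true, nat_lit 128, nat_lit 40832, nat_lit 2, nat_lit 2⟩, ⟨false, nat_lit 16384, nat_lit 57344, nat_lit 1, nat_lit 1⟩,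
    ⟨false, nat_lit 8192, nat_lit 57344, nat_lit 1, nat_lit 1⟩]

def r86_0_1 : List Wr := [
    ⟨false, nat_lit 512, nat_lit 1023, nat_lit 3, nat_lit 2⟩, ⟨false, nat_lit 16, nat_lit 543, nat_lit 2, nat_lit 1⟩, ⟨true, nat_lit 1, nat_lit 529, nat_lit 1, nat_lit 1⟩,
    ⟨false, nat_lit 64, nat_lit 622, nat_lit 2, nat_lit 1⟩, ⟨false, nat_lit 8, nat_lit 606, nat_lit 2, nat_lit 1⟩, ⟨true, nat_lit 2, nat_lit 602, nat_lit 1, nat_lit 3⟩,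
    ⟨true, nat_lit 32, nat_lit 612, nat_lit 1, nat_lit 2⟩, ⟨false, nat_lit 4096, nat_lit 7556, nat_lit 2, nat_lit 1⟩, ⟨false, nat_lit 256, nat_lit 4996, nat_lit 2, nat_lit 0⟩,
    ⟨true, nat_lit 4, nat_lit 4988, nat_lit 3, nat_lit 0⟩, ⟨false, nat_lit 32768, nat_lit 60544, nat_lit 2, nat_lit 1⟩, ⟨false, nat_lit 2048, nat_lit 40064, nat_lit 2, nat_lit 0⟩,
    ⟨true, nat_lit 128, nat_lit 39808, nat_lit 2, nat_lit 1⟩, ⟨true, nat_lit 1024, nat_lit 39936, nat_lit 1, nat_lit 2⟩, ⟨false, nat_lit 16384, nat_lit 57344, nat_lit 1, nat_lit 1⟩,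
    ⟨false, nat_lit 8192, nat_lit 57344, nat_lit 1, nat_lit 1⟩]

def r86_0_2 : List Wr := [
    ⟨false, nat_lit 16, nat_lit 31, nat_lit 2, nat_lit 0⟩, ⟨false, nat_lit 2, nat_lit 19, nat_lit 1, nat_lit 1⟩, ⟨true, nat_lit 1, nat_lit 19, nat_lit 1, nat_lit 1⟩,
    ⟨false, nat_lit 4096, nat_lit 8172, nat_lit 3, nat_lit 2⟩, ⟨false, nat_lit 32, nat_lit 4140, nat_lit 1, nat_lit 2⟩, ⟨true, nat_lit 8, nat_lit 4156, nat_lit 2, nat_lit 0⟩,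
    ⟨true, nat_lit 512, nat_lit 5060, nat_lit 2, nat_lit 1⟩, ⟨false, nat_lit 32768, nat_lit 60868, nat_lit 3, nat_lit 1⟩, ⟨false, nat_lit 256, nat_lit 37828, nat_lit 2, nat_lit 2⟩,
    ⟨true, nat_lit 64, nat_lit 37700, nat_lit 2, nat_lit 1⟩, ⟨false, nat_lit 2048, nat_lit 40068, nat_lit 2, nat_lit 1⟩, ⟨true, nat_lit 128, nat_lit 39812, nat_lit 2, nat_lit 2⟩,
    ⟨false, nat_lit 16384, nat_lit 58372, nat_lit 2, nat_lit 0⟩, ⟨false, nat_lit 1024, nat_lit 56324, nat_lit 2, nat_lit 1⟩, ⟨true, nat_lit 4, nat_lit 57340, nat_lit 4, nat_lit 2⟩,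
    ⟨false, nat_lit 8192, nat_lit 57344, nat_lit 1, nat_lit 1⟩]

def r86_0_3 : List Wr := [
    ⟨false, nat_lit 16, nat_lit 31, nat_lit 2, nat_lit 0⟩, ⟨false, nat_lit 2, nat_lit 19, nat_lit 1, nat_lit 1⟩, ⟨true, nat_lit 1, nat_lit 19, nat_lit 1, nat_lit 1⟩,
    ⟨false, nat_lit 4096, nat_lit 8172, nat_lit 3, nat_lit 2⟩, ⟨false, nat_lit 32, nat_lit 4140, nat_lit 1, nat_lit 2⟩, ⟨true, nat_lit 8, nat_lit 4156, nat_lit 2, nat_lit 0⟩,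
    ⟨false, nat_lit 512, nat_lit 5060, nat_lit 2, nat_lit 1⟩, ⟨true, nat_lit 64, nat_lit 4676, nat_lit 1, nat_lit 2⟩, ⟨false, nat_lit 2048, nat_lit 7556, nat_lit 2, nat_lit 1⟩,
    ⟨false, nat_lit 256, nat_lit 7044, nat_lit 2, nat_lit 1⟩, ⟨true, nat_lit 4, nat_lit 7036, nat_lit 3, nat_lit 1⟩, ⟨false, nat_lit 32768, nat_lit 58496, nat_lit 2, nat_lit 0⟩,
    ⟨false, nat_lit 1024, nat_lit 40064, nat_lit 2, nat_lit 0⟩, ⟨true, nat_lit 128, nat_lit 40832, nat_lit 2, nat_lit 2⟩, ⟨false, nat_lit 16384, nat_lit 57344, nat_lit 1, nat_lit 1⟩,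
    ⟨false, nat_lit 8192, nat_lit 57344, nat_lit 1, nat_lit 1⟩]

def r86_0_4 : List Wr := [
    ⟨false, nat_lit 512, nat_lit 1023, nat_lit 3, nat_lit 2⟩, ⟨false, nat_lit 16, nat_lit 543, nat_lit 2, nat_lit 1⟩, ⟨true, nat_lit 2, nat_lit 531, nat_lit 1, nat_lit 2⟩,
    ⟨false, nat_lit 64, nat_lit 621, nat_lit 2, nat_lit 1⟩, ⟨false, nat_lit 8, nat_lit 605, nat_lit 2, nat_lit 1⟩, ⟨true, nat_lit 1, nat_lit 603, nat_lit 2, nat_lit 1⟩,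
    ⟨false, nat_lit 32768, nat_lit 64932, nat_lit 3, nat_lit 2⟩, ⟨false, nat_lit 256, nat_lit 33700, nat_lit 2, nat_lit 1⟩, ⟨true, nat_lit 32, nat_lit 33636, nat_lit 2, nat_lit 1⟩,
    ⟨true, nat_lit 4096, nat_lit 40068, nat_lit 2, nat_lit 1⟩, ⟨false, nat_lit 16384, nat_lit 60548, nat_lit 2, nat_lit 2⟩, ⟨false, nat_lit 2048, nat_lit 56452, nat_lit 2, nat_lit 2⟩,
    ⟨true, nat_lit 128, nat_lit 56196, nat_lit 3, nat_lit 0⟩, ⟨false, nat_lit 8192, nat_lit 58372, nat_lit 2, nat_lit 0⟩, ⟨false, nat_lit 1024, nat_lit 64516, nat_lit 2, nat_lit 2⟩,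
    ⟨false, nat_lit 4, nat_lit 65532, nat_lit 4, nat_lit 3⟩]

def r86_0_5 : List Wr := [
    ⟨true, nat_lit 1, nat_lit 1, nat_lit 0, nat_lit 2⟩, ⟨false, nat_lit 512, nat_lit 1022, nat_lit 3, nat_lit 1⟩, ⟨false, nat_lit 16, nat_lit 542, nat_lit 2, nat_lit 0⟩,
    ⟨true, nat_lit 2, nat_lit 530, nat_lit 1, nat_lit 1⟩, ⟨false, nat_lit 256, nat_lit 1004, nat_lit 2, nat_lit 2⟩, ⟨false, nat_lit 64, nat_lit 876, nat_lit 2, nat_lit 1⟩,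
    ⟨true, nat_lit 8, nat_lit 860, nat_lit 2, nat_lit 1⟩, ⟨false, nat_lit 32768, nat_lit 64676, nat_lit 3, nat_lit 1⟩, ⟨false, nat_lit 4096, nat_lit 40100, nat_lit 2, nat_lit 2⟩,
    ⟨true, nat_lit 32, nat_lit 37732, nat_lit 2, nat_lit 2⟩, ⟨false, nat_lit 2048, nat_lit 40068, nat_lit 2, nat_lit 1⟩, ⟨true, nat_lit 128, nat_lit 39812, nat_lit 2, nat_lit 2⟩,
    ⟨false, nat_lit 16384, nat_lit 58372, nat_lit 2, nat_lit 0⟩, ⟨false, nat_lit 1024, nat_lit 56324, nat_lit 2, nat_lit 1⟩, ⟨true, nat_lit 4, nat_lit 57340, nat_lit 4, nat_lit 2⟩,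
    ⟨false, nat_lit 8192, nat_lit 57344, nat_lit 1, nat_lit 1⟩]

def r86_0_6 : List Wr := [
    ⟨false, nat_lit 16, nat_lit 31, nat_lit 2, nat_lit 0⟩, ⟨false, nat_lit 2, nat_lit 19, nat_lit 1, nat_lit 1⟩, ⟨true, nat_lit 1, nat_lit 19, nat_lit 1, nat_lit 1⟩,
    ⟨false, nat_lit 512, nat_lit 1004, nat_lit 2, nat_lit 2⟩, ⟨false, nat_lit 256, nat_lit 1004, nat_lit 2, nat_lit 2⟩, ⟨false, nat_lit 64, nat_lit 876, nat_lit 2, nat_lit 1⟩,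
    ⟨true, nat_lit 8, nat_lit 860, nat_lit 2, nat_lit 1⟩, ⟨false, nat_lit 32768, nat_lit 64676, nat_lit 3, nat_lit 1⟩, ⟨false, nat_lit 4096, nat_lit 40100, nat_lit 2, nat_lit 2⟩,
    ⟨true, nat_lit 32, nat_lit 37732, nat_lit 2, nat_lit 2⟩, ⟨false, nat_lit 2048, nat_lit 40068, nat_lit 2, nat_lit 1⟩, ⟨true, nat_lit 128, nat_lit 39812, nat_lit 2, nat_lit 2⟩,
    ⟨false, nat_lit 16384, nat_lit 58372, nat_lit 2, nat_lit 0⟩, ⟨false, nat_lit 1024, nat_lit 56324, nat_lit 2, nat_lit 1⟩, ⟨true, nat_lit 4, nat_lit 57340, nat_lit 4, nat_lit 2⟩,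
    ⟨false, nat_lit 8192, nat_lit 57344, nat_lit 1, nat_lit 1⟩]

def r86_0_7 : List Wr := [
    ⟨false, nat_lit 16, nat_lit 31, nat_lit 2, nat_lit 0⟩, ⟨false, nat_lit 2, nat_lit 19, nat_lit 1, nat_lit 1⟩, ⟨true, nat_lit 1, nat_lit 19, nat_lit 1, nat_lit 1⟩,
    ⟨false, nat_lit 32768, nat_lit 65516, nat_lit 4, nat_lit 2⟩, ⟨false, nat_lit 512, nat_lit 33772, nat_lit 3, nat_lit 0⟩, ⟨true, nat_lit 8, nat_lit 33308, nat_lit 2, nat_lit 0⟩,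
    ⟨false, nat_lit 4096, nat_lit 40420, nat_lit 2, nat_lit 4⟩, ⟨false, nat_lit 2048, nat_lit 40420, nat_lit 3, nat_lit 1⟩, ⟨false, nat_lit 256, nat_lit 39908, nat_lit 3, nat_lit 1⟩,
    ⟨false, nat_lit 64, nat_lit 39780, nat_lit 2, nat_lit 3⟩, ⟨true, nat_lit 32, nat_lit 39780, nat_lit 2, nat_lit 3⟩, ⟨true, nat_lit 128, nat_lit 39812, nat_lit 2, nat_lit 2⟩,
    ⟨false, nat_lit 16384, nat_lit 58372, nat_lit 2, nat_lit 0⟩, ⟨false, nat_lit 1024, nat_lit 56324, nat_lit 2, nat_lit 1⟩, ⟨true, nat_lit 4, nat_lit 57340, nat_lit 4, nat_lit 2⟩,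
    ⟨false, nat_lit 8192, nat_lit 57344, nat_lit 1, nat_lit 1⟩]

def r86_0_8 : List Wr := [
    ⟨false, nat_lit 16, nat_lit 31, nat_lit 2, nat_lit 0⟩, ⟨false, nat_lit 2, nat_lit 19, nat_lit 1, nat_lit 1⟩, ⟨true, nat_lit 1, nat_lit 19, nat_lit 1, nat_lit 1⟩,
    ⟨true, nat_lit 8, nat_lit 28, nat_lit 1, nat_lit 1⟩, ⟨false, nat_lit 512, nat_lit 996, nat_lit 2, nat_lit 1⟩, ⟨true, nat_lit 64, nat_lit 612, nat_lit 1, nat_lit 2⟩,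
    ⟨false, nat_lit 32768, nat_lit 64932, nat_lit 3, nat_lit 2⟩, ⟨false, nat_lit 256, nat_lit 33700, nat_lit 2, nat_lit 1⟩, ⟨true, nat_lit 32, nat_lit 33636, nat_lit 2, nat_lit 1⟩,
    ⟨true, nat_lit 4096, nat_lit 40068, nat_lit 2, nat_lit 1⟩, ⟨false, nat_lit 16384, nat_lit 60548, nat_lit 2, nat_lit 2⟩, ⟨false, nat_lit 2048, nat_lit 56452, nat_lit 2, nat_lit 2⟩,
    ⟨true, nat_lit 128, nat_lit 56196, nat_lit 3, nat_lit 0⟩, ⟨false, nat_lit 8192, nat_lit 58372, nat_lit 2, nat_lit 0⟩, ⟨false, nat_lit 1024, nat_lit 64516, nat_lit 2, nat_lit 2⟩,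
    ⟨false, nat_lit 4, nat_lit 65532, nat_lit 4, nat_lit 3⟩]

def r86_0_9 : List Wr := [
    ⟨false, nat_lit 16, nat_lit 31, nat_lit 2, nat_lit 0⟩, ⟨false, nat_lit 2, nat_lit 19, nat_lit 1, nat_lit 1⟩, ⟨true, nat_lit 1, nat_lit 19, nat_lit 1, nat_lit 1⟩,
    ⟨false, nat_lit 4096, nat_lit 8172, nat_lit 3, nat_lit 2⟩, ⟨false, nat_lit 64, nat_lit 4204, nat_lit 1, nat_lit 3⟩, ⟨true, nat_lit 8, nat_lit 4188, nat_lit 2, nat_lit 0⟩,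
    ⟨true, nat_lit 512, nat_lit 5028, nat_lit 2, nat_lit 1⟩, ⟨false, nat_lit 32768, nat_lit 60836, nat_lit 3, nat_lit 1⟩, ⟨false, nat_lit 256, nat_lit 37796, nat_lit 2, nat_lit 2⟩,
    ⟨true, nat_lit 32, nat_lit 37732, nat_lit 2, nat_lit 2⟩, ⟨false, nat_lit 2048, nat_lit 40068, nat_lit 2, nat_lit 1⟩, ⟨true, nat_lit 128, nat_lit 39812, nat_lit 2, nat_lit 2⟩,
    ⟨false, nat_lit 16384, nat_lit 58372, nat_lit 2, nat_lit 0⟩, ⟨false, nat_lit 1024, nat_lit 56324, nat_lit 2, nat_lit 1⟩, ⟨true, nat_lit 4, nat_lit 57340, nat_lit 4, nat_lit 2⟩,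
    ⟨false, nat_lit 8192, nat_lit 57344, nat_lit 1, nat_lit 1⟩]

def l86_0 : List (Nat × List Wr × Nat) := [
  (nat_lit 6, r86_0_0, nat_lit 0), (nat_lit 6, r86_0_1, nat_lit 0), (nat_lit 4, r86_0_2, nat_lit 0),
  (nat_lit 4, r86_0_3, nat_lit 0), (nat_lit 6, r86_0_4, nat_lit 0), (nat_lit 6, r86_0_5, nat_lit 0),
  (nat_lit 6, r86_0_6, nat_lit 0), (nat_lit 6, r86_0_7, nat_lit 0), (nat_lit 6, r86_0_8, nat_lit 0),
  (nat_lit 6, r86_0_9, nat_lit 0)]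

def r86_1_0 : List Wr := [
    ⟨false, nat_lit 16, nat_lit 31, nat_lit 2, nat_lit 0⟩, ⟨false, nat_lit 2, nat_lit 19, nat_lit 1, nat_lit 1⟩, ⟨true, nat_lit 1, nat_lit 19, nat_lit 1, nat_lit 1⟩,
    ⟨false, nat_lit 4096, nat_lit 8172, nat_lit 3, nat_lit 2⟩, ⟨false, nat_lit 64, nat_lit 4204, nat_lit 1, nat_lit 3⟩, ⟨true, nat_lit 8, nat_lit 4188, nat_lit 2, nat_lit 0⟩,
    ⟨false, nat_lit 512, nat_lit 5028, nat_lit 2, nat_lit 1⟩, ⟨true, nat_lit 32, nat_lit 4708, nat_lit 1, nat_lit 3⟩, ⟨false, nat_lit 2048, nat_lit 7556, nat_lit 2, nat_lit 1⟩,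
    ⟨false, nat_lit 256, nat_lit 7044, nat_lit 2, nat_lit 1⟩, ⟨true, nat_lit 4, nat_lit 7036, nat_lit 3, nat_lit 1⟩, ⟨false, nat_lit 32768, nat_lit 58496, nat_lit 2, nat_lit 0⟩,
    ⟨false, nat_lit 1024, nat_lit 40064, nat_lit 2, nat_lit 0⟩, ⟨true, nat_lit 128, nat_lit 40832, nat_lit 2, nat_lit 2⟩, ⟨false, nat_lit 16384, nat_lit 57344, nat_lit 1, nat_lit 1⟩,
    ⟨false, nat_lit 8192, nat_lit 57344, nat_lit 1, nat_lit 1⟩]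

def r86_1_1 : List Wr := [
    ⟨false, nat_lit 16, nat_lit 31, nat_lit 2, nat_lit 0⟩, ⟨false, nat_lit 2, nat_lit 19, nat_lit 1, nat_lit 1⟩, ⟨true, nat_lit 1, nat_lit 19, nat_lit 1, nat_lit 1⟩,
    ⟨true, nat_lit 8, nat_lit 28, nat_lit 1, nat_lit 1⟩, ⟨false, nat_lit 512, nat_lit 996, nat_lit 2, nat_lit 1⟩, ⟨false, nat_lit 64, nat_lit 612, nat_lit 1, nat_lit 2⟩,
    ⟨true, nat_lit 4, nat_lit 604, nat_lit 2, nat_lit 0⟩, ⟨false, nat_lit 4096, nat_lit 7584, nat_lit 2, nat_lit 1⟩, ⟨false, nat_lit 256, nat_lit 5024, nat_lit 2, nat_lit 0⟩,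
    ⟨true, nat_lit 32, nat_lit 4960, nat_lit 1, nat_lit 3⟩, ⟨true, nat_lit 2048, nat_lit 7296, nat_lit 1, nat_lit 2⟩, ⟨false, nat_lit 32768, nat_lit 58496, nat_lit 2, nat_lit 0⟩,
    ⟨false, nat_lit 1024, nat_lit 40064, nat_lit 2, nat_lit 0⟩, ⟨true, nat_lit 128, nat_lit 40832, nat_lit 2, nat_lit 2⟩, ⟨false, nat_lit 16384, nat_lit 57344, nat_lit 1, nat_lit 1⟩,
    ⟨false, nat_lit 8192, nat_lit 57344, nat_lit 1, nat_lit 1⟩]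

def r86_1_2 : List Wr := [
    ⟨false, nat_lit 16, nat_lit 31, nat_lit 2, nat_lit 0⟩, ⟨false, nat_lit 2, nat_lit 19, nat_lit 1, nat_lit 1⟩, ⟨true, nat_lit 1, nat_lit 19, nat_lit 1, nat_lit 1⟩,
    ⟨true, nat_lit 8, nat_lit 28, nat_lit 1, nat_lit 1⟩, ⟨false, nat_lit 512, nat_lit 996, nat_lit 2, nat_lit 1⟩, ⟨false, nat_lit 64, nat_lit 612, nat_lit 1, nat_lit 2⟩,
    ⟨true, nat_lit 4, nat_lit 604, nat_lit 2, nat_lit 0⟩, ⟨false, nat_lit 4096, nat_lit 7584, nat_lit 2, nat_lit 1⟩, ⟨false, nat_lit 256, nat_lit 5024, nat_lit 2, nat_lit 0⟩,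
    ⟨true, nat_lit 32, nat_lit 4960, nat_lit 1, nat_lit 3⟩, ⟨false, nat_lit 32768, nat_lit 60544, nat_lit 2, nat_lit 1⟩, ⟨false, nat_lit 2048, nat_lit 40064, nat_lit 2, nat_lit 0⟩,
    ⟨true, nat_lit 128, nat_lit 39808, nat_lit 2, nat_lit 1⟩, ⟨true, nat_lit 1024, nat_lit 39936, nat_lit 1, nat_lit 2⟩, ⟨false, nat_lit 16384, nat_lit 57344, nat_lit 1, nat_lit 1⟩,
    ⟨false, nat_lit 8192, nat_lit 57344, nat_lit 1, nat_lit 1⟩]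

def r86_1_3 : List Wr := [
    ⟨false, nat_lit 16, nat_lit 31, nat_lit 2, nat_lit 0⟩, ⟨false, nat_lit 2, nat_lit 19, nat_lit 1, nat_lit 1⟩, ⟨true, nat_lit 1, nat_lit 19, nat_lit 1, nat_lit 1⟩,
    ⟨true, nat_lit 8, nat_lit 28, nat_lit 1, nat_lit 1⟩, ⟨false, nat_lit 4096, nat_lit 8164, nat_lit 3, nat_lit 1⟩, ⟨false, nat_lit 512, nat_lit 5092, nat_lit 2, nat_lit 2⟩,
    ⟨true, nat_lit 4, nat_lit 4636, nat_lit 2, nat_lit 0⟩, ⟨true, nat_lit 256, nat_lit 5088, nat_lit 2, nat_lit 1⟩, ⟨false, nat_lit 2048, nat_lit 7392, nat_lit 2, nat_lit 1⟩,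
    ⟨false, nat_lit 128, nat_lit 7136, nat_lit 2, nat_lit 2⟩, ⟨true, nat_lit 64, nat_lit 7136, nat_lit 2, nat_lit 2⟩, ⟨false, nat_lit 32768, nat_lit 58400, nat_lit 2, nat_lit 0⟩,
    ⟨false, nat_lit 1024, nat_lit 39968, nat_lit 2, nat_lit 0⟩, ⟨true, nat_lit 32, nat_lit 40928, nat_lit 2, nat_lit 4⟩, ⟨false, nat_lit 16384, nat_lit 57344, nat_lit 1, nat_lit 1⟩,
    ⟨false, nat_lit 8192, nat_lit 57344, nat_lit 1, nat_lit 1⟩]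

def r86_1_4 : List Wr := [
    ⟨false, nat_lit 16, nat_lit 31, nat_lit 2, nat_lit 0⟩, ⟨false, nat_lit 2, nat_lit 19, nat_lit 1, nat_lit 1⟩, ⟨true, nat_lit 1, nat_lit 19, nat_lit 1, nat_lit 1⟩,
    ⟨true, nat_lit 8, nat_lit 28, nat_lit 1, nat_lit 1⟩, ⟨false, nat_lit 512, nat_lit 996, nat_lit 2, nat_lit 1⟩, ⟨false, nat_lit 32, nat_lit 548, nat_lit 1, nat_lit 1⟩,
    ⟨true, nat_lit 4, nat_lit 572, nat_lit 2, nat_lit 0⟩, ⟨false, nat_lit 32768, nat_lit 64960, nat_lit 3, nat_lit 1⟩, ⟨false, nat_lit 4096, nat_lit 40384, nat_lit 2, nat_lit 2⟩,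
    ⟨true, nat_lit 256, nat_lit 37824, nat_lit 2, nat_lit 1⟩, ⟨false, nat_lit 2048, nat_lit 40128, nat_lit 2, nat_lit 1⟩, ⟨true, nat_lit 128, nat_lit 39872, nat_lit 2, nat_lit 2⟩,
    ⟨false, nat_lit 16384, nat_lit 58432, nat_lit 2, nat_lit 0⟩, ⟨false, nat_lit 1024, nat_lit 56384, nat_lit 2, nat_lit 1⟩, ⟨true, nat_lit 64, nat_lit 57280, nat_lit 2, nat_lit 4⟩,
    ⟨false, nat_lit 8192, nat_lit 57344, nat_lit 1, nat_lit 1⟩]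

def l86_1 : List (Nat × List Wr × Nat) := [
  (nat_lit 6, r86_1_0, nat_lit 0), (nat_lit 6, r86_1_1, nat_lit 0), (nat_lit 6, r86_1_2, nat_lit 0),
  (nat_lit 6, r86_1_3, nat_lit 0), (nat_lit 6, r86_1_4, nat_lit 0)]

def r86_2_0 : List Wr := [
    ⟨false, nat_lit 16, nat_lit 31, nat_lit 2, nat_lit 0⟩, ⟨false, nat_lit 2, nat_lit 19, nat_lit 1, nat_lit 1⟩, ⟨true, nat_lit 1, nat_lit 19, nat_lit 1, nat_lit 1⟩,
    ⟨true, nat_lit 8, nat_lit 28, nat_lit 1, nat_lit 1⟩, ⟨false, nat_lit 512, nat_lit 996, nat_lit 2, nat_lit 1⟩, ⟨false, nat_lit 32, nat_lit 548, nat_lit 1, nat_lit 1⟩,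
    ⟨true, nat_lit 4, nat_lit 572, nat_lit 2, nat_lit 0⟩, ⟨false, nat_lit 4096, nat_lit 7616, nat_lit 2, nat_lit 1⟩, ⟨false, nat_lit 256, nat_lit 5056, nat_lit 2, nat_lit 0⟩,
    ⟨true, nat_lit 64, nat_lit 4928, nat_lit 1, nat_lit 2⟩, ⟨true, nat_lit 2048, nat_lit 7296, nat_lit 1, nat_lit 2⟩, ⟨false, nat_lit 32768, nat_lit 58496, nat_lit 2, nat_lit 0⟩,
    ⟨false, nat_lit 1024, nat_lit 40064, nat_lit 2, nat_lit 0⟩, ⟨true, nat_lit 128, nat_lit 40832, nat_lit 2, nat_lit 2⟩, ⟨false, nat_lit 16384, nat_lit 57344, nat_lit 1, nat_lit 1⟩,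
    ⟨false, nat_lit 8192, nat_lit 57344, nat_lit 1, nat_lit 1⟩]

def l86_2 : List (Nat × List Wr × Nat) := [
  (nat_lit 4, r86_2_0, nat_lit 0)]

def r86_3_0 : List Wr := [
    ⟨false, nat_lit 16, nat_lit 31, nat_lit 2, nat_lit 0⟩, ⟨false, nat_lit 2, nat_lit 19, nat_lit 1, nat_lit 1⟩, ⟨true, nat_lit 1, nat_lit 19, nat_lit 1, nat_lit 1⟩,
    ⟨true, nat_lit 8, nat_lit 28, nat_lit 1, nat_lit 1⟩, ⟨false, nat_lit 512, nat_lit 996, nat_lit 2, nat_lit 1⟩, ⟨false, nat_lit 32, nat_lit 548, nat_lit 1, nat_lit 1⟩,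
    ⟨true, nat_lit 4, nat_lit 572, nat_lit 2, nat_lit 0⟩, ⟨false, nat_lit 4096, nat_lit 7616, nat_lit 2, nat_lit 1⟩, ⟨false, nat_lit 256, nat_lit 5056, nat_lit 2, nat_lit 0⟩,
    ⟨true, nat_lit 64, nat_lit 4928, nat_lit 1, nat_lit 2⟩, ⟨false, nat_lit 32768, nat_lit 60544, nat_lit 2, nat_lit 1⟩, ⟨false, nat_lit 2048, nat_lit 40064, nat_lit 2, nat_lit 0⟩,
    ⟨true, nat_lit 128, nat_lit 39808, nat_lit 2, nat_lit 1⟩, ⟨true, nat_lit 1024, nat_lit 39936, nat_lit 1, nat_lit 2⟩, ⟨false, nat_lit 16384, nat_lit 57344, nat_lit 1, nat_lit 1⟩,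
    ⟨false, nat_lit 8192, nat_lit 57344, nat_lit 1, nat_lit 1⟩]

def l86_3 : List (Nat × List Wr × Nat) := [
  (nat_lit 4, r86_3_0, nat_lit 0)]

def r86_4_0 : List Wr := [
    ⟨false, nat_lit 16, nat_lit 31, nat_lit 2, nat_lit 0⟩, ⟨false, nat_lit 2, nat_lit 19, nat_lit 1, nat_lit 1⟩, ⟨true, nat_lit 1, nat_lit 19, nat_lit 1, nat_lit 1⟩,
    ⟨true, nat_lit 8, nat_lit 28, nat_lit 1, nat_lit 1⟩, ⟨false, nat_lit 512, nat_lit 996, nat_lit 2, nat_lit 1⟩, ⟨false, nat_lit 32, nat_lit 548, nat_lit 1, nat_lit 1⟩,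
    ⟨true, nat_lit 4, nat_lit 572, nat_lit 2, nat_lit 0⟩, ⟨false, nat_lit 4096, nat_lit 7616, nat_lit 2, nat_lit 1⟩, ⟨false, nat_lit 256, nat_lit 5056, nat_lit 2, nat_lit 0⟩,
    ⟨true, nat_lit 64, nat_lit 4928, nat_lit 1, nat_lit 2⟩, ⟨false, nat_lit 32768, nat_lit 60544, nat_lit 2, nat_lit 1⟩, ⟨false, nat_lit 2048, nat_lit 40064, nat_lit 2, nat_lit 0⟩,
    ⟨true, nat_lit 128, nat_lit 39808, nat_lit 2, nat_lit 1⟩, ⟨false, nat_lit 16384, nat_lit 58368, nat_lit 1, nat_lit 2⟩, ⟨true, nat_lit 1024, nat_lit 56320, nat_lit 1, nat_lit 3⟩,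
    ⟨false, nat_lit 8192, nat_lit 57344, nat_lit 1, nat_lit 1⟩]

def r86_4_1 : List Wr := [
    ⟨false, nat_lit 16, nat_lit 31, nat_lit 2, nat_lit 0⟩, ⟨false, nat_lit 2, nat_lit 19, nat_lit 1, nat_lit 1⟩, ⟨true, nat_lit 1, nat_lit 19, nat_lit 1, nat_lit 1⟩,
    ⟨true, nat_lit 8, nat_lit 28, nat_lit 1, nat_lit 1⟩, ⟨false, nat_lit 512, nat_lit 996, nat_lit 2, nat_lit 1⟩, ⟨false, nat_lit 32, nat_lit 548, nat_lit 1, nat_lit 1⟩,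
    ⟨true, nat_lit 4, nat_lit 572, nat_lit 2, nat_lit 0⟩, ⟨false, nat_lit 4096, nat_lit 7616, nat_lit 2, nat_lit 1⟩, ⟨false, nat_lit 256, nat_lit 5056, nat_lit 2, nat_lit 0⟩,
    ⟨true, nat_lit 64, nat_lit 4928, nat_lit 1, nat_lit 2⟩, ⟨false, nat_lit 32768, nat_lit 60544, nat_lit 2, nat_lit 1⟩, ⟨false, nat_lit 2048, nat_lit 40064, nat_lit 2, nat_lit 0⟩,
    ⟨true, nat_lit 128, nat_lit 39808, nat_lit 2, nat_lit 1⟩, ⟨false, nat_lit 16384, nat_lit 58368, nat_lit 1, nat_lit 2⟩, ⟨true, nat_lit 1024, nat_lit 56320, nat_lit 1, nat_lit 3⟩,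
    ⟨false, nat_lit 8192, nat_lit 57344, nat_lit 1, nat_lit 1⟩]

def l86_4 : List (Nat × List Wr × Nat) := [
  (nat_lit 5, r86_4_0, nat_lit 1), (nat_lit 6, r86_4_1, nat_lit 0)]

def r30_0_0 : List Wr := [
    ⟨false, nat_lit 4, nat_lit 7, nat_lit 1, nat_lit 1⟩, ⟨true, nat_lit 2, nat_lit 7, nat_lit 1, nat_lit 1⟩, ⟨false, nat_lit 128, nat_lit 249, nat_lit 2, nat_lit 1⟩,
    ⟨false, nat_lit 16, nat_lit 153, nat_lit 1, nat_lit 2⟩, ⟨true, nat_lit 1, nat_lit 151, nat_lit 2, nat_lit 0⟩, ⟨false, nat_lit 1024, nat_lit 1896, nat_lit 2, nat_lit 1⟩,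
    ⟨false, nat_lit 64, nat_lit 1256, nat_lit 2, nat_lit 0⟩, ⟨true, nat_lit 8, nat_lit 1240, nat_lit 1, nat_lit 3⟩, ⟨false, nat_lit 4096, nat_lit 6944, nat_lit 1, nat_lit 3⟩,
    ⟨false, nat_lit 512, nat_lit 5920, nat_lit 2, nat_lit 0⟩, ⟨true, nat_lit 32, nat_lit 5856, nat_lit 2, nat_lit 1⟩, ⟨false, nat_lit 32768, nat_lit 59648, nat_lit 2, nat_lit 0⟩,
    ⟨false, nat_lit 2048, nat_lit 39168, nat_lit 1, nat_lit 2⟩, ⟨true, nat_lit 256, nat_lit 40704, nat_lit 2, nat_lit 1⟩, ⟨false, nat_lit 16384, nat_lit 57344, nat_lit 1, nat_lit 1⟩,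
    ⟨false, nat_lit 8192, nat_lit 57344, nat_lit 1, nat_lit 1⟩]

def l30_0 : List (Nat × List Wr × Nat) := [
  (nat_lit 6, r30_0_0, nat_lit 0)]

end Pool.Agent.EC4.Run
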