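import Pool.Agent.Lib.MP_ec4eff_co.R5.Dec
import Pool.Agent.Lib.MP_ec4eff_co.R5.Run.D21

/-! Generated file (project R5): the first lune -/

namespace Pool.Agent.EC4.Run

theorem a86 : runA (l86_0 ++ (l86_1 ++ (l86_2 ++ (l86_3 ++ (l86_4))))) [1, 1, 0, 1, 1, 0, 0, 0] = false := by decide +kernel

theorem a94 : runA ([]) [1, 2, 0, 0, 0, 0, 1] = false := by decide +kernel

theorem a63 : runA ([]) [1, 0, 1, 0, 2, 0, 0] = false := by decide +kernel

theorem a107 : runA ([]) [2, 0, 1, 0, 1, 0, 0] = false := by decide +kernel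

theorem a75 : runA ([]) [1, 1, 0, 0, 0, 0, 2] = false := by decide +kernel

theorem a110 : runA ([]) [2, 1, 0, 0, 0, 1, 0] = false := by decide +kernel

theorem a103 : runA ([]) [2, 0, 0, 1, 0, 1, 0] = false := by decide +kernel

theorem a112 : runA ([]) [2, 1, 0, 1, 0, 0, 0] = false := by decide +kernel

theorem a30 : runA (l30_0) [0, 2, 0, 0, 2, 0] = false := by decide +kernel

theorem a6 : runA ([]) [0, 0, 2, 2, 0, 0] = false := by decide +kernel

theorem a100 : runA ([]) [2, 0, 0, 0, 0, 2] = false := by decide +kernel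

theorem a105 : runA ([]) [2, 0, 0, 2, 0, 0] = false := by decide +kernel

theorem a109 : runA ([]) [2, 0, 2, 0, 0, 0] = false := by decide +kernel

theorem a114 : runA ([]) [2, 2, 0, 0, 0, 0] = false := by decide +kernel

theorem a32 : runA ([]) [0, 2, 0, 2, 0, 0] = false := by decide +kernel

end Pool.Agent.EC4.Run
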