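import Pool.Agent.Lib.MP_ec4eff_co.R5.Srch

/-! Generated file (project R5): results of the first lune -/

namespace Pool.Agent.EC4.Run

def r84_0_0 : List Wr := [
    ⟨false, nat_lit 16, nat_lit 31, nat_lit 1, nat_lit 3⟩, ⟨false, nat_lit 8, nat_lit 31, nat_lit 2, nat_lit 0⟩, ⟨false, nat_lit 2, nat_lit 27, nat_lit 1, nat_lit 2⟩,
    ⟨true, nat_lit 1, nat_lit 27, nat_lit 1, nat_lit 2⟩, ⟨false, nat_lit 256, nat_lit 484, nat_lit 2, nat_lit 0⟩, ⟨false, nat_lit 32, nat_lit 292, nat_lit 1, nat_lit 1⟩,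
    ⟨true, nat_lit 4, nat_lit 316, nat_lit 2, nat_lit 0⟩, ⟨false, nat_lit 32768, nat_lit 65216, nat_lit 3, nat_lit 1⟩, ⟨false, nat_lit 2048, nat_lit 36544, nat_lit 2, nat_lit 1⟩,
    ⟨true, nat_lit 128, nat_lit 35264, nat_lit 2, nat_lit 0⟩, ⟨false, nat_lit 4096, nat_lit 38464, nat_lit 1, nat_lit 3⟩, ⟨true, nat_lit 1024, nat_lit 40512, nat_lit 2, nat_lit 1⟩,
    ⟨false, nat_lit 16384, nat_lit 57920, nat_lit 2, nat_lit 0⟩, ⟨false, nat_lit 512, nat_lit 56896, nat_lit 2, nat_lit 2⟩, ⟨true, nat_lit 64, nat_lit 57280, nat_lit 3, nat_lit 1⟩,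
    ⟨false, nat_lit 8192, nat_lit 57344, nat_lit 1, nat_lit 1⟩]

def r84_0_1 : List Wr := [
    ⟨false, nat_lit 256, nat_lit 511, nat_lit 3, nat_lit 1⟩, ⟨false, nat_lit 16, nat_lit 287, nat_lit 2, nat_lit 1⟩, ⟨true, nat_lit 1, nat_lit 273, nat_lit 1, nat_lit 1⟩,
    ⟨false, nat_lit 128, nat_lit 494, nat_lit 2, nat_lit 2⟩, ⟨false, nat_lit 32, nat_lit 430, nat_lit 2, nat_lit 1⟩, ⟨false, nat_lit 8, nat_lit 446, nat_lit 2, nat_lit 2⟩,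
    ⟨true, nat_lit 4, nat_lit 446, nat_lit 2, nat_lit 2⟩, ⟨false, nat_lit 2048, nat_lit 3650, nat_lit 2, nat_lit 0⟩, ⟨false, nat_lit 64, nat_lit 2498, nat_lit 2, nat_lit 0⟩,
    ⟨true, nat_lit 2, nat_lit 2558, nat_lit 2, nat_lit 4⟩, ⟨true, nat_lit 1024, nat_lit 3584, nat_lit 1, nat_lit 1⟩, ⟨false, nat_lit 32768, nat_lit 61952, nat_lit 2, nat_lit 0⟩,
    ⟨false, nat_lit 4096, nat_lit 37376, nat_lit 1, nat_lit 1⟩, ⟨true, nat_lit 512, nat_lit 40448, nat_lit 2, nat_lit 0⟩, ⟨false, nat_lit 16384, nat_lit 57344, nat_lit 1, nat_lit 1⟩,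
    ⟨false, nat_lit 8192, nat_lit 57344, nat_lit 1, nat_lit 1⟩]

def r84_0_2 : List Wr := [
    ⟨false, nat_lit 16, nat_lit 31, nat_lit 2, nat_lit 0⟩, ⟨false, nat_lit 2, nat_lit 19, nat_lit 1, nat_lit 1⟩, ⟨true, nat_lit 1, nat_lit 19, nat_lit 1, nat_lit 1⟩,
    ⟨false, nat_lit 256, nat_lit 492, nat_lit 2, nat_lit 1⟩, ⟨false, nat_lit 32, nat_lit 300, nat_lit 1, nat_lit 2⟩, ⟨true, nat_lit 8, nat_lit 316, nat_lit 2, nat_lit 0⟩,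
    ⟨true, nat_lit 128, nat_lit 452, nat_lit 1, nat_lit 2⟩, ⟨false, nat_lit 2048, nat_lit 3652, nat_lit 2, nat_lit 0⟩, ⟨false, nat_lit 64, nat_lit 2500, nat_lit 2, nat_lit 0⟩,
    ⟨true, nat_lit 4, nat_lit 2556, nat_lit 2, nat_lit 3⟩, ⟨true, nat_lit 1024, nat_lit 3584, nat_lit 1, nat_lit 1⟩, ⟨false, nat_lit 32768, nat_lit 61952, nat_lit 2, nat_lit 0⟩,
    ⟨false, nat_lit 4096, nat_lit 37376, nat_lit 1, nat_lit 1⟩, ⟨true, nat_lit 512, nat_lit 40448, nat_lit 2, nat_lit 0⟩, ⟨false, nat_lit 16384, nat_lit 57344, nat_lit 1, nat_lit 1⟩,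
    ⟨false, nat_lit 8192, nat_lit 57344, nat_lit 1, nat_lit 1⟩]

def l84_0 : List (Nat × List Wr × Nat) := [
  (nat_lit 6, r84_0_0, nat_lit 0), (nat_lit 6, r84_0_1, nat_lit 0), (nat_lit 4, r84_0_2, nat_lit 0)]

def r84_1_0 : List Wr := [
    ⟨false, nat_lit 16, nat_lit 31, nat_lit 2, nat_lit 0⟩, ⟨false, nat_lit 2, nat_lit 19, nat_lit 1, nat_lit 1⟩, ⟨true, nat_lit 1, nat_lit 19, nat_lit 1, nat_lit 1⟩,
    ⟨false, nat_lit 256, nat_lit 492, nat_lit 2, nat_lit 1⟩, ⟨false, nat_lit 32, nat_lit 300, nat_lit 1, nat_lit 2⟩, ⟨true, nat_lit 8, nat_lit 316, nat_lit 2, nat_lit 0⟩,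
    ⟨false, nat_lit 2048, nat_lit 3780, nat_lit 2, nat_lit 1⟩, ⟨false, nat_lit 128, nat_lit 2500, nat_lit 2, nat_lit 0⟩, ⟨true, nat_lit 4, nat_lit 2492, nat_lit 2, nat_lit 2⟩,
    ⟨true, nat_lit 64, nat_lit 2496, nat_lit 1, nat_lit 2⟩, ⟨true, nat_lit 1024, nat_lit 3584, nat_lit 1, nat_lit 1⟩, ⟨false, nat_lit 32768, nat_lit 61952, nat_lit 2, nat_lit 0⟩,
    ⟨false, nat_lit 4096, nat_lit 37376, nat_lit 1, nat_lit 1⟩, ⟨true, nat_lit 512, nat_lit 40448, nat_lit 2, nat_lit 0⟩, ⟨false, nat_lit 16384, nat_lit 57344, nat_lit 1, nat_lit 1⟩,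
    ⟨false, nat_lit 8192, nat_lit 57344, nat_lit 1, nat_lit 1⟩]

def r84_1_1 : List Wr := [
    ⟨false, nat_lit 16, nat_lit 31, nat_lit 2, nat_lit 0⟩, ⟨false, nat_lit 2, nat_lit 19, nat_lit 1, nat_lit 1⟩, ⟨true, nat_lit 1, nat_lit 19, nat_lit 1, nat_lit 1⟩,
    ⟨false, nat_lit 256, nat_lit 492, nat_lit 2, nat_lit 1⟩, ⟨false, nat_lit 32, nat_lit 300, nat_lit 1, nat_lit 2⟩, ⟨true, nat_lit 8, nat_lit 316, nat_lit 2, nat_lit 0⟩,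
    ⟨false, nat_lit 2048, nat_lit 3780, nat_lit 2, nat_lit 1⟩, ⟨false, nat_lit 128, nat_lit 2500, nat_lit 2, nat_lit 0⟩, ⟨true, nat_lit 4, nat_lit 2492, nat_lit 2, nat_lit 2⟩,
    ⟨false, nat_lit 1024, nat_lit 3648, nat_lit 1, nat_lit 2⟩, ⟨true, nat_lit 64, nat_lit 3520, nat_lit 1, nat_lit 3⟩, ⟨false, nat_lit 32768, nat_lit 61952, nat_lit 2, nat_lit 0⟩,
    ⟨false, nat_lit 4096, nat_lit 37376, nat_lit 1, nat_lit 1⟩, ⟨true, nat_lit 512, nat_lit 40448, nat_lit 2, nat_lit 0⟩, ⟨false, nat_lit 16384, nat_lit 57344, nat_lit 1, nat_lit 1⟩,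
    ⟨false, nat_lit 8192, nat_lit 57344, nat_lit 1, nat_lit 1⟩]

def r84_1_2 : List Wr := [
    ⟨false, nat_lit 16, nat_lit 31, nat_lit 2, nat_lit 0⟩, ⟨false, nat_lit 2, nat_lit 19, nat_lit 1, nat_lit 1⟩, ⟨true, nat_lit 1, nat_lit 19, nat_lit 1, nat_lit 1⟩,
    ⟨false, nat_lit 256, nat_lit 492, nat_lit 2, nat_lit 1⟩, ⟨false, nat_lit 32, nat_lit 300, nat_lit 1, nat_lit 2⟩, ⟨true, nat_lit 8, nat_lit 316, nat_lit 2, nat_lit 0⟩,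
    ⟨false, nat_lit 2048, nat_lit 3780, nat_lit 2, nat_lit 1⟩, ⟨false, nat_lit 128, nat_lit 2500, nat_lit 2, nat_lit 0⟩, ⟨true, nat_lit 4, nat_lit 2492, nat_lit 2, nat_lit 2⟩,
    ⟨false, nat_lit 1024, nat_lit 3648, nat_lit 1, nat_lit 2⟩, ⟨true, nat_lit 64, nat_lit 3520, nat_lit 1, nat_lit 3⟩, ⟨false, nat_lit 32768, nat_lit 61952, nat_lit 2, nat_lit 0⟩,
    ⟨false, nat_lit 4096, nat_lit 37376, nat_lit 1, nat_lit 1⟩, ⟨true, nat_lit 512, nat_lit 40448, nat_lit 2, nat_lit 0⟩, ⟨false, nat_lit 16384, nat_lit 57344, nat_lit 1, nat_lit 1⟩,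
    ⟨false, nat_lit 8192, nat_lit 57344, nat_lit 1, nat_lit 1⟩]

def r84_1_3 : List Wr := [
    ⟨false, nat_lit 16, nat_lit 31, nat_lit 2, nat_lit 0⟩, ⟨false, nat_lit 2, nat_lit 19, nat_lit 1, nat_lit 1⟩, ⟨true, nat_lit 1, nat_lit 19, nat_lit 1, nat_lit 1⟩,
    ⟨false, nat_lit 256, nat_lit 492, nat_lit 2, nat_lit 1⟩, ⟨false, nat_lit 32, nat_lit 300, nat_lit 1, nat_lit 2⟩, ⟨true, nat_lit 8, nat_lit 316, nat_lit 2, nat_lit 0⟩,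
    ⟨false, nat_lit 2048, nat_lit 3780, nat_lit 2, nat_lit 1⟩, ⟨false, nat_lit 128, nat_lit 2500, nat_lit 2, nat_lit 0⟩, ⟨true, nat_lit 4, nat_lit 2492, nat_lit 2, nat_lit 2⟩,
    ⟨true, nat_lit 1024, nat_lit 3648, nat_lit 1, nat_lit 2⟩, ⟨false, nat_lit 4096, nat_lit 4672, nat_lit 1, nat_lit 1⟩, ⟨false, nat_lit 512, nat_lit 7744, nat_lit 2, nat_lit 0⟩,
    ⟨true, nat_lit 64, nat_lit 8128, nat_lit 2, nat_lit 2⟩, ⟨false, nat_lit 32768, nat_lit 57344, nat_lit 1, nat_lit 1⟩, ⟨false, nat_lit 16384, nat_lit 57344, nat_lit 1, nat_lit 1⟩,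
    ⟨false, nat_lit 8192, nat_lit 57344, nat_lit 1, nat_lit 1⟩]

def r84_1_4 : List Wr := [
    ⟨false, nat_lit 16, nat_lit 31, nat_lit 2, nat_lit 0⟩, ⟨false, nat_lit 2, nat_lit 19, nat_lit 1, nat_lit 1⟩, ⟨true, nat_lit 1, nat_lit 19, nat_lit 1, nat_lit 1⟩,
    ⟨false, nat_lit 256, nat_lit 492, nat_lit 2, nat_lit 1⟩, ⟨false, nat_lit 32, nat_lit 300, nat_lit 1, nat_lit 2⟩, ⟨true, nat_lit 8, nat_lit 316, nat_lit 2, nat_lit 0⟩,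
    ⟨false, nat_lit 2048, nat_lit 3780, nat_lit 2, nat_lit 1⟩, ⟨false, nat_lit 128, nat_lit 2500, nat_lit 2, nat_lit 0⟩, ⟨true, nat_lit 4, nat_lit 2492, nat_lit 2, nat_lit 2⟩,
    ⟨false, nat_lit 4096, nat_lit 5696, nat_lit 1, nat_lit 2⟩, ⟨false, nat_lit 1024, nat_lit 7744, nat_lit 2, nat_lit 0⟩, ⟨true, nat_lit 64, nat_lit 7616, nat_lit 2, nat_lit 1⟩,
    ⟨true, nat_lit 512, nat_lit 7680, nat_lit 1, nat_lit 2⟩, ⟨false, nat_lit 32768, nat_lit 57344, nat_lit 1, nat_lit 1⟩, ⟨false, nat_lit 16384, nat_lit 57344, nat_lit 1, nat_lit 1⟩,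
    ⟨false, nat_lit 8192, nat_lit 57344, nat_lit 1, nat_lit 1⟩]

def r84_1_5 : List Wr := [
    ⟨false, nat_lit 16, nat_lit 31, nat_lit 2, nat_lit 0⟩, ⟨false, nat_lit 2, nat_lit 19, nat_lit 1, nat_lit 1⟩, ⟨true, nat_lit 1, nat_lit 19, nat_lit 1, nat_lit 1⟩,
    ⟨false, nat_lit 256, nat_lit 492, nat_lit 2, nat_lit 1⟩, ⟨false, nat_lit 32, nat_lit 300, nat_lit 1, nat_lit 2⟩, ⟨false, nat_lit 8, nat_lit 316, nat_lit 2, nat_lit 0⟩,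
    ⟨true, nat_lit 4, nat_lit 316, nat_lit 1, nat_lit 3⟩, ⟨false, nat_lit 32768, nat_lit 65216, nat_lit 3, nat_lit 1⟩, ⟨false, nat_lit 2048, nat_lit 36544, nat_lit 2, nat_lit 1⟩,
    ⟨true, nat_lit 128, nat_lit 35264, nat_lit 2, nat_lit 0⟩, ⟨false, nat_lit 4096, nat_lit 38464, nat_lit 1, nat_lit 3⟩, ⟨true, nat_lit 1024, nat_lit 40512, nat_lit 2, nat_lit 1⟩,
    ⟨false, nat_lit 16384, nat_lit 57920, nat_lit 2, nat_lit 0⟩, ⟨false, nat_lit 512, nat_lit 56896, nat_lit 2, nat_lit 2⟩, ⟨true, nat_lit 64, nat_lit 57280, nat_lit 3, nat_lit 1⟩,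
    ⟨false, nat_lit 8192, nat_lit 57344, nat_lit 1, nat_lit 1⟩]

def r84_1_6 : List Wr := [
    ⟨false, nat_lit 16, nat_lit 31, nat_lit 2, nat_lit 0⟩, ⟨false, nat_lit 2, nat_lit 19, nat_lit 1, nat_lit 1⟩, ⟨true, nat_lit 1, nat_lit 19, nat_lit 1, nat_lit 1⟩,
    ⟨false, nat_lit 256, nat_lit 492, nat_lit 2, nat_lit 1⟩, ⟨false, nat_lit 32, nat_lit 300, nat_lit 1, nat_lit 2⟩, ⟨true, nat_lit 8, nat_lit 316, nat_lit 2, nat_lit 0⟩,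
    ⟨false, nat_lit 2048, nat_lit 3780, nat_lit 2, nat_lit 1⟩, ⟨false, nat_lit 128, nat_lit 2500, nat_lit 2, nat_lit 0⟩, ⟨true, nat_lit 4, nat_lit 2492, nat_lit 2, nat_lit 2⟩,
    ⟨false, nat_lit 32768, nat_lit 63040, nat_lit 2, nat_lit 2⟩, ⟨false, nat_lit 4096, nat_lit 38464, nat_lit 1, nat_lit 3⟩, ⟨true, nat_lit 1024, nat_lit 40512, nat_lit 2, nat_lit 1⟩,
    ⟨false, nat_lit 16384, nat_lit 57920, nat_lit 2, nat_lit 0⟩, ⟨false, nat_lit 512, nat_lit 56896, nat_lit 2, nat_lit 2⟩, ⟨true, nat_lit 64, nat_lit 57280, nat_lit 3, nat_lit 1⟩,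
    ⟨false, nat_lit 8192, nat_lit 57344, nat_lit 1, nat_lit 1⟩]

def l84_1 : List (Nat × List Wr × Nat) := [
  (nat_lit 4, r84_1_0, nat_lit 0), (nat_lit 5, r84_1_1, nat_lit 1), (nat_lit 6, r84_1_2, nat_lit 0),
  (nat_lit 6, r84_1_3, nat_lit 0), (nat_lit 6, r84_1_4, nat_lit 0), (nat_lit 6, r84_1_5, nat_lit 0),
  (nat_lit 6, r84_1_6, nat_lit 0)]

def r84_2_0 : List Wr := [
    ⟨false, nat_lit 16, nat_lit 31, nat_lit 2, nat_lit 0⟩, ⟨false, nat_lit 2, nat_lit 19, nat_lit 1, nat_lit 1⟩, ⟨true, nat_lit 1, nat_lit 19, nat_lit 1, nat_lit 1⟩,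
    ⟨false, nat_lit 32768, nat_lit 65516, nat_lit 4, nat_lit 2⟩, ⟨false, nat_lit 32, nat_lit 32812, nat_lit 1, nat_lit 2⟩, ⟨true, nat_lit 8, nat_lit 32828, nat_lit 2, nat_lit 0⟩,
    ⟨false, nat_lit 2048, nat_lit 36804, nat_lit 2, nat_lit 3⟩, ⟨true, nat_lit 256, nat_lit 35268, nat_lit 2, nat_lit 1⟩, ⟨false, nat_lit 4096, nat_lit 38596, nat_lit 2, nat_lit 2⟩,
    ⟨false, nat_lit 128, nat_lit 39364, nat_lit 2, nat_lit 2⟩, ⟨true, nat_lit 4, nat_lit 39356, nat_lit 3, nat_lit 1⟩, ⟨true, nat_lit 1024, nat_lit 40512, nat_lit 2, nat_lit 1⟩,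
    ⟨false, nat_lit 16384, nat_lit 57920, nat_lit 2, nat_lit 0⟩, ⟨false, nat_lit 512, nat_lit 56896, nat_lit 2, nat_lit 2⟩, ⟨true, nat_lit 64, nat_lit 57280, nat_lit 3, nat_lit 1⟩,
    ⟨false, nat_lit 8192, nat_lit 57344, nat_lit 1, nat_lit 1⟩]

def r84_2_1 : List Wr := [
    ⟨false, nat_lit 16, nat_lit 31, nat_lit 2, nat_lit 0⟩, ⟨false, nat_lit 2, nat_lit 19, nat_lit 1, nat_lit 1⟩, ⟨true, nat_lit 1, nat_lit 19, nat_lit 1, nat_lit 1⟩,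
    ⟨false, nat_lit 2048, nat_lit 4076, nat_lit 3, nat_lit 1⟩, ⟨false, nat_lit 256, nat_lit 2540, nat_lit 2, nat_lit 2⟩, ⟨true, nat_lit 8, nat_lit 2332, nat_lit 2, nat_lit 0⟩,
    ⟨false, nat_lit 128, nat_lit 2532, nat_lit 2, nat_lit 1⟩, ⟨true, nat_lit 32, nat_lit 2468, nat_lit 1, nat_lit 3⟩, ⟨false, nat_lit 1024, nat_lit 3652, nat_lit 2, nat_lit 0⟩,
    ⟨false, nat_lit 64, nat_lit 3524, nat_lit 2, nat_lit 1⟩, ⟨true, nat_lit 4, nat_lit 3580, nat_lit 3, nat_lit 1⟩, ⟨false, nat_lit 32768, nat_lit 61952, nat_lit 2, nat_lit 0⟩,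
    ⟨false, nat_lit 4096, nat_lit 37376, nat_lit 1, nat_lit 1⟩, ⟨true, nat_lit 512, nat_lit 40448, nat_lit 2, nat_lit 0⟩, ⟨false, nat_lit 16384, nat_lit 57344, nat_lit 1, nat_lit 1⟩,
    ⟨false, nat_lit 8192, nat_lit 57344, nat_lit 1, nat_lit 1⟩]

def r84_2_2 : List Wr := [
    ⟨false, nat_lit 16, nat_lit 31, nat_lit 2, nat_lit 0⟩, ⟨false, nat_lit 2, nat_lit 19, nat_lit 1, nat_lit 1⟩, ⟨true, nat_lit 1, nat_lit 19, nat_lit 1, nat_lit 1⟩,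
    ⟨false, nat_lit 2048, nat_lit 4076, nat_lit 3, nat_lit 1⟩, ⟨false, nat_lit 256, nat_lit 2540, nat_lit 2, nat_lit 2⟩, ⟨true, nat_lit 8, nat_lit 2332, nat_lit 2, nat_lit 0⟩,
    ⟨true, nat_lit 128, nat_lit 2532, nat_lit 2, nat_lit 1⟩, ⟨false, nat_lit 1024, nat_lit 3684, nat_lit 2, nat_lit 1⟩, ⟨false, nat_lit 64, nat_lit 3556, nat_lit 2, nat_lit 2⟩,
    ⟨false, nat_lit 32, nat_lit 3556, nat_lit 2, nat_lit 2⟩, ⟨true, nat_lit 4, nat_lit 3580, nat_lit 2, nat_lit 4⟩, ⟨false, nat_lit 32768, nat_lit 61952, nat_lit 2, nat_lit 0⟩,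
    ⟨false, nat_lit 4096, nat_lit 37376, nat_lit 1, nat_lit 1⟩, ⟨true, nat_lit 512, nat_lit 40448, nat_lit 2, nat_lit 0⟩, ⟨false, nat_lit 16384, nat_lit 57344, nat_lit 1, nat_lit 1⟩,
    ⟨false, nat_lit 8192, nat_lit 57344, nat_lit 1, nat_lit 1⟩]

def r84_2_3 : List Wr := [
    ⟨false, nat_lit 16, nat_lit 31, nat_lit 2, nat_lit 0⟩, ⟨false, nat_lit 2, nat_lit 19, nat_lit 1, nat_lit 1⟩, ⟨true, nat_lit 1, nat_lit 19, nat_lit 1, nat_lit 1⟩,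
    ⟨false, nat_lit 2048, nat_lit 4076, nat_lit 3, nat_lit 1⟩, ⟨false, nat_lit 256, nat_lit 2540, nat_lit 2, nat_lit 2⟩, ⟨true, nat_lit 8, nat_lit 2332, nat_lit 2, nat_lit 0⟩,
    ⟨true, nat_lit 128, nat_lit 2532, nat_lit 2, nat_lit 1⟩, ⟨false, nat_lit 1024, nat_lit 3684, nat_lit 2, nat_lit 1⟩, ⟨false, nat_lit 64, nat_lit 3556, nat_lit 2, nat_lit 2⟩,
    ⟨true, nat_lit 32, nat_lit 3556, nat_lit 2, nat_lit 2⟩, ⟨false, nat_lit 4096, nat_lit 4612, nat_lit 1, nat_lit 1⟩, ⟨false, nat_lit 512, nat_lit 7684, nat_lit 2, nat_lit 0⟩,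
    ⟨true, nat_lit 4, nat_lit 8188, nat_lit 3, nat_lit 3⟩, ⟨false, nat_lit 32768, nat_lit 57344, nat_lit 1, nat_lit 1⟩, ⟨false, nat_lit 16384, nat_lit 57344, nat_lit 1, nat_lit 1⟩,
    ⟨false, nat_lit 8192, nat_lit 57344, nat_lit 1, nat_lit 1⟩]

def r84_2_4 : List Wr := [
    ⟨false, nat_lit 16, nat_lit 31, nat_lit 2, nat_lit 0⟩, ⟨false, nat_lit 2, nat_lit 19, nat_lit 1, nat_lit 1⟩, ⟨true, nat_lit 1, nat_lit 19, nat_lit 1, nat_lit 1⟩,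
    ⟨false, nat_lit 2048, nat_lit 4076, nat_lit 3, nat_lit 1⟩, ⟨false, nat_lit 256, nat_lit 2540, nat_lit 2, nat_lit 2⟩, ⟨true, nat_lit 8, nat_lit 2332, nat_lit 2, nat_lit 0⟩,
    ⟨true, nat_lit 128, nat_lit 2532, nat_lit 2, nat_lit 1⟩, ⟨false, nat_lit 32768, nat_lit 63076, nat_lit 3, nat_lit 1⟩, ⟨false, nat_lit 64, nat_lit 35300, nat_lit 2, nat_lit 2⟩,
    ⟨true, nat_lit 32, nat_lit 35300, nat_lit 2, nat_lit 2⟩, ⟨false, nat_lit 4096, nat_lit 38404, nat_lit 1, nat_lit 3⟩, ⟨true, nat_lit 1024, nat_lit 40452, nat_lit 2, nat_lit 1⟩,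
    ⟨false, nat_lit 16384, nat_lit 57860, nat_lit 2, nat_lit 0⟩, ⟨false, nat_lit 512, nat_lit 56836, nat_lit 2, nat_lit 2⟩, ⟨true, nat_lit 4, nat_lit 57340, nat_lit 4, nat_lit 2⟩,
    ⟨false, nat_lit 8192, nat_lit 57344, nat_lit 1, nat_lit 1⟩]

def r84_2_5 : List Wr := [
    ⟨false, nat_lit 16, nat_lit 31, nat_lit 2, nat_lit 0⟩, ⟨false, nat_lit 2, nat_lit 19, nat_lit 1, nat_lit 1⟩, ⟨true, nat_lit 1, nat_lit 19, nat_lit 1, nat_lit 1⟩,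
    ⟨false, nat_lit 2048, nat_lit 4076, nat_lit 3, nat_lit 1⟩, ⟨false, nat_lit 256, nat_lit 2540, nat_lit 2, nat_lit 2⟩, ⟨true, nat_lit 8, nat_lit 2332, nat_lit 2, nat_lit 0⟩,
    ⟨true, nat_lit 128, nat_lit 2532, nat_lit 2, nat_lit 1⟩, ⟨false, nat_lit 32768, nat_lit 63076, nat_lit 3, nat_lit 1⟩, ⟨false, nat_lit 1024, nat_lit 36452, nat_lit 2, nat_lit 2⟩,
    ⟨true, nat_lit 32, nat_lit 36260, nat_lit 2, nat_lit 2⟩, ⟨false, nat_lit 512, nat_lit 36420, nat_lit 2, nat_lit 1⟩, ⟨true, nat_lit 64, nat_lit 36804, nat_lit 2, nat_lit 3⟩,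
    ⟨false, nat_lit 16384, nat_lit 61444, nat_lit 2, nat_lit 0⟩, ⟨false, nat_lit 4096, nat_lit 53252, nat_lit 1, nat_lit 2⟩, ⟨true, nat_lit 4, nat_lit 57340, nat_lit 4, nat_lit 2⟩,
    ⟨false, nat_lit 8192, nat_lit 57344, nat_lit 1, nat_lit 1⟩]

def r84_2_6 : List Wr := [
    ⟨false, nat_lit 16, nat_lit 31, nat_lit 2, nat_lit 0⟩, ⟨false, nat_lit 2, nat_lit 19, nat_lit 1, nat_lit 1⟩, ⟨true, nat_lit 1, nat_lit 19, nat_lit 1, nat_lit 1⟩,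
    ⟨false, nat_lit 2048, nat_lit 4076, nat_lit 3, nat_lit 1⟩, ⟨false, nat_lit 256, nat_lit 2540, nat_lit 2, nat_lit 2⟩, ⟨true, nat_lit 8, nat_lit 2332, nat_lit 2, nat_lit 0⟩,
    ⟨false, nat_lit 128, nat_lit 2532, nat_lit 2, nat_lit 1⟩, ⟨false, nat_lit 32, nat_lit 2468, nat_lit 1, nat_lit 3⟩, ⟨true, nat_lit 4, nat_lit 2492, nat_lit 2, nat_lit 2⟩,
    ⟨false, nat_lit 32768, nat_lit 63040, nat_lit 2, nat_lit 2⟩, ⟨false, nat_lit 1024, nat_lit 36416, nat_lit 2, nat_lit 0⟩, ⟨true, nat_lit 64, nat_lit 36288, nat_lit 2, nat_lit 1⟩,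
    ⟨false, nat_lit 16384, nat_lit 61952, nat_lit 2, nat_lit 0⟩, ⟨false, nat_lit 4096, nat_lit 53760, nat_lit 1, nat_lit 2⟩, ⟨true, nat_lit 512, nat_lit 56832, nat_lit 2, nat_lit 1⟩,
    ⟨false, nat_lit 8192, nat_lit 57344, nat_lit 1, nat_lit 1⟩]

def r84_2_7 : List Wr := [
    ⟨false, nat_lit 16, nat_lit 31, nat_lit 2, nat_lit 0⟩, ⟨false, nat_lit 2, nat_lit 19, nat_lit 1, nat_lit 1⟩, ⟨true, nat_lit 1, nat_lit 19, nat_lit 1, nat_lit 1⟩,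
    ⟨false, nat_lit 2048, nat_lit 4076, nat_lit 3, nat_lit 1⟩, ⟨false, nat_lit 256, nat_lit 2540, nat_lit 2, nat_lit 2⟩, ⟨true, nat_lit 8, nat_lit 2332, nat_lit 2, nat_lit 0⟩,
    ⟨false, nat_lit 128, nat_lit 2532, nat_lit 2, nat_lit 1⟩, ⟨true, nat_lit 32, nat_lit 2468, nat_lit 1, nat_lit 3⟩, ⟨false, nat_lit 1024, nat_lit 3652, nat_lit 2, nat_lit 0⟩,
    ⟨false, nat_lit 64, nat_lit 3524, nat_lit 2, nat_lit 1⟩, ⟨true, nat_lit 4, nat_lit 3580, nat_lit 3, nat_lit 1⟩, ⟨false, nat_lit 32768, nat_lit 61952, nat_lit 1, nat_lit 3⟩,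
    ⟨false, nat_lit 16384, nat_lit 61952, nat_lit 2, nat_lit 0⟩, ⟨false, nat_lit 4096, nat_lit 53760, nat_lit 1, nat_lit 2⟩, ⟨true, nat_lit 512, nat_lit 56832, nat_lit 2, nat_lit 1⟩,
    ⟨false, nat_lit 8192, nat_lit 57344, nat_lit 1, nat_lit 1⟩]

def r84_2_8 : List Wr := [
    ⟨false, nat_lit 16, nat_lit 31, nat_lit 2, nat_lit 0⟩, ⟨false, nat_lit 2, nat_lit 19, nat_lit 1, nat_lit 1⟩, ⟨true, nat_lit 1, nat_lit 19, nat_lit 1, nat_lit 1⟩,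
    ⟨false, nat_lit 32768, nat_lit 65516, nat_lit 4, nat_lit 2⟩, ⟨false, nat_lit 256, nat_lit 33260, nat_lit 2, nat_lit 2⟩, ⟨true, nat_lit 8, nat_lit 33052, nat_lit 2, nat_lit 0⟩,
    ⟨false, nat_lit 128, nat_lit 33252, nat_lit 2, nat_lit 1⟩, ⟨true, nat_lit 32, nat_lit 33188, nat_lit 1, nat_lit 3⟩, ⟨false, nat_lit 4096, nat_lit 40516, nat_lit 2, nat_lit 2⟩,
    ⟨false, nat_lit 2048, nat_lit 40516, nat_lit 2, nat_lit 2⟩, ⟨true, nat_lit 4, nat_lit 39356, nat_lit 3, nat_lit 1⟩, ⟨true, nat_lit 1024, nat_lit 40512, nat_lit 2, nat_lit 1⟩,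
    ⟨false, nat_lit 16384, nat_lit 57920, nat_lit 2, nat_lit 0⟩, ⟨false, nat_lit 512, nat_lit 56896, nat_lit 2, nat_lit 2⟩, ⟨true, nat_lit 64, nat_lit 57280, nat_lit 3, nat_lit 1⟩,
    ⟨false, nat_lit 8192, nat_lit 57344, nat_lit 1, nat_lit 1⟩]

def r84_2_9 : List Wr := [
    ⟨false, nat_lit 16, nat_lit 31, nat_lit 2, nat_lit 0⟩, ⟨false, nat_lit 2, nat_lit 19, nat_lit 1, nat_lit 1⟩, ⟨true, nat_lit 1, nat_lit 19, nat_lit 1, nat_lit 1⟩,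
    ⟨false, nat_lit 8, nat_lit 28, nat_lit 1, nat_lit 1⟩, ⟨true, nat_lit 4, nat_lit 28, nat_lit 1, nat_lit 1⟩, ⟨true, nat_lit 256, nat_lit 480, nat_lit 1, nat_lit 2⟩,
    ⟨false, nat_lit 2048, nat_lit 3808, nat_lit 2, nat_lit 1⟩, ⟨false, nat_lit 128, nat_lit 2528, nat_lit 2, nat_lit 0⟩, ⟨true, nat_lit 32, nat_lit 2464, nat_lit 1, nat_lit 2⟩,
    ⟨false, nat_lit 32768, nat_lit 63040, nat_lit 2, nat_lit 2⟩, ⟨false, nat_lit 1024, nat_lit 36416, nat_lit 2, nat_lit 0⟩, ⟨true, nat_lit 64, nat_lit 36288, nat_lit 2, nat_lit 1⟩,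
    ⟨false, nat_lit 16384, nat_lit 61952, nat_lit 2, nat_lit 0⟩, ⟨false, nat_lit 4096, nat_lit 53760, nat_lit 1, nat_lit 2⟩, ⟨true, nat_lit 512, nat_lit 56832, nat_lit 2, nat_lit 1⟩,
    ⟨false, nat_lit 8192, nat_lit 57344, nat_lit 1, nat_lit 1⟩]

def r84_2_10 : List Wr := [
    ⟨false, nat_lit 2048, nat_lit 4095, nat_lit 3, nat_lit 4⟩, ⟨true, nat_lit 16, nat_lit 2079, nat_lit 2, nat_lit 1⟩, ⟨false, nat_lit 256, nat_lit 2543, nat_lit 3, nat_lit 1⟩,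
    ⟨false, nat_lit 8, nat_lit 2335, nat_lit 2, nat_lit 2⟩, ⟨true, nat_lit 2, nat_lit 2331, nat_lit 2, nat_lit 1⟩, ⟨false, nat_lit 128, nat_lit 2533, nat_lit 2, nat_lit 2⟩,
    ⟨false, nat_lit 32, nat_lit 2469, nat_lit 2, nat_lit 1⟩, ⟨true, nat_lit 1, nat_lit 2491, nat_lit 2, nat_lit 3⟩, ⟨false, nat_lit 1024, nat_lit 3652, nat_lit 2, nat_lit 0⟩,
    ⟨false, nat_lit 64, nat_lit 3524, nat_lit 2, nat_lit 1⟩, ⟨true, nat_lit 4, nat_lit 3580, nat_lit 3, nat_lit 1⟩, ⟨false, nat_lit 32768, nat_lit 61952, nat_lit 2, nat_lit 0⟩,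
    ⟨false, nat_lit 4096, nat_lit 37376, nat_lit 1, nat_lit 1⟩, ⟨true, nat_lit 512, nat_lit 40448, nat_lit 2, nat_lit 0⟩, ⟨false, nat_lit 16384, nat_lit 57344, nat_lit 1, nat_lit 1⟩,
    ⟨false, nat_lit 8192, nat_lit 57344, nat_lit 1, nat_lit 1⟩]

def r84_2_11 : List Wr := [
    ⟨true, nat_lit 1, nat_lit 1, nat_lit 0, nat_lit 2⟩, ⟨false, nat_lit 2048, nat_lit 4094, nat_lit 3, nat_lit 3⟩, ⟨false, nat_lit 16, nat_lit 2078, nat_lit 2, nat_lit 0⟩,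
    ⟨true, nat_lit 2, nat_lit 2066, nat_lit 1, nat_lit 1⟩, ⟨false, nat_lit 256, nat_lit 2540, nat_lit 2, nat_lit 2⟩, ⟨false, nat_lit 128, nat_lit 2540, nat_lit 2, nat_lit 2⟩,
    ⟨false, nat_lit 32, nat_lit 2476, nat_lit 2, nat_lit 1⟩, ⟨true, nat_lit 8, nat_lit 2492, nat_lit 2, nat_lit 2⟩, ⟨false, nat_lit 1024, nat_lit 3652, nat_lit 2, nat_lit 0⟩,
    ⟨false, nat_lit 64, nat_lit 3524, nat_lit 2, nat_lit 1⟩, ⟨true, nat_lit 4, nat_lit 3580, nat_lit 3, nat_lit 1⟩, ⟨false, nat_lit 32768, nat_lit 61952, nat_lit 2, nat_lit 0⟩,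
    ⟨false, nat_lit 4096, nat_lit 37376, nat_lit 1, nat_lit 1⟩, ⟨true, nat_lit 512, nat_lit 40448, nat_lit 2, nat_lit 0⟩, ⟨false, nat_lit 16384, nat_lit 57344, nat_lit 1, nat_lit 1⟩,
    ⟨false, nat_lit 8192, nat_lit 57344, nat_lit 1, nat_lit 1⟩]

def r84_2_12 : List Wr := [
    ⟨false, nat_lit 16, nat_lit 31, nat_lit 2, nat_lit 0⟩, ⟨false, nat_lit 2, nat_lit 19, nat_lit 1, nat_lit 1⟩, ⟨true, nat_lit 1, nat_lit 19, nat_lit 1, nat_lit 1⟩,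
    ⟨false, nat_lit 2048, nat_lit 4076, nat_lit 2, nat_lit 4⟩, ⟨false, nat_lit 256, nat_lit 2540, nat_lit 2, nat_lit 2⟩, ⟨false, nat_lit 128, nat_lit 2540, nat_lit 2, nat_lit 2⟩,
    ⟨false, nat_lit 32, nat_lit 2476, nat_lit 2, nat_lit 1⟩, ⟨true, nat_lit 8, nat_lit 2492, nat_lit 2, nat_lit 2⟩, ⟨false, nat_lit 1024, nat_lit 3652, nat_lit 2, nat_lit 0⟩,
    ⟨false, nat_lit 64, nat_lit 3524, nat_lit 2, nat_lit 1⟩, ⟨true, nat_lit 4, nat_lit 3580, nat_lit 3, nat_lit 1⟩, ⟨false, nat_lit 32768, nat_lit 61952, nat_lit 2, nat_lit 0⟩,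
    ⟨false, nat_lit 4096, nat_lit 37376, nat_lit 1, nat_lit 1⟩, ⟨true, nat_lit 512, nat_lit 40448, nat_lit 2, nat_lit 0⟩, ⟨false, nat_lit 16384, nat_lit 57344, nat_lit 1, nat_lit 1⟩,
    ⟨false, nat_lit 8192, nat_lit 57344, nat_lit 1, nat_lit 1⟩]

def r84_2_13 : List Wr := [
    ⟨false, nat_lit 16, nat_lit 31, nat_lit 2, nat_lit 0⟩, ⟨false, nat_lit 2, nat_lit 19, nat_lit 1, nat_lit 1⟩, ⟨true, nat_lit 1, nat_lit 19, nat_lit 1, nat_lit 1⟩,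
    ⟨false, nat_lit 8, nat_lit 28, nat_lit 1, nat_lit 1⟩, ⟨true, nat_lit 4, nat_lit 28, nat_lit 1, nat_lit 1⟩, ⟨false, nat_lit 2048, nat_lit 4064, nat_lit 2, nat_lit 2⟩,
    ⟨false, nat_lit 256, nat_lit 2528, nat_lit 2, nat_lit 0⟩, ⟨true, nat_lit 32, nat_lit 2336, nat_lit 1, nat_lit 1⟩, ⟨true, nat_lit 128, nat_lit 2496, nat_lit 1, nat_lit 2⟩,
    ⟨false, nat_lit 32768, nat_lit 63040, nat_lit 2, nat_lit 2⟩, ⟨false, nat_lit 1024, nat_lit 36416, nat_lit 2, nat_lit 0⟩, ⟨true, nat_lit 64, nat_lit 36288, nat_lit 2, nat_lit 1⟩,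
    ⟨false, nat_lit 16384, nat_lit 61952, nat_lit 2, nat_lit 0⟩, ⟨false, nat_lit 4096, nat_lit 53760, nat_lit 1, nat_lit 2⟩, ⟨true, nat_lit 512, nat_lit 56832, nat_lit 2, nat_lit 1⟩,
    ⟨false, nat_lit 8192, nat_lit 57344, nat_lit 1, nat_lit 1⟩]

def r84_2_14 : List Wr := [
    ⟨false, nat_lit 16, nat_lit 31, nat_lit 2, nat_lit 0⟩, ⟨false, nat_lit 2, nat_lit 19, nat_lit 1, nat_lit 1⟩, ⟨true, nat_lit 1, nat_lit 19, nat_lit 1, nat_lit 1⟩,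
    ⟨true, nat_lit 8, nat_lit 28, nat_lit 1, nat_lit 1⟩, ⟨false, nat_lit 256, nat_lit 484, nat_lit 2, nat_lit 0⟩, ⟨false, nat_lit 32, nat_lit 292, nat_lit 1, nat_lit 1⟩,
    ⟨true, nat_lit 4, nat_lit 316, nat_lit 2, nat_lit 0⟩, ⟨false, nat_lit 2048, nat_lit 3776, nat_lit 1, nat_lit 3⟩, ⟨true, nat_lit 128, nat_lit 2496, nat_lit 1, nat_lit 2⟩,
    ⟨false, nat_lit 32768, nat_lit 63040, nat_lit 2, nat_lit 2⟩, ⟨false, nat_lit 1024, nat_lit 36416, nat_lit 2, nat_lit 0⟩, ⟨true, nat_lit 64, nat_lit 36288, nat_lit 2, nat_lit 1⟩,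
    ⟨false, nat_lit 16384, nat_lit 61952, nat_lit 2, nat_lit 0⟩, ⟨false, nat_lit 4096, nat_lit 53760, nat_lit 1, nat_lit 2⟩, ⟨true, nat_lit 512, nat_lit 56832, nat_lit 2, nat_lit 1⟩,
    ⟨false, nat_lit 8192, nat_lit 57344, nat_lit 1, nat_lit 1⟩]

def r84_2_15 : List Wr := [
    ⟨false, nat_lit 16, nat_lit 31, nat_lit 2, nat_lit 0⟩, ⟨false, nat_lit 2, nat_lit 19, nat_lit 1, nat_lit 1⟩, ⟨true, nat_lit 1, nat_lit 19, nat_lit 1, nat_lit 1⟩,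
    ⟨true, nat_lit 8, nat_lit 28, nat_lit 1, nat_lit 1⟩, ⟨false, nat_lit 256, nat_lit 484, nat_lit 2, nat_lit 0⟩, ⟨false, nat_lit 32, nat_lit 292, nat_lit 1, nat_lit 1⟩,
    ⟨true, nat_lit 4, nat_lit 316, nat_lit 2, nat_lit 0⟩, ⟨false, nat_lit 32768, nat_lit 65216, nat_lit 3, nat_lit 1⟩, ⟨false, nat_lit 2048, nat_lit 36544, nat_lit 2, nat_lit 1⟩,
    ⟨true, nat_lit 128, nat_lit 35264, nat_lit 2, nat_lit 0⟩, ⟨false, nat_lit 16384, nat_lit 63040, nat_lit 2, nat_lit 2⟩, ⟨false, nat_lit 4096, nat_lit 54848, nat_lit 2, nat_lit 1⟩,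
    ⟨false, nat_lit 1024, nat_lit 56896, nat_lit 2, nat_lit 2⟩, ⟨false, nat_lit 512, nat_lit 56896, nat_lit 2, nat_lit 2⟩, ⟨true, nat_lit 64, nat_lit 57280, nat_lit 2, nat_lit 4⟩,
    ⟨false, nat_lit 8192, nat_lit 57344, nat_lit 1, nat_lit 1⟩]

def l84_2 : List (Nat × List Wr × Nat) := [
  (nat_lit 6, r84_2_0, nat_lit 0), (nat_lit 2, r84_2_1, nat_lit 0), (nat_lit 6, r84_2_2, nat_lit 0),
  (nat_lit 6, r84_2_3, nat_lit 0), (nat_lit 6, r84_2_4, nat_lit 0), (nat_lit 6, r84_2_5, nat_lit 0),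
  (nat_lit 6, r84_2_6, nat_lit 0), (nat_lit 6, r84_2_7, nat_lit 0), (nat_lit 6, r84_2_8, nat_lit 0),
  (nat_lit 6, r84_2_9, nat_lit 0), (nat_lit 6, r84_2_10, nat_lit 0), (nat_lit 6, r84_2_11, nat_lit 0),
  (nat_lit 6, r84_2_12, nat_lit 0), (nat_lit 6, r84_2_13, nat_lit 0), (nat_lit 6, r84_2_14, nat_lit 0),
  (nat_lit 6, r84_2_15, nat_lit 0)]

end Pool.Agent.EC4.Run
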