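import Pool.Agent.Lib.MP_ec4eff_co.R5.Srch

/-! Generated file (project R5): results of the first lune -/

namespace Pool.Agent.EC4.Run

def r84_3_0 : List Wr := [
    ⟨false, nat_lit 16, nat_lit 31, nat_lit 2, nat_lit 0⟩, ⟨false, nat_lit 2, nat_lit 19, nat_lit 1, nat_lit 1⟩, ⟨true, nat_lit 1, nat_lit 19, nat_lit 1, nat_lit 1⟩,
    ⟨true, nat_lit 8, nat_lit 28, nat_lit 1, nat_lit 1⟩, ⟨false, nat_lit 256, nat_lit 484, nat_lit 2, nat_lit 0⟩, ⟨false, nat_lit 32, nat_lit 292, nat_lit 1, nat_lit 1⟩,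
    ⟨true, nat_lit 4, nat_lit 316, nat_lit 2, nat_lit 0⟩, ⟨false, nat_lit 32768, nat_lit 65216, nat_lit 3, nat_lit 1⟩, ⟨false, nat_lit 2048, nat_lit 36544, nat_lit 2, nat_lit 1⟩,
    ⟨true, nat_lit 128, nat_lit 35264, nat_lit 2, nat_lit 0⟩, ⟨false, nat_lit 4096, nat_lit 38464, nat_lit 1, nat_lit 3⟩, ⟨true, nat_lit 1024, nat_lit 40512, nat_lit 2, nat_lit 1⟩,
    ⟨false, nat_lit 16384, nat_lit 57920, nat_lit 2, nat_lit 0⟩, ⟨false, nat_lit 512, nat_lit 56896, nat_lit 2, nat_lit 2⟩, ⟨true, nat_lit 64, nat_lit 57280, nat_lit 3, nat_lit 1⟩,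
    ⟨false, nat_lit 8192, nat_lit 57344, nat_lit 1, nat_lit 1⟩]

def r84_3_1 : List Wr := [
    ⟨false, nat_lit 16, nat_lit 31, nat_lit 2, nat_lit 0⟩, ⟨false, nat_lit 2, nat_lit 19, nat_lit 1, nat_lit 1⟩, ⟨true, nat_lit 1, nat_lit 19, nat_lit 1, nat_lit 1⟩,
    ⟨false, nat_lit 8, nat_lit 28, nat_lit 1, nat_lit 1⟩, ⟨true, nat_lit 4, nat_lit 28, nat_lit 1, nat_lit 1⟩, ⟨false, nat_lit 32768, nat_lit 65504, nat_lit 3, nat_lit 3⟩,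
    ⟨false, nat_lit 256, nat_lit 33248, nat_lit 2, nat_lit 0⟩, ⟨true, nat_lit 32, nat_lit 33056, nat_lit 1, nat_lit 1⟩, ⟨false, nat_lit 4096, nat_lit 40640, nat_lit 2, nat_lit 2⟩,
    ⟨false, nat_lit 2048, nat_lit 40640, nat_lit 2, nat_lit 2⟩, ⟨true, nat_lit 128, nat_lit 39360, nat_lit 2, nat_lit 1⟩, ⟨true, nat_lit 1024, nat_lit 40512, nat_lit 2, nat_lit 1⟩,
    ⟨false, nat_lit 16384, nat_lit 57920, nat_lit 2, nat_lit 0⟩, ⟨false, nat_lit 512, nat_lit 56896, nat_lit 2, nat_lit 2⟩, ⟨true, nat_lit 64, nat_lit 57280, nat_lit 3, nat_lit 1⟩,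
    ⟨false, nat_lit 8192, nat_lit 57344, nat_lit 1, nat_lit 1⟩]

def r84_3_2 : List Wr := [
    ⟨false, nat_lit 16, nat_lit 31, nat_lit 2, nat_lit 0⟩, ⟨false, nat_lit 2, nat_lit 19, nat_lit 1, nat_lit 1⟩, ⟨true, nat_lit 1, nat_lit 19, nat_lit 1, nat_lit 1⟩,
    ⟨true, nat_lit 8, nat_lit 28, nat_lit 1, nat_lit 1⟩, ⟨false, nat_lit 256, nat_lit 484, nat_lit 2, nat_lit 0⟩, ⟨false, nat_lit 32, nat_lit 292, nat_lit 1, nat_lit 1⟩,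
    ⟨true, nat_lit 4, nat_lit 316, nat_lit 2, nat_lit 0⟩, ⟨false, nat_lit 32768, nat_lit 65216, nat_lit 2, nat_lit 4⟩, ⟨false, nat_lit 4096, nat_lit 40640, nat_lit 2, nat_lit 2⟩,
    ⟨false, nat_lit 2048, nat_lit 40640, nat_lit 2, nat_lit 2⟩, ⟨true, nat_lit 128, nat_lit 39360, nat_lit 2, nat_lit 1⟩, ⟨true, nat_lit 1024, nat_lit 40512, nat_lit 2, nat_lit 1⟩,
    ⟨false, nat_lit 16384, nat_lit 57920, nat_lit 2, nat_lit 0⟩, ⟨false, nat_lit 512, nat_lit 56896, nat_lit 2, nat_lit 2⟩, ⟨true, nat_lit 64, nat_lit 57280, nat_lit 3, nat_lit 1⟩,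
    ⟨false, nat_lit 8192, nat_lit 57344, nat_lit 1, nat_lit 1⟩]

def r84_3_3 : List Wr := [
    ⟨false, nat_lit 16, nat_lit 31, nat_lit 2, nat_lit 0⟩, ⟨false, nat_lit 2, nat_lit 19, nat_lit 1, nat_lit 1⟩, ⟨true, nat_lit 1, nat_lit 19, nat_lit 1, nat_lit 1⟩,
    ⟨true, nat_lit 8, nat_lit 28, nat_lit 1, nat_lit 1⟩, ⟨false, nat_lit 256, nat_lit 484, nat_lit 2, nat_lit 0⟩, ⟨false, nat_lit 32, nat_lit 292, nat_lit 1, nat_lit 1⟩,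
    ⟨true, nat_lit 4, nat_lit 316, nat_lit 2, nat_lit 0⟩, ⟨false, nat_lit 32768, nat_lit 65216, nat_lit 3, nat_lit 1⟩, ⟨false, nat_lit 2048, nat_lit 36544, nat_lit 2, nat_lit 1⟩,
    ⟨true, nat_lit 128, nat_lit 35264, nat_lit 2, nat_lit 0⟩, ⟨false, nat_lit 4096, nat_lit 38464, nat_lit 1, nat_lit 3⟩, ⟨true, nat_lit 1024, nat_lit 40512, nat_lit 2, nat_lit 1⟩,
    ⟨false, nat_lit 16384, nat_lit 57920, nat_lit 1, nat_lit 3⟩, ⟨false, nat_lit 8192, nat_lit 57920, nat_lit 2, nat_lit 0⟩, ⟨false, nat_lit 512, nat_lit 65088, nat_lit 2, nat_lit 3⟩,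
    ⟨false, nat_lit 64, nat_lit 65472, nat_lit 3, nat_lit 2⟩]

def l84_3 : List (Nat × List Wr × Nat) := [
  (nat_lit 2, r84_3_0, nat_lit 0), (nat_lit 6, r84_3_1, nat_lit 0), (nat_lit 6, r84_3_2, nat_lit 0),
  (nat_lit 6, r84_3_3, nat_lit 0)]

def r84_4_0 : List Wr := [
    ⟨false, nat_lit 16, nat_lit 31, nat_lit 2, nat_lit 0⟩, ⟨false, nat_lit 2, nat_lit 19, nat_lit 1, nat_lit 1⟩, ⟨true, nat_lit 1, nat_lit 19, nat_lit 1, nat_lit 1⟩,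
    ⟨true, nat_lit 8, nat_lit 28, nat_lit 1, nat_lit 1⟩, ⟨false, nat_lit 256, nat_lit 484, nat_lit 2, nat_lit 0⟩, ⟨false, nat_lit 32, nat_lit 292, nat_lit 1, nat_lit 1⟩,
    ⟨true, nat_lit 4, nat_lit 316, nat_lit 2, nat_lit 0⟩, ⟨true, nat_lit 128, nat_lit 448, nat_lit 1, nat_lit 1⟩, ⟨true, nat_lit 2048, nat_lit 3648, nat_lit 1, nat_lit 2⟩,
    ⟨false, nat_lit 32768, nat_lit 63040, nat_lit 2, nat_lit 2⟩, ⟨false, nat_lit 1024, nat_lit 36416, nat_lit 2, nat_lit 0⟩, ⟨true, nat_lit 64, nat_lit 36288, nat_lit 2, nat_lit 1⟩,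
    ⟨false, nat_lit 16384, nat_lit 61952, nat_lit 2, nat_lit 0⟩, ⟨false, nat_lit 4096, nat_lit 53760, nat_lit 1, nat_lit 2⟩, ⟨true, nat_lit 512, nat_lit 56832, nat_lit 2, nat_lit 1⟩,
    ⟨false, nat_lit 8192, nat_lit 57344, nat_lit 1, nat_lit 1⟩]

def l84_4 : List (Nat × List Wr × Nat) := [
  (nat_lit 4, r84_4_0, nat_lit 0)]

def r84_5_0 : List Wr := [
    ⟨false, nat_lit 16, nat_lit 31, nat_lit 2, nat_lit 0⟩, ⟨false, nat_lit 2, nat_lit 19, nat_lit 1, nat_lit 1⟩, ⟨true, nat_lit 1, nat_lit 19, nat_lit 1, nat_lit 1⟩,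
    ⟨true, nat_lit 8, nat_lit 28, nat_lit 1, nat_lit 1⟩, ⟨false, nat_lit 256, nat_lit 484, nat_lit 2, nat_lit 0⟩, ⟨false, nat_lit 32, nat_lit 292, nat_lit 1, nat_lit 1⟩,
    ⟨true, nat_lit 4, nat_lit 316, nat_lit 2, nat_lit 0⟩, ⟨false, nat_lit 2048, nat_lit 3776, nat_lit 1, nat_lit 3⟩, ⟨true, nat_lit 128, nat_lit 2496, nat_lit 1, nat_lit 2⟩,
    ⟨false, nat_lit 32768, nat_lit 63040, nat_lit 2, nat_lit 2⟩, ⟨false, nat_lit 1024, nat_lit 36416, nat_lit 2, nat_lit 0⟩, ⟨true, nat_lit 64, nat_lit 36288, nat_lit 2, nat_lit 1⟩,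
    ⟨false, nat_lit 16384, nat_lit 61952, nat_lit 2, nat_lit 0⟩, ⟨false, nat_lit 4096, nat_lit 53760, nat_lit 1, nat_lit 2⟩, ⟨true, nat_lit 512, nat_lit 56832, nat_lit 2, nat_lit 1⟩,
    ⟨false, nat_lit 8192, nat_lit 57344, nat_lit 1, nat_lit 1⟩]

def r84_5_1 : List Wr := [
    ⟨false, nat_lit 16, nat_lit 31, nat_lit 2, nat_lit 0⟩, ⟨false, nat_lit 2, nat_lit 19, nat_lit 1, nat_lit 1⟩, ⟨true, nat_lit 1, nat_lit 19, nat_lit 1, nat_lit 1⟩,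
    ⟨true, nat_lit 8, nat_lit 28, nat_lit 1, nat_lit 1⟩, ⟨false, nat_lit 256, nat_lit 484, nat_lit 2, nat_lit 0⟩, ⟨false, nat_lit 32, nat_lit 292, nat_lit 1, nat_lit 1⟩,
    ⟨true, nat_lit 4, nat_lit 316, nat_lit 2, nat_lit 0⟩, ⟨true, nat_lit 128, nat_lit 448, nat_lit 1, nat_lit 1⟩, ⟨false, nat_lit 32768, nat_lit 65088, nat_lit 2, nat_lit 3⟩,
    ⟨false, nat_lit 2048, nat_lit 36416, nat_lit 2, nat_lit 0⟩, ⟨true, nat_lit 64, nat_lit 35264, nat_lit 2, nat_lit 0⟩, ⟨true, nat_lit 1024, nat_lit 36352, nat_lit 1, nat_lit 2⟩,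
    ⟨false, nat_lit 16384, nat_lit 61952, nat_lit 2, nat_lit 0⟩, ⟨false, nat_lit 4096, nat_lit 53760, nat_lit 1, nat_lit 2⟩, ⟨true, nat_lit 512, nat_lit 56832, nat_lit 2, nat_lit 1⟩,
    ⟨false, nat_lit 8192, nat_lit 57344, nat_lit 1, nat_lit 1⟩]

def l84_5 : List (Nat × List Wr × Nat) := [
  (nat_lit 5, r84_5_0, nat_lit 1), (nat_lit 4, r84_5_1, nat_lit 0)]

end Pool.Agent.EC4.Run
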