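import Pool.Agent.Lib.MP_ec4eff_co.R5.Srch

/-! Generated file (project R5): results of the first lune -/

namespace Pool.Agent.EC4.Run

def r67_0_0 : List Wr := [
    ⟨false, nat_lit 512, nat_lit 1023, nat_lit 3, nat_lit 2⟩, ⟨false, nat_lit 8, nat_lit 527, nat_lit 2, nat_lit 0⟩, ⟨true, nat_lit 1, nat_lit 521, nat_lit 1, nat_lit 1⟩,
    ⟨false, nat_lit 64, nat_lit 630, nat_lit 2, nat_lit 1⟩, ⟨false, nat_lit 16, nat_lit 598, nat_lit 1, nat_lit 3⟩, ⟨true, nat_lit 4, nat_lit 606, nat_lit 2, nat_lit 1⟩,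
    ⟨true, nat_lit 32, nat_lit 610, nat_lit 1, nat_lit 2⟩, ⟨false, nat_lit 4096, nat_lit 7554, nat_lit 2, nat_lit 1⟩, ⟨false, nat_lit 256, nat_lit 4994, nat_lit 2, nat_lit 0⟩,
    ⟨true, nat_lit 2, nat_lit 4990, nat_lit 3, nat_lit 1⟩, ⟨true, nat_lit 2048, nat_lit 7296, nat_lit 1, nat_lit 2⟩, ⟨false, nat_lit 32768, nat_lit 58496, nat_lit 2, nat_lit 0⟩,
    ⟨false, nat_lit 1024, nat_lit 40064, nat_lit 2, nat_lit 0⟩, ⟨true, nat_lit 128, nat_lit 40832, nat_lit 2, nat_lit 2⟩, ⟨false, nat_lit 16384, nat_lit 57344, nat_lit 1, nat_lit 1⟩,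
    ⟨false, nat_lit 8192, nat_lit 57344, nat_lit 1, nat_lit 1⟩]

def r67_0_1 : List Wr := [
    ⟨false, nat_lit 512, nat_lit 1023, nat_lit 3, nat_lit 2⟩, ⟨false, nat_lit 8, nat_lit 527, nat_lit 2, nat_lit 0⟩, ⟨true, nat_lit 1, nat_lit 521, nat_lit 1, nat_lit 1⟩,
    ⟨false, nat_lit 64, nat_lit 630, nat_lit 2, nat_lit 1⟩, ⟨false, nat_lit 16, nat_lit 598, nat_lit 1, nat_lit 3⟩, ⟨true, nat_lit 4, nat_lit 606, nat_lit 2, nat_lit 1⟩,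
    ⟨true, nat_lit 32, nat_lit 610, nat_lit 1, nat_lit 2⟩, ⟨false, nat_lit 4096, nat_lit 7554, nat_lit 2, nat_lit 1⟩, ⟨false, nat_lit 256, nat_lit 4994, nat_lit 2, nat_lit 0⟩,
    ⟨true, nat_lit 2, nat_lit 4990, nat_lit 3, nat_lit 1⟩, ⟨false, nat_lit 32768, nat_lit 60544, nat_lit 2, nat_lit 1⟩, ⟨false, nat_lit 2048, nat_lit 40064, nat_lit 2, nat_lit 0⟩,
    ⟨true, nat_lit 128, nat_lit 39808, nat_lit 2, nat_lit 1⟩, ⟨true, nat_lit 1024, nat_lit 39936, nat_lit 1, nat_lit 2⟩, ⟨false, nat_lit 16384, nat_lit 57344, nat_lit 1, nat_lit 1⟩,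
    ⟨false, nat_lit 8192, nat_lit 57344, nat_lit 1, nat_lit 1⟩]

def r67_0_2 : List Wr := [
    ⟨false, nat_lit 64, nat_lit 127, nat_lit 2, nat_lit 2⟩, ⟨false, nat_lit 8, nat_lit 79, nat_lit 2, nat_lit 0⟩, ⟨true, nat_lit 1, nat_lit 73, nat_lit 1, nat_lit 1⟩,
    ⟨true, nat_lit 32, nat_lit 118, nat_lit 1, nat_lit 3⟩, ⟨false, nat_lit 512, nat_lit 918, nat_lit 2, nat_lit 1⟩, ⟨false, nat_lit 16, nat_lit 630, nat_lit 2, nat_lit 1⟩,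
    ⟨true, nat_lit 4, nat_lit 638, nat_lit 2, nat_lit 2⟩, ⟨false, nat_lit 4096, nat_lit 7554, nat_lit 2, nat_lit 1⟩, ⟨false, nat_lit 256, nat_lit 4994, nat_lit 2, nat_lit 0⟩,
    ⟨true, nat_lit 2, nat_lit 4990, nat_lit 3, nat_lit 1⟩, ⟨true, nat_lit 2048, nat_lit 7296, nat_lit 1, nat_lit 2⟩, ⟨false, nat_lit 32768, nat_lit 58496, nat_lit 2, nat_lit 0⟩,
    ⟨false, nat_lit 1024, nat_lit 40064, nat_lit 2, nat_lit 0⟩, ⟨true, nat_lit 128, nat_lit 40832, nat_lit 2, nat_lit 2⟩, ⟨false, nat_lit 16384, nat_lit 57344, nat_lit 1, nat_lit 1⟩,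
    ⟨false, nat_lit 8192, nat_lit 57344, nat_lit 1, nat_lit 1⟩]

def r67_0_3 : List Wr := [
    ⟨false, nat_lit 64, nat_lit 127, nat_lit 2, nat_lit 2⟩, ⟨false, nat_lit 8, nat_lit 79, nat_lit 2, nat_lit 0⟩, ⟨true, nat_lit 1, nat_lit 73, nat_lit 1, nat_lit 1⟩,
    ⟨true, nat_lit 32, nat_lit 118, nat_lit 1, nat_lit 3⟩, ⟨false, nat_lit 512, nat_lit 918, nat_lit 2, nat_lit 1⟩, ⟨false, nat_lit 16, nat_lit 630, nat_lit 2, nat_lit 1⟩,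
    ⟨true, nat_lit 4, nat_lit 638, nat_lit 2, nat_lit 2⟩, ⟨false, nat_lit 4096, nat_lit 7554, nat_lit 2, nat_lit 1⟩, ⟨false, nat_lit 256, nat_lit 4994, nat_lit 2, nat_lit 0⟩,
    ⟨true, nat_lit 2, nat_lit 4990, nat_lit 3, nat_lit 1⟩, ⟨false, nat_lit 32768, nat_lit 60544, nat_lit 2, nat_lit 1⟩, ⟨false, nat_lit 2048, nat_lit 40064, nat_lit 2, nat_lit 0⟩,
    ⟨true, nat_lit 128, nat_lit 39808, nat_lit 2, nat_lit 1⟩, ⟨true, nat_lit 1024, nat_lit 39936, nat_lit 1, nat_lit 2⟩, ⟨false, nat_lit 16384, nat_lit 57344, nat_lit 1, nat_lit 1⟩,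
    ⟨false, nat_lit 8192, nat_lit 57344, nat_lit 1, nat_lit 1⟩]

def r67_0_4 : List Wr := [
    ⟨false, nat_lit 64, nat_lit 127, nat_lit 2, nat_lit 2⟩, ⟨false, nat_lit 8, nat_lit 79, nat_lit 2, nat_lit 0⟩, ⟨true, nat_lit 1, nat_lit 73, nat_lit 1, nat_lit 1⟩,
    ⟨false, nat_lit 512, nat_lit 950, nat_lit 2, nat_lit 2⟩, ⟨false, nat_lit 32, nat_lit 630, nat_lit 2, nat_lit 1⟩, ⟨true, nat_lit 4, nat_lit 622, nat_lit 2, nat_lit 1⟩,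
    ⟨true, nat_lit 16, nat_lit 626, nat_lit 1, nat_lit 3⟩, ⟨false, nat_lit 4096, nat_lit 7554, nat_lit 2, nat_lit 1⟩, ⟨false, nat_lit 256, nat_lit 4994, nat_lit 2, nat_lit 0⟩,
    ⟨true, nat_lit 2, nat_lit 4990, nat_lit 3, nat_lit 1⟩, ⟨true, nat_lit 2048, nat_lit 7296, nat_lit 1, nat_lit 2⟩, ⟨false, nat_lit 32768, nat_lit 58496, nat_lit 2, nat_lit 0⟩,
    ⟨false, nat_lit 1024, nat_lit 40064, nat_lit 2, nat_lit 0⟩, ⟨true, nat_lit 128, nat_lit 40832, nat_lit 2, nat_lit 2⟩, ⟨false, nat_lit 16384, nat_lit 57344, nat_lit 1, nat_lit 1⟩,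
    ⟨false, nat_lit 8192, nat_lit 57344, nat_lit 1, nat_lit 1⟩]

def r67_0_5 : List Wr := [
    ⟨false, nat_lit 64, nat_lit 127, nat_lit 2, nat_lit 2⟩, ⟨false, nat_lit 8, nat_lit 79, nat_lit 2, nat_lit 0⟩, ⟨true, nat_lit 1, nat_lit 73, nat_lit 1, nat_lit 1⟩,
    ⟨false, nat_lit 512, nat_lit 950, nat_lit 2, nat_lit 2⟩, ⟨false, nat_lit 32, nat_lit 630, nat_lit 2, nat_lit 1⟩, ⟨true, nat_lit 4, nat_lit 622, nat_lit 2, nat_lit 1⟩,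
    ⟨true, nat_lit 16, nat_lit 626, nat_lit 1, nat_lit 3⟩, ⟨false, nat_lit 4096, nat_lit 7554, nat_lit 2, nat_lit 1⟩, ⟨false, nat_lit 256, nat_lit 4994, nat_lit 2, nat_lit 0⟩,
    ⟨true, nat_lit 2, nat_lit 4990, nat_lit 3, nat_lit 1⟩, ⟨false, nat_lit 32768, nat_lit 60544, nat_lit 2, nat_lit 1⟩, ⟨false, nat_lit 2048, nat_lit 40064, nat_lit 2, nat_lit 0⟩,
    ⟨true, nat_lit 128, nat_lit 39808, nat_lit 2, nat_lit 1⟩, ⟨true, nat_lit 1024, nat_lit 39936, nat_lit 1, nat_lit 2⟩, ⟨false, nat_lit 16384, nat_lit 57344, nat_lit 1, nat_lit 1⟩,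
    ⟨false, nat_lit 8192, nat_lit 57344, nat_lit 1, nat_lit 1⟩]

def r67_0_6 : List Wr := [
    ⟨false, nat_lit 512, nat_lit 1023, nat_lit 3, nat_lit 2⟩, ⟨false, nat_lit 8, nat_lit 527, nat_lit 2, nat_lit 0⟩, ⟨true, nat_lit 1, nat_lit 521, nat_lit 1, nat_lit 1⟩,
    ⟨false, nat_lit 4096, nat_lit 7670, nat_lit 3, nat_lit 2⟩, ⟨false, nat_lit 64, nat_lit 4726, nat_lit 2, nat_lit 2⟩, ⟨true, nat_lit 4, nat_lit 4686, nat_lit 2, nat_lit 1⟩,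
    ⟨true, nat_lit 256, nat_lit 5042, nat_lit 2, nat_lit 2⟩, ⟨false, nat_lit 32768, nat_lit 60594, nat_lit 3, nat_lit 1⟩, ⟨false, nat_lit 32, nat_lit 37746, nat_lit 2, nat_lit 3⟩,
    ⟨true, nat_lit 16, nat_lit 37746, nat_lit 2, nat_lit 3⟩, ⟨false, nat_lit 2048, nat_lit 40066, nat_lit 2, nat_lit 1⟩, ⟨true, nat_lit 128, nat_lit 39810, nat_lit 2, nat_lit 2⟩,
    ⟨false, nat_lit 16384, nat_lit 58370, nat_lit 2, nat_lit 0⟩, ⟨false, nat_lit 1024, nat_lit 56322, nat_lit 2, nat_lit 1⟩, ⟨true, nat_lit 2, nat_lit 57342, nat_lit 5, nat_lit 0⟩,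
    ⟨false, nat_lit 8192, nat_lit 57344, nat_lit 1, nat_lit 1⟩]

def r67_0_7 : List Wr := [
    ⟨false, nat_lit 512, nat_lit 1023, nat_lit 3, nat_lit 2⟩, ⟨false, nat_lit 8, nat_lit 527, nat_lit 2, nat_lit 0⟩, ⟨true, nat_lit 1, nat_lit 521, nat_lit 1, nat_lit 1⟩,
    ⟨false, nat_lit 32768, nat_lit 65014, nat_lit 4, nat_lit 2⟩, ⟨false, nat_lit 4096, nat_lit 40438, nat_lit 3, nat_lit 3⟩, ⟨true, nat_lit 32, nat_lit 37430, nat_lit 2, nat_lit 2⟩,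
    ⟨false, nat_lit 256, nat_lit 37846, nat_lit 3, nat_lit 1⟩, ⟨true, nat_lit 16, nat_lit 37686, nat_lit 2, nat_lit 3⟩, ⟨false, nat_lit 2048, nat_lit 40134, nat_lit 3, nat_lit 0⟩,
    ⟨false, nat_lit 64, nat_lit 39750, nat_lit 2, nat_lit 3⟩, ⟨true, nat_lit 4, nat_lit 39806, nat_lit 3, nat_lit 3⟩, ⟨true, nat_lit 128, nat_lit 39810, nat_lit 2, nat_lit 2⟩,
    ⟨false, nat_lit 16384, nat_lit 58370, nat_lit 2, nat_lit 0⟩, ⟨false, nat_lit 1024, nat_lit 56322, nat_lit 2, nat_lit 1⟩, ⟨true, nat_lit 2, nat_lit 57342, nat_lit 5, nat_lit 0⟩,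
    ⟨false, nat_lit 8192, nat_lit 57344, nat_lit 1, nat_lit 1⟩]

def r67_0_8 : List Wr := [
    ⟨false, nat_lit 512, nat_lit 1023, nat_lit 3, nat_lit 2⟩, ⟨false, nat_lit 8, nat_lit 527, nat_lit 2, nat_lit 0⟩, ⟨true, nat_lit 1, nat_lit 521, nat_lit 1, nat_lit 1⟩,
    ⟨true, nat_lit 32, nat_lit 566, nat_lit 1, nat_lit 3⟩, ⟨false, nat_lit 4096, nat_lit 7638, nat_lit 3, nat_lit 1⟩, ⟨false, nat_lit 16, nat_lit 4662, nat_lit 2, nat_lit 1⟩,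
    ⟨true, nat_lit 4, nat_lit 4670, nat_lit 2, nat_lit 2⟩, ⟨true, nat_lit 256, nat_lit 5058, nat_lit 2, nat_lit 1⟩, ⟨false, nat_lit 2048, nat_lit 7362, nat_lit 2, nat_lit 1⟩,
    ⟨false, nat_lit 128, nat_lit 7106, nat_lit 2, nat_lit 2⟩, ⟨true, nat_lit 64, nat_lit 7106, nat_lit 2, nat_lit 2⟩, ⟨false, nat_lit 32768, nat_lit 58370, nat_lit 2, nat_lit 0⟩,
    ⟨false, nat_lit 1024, nat_lit 39938, nat_lit 2, nat_lit 0⟩, ⟨true, nat_lit 2, nat_lit 40958, nat_lit 4, nat_lit 2⟩, ⟨false, nat_lit 16384, nat_lit 57344, nat_lit 1, nat_lit 1⟩,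
    ⟨false, nat_lit 8192, nat_lit 57344, nat_lit 1, nat_lit 1⟩]

def r67_0_9 : List Wr := [
    ⟨false, nat_lit 512, nat_lit 1023, nat_lit 3, nat_lit 2⟩, ⟨false, nat_lit 8, nat_lit 527, nat_lit 2, nat_lit 0⟩, ⟨true, nat_lit 1, nat_lit 521, nat_lit 1, nat_lit 1⟩,
    ⟨false, nat_lit 4096, nat_lit 7670, nat_lit 3, nat_lit 2⟩, ⟨false, nat_lit 32, nat_lit 4662, nat_lit 2, nat_lit 1⟩, ⟨true, nat_lit 4, nat_lit 4654, nat_lit 2, nat_lit 1⟩,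
    ⟨true, nat_lit 256, nat_lit 5074, nat_lit 2, nat_lit 2⟩, ⟨false, nat_lit 32768, nat_lit 60626, nat_lit 3, nat_lit 1⟩, ⟨false, nat_lit 64, nat_lit 37714, nat_lit 2, nat_lit 2⟩,
    ⟨true, nat_lit 16, nat_lit 37746, nat_lit 2, nat_lit 3⟩, ⟨false, nat_lit 2048, nat_lit 40066, nat_lit 2, nat_lit 1⟩, ⟨true, nat_lit 128, nat_lit 39810, nat_lit 2, nat_lit 2⟩,
    ⟨false, nat_lit 16384, nat_lit 58370, nat_lit 2, nat_lit 0⟩, ⟨false, nat_lit 1024, nat_lit 56322, nat_lit 2, nat_lit 1⟩, ⟨true, nat_lit 2, nat_lit 57342, nat_lit 5, nat_lit 0⟩,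
    ⟨false, nat_lit 8192, nat_lit 57344, nat_lit 1, nat_lit 1⟩]

def r67_0_10 : List Wr := [
    ⟨false, nat_lit 512, nat_lit 1023, nat_lit 3, nat_lit 2⟩, ⟨false, nat_lit 8, nat_lit 527, nat_lit 2, nat_lit 0⟩, ⟨true, nat_lit 1, nat_lit 521, nat_lit 1, nat_lit 1⟩,
    ⟨false, nat_lit 4096, nat_lit 7670, nat_lit 3, nat_lit 2⟩, ⟨false, nat_lit 32, nat_lit 4662, nat_lit 2, nat_lit 1⟩, ⟨true, nat_lit 4, nat_lit 4654, nat_lit 2, nat_lit 1⟩,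
    ⟨true, nat_lit 16, nat_lit 4658, nat_lit 1, nat_lit 3⟩, ⟨true, nat_lit 256, nat_lit 5058, nat_lit 2, nat_lit 1⟩, ⟨false, nat_lit 2048, nat_lit 7362, nat_lit 2, nat_lit 1⟩,
    ⟨false, nat_lit 128, nat_lit 7106, nat_lit 2, nat_lit 2⟩, ⟨true, nat_lit 64, nat_lit 7106, nat_lit 2, nat_lit 2⟩, ⟨false, nat_lit 32768, nat_lit 58370, nat_lit 2, nat_lit 0⟩,
    ⟨false, nat_lit 1024, nat_lit 39938, nat_lit 2, nat_lit 0⟩, ⟨true, nat_lit 2, nat_lit 40958, nat_lit 4, nat_lit 2⟩, ⟨false, nat_lit 16384, nat_lit 57344, nat_lit 1, nat_lit 1⟩,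
    ⟨false, nat_lit 8192, nat_lit 57344, nat_lit 1, nat_lit 1⟩]

def l67_0 : List (Nat × List Wr × Nat) := [
  (nat_lit 6, r67_0_0, nat_lit 0), (nat_lit 6, r67_0_1, nat_lit 0), (nat_lit 6, r67_0_2, nat_lit 0),
  (nat_lit 6, r67_0_3, nat_lit 0), (nat_lit 6, r67_0_4, nat_lit 0), (nat_lit 6, r67_0_5, nat_lit 0),
  (nat_lit 6, r67_0_6, nat_lit 0), (nat_lit 6, r67_0_7, nat_lit 0), (nat_lit 6, r67_0_8, nat_lit 0),
  (nat_lit 4, r67_0_9, nat_lit 0), (nat_lit 6, r67_0_10, nat_lit 0)]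

def r67_1_0 : List Wr := [
    ⟨false, nat_lit 512, nat_lit 1023, nat_lit 3, nat_lit 2⟩, ⟨false, nat_lit 8, nat_lit 527, nat_lit 2, nat_lit 0⟩, ⟨true, nat_lit 1, nat_lit 521, nat_lit 1, nat_lit 1⟩,
    ⟨false, nat_lit 4096, nat_lit 7670, nat_lit 3, nat_lit 2⟩, ⟨false, nat_lit 32, nat_lit 4662, nat_lit 2, nat_lit 1⟩, ⟨true, nat_lit 4, nat_lit 4654, nat_lit 2, nat_lit 1⟩,
    ⟨false, nat_lit 32768, nat_lit 60882, nat_lit 3, nat_lit 2⟩, ⟨false, nat_lit 256, nat_lit 37842, nat_lit 3, nat_lit 0⟩, ⟨true, nat_lit 16, nat_lit 37682, nat_lit 2, nat_lit 2⟩,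
    ⟨true, nat_lit 64, nat_lit 37698, nat_lit 1, nat_lit 4⟩, ⟨false, nat_lit 2048, nat_lit 40066, nat_lit 2, nat_lit 1⟩, ⟨true, nat_lit 128, nat_lit 39810, nat_lit 2, nat_lit 2⟩,
    ⟨false, nat_lit 16384, nat_lit 58370, nat_lit 2, nat_lit 0⟩, ⟨false, nat_lit 1024, nat_lit 56322, nat_lit 2, nat_lit 1⟩, ⟨true, nat_lit 2, nat_lit 57342, nat_lit 5, nat_lit 0⟩,
    ⟨false, nat_lit 8192, nat_lit 57344, nat_lit 1, nat_lit 1⟩]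

def r67_1_1 : List Wr := [
    ⟨false, nat_lit 4096, nat_lit 8191, nat_lit 4, nat_lit 2⟩, ⟨false, nat_lit 8, nat_lit 4111, nat_lit 2, nat_lit 0⟩, ⟨true, nat_lit 1, nat_lit 4105, nat_lit 1, nat_lit 1⟩,
    ⟨false, nat_lit 512, nat_lit 5110, nat_lit 2, nat_lit 4⟩, ⟨false, nat_lit 256, nat_lit 5110, nat_lit 3, nat_lit 1⟩, ⟨false, nat_lit 16, nat_lit 4886, nat_lit 2, nat_lit 1⟩,
    ⟨true, nat_lit 4, nat_lit 4894, nat_lit 2, nat_lit 2⟩, ⟨false, nat_lit 32768, nat_lit 60642, nat_lit 3, nat_lit 1⟩, ⟨false, nat_lit 64, nat_lit 37730, nat_lit 2, nat_lit 2⟩,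
    ⟨true, nat_lit 2, nat_lit 37726, nat_lit 3, nat_lit 1⟩, ⟨false, nat_lit 2048, nat_lit 40096, nat_lit 2, nat_lit 1⟩, ⟨true, nat_lit 128, nat_lit 39840, nat_lit 2, nat_lit 2⟩,
    ⟨false, nat_lit 16384, nat_lit 58400, nat_lit 2, nat_lit 0⟩, ⟨false, nat_lit 1024, nat_lit 56352, nat_lit 2, nat_lit 1⟩, ⟨true, nat_lit 32, nat_lit 57312, nat_lit 3, nat_lit 2⟩,
    ⟨false, nat_lit 8192, nat_lit 57344, nat_lit 1, nat_lit 1⟩]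

def l67_1 : List (Nat × List Wr × Nat) := [
  (nat_lit 4, r67_1_0, nat_lit 0), (nat_lit 6, r67_1_1, nat_lit 0)]

end Pool.Agent.EC4.Run
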