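import Pool.Agent.Lib.MP_ec4eff_co.R5.Srch

/-! Generated file (project R5): results of the first lune -/

namespace Pool.Agent.EC4.Run

def r79_0_0 : List Wr := [
    ⟨false, nat_lit 2048, nat_lit 4095, nat_lit 4, nat_lit 1⟩, ⟨false, nat_lit 16, nat_lit 2079, nat_lit 2, nat_lit 1⟩, ⟨true, nat_lit 1, nat_lit 2065, nat_lit 1, nat_lit 1⟩,
    ⟨false, nat_lit 128, nat_lit 2286, nat_lit 2, nat_lit 2⟩, ⟨true, nat_lit 8, nat_lit 2206, nat_lit 2, nat_lit 1⟩, ⟨false, nat_lit 256, nat_lit 2406, nat_lit 2, nat_lit 1⟩,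
    ⟨false, nat_lit 64, nat_lit 2534, nat_lit 2, nat_lit 2⟩, ⟨true, nat_lit 2, nat_lit 2522, nat_lit 2, nat_lit 2⟩, ⟨true, nat_lit 32, nat_lit 2532, nat_lit 2, nat_lit 1⟩,
    ⟨false, nat_lit 16384, nat_lit 30212, nat_lit 2, nat_lit 1⟩, ⟨false, nat_lit 1024, nat_lit 19972, nat_lit 2, nat_lit 0⟩, ⟨true, nat_lit 4, nat_lit 19964, nat_lit 3, nat_lit 2⟩,
    ⟨true, nat_lit 8192, nat_lit 29184, nat_lit 1, nat_lit 2⟩, ⟨false, nat_lit 32768, nat_lit 37376, nat_lit 1, nat_lit 1⟩, ⟨false, nat_lit 4096, nat_lit 61952, nat_lit 2, nat_lit 0⟩,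
    ⟨false, nat_lit 512, nat_lit 65024, nat_lit 2, nat_lit 2⟩]

def r79_0_1 : List Wr := [
    ⟨false, nat_lit 2048, nat_lit 4095, nat_lit 4, nat_lit 1⟩, ⟨false, nat_lit 16, nat_lit 2079, nat_lit 2, nat_lit 1⟩, ⟨true, nat_lit 1, nat_lit 2065, nat_lit 1, nat_lit 1⟩,
    ⟨false, nat_lit 128, nat_lit 2286, nat_lit 2, nat_lit 2⟩, ⟨true, nat_lit 8, nat_lit 2206, nat_lit 2, nat_lit 1⟩, ⟨false, nat_lit 256, nat_lit 2406, nat_lit 2, nat_lit 1⟩,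
    ⟨false, nat_lit 64, nat_lit 2534, nat_lit 2, nat_lit 2⟩, ⟨true, nat_lit 2, nat_lit 2522, nat_lit 2, nat_lit 2⟩, ⟨true, nat_lit 32, nat_lit 2532, nat_lit 2, nat_lit 1⟩,
    ⟨false, nat_lit 16384, nat_lit 30212, nat_lit 2, nat_lit 1⟩, ⟨false, nat_lit 1024, nat_lit 19972, nat_lit 2, nat_lit 0⟩, ⟨true, nat_lit 4, nat_lit 19964, nat_lit 3, nat_lit 2⟩,
    ⟨false, nat_lit 32768, nat_lit 45568, nat_lit 1, nat_lit 2⟩, ⟨false, nat_lit 8192, nat_lit 61952, nat_lit 2, nat_lit 0⟩, ⟨true, nat_lit 512, nat_lit 60928, nat_lit 2, nat_lit 1⟩,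
    ⟨false, nat_lit 4096, nat_lit 61440, nat_lit 1, nat_lit 2⟩]

def r79_0_2 : List Wr := [
    ⟨false, nat_lit 16384, nat_lit 32767, nat_lit 5, nat_lit 1⟩, ⟨false, nat_lit 16, nat_lit 16415, nat_lit 2, nat_lit 1⟩, ⟨true, nat_lit 1, nat_lit 16401, nat_lit 1, nat_lit 1⟩,
    ⟨true, nat_lit 128, nat_lit 16622, nat_lit 2, nat_lit 2⟩, ⟨false, nat_lit 8192, nat_lit 32622, nat_lit 4, nat_lit 1⟩, ⟨false, nat_lit 2048, nat_lit 28526, nat_lit 3, nat_lit 3⟩,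
    ⟨true, nat_lit 8, nat_lit 26782, nat_lit 3, nat_lit 0⟩, ⟨false, nat_lit 1024, nat_lit 28518, nat_lit 3, nat_lit 2⟩, ⟨true, nat_lit 64, nat_lit 27878, nat_lit 3, nat_lit 1⟩,
    ⟨false, nat_lit 512, nat_lit 28454, nat_lit 3, nat_lit 1⟩, ⟨false, nat_lit 256, nat_lit 28454, nat_lit 2, nat_lit 4⟩, ⟨true, nat_lit 2, nat_lit 28634, nat_lit 3, nat_lit 3⟩,
    ⟨true, nat_lit 32, nat_lit 28644, nat_lit 3, nat_lit 2⟩, ⟨false, nat_lit 32768, nat_lit 36868, nat_lit 1, nat_lit 1⟩, ⟨false, nat_lit 4096, nat_lit 61444, nat_lit 2, nat_lit 0⟩,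
    ⟨false, nat_lit 4, nat_lit 65532, nat_lit 4, nat_lit 3⟩]

def r79_0_3 : List Wr := [
    ⟨true, nat_lit 1, nat_lit 1, nat_lit 0, nat_lit 2⟩, ⟨true, nat_lit 16, nat_lit 30, nat_lit 1, nat_lit 2⟩, ⟨false, nat_lit 128, nat_lit 238, nat_lit 2, nat_lit 1⟩,
    ⟨false, nat_lit 8, nat_lit 158, nat_lit 2, nat_lit 0⟩, ⟨true, nat_lit 2, nat_lit 154, nat_lit 1, nat_lit 2⟩, ⟨false, nat_lit 16384, nat_lit 32612, nat_lit 3, nat_lit 2⟩,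
    ⟨false, nat_lit 64, nat_lit 16612, nat_lit 2, nat_lit 0⟩, ⟨true, nat_lit 4, nat_lit 16604, nat_lit 2, nat_lit 1⟩, ⟨false, nat_lit 2048, nat_lit 20256, nat_lit 2, nat_lit 1⟩,
    ⟨true, nat_lit 256, nat_lit 18720, nat_lit 1, nat_lit 2⟩, ⟨false, nat_lit 8192, nat_lit 30240, nat_lit 2, nat_lit 1⟩, ⟨false, nat_lit 1024, nat_lit 28192, nat_lit 2, nat_lit 1⟩,
    ⟨true, nat_lit 32, nat_lit 28128, nat_lit 3, nat_lit 0⟩, ⟨false, nat_lit 32768, nat_lit 37376, nat_lit 1, nat_lit 1⟩, ⟨false, nat_lit 4096, nat_lit 61952, nat_lit 2, nat_lit 0⟩,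
    ⟨false, nat_lit 512, nat_lit 65024, nat_lit 2, nat_lit 2⟩]

def r79_0_4 : List Wr := [
    ⟨true, nat_lit 1, nat_lit 1, nat_lit 0, nat_lit 2⟩, ⟨false, nat_lit 128, nat_lit 254, nat_lit 2, nat_lit 2⟩, ⟨false, nat_lit 16, nat_lit 158, nat_lit 2, nat_lit 0⟩,
    ⟨true, nat_lit 2, nat_lit 146, nat_lit 1, nat_lit 1⟩, ⟨false, nat_lit 2048, nat_lit 3948, nat_lit 3, nat_lit 0⟩, ⟨false, nat_lit 64, nat_lit 2284, nat_lit 2, nat_lit 1⟩,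
    ⟨true, nat_lit 8, nat_lit 2268, nat_lit 2, nat_lit 1⟩, ⟨false, nat_lit 256, nat_lit 2340, nat_lit 1, nat_lit 2⟩, ⟨true, nat_lit 32, nat_lit 2532, nat_lit 2, nat_lit 1⟩,
    ⟨false, nat_lit 16384, nat_lit 30212, nat_lit 2, nat_lit 1⟩, ⟨false, nat_lit 1024, nat_lit 19972, nat_lit 2, nat_lit 0⟩, ⟨true, nat_lit 4, nat_lit 19964, nat_lit 3, nat_lit 2⟩,
    ⟨true, nat_lit 8192, nat_lit 29184, nat_lit 1, nat_lit 2⟩, ⟨false, nat_lit 32768, nat_lit 37376, nat_lit 1, nat_lit 1⟩, ⟨false, nat_lit 4096, nat_lit 61952, nat_lit 2, nat_lit 0⟩,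
    ⟨false, nat_lit 512, nat_lit 65024, nat_lit 2, nat_lit 2⟩]

def r79_0_5 : List Wr := [
    ⟨false, nat_lit 16, nat_lit 31, nat_lit 2, nat_lit 0⟩, ⟨false, nat_lit 2, nat_lit 19, nat_lit 1, nat_lit 1⟩, ⟨true, nat_lit 1, nat_lit 19, nat_lit 1, nat_lit 1⟩,
    ⟨true, nat_lit 128, nat_lit 236, nat_lit 1, nat_lit 3⟩, ⟨false, nat_lit 2048, nat_lit 3948, nat_lit 3, nat_lit 0⟩, ⟨false, nat_lit 64, nat_lit 2284, nat_lit 2, nat_lit 1⟩,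
    ⟨true, nat_lit 8, nat_lit 2268, nat_lit 2, nat_lit 1⟩, ⟨false, nat_lit 256, nat_lit 2340, nat_lit 1, nat_lit 2⟩, ⟨true, nat_lit 32, nat_lit 2532, nat_lit 2, nat_lit 1⟩,
    ⟨false, nat_lit 16384, nat_lit 30212, nat_lit 2, nat_lit 1⟩, ⟨false, nat_lit 1024, nat_lit 19972, nat_lit 2, nat_lit 0⟩, ⟨true, nat_lit 4, nat_lit 19964, nat_lit 3, nat_lit 2⟩,
    ⟨true, nat_lit 8192, nat_lit 29184, nat_lit 1, nat_lit 2⟩, ⟨false, nat_lit 32768, nat_lit 37376, nat_lit 1, nat_lit 1⟩, ⟨false, nat_lit 4096, nat_lit 61952, nat_lit 2, nat_lit 0⟩,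
    ⟨false, nat_lit 512, nat_lit 65024, nat_lit 2, nat_lit 2⟩]

def r79_0_6 : List Wr := [
    ⟨true, nat_lit 1, nat_lit 1, nat_lit 0, nat_lit 2⟩, ⟨false, nat_lit 128, nat_lit 254, nat_lit 2, nat_lit 2⟩, ⟨false, nat_lit 16, nat_lit 158, nat_lit 2, nat_lit 0⟩,
    ⟨true, nat_lit 2, nat_lit 146, nat_lit 1, nat_lit 1⟩, ⟨false, nat_lit 2048, nat_lit 3948, nat_lit 3, nat_lit 0⟩, ⟨false, nat_lit 64, nat_lit 2284, nat_lit 2, nat_lit 1⟩,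
    ⟨true, nat_lit 8, nat_lit 2268, nat_lit 2, nat_lit 1⟩, ⟨false, nat_lit 256, nat_lit 2340, nat_lit 1, nat_lit 2⟩, ⟨true, nat_lit 32, nat_lit 2532, nat_lit 2, nat_lit 1⟩,
    ⟨false, nat_lit 16384, nat_lit 30212, nat_lit 2, nat_lit 1⟩, ⟨false, nat_lit 1024, nat_lit 19972, nat_lit 2, nat_lit 0⟩, ⟨true, nat_lit 4, nat_lit 19964, nat_lit 3, nat_lit 2⟩,
    ⟨false, nat_lit 32768, nat_lit 45568, nat_lit 1, nat_lit 2⟩, ⟨false, nat_lit 8192, nat_lit 61952, nat_lit 2, nat_lit 0⟩, ⟨true, nat_lit 512, nat_lit 60928, nat_lit 2, nat_lit 1⟩,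
    ⟨false, nat_lit 4096, nat_lit 61440, nat_lit 1, nat_lit 2⟩]

def r79_0_7 : List Wr := [
    ⟨false, nat_lit 16, nat_lit 31, nat_lit 2, nat_lit 0⟩, ⟨false, nat_lit 2, nat_lit 19, nat_lit 1, nat_lit 1⟩, ⟨true, nat_lit 1, nat_lit 19, nat_lit 1, nat_lit 1⟩,
    ⟨true, nat_lit 128, nat_lit 236, nat_lit 1, nat_lit 3⟩, ⟨false, nat_lit 2048, nat_lit 3948, nat_lit 3, nat_lit 0⟩, ⟨false, nat_lit 64, nat_lit 2284, nat_lit 2, nat_lit 1⟩,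
    ⟨true, nat_lit 8, nat_lit 2268, nat_lit 2, nat_lit 1⟩, ⟨false, nat_lit 256, nat_lit 2340, nat_lit 1, nat_lit 2⟩, ⟨true, nat_lit 32, nat_lit 2532, nat_lit 2, nat_lit 1⟩,
    ⟨false, nat_lit 16384, nat_lit 30212, nat_lit 2, nat_lit 1⟩, ⟨false, nat_lit 1024, nat_lit 19972, nat_lit 2, nat_lit 0⟩, ⟨true, nat_lit 4, nat_lit 19964, nat_lit 3, nat_lit 2⟩,
    ⟨false, nat_lit 32768, nat_lit 45568, nat_lit 1, nat_lit 2⟩, ⟨false, nat_lit 8192, nat_lit 61952, nat_lit 2, nat_lit 0⟩, ⟨true, nat_lit 512, nat_lit 60928, nat_lit 2, nat_lit 1⟩,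
    ⟨false, nat_lit 4096, nat_lit 61440, nat_lit 1, nat_lit 2⟩]

def r79_0_8 : List Wr := [
    ⟨true, nat_lit 1, nat_lit 1, nat_lit 0, nat_lit 2⟩, ⟨false, nat_lit 128, nat_lit 254, nat_lit 2, nat_lit 2⟩, ⟨false, nat_lit 16, nat_lit 158, nat_lit 2, nat_lit 0⟩,
    ⟨true, nat_lit 2, nat_lit 146, nat_lit 1, nat_lit 1⟩, ⟨true, nat_lit 8, nat_lit 156, nat_lit 1, nat_lit 2⟩, ⟨false, nat_lit 16384, nat_lit 32612, nat_lit 3, nat_lit 2⟩,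
    ⟨false, nat_lit 64, nat_lit 16612, nat_lit 2, nat_lit 0⟩, ⟨true, nat_lit 4, nat_lit 16604, nat_lit 2, nat_lit 1⟩, ⟨false, nat_lit 2048, nat_lit 20256, nat_lit 2, nat_lit 1⟩,
    ⟨true, nat_lit 256, nat_lit 18720, nat_lit 1, nat_lit 2⟩, ⟨false, nat_lit 8192, nat_lit 30240, nat_lit 2, nat_lit 1⟩, ⟨false, nat_lit 1024, nat_lit 28192, nat_lit 2, nat_lit 1⟩,
    ⟨true, nat_lit 32, nat_lit 28128, nat_lit 3, nat_lit 0⟩, ⟨false, nat_lit 32768, nat_lit 37376, nat_lit 1, nat_lit 1⟩, ⟨false, nat_lit 4096, nat_lit 61952, nat_lit 2, nat_lit 0⟩,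
    ⟨false, nat_lit 512, nat_lit 65024, nat_lit 2, nat_lit 2⟩]

def r79_0_9 : List Wr := [
    ⟨false, nat_lit 16, nat_lit 31, nat_lit 2, nat_lit 0⟩, ⟨false, nat_lit 2, nat_lit 19, nat_lit 1, nat_lit 1⟩, ⟨true, nat_lit 1, nat_lit 19, nat_lit 1, nat_lit 1⟩,
    ⟨false, nat_lit 128, nat_lit 236, nat_lit 1, nat_lit 3⟩, ⟨true, nat_lit 8, nat_lit 156, nat_lit 1, nat_lit 2⟩, ⟨false, nat_lit 16384, nat_lit 32612, nat_lit 3, nat_lit 2⟩,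
    ⟨false, nat_lit 64, nat_lit 16612, nat_lit 2, nat_lit 0⟩, ⟨true, nat_lit 4, nat_lit 16604, nat_lit 2, nat_lit 1⟩, ⟨false, nat_lit 2048, nat_lit 20256, nat_lit 2, nat_lit 1⟩,
    ⟨true, nat_lit 256, nat_lit 18720, nat_lit 1, nat_lit 2⟩, ⟨false, nat_lit 8192, nat_lit 30240, nat_lit 2, nat_lit 1⟩, ⟨false, nat_lit 1024, nat_lit 28192, nat_lit 2, nat_lit 1⟩,
    ⟨true, nat_lit 32, nat_lit 28128, nat_lit 3, nat_lit 0⟩, ⟨false, nat_lit 32768, nat_lit 37376, nat_lit 1, nat_lit 1⟩, ⟨false, nat_lit 4096, nat_lit 61952, nat_lit 2, nat_lit 0⟩,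
    ⟨false, nat_lit 512, nat_lit 65024, nat_lit 2, nat_lit 2⟩]

def r79_0_10 : List Wr := [
    ⟨false, nat_lit 16, nat_lit 31, nat_lit 2, nat_lit 0⟩, ⟨false, nat_lit 2, nat_lit 19, nat_lit 1, nat_lit 1⟩, ⟨true, nat_lit 1, nat_lit 19, nat_lit 1, nat_lit 1⟩,
    ⟨false, nat_lit 2048, nat_lit 4076, nat_lit 3, nat_lit 1⟩, ⟨false, nat_lit 128, nat_lit 2284, nat_lit 2, nat_lit 1⟩, ⟨true, nat_lit 8, nat_lit 2204, nat_lit 2, nat_lit 0⟩,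
    ⟨false, nat_lit 1024, nat_lit 3940, nat_lit 2, nat_lit 2⟩, ⟨false, nat_lit 256, nat_lit 3428, nat_lit 2, nat_lit 1⟩, ⟨false, nat_lit 64, nat_lit 3556, nat_lit 2, nat_lit 2⟩,
    ⟨true, nat_lit 32, nat_lit 3556, nat_lit 2, nat_lit 2⟩, ⟨false, nat_lit 16384, nat_lit 29188, nat_lit 2, nat_lit 0⟩, ⟨false, nat_lit 512, nat_lit 19972, nat_lit 2, nat_lit 0⟩,
    ⟨true, nat_lit 4, nat_lit 20476, nat_lit 3, nat_lit 3⟩, ⟨false, nat_lit 8192, nat_lit 28672, nat_lit 1, nat_lit 1⟩, ⟨true, nat_lit 4096, nat_lit 28672, nat_lit 1, nat_lit 1⟩,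
    ⟨false, nat_lit 32768, nat_lit 32768, nat_lit 0, nat_lit 2⟩]

def r79_0_11 : List Wr := [
    ⟨false, nat_lit 16, nat_lit 31, nat_lit 2, nat_lit 0⟩, ⟨false, nat_lit 2, nat_lit 19, nat_lit 1, nat_lit 1⟩, ⟨true, nat_lit 1, nat_lit 19, nat_lit 1, nat_lit 1⟩,
    ⟨false, nat_lit 2048, nat_lit 4076, nat_lit 3, nat_lit 1⟩, ⟨false, nat_lit 128, nat_lit 2284, nat_lit 2, nat_lit 1⟩, ⟨true, nat_lit 8, nat_lit 2204, nat_lit 2, nat_lit 0⟩,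
    ⟨true, nat_lit 64, nat_lit 2276, nat_lit 1, nat_lit 3⟩, ⟨false, nat_lit 256, nat_lit 2340, nat_lit 1, nat_lit 2⟩, ⟨true, nat_lit 32, nat_lit 2532, nat_lit 2, nat_lit 1⟩,
    ⟨false, nat_lit 16384, nat_lit 30212, nat_lit 2, nat_lit 1⟩, ⟨false, nat_lit 1024, nat_lit 19972, nat_lit 2, nat_lit 0⟩, ⟨true, nat_lit 4, nat_lit 19964, nat_lit 3, nat_lit 2⟩,
    ⟨true, nat_lit 8192, nat_lit 29184, nat_lit 1, nat_lit 2⟩, ⟨false, nat_lit 32768, nat_lit 37376, nat_lit 1, nat_lit 1⟩, ⟨false, nat_lit 4096, nat_lit 61952, nat_lit 2, nat_lit 0⟩,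
    ⟨false, nat_lit 512, nat_lit 65024, nat_lit 2, nat_lit 2⟩]

def r79_0_12 : List Wr := [
    ⟨false, nat_lit 16, nat_lit 31, nat_lit 2, nat_lit 0⟩, ⟨false, nat_lit 2, nat_lit 19, nat_lit 1, nat_lit 1⟩, ⟨true, nat_lit 1, nat_lit 19, nat_lit 1, nat_lit 1⟩,
    ⟨false, nat_lit 2048, nat_lit 4076, nat_lit 3, nat_lit 1⟩, ⟨false, nat_lit 128, nat_lit 2284, nat_lit 2, nat_lit 1⟩, ⟨true, nat_lit 8, nat_lit 2204, nat_lit 2, nat_lit 0⟩,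
    ⟨true, nat_lit 64, nat_lit 2276, nat_lit 1, nat_lit 3⟩, ⟨false, nat_lit 256, nat_lit 2340, nat_lit 1, nat_lit 2⟩, ⟨true, nat_lit 32, nat_lit 2532, nat_lit 2, nat_lit 1⟩,
    ⟨false, nat_lit 16384, nat_lit 30212, nat_lit 2, nat_lit 1⟩, ⟨false, nat_lit 1024, nat_lit 19972, nat_lit 2, nat_lit 0⟩, ⟨true, nat_lit 4, nat_lit 19964, nat_lit 3, nat_lit 2⟩,
    ⟨false, nat_lit 32768, nat_lit 45568, nat_lit 1, nat_lit 2⟩, ⟨false, nat_lit 8192, nat_lit 61952, nat_lit 2, nat_lit 0⟩, ⟨true, nat_lit 512, nat_lit 60928, nat_lit 2, nat_lit 1⟩,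
    ⟨false, nat_lit 4096, nat_lit 61440, nat_lit 1, nat_lit 2⟩]

def r79_0_13 : List Wr := [
    ⟨false, nat_lit 16, nat_lit 31, nat_lit 2, nat_lit 0⟩, ⟨false, nat_lit 2, nat_lit 19, nat_lit 1, nat_lit 1⟩, ⟨true, nat_lit 1, nat_lit 19, nat_lit 1, nat_lit 1⟩,
    ⟨false, nat_lit 2048, nat_lit 4076, nat_lit 3, nat_lit 1⟩, ⟨false, nat_lit 128, nat_lit 2284, nat_lit 2, nat_lit 1⟩, ⟨true, nat_lit 8, nat_lit 2204, nat_lit 2, nat_lit 0⟩,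
    ⟨true, nat_lit 256, nat_lit 2404, nat_lit 1, nat_lit 3⟩, ⟨false, nat_lit 16384, nat_lit 30308, nat_lit 3, nat_lit 0⟩, ⟨false, nat_lit 1024, nat_lit 20068, nat_lit 2, nat_lit 2⟩,
    ⟨true, nat_lit 64, nat_lit 19940, nat_lit 3, nat_lit 0⟩, ⟨false, nat_lit 512, nat_lit 20004, nat_lit 2, nat_lit 1⟩, ⟨true, nat_lit 32, nat_lit 20452, nat_lit 2, nat_lit 4⟩,
    ⟨true, nat_lit 8192, nat_lit 28676, nat_lit 1, nat_lit 2⟩, ⟨false, nat_lit 32768, nat_lit 36868, nat_lit 1, nat_lit 1⟩, ⟨false, nat_lit 4096, nat_lit 61444, nat_lit 2, nat_lit 0⟩,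
    ⟨false, nat_lit 4, nat_lit 65532, nat_lit 4, nat_lit 3⟩]

def r79_0_14 : List Wr := [
    ⟨false, nat_lit 16, nat_lit 31, nat_lit 2, nat_lit 0⟩, ⟨false, nat_lit 2, nat_lit 19, nat_lit 1, nat_lit 1⟩, ⟨true, nat_lit 1, nat_lit 19, nat_lit 1, nat_lit 1⟩,
    ⟨false, nat_lit 2048, nat_lit 4076, nat_lit 3, nat_lit 1⟩, ⟨false, nat_lit 128, nat_lit 2284, nat_lit 2, nat_lit 1⟩, ⟨true, nat_lit 8, nat_lit 2204, nat_lit 2, nat_lit 0⟩,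
    ⟨true, nat_lit 256, nat_lit 2404, nat_lit 1, nat_lit 3⟩, ⟨false, nat_lit 16384, nat_lit 30308, nat_lit 3, nat_lit 0⟩, ⟨false, nat_lit 1024, nat_lit 20068, nat_lit 2, nat_lit 2⟩,
    ⟨true, nat_lit 64, nat_lit 19940, nat_lit 3, nat_lit 0⟩, ⟨false, nat_lit 512, nat_lit 20004, nat_lit 2, nat_lit 1⟩, ⟨true, nat_lit 32, nat_lit 20452, nat_lit 2, nat_lit 4⟩,
    ⟨false, nat_lit 32768, nat_lit 45060, nat_lit 1, nat_lit 2⟩, ⟨false, nat_lit 8192, nat_lit 61444, nat_lit 2, nat_lit 0⟩, ⟨true, nat_lit 4, nat_lit 61436, nat_lit 4, nat_lit 2⟩,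
    ⟨false, nat_lit 4096, nat_lit 61440, nat_lit 1, nat_lit 2⟩]

def r79_0_15 : List Wr := [
    ⟨false, nat_lit 16, nat_lit 31, nat_lit 2, nat_lit 0⟩, ⟨false, nat_lit 2, nat_lit 19, nat_lit 1, nat_lit 1⟩, ⟨true, nat_lit 1, nat_lit 19, nat_lit 1, nat_lit 1⟩,
    ⟨false, nat_lit 2048, nat_lit 4076, nat_lit 3, nat_lit 1⟩, ⟨false, nat_lit 128, nat_lit 2284, nat_lit 2, nat_lit 1⟩, ⟨true, nat_lit 8, nat_lit 2204, nat_lit 2, nat_lit 0⟩,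
    ⟨false, nat_lit 256, nat_lit 2404, nat_lit 1, nat_lit 3⟩, ⟨true, nat_lit 64, nat_lit 2532, nat_lit 2, nat_lit 1⟩, ⟨false, nat_lit 16384, nat_lit 30244, nat_lit 2, nat_lit 2⟩,
    ⟨true, nat_lit 1024, nat_lit 20004, nat_lit 2, nat_lit 1⟩, ⟨false, nat_lit 8192, nat_lit 29220, nat_lit 2, nat_lit 1⟩, ⟨false, nat_lit 512, nat_lit 28196, nat_lit 2, nat_lit 2⟩,
    ⟨true, nat_lit 32, nat_lit 28644, nat_lit 3, nat_lit 2⟩, ⟨false, nat_lit 32768, nat_lit 36868, nat_lit 1, nat_lit 1⟩, ⟨false, nat_lit 4096, nat_lit 61444, nat_lit 2, nat_lit 0⟩,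
    ⟨false, nat_lit 4, nat_lit 65532, nat_lit 4, nat_lit 3⟩]

def r79_0_16 : List Wr := [
    ⟨false, nat_lit 16, nat_lit 31, nat_lit 2, nat_lit 0⟩, ⟨false, nat_lit 2, nat_lit 19, nat_lit 1, nat_lit 1⟩, ⟨true, nat_lit 1, nat_lit 19, nat_lit 1, nat_lit 1⟩,
    ⟨false, nat_lit 2048, nat_lit 4076, nat_lit 3, nat_lit 1⟩, ⟨false, nat_lit 128, nat_lit 2284, nat_lit 2, nat_lit 1⟩, ⟨true, nat_lit 8, nat_lit 2204, nat_lit 2, nat_lit 0⟩,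
    ⟨false, nat_lit 256, nat_lit 2404, nat_lit 1, nat_lit 3⟩, ⟨false, nat_lit 64, nat_lit 2532, nat_lit 2, nat_lit 1⟩, ⟨true, nat_lit 4, nat_lit 2524, nat_lit 2, nat_lit 2⟩,
    ⟨false, nat_lit 16384, nat_lit 30240, nat_lit 2, nat_lit 1⟩, ⟨false, nat_lit 1024, nat_lit 20000, nat_lit 2, nat_lit 0⟩, ⟨true, nat_lit 32, nat_lit 19936, nat_lit 2, nat_lit 2⟩,
    ⟨true, nat_lit 8192, nat_lit 29184, nat_lit 1, nat_lit 2⟩, ⟨false, nat_lit 32768, nat_lit 37376, nat_lit 1, nat_lit 1⟩, ⟨false, nat_lit 4096, nat_lit 61952, nat_lit 2, nat_lit 0⟩,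
    ⟨false, nat_lit 512, nat_lit 65024, nat_lit 2, nat_lit 2⟩]

def r79_0_17 : List Wr := [
    ⟨false, nat_lit 16, nat_lit 31, nat_lit 2, nat_lit 0⟩, ⟨false, nat_lit 2, nat_lit 19, nat_lit 1, nat_lit 1⟩, ⟨true, nat_lit 1, nat_lit 19, nat_lit 1, nat_lit 1⟩,
    ⟨false, nat_lit 2048, nat_lit 4076, nat_lit 3, nat_lit 1⟩, ⟨false, nat_lit 128, nat_lit 2284, nat_lit 2, nat_lit 1⟩, ⟨true, nat_lit 8, nat_lit 2204, nat_lit 2, nat_lit 0⟩,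
    ⟨false, nat_lit 256, nat_lit 2404, nat_lit 1, nat_lit 3⟩, ⟨true, nat_lit 64, nat_lit 2532, nat_lit 2, nat_lit 1⟩, ⟨false, nat_lit 1024, nat_lit 3620, nat_lit 2, nat_lit 0⟩,
    ⟨false, nat_lit 32, nat_lit 3556, nat_lit 2, nat_lit 2⟩, ⟨true, nat_lit 4, nat_lit 3580, nat_lit 3, nat_lit 1⟩, ⟨false, nat_lit 16384, nat_lit 29184, nat_lit 1, nat_lit 2⟩,
    ⟨true, nat_lit 8192, nat_lit 29184, nat_lit 1, nat_lit 2⟩, ⟨false, nat_lit 32768, nat_lit 37376, nat_lit 1, nat_lit 1⟩, ⟨false, nat_lit 4096, nat_lit 61952, nat_lit 2, nat_lit 0⟩,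
    ⟨false, nat_lit 512, nat_lit 65024, nat_lit 2, nat_lit 2⟩]

def r79_0_18 : List Wr := [
    ⟨false, nat_lit 16, nat_lit 31, nat_lit 2, nat_lit 0⟩, ⟨false, nat_lit 2, nat_lit 19, nat_lit 1, nat_lit 1⟩, ⟨true, nat_lit 1, nat_lit 19, nat_lit 1, nat_lit 1⟩,
    ⟨false, nat_lit 2048, nat_lit 4076, nat_lit 3, nat_lit 1⟩, ⟨false, nat_lit 128, nat_lit 2284, nat_lit 2, nat_lit 1⟩, ⟨true, nat_lit 8, nat_lit 2204, nat_lit 2, nat_lit 0⟩,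
    ⟨false, nat_lit 256, nat_lit 2404, nat_lit 1, nat_lit 3⟩, ⟨false, nat_lit 64, nat_lit 2532, nat_lit 2, nat_lit 1⟩, ⟨true, nat_lit 4, nat_lit 2524, nat_lit 2, nat_lit 2⟩,
    ⟨false, nat_lit 16384, nat_lit 30240, nat_lit 2, nat_lit 1⟩, ⟨false, nat_lit 1024, nat_lit 20000, nat_lit 2, nat_lit 0⟩, ⟨true, nat_lit 32, nat_lit 19936, nat_lit 2, nat_lit 2⟩,
    ⟨false, nat_lit 32768, nat_lit 45568, nat_lit 1, nat_lit 2⟩, ⟨false, nat_lit 8192, nat_lit 61952, nat_lit 2, nat_lit 0⟩, ⟨true, nat_lit 512, nat_lit 60928, nat_lit 2, nat_lit 1⟩,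
    ⟨false, nat_lit 4096, nat_lit 61440, nat_lit 1, nat_lit 2⟩]

def r79_0_19 : List Wr := [
    ⟨false, nat_lit 16, nat_lit 31, nat_lit 2, nat_lit 0⟩, ⟨false, nat_lit 2, nat_lit 19, nat_lit 1, nat_lit 1⟩, ⟨true, nat_lit 1, nat_lit 19, nat_lit 1, nat_lit 1⟩,
    ⟨false, nat_lit 2048, nat_lit 4076, nat_lit 3, nat_lit 1⟩, ⟨false, nat_lit 128, nat_lit 2284, nat_lit 2, nat_lit 1⟩, ⟨true, nat_lit 8, nat_lit 2204, nat_lit 2, nat_lit 0⟩,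
    ⟨false, nat_lit 256, nat_lit 2404, nat_lit 1, nat_lit 3⟩, ⟨true, nat_lit 64, nat_lit 2532, nat_lit 2, nat_lit 1⟩, ⟨false, nat_lit 1024, nat_lit 3620, nat_lit 2, nat_lit 0⟩,
    ⟨false, nat_lit 32, nat_lit 3556, nat_lit 2, nat_lit 2⟩, ⟨true, nat_lit 4, nat_lit 3580, nat_lit 3, nat_lit 1⟩, ⟨true, nat_lit 16384, nat_lit 29184, nat_lit 1, nat_lit 2⟩,
    ⟨false, nat_lit 32768, nat_lit 45568, nat_lit 1, nat_lit 2⟩, ⟨false, nat_lit 8192, nat_lit 61952, nat_lit 2, nat_lit 0⟩, ⟨true, nat_lit 512, nat_lit 60928, nat_lit 2, nat_lit 1⟩,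
    ⟨false, nat_lit 4096, nat_lit 61440, nat_lit 1, nat_lit 2⟩]

def r79_0_20 : List Wr := [
    ⟨false, nat_lit 16, nat_lit 31, nat_lit 2, nat_lit 0⟩, ⟨false, nat_lit 2, nat_lit 19, nat_lit 1, nat_lit 1⟩, ⟨true, nat_lit 1, nat_lit 19, nat_lit 1, nat_lit 1⟩,
    ⟨false, nat_lit 2048, nat_lit 4076, nat_lit 3, nat_lit 1⟩, ⟨false, nat_lit 128, nat_lit 2284, nat_lit 2, nat_lit 1⟩, ⟨true, nat_lit 8, nat_lit 2204, nat_lit 2, nat_lit 0⟩,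
    ⟨false, nat_lit 256, nat_lit 2404, nat_lit 1, nat_lit 3⟩, ⟨true, nat_lit 64, nat_lit 2532, nat_lit 2, nat_lit 1⟩, ⟨false, nat_lit 1024, nat_lit 3620, nat_lit 2, nat_lit 0⟩,
    ⟨false, nat_lit 32, nat_lit 3556, nat_lit 2, nat_lit 2⟩, ⟨true, nat_lit 4, nat_lit 3580, nat_lit 3, nat_lit 1⟩, ⟨false, nat_lit 32768, nat_lit 61952, nat_lit 1, nat_lit 3⟩,
    ⟨false, nat_lit 16384, nat_lit 61952, nat_lit 2, nat_lit 0⟩, ⟨true, nat_lit 512, nat_lit 52736, nat_lit 2, nat_lit 0⟩, ⟨false, nat_lit 8192, nat_lit 61440, nat_lit 1, nat_lit 2⟩,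
    ⟨false, nat_lit 4096, nat_lit 61440, nat_lit 1, nat_lit 2⟩]

def r79_0_21 : List Wr := [
    ⟨false, nat_lit 16, nat_lit 31, nat_lit 2, nat_lit 0⟩, ⟨false, nat_lit 2, nat_lit 19, nat_lit 1, nat_lit 1⟩, ⟨true, nat_lit 1, nat_lit 19, nat_lit 1, nat_lit 1⟩,
    ⟨false, nat_lit 16384, nat_lit 32748, nat_lit 4, nat_lit 1⟩, ⟨false, nat_lit 128, nat_lit 16620, nat_lit 2, nat_lit 1⟩, ⟨true, nat_lit 8, nat_lit 16540, nat_lit 2, nat_lit 0⟩,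
    ⟨false, nat_lit 2048, nat_lit 20324, nat_lit 2, nat_lit 3⟩, ⟨true, nat_lit 1024, nat_lit 20324, nat_lit 2, nat_lit 3⟩, ⟨false, nat_lit 8192, nat_lit 29540, nat_lit 3, nat_lit 0⟩,
    ⟨false, nat_lit 256, nat_lit 28004, nat_lit 2, nat_lit 3⟩, ⟨true, nat_lit 64, nat_lit 28132, nat_lit 3, nat_lit 1⟩, ⟨false, nat_lit 512, nat_lit 28196, nat_lit 2, nat_lit 2⟩,
    ⟨true, nat_lit 32, nat_lit 28644, nat_lit 3, nat_lit 2⟩, ⟨false, nat_lit 32768, nat_lit 36868, nat_lit 1, nat_lit 1⟩, ⟨false, nat_lit 4096, nat_lit 61444, nat_lit 2, nat_lit 0⟩,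
    ⟨false, nat_lit 4, nat_lit 65532, nat_lit 4, nat_lit 3⟩]

def r79_0_22 : List Wr := [
    ⟨false, nat_lit 16, nat_lit 31, nat_lit 2, nat_lit 0⟩, ⟨false, nat_lit 2, nat_lit 19, nat_lit 1, nat_lit 1⟩, ⟨true, nat_lit 1, nat_lit 19, nat_lit 1, nat_lit 1⟩,
    ⟨false, nat_lit 16384, nat_lit 32748, nat_lit 4, nat_lit 1⟩, ⟨false, nat_lit 128, nat_lit 16620, nat_lit 2, nat_lit 1⟩, ⟨true, nat_lit 8, nat_lit 16540, nat_lit 2, nat_lit 0⟩,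
    ⟨true, nat_lit 2048, nat_lit 20324, nat_lit 2, nat_lit 3⟩, ⟨false, nat_lit 8192, nat_lit 30564, nat_lit 3, nat_lit 1⟩, ⟨false, nat_lit 1024, nat_lit 28516, nat_lit 3, nat_lit 1⟩,
    ⟨true, nat_lit 64, nat_lit 27876, nat_lit 3, nat_lit 0⟩, ⟨false, nat_lit 512, nat_lit 28452, nat_lit 2, nat_lit 3⟩, ⟨false, nat_lit 256, nat_lit 28452, nat_lit 2, nat_lit 3⟩,
    ⟨true, nat_lit 4, nat_lit 28636, nat_lit 3, nat_lit 3⟩, ⟨false, nat_lit 32768, nat_lit 36896, nat_lit 1, nat_lit 1⟩, ⟨false, nat_lit 4096, nat_lit 61472, nat_lit 2, nat_lit 0⟩,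
    ⟨false, nat_lit 32, nat_lit 65504, nat_lit 3, nat_lit 3⟩]

def r79_0_23 : List Wr := [
    ⟨false, nat_lit 16, nat_lit 31, nat_lit 2, nat_lit 0⟩, ⟨false, nat_lit 2, nat_lit 19, nat_lit 1, nat_lit 1⟩, ⟨true, nat_lit 1, nat_lit 19, nat_lit 1, nat_lit 1⟩,
    ⟨false, nat_lit 16384, nat_lit 32748, nat_lit 4, nat_lit 1⟩, ⟨false, nat_lit 128, nat_lit 16620, nat_lit 2, nat_lit 1⟩, ⟨true, nat_lit 8, nat_lit 16540, nat_lit 2, nat_lit 0⟩,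
    ⟨true, nat_lit 2048, nat_lit 20324, nat_lit 2, nat_lit 3⟩, ⟨false, nat_lit 8192, nat_lit 30564, nat_lit 3, nat_lit 1⟩, ⟨false, nat_lit 1024, nat_lit 28516, nat_lit 3, nat_lit 1⟩,
    ⟨true, nat_lit 64, nat_lit 27876, nat_lit 3, nat_lit 0⟩, ⟨false, nat_lit 512, nat_lit 28452, nat_lit 2, nat_lit 3⟩, ⟨true, nat_lit 256, nat_lit 28452, nat_lit 2, nat_lit 3⟩,
    ⟨false, nat_lit 4096, nat_lit 28708, nat_lit 2, nat_lit 0⟩, ⟨false, nat_lit 32, nat_lit 32740, nat_lit 3, nat_lit 3⟩, ⟨true, nat_lit 4, nat_lit 32764, nat_lit 4, nat_lit 2⟩,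
    ⟨false, nat_lit 32768, nat_lit 32768, nat_lit 0, nat_lit 2⟩]

def l79_0 : List (Nat × List Wr × Nat) := [
  (nat_lit 6, r79_0_0, nat_lit 0), (nat_lit 6, r79_0_1, nat_lit 0), (nat_lit 6, r79_0_2, nat_lit 0),
  (nat_lit 6, r79_0_3, nat_lit 0), (nat_lit 6, r79_0_4, nat_lit 0), (nat_lit 6, r79_0_5, nat_lit 0),
  (nat_lit 6, r79_0_6, nat_lit 0), (nat_lit 6, r79_0_7, nat_lit 0), (nat_lit 6, r79_0_8, nat_lit 0),
  (nat_lit 6, r79_0_9, nat_lit 0), (nat_lit 6, r79_0_10, nat_lit 0), (nat_lit 6, r79_0_11, nat_lit 0),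
  (nat_lit 6, r79_0_12, nat_lit 0), (nat_lit 6, r79_0_13, nat_lit 0), (nat_lit 6, r79_0_14, nat_lit 0),
  (nat_lit 6, r79_0_15, nat_lit 0), (nat_lit 6, r79_0_16, nat_lit 0), (nat_lit 6, r79_0_17, nat_lit 0),
  (nat_lit 6, r79_0_18, nat_lit 0), (nat_lit 6, r79_0_19, nat_lit 0), (nat_lit 6, r79_0_20, nat_lit 0),
  (nat_lit 6, r79_0_21, nat_lit 0), (nat_lit 6, r79_0_22, nat_lit 0), (nat_lit 6, r79_0_23, nat_lit 0)]

def r79_1_0 : List Wr := [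
    ⟨false, nat_lit 16, nat_lit 31, nat_lit 2, nat_lit 0⟩, ⟨false, nat_lit 2, nat_lit 19, nat_lit 1, nat_lit 1⟩, ⟨true, nat_lit 1, nat_lit 19, nat_lit 1, nat_lit 1⟩,
    ⟨false, nat_lit 16384, nat_lit 32748, nat_lit 4, nat_lit 1⟩, ⟨false, nat_lit 128, nat_lit 16620, nat_lit 2, nat_lit 1⟩, ⟨true, nat_lit 8, nat_lit 16540, nat_lit 2, nat_lit 0⟩,
    ⟨false, nat_lit 2048, nat_lit 20324, nat_lit 2, nat_lit 3⟩, ⟨false, nat_lit 64, nat_lit 18660, nat_lit 2, nat_lit 1⟩, ⟨true, nat_lit 4, nat_lit 18652, nat_lit 2, nat_lit 2⟩,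
    ⟨true, nat_lit 1024, nat_lit 20256, nat_lit 2, nat_lit 1⟩, ⟨false, nat_lit 8192, nat_lit 29472, nat_lit 2, nat_lit 1⟩, ⟨false, nat_lit 512, nat_lit 28448, nat_lit 2, nat_lit 2⟩,
    ⟨true, nat_lit 256, nat_lit 28448, nat_lit 2, nat_lit 2⟩, ⟨false, nat_lit 32768, nat_lit 36896, nat_lit 1, nat_lit 1⟩, ⟨false, nat_lit 4096, nat_lit 61472, nat_lit 2, nat_lit 0⟩,
    ⟨false, nat_lit 32, nat_lit 65504, nat_lit 3, nat_lit 3⟩]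

def l79_1 : List (Nat × List Wr × Nat) := [
  (nat_lit 6, r79_1_0, nat_lit 0)]

def r79_2_0 : List Wr := [
    ⟨false, nat_lit 16, nat_lit 31, nat_lit 2, nat_lit 0⟩, ⟨false, nat_lit 2, nat_lit 19, nat_lit 1, nat_lit 1⟩, ⟨true, nat_lit 1, nat_lit 19, nat_lit 1, nat_lit 1⟩,
    ⟨true, nat_lit 8, nat_lit 28, nat_lit 1, nat_lit 1⟩, ⟨true, nat_lit 128, nat_lit 228, nat_lit 1, nat_lit 2⟩, ⟨false, nat_lit 16384, nat_lit 32612, nat_lit 3, nat_lit 2⟩,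
    ⟨false, nat_lit 64, nat_lit 16612, nat_lit 2, nat_lit 0⟩, ⟨true, nat_lit 4, nat_lit 16604, nat_lit 2, nat_lit 1⟩, ⟨false, nat_lit 2048, nat_lit 20256, nat_lit 2, nat_lit 1⟩,
    ⟨true, nat_lit 256, nat_lit 18720, nat_lit 1, nat_lit 2⟩, ⟨false, nat_lit 8192, nat_lit 30240, nat_lit 2, nat_lit 1⟩, ⟨false, nat_lit 1024, nat_lit 28192, nat_lit 2, nat_lit 1⟩,
    ⟨true, nat_lit 32, nat_lit 28128, nat_lit 3, nat_lit 0⟩, ⟨false, nat_lit 32768, nat_lit 37376, nat_lit 1, nat_lit 1⟩, ⟨false, nat_lit 4096, nat_lit 61952, nat_lit 2, nat_lit 0⟩,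
    ⟨false, nat_lit 512, nat_lit 65024, nat_lit 2, nat_lit 2⟩]

def l79_2 : List (Nat × List Wr × Nat) := [
  (nat_lit 4, r79_2_0, nat_lit 0)]

end Pool.Agent.EC4.Run
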