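import Pool.Agent.Lib.MP_ec4eff_co.R5.Srch

/-! Generated file (project R5): results of the first lune -/

namespace Pool.Agent.EC4.Run

def r79_3_0 : List Wr := [
    ⟨false, nat_lit 16, nat_lit 31, nat_lit 2, nat_lit 0⟩, ⟨false, nat_lit 2, nat_lit 19, nat_lit 1, nat_lit 1⟩, ⟨true, nat_lit 1, nat_lit 19, nat_lit 1, nat_lit 1⟩,
    ⟨false, nat_lit 128, nat_lit 236, nat_lit 1, nat_lit 3⟩, ⟨true, nat_lit 8, nat_lit 156, nat_lit 1, nat_lit 2⟩, ⟨false, nat_lit 16384, nat_lit 32612, nat_lit 3, nat_lit 2⟩,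
    ⟨false, nat_lit 64, nat_lit 16612, nat_lit 2, nat_lit 0⟩, ⟨true, nat_lit 4, nat_lit 16604, nat_lit 2, nat_lit 1⟩, ⟨false, nat_lit 2048, nat_lit 20256, nat_lit 2, nat_lit 1⟩,
    ⟨true, nat_lit 256, nat_lit 18720, nat_lit 1, nat_lit 2⟩, ⟨false, nat_lit 8192, nat_lit 30240, nat_lit 2, nat_lit 1⟩, ⟨false, nat_lit 1024, nat_lit 28192, nat_lit 2, nat_lit 1⟩,
    ⟨true, nat_lit 32, nat_lit 28128, nat_lit 3, nat_lit 0⟩, ⟨false, nat_lit 32768, nat_lit 37376, nat_lit 1, nat_lit 1⟩, ⟨false, nat_lit 4096, nat_lit 61952, nat_lit 2, nat_lit 0⟩,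
    ⟨false, nat_lit 512, nat_lit 65024, nat_lit 2, nat_lit 2⟩]

def r79_3_1 : List Wr := [
    ⟨false, nat_lit 16, nat_lit 31, nat_lit 2, nat_lit 0⟩, ⟨false, nat_lit 2, nat_lit 19, nat_lit 1, nat_lit 1⟩, ⟨true, nat_lit 1, nat_lit 19, nat_lit 1, nat_lit 1⟩,
    ⟨false, nat_lit 8, nat_lit 28, nat_lit 1, nat_lit 1⟩, ⟨true, nat_lit 4, nat_lit 28, nat_lit 1, nat_lit 1⟩, ⟨true, nat_lit 128, nat_lit 224, nat_lit 1, nat_lit 1⟩,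
    ⟨false, nat_lit 2048, nat_lit 3936, nat_lit 2, nat_lit 1⟩, ⟨false, nat_lit 256, nat_lit 2400, nat_lit 1, nat_lit 2⟩, ⟨true, nat_lit 64, nat_lit 2528, nat_lit 2, nat_lit 0⟩,
    ⟨false, nat_lit 16384, nat_lit 30240, nat_lit 2, nat_lit 1⟩, ⟨false, nat_lit 1024, nat_lit 20000, nat_lit 2, nat_lit 0⟩, ⟨true, nat_lit 32, nat_lit 19936, nat_lit 2, nat_lit 2⟩,
    ⟨true, nat_lit 8192, nat_lit 29184, nat_lit 1, nat_lit 2⟩, ⟨false, nat_lit 32768, nat_lit 37376, nat_lit 1, nat_lit 1⟩, ⟨false, nat_lit 4096, nat_lit 61952, nat_lit 2, nat_lit 0⟩,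
    ⟨false, nat_lit 512, nat_lit 65024, nat_lit 2, nat_lit 2⟩]

def r79_3_2 : List Wr := [
    ⟨false, nat_lit 16, nat_lit 31, nat_lit 2, nat_lit 0⟩, ⟨false, nat_lit 2, nat_lit 19, nat_lit 1, nat_lit 1⟩, ⟨true, nat_lit 1, nat_lit 19, nat_lit 1, nat_lit 1⟩,
    ⟨false, nat_lit 8, nat_lit 28, nat_lit 1, nat_lit 1⟩, ⟨true, nat_lit 4, nat_lit 28, nat_lit 1, nat_lit 1⟩, ⟨true, nat_lit 128, nat_lit 224, nat_lit 1, nat_lit 1⟩,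
    ⟨false, nat_lit 2048, nat_lit 3936, nat_lit 2, nat_lit 1⟩, ⟨false, nat_lit 256, nat_lit 2400, nat_lit 1, nat_lit 2⟩, ⟨true, nat_lit 64, nat_lit 2528, nat_lit 2, nat_lit 0⟩,
    ⟨false, nat_lit 16384, nat_lit 30240, nat_lit 2, nat_lit 1⟩, ⟨false, nat_lit 1024, nat_lit 20000, nat_lit 2, nat_lit 0⟩, ⟨true, nat_lit 32, nat_lit 19936, nat_lit 2, nat_lit 2⟩,
    ⟨false, nat_lit 32768, nat_lit 45568, nat_lit 1, nat_lit 2⟩, ⟨false, nat_lit 8192, nat_lit 61952, nat_lit 2, nat_lit 0⟩, ⟨true, nat_lit 512, nat_lit 60928, nat_lit 2, nat_lit 1⟩,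
    ⟨false, nat_lit 4096, nat_lit 61440, nat_lit 1, nat_lit 2⟩]

def r79_3_3 : List Wr := [
    ⟨false, nat_lit 16, nat_lit 31, nat_lit 2, nat_lit 0⟩, ⟨false, nat_lit 2, nat_lit 19, nat_lit 1, nat_lit 1⟩, ⟨true, nat_lit 1, nat_lit 19, nat_lit 1, nat_lit 1⟩,
    ⟨false, nat_lit 8, nat_lit 28, nat_lit 1, nat_lit 1⟩, ⟨true, nat_lit 4, nat_lit 28, nat_lit 1, nat_lit 1⟩, ⟨true, nat_lit 128, nat_lit 224, nat_lit 1, nat_lit 1⟩,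
    ⟨false, nat_lit 16384, nat_lit 32608, nat_lit 3, nat_lit 1⟩, ⟨false, nat_lit 2048, nat_lit 20320, nat_lit 2, nat_lit 2⟩, ⟨true, nat_lit 64, nat_lit 18656, nat_lit 2, nat_lit 0⟩,
    ⟨true, nat_lit 1024, nat_lit 20256, nat_lit 2, nat_lit 1⟩, ⟨false, nat_lit 8192, nat_lit 29472, nat_lit 2, nat_lit 1⟩, ⟨false, nat_lit 512, nat_lit 28448, nat_lit 2, nat_lit 2⟩,
    ⟨true, nat_lit 256, nat_lit 28448, nat_lit 2, nat_lit 2⟩, ⟨false, nat_lit 32768, nat_lit 36896, nat_lit 1, nat_lit 1⟩, ⟨false, nat_lit 4096, nat_lit 61472, nat_lit 2, nat_lit 0⟩,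
    ⟨false, nat_lit 32, nat_lit 65504, nat_lit 3, nat_lit 3⟩]

def r79_3_4 : List Wr := [
    ⟨false, nat_lit 16, nat_lit 31, nat_lit 2, nat_lit 0⟩, ⟨false, nat_lit 2, nat_lit 19, nat_lit 1, nat_lit 1⟩, ⟨true, nat_lit 1, nat_lit 19, nat_lit 1, nat_lit 1⟩,
    ⟨true, nat_lit 8, nat_lit 28, nat_lit 1, nat_lit 1⟩, ⟨false, nat_lit 16384, nat_lit 32740, nat_lit 3, nat_lit 3⟩, ⟨false, nat_lit 128, nat_lit 16612, nat_lit 2, nat_lit 0⟩,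
    ⟨true, nat_lit 4, nat_lit 16540, nat_lit 2, nat_lit 0⟩, ⟨false, nat_lit 2048, nat_lit 20320, nat_lit 2, nat_lit 2⟩, ⟨false, nat_lit 1024, nat_lit 20320, nat_lit 2, nat_lit 2⟩,
    ⟨false, nat_lit 256, nat_lit 19808, nat_lit 2, nat_lit 1⟩, ⟨true, nat_lit 64, nat_lit 19936, nat_lit 2, nat_lit 2⟩, ⟨false, nat_lit 8192, nat_lit 29216, nat_lit 2, nat_lit 0⟩,
    ⟨false, nat_lit 512, nat_lit 28192, nat_lit 2, nat_lit 1⟩, ⟨true, nat_lit 32, nat_lit 28640, nat_lit 3, nat_lit 1⟩, ⟨true, nat_lit 4096, nat_lit 28672, nat_lit 1, nat_lit 1⟩,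
    ⟨false, nat_lit 32768, nat_lit 32768, nat_lit 0, nat_lit 2⟩]

def r79_3_5 : List Wr := [
    ⟨false, nat_lit 16, nat_lit 31, nat_lit 2, nat_lit 0⟩, ⟨false, nat_lit 2, nat_lit 19, nat_lit 1, nat_lit 1⟩, ⟨true, nat_lit 1, nat_lit 19, nat_lit 1, nat_lit 1⟩,
    ⟨true, nat_lit 8, nat_lit 28, nat_lit 1, nat_lit 1⟩, ⟨false, nat_lit 16384, nat_lit 32740, nat_lit 3, nat_lit 3⟩, ⟨false, nat_lit 128, nat_lit 16612, nat_lit 2, nat_lit 0⟩,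
    ⟨true, nat_lit 4, nat_lit 16540, nat_lit 2, nat_lit 0⟩, ⟨false, nat_lit 2048, nat_lit 20320, nat_lit 2, nat_lit 2⟩, ⟨true, nat_lit 64, nat_lit 18656, nat_lit 1, nat_lit 3⟩,
    ⟨true, nat_lit 256, nat_lit 18720, nat_lit 1, nat_lit 2⟩, ⟨false, nat_lit 8192, nat_lit 30240, nat_lit 2, nat_lit 1⟩, ⟨false, nat_lit 1024, nat_lit 28192, nat_lit 2, nat_lit 1⟩,
    ⟨true, nat_lit 32, nat_lit 28128, nat_lit 3, nat_lit 0⟩, ⟨false, nat_lit 32768, nat_lit 37376, nat_lit 1, nat_lit 1⟩, ⟨false, nat_lit 4096, nat_lit 61952, nat_lit 2, nat_lit 0⟩,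
    ⟨false, nat_lit 512, nat_lit 65024, nat_lit 2, nat_lit 2⟩]

def r79_3_6 : List Wr := [
    ⟨false, nat_lit 16, nat_lit 31, nat_lit 2, nat_lit 0⟩, ⟨false, nat_lit 2, nat_lit 19, nat_lit 1, nat_lit 1⟩, ⟨true, nat_lit 1, nat_lit 19, nat_lit 1, nat_lit 1⟩,
    ⟨true, nat_lit 8, nat_lit 28, nat_lit 1, nat_lit 1⟩, ⟨false, nat_lit 16384, nat_lit 32740, nat_lit 3, nat_lit 3⟩, ⟨false, nat_lit 128, nat_lit 16612, nat_lit 2, nat_lit 0⟩,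
    ⟨true, nat_lit 4, nat_lit 16540, nat_lit 2, nat_lit 0⟩, ⟨true, nat_lit 64, nat_lit 16608, nat_lit 1, nat_lit 2⟩, ⟨false, nat_lit 2048, nat_lit 20256, nat_lit 2, nat_lit 1⟩,
    ⟨true, nat_lit 256, nat_lit 18720, nat_lit 1, nat_lit 2⟩, ⟨false, nat_lit 8192, nat_lit 30240, nat_lit 2, nat_lit 1⟩, ⟨false, nat_lit 1024, nat_lit 28192, nat_lit 2, nat_lit 1⟩,
    ⟨true, nat_lit 32, nat_lit 28128, nat_lit 3, nat_lit 0⟩, ⟨false, nat_lit 32768, nat_lit 37376, nat_lit 1, nat_lit 1⟩, ⟨false, nat_lit 4096, nat_lit 61952, nat_lit 2, nat_lit 0⟩,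
    ⟨false, nat_lit 512, nat_lit 65024, nat_lit 2, nat_lit 2⟩]

def r79_3_7 : List Wr := [
    ⟨false, nat_lit 16, nat_lit 31, nat_lit 2, nat_lit 0⟩, ⟨false, nat_lit 2, nat_lit 19, nat_lit 1, nat_lit 1⟩, ⟨true, nat_lit 1, nat_lit 19, nat_lit 1, nat_lit 1⟩,
    ⟨true, nat_lit 8, nat_lit 28, nat_lit 1, nat_lit 1⟩, ⟨false, nat_lit 16384, nat_lit 32740, nat_lit 3, nat_lit 3⟩, ⟨false, nat_lit 128, nat_lit 16612, nat_lit 2, nat_lit 0⟩,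
    ⟨true, nat_lit 4, nat_lit 16540, nat_lit 2, nat_lit 0⟩, ⟨false, nat_lit 2048, nat_lit 20320, nat_lit 2, nat_lit 2⟩, ⟨true, nat_lit 64, nat_lit 18656, nat_lit 1, nat_lit 3⟩,
    ⟨true, nat_lit 256, nat_lit 18720, nat_lit 1, nat_lit 2⟩, ⟨false, nat_lit 8192, nat_lit 30240, nat_lit 2, nat_lit 1⟩, ⟨false, nat_lit 1024, nat_lit 28192, nat_lit 2, nat_lit 1⟩,
    ⟨true, nat_lit 32, nat_lit 28128, nat_lit 3, nat_lit 0⟩, ⟨false, nat_lit 32768, nat_lit 37376, nat_lit 1, nat_lit 1⟩, ⟨false, nat_lit 4096, nat_lit 61952, nat_lit 2, nat_lit 0⟩,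
    ⟨false, nat_lit 512, nat_lit 65024, nat_lit 2, nat_lit 2⟩]

def l79_3 : List (Nat × List Wr × Nat) := [
  (nat_lit 5, r79_3_0, nat_lit 1), (nat_lit 6, r79_3_1, nat_lit 0), (nat_lit 6, r79_3_2, nat_lit 0),
  (nat_lit 6, r79_3_3, nat_lit 0), (nat_lit 6, r79_3_4, nat_lit 0), (nat_lit 6, r79_3_5, nat_lit 0),
  (nat_lit 4, r79_3_6, nat_lit 0), (nat_lit 5, r79_3_7, nat_lit 1)]

end Pool.Agent.EC4.Run
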