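import Pool.Agent.Lib.MP_ec4eff_co.R5.Dec
import Pool.Agent.Lib.MP_ec4eff_co.R5.Run.D25
import Pool.Agent.Lib.MP_ec4eff_co.R5.Run.D26

/-! Generated file (project R5): the first lune -/

namespace Pool.Agent.EC4.Run

theorem a79 : runA (l79_0 ++ (l79_1 ++ (l79_2 ++ (l79_3)))) [1, 1, 0, 0, 1, 0, 0, 1] = false := by decide +kernel

end Pool.Agent.EC4.Run
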