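import Pool.Agent.Lib.MP_ec4eff_co.R5.Srch

/-! Generated file (project R5): results of the first lune -/

namespace Pool.Agent.EC4.Run

def r20_0_0 : List Wr := [
    ⟨true, nat_lit 4, nat_lit 7, nat_lit 1, nat_lit 1⟩, ⟨false, nat_lit 16, nat_lit 27, nat_lit 1, nat_lit 2⟩, ⟨false, nat_lit 8, nat_lit 27, nat_lit 1, nat_lit 2⟩,
    ⟨true, nat_lit 2, nat_lit 31, nat_lit 2, nat_lit 0⟩, ⟨false, nat_lit 4096, nat_lit 8161, nat_lit 3, nat_lit 1⟩, ⟨false, nat_lit 128, nat_lit 4321, nat_lit 2, nat_lit 0⟩,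
    ⟨true, nat_lit 1, nat_lit 4255, nat_lit 2, nat_lit 2⟩, ⟨true, nat_lit 512, nat_lit 4960, nat_lit 1, nat_lit 3⟩, ⟨false, nat_lit 2048, nat_lit 7520, nat_lit 2, nat_lit 1⟩,
    ⟨false, nat_lit 256, nat_lit 7008, nat_lit 2, nat_lit 1⟩, ⟨true, nat_lit 64, nat_lit 7136, nat_lit 2, nat_lit 2⟩, ⟨false, nat_lit 32768, nat_lit 58400, nat_lit 2, nat_lit 0⟩,
    ⟨false, nat_lit 1024, nat_lit 39968, nat_lit 2, nat_lit 0⟩, ⟨true, nat_lit 32, nat_lit 40928, nat_lit 3, nat_lit 1⟩, ⟨false, nat_lit 16384, nat_lit 57344, nat_lit 1, nat_lit 1⟩,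
    ⟨false, nat_lit 8192, nat_lit 57344, nat_lit 1, nat_lit 1⟩]

def r20_0_1 : List Wr := [
    ⟨true, nat_lit 4, nat_lit 7, nat_lit 1, nat_lit 1⟩, ⟨false, nat_lit 16, nat_lit 27, nat_lit 1, nat_lit 2⟩, ⟨false, nat_lit 8, nat_lit 27, nat_lit 1, nat_lit 2⟩,
    ⟨true, nat_lit 2, nat_lit 31, nat_lit 2, nat_lit 0⟩, ⟨false, nat_lit 4096, nat_lit 8161, nat_lit 3, nat_lit 1⟩, ⟨false, nat_lit 128, nat_lit 4321, nat_lit 2, nat_lit 0⟩,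
    ⟨true, nat_lit 1, nat_lit 4255, nat_lit 2, nat_lit 2⟩, ⟨false, nat_lit 2048, nat_lit 8032, nat_lit 2, nat_lit 2⟩, ⟨false, nat_lit 512, nat_lit 7008, nat_lit 2, nat_lit 1⟩,
    ⟨true, nat_lit 64, nat_lit 6880, nat_lit 2, nat_lit 1⟩, ⟨true, nat_lit 256, nat_lit 6944, nat_lit 1, nat_lit 3⟩, ⟨false, nat_lit 32768, nat_lit 58400, nat_lit 2, nat_lit 0⟩,
    ⟨false, nat_lit 1024, nat_lit 39968, nat_lit 2, nat_lit 0⟩, ⟨true, nat_lit 32, nat_lit 40928, nat_lit 3, nat_lit 1⟩, ⟨false, nat_lit 16384, nat_lit 57344, nat_lit 1, nat_lit 1⟩,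
    ⟨false, nat_lit 8192, nat_lit 57344, nat_lit 1, nat_lit 1⟩]

def r20_0_2 : List Wr := [
    ⟨true, nat_lit 4, nat_lit 7, nat_lit 1, nat_lit 1⟩, ⟨false, nat_lit 4096, nat_lit 8187, nat_lit 4, nat_lit 1⟩, ⟨false, nat_lit 8, nat_lit 4107, nat_lit 1, nat_lit 2⟩,
    ⟨true, nat_lit 2, nat_lit 4111, nat_lit 2, nat_lit 0⟩, ⟨true, nat_lit 128, nat_lit 4337, nat_lit 2, nat_lit 1⟩, ⟨false, nat_lit 512, nat_lit 4977, nat_lit 2, nat_lit 2⟩,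
    ⟨false, nat_lit 64, nat_lit 4849, nat_lit 2, nat_lit 2⟩, ⟨true, nat_lit 16, nat_lit 4817, nat_lit 2, nat_lit 1⟩, ⟨false, nat_lit 2048, nat_lit 7457, nat_lit 2, nat_lit 1⟩,
    ⟨false, nat_lit 256, nat_lit 6945, nat_lit 2, nat_lit 1⟩, ⟨true, nat_lit 1, nat_lit 7135, nat_lit 3, nat_lit 3⟩, ⟨false, nat_lit 32768, nat_lit 58400, nat_lit 2, nat_lit 0⟩,
    ⟨false, nat_lit 1024, nat_lit 39968, nat_lit 2, nat_lit 0⟩, ⟨true, nat_lit 32, nat_lit 40928, nat_lit 3, nat_lit 1⟩, ⟨false, nat_lit 16384, nat_lit 57344, nat_lit 1, nat_lit 1⟩,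
    ⟨false, nat_lit 8192, nat_lit 57344, nat_lit 1, nat_lit 1⟩]

def r20_0_3 : List Wr := [
    ⟨true, nat_lit 4, nat_lit 7, nat_lit 1, nat_lit 1⟩, ⟨false, nat_lit 4096, nat_lit 8187, nat_lit 4, nat_lit 1⟩, ⟨false, nat_lit 8, nat_lit 4107, nat_lit 1, nat_lit 2⟩,
    ⟨true, nat_lit 2, nat_lit 4111, nat_lit 2, nat_lit 0⟩, ⟨false, nat_lit 128, nat_lit 4337, nat_lit 2, nat_lit 1⟩, ⟨true, nat_lit 16, nat_lit 4241, nat_lit 1, nat_lit 2⟩,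
    ⟨false, nat_lit 512, nat_lit 4961, nat_lit 2, nat_lit 1⟩, ⟨false, nat_lit 64, nat_lit 4833, nat_lit 2, nat_lit 1⟩, ⟨true, nat_lit 1, nat_lit 4831, nat_lit 3, nat_lit 1⟩,
    ⟨false, nat_lit 32768, nat_lit 60704, nat_lit 2, nat_lit 2⟩, ⟨false, nat_lit 2048, nat_lit 40224, nat_lit 2, nat_lit 1⟩, ⟨true, nat_lit 256, nat_lit 39712, nat_lit 2, nat_lit 1⟩,
    ⟨false, nat_lit 16384, nat_lit 58400, nat_lit 2, nat_lit 0⟩, ⟨false, nat_lit 1024, nat_lit 56352, nat_lit 2, nat_lit 1⟩, ⟨true, nat_lit 32, nat_lit 57312, nat_lit 3, nat_lit 2⟩,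
    ⟨false, nat_lit 8192, nat_lit 57344, nat_lit 1, nat_lit 1⟩]

def r20_0_4 : List Wr := [
    ⟨false, nat_lit 4096, nat_lit 8191, nat_lit 4, nat_lit 2⟩, ⟨false, nat_lit 128, nat_lit 4351, nat_lit 3, nat_lit 1⟩, ⟨true, nat_lit 4, nat_lit 4231, nat_lit 2, nat_lit 0⟩,
    ⟨false, nat_lit 256, nat_lit 4475, nat_lit 2, nat_lit 3⟩, ⟨false, nat_lit 64, nat_lit 4603, nat_lit 3, nat_lit 1⟩, ⟨false, nat_lit 16, nat_lit 4571, nat_lit 2, nat_lit 3⟩,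
    ⟨true, nat_lit 8, nat_lit 4571, nat_lit 2, nat_lit 3⟩, ⟨false, nat_lit 32768, nat_lit 60963, nat_lit 3, nat_lit 1⟩, ⟨false, nat_lit 32, nat_lit 37347, nat_lit 3, nat_lit 0⟩,
    ⟨true, nat_lit 2, nat_lit 37375, nat_lit 3, nat_lit 3⟩, ⟨false, nat_lit 2048, nat_lit 40449, nat_lit 2, nat_lit 1⟩, ⟨true, nat_lit 512, nat_lit 39425, nat_lit 1, nat_lit 3⟩,
    ⟨false, nat_lit 16384, nat_lit 58369, nat_lit 2, nat_lit 0⟩, ⟨false, nat_lit 1024, nat_lit 56321, nat_lit 2, nat_lit 1⟩, ⟨true, nat_lit 1, nat_lit 57343, nat_lit 5, nat_lit 1⟩,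
    ⟨false, nat_lit 8192, nat_lit 57344, nat_lit 1, nat_lit 1⟩]

def r20_0_5 : List Wr := [
    ⟨false, nat_lit 4096, nat_lit 8191, nat_lit 4, nat_lit 2⟩, ⟨false, nat_lit 128, nat_lit 4351, nat_lit 3, nat_lit 1⟩, ⟨true, nat_lit 4, nat_lit 4231, nat_lit 2, nat_lit 0⟩,
    ⟨false, nat_lit 64, nat_lit 4347, nat_lit 2, nat_lit 3⟩, ⟨true, nat_lit 16, nat_lit 4315, nat_lit 2, nat_lit 2⟩, ⟨false, nat_lit 512, nat_lit 4907, nat_lit 2, nat_lit 2⟩,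
    ⟨false, nat_lit 8, nat_lit 4827, nat_lit 2, nat_lit 3⟩, ⟨true, nat_lit 2, nat_lit 4831, nat_lit 3, nat_lit 1⟩, ⟨false, nat_lit 2048, nat_lit 7457, nat_lit 2, nat_lit 1⟩,
    ⟨false, nat_lit 256, nat_lit 6945, nat_lit 2, nat_lit 1⟩, ⟨true, nat_lit 1, nat_lit 7135, nat_lit 3, nat_lit 3⟩, ⟨false, nat_lit 32768, nat_lit 58400, nat_lit 2, nat_lit 0⟩,
    ⟨false, nat_lit 1024, nat_lit 39968, nat_lit 2, nat_lit 0⟩, ⟨true, nat_lit 32, nat_lit 40928, nat_lit 3, nat_lit 1⟩, ⟨false, nat_lit 16384, nat_lit 57344, nat_lit 1, nat_lit 1⟩,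
    ⟨false, nat_lit 8192, nat_lit 57344, nat_lit 1, nat_lit 1⟩]

def r20_0_6 : List Wr := [
    ⟨false, nat_lit 4096, nat_lit 8191, nat_lit 4, nat_lit 2⟩, ⟨false, nat_lit 128, nat_lit 4351, nat_lit 3, nat_lit 1⟩, ⟨true, nat_lit 4, nat_lit 4231, nat_lit 2, nat_lit 0⟩,
    ⟨false, nat_lit 64, nat_lit 4347, nat_lit 2, nat_lit 3⟩, ⟨true, nat_lit 16, nat_lit 4315, nat_lit 2, nat_lit 2⟩, ⟨false, nat_lit 256, nat_lit 4395, nat_lit 2, nat_lit 1⟩,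
    ⟨false, nat_lit 8, nat_lit 4571, nat_lit 2, nat_lit 3⟩, ⟨true, nat_lit 2, nat_lit 4575, nat_lit 3, nat_lit 1⟩, ⟨false, nat_lit 2048, nat_lit 7713, nat_lit 2, nat_lit 1⟩,
    ⟨false, nat_lit 512, nat_lit 6689, nat_lit 1, nat_lit 3⟩, ⟨true, nat_lit 32, nat_lit 7137, nat_lit 3, nat_lit 0⟩, ⟨false, nat_lit 32768, nat_lit 58369, nat_lit 2, nat_lit 0⟩,
    ⟨false, nat_lit 1024, nat_lit 39937, nat_lit 2, nat_lit 0⟩, ⟨true, nat_lit 1, nat_lit 40959, nat_lit 4, nat_lit 3⟩, ⟨false, nat_lit 16384, nat_lit 57344, nat_lit 1, nat_lit 1⟩,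
    ⟨false, nat_lit 8192, nat_lit 57344, nat_lit 1, nat_lit 1⟩]

def r20_0_7 : List Wr := [
    ⟨true, nat_lit 4, nat_lit 7, nat_lit 1, nat_lit 1⟩, ⟨false, nat_lit 4096, nat_lit 8187, nat_lit 4, nat_lit 1⟩, ⟨false, nat_lit 128, nat_lit 4347, nat_lit 3, nat_lit 0⟩,
    ⟨true, nat_lit 2, nat_lit 4231, nat_lit 2, nat_lit 0⟩, ⟨false, nat_lit 512, nat_lit 4985, nat_lit 2, nat_lit 3⟩, ⟨false, nat_lit 256, nat_lit 4985, nat_lit 2, nat_lit 3⟩,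
    ⟨true, nat_lit 16, nat_lit 5017, nat_lit 2, nat_lit 2⟩, ⟨true, nat_lit 64, nat_lit 5097, nat_lit 2, nat_lit 3⟩, ⟨false, nat_lit 2048, nat_lit 7209, nat_lit 2, nat_lit 1⟩,
    ⟨false, nat_lit 32, nat_lit 7145, nat_lit 3, nat_lit 1⟩, ⟨true, nat_lit 8, nat_lit 7161, nat_lit 3, nat_lit 2⟩, ⟨false, nat_lit 32768, nat_lit 58369, nat_lit 2, nat_lit 0⟩,
    ⟨false, nat_lit 1024, nat_lit 39937, nat_lit 2, nat_lit 0⟩, ⟨true, nat_lit 1, nat_lit 40959, nat_lit 4, nat_lit 3⟩, ⟨false, nat_lit 16384, nat_lit 57344, nat_lit 1, nat_lit 1⟩,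
    ⟨false, nat_lit 8192, nat_lit 57344, nat_lit 1, nat_lit 1⟩]

def r20_0_8 : List Wr := [
    ⟨true, nat_lit 4, nat_lit 7, nat_lit 1, nat_lit 1⟩, ⟨false, nat_lit 32768, nat_lit 65531, nat_lit 4, nat_lit 4⟩, ⟨false, nat_lit 128, nat_lit 33019, nat_lit 3, nat_lit 0⟩,
    ⟨true, nat_lit 2, nat_lit 32903, nat_lit 2, nat_lit 0⟩, ⟨false, nat_lit 4096, nat_lit 40825, nat_lit 3, nat_lit 3⟩, ⟨false, nat_lit 256, nat_lit 37241, nat_lit 2, nat_lit 3⟩,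
    ⟨false, nat_lit 64, nat_lit 37369, nat_lit 3, nat_lit 1⟩, ⟨true, nat_lit 16, nat_lit 37337, nat_lit 2, nat_lit 3⟩, ⟨false, nat_lit 2048, nat_lit 40489, nat_lit 3, nat_lit 0⟩,
    ⟨false, nat_lit 32, nat_lit 39401, nat_lit 3, nat_lit 1⟩, ⟨true, nat_lit 8, nat_lit 39417, nat_lit 3, nat_lit 2⟩, ⟨true, nat_lit 512, nat_lit 39425, nat_lit 1, nat_lit 3⟩,
    ⟨false, nat_lit 16384, nat_lit 58369, nat_lit 2, nat_lit 0⟩, ⟨false, nat_lit 1024, nat_lit 56321, nat_lit 2, nat_lit 1⟩, ⟨true, nat_lit 1, nat_lit 57343, nat_lit 5, nat_lit 1⟩,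
    ⟨false, nat_lit 8192, nat_lit 57344, nat_lit 1, nat_lit 1⟩]

def r20_0_9 : List Wr := [
    ⟨true, nat_lit 4, nat_lit 7, nat_lit 1, nat_lit 1⟩, ⟨false, nat_lit 4096, nat_lit 8187, nat_lit 4, nat_lit 1⟩, ⟨false, nat_lit 16, nat_lit 4123, nat_lit 1, nat_lit 3⟩,
    ⟨true, nat_lit 2, nat_lit 4119, nat_lit 2, nat_lit 0⟩, ⟨true, nat_lit 128, nat_lit 4329, nat_lit 2, nat_lit 1⟩, ⟨false, nat_lit 512, nat_lit 4969, nat_lit 2, nat_lit 2⟩,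
    ⟨false, nat_lit 64, nat_lit 4841, nat_lit 2, nat_lit 2⟩, ⟨true, nat_lit 8, nat_lit 4825, nat_lit 2, nat_lit 2⟩, ⟨false, nat_lit 2048, nat_lit 7457, nat_lit 2, nat_lit 1⟩,
    ⟨false, nat_lit 256, nat_lit 6945, nat_lit 2, nat_lit 1⟩, ⟨true, nat_lit 1, nat_lit 7135, nat_lit 3, nat_lit 3⟩, ⟨false, nat_lit 32768, nat_lit 58400, nat_lit 2, nat_lit 0⟩,
    ⟨false, nat_lit 1024, nat_lit 39968, nat_lit 2, nat_lit 0⟩, ⟨true, nat_lit 32, nat_lit 40928, nat_lit 3, nat_lit 1⟩, ⟨false, nat_lit 16384, nat_lit 57344, nat_lit 1, nat_lit 1⟩,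
    ⟨false, nat_lit 8192, nat_lit 57344, nat_lit 1, nat_lit 1⟩]

def r20_0_10 : List Wr := [
    ⟨true, nat_lit 4, nat_lit 7, nat_lit 1, nat_lit 1⟩, ⟨false, nat_lit 4096, nat_lit 8187, nat_lit 4, nat_lit 1⟩, ⟨false, nat_lit 16, nat_lit 4123, nat_lit 1, nat_lit 3⟩,
    ⟨true, nat_lit 2, nat_lit 4119, nat_lit 2, nat_lit 0⟩, ⟨false, nat_lit 128, nat_lit 4329, nat_lit 2, nat_lit 1⟩, ⟨true, nat_lit 8, nat_lit 4249, nat_lit 1, nat_lit 3⟩,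
    ⟨false, nat_lit 512, nat_lit 4961, nat_lit 2, nat_lit 1⟩, ⟨false, nat_lit 64, nat_lit 4833, nat_lit 2, nat_lit 1⟩, ⟨true, nat_lit 1, nat_lit 4831, nat_lit 3, nat_lit 1⟩,
    ⟨false, nat_lit 32768, nat_lit 60704, nat_lit 2, nat_lit 2⟩, ⟨false, nat_lit 2048, nat_lit 40224, nat_lit 2, nat_lit 1⟩, ⟨true, nat_lit 256, nat_lit 39712, nat_lit 2, nat_lit 1⟩,
    ⟨false, nat_lit 16384, nat_lit 58400, nat_lit 2, nat_lit 0⟩, ⟨false, nat_lit 1024, nat_lit 56352, nat_lit 2, nat_lit 1⟩, ⟨true, nat_lit 32, nat_lit 57312, nat_lit 3, nat_lit 2⟩,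
    ⟨false, nat_lit 8192, nat_lit 57344, nat_lit 1, nat_lit 1⟩]

def r20_0_11 : List Wr := [
    ⟨false, nat_lit 4, nat_lit 7, nat_lit 1, nat_lit 1⟩, ⟨true, nat_lit 2, nat_lit 7, nat_lit 1, nat_lit 1⟩, ⟨false, nat_lit 128, nat_lit 249, nat_lit 2, nat_lit 1⟩,
    ⟨false, nat_lit 16, nat_lit 153, nat_lit 1, nat_lit 2⟩, ⟨true, nat_lit 1, nat_lit 151, nat_lit 2, nat_lit 0⟩, ⟨false, nat_lit 4096, nat_lit 8040, nat_lit 3, nat_lit 0⟩,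
    ⟨false, nat_lit 64, nat_lit 4328, nat_lit 2, nat_lit 0⟩, ⟨true, nat_lit 8, nat_lit 4312, nat_lit 1, nat_lit 3⟩, ⟨true, nat_lit 512, nat_lit 4896, nat_lit 1, nat_lit 2⟩,
    ⟨false, nat_lit 32768, nat_lit 60704, nat_lit 2, nat_lit 2⟩, ⟨false, nat_lit 2048, nat_lit 40224, nat_lit 2, nat_lit 1⟩, ⟨true, nat_lit 256, nat_lit 39712, nat_lit 2, nat_lit 1⟩,
    ⟨false, nat_lit 16384, nat_lit 58400, nat_lit 2, nat_lit 0⟩, ⟨false, nat_lit 1024, nat_lit 56352, nat_lit 2, nat_lit 1⟩, ⟨true, nat_lit 32, nat_lit 57312, nat_lit 3, nat_lit 2⟩,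
    ⟨false, nat_lit 8192, nat_lit 57344, nat_lit 1, nat_lit 1⟩]

def l20_0 : List (Nat × List Wr × Nat) := [
  (nat_lit 6, r20_0_0, nat_lit 0), (nat_lit 6, r20_0_1, nat_lit 0), (nat_lit 4, r20_0_2, nat_lit 0),
  (nat_lit 4, r20_0_3, nat_lit 0), (nat_lit 6, r20_0_4, nat_lit 0), (nat_lit 6, r20_0_5, nat_lit 0),
  (nat_lit 6, r20_0_6, nat_lit 0), (nat_lit 6, r20_0_7, nat_lit 0), (nat_lit 6, r20_0_8, nat_lit 0),
  (nat_lit 6, r20_0_9, nat_lit 0), (nat_lit 6, r20_0_10, nat_lit 0), (nat_lit 6, r20_0_11, nat_lit 0)]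

def r20_1_0 : List Wr := [
    ⟨false, nat_lit 4, nat_lit 7, nat_lit 1, nat_lit 1⟩, ⟨true, nat_lit 2, nat_lit 7, nat_lit 1, nat_lit 1⟩, ⟨false, nat_lit 128, nat_lit 249, nat_lit 2, nat_lit 1⟩,
    ⟨false, nat_lit 8, nat_lit 137, nat_lit 1, nat_lit 1⟩, ⟨true, nat_lit 1, nat_lit 143, nat_lit 2, nat_lit 0⟩, ⟨false, nat_lit 4096, nat_lit 8048, nat_lit 3, nat_lit 0⟩,
    ⟨false, nat_lit 64, nat_lit 4336, nat_lit 2, nat_lit 0⟩, ⟨true, nat_lit 16, nat_lit 4304, nat_lit 1, nat_lit 2⟩, ⟨true, nat_lit 512, nat_lit 4896, nat_lit 1, nat_lit 2⟩,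
    ⟨false, nat_lit 32768, nat_lit 60704, nat_lit 2, nat_lit 2⟩, ⟨false, nat_lit 2048, nat_lit 40224, nat_lit 2, nat_lit 1⟩, ⟨true, nat_lit 256, nat_lit 39712, nat_lit 2, nat_lit 1⟩,
    ⟨false, nat_lit 16384, nat_lit 58400, nat_lit 2, nat_lit 0⟩, ⟨false, nat_lit 1024, nat_lit 56352, nat_lit 2, nat_lit 1⟩, ⟨true, nat_lit 32, nat_lit 57312, nat_lit 3, nat_lit 2⟩,
    ⟨false, nat_lit 8192, nat_lit 57344, nat_lit 1, nat_lit 1⟩]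

def r20_1_1 : List Wr := [
    ⟨false, nat_lit 4, nat_lit 7, nat_lit 1, nat_lit 1⟩, ⟨true, nat_lit 2, nat_lit 7, nat_lit 1, nat_lit 1⟩, ⟨false, nat_lit 4096, nat_lit 8185, nat_lit 3, nat_lit 3⟩,
    ⟨false, nat_lit 8, nat_lit 4105, nat_lit 1, nat_lit 1⟩, ⟨true, nat_lit 1, nat_lit 4111, nat_lit 2, nat_lit 0⟩, ⟨false, nat_lit 512, nat_lit 5104, nat_lit 2, nat_lit 2⟩,
    ⟨false, nat_lit 128, nat_lit 4848, nat_lit 2, nat_lit 1⟩, ⟨true, nat_lit 16, nat_lit 4752, nat_lit 1, nat_lit 2⟩, ⟨false, nat_lit 2048, nat_lit 7520, nat_lit 2, nat_lit 1⟩,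
    ⟨false, nat_lit 256, nat_lit 7008, nat_lit 2, nat_lit 1⟩, ⟨true, nat_lit 64, nat_lit 7136, nat_lit 2, nat_lit 2⟩, ⟨false, nat_lit 32768, nat_lit 58400, nat_lit 2, nat_lit 0⟩,
    ⟨false, nat_lit 1024, nat_lit 39968, nat_lit 2, nat_lit 0⟩, ⟨true, nat_lit 32, nat_lit 40928, nat_lit 3, nat_lit 1⟩, ⟨false, nat_lit 16384, nat_lit 57344, nat_lit 1, nat_lit 1⟩,
    ⟨false, nat_lit 8192, nat_lit 57344, nat_lit 1, nat_lit 1⟩]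

def l20_1 : List (Nat × List Wr × Nat) := [
  (nat_lit 4, r20_1_0, nat_lit 0), (nat_lit 6, r20_1_1, nat_lit 0)]

end Pool.Agent.EC4.Run
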