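import Pool.Agent.Lib.MP_ec4eff_co.R5.Srch

/-! Generated file (project R5): results of the first lune -/

namespace Pool.Agent.EC4.Run

def r81_0_0 : List Wr := [
    ⟨false, nat_lit 16, nat_lit 31, nat_lit 1, nat_lit 3⟩, ⟨false, nat_lit 8, nat_lit 31, nat_lit 2, nat_lit 0⟩, ⟨false, nat_lit 2, nat_lit 27, nat_lit 1, nat_lit 2⟩,
    ⟨true, nat_lit 1, nat_lit 27, nat_lit 1, nat_lit 2⟩, ⟨false, nat_lit 4096, nat_lit 8164, nat_lit 3, nat_lit 1⟩, ⟨false, nat_lit 128, nat_lit 4324, nat_lit 2, nat_lit 0⟩,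
    ⟨true, nat_lit 4, nat_lit 4252, nat_lit 2, nat_lit 0⟩, ⟨true, nat_lit 512, nat_lit 4960, nat_lit 1, nat_lit 3⟩, ⟨false, nat_lit 2048, nat_lit 7520, nat_lit 2, nat_lit 1⟩,
    ⟨false, nat_lit 256, nat_lit 7008, nat_lit 2, nat_lit 1⟩, ⟨true, nat_lit 64, nat_lit 7136, nat_lit 2, nat_lit 2⟩, ⟨false, nat_lit 32768, nat_lit 58400, nat_lit 2, nat_lit 0⟩,
    ⟨false, nat_lit 1024, nat_lit 39968, nat_lit 2, nat_lit 0⟩, ⟨true, nat_lit 32, nat_lit 40928, nat_lit 3, nat_lit 1⟩, ⟨false, nat_lit 16384, nat_lit 57344, nat_lit 1, nat_lit 1⟩,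
    ⟨false, nat_lit 8192, nat_lit 57344, nat_lit 1, nat_lit 1⟩]

def r81_0_1 : List Wr := [
    ⟨false, nat_lit 16, nat_lit 31, nat_lit 1, nat_lit 3⟩, ⟨false, nat_lit 8, nat_lit 31, nat_lit 2, nat_lit 0⟩, ⟨false, nat_lit 2, nat_lit 27, nat_lit 1, nat_lit 2⟩,
    ⟨true, nat_lit 1, nat_lit 27, nat_lit 1, nat_lit 2⟩, ⟨false, nat_lit 4096, nat_lit 8164, nat_lit 3, nat_lit 1⟩, ⟨false, nat_lit 128, nat_lit 4324, nat_lit 2, nat_lit 0⟩,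
    ⟨true, nat_lit 4, nat_lit 4252, nat_lit 2, nat_lit 0⟩, ⟨false, nat_lit 2048, nat_lit 8032, nat_lit 2, nat_lit 2⟩, ⟨false, nat_lit 512, nat_lit 7008, nat_lit 2, nat_lit 1⟩,
    ⟨true, nat_lit 64, nat_lit 6880, nat_lit 2, nat_lit 1⟩, ⟨true, nat_lit 256, nat_lit 6944, nat_lit 1, nat_lit 3⟩, ⟨false, nat_lit 32768, nat_lit 58400, nat_lit 2, nat_lit 0⟩,
    ⟨false, nat_lit 1024, nat_lit 39968, nat_lit 2, nat_lit 0⟩, ⟨true, nat_lit 32, nat_lit 40928, nat_lit 3, nat_lit 1⟩, ⟨false, nat_lit 16384, nat_lit 57344, nat_lit 1, nat_lit 1⟩,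
    ⟨false, nat_lit 8192, nat_lit 57344, nat_lit 1, nat_lit 1⟩]

def r81_0_2 : List Wr := [
    ⟨false, nat_lit 4096, nat_lit 8191, nat_lit 4, nat_lit 2⟩, ⟨false, nat_lit 16, nat_lit 4127, nat_lit 2, nat_lit 1⟩, ⟨true, nat_lit 1, nat_lit 4113, nat_lit 1, nat_lit 1⟩,
    ⟨false, nat_lit 128, nat_lit 4334, nat_lit 2, nat_lit 2⟩, ⟨true, nat_lit 8, nat_lit 4254, nat_lit 2, nat_lit 1⟩, ⟨false, nat_lit 512, nat_lit 4966, nat_lit 2, nat_lit 2⟩,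
    ⟨false, nat_lit 4, nat_lit 4766, nat_lit 2, nat_lit 2⟩, ⟨true, nat_lit 2, nat_lit 4766, nat_lit 2, nat_lit 2⟩, ⟨false, nat_lit 2048, nat_lit 7520, nat_lit 2, nat_lit 1⟩,
    ⟨false, nat_lit 256, nat_lit 7008, nat_lit 2, nat_lit 1⟩, ⟨true, nat_lit 64, nat_lit 7136, nat_lit 2, nat_lit 2⟩, ⟨false, nat_lit 32768, nat_lit 58400, nat_lit 2, nat_lit 0⟩,
    ⟨false, nat_lit 1024, nat_lit 39968, nat_lit 2, nat_lit 0⟩, ⟨true, nat_lit 32, nat_lit 40928, nat_lit 3, nat_lit 1⟩, ⟨false, nat_lit 16384, nat_lit 57344, nat_lit 1, nat_lit 1⟩,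
    ⟨false, nat_lit 8192, nat_lit 57344, nat_lit 1, nat_lit 1⟩]

def r81_0_3 : List Wr := [
    ⟨true, nat_lit 1, nat_lit 1, nat_lit 0, nat_lit 2⟩, ⟨true, nat_lit 16, nat_lit 30, nat_lit 1, nat_lit 2⟩, ⟨false, nat_lit 128, nat_lit 238, nat_lit 2, nat_lit 1⟩,
    ⟨false, nat_lit 8, nat_lit 158, nat_lit 2, nat_lit 0⟩, ⟨true, nat_lit 2, nat_lit 154, nat_lit 1, nat_lit 2⟩, ⟨false, nat_lit 4096, nat_lit 8036, nat_lit 3, nat_lit 0⟩,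
    ⟨false, nat_lit 64, nat_lit 4324, nat_lit 2, nat_lit 0⟩, ⟨true, nat_lit 4, nat_lit 4316, nat_lit 2, nat_lit 1⟩, ⟨true, nat_lit 512, nat_lit 4896, nat_lit 1, nat_lit 2⟩,
    ⟨false, nat_lit 32768, nat_lit 60704, nat_lit 2, nat_lit 2⟩, ⟨false, nat_lit 2048, nat_lit 40224, nat_lit 2, nat_lit 1⟩, ⟨true, nat_lit 256, nat_lit 39712, nat_lit 2, nat_lit 1⟩,
    ⟨false, nat_lit 16384, nat_lit 58400, nat_lit 2, nat_lit 0⟩, ⟨false, nat_lit 1024, nat_lit 56352, nat_lit 2, nat_lit 1⟩, ⟨true, nat_lit 32, nat_lit 57312, nat_lit 3, nat_lit 2⟩,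
    ⟨false, nat_lit 8192, nat_lit 57344, nat_lit 1, nat_lit 1⟩]

def r81_0_4 : List Wr := [
    ⟨true, nat_lit 1, nat_lit 1, nat_lit 0, nat_lit 2⟩, ⟨false, nat_lit 128, nat_lit 254, nat_lit 2, nat_lit 2⟩, ⟨false, nat_lit 16, nat_lit 158, nat_lit 2, nat_lit 0⟩,
    ⟨true, nat_lit 2, nat_lit 146, nat_lit 1, nat_lit 1⟩, ⟨true, nat_lit 8, nat_lit 156, nat_lit 1, nat_lit 2⟩, ⟨false, nat_lit 4096, nat_lit 8036, nat_lit 3, nat_lit 0⟩,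
    ⟨false, nat_lit 64, nat_lit 4324, nat_lit 2, nat_lit 0⟩, ⟨true, nat_lit 4, nat_lit 4316, nat_lit 2, nat_lit 1⟩, ⟨true, nat_lit 512, nat_lit 4896, nat_lit 1, nat_lit 2⟩,
    ⟨false, nat_lit 32768, nat_lit 60704, nat_lit 2, nat_lit 2⟩, ⟨false, nat_lit 2048, nat_lit 40224, nat_lit 2, nat_lit 1⟩, ⟨true, nat_lit 256, nat_lit 39712, nat_lit 2, nat_lit 1⟩,
    ⟨false, nat_lit 16384, nat_lit 58400, nat_lit 2, nat_lit 0⟩, ⟨false, nat_lit 1024, nat_lit 56352, nat_lit 2, nat_lit 1⟩, ⟨true, nat_lit 32, nat_lit 57312, nat_lit 3, nat_lit 2⟩,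
    ⟨false, nat_lit 8192, nat_lit 57344, nat_lit 1, nat_lit 1⟩]

def r81_0_5 : List Wr := [
    ⟨false, nat_lit 16, nat_lit 31, nat_lit 2, nat_lit 0⟩, ⟨false, nat_lit 2, nat_lit 19, nat_lit 1, nat_lit 1⟩, ⟨true, nat_lit 1, nat_lit 19, nat_lit 1, nat_lit 1⟩,
    ⟨false, nat_lit 128, nat_lit 236, nat_lit 1, nat_lit 3⟩, ⟨true, nat_lit 8, nat_lit 156, nat_lit 1, nat_lit 2⟩, ⟨false, nat_lit 4096, nat_lit 8036, nat_lit 3, nat_lit 0⟩,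
    ⟨false, nat_lit 64, nat_lit 4324, nat_lit 2, nat_lit 0⟩, ⟨true, nat_lit 4, nat_lit 4316, nat_lit 2, nat_lit 1⟩, ⟨true, nat_lit 512, nat_lit 4896, nat_lit 1, nat_lit 2⟩,
    ⟨false, nat_lit 32768, nat_lit 60704, nat_lit 2, nat_lit 2⟩, ⟨false, nat_lit 2048, nat_lit 40224, nat_lit 2, nat_lit 1⟩, ⟨true, nat_lit 256, nat_lit 39712, nat_lit 2, nat_lit 1⟩,
    ⟨false, nat_lit 16384, nat_lit 58400, nat_lit 2, nat_lit 0⟩, ⟨false, nat_lit 1024, nat_lit 56352, nat_lit 2, nat_lit 1⟩, ⟨true, nat_lit 32, nat_lit 57312, nat_lit 3, nat_lit 2⟩,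
    ⟨false, nat_lit 8192, nat_lit 57344, nat_lit 1, nat_lit 1⟩]

def r81_0_6 : List Wr := [
    ⟨false, nat_lit 16, nat_lit 31, nat_lit 2, nat_lit 0⟩, ⟨false, nat_lit 2, nat_lit 19, nat_lit 1, nat_lit 1⟩, ⟨true, nat_lit 1, nat_lit 19, nat_lit 1, nat_lit 1⟩,
    ⟨false, nat_lit 4096, nat_lit 8172, nat_lit 3, nat_lit 2⟩, ⟨false, nat_lit 128, nat_lit 4332, nat_lit 2, nat_lit 1⟩, ⟨true, nat_lit 8, nat_lit 4252, nat_lit 2, nat_lit 0⟩,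
    ⟨false, nat_lit 32768, nat_lit 61284, nat_lit 3, nat_lit 2⟩, ⟨false, nat_lit 256, nat_lit 37220, nat_lit 2, nat_lit 1⟩, ⟨false, nat_lit 64, nat_lit 37348, nat_lit 2, nat_lit 2⟩,
    ⟨true, nat_lit 32, nat_lit 37348, nat_lit 2, nat_lit 2⟩, ⟨false, nat_lit 2048, nat_lit 40452, nat_lit 2, nat_lit 1⟩, ⟨true, nat_lit 512, nat_lit 39428, nat_lit 1, nat_lit 3⟩,
    ⟨false, nat_lit 16384, nat_lit 58372, nat_lit 2, nat_lit 0⟩, ⟨false, nat_lit 1024, nat_lit 56324, nat_lit 2, nat_lit 1⟩, ⟨true, nat_lit 4, nat_lit 57340, nat_lit 4, nat_lit 2⟩,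
    ⟨false, nat_lit 8192, nat_lit 57344, nat_lit 1, nat_lit 1⟩]

def r81_0_7 : List Wr := [
    ⟨false, nat_lit 16, nat_lit 31, nat_lit 2, nat_lit 0⟩, ⟨false, nat_lit 2, nat_lit 19, nat_lit 1, nat_lit 1⟩, ⟨true, nat_lit 1, nat_lit 19, nat_lit 1, nat_lit 1⟩,
    ⟨false, nat_lit 512, nat_lit 1004, nat_lit 2, nat_lit 2⟩, ⟨false, nat_lit 128, nat_lit 748, nat_lit 2, nat_lit 1⟩, ⟨true, nat_lit 8, nat_lit 668, nat_lit 2, nat_lit 0⟩,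
    ⟨true, nat_lit 256, nat_lit 868, nat_lit 1, nat_lit 3⟩, ⟨false, nat_lit 32768, nat_lit 64612, nat_lit 3, nat_lit 1⟩, ⟨false, nat_lit 4096, nat_lit 40036, nat_lit 2, nat_lit 2⟩,
    ⟨true, nat_lit 64, nat_lit 37860, nat_lit 3, nat_lit 0⟩, ⟨false, nat_lit 2048, nat_lit 39972, nat_lit 2, nat_lit 1⟩, ⟨true, nat_lit 32, nat_lit 39908, nat_lit 2, nat_lit 4⟩,
    ⟨false, nat_lit 16384, nat_lit 58372, nat_lit 2, nat_lit 0⟩, ⟨false, nat_lit 1024, nat_lit 56324, nat_lit 2, nat_lit 1⟩, ⟨true, nat_lit 4, nat_lit 57340, nat_lit 4, nat_lit 2⟩,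
    ⟨false, nat_lit 8192, nat_lit 57344, nat_lit 1, nat_lit 1⟩]

def r81_0_8 : List Wr := [
    ⟨false, nat_lit 16, nat_lit 31, nat_lit 2, nat_lit 0⟩, ⟨false, nat_lit 2, nat_lit 19, nat_lit 1, nat_lit 1⟩, ⟨true, nat_lit 1, nat_lit 19, nat_lit 1, nat_lit 1⟩,
    ⟨false, nat_lit 4096, nat_lit 8172, nat_lit 3, nat_lit 2⟩, ⟨false, nat_lit 128, nat_lit 4332, nat_lit 2, nat_lit 1⟩, ⟨true, nat_lit 8, nat_lit 4252, nat_lit 2, nat_lit 0⟩,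
    ⟨false, nat_lit 256, nat_lit 4452, nat_lit 1, nat_lit 3⟩, ⟨true, nat_lit 64, nat_lit 4580, nat_lit 2, nat_lit 1⟩, ⟨false, nat_lit 2048, nat_lit 7716, nat_lit 2, nat_lit 1⟩,
    ⟨false, nat_lit 32, nat_lit 6628, nat_lit 2, nat_lit 2⟩, ⟨true, nat_lit 4, nat_lit 6652, nat_lit 3, nat_lit 1⟩, ⟨false, nat_lit 32768, nat_lit 58880, nat_lit 2, nat_lit 0⟩,
    ⟨false, nat_lit 1024, nat_lit 40448, nat_lit 2, nat_lit 0⟩, ⟨true, nat_lit 512, nat_lit 40448, nat_lit 1, nat_lit 3⟩, ⟨false, nat_lit 16384, nat_lit 57344, nat_lit 1, nat_lit 1⟩,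
    ⟨false, nat_lit 8192, nat_lit 57344, nat_lit 1, nat_lit 1⟩]

def r81_0_9 : List Wr := [
    ⟨false, nat_lit 16, nat_lit 31, nat_lit 2, nat_lit 0⟩, ⟨false, nat_lit 2, nat_lit 19, nat_lit 1, nat_lit 1⟩, ⟨true, nat_lit 1, nat_lit 19, nat_lit 1, nat_lit 1⟩,
    ⟨false, nat_lit 32768, nat_lit 65516, nat_lit 4, nat_lit 2⟩, ⟨false, nat_lit 128, nat_lit 33004, nat_lit 2, nat_lit 1⟩, ⟨true, nat_lit 8, nat_lit 32924, nat_lit 2, nat_lit 0⟩,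
    ⟨false, nat_lit 256, nat_lit 33124, nat_lit 1, nat_lit 3⟩, ⟨true, nat_lit 64, nat_lit 33252, nat_lit 2, nat_lit 1⟩, ⟨false, nat_lit 4096, nat_lit 40484, nat_lit 2, nat_lit 2⟩,
    ⟨false, nat_lit 2048, nat_lit 40484, nat_lit 2, nat_lit 2⟩, ⟨false, nat_lit 512, nat_lit 39460, nat_lit 2, nat_lit 1⟩, ⟨true, nat_lit 4, nat_lit 39900, nat_lit 3, nat_lit 2⟩,
    ⟨false, nat_lit 16384, nat_lit 58400, nat_lit 2, nat_lit 0⟩, ⟨false, nat_lit 1024, nat_lit 56352, nat_lit 2, nat_lit 1⟩, ⟨true, nat_lit 32, nat_lit 57312, nat_lit 3, nat_lit 2⟩,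
    ⟨false, nat_lit 8192, nat_lit 57344, nat_lit 1, nat_lit 1⟩]

def r81_0_10 : List Wr := [
    ⟨false, nat_lit 16, nat_lit 31, nat_lit 2, nat_lit 0⟩, ⟨false, nat_lit 2, nat_lit 19, nat_lit 1, nat_lit 1⟩, ⟨true, nat_lit 1, nat_lit 19, nat_lit 1, nat_lit 1⟩,
    ⟨false, nat_lit 4096, nat_lit 8172, nat_lit 3, nat_lit 2⟩, ⟨false, nat_lit 128, nat_lit 4332, nat_lit 2, nat_lit 1⟩, ⟨false, nat_lit 8, nat_lit 4252, nat_lit 2, nat_lit 0⟩,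
    ⟨true, nat_lit 4, nat_lit 4252, nat_lit 1, nat_lit 3⟩, ⟨true, nat_lit 512, nat_lit 4960, nat_lit 1, nat_lit 3⟩, ⟨false, nat_lit 2048, nat_lit 7520, nat_lit 2, nat_lit 1⟩,
    ⟨false, nat_lit 256, nat_lit 7008, nat_lit 2, nat_lit 1⟩, ⟨true, nat_lit 64, nat_lit 7136, nat_lit 2, nat_lit 2⟩, ⟨false, nat_lit 32768, nat_lit 58400, nat_lit 2, nat_lit 0⟩,
    ⟨false, nat_lit 1024, nat_lit 39968, nat_lit 2, nat_lit 0⟩, ⟨true, nat_lit 32, nat_lit 40928, nat_lit 3, nat_lit 1⟩, ⟨false, nat_lit 16384, nat_lit 57344, nat_lit 1, nat_lit 1⟩,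
    ⟨false, nat_lit 8192, nat_lit 57344, nat_lit 1, nat_lit 1⟩]

def l81_0 : List (Nat × List Wr × Nat) := [
  (nat_lit 6, r81_0_0, nat_lit 0), (nat_lit 6, r81_0_1, nat_lit 0), (nat_lit 6, r81_0_2, nat_lit 0),
  (nat_lit 6, r81_0_3, nat_lit 0), (nat_lit 6, r81_0_4, nat_lit 0), (nat_lit 6, r81_0_5, nat_lit 0),
  (nat_lit 6, r81_0_6, nat_lit 0), (nat_lit 6, r81_0_7, nat_lit 0), (nat_lit 6, r81_0_8, nat_lit 0),
  (nat_lit 6, r81_0_9, nat_lit 0), (nat_lit 6, r81_0_10, nat_lit 0)]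

def r81_1_0 : List Wr := [
    ⟨false, nat_lit 16, nat_lit 31, nat_lit 2, nat_lit 0⟩, ⟨false, nat_lit 2, nat_lit 19, nat_lit 1, nat_lit 1⟩, ⟨true, nat_lit 1, nat_lit 19, nat_lit 1, nat_lit 1⟩,
    ⟨false, nat_lit 4096, nat_lit 8172, nat_lit 3, nat_lit 2⟩, ⟨false, nat_lit 128, nat_lit 4332, nat_lit 2, nat_lit 1⟩, ⟨true, nat_lit 8, nat_lit 4252, nat_lit 2, nat_lit 0⟩,
    ⟨false, nat_lit 512, nat_lit 4964, nat_lit 2, nat_lit 1⟩, ⟨false, nat_lit 64, nat_lit 4836, nat_lit 2, nat_lit 1⟩, ⟨true, nat_lit 4, nat_lit 4828, nat_lit 2, nat_lit 2⟩,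
    ⟨true, nat_lit 256, nat_lit 4896, nat_lit 1, nat_lit 2⟩, ⟨true, nat_lit 2048, nat_lit 7200, nat_lit 1, nat_lit 2⟩, ⟨false, nat_lit 32768, nat_lit 58400, nat_lit 2, nat_lit 0⟩,
    ⟨false, nat_lit 1024, nat_lit 39968, nat_lit 2, nat_lit 0⟩, ⟨true, nat_lit 32, nat_lit 40928, nat_lit 3, nat_lit 1⟩, ⟨false, nat_lit 16384, nat_lit 57344, nat_lit 1, nat_lit 1⟩,
    ⟨false, nat_lit 8192, nat_lit 57344, nat_lit 1, nat_lit 1⟩]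

def r81_1_1 : List Wr := [
    ⟨false, nat_lit 16, nat_lit 31, nat_lit 2, nat_lit 0⟩, ⟨false, nat_lit 2, nat_lit 19, nat_lit 1, nat_lit 1⟩, ⟨true, nat_lit 1, nat_lit 19, nat_lit 1, nat_lit 1⟩,
    ⟨false, nat_lit 4096, nat_lit 8172, nat_lit 3, nat_lit 2⟩, ⟨false, nat_lit 128, nat_lit 4332, nat_lit 2, nat_lit 1⟩, ⟨true, nat_lit 8, nat_lit 4252, nat_lit 2, nat_lit 0⟩,
    ⟨false, nat_lit 512, nat_lit 4964, nat_lit 2, nat_lit 1⟩, ⟨false, nat_lit 64, nat_lit 4836, nat_lit 2, nat_lit 1⟩, ⟨true, nat_lit 4, nat_lit 4828, nat_lit 2, nat_lit 2⟩,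
    ⟨false, nat_lit 2048, nat_lit 7456, nat_lit 1, nat_lit 3⟩, ⟨true, nat_lit 256, nat_lit 6944, nat_lit 1, nat_lit 3⟩, ⟨false, nat_lit 32768, nat_lit 58400, nat_lit 2, nat_lit 0⟩,
    ⟨false, nat_lit 1024, nat_lit 39968, nat_lit 2, nat_lit 0⟩, ⟨true, nat_lit 32, nat_lit 40928, nat_lit 3, nat_lit 1⟩, ⟨false, nat_lit 16384, nat_lit 57344, nat_lit 1, nat_lit 1⟩,
    ⟨false, nat_lit 8192, nat_lit 57344, nat_lit 1, nat_lit 1⟩]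

def r81_1_2 : List Wr := [
    ⟨false, nat_lit 16, nat_lit 31, nat_lit 2, nat_lit 0⟩, ⟨false, nat_lit 2, nat_lit 19, nat_lit 1, nat_lit 1⟩, ⟨true, nat_lit 1, nat_lit 19, nat_lit 1, nat_lit 1⟩,
    ⟨false, nat_lit 4096, nat_lit 8172, nat_lit 3, nat_lit 2⟩, ⟨false, nat_lit 128, nat_lit 4332, nat_lit 2, nat_lit 1⟩, ⟨false, nat_lit 8, nat_lit 4252, nat_lit 2, nat_lit 0⟩,
    ⟨true, nat_lit 4, nat_lit 4252, nat_lit 1, nat_lit 3⟩, ⟨false, nat_lit 2048, nat_lit 8032, nat_lit 2, nat_lit 2⟩, ⟨false, nat_lit 512, nat_lit 7008, nat_lit 2, nat_lit 1⟩,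
    ⟨true, nat_lit 64, nat_lit 6880, nat_lit 2, nat_lit 1⟩, ⟨true, nat_lit 256, nat_lit 6944, nat_lit 1, nat_lit 3⟩, ⟨false, nat_lit 32768, nat_lit 58400, nat_lit 2, nat_lit 0⟩,
    ⟨false, nat_lit 1024, nat_lit 39968, nat_lit 2, nat_lit 0⟩, ⟨true, nat_lit 32, nat_lit 40928, nat_lit 3, nat_lit 1⟩, ⟨false, nat_lit 16384, nat_lit 57344, nat_lit 1, nat_lit 1⟩,
    ⟨false, nat_lit 8192, nat_lit 57344, nat_lit 1, nat_lit 1⟩]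

def r81_1_3 : List Wr := [
    ⟨false, nat_lit 16, nat_lit 31, nat_lit 2, nat_lit 0⟩, ⟨false, nat_lit 2, nat_lit 19, nat_lit 1, nat_lit 1⟩, ⟨true, nat_lit 1, nat_lit 19, nat_lit 1, nat_lit 1⟩,
    ⟨false, nat_lit 4096, nat_lit 8172, nat_lit 3, nat_lit 2⟩, ⟨false, nat_lit 128, nat_lit 4332, nat_lit 2, nat_lit 1⟩, ⟨true, nat_lit 8, nat_lit 4252, nat_lit 2, nat_lit 0⟩,
    ⟨false, nat_lit 512, nat_lit 4964, nat_lit 2, nat_lit 1⟩, ⟨false, nat_lit 64, nat_lit 4836, nat_lit 2, nat_lit 1⟩, ⟨true, nat_lit 4, nat_lit 4828, nat_lit 2, nat_lit 2⟩,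
    ⟨false, nat_lit 2048, nat_lit 7456, nat_lit 1, nat_lit 3⟩, ⟨true, nat_lit 256, nat_lit 6944, nat_lit 1, nat_lit 3⟩, ⟨false, nat_lit 32768, nat_lit 58400, nat_lit 2, nat_lit 0⟩,
    ⟨false, nat_lit 1024, nat_lit 39968, nat_lit 2, nat_lit 0⟩, ⟨true, nat_lit 32, nat_lit 40928, nat_lit 3, nat_lit 1⟩, ⟨false, nat_lit 16384, nat_lit 57344, nat_lit 1, nat_lit 1⟩,
    ⟨false, nat_lit 8192, nat_lit 57344, nat_lit 1, nat_lit 1⟩]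

def r81_1_4 : List Wr := [
    ⟨false, nat_lit 16, nat_lit 31, nat_lit 2, nat_lit 0⟩, ⟨false, nat_lit 2, nat_lit 19, nat_lit 1, nat_lit 1⟩, ⟨true, nat_lit 1, nat_lit 19, nat_lit 1, nat_lit 1⟩,
    ⟨false, nat_lit 4096, nat_lit 8172, nat_lit 3, nat_lit 2⟩, ⟨false, nat_lit 128, nat_lit 4332, nat_lit 2, nat_lit 1⟩, ⟨true, nat_lit 8, nat_lit 4252, nat_lit 2, nat_lit 0⟩,
    ⟨false, nat_lit 512, nat_lit 4964, nat_lit 2, nat_lit 1⟩, ⟨false, nat_lit 64, nat_lit 4836, nat_lit 2, nat_lit 1⟩, ⟨true, nat_lit 4, nat_lit 4828, nat_lit 2, nat_lit 2⟩,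
    ⟨true, nat_lit 256, nat_lit 4896, nat_lit 1, nat_lit 2⟩, ⟨false, nat_lit 32768, nat_lit 60448, nat_lit 2, nat_lit 1⟩, ⟨false, nat_lit 2048, nat_lit 39968, nat_lit 2, nat_lit 0⟩,
    ⟨true, nat_lit 32, nat_lit 39904, nat_lit 3, nat_lit 0⟩, ⟨true, nat_lit 1024, nat_lit 39936, nat_lit 1, nat_lit 2⟩, ⟨false, nat_lit 16384, nat_lit 57344, nat_lit 1, nat_lit 1⟩,
    ⟨false, nat_lit 8192, nat_lit 57344, nat_lit 1, nat_lit 1⟩]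

def r81_1_5 : List Wr := [
    ⟨false, nat_lit 16, nat_lit 31, nat_lit 2, nat_lit 0⟩, ⟨false, nat_lit 2, nat_lit 19, nat_lit 1, nat_lit 1⟩, ⟨true, nat_lit 1, nat_lit 19, nat_lit 1, nat_lit 1⟩,
    ⟨false, nat_lit 4096, nat_lit 8172, nat_lit 3, nat_lit 2⟩, ⟨false, nat_lit 128, nat_lit 4332, nat_lit 2, nat_lit 1⟩, ⟨true, nat_lit 8, nat_lit 4252, nat_lit 2, nat_lit 0⟩,
    ⟨false, nat_lit 512, nat_lit 4964, nat_lit 2, nat_lit 1⟩, ⟨false, nat_lit 64, nat_lit 4836, nat_lit 2, nat_lit 1⟩, ⟨true, nat_lit 4, nat_lit 4828, nat_lit 2, nat_lit 2⟩,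
    ⟨true, nat_lit 256, nat_lit 4896, nat_lit 1, nat_lit 2⟩, ⟨false, nat_lit 32768, nat_lit 60448, nat_lit 2, nat_lit 1⟩, ⟨false, nat_lit 2048, nat_lit 39968, nat_lit 2, nat_lit 0⟩,
    ⟨true, nat_lit 32, nat_lit 39904, nat_lit 3, nat_lit 0⟩, ⟨false, nat_lit 16384, nat_lit 58368, nat_lit 1, nat_lit 2⟩, ⟨true, nat_lit 1024, nat_lit 56320, nat_lit 1, nat_lit 3⟩,
    ⟨false, nat_lit 8192, nat_lit 57344, nat_lit 1, nat_lit 1⟩]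

def r81_1_6 : List Wr := [
    ⟨false, nat_lit 16, nat_lit 31, nat_lit 2, nat_lit 0⟩, ⟨false, nat_lit 2, nat_lit 19, nat_lit 1, nat_lit 1⟩, ⟨true, nat_lit 1, nat_lit 19, nat_lit 1, nat_lit 1⟩,
    ⟨false, nat_lit 4096, nat_lit 8172, nat_lit 3, nat_lit 2⟩, ⟨false, nat_lit 128, nat_lit 4332, nat_lit 2, nat_lit 1⟩, ⟨true, nat_lit 8, nat_lit 4252, nat_lit 2, nat_lit 0⟩,
    ⟨false, nat_lit 512, nat_lit 4964, nat_lit 2, nat_lit 1⟩, ⟨false, nat_lit 64, nat_lit 4836, nat_lit 2, nat_lit 1⟩, ⟨true, nat_lit 4, nat_lit 4828, nat_lit 2, nat_lit 2⟩,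
    ⟨true, nat_lit 256, nat_lit 4896, nat_lit 1, nat_lit 2⟩, ⟨false, nat_lit 32768, nat_lit 60448, nat_lit 2, nat_lit 1⟩, ⟨false, nat_lit 2048, nat_lit 39968, nat_lit 2, nat_lit 0⟩,
    ⟨true, nat_lit 32, nat_lit 39904, nat_lit 3, nat_lit 0⟩, ⟨false, nat_lit 16384, nat_lit 58368, nat_lit 1, nat_lit 2⟩, ⟨true, nat_lit 1024, nat_lit 56320, nat_lit 1, nat_lit 3⟩,
    ⟨false, nat_lit 8192, nat_lit 57344, nat_lit 1, nat_lit 1⟩]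

def l81_1 : List (Nat × List Wr × Nat) := [
  (nat_lit 4, r81_1_0, nat_lit 0), (nat_lit 5, r81_1_1, nat_lit 1), (nat_lit 6, r81_1_2, nat_lit 0),
  (nat_lit 6, r81_1_3, nat_lit 0), (nat_lit 4, r81_1_4, nat_lit 0), (nat_lit 5, r81_1_5, nat_lit 1),
  (nat_lit 6, r81_1_6, nat_lit 0)]

def r81_2_0 : List Wr := [
    ⟨false, nat_lit 16, nat_lit 31, nat_lit 2, nat_lit 0⟩, ⟨false, nat_lit 2, nat_lit 19, nat_lit 1, nat_lit 1⟩, ⟨true, nat_lit 1, nat_lit 19, nat_lit 1, nat_lit 1⟩,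
    ⟨true, nat_lit 8, nat_lit 28, nat_lit 1, nat_lit 1⟩, ⟨true, nat_lit 128, nat_lit 228, nat_lit 1, nat_lit 2⟩, ⟨false, nat_lit 4096, nat_lit 8036, nat_lit 3, nat_lit 0⟩,
    ⟨false, nat_lit 64, nat_lit 4324, nat_lit 2, nat_lit 0⟩, ⟨true, nat_lit 4, nat_lit 4316, nat_lit 2, nat_lit 1⟩, ⟨true, nat_lit 512, nat_lit 4896, nat_lit 1, nat_lit 2⟩,
    ⟨false, nat_lit 32768, nat_lit 60704, nat_lit 2, nat_lit 2⟩, ⟨false, nat_lit 2048, nat_lit 40224, nat_lit 2, nat_lit 1⟩, ⟨true, nat_lit 256, nat_lit 39712, nat_lit 2, nat_lit 1⟩,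
    ⟨false, nat_lit 16384, nat_lit 58400, nat_lit 2, nat_lit 0⟩, ⟨false, nat_lit 1024, nat_lit 56352, nat_lit 2, nat_lit 1⟩, ⟨true, nat_lit 32, nat_lit 57312, nat_lit 3, nat_lit 2⟩,
    ⟨false, nat_lit 8192, nat_lit 57344, nat_lit 1, nat_lit 1⟩]

def l81_2 : List (Nat × List Wr × Nat) := [
  (nat_lit 4, r81_2_0, nat_lit 0)]

def r81_3_0 : List Wr := [
    ⟨false, nat_lit 16, nat_lit 31, nat_lit 2, nat_lit 0⟩, ⟨false, nat_lit 2, nat_lit 19, nat_lit 1, nat_lit 1⟩, ⟨true, nat_lit 1, nat_lit 19, nat_lit 1, nat_lit 1⟩,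
    ⟨false, nat_lit 128, nat_lit 236, nat_lit 1, nat_lit 3⟩, ⟨true, nat_lit 8, nat_lit 156, nat_lit 1, nat_lit 2⟩, ⟨false, nat_lit 4096, nat_lit 8036, nat_lit 3, nat_lit 0⟩,
    ⟨false, nat_lit 64, nat_lit 4324, nat_lit 2, nat_lit 0⟩, ⟨true, nat_lit 4, nat_lit 4316, nat_lit 2, nat_lit 1⟩, ⟨true, nat_lit 512, nat_lit 4896, nat_lit 1, nat_lit 2⟩,
    ⟨false, nat_lit 32768, nat_lit 60704, nat_lit 2, nat_lit 2⟩, ⟨false, nat_lit 2048, nat_lit 40224, nat_lit 2, nat_lit 1⟩, ⟨true, nat_lit 256, nat_lit 39712, nat_lit 2, nat_lit 1⟩,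
    ⟨false, nat_lit 16384, nat_lit 58400, nat_lit 2, nat_lit 0⟩, ⟨false, nat_lit 1024, nat_lit 56352, nat_lit 2, nat_lit 1⟩, ⟨true, nat_lit 32, nat_lit 57312, nat_lit 3, nat_lit 2⟩,
    ⟨false, nat_lit 8192, nat_lit 57344, nat_lit 1, nat_lit 1⟩]

def r81_3_1 : List Wr := [
    ⟨false, nat_lit 16, nat_lit 31, nat_lit 2, nat_lit 0⟩, ⟨false, nat_lit 2, nat_lit 19, nat_lit 1, nat_lit 1⟩, ⟨true, nat_lit 1, nat_lit 19, nat_lit 1, nat_lit 1⟩,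
    ⟨false, nat_lit 32768, nat_lit 65516, nat_lit 4, nat_lit 2⟩, ⟨false, nat_lit 128, nat_lit 33004, nat_lit 2, nat_lit 1⟩, ⟨true, nat_lit 8, nat_lit 32924, nat_lit 2, nat_lit 0⟩,
    ⟨false, nat_lit 4096, nat_lit 40804, nat_lit 2, nat_lit 4⟩, ⟨true, nat_lit 64, nat_lit 37092, nat_lit 2, nat_lit 1⟩, ⟨false, nat_lit 2048, nat_lit 40740, nat_lit 3, nat_lit 0⟩,
    ⟨false, nat_lit 32, nat_lit 39140, nat_lit 2, nat_lit 2⟩, ⟨true, nat_lit 4, nat_lit 39164, nat_lit 3, nat_lit 1⟩, ⟨true, nat_lit 512, nat_lit 39680, nat_lit 1, nat_lit 3⟩,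
    ⟨false, nat_lit 16384, nat_lit 58624, nat_lit 2, nat_lit 0⟩, ⟨false, nat_lit 1024, nat_lit 56576, nat_lit 2, nat_lit 1⟩, ⟨true, nat_lit 256, nat_lit 57088, nat_lit 2, nat_lit 2⟩,
    ⟨false, nat_lit 8192, nat_lit 57344, nat_lit 1, nat_lit 1⟩]

def r81_3_2 : List Wr := [
    ⟨false, nat_lit 16, nat_lit 31, nat_lit 2, nat_lit 0⟩, ⟨false, nat_lit 2, nat_lit 19, nat_lit 1, nat_lit 1⟩, ⟨true, nat_lit 1, nat_lit 19, nat_lit 1, nat_lit 1⟩,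
    ⟨true, nat_lit 8, nat_lit 28, nat_lit 1, nat_lit 1⟩, ⟨false, nat_lit 256, nat_lit 484, nat_lit 1, nat_lit 3⟩, ⟨false, nat_lit 128, nat_lit 484, nat_lit 2, nat_lit 0⟩,
    ⟨true, nat_lit 4, nat_lit 412, nat_lit 2, nat_lit 0⟩, ⟨false, nat_lit 32768, nat_lit 65120, nat_lit 3, nat_lit 1⟩, ⟨false, nat_lit 4096, nat_lit 40544, nat_lit 2, nat_lit 2⟩,
    ⟨true, nat_lit 64, nat_lit 37344, nat_lit 2, nat_lit 1⟩, ⟨false, nat_lit 2048, nat_lit 40480, nat_lit 2, nat_lit 1⟩, ⟨true, nat_lit 512, nat_lit 39456, nat_lit 1, nat_lit 3⟩,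
    ⟨false, nat_lit 16384, nat_lit 58400, nat_lit 2, nat_lit 0⟩, ⟨false, nat_lit 1024, nat_lit 56352, nat_lit 2, nat_lit 1⟩, ⟨true, nat_lit 32, nat_lit 57312, nat_lit 3, nat_lit 2⟩,
    ⟨false, nat_lit 8192, nat_lit 57344, nat_lit 1, nat_lit 1⟩]

def r81_3_3 : List Wr := [
    ⟨false, nat_lit 16, nat_lit 31, nat_lit 2, nat_lit 0⟩, ⟨false, nat_lit 2, nat_lit 19, nat_lit 1, nat_lit 1⟩, ⟨true, nat_lit 1, nat_lit 19, nat_lit 1, nat_lit 1⟩,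
    ⟨true, nat_lit 8, nat_lit 28, nat_lit 1, nat_lit 1⟩, ⟨false, nat_lit 4096, nat_lit 8164, nat_lit 2, nat_lit 4⟩, ⟨false, nat_lit 512, nat_lit 5092, nat_lit 2, nat_lit 2⟩,
    ⟨false, nat_lit 128, nat_lit 4836, nat_lit 2, nat_lit 1⟩, ⟨true, nat_lit 4, nat_lit 4764, nat_lit 2, nat_lit 1⟩, ⟨false, nat_lit 2048, nat_lit 7520, nat_lit 2, nat_lit 1⟩,
    ⟨false, nat_lit 256, nat_lit 7008, nat_lit 2, nat_lit 1⟩, ⟨true, nat_lit 64, nat_lit 7136, nat_lit 2, nat_lit 2⟩, ⟨false, nat_lit 32768, nat_lit 58400, nat_lit 2, nat_lit 0⟩,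
    ⟨false, nat_lit 1024, nat_lit 39968, nat_lit 2, nat_lit 0⟩, ⟨true, nat_lit 32, nat_lit 40928, nat_lit 3, nat_lit 1⟩, ⟨false, nat_lit 16384, nat_lit 57344, nat_lit 1, nat_lit 1⟩,
    ⟨false, nat_lit 8192, nat_lit 57344, nat_lit 1, nat_lit 1⟩]

def r81_3_4 : List Wr := [
    ⟨false, nat_lit 16, nat_lit 31, nat_lit 2, nat_lit 0⟩, ⟨false, nat_lit 2, nat_lit 19, nat_lit 1, nat_lit 1⟩, ⟨true, nat_lit 1, nat_lit 19, nat_lit 1, nat_lit 1⟩,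
    ⟨true, nat_lit 8, nat_lit 28, nat_lit 1, nat_lit 1⟩, ⟨false, nat_lit 4096, nat_lit 8164, nat_lit 3, nat_lit 1⟩, ⟨false, nat_lit 128, nat_lit 4324, nat_lit 2, nat_lit 0⟩,
    ⟨true, nat_lit 4, nat_lit 4252, nat_lit 2, nat_lit 0⟩, ⟨true, nat_lit 512, nat_lit 4960, nat_lit 1, nat_lit 3⟩, ⟨false, nat_lit 2048, nat_lit 7520, nat_lit 2, nat_lit 1⟩,
    ⟨false, nat_lit 256, nat_lit 7008, nat_lit 2, nat_lit 1⟩, ⟨true, nat_lit 64, nat_lit 7136, nat_lit 2, nat_lit 2⟩, ⟨false, nat_lit 32768, nat_lit 58400, nat_lit 2, nat_lit 0⟩,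
    ⟨false, nat_lit 1024, nat_lit 39968, nat_lit 2, nat_lit 0⟩, ⟨true, nat_lit 32, nat_lit 40928, nat_lit 3, nat_lit 1⟩, ⟨false, nat_lit 16384, nat_lit 57344, nat_lit 1, nat_lit 1⟩,
    ⟨false, nat_lit 8192, nat_lit 57344, nat_lit 1, nat_lit 1⟩]

def r81_3_5 : List Wr := [
    ⟨false, nat_lit 16, nat_lit 31, nat_lit 2, nat_lit 0⟩, ⟨false, nat_lit 2, nat_lit 19, nat_lit 1, nat_lit 1⟩, ⟨true, nat_lit 1, nat_lit 19, nat_lit 1, nat_lit 1⟩,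
    ⟨true, nat_lit 8, nat_lit 28, nat_lit 1, nat_lit 1⟩, ⟨false, nat_lit 4096, nat_lit 8164, nat_lit 3, nat_lit 1⟩, ⟨false, nat_lit 128, nat_lit 4324, nat_lit 2, nat_lit 0⟩,
    ⟨true, nat_lit 4, nat_lit 4252, nat_lit 2, nat_lit 0⟩, ⟨false, nat_lit 512, nat_lit 4960, nat_lit 1, nat_lit 3⟩, ⟨true, nat_lit 64, nat_lit 4832, nat_lit 1, nat_lit 3⟩,
    ⟨false, nat_lit 32768, nat_lit 60704, nat_lit 2, nat_lit 2⟩, ⟨false, nat_lit 2048, nat_lit 40224, nat_lit 2, nat_lit 1⟩, ⟨true, nat_lit 256, nat_lit 39712, nat_lit 2, nat_lit 1⟩,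
    ⟨false, nat_lit 16384, nat_lit 58400, nat_lit 2, nat_lit 0⟩, ⟨false, nat_lit 1024, nat_lit 56352, nat_lit 2, nat_lit 1⟩, ⟨true, nat_lit 32, nat_lit 57312, nat_lit 3, nat_lit 2⟩,
    ⟨false, nat_lit 8192, nat_lit 57344, nat_lit 1, nat_lit 1⟩]

def r81_3_6 : List Wr := [
    ⟨false, nat_lit 16, nat_lit 31, nat_lit 2, nat_lit 0⟩, ⟨false, nat_lit 2, nat_lit 19, nat_lit 1, nat_lit 1⟩, ⟨true, nat_lit 1, nat_lit 19, nat_lit 1, nat_lit 1⟩,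
    ⟨true, nat_lit 8, nat_lit 28, nat_lit 1, nat_lit 1⟩, ⟨false, nat_lit 4096, nat_lit 8164, nat_lit 3, nat_lit 1⟩, ⟨false, nat_lit 128, nat_lit 4324, nat_lit 2, nat_lit 0⟩,
    ⟨true, nat_lit 4, nat_lit 4252, nat_lit 2, nat_lit 0⟩, ⟨true, nat_lit 512, nat_lit 4960, nat_lit 1, nat_lit 3⟩, ⟨false, nat_lit 2048, nat_lit 7520, nat_lit 2, nat_lit 1⟩,
    ⟨false, nat_lit 256, nat_lit 7008, nat_lit 2, nat_lit 1⟩, ⟨true, nat_lit 64, nat_lit 7136, nat_lit 2, nat_lit 2⟩, ⟨false, nat_lit 32768, nat_lit 58400, nat_lit 1, nat_lit 3⟩,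
    ⟨false, nat_lit 16384, nat_lit 58400, nat_lit 2, nat_lit 0⟩, ⟨false, nat_lit 1024, nat_lit 56352, nat_lit 2, nat_lit 1⟩, ⟨true, nat_lit 32, nat_lit 57312, nat_lit 3, nat_lit 2⟩,
    ⟨false, nat_lit 8192, nat_lit 57344, nat_lit 1, nat_lit 1⟩]

def l81_3 : List (Nat × List Wr × Nat) := [
  (nat_lit 5, r81_3_0, nat_lit 1), (nat_lit 6, r81_3_1, nat_lit 0), (nat_lit 6, r81_3_2, nat_lit 0),
  (nat_lit 6, r81_3_3, nat_lit 0), (nat_lit 2, r81_3_4, nat_lit 0), (nat_lit 6, r81_3_5, nat_lit 0),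
  (nat_lit 6, r81_3_6, nat_lit 0)]

end Pool.Agent.EC4.Run
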