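import Pool.Agent.Lib.MP_ec4eff_co.R5.Srch

/-! Generated file (project R5): results of the first lune -/

namespace Pool.Agent.EC4.Run

def r81_4_0 : List Wr := [
    ⟨false, nat_lit 16, nat_lit 31, nat_lit 2, nat_lit 0⟩, ⟨false, nat_lit 2, nat_lit 19, nat_lit 1, nat_lit 1⟩, ⟨true, nat_lit 1, nat_lit 19, nat_lit 1, nat_lit 1⟩,
    ⟨true, nat_lit 8, nat_lit 28, nat_lit 1, nat_lit 1⟩, ⟨false, nat_lit 4096, nat_lit 8164, nat_lit 3, nat_lit 1⟩, ⟨false, nat_lit 128, nat_lit 4324, nat_lit 2, nat_lit 0⟩,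
    ⟨true, nat_lit 4, nat_lit 4252, nat_lit 2, nat_lit 0⟩, ⟨false, nat_lit 2048, nat_lit 8032, nat_lit 2, nat_lit 2⟩, ⟨false, nat_lit 512, nat_lit 7008, nat_lit 2, nat_lit 1⟩,
    ⟨true, nat_lit 64, nat_lit 6880, nat_lit 2, nat_lit 1⟩, ⟨true, nat_lit 256, nat_lit 6944, nat_lit 1, nat_lit 3⟩, ⟨false, nat_lit 32768, nat_lit 58400, nat_lit 2, nat_lit 0⟩,
    ⟨false, nat_lit 1024, nat_lit 39968, nat_lit 2, nat_lit 0⟩, ⟨true, nat_lit 32, nat_lit 40928, nat_lit 3, nat_lit 1⟩, ⟨false, nat_lit 16384, nat_lit 57344, nat_lit 1, nat_lit 1⟩,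
    ⟨false, nat_lit 8192, nat_lit 57344, nat_lit 1, nat_lit 1⟩]

def r81_4_1 : List Wr := [
    ⟨false, nat_lit 16, nat_lit 31, nat_lit 2, nat_lit 0⟩, ⟨false, nat_lit 2, nat_lit 19, nat_lit 1, nat_lit 1⟩, ⟨true, nat_lit 1, nat_lit 19, nat_lit 1, nat_lit 1⟩,
    ⟨true, nat_lit 8, nat_lit 28, nat_lit 1, nat_lit 1⟩, ⟨false, nat_lit 4096, nat_lit 8164, nat_lit 3, nat_lit 1⟩, ⟨false, nat_lit 128, nat_lit 4324, nat_lit 2, nat_lit 0⟩,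
    ⟨true, nat_lit 4, nat_lit 4252, nat_lit 2, nat_lit 0⟩, ⟨false, nat_lit 2048, nat_lit 8032, nat_lit 2, nat_lit 2⟩, ⟨false, nat_lit 512, nat_lit 7008, nat_lit 2, nat_lit 1⟩,
    ⟨true, nat_lit 64, nat_lit 6880, nat_lit 2, nat_lit 1⟩, ⟨false, nat_lit 32768, nat_lit 58656, nat_lit 2, nat_lit 1⟩, ⟨false, nat_lit 1024, nat_lit 40224, nat_lit 2, nat_lit 1⟩,
    ⟨false, nat_lit 256, nat_lit 40736, nat_lit 2, nat_lit 2⟩, ⟨true, nat_lit 32, nat_lit 40928, nat_lit 2, nat_lit 4⟩, ⟨false, nat_lit 16384, nat_lit 57344, nat_lit 1, nat_lit 1⟩,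
    ⟨false, nat_lit 8192, nat_lit 57344, nat_lit 1, nat_lit 1⟩]

def r81_4_2 : List Wr := [
    ⟨false, nat_lit 16, nat_lit 31, nat_lit 2, nat_lit 0⟩, ⟨false, nat_lit 2, nat_lit 19, nat_lit 1, nat_lit 1⟩, ⟨true, nat_lit 1, nat_lit 19, nat_lit 1, nat_lit 1⟩,
    ⟨true, nat_lit 8, nat_lit 28, nat_lit 1, nat_lit 1⟩, ⟨false, nat_lit 4096, nat_lit 8164, nat_lit 3, nat_lit 1⟩, ⟨false, nat_lit 128, nat_lit 4324, nat_lit 2, nat_lit 0⟩,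
    ⟨true, nat_lit 4, nat_lit 4252, nat_lit 2, nat_lit 0⟩, ⟨false, nat_lit 2048, nat_lit 8032, nat_lit 2, nat_lit 2⟩, ⟨false, nat_lit 512, nat_lit 7008, nat_lit 2, nat_lit 1⟩,
    ⟨true, nat_lit 64, nat_lit 6880, nat_lit 2, nat_lit 1⟩, ⟨true, nat_lit 256, nat_lit 6944, nat_lit 1, nat_lit 3⟩, ⟨false, nat_lit 32768, nat_lit 58400, nat_lit 1, nat_lit 3⟩,
    ⟨false, nat_lit 16384, nat_lit 58400, nat_lit 2, nat_lit 0⟩, ⟨false, nat_lit 1024, nat_lit 56352, nat_lit 2, nat_lit 1⟩, ⟨true, nat_lit 32, nat_lit 57312, nat_lit 3, nat_lit 2⟩,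
    ⟨false, nat_lit 8192, nat_lit 57344, nat_lit 1, nat_lit 1⟩]

def l81_4 : List (Nat × List Wr × Nat) := [
  (nat_lit 2, r81_4_0, nat_lit 0), (nat_lit 6, r81_4_1, nat_lit 0), (nat_lit 6, r81_4_2, nat_lit 0)]

def r81_5_0 : List Wr := [
    ⟨false, nat_lit 16, nat_lit 31, nat_lit 2, nat_lit 0⟩, ⟨false, nat_lit 2, nat_lit 19, nat_lit 1, nat_lit 1⟩, ⟨true, nat_lit 1, nat_lit 19, nat_lit 1, nat_lit 1⟩,
    ⟨true, nat_lit 8, nat_lit 28, nat_lit 1, nat_lit 1⟩, ⟨false, nat_lit 4096, nat_lit 8164, nat_lit 3, nat_lit 1⟩, ⟨false, nat_lit 128, nat_lit 4324, nat_lit 2, nat_lit 0⟩,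
    ⟨true, nat_lit 4, nat_lit 4252, nat_lit 2, nat_lit 0⟩, ⟨true, nat_lit 64, nat_lit 4320, nat_lit 1, nat_lit 2⟩, ⟨true, nat_lit 512, nat_lit 4896, nat_lit 1, nat_lit 2⟩,
    ⟨false, nat_lit 32768, nat_lit 60704, nat_lit 2, nat_lit 2⟩, ⟨false, nat_lit 2048, nat_lit 40224, nat_lit 2, nat_lit 1⟩, ⟨true, nat_lit 256, nat_lit 39712, nat_lit 2, nat_lit 1⟩,
    ⟨false, nat_lit 16384, nat_lit 58400, nat_lit 2, nat_lit 0⟩, ⟨false, nat_lit 1024, nat_lit 56352, nat_lit 2, nat_lit 1⟩, ⟨true, nat_lit 32, nat_lit 57312, nat_lit 3, nat_lit 2⟩,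
    ⟨false, nat_lit 8192, nat_lit 57344, nat_lit 1, nat_lit 1⟩]

def l81_5 : List (Nat × List Wr × Nat) := [
  (nat_lit 4, r81_5_0, nat_lit 0)]

def r81_6_0 : List Wr := [
    ⟨false, nat_lit 16, nat_lit 31, nat_lit 2, nat_lit 0⟩, ⟨false, nat_lit 2, nat_lit 19, nat_lit 1, nat_lit 1⟩, ⟨true, nat_lit 1, nat_lit 19, nat_lit 1, nat_lit 1⟩,
    ⟨true, nat_lit 8, nat_lit 28, nat_lit 1, nat_lit 1⟩, ⟨false, nat_lit 4096, nat_lit 8164, nat_lit 3, nat_lit 1⟩, ⟨false, nat_lit 128, nat_lit 4324, nat_lit 2, nat_lit 0⟩,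
    ⟨true, nat_lit 4, nat_lit 4252, nat_lit 2, nat_lit 0⟩, ⟨false, nat_lit 512, nat_lit 4960, nat_lit 1, nat_lit 3⟩, ⟨true, nat_lit 64, nat_lit 4832, nat_lit 1, nat_lit 3⟩,
    ⟨false, nat_lit 32768, nat_lit 60704, nat_lit 2, nat_lit 2⟩, ⟨false, nat_lit 2048, nat_lit 40224, nat_lit 2, nat_lit 1⟩, ⟨true, nat_lit 256, nat_lit 39712, nat_lit 2, nat_lit 1⟩,
    ⟨false, nat_lit 16384, nat_lit 58400, nat_lit 2, nat_lit 0⟩, ⟨false, nat_lit 1024, nat_lit 56352, nat_lit 2, nat_lit 1⟩, ⟨true, nat_lit 32, nat_lit 57312, nat_lit 3, nat_lit 2⟩,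
    ⟨false, nat_lit 8192, nat_lit 57344, nat_lit 1, nat_lit 1⟩]

def l81_6 : List (Nat × List Wr × Nat) := [
  (nat_lit 5, r81_6_0, nat_lit 1)]

end Pool.Agent.EC4.Run
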