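import Pool.Agent.Lib.MP_ec4eff_co.R5.Dec
import Pool.Agent.Lib.MP_ec4eff_co.R5.Run.D27
import Pool.Agent.Lib.MP_ec4eff_co.R5.Run.D28

/-! Generated file (project R5): the first lune -/

namespace Pool.Agent.EC4.Run

theorem a81 : runA (l81_0 ++ (l81_1 ++ (l81_2 ++ (l81_3 ++ (l81_4 ++ (l81_5 ++ (l81_6))))))) [1, 1, 0, 0, 1, 1, 0, 0] = false := by decide +kernel

end Pool.Agent.EC4.Run
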