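import Pool.Agent.Lib.MP_ec4eff_co.R5.Srch

/-! Generated file (project R5): results of the first lune -/

namespace Pool.Agent.EC4.Run

def r50_0_0 : List Wr := [
    ⟨true, nat_lit 8, nat_lit 15, nat_lit 1, nat_lit 2⟩, ⟨false, nat_lit 64, nat_lit 119, nat_lit 2, nat_lit 1⟩, ⟨false, nat_lit 4, nat_lit 79, nat_lit 2, nat_lit 0⟩,
    ⟨true, nat_lit 1, nat_lit 77, nat_lit 1, nat_lit 2⟩, ⟨false, nat_lit 4096, nat_lit 8114, nat_lit 3, nat_lit 1⟩, ⟨false, nat_lit 32, nat_lit 4210, nat_lit 2, nat_lit 0⟩,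
    ⟨true, nat_lit 2, nat_lit 4206, nat_lit 2, nat_lit 1⟩, ⟨true, nat_lit 512, nat_lit 5008, nat_lit 1, nat_lit 3⟩, ⟨false, nat_lit 2048, nat_lit 7568, nat_lit 2, nat_lit 1⟩,
    ⟨false, nat_lit 256, nat_lit 7056, nat_lit 2, nat_lit 1⟩, ⟨true, nat_lit 16, nat_lit 7024, nat_lit 2, nat_lit 2⟩, ⟨false, nat_lit 32768, nat_lit 58496, nat_lit 2, nat_lit 0⟩,
    ⟨false, nat_lit 1024, nat_lit 40064, nat_lit 2, nat_lit 0⟩, ⟨true, nat_lit 128, nat_lit 40832, nat_lit 2, nat_lit 2⟩, ⟨false, nat_lit 16384, nat_lit 57344, nat_lit 1, nat_lit 1⟩,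
    ⟨false, nat_lit 8192, nat_lit 57344, nat_lit 1, nat_lit 1⟩]

def r50_0_1 : List Wr := [
    ⟨true, nat_lit 8, nat_lit 15, nat_lit 1, nat_lit 2⟩, ⟨false, nat_lit 64, nat_lit 119, nat_lit 2, nat_lit 1⟩, ⟨false, nat_lit 4, nat_lit 79, nat_lit 2, nat_lit 0⟩,
    ⟨true, nat_lit 1, nat_lit 77, nat_lit 1, nat_lit 2⟩, ⟨false, nat_lit 4096, nat_lit 8114, nat_lit 3, nat_lit 1⟩, ⟨false, nat_lit 32, nat_lit 4210, nat_lit 2, nat_lit 0⟩,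
    ⟨true, nat_lit 2, nat_lit 4206, nat_lit 2, nat_lit 1⟩, ⟨false, nat_lit 2048, nat_lit 8080, nat_lit 2, nat_lit 2⟩, ⟨false, nat_lit 512, nat_lit 7056, nat_lit 2, nat_lit 1⟩,
    ⟨true, nat_lit 16, nat_lit 6768, nat_lit 2, nat_lit 1⟩, ⟨true, nat_lit 256, nat_lit 7040, nat_lit 1, nat_lit 3⟩, ⟨false, nat_lit 32768, nat_lit 58496, nat_lit 2, nat_lit 0⟩,
    ⟨false, nat_lit 1024, nat_lit 40064, nat_lit 2, nat_lit 0⟩, ⟨true, nat_lit 128, nat_lit 40832, nat_lit 2, nat_lit 2⟩, ⟨false, nat_lit 16384, nat_lit 57344, nat_lit 1, nat_lit 1⟩,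
    ⟨false, nat_lit 8192, nat_lit 57344, nat_lit 1, nat_lit 1⟩]

def r50_0_2 : List Wr := [
    ⟨true, nat_lit 8, nat_lit 15, nat_lit 1, nat_lit 2⟩, ⟨false, nat_lit 64, nat_lit 119, nat_lit 2, nat_lit 1⟩, ⟨false, nat_lit 4, nat_lit 79, nat_lit 2, nat_lit 0⟩,
    ⟨true, nat_lit 1, nat_lit 77, nat_lit 1, nat_lit 2⟩, ⟨false, nat_lit 4096, nat_lit 8114, nat_lit 3, nat_lit 1⟩, ⟨false, nat_lit 32, nat_lit 4210, nat_lit 2, nat_lit 0⟩,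
    ⟨true, nat_lit 2, nat_lit 4206, nat_lit 2, nat_lit 1⟩, ⟨true, nat_lit 256, nat_lit 4496, nat_lit 1, nat_lit 2⟩, ⟨false, nat_lit 2048, nat_lit 7824, nat_lit 2, nat_lit 1⟩,
    ⟨false, nat_lit 512, nat_lit 6800, nat_lit 1, nat_lit 3⟩, ⟨true, nat_lit 128, nat_lit 7056, nat_lit 2, nat_lit 1⟩, ⟨false, nat_lit 32768, nat_lit 58384, nat_lit 2, nat_lit 0⟩,
    ⟨false, nat_lit 1024, nat_lit 39952, nat_lit 2, nat_lit 0⟩, ⟨true, nat_lit 16, nat_lit 40944, nat_lit 3, nat_lit 2⟩, ⟨false, nat_lit 16384, nat_lit 57344, nat_lit 1, nat_lit 1⟩,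
    ⟨false, nat_lit 8192, nat_lit 57344, nat_lit 1, nat_lit 1⟩]

def r50_0_3 : List Wr := [
    ⟨false, nat_lit 64, nat_lit 127, nat_lit 2, nat_lit 2⟩, ⟨false, nat_lit 8, nat_lit 79, nat_lit 2, nat_lit 0⟩, ⟨true, nat_lit 1, nat_lit 73, nat_lit 1, nat_lit 1⟩,
    ⟨false, nat_lit 256, nat_lit 438, nat_lit 2, nat_lit 1⟩, ⟨false, nat_lit 32, nat_lit 374, nat_lit 2, nat_lit 1⟩, ⟨true, nat_lit 4, nat_lit 366, nat_lit 2, nat_lit 1⟩,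
    ⟨true, nat_lit 128, nat_lit 402, nat_lit 1, nat_lit 2⟩, ⟨false, nat_lit 32768, nat_lit 65042, nat_lit 3, nat_lit 1⟩, ⟨false, nat_lit 4096, nat_lit 40466, nat_lit 2, nat_lit 2⟩,
    ⟨true, nat_lit 16, nat_lit 37362, nat_lit 3, nat_lit 0⟩, ⟨false, nat_lit 2048, nat_lit 40450, nat_lit 2, nat_lit 1⟩, ⟨true, nat_lit 512, nat_lit 39426, nat_lit 1, nat_lit 3⟩,
    ⟨false, nat_lit 16384, nat_lit 58370, nat_lit 2, nat_lit 0⟩, ⟨false, nat_lit 1024, nat_lit 56322, nat_lit 2, nat_lit 1⟩, ⟨true, nat_lit 2, nat_lit 57342, nat_lit 4, nat_lit 3⟩,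
    ⟨false, nat_lit 8192, nat_lit 57344, nat_lit 1, nat_lit 1⟩]

def r50_0_4 : List Wr := [
    ⟨false, nat_lit 64, nat_lit 127, nat_lit 2, nat_lit 2⟩, ⟨false, nat_lit 8, nat_lit 79, nat_lit 2, nat_lit 0⟩, ⟨true, nat_lit 1, nat_lit 73, nat_lit 1, nat_lit 1⟩,
    ⟨true, nat_lit 4, nat_lit 78, nat_lit 1, nat_lit 2⟩, ⟨false, nat_lit 4096, nat_lit 8114, nat_lit 3, nat_lit 1⟩, ⟨false, nat_lit 32, nat_lit 4210, nat_lit 2, nat_lit 0⟩,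
    ⟨true, nat_lit 2, nat_lit 4206, nat_lit 2, nat_lit 1⟩, ⟨true, nat_lit 512, nat_lit 5008, nat_lit 1, nat_lit 3⟩, ⟨false, nat_lit 2048, nat_lit 7568, nat_lit 2, nat_lit 1⟩,
    ⟨false, nat_lit 256, nat_lit 7056, nat_lit 2, nat_lit 1⟩, ⟨true, nat_lit 16, nat_lit 7024, nat_lit 2, nat_lit 2⟩, ⟨false, nat_lit 32768, nat_lit 58496, nat_lit 2, nat_lit 0⟩,
    ⟨false, nat_lit 1024, nat_lit 40064, nat_lit 2, nat_lit 0⟩, ⟨true, nat_lit 128, nat_lit 40832, nat_lit 2, nat_lit 2⟩, ⟨false, nat_lit 16384, nat_lit 57344, nat_lit 1, nat_lit 1⟩,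
    ⟨false, nat_lit 8192, nat_lit 57344, nat_lit 1, nat_lit 1⟩]

def r50_0_5 : List Wr := [
    ⟨false, nat_lit 64, nat_lit 127, nat_lit 2, nat_lit 2⟩, ⟨false, nat_lit 8, nat_lit 79, nat_lit 2, nat_lit 0⟩, ⟨true, nat_lit 1, nat_lit 73, nat_lit 1, nat_lit 1⟩,
    ⟨true, nat_lit 4, nat_lit 78, nat_lit 1, nat_lit 2⟩, ⟨false, nat_lit 4096, nat_lit 8114, nat_lit 3, nat_lit 1⟩, ⟨false, nat_lit 32, nat_lit 4210, nat_lit 2, nat_lit 0⟩,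
    ⟨true, nat_lit 2, nat_lit 4206, nat_lit 2, nat_lit 1⟩, ⟨false, nat_lit 2048, nat_lit 8080, nat_lit 2, nat_lit 2⟩, ⟨false, nat_lit 512, nat_lit 7056, nat_lit 2, nat_lit 1⟩,
    ⟨true, nat_lit 16, nat_lit 6768, nat_lit 2, nat_lit 1⟩, ⟨true, nat_lit 256, nat_lit 7040, nat_lit 1, nat_lit 3⟩, ⟨false, nat_lit 32768, nat_lit 58496, nat_lit 2, nat_lit 0⟩,
    ⟨false, nat_lit 1024, nat_lit 40064, nat_lit 2, nat_lit 0⟩, ⟨true, nat_lit 128, nat_lit 40832, nat_lit 2, nat_lit 2⟩, ⟨false, nat_lit 16384, nat_lit 57344, nat_lit 1, nat_lit 1⟩,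
    ⟨false, nat_lit 8192, nat_lit 57344, nat_lit 1, nat_lit 1⟩]

def r50_0_6 : List Wr := [
    ⟨false, nat_lit 64, nat_lit 127, nat_lit 2, nat_lit 2⟩, ⟨false, nat_lit 8, nat_lit 79, nat_lit 2, nat_lit 0⟩, ⟨true, nat_lit 1, nat_lit 73, nat_lit 1, nat_lit 1⟩,
    ⟨false, nat_lit 32768, nat_lit 65462, nat_lit 4, nat_lit 2⟩, ⟨false, nat_lit 4096, nat_lit 40886, nat_lit 3, nat_lit 3⟩, ⟨true, nat_lit 4, nat_lit 36942, nat_lit 2, nat_lit 1⟩,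
    ⟨false, nat_lit 256, nat_lit 37298, nat_lit 2, nat_lit 2⟩, ⟨true, nat_lit 32, nat_lit 37234, nat_lit 2, nat_lit 2⟩, ⟨false, nat_lit 2048, nat_lit 40594, nat_lit 3, nat_lit 0⟩,
    ⟨false, nat_lit 128, nat_lit 39314, nat_lit 2, nat_lit 2⟩, ⟨true, nat_lit 2, nat_lit 39406, nat_lit 3, nat_lit 2⟩, ⟨true, nat_lit 512, nat_lit 39440, nat_lit 1, nat_lit 3⟩,
    ⟨false, nat_lit 16384, nat_lit 58384, nat_lit 2, nat_lit 0⟩, ⟨false, nat_lit 1024, nat_lit 56336, nat_lit 2, nat_lit 1⟩, ⟨true, nat_lit 16, nat_lit 57328, nat_lit 4, nat_lit 0⟩,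
    ⟨false, nat_lit 8192, nat_lit 57344, nat_lit 1, nat_lit 1⟩]

def r50_0_7 : List Wr := [
    ⟨false, nat_lit 64, nat_lit 127, nat_lit 2, nat_lit 2⟩, ⟨false, nat_lit 8, nat_lit 79, nat_lit 2, nat_lit 0⟩, ⟨true, nat_lit 1, nat_lit 73, nat_lit 1, nat_lit 1⟩,
    ⟨true, nat_lit 4, nat_lit 78, nat_lit 1, nat_lit 2⟩, ⟨false, nat_lit 4096, nat_lit 8114, nat_lit 3, nat_lit 1⟩, ⟨false, nat_lit 32, nat_lit 4210, nat_lit 2, nat_lit 0⟩,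
    ⟨true, nat_lit 2, nat_lit 4206, nat_lit 2, nat_lit 1⟩, ⟨true, nat_lit 256, nat_lit 4496, nat_lit 1, nat_lit 2⟩, ⟨false, nat_lit 2048, nat_lit 7824, nat_lit 2, nat_lit 1⟩,
    ⟨false, nat_lit 512, nat_lit 6800, nat_lit 1, nat_lit 3⟩, ⟨true, nat_lit 128, nat_lit 7056, nat_lit 2, nat_lit 1⟩, ⟨false, nat_lit 32768, nat_lit 58384, nat_lit 2, nat_lit 0⟩,
    ⟨false, nat_lit 1024, nat_lit 39952, nat_lit 2, nat_lit 0⟩, ⟨true, nat_lit 16, nat_lit 40944, nat_lit 3, nat_lit 2⟩, ⟨false, nat_lit 16384, nat_lit 57344, nat_lit 1, nat_lit 1⟩,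
    ⟨false, nat_lit 8192, nat_lit 57344, nat_lit 1, nat_lit 1⟩]

def r50_0_8 : List Wr := [
    ⟨false, nat_lit 4096, nat_lit 8191, nat_lit 4, nat_lit 2⟩, ⟨false, nat_lit 8, nat_lit 4111, nat_lit 2, nat_lit 0⟩, ⟨true, nat_lit 1, nat_lit 4105, nat_lit 1, nat_lit 1⟩,
    ⟨false, nat_lit 128, nat_lit 4342, nat_lit 2, nat_lit 2⟩, ⟨false, nat_lit 64, nat_lit 4342, nat_lit 2, nat_lit 2⟩, ⟨true, nat_lit 4, nat_lit 4302, nat_lit 2, nat_lit 1⟩,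
    ⟨true, nat_lit 32, nat_lit 4338, nat_lit 2, nat_lit 1⟩, ⟨true, nat_lit 512, nat_lit 4882, nat_lit 1, nat_lit 3⟩, ⟨false, nat_lit 2048, nat_lit 7442, nat_lit 2, nat_lit 1⟩,
    ⟨false, nat_lit 256, nat_lit 6930, nat_lit 2, nat_lit 1⟩, ⟨true, nat_lit 2, nat_lit 7150, nat_lit 3, nat_lit 2⟩, ⟨false, nat_lit 32768, nat_lit 58384, nat_lit 2, nat_lit 0⟩,
    ⟨false, nat_lit 1024, nat_lit 39952, nat_lit 2, nat_lit 0⟩, ⟨true, nat_lit 16, nat_lit 40944, nat_lit 3, nat_lit 2⟩, ⟨false, nat_lit 16384, nat_lit 57344, nat_lit 1, nat_lit 1⟩,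
    ⟨false, nat_lit 8192, nat_lit 57344, nat_lit 1, nat_lit 1⟩]

def r50_0_9 : List Wr := [
    ⟨false, nat_lit 4096, nat_lit 8191, nat_lit 4, nat_lit 2⟩, ⟨false, nat_lit 8, nat_lit 4111, nat_lit 2, nat_lit 0⟩, ⟨true, nat_lit 1, nat_lit 4105, nat_lit 1, nat_lit 1⟩,
    ⟨false, nat_lit 128, nat_lit 4342, nat_lit 2, nat_lit 2⟩, ⟨false, nat_lit 64, nat_lit 4342, nat_lit 2, nat_lit 2⟩, ⟨true, nat_lit 4, nat_lit 4302, nat_lit 2, nat_lit 1⟩,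
    ⟨true, nat_lit 32, nat_lit 4338, nat_lit 2, nat_lit 1⟩, ⟨false, nat_lit 2048, nat_lit 7954, nat_lit 2, nat_lit 2⟩, ⟨false, nat_lit 512, nat_lit 6930, nat_lit 2, nat_lit 1⟩,
    ⟨true, nat_lit 2, nat_lit 6894, nat_lit 3, nat_lit 1⟩, ⟨true, nat_lit 256, nat_lit 6928, nat_lit 1, nat_lit 3⟩, ⟨false, nat_lit 32768, nat_lit 58384, nat_lit 2, nat_lit 0⟩,
    ⟨false, nat_lit 1024, nat_lit 39952, nat_lit 2, nat_lit 0⟩, ⟨true, nat_lit 16, nat_lit 40944, nat_lit 3, nat_lit 2⟩, ⟨false, nat_lit 16384, nat_lit 57344, nat_lit 1, nat_lit 1⟩,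
    ⟨false, nat_lit 8192, nat_lit 57344, nat_lit 1, nat_lit 1⟩]

def l50_0 : List (Nat × List Wr × Nat) := [
  (nat_lit 6, r50_0_0, nat_lit 0), (nat_lit 6, r50_0_1, nat_lit 0), (nat_lit 6, r50_0_2, nat_lit 0),
  (nat_lit 6, r50_0_3, nat_lit 0), (nat_lit 6, r50_0_4, nat_lit 0), (nat_lit 6, r50_0_5, nat_lit 0),
  (nat_lit 6, r50_0_6, nat_lit 0), (nat_lit 6, r50_0_7, nat_lit 0), (nat_lit 6, r50_0_8, nat_lit 0),
  (nat_lit 6, r50_0_9, nat_lit 0)]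

end Pool.Agent.EC4.Run
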