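import Pool.Agent.Lib.MP_ec4eff_co.R5.Srch

/-! Generated file (project R5): results of the first lune -/

namespace Pool.Agent.EC4.Run

def r90_0_0 : List Wr := [
    ⟨false, nat_lit 32, nat_lit 63, nat_lit 2, nat_lit 1⟩, ⟨true, nat_lit 4, nat_lit 39, nat_lit 1, nat_lit 2⟩, ⟨false, nat_lit 32768, nat_lit 65499, nat_lit 4, nat_lit 3⟩,
    ⟨false, nat_lit 16, nat_lit 32827, nat_lit 2, nat_lit 1⟩, ⟨true, nat_lit 2, nat_lit 32823, nat_lit 2, nat_lit 1⟩, ⟨true, nat_lit 256, nat_lit 33225, nat_lit 2, nat_lit 1⟩,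
    ⟨false, nat_lit 4096, nat_lit 40649, nat_lit 3, nat_lit 1⟩, ⟨false, nat_lit 128, nat_lit 37321, nat_lit 2, nat_lit 2⟩, ⟨true, nat_lit 8, nat_lit 37305, nat_lit 3, nat_lit 0⟩,
    ⟨false, nat_lit 2048, nat_lit 40513, nat_lit 2, nat_lit 2⟩, ⟨false, nat_lit 512, nat_lit 39489, nat_lit 2, nat_lit 1⟩, ⟨true, nat_lit 1, nat_lit 39871, nat_lit 3, nat_lit 4⟩,
    ⟨false, nat_lit 16384, nat_lit 58432, nat_lit 2, nat_lit 0⟩, ⟨false, nat_lit 1024, nat_lit 56384, nat_lit 2, nat_lit 1⟩, ⟨true, nat_lit 64, nat_lit 57280, nat_lit 3, nat_lit 1⟩,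
    ⟨false, nat_lit 8192, nat_lit 57344, nat_lit 1, nat_lit 1⟩]

def r90_0_1 : List Wr := [
    ⟨false, nat_lit 32, nat_lit 63, nat_lit 2, nat_lit 1⟩, ⟨true, nat_lit 4, nat_lit 39, nat_lit 1, nat_lit 2⟩, ⟨false, nat_lit 32768, nat_lit 65499, nat_lit 4, nat_lit 3⟩,
    ⟨false, nat_lit 16, nat_lit 32827, nat_lit 2, nat_lit 1⟩, ⟨true, nat_lit 2, nat_lit 32823, nat_lit 2, nat_lit 1⟩, ⟨false, nat_lit 256, nat_lit 33225, nat_lit 2, nat_lit 1⟩,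
    ⟨true, nat_lit 8, nat_lit 33081, nat_lit 2, nat_lit 1⟩, ⟨false, nat_lit 4096, nat_lit 40641, nat_lit 3, nat_lit 0⟩, ⟨false, nat_lit 128, nat_lit 37313, nat_lit 2, nat_lit 1⟩,
    ⟨true, nat_lit 1, nat_lit 37311, nat_lit 3, nat_lit 2⟩, ⟨false, nat_lit 16384, nat_lit 60992, nat_lit 2, nat_lit 2⟩, ⟨false, nat_lit 2048, nat_lit 56896, nat_lit 2, nat_lit 2⟩,
    ⟨true, nat_lit 512, nat_lit 55872, nat_lit 2, nat_lit 1⟩, ⟨false, nat_lit 8192, nat_lit 58432, nat_lit 2, nat_lit 0⟩, ⟨false, nat_lit 1024, nat_lit 64576, nat_lit 2, nat_lit 2⟩,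
    ⟨false, nat_lit 64, nat_lit 65472, nat_lit 3, nat_lit 2⟩]

def r90_0_2 : List Wr := [
    ⟨false, nat_lit 32, nat_lit 63, nat_lit 2, nat_lit 1⟩, ⟨false, nat_lit 4, nat_lit 39, nat_lit 1, nat_lit 2⟩, ⟨true, nat_lit 2, nat_lit 39, nat_lit 1, nat_lit 2⟩,
    ⟨false, nat_lit 256, nat_lit 473, nat_lit 2, nat_lit 1⟩, ⟨false, nat_lit 16, nat_lit 313, nat_lit 2, nat_lit 0⟩, ⟨true, nat_lit 1, nat_lit 311, nat_lit 2, nat_lit 1⟩,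
    ⟨false, nat_lit 32768, nat_lit 65224, nat_lit 3, nat_lit 2⟩, ⟨false, nat_lit 128, nat_lit 33224, nat_lit 2, nat_lit 0⟩, ⟨true, nat_lit 8, nat_lit 33208, nat_lit 2, nat_lit 1⟩,
    ⟨true, nat_lit 4096, nat_lit 40512, nat_lit 2, nat_lit 1⟩, ⟨false, nat_lit 16384, nat_lit 60992, nat_lit 2, nat_lit 2⟩, ⟨false, nat_lit 2048, nat_lit 56896, nat_lit 2, nat_lit 2⟩,
    ⟨true, nat_lit 512, nat_lit 55872, nat_lit 2, nat_lit 1⟩, ⟨false, nat_lit 8192, nat_lit 58432, nat_lit 2, nat_lit 0⟩, ⟨false, nat_lit 1024, nat_lit 64576, nat_lit 2, nat_lit 2⟩,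
    ⟨false, nat_lit 64, nat_lit 65472, nat_lit 3, nat_lit 2⟩]

def r90_0_3 : List Wr := [
    ⟨false, nat_lit 32, nat_lit 63, nat_lit 2, nat_lit 1⟩, ⟨false, nat_lit 2, nat_lit 35, nat_lit 1, nat_lit 1⟩, ⟨true, nat_lit 1, nat_lit 35, nat_lit 1, nat_lit 1⟩,
    ⟨true, nat_lit 16, nat_lit 60, nat_lit 1, nat_lit 2⟩, ⟨false, nat_lit 256, nat_lit 460, nat_lit 2, nat_lit 0⟩, ⟨false, nat_lit 8, nat_lit 316, nat_lit 2, nat_lit 0⟩,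
    ⟨true, nat_lit 4, nat_lit 316, nat_lit 1, nat_lit 3⟩, ⟨false, nat_lit 32768, nat_lit 65216, nat_lit 3, nat_lit 1⟩, ⟨false, nat_lit 4096, nat_lit 40640, nat_lit 2, nat_lit 2⟩,
    ⟨true, nat_lit 128, nat_lit 37312, nat_lit 2, nat_lit 0⟩, ⟨false, nat_lit 2048, nat_lit 40512, nat_lit 2, nat_lit 1⟩, ⟨true, nat_lit 512, nat_lit 39488, nat_lit 1, nat_lit 3⟩,
    ⟨false, nat_lit 16384, nat_lit 58432, nat_lit 2, nat_lit 0⟩, ⟨false, nat_lit 1024, nat_lit 56384, nat_lit 2, nat_lit 1⟩, ⟨true, nat_lit 64, nat_lit 57280, nat_lit 3, nat_lit 1⟩,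
    ⟨false, nat_lit 8192, nat_lit 57344, nat_lit 1, nat_lit 1⟩]

def r90_0_4 : List Wr := [
    ⟨false, nat_lit 32, nat_lit 63, nat_lit 2, nat_lit 1⟩, ⟨false, nat_lit 2, nat_lit 35, nat_lit 1, nat_lit 1⟩, ⟨true, nat_lit 1, nat_lit 35, nat_lit 1, nat_lit 1⟩,
    ⟨false, nat_lit 256, nat_lit 476, nat_lit 2, nat_lit 1⟩, ⟨false, nat_lit 16, nat_lit 316, nat_lit 2, nat_lit 0⟩, ⟨true, nat_lit 4, nat_lit 308, nat_lit 1, nat_lit 2⟩,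
    ⟨false, nat_lit 4096, nat_lit 7880, nat_lit 2, nat_lit 2⟩, ⟨false, nat_lit 128, nat_lit 4552, nat_lit 2, nat_lit 0⟩, ⟨true, nat_lit 8, nat_lit 4536, nat_lit 2, nat_lit 1⟩,
    ⟨false, nat_lit 2048, nat_lit 7744, nat_lit 2, nat_lit 0⟩, ⟨false, nat_lit 512, nat_lit 6720, nat_lit 1, nat_lit 2⟩, ⟨true, nat_lit 64, nat_lit 7104, nat_lit 2, nat_lit 1⟩,
    ⟨true, nat_lit 1024, nat_lit 7168, nat_lit 1, nat_lit 1⟩, ⟨false, nat_lit 32768, nat_lit 57344, nat_lit 1, nat_lit 1⟩, ⟨false, nat_lit 16384, nat_lit 57344, nat_lit 1, nat_lit 1⟩,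
    ⟨false, nat_lit 8192, nat_lit 57344, nat_lit 1, nat_lit 1⟩]

def r90_0_5 : List Wr := [
    ⟨false, nat_lit 32, nat_lit 63, nat_lit 2, nat_lit 1⟩, ⟨false, nat_lit 2, nat_lit 35, nat_lit 1, nat_lit 1⟩, ⟨true, nat_lit 1, nat_lit 35, nat_lit 1, nat_lit 1⟩,
    ⟨false, nat_lit 256, nat_lit 476, nat_lit 2, nat_lit 1⟩, ⟨false, nat_lit 16, nat_lit 316, nat_lit 2, nat_lit 0⟩, ⟨true, nat_lit 4, nat_lit 308, nat_lit 1, nat_lit 2⟩,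
    ⟨true, nat_lit 8, nat_lit 312, nat_lit 1, nat_lit 2⟩, ⟨false, nat_lit 32768, nat_lit 65216, nat_lit 3, nat_lit 1⟩, ⟨false, nat_lit 4096, nat_lit 40640, nat_lit 2, nat_lit 2⟩,
    ⟨true, nat_lit 128, nat_lit 37312, nat_lit 2, nat_lit 0⟩, ⟨false, nat_lit 2048, nat_lit 40512, nat_lit 2, nat_lit 1⟩, ⟨true, nat_lit 512, nat_lit 39488, nat_lit 1, nat_lit 3⟩,
    ⟨false, nat_lit 16384, nat_lit 58432, nat_lit 2, nat_lit 0⟩, ⟨false, nat_lit 1024, nat_lit 56384, nat_lit 2, nat_lit 1⟩, ⟨true, nat_lit 64, nat_lit 57280, nat_lit 3, nat_lit 1⟩,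
    ⟨false, nat_lit 8192, nat_lit 57344, nat_lit 1, nat_lit 1⟩]

def r90_0_6 : List Wr := [
    ⟨false, nat_lit 32, nat_lit 63, nat_lit 2, nat_lit 1⟩, ⟨false, nat_lit 2, nat_lit 35, nat_lit 1, nat_lit 1⟩, ⟨true, nat_lit 1, nat_lit 35, nat_lit 1, nat_lit 1⟩,
    ⟨false, nat_lit 256, nat_lit 476, nat_lit 2, nat_lit 1⟩, ⟨false, nat_lit 16, nat_lit 316, nat_lit 2, nat_lit 0⟩, ⟨true, nat_lit 4, nat_lit 308, nat_lit 1, nat_lit 2⟩,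
    ⟨false, nat_lit 4096, nat_lit 7880, nat_lit 2, nat_lit 2⟩, ⟨false, nat_lit 128, nat_lit 4552, nat_lit 2, nat_lit 0⟩, ⟨true, nat_lit 8, nat_lit 4536, nat_lit 2, nat_lit 1⟩,
    ⟨false, nat_lit 32768, nat_lit 60992, nat_lit 2, nat_lit 2⟩, ⟨false, nat_lit 2048, nat_lit 40512, nat_lit 2, nat_lit 1⟩, ⟨true, nat_lit 512, nat_lit 39488, nat_lit 1, nat_lit 3⟩,
    ⟨false, nat_lit 16384, nat_lit 58432, nat_lit 2, nat_lit 0⟩, ⟨false, nat_lit 1024, nat_lit 56384, nat_lit 2, nat_lit 1⟩, ⟨true, nat_lit 64, nat_lit 57280, nat_lit 3, nat_lit 1⟩,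
    ⟨false, nat_lit 8192, nat_lit 57344, nat_lit 1, nat_lit 1⟩]

def r90_0_7 : List Wr := [
    ⟨false, nat_lit 32, nat_lit 63, nat_lit 2, nat_lit 1⟩, ⟨false, nat_lit 2, nat_lit 35, nat_lit 1, nat_lit 1⟩, ⟨true, nat_lit 1, nat_lit 35, nat_lit 1, nat_lit 1⟩,
    ⟨false, nat_lit 256, nat_lit 476, nat_lit 2, nat_lit 1⟩, ⟨false, nat_lit 16, nat_lit 316, nat_lit 2, nat_lit 0⟩, ⟨true, nat_lit 4, nat_lit 308, nat_lit 1, nat_lit 2⟩,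
    ⟨false, nat_lit 32768, nat_lit 65224, nat_lit 3, nat_lit 2⟩, ⟨false, nat_lit 128, nat_lit 33224, nat_lit 2, nat_lit 0⟩, ⟨true, nat_lit 8, nat_lit 33208, nat_lit 2, nat_lit 1⟩,
    ⟨false, nat_lit 4096, nat_lit 40512, nat_lit 2, nat_lit 1⟩, ⟨true, nat_lit 512, nat_lit 37440, nat_lit 1, nat_lit 2⟩, ⟨true, nat_lit 2048, nat_lit 40000, nat_lit 1, nat_lit 3⟩,
    ⟨false, nat_lit 16384, nat_lit 58432, nat_lit 2, nat_lit 0⟩, ⟨false, nat_lit 1024, nat_lit 56384, nat_lit 2, nat_lit 1⟩, ⟨true, nat_lit 64, nat_lit 57280, nat_lit 3, nat_lit 1⟩,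
    ⟨false, nat_lit 8192, nat_lit 57344, nat_lit 1, nat_lit 1⟩]

def r90_0_8 : List Wr := [
    ⟨false, nat_lit 32, nat_lit 63, nat_lit 2, nat_lit 1⟩, ⟨false, nat_lit 2, nat_lit 35, nat_lit 1, nat_lit 1⟩, ⟨true, nat_lit 1, nat_lit 35, nat_lit 1, nat_lit 1⟩,
    ⟨false, nat_lit 256, nat_lit 476, nat_lit 2, nat_lit 1⟩, ⟨false, nat_lit 16, nat_lit 316, nat_lit 2, nat_lit 0⟩, ⟨true, nat_lit 4, nat_lit 308, nat_lit 1, nat_lit 2⟩,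
    ⟨false, nat_lit 32768, nat_lit 65224, nat_lit 3, nat_lit 2⟩, ⟨false, nat_lit 128, nat_lit 33224, nat_lit 2, nat_lit 0⟩, ⟨true, nat_lit 8, nat_lit 33208, nat_lit 2, nat_lit 1⟩,
    ⟨false, nat_lit 4096, nat_lit 40512, nat_lit 2, nat_lit 1⟩, ⟨true, nat_lit 512, nat_lit 37440, nat_lit 1, nat_lit 2⟩, ⟨false, nat_lit 16384, nat_lit 60480, nat_lit 2, nat_lit 1⟩,
    ⟨false, nat_lit 2048, nat_lit 56384, nat_lit 2, nat_lit 1⟩, ⟨true, nat_lit 64, nat_lit 56256, nat_lit 3, nat_lit 0⟩, ⟨true, nat_lit 1024, nat_lit 56320, nat_lit 1, nat_lit 3⟩,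
    ⟨false, nat_lit 8192, nat_lit 57344, nat_lit 1, nat_lit 1⟩]

def r90_0_9 : List Wr := [
    ⟨false, nat_lit 32, nat_lit 63, nat_lit 2, nat_lit 1⟩, ⟨false, nat_lit 2, nat_lit 35, nat_lit 1, nat_lit 1⟩, ⟨true, nat_lit 1, nat_lit 35, nat_lit 1, nat_lit 1⟩,
    ⟨false, nat_lit 32768, nat_lit 65500, nat_lit 4, nat_lit 2⟩, ⟨false, nat_lit 16, nat_lit 32828, nat_lit 2, nat_lit 0⟩, ⟨true, nat_lit 4, nat_lit 32820, nat_lit 1, nat_lit 2⟩,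
    ⟨false, nat_lit 4096, nat_lit 40904, nat_lit 2, nat_lit 4⟩, ⟨true, nat_lit 256, nat_lit 37320, nat_lit 2, nat_lit 1⟩, ⟨false, nat_lit 2048, nat_lit 40648, nat_lit 3, nat_lit 0⟩,
    ⟨false, nat_lit 128, nat_lit 39368, nat_lit 2, nat_lit 2⟩, ⟨true, nat_lit 8, nat_lit 39352, nat_lit 3, nat_lit 0⟩, ⟨true, nat_lit 512, nat_lit 39488, nat_lit 1, nat_lit 3⟩,
    ⟨false, nat_lit 16384, nat_lit 58432, nat_lit 2, nat_lit 0⟩, ⟨false, nat_lit 1024, nat_lit 56384, nat_lit 2, nat_lit 1⟩, ⟨true, nat_lit 64, nat_lit 57280, nat_lit 3, nat_lit 1⟩,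
    ⟨false, nat_lit 8192, nat_lit 57344, nat_lit 1, nat_lit 1⟩]

def r90_0_10 : List Wr := [
    ⟨true, nat_lit 1, nat_lit 1, nat_lit 0, nat_lit 2⟩, ⟨false, nat_lit 32, nat_lit 62, nat_lit 2, nat_lit 0⟩, ⟨false, nat_lit 4, nat_lit 38, nat_lit 1, nat_lit 1⟩,
    ⟨true, nat_lit 2, nat_lit 38, nat_lit 1, nat_lit 1⟩, ⟨false, nat_lit 4096, nat_lit 8152, nat_lit 3, nat_lit 1⟩, ⟨false, nat_lit 256, nat_lit 4568, nat_lit 2, nat_lit 1⟩,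
    ⟨true, nat_lit 16, nat_lit 4408, nat_lit 2, nat_lit 0⟩, ⟨false, nat_lit 2048, nat_lit 7880, nat_lit 2, nat_lit 2⟩, ⟨false, nat_lit 512, nat_lit 6856, nat_lit 2, nat_lit 1⟩,
    ⟨false, nat_lit 128, nat_lit 7112, nat_lit 2, nat_lit 2⟩, ⟨true, nat_lit 64, nat_lit 7112, nat_lit 2, nat_lit 2⟩, ⟨false, nat_lit 32768, nat_lit 58376, nat_lit 2, nat_lit 0⟩,
    ⟨false, nat_lit 1024, nat_lit 39944, nat_lit 2, nat_lit 0⟩, ⟨true, nat_lit 8, nat_lit 40952, nat_lit 3, nat_lit 3⟩, ⟨false, nat_lit 16384, nat_lit 57344, nat_lit 1, nat_lit 1⟩,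
    ⟨false, nat_lit 8192, nat_lit 57344, nat_lit 1, nat_lit 1⟩]

def r90_0_11 : List Wr := [
    ⟨false, nat_lit 4, nat_lit 7, nat_lit 1, nat_lit 1⟩, ⟨false, nat_lit 2, nat_lit 7, nat_lit 1, nat_lit 1⟩, ⟨true, nat_lit 1, nat_lit 7, nat_lit 1, nat_lit 1⟩,
    ⟨true, nat_lit 32, nat_lit 56, nat_lit 1, nat_lit 1⟩, ⟨false, nat_lit 4096, nat_lit 8152, nat_lit 3, nat_lit 1⟩, ⟨false, nat_lit 256, nat_lit 4568, nat_lit 2, nat_lit 1⟩,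
    ⟨true, nat_lit 16, nat_lit 4408, nat_lit 2, nat_lit 0⟩, ⟨false, nat_lit 2048, nat_lit 7880, nat_lit 2, nat_lit 2⟩, ⟨false, nat_lit 512, nat_lit 6856, nat_lit 2, nat_lit 1⟩,
    ⟨false, nat_lit 128, nat_lit 7112, nat_lit 2, nat_lit 2⟩, ⟨true, nat_lit 64, nat_lit 7112, nat_lit 2, nat_lit 2⟩, ⟨false, nat_lit 32768, nat_lit 58376, nat_lit 2, nat_lit 0⟩,
    ⟨false, nat_lit 1024, nat_lit 39944, nat_lit 2, nat_lit 0⟩, ⟨true, nat_lit 8, nat_lit 40952, nat_lit 3, nat_lit 3⟩, ⟨false, nat_lit 16384, nat_lit 57344, nat_lit 1, nat_lit 1⟩,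
    ⟨false, nat_lit 8192, nat_lit 57344, nat_lit 1, nat_lit 1⟩]

def r90_0_12 : List Wr := [
    ⟨false, nat_lit 4, nat_lit 7, nat_lit 1, nat_lit 1⟩, ⟨false, nat_lit 2, nat_lit 7, nat_lit 1, nat_lit 1⟩, ⟨true, nat_lit 1, nat_lit 7, nat_lit 1, nat_lit 1⟩,
    ⟨false, nat_lit 32768, nat_lit 65528, nat_lit 4, nat_lit 2⟩, ⟨false, nat_lit 4096, nat_lit 40952, nat_lit 3, nat_lit 3⟩, ⟨true, nat_lit 32, nat_lit 36920, nat_lit 2, nat_lit 0⟩,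
    ⟨false, nat_lit 512, nat_lit 37848, nat_lit 2, nat_lit 3⟩, ⟨true, nat_lit 256, nat_lit 37848, nat_lit 2, nat_lit 3⟩, ⟨false, nat_lit 2048, nat_lit 40152, nat_lit 3, nat_lit 0⟩,
    ⟨false, nat_lit 128, nat_lit 39896, nat_lit 3, nat_lit 1⟩, ⟨true, nat_lit 16, nat_lit 39864, nat_lit 3, nat_lit 1⟩, ⟨true, nat_lit 64, nat_lit 39880, nat_lit 2, nat_lit 3⟩,
    ⟨false, nat_lit 16384, nat_lit 58376, nat_lit 2, nat_lit 0⟩, ⟨false, nat_lit 1024, nat_lit 56328, nat_lit 2, nat_lit 1⟩, ⟨true, nat_lit 8, nat_lit 57336, nat_lit 4, nat_lit 1⟩,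
    ⟨false, nat_lit 8192, nat_lit 57344, nat_lit 1, nat_lit 1⟩]

def r90_0_13 : List Wr := [
    ⟨true, nat_lit 1, nat_lit 1, nat_lit 0, nat_lit 2⟩, ⟨false, nat_lit 32, nat_lit 62, nat_lit 2, nat_lit 0⟩, ⟨false, nat_lit 4, nat_lit 38, nat_lit 1, nat_lit 1⟩,
    ⟨true, nat_lit 2, nat_lit 38, nat_lit 1, nat_lit 1⟩, ⟨false, nat_lit 32768, nat_lit 65496, nat_lit 4, nat_lit 1⟩, ⟨false, nat_lit 256, nat_lit 33240, nat_lit 2, nat_lit 1⟩,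
    ⟨true, nat_lit 16, nat_lit 33080, nat_lit 2, nat_lit 0⟩, ⟨true, nat_lit 4096, nat_lit 40648, nat_lit 2, nat_lit 3⟩, ⟨false, nat_lit 16384, nat_lit 61128, nat_lit 3, nat_lit 1⟩,
    ⟨false, nat_lit 2048, nat_lit 57032, nat_lit 3, nat_lit 1⟩, ⟨true, nat_lit 128, nat_lit 55752, nat_lit 3, nat_lit 0⟩, ⟨false, nat_lit 1024, nat_lit 56904, nat_lit 2, nat_lit 3⟩,
    ⟨true, nat_lit 512, nat_lit 56904, nat_lit 2, nat_lit 3⟩, ⟨false, nat_lit 8192, nat_lit 57416, nat_lit 2, nat_lit 0⟩, ⟨false, nat_lit 64, nat_lit 65480, nat_lit 3, nat_lit 3⟩,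
    ⟨false, nat_lit 8, nat_lit 65528, nat_lit 4, nat_lit 2⟩]

def r90_0_14 : List Wr := [
    ⟨false, nat_lit 4, nat_lit 7, nat_lit 1, nat_lit 1⟩, ⟨false, nat_lit 2, nat_lit 7, nat_lit 1, nat_lit 1⟩, ⟨true, nat_lit 1, nat_lit 7, nat_lit 1, nat_lit 1⟩,
    ⟨true, nat_lit 32, nat_lit 56, nat_lit 1, nat_lit 1⟩, ⟨false, nat_lit 32768, nat_lit 65496, nat_lit 4, nat_lit 1⟩, ⟨false, nat_lit 256, nat_lit 33240, nat_lit 2, nat_lit 1⟩,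
    ⟨true, nat_lit 16, nat_lit 33080, nat_lit 2, nat_lit 0⟩, ⟨true, nat_lit 4096, nat_lit 40648, nat_lit 2, nat_lit 3⟩, ⟨false, nat_lit 16384, nat_lit 61128, nat_lit 3, nat_lit 1⟩,
    ⟨false, nat_lit 2048, nat_lit 57032, nat_lit 3, nat_lit 1⟩, ⟨true, nat_lit 128, nat_lit 55752, nat_lit 3, nat_lit 0⟩, ⟨false, nat_lit 1024, nat_lit 56904, nat_lit 2, nat_lit 3⟩,
    ⟨true, nat_lit 512, nat_lit 56904, nat_lit 2, nat_lit 3⟩, ⟨false, nat_lit 8192, nat_lit 57416, nat_lit 2, nat_lit 0⟩, ⟨false, nat_lit 64, nat_lit 65480, nat_lit 3, nat_lit 3⟩,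
    ⟨false, nat_lit 8, nat_lit 65528, nat_lit 4, nat_lit 2⟩]

def r90_0_15 : List Wr := [
    ⟨true, nat_lit 1, nat_lit 1, nat_lit 0, nat_lit 2⟩, ⟨false, nat_lit 32, nat_lit 62, nat_lit 2, nat_lit 0⟩, ⟨false, nat_lit 4, nat_lit 38, nat_lit 1, nat_lit 1⟩,
    ⟨true, nat_lit 2, nat_lit 38, nat_lit 1, nat_lit 1⟩, ⟨true, nat_lit 16, nat_lit 56, nat_lit 1, nat_lit 1⟩, ⟨false, nat_lit 32768, nat_lit 65480, nat_lit 3, nat_lit 3⟩,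
    ⟨false, nat_lit 256, nat_lit 33224, nat_lit 2, nat_lit 0⟩, ⟨true, nat_lit 8, nat_lit 33080, nat_lit 2, nat_lit 0⟩, ⟨false, nat_lit 4096, nat_lit 40640, nat_lit 2, nat_lit 2⟩,
    ⟨false, nat_lit 2048, nat_lit 40640, nat_lit 2, nat_lit 2⟩, ⟨false, nat_lit 512, nat_lit 39616, nat_lit 2, nat_lit 1⟩, ⟨true, nat_lit 128, nat_lit 39872, nat_lit 2, nat_lit 2⟩,
    ⟨false, nat_lit 16384, nat_lit 58432, nat_lit 2, nat_lit 0⟩, ⟨false, nat_lit 1024, nat_lit 56384, nat_lit 2, nat_lit 1⟩, ⟨true, nat_lit 64, nat_lit 57280, nat_lit 3, nat_lit 1⟩,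
    ⟨false, nat_lit 8192, nat_lit 57344, nat_lit 1, nat_lit 1⟩]

def r90_0_16 : List Wr := [
    ⟨false, nat_lit 4, nat_lit 7, nat_lit 1, nat_lit 1⟩, ⟨false, nat_lit 2, nat_lit 7, nat_lit 1, nat_lit 1⟩, ⟨true, nat_lit 1, nat_lit 7, nat_lit 1, nat_lit 1⟩,
    ⟨false, nat_lit 32, nat_lit 56, nat_lit 1, nat_lit 1⟩, ⟨true, nat_lit 16, nat_lit 56, nat_lit 1, nat_lit 1⟩, ⟨false, nat_lit 32768, nat_lit 65480, nat_lit 3, nat_lit 3⟩,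
    ⟨false, nat_lit 256, nat_lit 33224, nat_lit 2, nat_lit 0⟩, ⟨true, nat_lit 8, nat_lit 33080, nat_lit 2, nat_lit 0⟩, ⟨false, nat_lit 4096, nat_lit 40640, nat_lit 2, nat_lit 2⟩,
    ⟨false, nat_lit 2048, nat_lit 40640, nat_lit 2, nat_lit 2⟩, ⟨false, nat_lit 512, nat_lit 39616, nat_lit 2, nat_lit 1⟩, ⟨true, nat_lit 128, nat_lit 39872, nat_lit 2, nat_lit 2⟩,
    ⟨false, nat_lit 16384, nat_lit 58432, nat_lit 2, nat_lit 0⟩, ⟨false, nat_lit 1024, nat_lit 56384, nat_lit 2, nat_lit 1⟩, ⟨true, nat_lit 64, nat_lit 57280, nat_lit 3, nat_lit 1⟩,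
    ⟨false, nat_lit 8192, nat_lit 57344, nat_lit 1, nat_lit 1⟩]

def l90_0 : List (Nat × List Wr × Nat) := [
  (nat_lit 6, r90_0_0, nat_lit 0), (nat_lit 6, r90_0_1, nat_lit 0), (nat_lit 6, r90_0_2, nat_lit 0),
  (nat_lit 6, r90_0_3, nat_lit 0), (nat_lit 6, r90_0_4, nat_lit 0), (nat_lit 6, r90_0_5, nat_lit 0),
  (nat_lit 6, r90_0_6, nat_lit 0), (nat_lit 6, r90_0_7, nat_lit 0), (nat_lit 6, r90_0_8, nat_lit 0),
  (nat_lit 6, r90_0_9, nat_lit 0), (nat_lit 6, r90_0_10, nat_lit 0), (nat_lit 6, r90_0_11, nat_lit 0),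
  (nat_lit 6, r90_0_12, nat_lit 0), (nat_lit 6, r90_0_13, nat_lit 0), (nat_lit 6, r90_0_14, nat_lit 0),
  (nat_lit 6, r90_0_15, nat_lit 0), (nat_lit 6, r90_0_16, nat_lit 0)]

end Pool.Agent.EC4.Run
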