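import Pool.Agent.Lib.MP_ec4eff_co.R5.Srch

/-! Generated file (project R5): results of the first lune -/

namespace Pool.Agent.EC4.Run

def r80_0_0 : List Wr := [
    ⟨false, nat_lit 2048, nat_lit 4095, nat_lit 4, nat_lit 1⟩, ⟨false, nat_lit 16, nat_lit 2079, nat_lit 2, nat_lit 1⟩, ⟨true, nat_lit 1, nat_lit 2065, nat_lit 1, nat_lit 1⟩,
    ⟨false, nat_lit 128, nat_lit 2286, nat_lit 2, nat_lit 2⟩, ⟨true, nat_lit 8, nat_lit 2206, nat_lit 2, nat_lit 1⟩, ⟨false, nat_lit 256, nat_lit 2406, nat_lit 2, nat_lit 1⟩,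
    ⟨false, nat_lit 64, nat_lit 2534, nat_lit 2, nat_lit 2⟩, ⟨true, nat_lit 2, nat_lit 2522, nat_lit 2, nat_lit 2⟩, ⟨true, nat_lit 32, nat_lit 2532, nat_lit 2, nat_lit 1⟩,
    ⟨false, nat_lit 32768, nat_lit 62980, nat_lit 2, nat_lit 2⟩, ⟨false, nat_lit 1024, nat_lit 36356, nat_lit 2, nat_lit 0⟩, ⟨true, nat_lit 4, nat_lit 36348, nat_lit 3, nat_lit 2⟩,
    ⟨false, nat_lit 16384, nat_lit 61952, nat_lit 2, nat_lit 0⟩, ⟨false, nat_lit 4096, nat_lit 53760, nat_lit 1, nat_lit 2⟩, ⟨true, nat_lit 512, nat_lit 56832, nat_lit 2, nat_lit 1⟩,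
    ⟨false, nat_lit 8192, nat_lit 57344, nat_lit 1, nat_lit 1⟩]

def r80_0_1 : List Wr := [
    ⟨true, nat_lit 1, nat_lit 1, nat_lit 0, nat_lit 2⟩, ⟨true, nat_lit 16, nat_lit 30, nat_lit 1, nat_lit 2⟩, ⟨false, nat_lit 128, nat_lit 238, nat_lit 2, nat_lit 1⟩,
    ⟨false, nat_lit 8, nat_lit 158, nat_lit 2, nat_lit 0⟩, ⟨true, nat_lit 2, nat_lit 154, nat_lit 1, nat_lit 2⟩, ⟨false, nat_lit 2048, nat_lit 3940, nat_lit 2, nat_lit 2⟩,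
    ⟨false, nat_lit 64, nat_lit 2276, nat_lit 2, nat_lit 0⟩, ⟨true, nat_lit 4, nat_lit 2268, nat_lit 2, nat_lit 1⟩, ⟨false, nat_lit 1024, nat_lit 3872, nat_lit 2, nat_lit 0⟩,
    ⟨false, nat_lit 256, nat_lit 3360, nat_lit 1, nat_lit 2⟩, ⟨true, nat_lit 32, nat_lit 3552, nat_lit 2, nat_lit 1⟩, ⟨false, nat_lit 32768, nat_lit 61952, nat_lit 2, nat_lit 0⟩,
    ⟨false, nat_lit 4096, nat_lit 37376, nat_lit 1, nat_lit 1⟩, ⟨true, nat_lit 512, nat_lit 40448, nat_lit 2, nat_lit 0⟩, ⟨false, nat_lit 16384, nat_lit 57344, nat_lit 1, nat_lit 1⟩,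
    ⟨false, nat_lit 8192, nat_lit 57344, nat_lit 1, nat_lit 1⟩]

def r80_0_2 : List Wr := [
    ⟨true, nat_lit 1, nat_lit 1, nat_lit 0, nat_lit 2⟩, ⟨false, nat_lit 128, nat_lit 254, nat_lit 2, nat_lit 2⟩, ⟨false, nat_lit 16, nat_lit 158, nat_lit 2, nat_lit 0⟩,
    ⟨true, nat_lit 2, nat_lit 146, nat_lit 1, nat_lit 1⟩, ⟨false, nat_lit 2048, nat_lit 3948, nat_lit 3, nat_lit 0⟩, ⟨false, nat_lit 64, nat_lit 2284, nat_lit 2, nat_lit 1⟩,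
    ⟨true, nat_lit 8, nat_lit 2268, nat_lit 2, nat_lit 1⟩, ⟨false, nat_lit 256, nat_lit 2340, nat_lit 1, nat_lit 2⟩, ⟨true, nat_lit 32, nat_lit 2532, nat_lit 2, nat_lit 1⟩,
    ⟨false, nat_lit 32768, nat_lit 62980, nat_lit 2, nat_lit 2⟩, ⟨false, nat_lit 1024, nat_lit 36356, nat_lit 2, nat_lit 0⟩, ⟨true, nat_lit 4, nat_lit 36348, nat_lit 3, nat_lit 2⟩,
    ⟨false, nat_lit 16384, nat_lit 61952, nat_lit 2, nat_lit 0⟩, ⟨false, nat_lit 4096, nat_lit 53760, nat_lit 1, nat_lit 2⟩, ⟨true, nat_lit 512, nat_lit 56832, nat_lit 2, nat_lit 1⟩,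
    ⟨false, nat_lit 8192, nat_lit 57344, nat_lit 1, nat_lit 1⟩]

def r80_0_3 : List Wr := [
    ⟨false, nat_lit 16, nat_lit 31, nat_lit 2, nat_lit 0⟩, ⟨false, nat_lit 2, nat_lit 19, nat_lit 1, nat_lit 1⟩, ⟨true, nat_lit 1, nat_lit 19, nat_lit 1, nat_lit 1⟩,
    ⟨true, nat_lit 128, nat_lit 236, nat_lit 1, nat_lit 3⟩, ⟨false, nat_lit 2048, nat_lit 3948, nat_lit 3, nat_lit 0⟩, ⟨false, nat_lit 64, nat_lit 2284, nat_lit 2, nat_lit 1⟩,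
    ⟨true, nat_lit 8, nat_lit 2268, nat_lit 2, nat_lit 1⟩, ⟨false, nat_lit 256, nat_lit 2340, nat_lit 1, nat_lit 2⟩, ⟨true, nat_lit 32, nat_lit 2532, nat_lit 2, nat_lit 1⟩,
    ⟨false, nat_lit 32768, nat_lit 62980, nat_lit 2, nat_lit 2⟩, ⟨false, nat_lit 1024, nat_lit 36356, nat_lit 2, nat_lit 0⟩, ⟨true, nat_lit 4, nat_lit 36348, nat_lit 3, nat_lit 2⟩,
    ⟨false, nat_lit 16384, nat_lit 61952, nat_lit 2, nat_lit 0⟩, ⟨false, nat_lit 4096, nat_lit 53760, nat_lit 1, nat_lit 2⟩, ⟨true, nat_lit 512, nat_lit 56832, nat_lit 2, nat_lit 1⟩,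
    ⟨false, nat_lit 8192, nat_lit 57344, nat_lit 1, nat_lit 1⟩]

def r80_0_4 : List Wr := [
    ⟨true, nat_lit 1, nat_lit 1, nat_lit 0, nat_lit 2⟩, ⟨false, nat_lit 128, nat_lit 254, nat_lit 2, nat_lit 2⟩, ⟨false, nat_lit 16, nat_lit 158, nat_lit 2, nat_lit 0⟩,
    ⟨true, nat_lit 2, nat_lit 146, nat_lit 1, nat_lit 1⟩, ⟨true, nat_lit 8, nat_lit 156, nat_lit 1, nat_lit 2⟩, ⟨false, nat_lit 2048, nat_lit 3940, nat_lit 2, nat_lit 2⟩,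
    ⟨false, nat_lit 64, nat_lit 2276, nat_lit 2, nat_lit 0⟩, ⟨true, nat_lit 4, nat_lit 2268, nat_lit 2, nat_lit 1⟩, ⟨false, nat_lit 1024, nat_lit 3872, nat_lit 2, nat_lit 0⟩,
    ⟨false, nat_lit 256, nat_lit 3360, nat_lit 1, nat_lit 2⟩, ⟨true, nat_lit 32, nat_lit 3552, nat_lit 2, nat_lit 1⟩, ⟨false, nat_lit 32768, nat_lit 61952, nat_lit 2, nat_lit 0⟩,
    ⟨false, nat_lit 4096, nat_lit 37376, nat_lit 1, nat_lit 1⟩, ⟨true, nat_lit 512, nat_lit 40448, nat_lit 2, nat_lit 0⟩, ⟨false, nat_lit 16384, nat_lit 57344, nat_lit 1, nat_lit 1⟩,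
    ⟨false, nat_lit 8192, nat_lit 57344, nat_lit 1, nat_lit 1⟩]

def r80_0_5 : List Wr := [
    ⟨false, nat_lit 16, nat_lit 31, nat_lit 2, nat_lit 0⟩, ⟨false, nat_lit 2, nat_lit 19, nat_lit 1, nat_lit 1⟩, ⟨true, nat_lit 1, nat_lit 19, nat_lit 1, nat_lit 1⟩,
    ⟨false, nat_lit 128, nat_lit 236, nat_lit 1, nat_lit 3⟩, ⟨true, nat_lit 8, nat_lit 156, nat_lit 1, nat_lit 2⟩, ⟨false, nat_lit 2048, nat_lit 3940, nat_lit 2, nat_lit 2⟩,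
    ⟨false, nat_lit 64, nat_lit 2276, nat_lit 2, nat_lit 0⟩, ⟨true, nat_lit 4, nat_lit 2268, nat_lit 2, nat_lit 1⟩, ⟨false, nat_lit 1024, nat_lit 3872, nat_lit 2, nat_lit 0⟩,
    ⟨false, nat_lit 256, nat_lit 3360, nat_lit 1, nat_lit 2⟩, ⟨true, nat_lit 32, nat_lit 3552, nat_lit 2, nat_lit 1⟩, ⟨false, nat_lit 32768, nat_lit 61952, nat_lit 2, nat_lit 0⟩,
    ⟨false, nat_lit 4096, nat_lit 37376, nat_lit 1, nat_lit 1⟩, ⟨true, nat_lit 512, nat_lit 40448, nat_lit 2, nat_lit 0⟩, ⟨false, nat_lit 16384, nat_lit 57344, nat_lit 1, nat_lit 1⟩,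
    ⟨false, nat_lit 8192, nat_lit 57344, nat_lit 1, nat_lit 1⟩]

def r80_0_6 : List Wr := [
    ⟨false, nat_lit 16, nat_lit 31, nat_lit 2, nat_lit 0⟩, ⟨false, nat_lit 2, nat_lit 19, nat_lit 1, nat_lit 1⟩, ⟨true, nat_lit 1, nat_lit 19, nat_lit 1, nat_lit 1⟩,
    ⟨false, nat_lit 2048, nat_lit 4076, nat_lit 3, nat_lit 1⟩, ⟨false, nat_lit 128, nat_lit 2284, nat_lit 2, nat_lit 1⟩, ⟨true, nat_lit 8, nat_lit 2204, nat_lit 2, nat_lit 0⟩,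
    ⟨false, nat_lit 1024, nat_lit 3940, nat_lit 2, nat_lit 2⟩, ⟨false, nat_lit 256, nat_lit 3428, nat_lit 2, nat_lit 1⟩, ⟨false, nat_lit 64, nat_lit 3556, nat_lit 2, nat_lit 2⟩,
    ⟨false, nat_lit 32, nat_lit 3556, nat_lit 2, nat_lit 2⟩, ⟨true, nat_lit 4, nat_lit 3580, nat_lit 2, nat_lit 4⟩, ⟨false, nat_lit 32768, nat_lit 61952, nat_lit 2, nat_lit 0⟩,
    ⟨false, nat_lit 4096, nat_lit 37376, nat_lit 1, nat_lit 1⟩, ⟨true, nat_lit 512, nat_lit 40448, nat_lit 2, nat_lit 0⟩, ⟨false, nat_lit 16384, nat_lit 57344, nat_lit 1, nat_lit 1⟩,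
    ⟨false, nat_lit 8192, nat_lit 57344, nat_lit 1, nat_lit 1⟩]

def r80_0_7 : List Wr := [
    ⟨false, nat_lit 16, nat_lit 31, nat_lit 2, nat_lit 0⟩, ⟨false, nat_lit 2, nat_lit 19, nat_lit 1, nat_lit 1⟩, ⟨true, nat_lit 1, nat_lit 19, nat_lit 1, nat_lit 1⟩,
    ⟨false, nat_lit 2048, nat_lit 4076, nat_lit 3, nat_lit 1⟩, ⟨false, nat_lit 128, nat_lit 2284, nat_lit 2, nat_lit 1⟩, ⟨true, nat_lit 8, nat_lit 2204, nat_lit 2, nat_lit 0⟩,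
    ⟨false, nat_lit 1024, nat_lit 3940, nat_lit 2, nat_lit 2⟩, ⟨false, nat_lit 256, nat_lit 3428, nat_lit 2, nat_lit 1⟩, ⟨false, nat_lit 64, nat_lit 3556, nat_lit 2, nat_lit 2⟩,
    ⟨true, nat_lit 32, nat_lit 3556, nat_lit 2, nat_lit 2⟩, ⟨false, nat_lit 4096, nat_lit 4612, nat_lit 1, nat_lit 1⟩, ⟨false, nat_lit 512, nat_lit 7684, nat_lit 2, nat_lit 0⟩,
    ⟨true, nat_lit 4, nat_lit 8188, nat_lit 3, nat_lit 3⟩, ⟨false, nat_lit 32768, nat_lit 57344, nat_lit 1, nat_lit 1⟩, ⟨false, nat_lit 16384, nat_lit 57344, nat_lit 1, nat_lit 1⟩,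
    ⟨false, nat_lit 8192, nat_lit 57344, nat_lit 1, nat_lit 1⟩]

def r80_0_8 : List Wr := [
    ⟨false, nat_lit 16, nat_lit 31, nat_lit 2, nat_lit 0⟩, ⟨false, nat_lit 2, nat_lit 19, nat_lit 1, nat_lit 1⟩, ⟨true, nat_lit 1, nat_lit 19, nat_lit 1, nat_lit 1⟩,
    ⟨false, nat_lit 2048, nat_lit 4076, nat_lit 3, nat_lit 1⟩, ⟨false, nat_lit 128, nat_lit 2284, nat_lit 2, nat_lit 1⟩, ⟨true, nat_lit 8, nat_lit 2204, nat_lit 2, nat_lit 0⟩,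
    ⟨false, nat_lit 32768, nat_lit 63332, nat_lit 3, nat_lit 2⟩, ⟨false, nat_lit 256, nat_lit 35172, nat_lit 2, nat_lit 1⟩, ⟨true, nat_lit 64, nat_lit 35300, nat_lit 2, nat_lit 2⟩,
    ⟨false, nat_lit 4096, nat_lit 38436, nat_lit 2, nat_lit 1⟩, ⟨false, nat_lit 1024, nat_lit 40484, nat_lit 2, nat_lit 2⟩, ⟨true, nat_lit 32, nat_lit 40420, nat_lit 3, nat_lit 1⟩,
    ⟨false, nat_lit 512, nat_lit 40452, nat_lit 2, nat_lit 1⟩, ⟨true, nat_lit 4, nat_lit 40956, nat_lit 3, nat_lit 4⟩, ⟨false, nat_lit 16384, nat_lit 57344, nat_lit 1, nat_lit 1⟩,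
    ⟨false, nat_lit 8192, nat_lit 57344, nat_lit 1, nat_lit 1⟩]

def r80_0_9 : List Wr := [
    ⟨false, nat_lit 16, nat_lit 31, nat_lit 2, nat_lit 0⟩, ⟨false, nat_lit 2, nat_lit 19, nat_lit 1, nat_lit 1⟩, ⟨true, nat_lit 1, nat_lit 19, nat_lit 1, nat_lit 1⟩,
    ⟨false, nat_lit 2048, nat_lit 4076, nat_lit 3, nat_lit 1⟩, ⟨false, nat_lit 128, nat_lit 2284, nat_lit 2, nat_lit 1⟩, ⟨true, nat_lit 8, nat_lit 2204, nat_lit 2, nat_lit 0⟩,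
    ⟨false, nat_lit 32768, nat_lit 63332, nat_lit 3, nat_lit 2⟩, ⟨false, nat_lit 256, nat_lit 35172, nat_lit 2, nat_lit 1⟩, ⟨false, nat_lit 64, nat_lit 35300, nat_lit 2, nat_lit 2⟩,
    ⟨true, nat_lit 32, nat_lit 35300, nat_lit 2, nat_lit 2⟩, ⟨false, nat_lit 4096, nat_lit 38404, nat_lit 1, nat_lit 3⟩, ⟨true, nat_lit 1024, nat_lit 40452, nat_lit 2, nat_lit 1⟩,
    ⟨false, nat_lit 16384, nat_lit 57860, nat_lit 2, nat_lit 0⟩, ⟨false, nat_lit 512, nat_lit 56836, nat_lit 2, nat_lit 2⟩, ⟨true, nat_lit 4, nat_lit 57340, nat_lit 4, nat_lit 2⟩,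
    ⟨false, nat_lit 8192, nat_lit 57344, nat_lit 1, nat_lit 1⟩]

def r80_0_10 : List Wr := [
    ⟨false, nat_lit 16, nat_lit 31, nat_lit 2, nat_lit 0⟩, ⟨false, nat_lit 2, nat_lit 19, nat_lit 1, nat_lit 1⟩, ⟨true, nat_lit 1, nat_lit 19, nat_lit 1, nat_lit 1⟩,
    ⟨false, nat_lit 2048, nat_lit 4076, nat_lit 3, nat_lit 1⟩, ⟨false, nat_lit 128, nat_lit 2284, nat_lit 2, nat_lit 1⟩, ⟨true, nat_lit 8, nat_lit 2204, nat_lit 2, nat_lit 0⟩,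
    ⟨true, nat_lit 64, nat_lit 2276, nat_lit 1, nat_lit 3⟩, ⟨false, nat_lit 256, nat_lit 2340, nat_lit 1, nat_lit 2⟩, ⟨true, nat_lit 32, nat_lit 2532, nat_lit 2, nat_lit 1⟩,
    ⟨false, nat_lit 32768, nat_lit 62980, nat_lit 2, nat_lit 2⟩, ⟨false, nat_lit 1024, nat_lit 36356, nat_lit 2, nat_lit 0⟩, ⟨true, nat_lit 4, nat_lit 36348, nat_lit 3, nat_lit 2⟩,
    ⟨false, nat_lit 16384, nat_lit 61952, nat_lit 2, nat_lit 0⟩, ⟨false, nat_lit 4096, nat_lit 53760, nat_lit 1, nat_lit 2⟩, ⟨true, nat_lit 512, nat_lit 56832, nat_lit 2, nat_lit 1⟩,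
    ⟨false, nat_lit 8192, nat_lit 57344, nat_lit 1, nat_lit 1⟩]

def r80_0_11 : List Wr := [
    ⟨false, nat_lit 16, nat_lit 31, nat_lit 2, nat_lit 0⟩, ⟨false, nat_lit 2, nat_lit 19, nat_lit 1, nat_lit 1⟩, ⟨true, nat_lit 1, nat_lit 19, nat_lit 1, nat_lit 1⟩,
    ⟨false, nat_lit 2048, nat_lit 4076, nat_lit 3, nat_lit 1⟩, ⟨false, nat_lit 128, nat_lit 2284, nat_lit 2, nat_lit 1⟩, ⟨true, nat_lit 8, nat_lit 2204, nat_lit 2, nat_lit 0⟩,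
    ⟨false, nat_lit 256, nat_lit 2404, nat_lit 1, nat_lit 3⟩, ⟨true, nat_lit 64, nat_lit 2532, nat_lit 2, nat_lit 1⟩, ⟨false, nat_lit 1024, nat_lit 3620, nat_lit 2, nat_lit 0⟩,
    ⟨false, nat_lit 32, nat_lit 3556, nat_lit 2, nat_lit 2⟩, ⟨true, nat_lit 4, nat_lit 3580, nat_lit 3, nat_lit 1⟩, ⟨false, nat_lit 32768, nat_lit 61952, nat_lit 2, nat_lit 0⟩,
    ⟨false, nat_lit 4096, nat_lit 37376, nat_lit 1, nat_lit 1⟩, ⟨true, nat_lit 512, nat_lit 40448, nat_lit 2, nat_lit 0⟩, ⟨false, nat_lit 16384, nat_lit 57344, nat_lit 1, nat_lit 1⟩,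
    ⟨false, nat_lit 8192, nat_lit 57344, nat_lit 1, nat_lit 1⟩]

def r80_0_12 : List Wr := [
    ⟨true, nat_lit 1, nat_lit 1, nat_lit 0, nat_lit 2⟩, ⟨false, nat_lit 2048, nat_lit 4094, nat_lit 3, nat_lit 3⟩, ⟨false, nat_lit 16, nat_lit 2078, nat_lit 2, nat_lit 0⟩,
    ⟨true, nat_lit 2, nat_lit 2066, nat_lit 1, nat_lit 1⟩, ⟨false, nat_lit 256, nat_lit 2540, nat_lit 2, nat_lit 2⟩, ⟨false, nat_lit 128, nat_lit 2540, nat_lit 2, nat_lit 2⟩,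
    ⟨true, nat_lit 8, nat_lit 2460, nat_lit 2, nat_lit 1⟩, ⟨true, nat_lit 64, nat_lit 2532, nat_lit 2, nat_lit 1⟩, ⟨false, nat_lit 1024, nat_lit 3620, nat_lit 2, nat_lit 0⟩,
    ⟨false, nat_lit 32, nat_lit 3556, nat_lit 2, nat_lit 2⟩, ⟨true, nat_lit 4, nat_lit 3580, nat_lit 3, nat_lit 1⟩, ⟨false, nat_lit 32768, nat_lit 61952, nat_lit 2, nat_lit 0⟩,
    ⟨false, nat_lit 4096, nat_lit 37376, nat_lit 1, nat_lit 1⟩, ⟨true, nat_lit 512, nat_lit 40448, nat_lit 2, nat_lit 0⟩, ⟨false, nat_lit 16384, nat_lit 57344, nat_lit 1, nat_lit 1⟩,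
    ⟨false, nat_lit 8192, nat_lit 57344, nat_lit 1, nat_lit 1⟩]

def r80_0_13 : List Wr := [
    ⟨false, nat_lit 16, nat_lit 31, nat_lit 2, nat_lit 0⟩, ⟨false, nat_lit 2, nat_lit 19, nat_lit 1, nat_lit 1⟩, ⟨true, nat_lit 1, nat_lit 19, nat_lit 1, nat_lit 1⟩,
    ⟨false, nat_lit 2048, nat_lit 4076, nat_lit 2, nat_lit 4⟩, ⟨false, nat_lit 256, nat_lit 2540, nat_lit 2, nat_lit 2⟩, ⟨false, nat_lit 128, nat_lit 2540, nat_lit 2, nat_lit 2⟩,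
    ⟨true, nat_lit 8, nat_lit 2460, nat_lit 2, nat_lit 1⟩, ⟨true, nat_lit 64, nat_lit 2532, nat_lit 2, nat_lit 1⟩, ⟨false, nat_lit 1024, nat_lit 3620, nat_lit 2, nat_lit 0⟩,
    ⟨false, nat_lit 32, nat_lit 3556, nat_lit 2, nat_lit 2⟩, ⟨true, nat_lit 4, nat_lit 3580, nat_lit 3, nat_lit 1⟩, ⟨false, nat_lit 32768, nat_lit 61952, nat_lit 2, nat_lit 0⟩,
    ⟨false, nat_lit 4096, nat_lit 37376, nat_lit 1, nat_lit 1⟩, ⟨true, nat_lit 512, nat_lit 40448, nat_lit 2, nat_lit 0⟩, ⟨false, nat_lit 16384, nat_lit 57344, nat_lit 1, nat_lit 1⟩,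
    ⟨false, nat_lit 8192, nat_lit 57344, nat_lit 1, nat_lit 1⟩]

def r80_0_14 : List Wr := [
    ⟨false, nat_lit 16, nat_lit 31, nat_lit 2, nat_lit 0⟩, ⟨false, nat_lit 2, nat_lit 19, nat_lit 1, nat_lit 1⟩, ⟨true, nat_lit 1, nat_lit 19, nat_lit 1, nat_lit 1⟩,
    ⟨false, nat_lit 2048, nat_lit 4076, nat_lit 3, nat_lit 1⟩, ⟨false, nat_lit 128, nat_lit 2284, nat_lit 2, nat_lit 1⟩, ⟨true, nat_lit 8, nat_lit 2204, nat_lit 2, nat_lit 0⟩,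
    ⟨true, nat_lit 256, nat_lit 2404, nat_lit 1, nat_lit 3⟩, ⟨false, nat_lit 32768, nat_lit 63076, nat_lit 3, nat_lit 1⟩, ⟨false, nat_lit 1024, nat_lit 36452, nat_lit 2, nat_lit 2⟩,
    ⟨true, nat_lit 64, nat_lit 36324, nat_lit 3, nat_lit 0⟩, ⟨false, nat_lit 512, nat_lit 36388, nat_lit 2, nat_lit 1⟩, ⟨true, nat_lit 32, nat_lit 36836, nat_lit 2, nat_lit 4⟩,
    ⟨false, nat_lit 16384, nat_lit 61444, nat_lit 2, nat_lit 0⟩, ⟨false, nat_lit 4096, nat_lit 53252, nat_lit 1, nat_lit 2⟩, ⟨true, nat_lit 4, nat_lit 57340, nat_lit 4, nat_lit 2⟩,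
    ⟨false, nat_lit 8192, nat_lit 57344, nat_lit 1, nat_lit 1⟩]

def r80_0_15 : List Wr := [
    ⟨false, nat_lit 16, nat_lit 31, nat_lit 2, nat_lit 0⟩, ⟨false, nat_lit 2, nat_lit 19, nat_lit 1, nat_lit 1⟩, ⟨true, nat_lit 1, nat_lit 19, nat_lit 1, nat_lit 1⟩,
    ⟨false, nat_lit 2048, nat_lit 4076, nat_lit 3, nat_lit 1⟩, ⟨false, nat_lit 128, nat_lit 2284, nat_lit 2, nat_lit 1⟩, ⟨true, nat_lit 8, nat_lit 2204, nat_lit 2, nat_lit 0⟩,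
    ⟨false, nat_lit 256, nat_lit 2404, nat_lit 1, nat_lit 3⟩, ⟨false, nat_lit 64, nat_lit 2532, nat_lit 2, nat_lit 1⟩, ⟨true, nat_lit 4, nat_lit 2524, nat_lit 2, nat_lit 2⟩,
    ⟨false, nat_lit 32768, nat_lit 63008, nat_lit 2, nat_lit 2⟩, ⟨false, nat_lit 1024, nat_lit 36384, nat_lit 2, nat_lit 0⟩, ⟨true, nat_lit 32, nat_lit 36320, nat_lit 2, nat_lit 2⟩,
    ⟨false, nat_lit 16384, nat_lit 61952, nat_lit 2, nat_lit 0⟩, ⟨false, nat_lit 4096, nat_lit 53760, nat_lit 1, nat_lit 2⟩, ⟨true, nat_lit 512, nat_lit 56832, nat_lit 2, nat_lit 1⟩,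
    ⟨false, nat_lit 8192, nat_lit 57344, nat_lit 1, nat_lit 1⟩]

def r80_0_16 : List Wr := [
    ⟨false, nat_lit 16, nat_lit 31, nat_lit 2, nat_lit 0⟩, ⟨false, nat_lit 2, nat_lit 19, nat_lit 1, nat_lit 1⟩, ⟨true, nat_lit 1, nat_lit 19, nat_lit 1, nat_lit 1⟩,
    ⟨false, nat_lit 2048, nat_lit 4076, nat_lit 3, nat_lit 1⟩, ⟨false, nat_lit 128, nat_lit 2284, nat_lit 2, nat_lit 1⟩, ⟨true, nat_lit 8, nat_lit 2204, nat_lit 2, nat_lit 0⟩,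
    ⟨false, nat_lit 256, nat_lit 2404, nat_lit 1, nat_lit 3⟩, ⟨true, nat_lit 64, nat_lit 2532, nat_lit 2, nat_lit 1⟩, ⟨false, nat_lit 1024, nat_lit 3620, nat_lit 2, nat_lit 0⟩,
    ⟨false, nat_lit 32, nat_lit 3556, nat_lit 2, nat_lit 2⟩, ⟨true, nat_lit 4, nat_lit 3580, nat_lit 3, nat_lit 1⟩, ⟨false, nat_lit 32768, nat_lit 61952, nat_lit 1, nat_lit 3⟩,
    ⟨false, nat_lit 16384, nat_lit 61952, nat_lit 2, nat_lit 0⟩, ⟨false, nat_lit 4096, nat_lit 53760, nat_lit 1, nat_lit 2⟩, ⟨true, nat_lit 512, nat_lit 56832, nat_lit 2, nat_lit 1⟩,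
    ⟨false, nat_lit 8192, nat_lit 57344, nat_lit 1, nat_lit 1⟩]

def r80_0_17 : List Wr := [
    ⟨false, nat_lit 16, nat_lit 31, nat_lit 2, nat_lit 0⟩, ⟨false, nat_lit 2, nat_lit 19, nat_lit 1, nat_lit 1⟩, ⟨true, nat_lit 1, nat_lit 19, nat_lit 1, nat_lit 1⟩,
    ⟨false, nat_lit 32768, nat_lit 65516, nat_lit 4, nat_lit 2⟩, ⟨false, nat_lit 128, nat_lit 33004, nat_lit 2, nat_lit 1⟩, ⟨true, nat_lit 8, nat_lit 32924, nat_lit 2, nat_lit 0⟩,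
    ⟨false, nat_lit 256, nat_lit 33124, nat_lit 1, nat_lit 3⟩, ⟨true, nat_lit 64, nat_lit 33252, nat_lit 2, nat_lit 1⟩, ⟨false, nat_lit 4096, nat_lit 40484, nat_lit 2, nat_lit 2⟩,
    ⟨false, nat_lit 2048, nat_lit 40484, nat_lit 2, nat_lit 2⟩, ⟨true, nat_lit 4, nat_lit 39388, nat_lit 3, nat_lit 1⟩, ⟨true, nat_lit 1024, nat_lit 40480, nat_lit 2, nat_lit 1⟩,
    ⟨false, nat_lit 16384, nat_lit 57888, nat_lit 2, nat_lit 0⟩, ⟨false, nat_lit 512, nat_lit 56864, nat_lit 2, nat_lit 2⟩, ⟨true, nat_lit 32, nat_lit 57312, nat_lit 3, nat_lit 2⟩,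
    ⟨false, nat_lit 8192, nat_lit 57344, nat_lit 1, nat_lit 1⟩]

def l80_0 : List (Nat × List Wr × Nat) := [
  (nat_lit 6, r80_0_0, nat_lit 0), (nat_lit 6, r80_0_1, nat_lit 0), (nat_lit 6, r80_0_2, nat_lit 0),
  (nat_lit 6, r80_0_3, nat_lit 0), (nat_lit 6, r80_0_4, nat_lit 0), (nat_lit 6, r80_0_5, nat_lit 0),
  (nat_lit 6, r80_0_6, nat_lit 0), (nat_lit 6, r80_0_7, nat_lit 0), (nat_lit 6, r80_0_8, nat_lit 0),
  (nat_lit 6, r80_0_9, nat_lit 0), (nat_lit 6, r80_0_10, nat_lit 0), (nat_lit 2, r80_0_11, nat_lit 0),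
  (nat_lit 6, r80_0_12, nat_lit 0), (nat_lit 6, r80_0_13, nat_lit 0), (nat_lit 6, r80_0_14, nat_lit 0),
  (nat_lit 6, r80_0_15, nat_lit 0), (nat_lit 6, r80_0_16, nat_lit 0), (nat_lit 6, r80_0_17, nat_lit 0)]

def r80_1_0 : List Wr := [
    ⟨false, nat_lit 16, nat_lit 31, nat_lit 2, nat_lit 0⟩, ⟨false, nat_lit 2, nat_lit 19, nat_lit 1, nat_lit 1⟩, ⟨true, nat_lit 1, nat_lit 19, nat_lit 1, nat_lit 1⟩,
    ⟨true, nat_lit 8, nat_lit 28, nat_lit 1, nat_lit 1⟩, ⟨true, nat_lit 128, nat_lit 228, nat_lit 1, nat_lit 2⟩, ⟨false, nat_lit 2048, nat_lit 3940, nat_lit 2, nat_lit 2⟩,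
    ⟨false, nat_lit 64, nat_lit 2276, nat_lit 2, nat_lit 0⟩, ⟨true, nat_lit 4, nat_lit 2268, nat_lit 2, nat_lit 1⟩, ⟨false, nat_lit 1024, nat_lit 3872, nat_lit 2, nat_lit 0⟩,
    ⟨false, nat_lit 256, nat_lit 3360, nat_lit 1, nat_lit 2⟩, ⟨true, nat_lit 32, nat_lit 3552, nat_lit 2, nat_lit 1⟩, ⟨false, nat_lit 32768, nat_lit 61952, nat_lit 2, nat_lit 0⟩,
    ⟨false, nat_lit 4096, nat_lit 37376, nat_lit 1, nat_lit 1⟩, ⟨true, nat_lit 512, nat_lit 40448, nat_lit 2, nat_lit 0⟩, ⟨false, nat_lit 16384, nat_lit 57344, nat_lit 1, nat_lit 1⟩,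
    ⟨false, nat_lit 8192, nat_lit 57344, nat_lit 1, nat_lit 1⟩]

def r80_1_1 : List Wr := [
    ⟨false, nat_lit 16, nat_lit 31, nat_lit 2, nat_lit 0⟩, ⟨false, nat_lit 2, nat_lit 19, nat_lit 1, nat_lit 1⟩, ⟨true, nat_lit 1, nat_lit 19, nat_lit 1, nat_lit 1⟩,
    ⟨false, nat_lit 128, nat_lit 236, nat_lit 1, nat_lit 3⟩, ⟨true, nat_lit 8, nat_lit 156, nat_lit 1, nat_lit 2⟩, ⟨false, nat_lit 2048, nat_lit 3940, nat_lit 2, nat_lit 2⟩,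
    ⟨false, nat_lit 64, nat_lit 2276, nat_lit 2, nat_lit 0⟩, ⟨true, nat_lit 4, nat_lit 2268, nat_lit 2, nat_lit 1⟩, ⟨false, nat_lit 1024, nat_lit 3872, nat_lit 2, nat_lit 0⟩,
    ⟨false, nat_lit 256, nat_lit 3360, nat_lit 1, nat_lit 2⟩, ⟨true, nat_lit 32, nat_lit 3552, nat_lit 2, nat_lit 1⟩, ⟨false, nat_lit 32768, nat_lit 61952, nat_lit 2, nat_lit 0⟩,
    ⟨false, nat_lit 4096, nat_lit 37376, nat_lit 1, nat_lit 1⟩, ⟨true, nat_lit 512, nat_lit 40448, nat_lit 2, nat_lit 0⟩, ⟨false, nat_lit 16384, nat_lit 57344, nat_lit 1, nat_lit 1⟩,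
    ⟨false, nat_lit 8192, nat_lit 57344, nat_lit 1, nat_lit 1⟩]

def r80_1_2 : List Wr := [
    ⟨false, nat_lit 16, nat_lit 31, nat_lit 2, nat_lit 0⟩, ⟨false, nat_lit 2, nat_lit 19, nat_lit 1, nat_lit 1⟩, ⟨true, nat_lit 1, nat_lit 19, nat_lit 1, nat_lit 1⟩,
    ⟨false, nat_lit 4096, nat_lit 8172, nat_lit 3, nat_lit 2⟩, ⟨false, nat_lit 128, nat_lit 4332, nat_lit 2, nat_lit 1⟩, ⟨true, nat_lit 8, nat_lit 4252, nat_lit 2, nat_lit 0⟩,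
    ⟨true, nat_lit 2048, nat_lit 8036, nat_lit 2, nat_lit 3⟩, ⟨false, nat_lit 32768, nat_lit 59236, nat_lit 3, nat_lit 1⟩, ⟨false, nat_lit 1024, nat_lit 40804, nat_lit 3, nat_lit 1⟩,
    ⟨true, nat_lit 64, nat_lit 40164, nat_lit 3, nat_lit 0⟩, ⟨false, nat_lit 512, nat_lit 40740, nat_lit 2, nat_lit 3⟩, ⟨true, nat_lit 256, nat_lit 40740, nat_lit 2, nat_lit 3⟩,
    ⟨false, nat_lit 16384, nat_lit 57380, nat_lit 2, nat_lit 0⟩, ⟨false, nat_lit 32, nat_lit 57316, nat_lit 3, nat_lit 3⟩, ⟨true, nat_lit 4, nat_lit 57340, nat_lit 4, nat_lit 2⟩,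
    ⟨false, nat_lit 8192, nat_lit 57344, nat_lit 1, nat_lit 1⟩]

def r80_1_3 : List Wr := [
    ⟨false, nat_lit 16, nat_lit 31, nat_lit 2, nat_lit 0⟩, ⟨false, nat_lit 2, nat_lit 19, nat_lit 1, nat_lit 1⟩, ⟨true, nat_lit 1, nat_lit 19, nat_lit 1, nat_lit 1⟩,
    ⟨false, nat_lit 32768, nat_lit 65516, nat_lit 4, nat_lit 2⟩, ⟨false, nat_lit 128, nat_lit 33004, nat_lit 2, nat_lit 1⟩, ⟨true, nat_lit 8, nat_lit 32924, nat_lit 2, nat_lit 0⟩,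
    ⟨false, nat_lit 2048, nat_lit 36708, nat_lit 2, nat_lit 3⟩, ⟨true, nat_lit 64, nat_lit 35044, nat_lit 2, nat_lit 1⟩, ⟨false, nat_lit 4096, nat_lit 38692, nat_lit 2, nat_lit 2⟩,
    ⟨false, nat_lit 32, nat_lit 39140, nat_lit 2, nat_lit 2⟩, ⟨true, nat_lit 4, nat_lit 39164, nat_lit 3, nat_lit 1⟩, ⟨true, nat_lit 1024, nat_lit 40704, nat_lit 2, nat_lit 1⟩,
    ⟨false, nat_lit 16384, nat_lit 58112, nat_lit 2, nat_lit 0⟩, ⟨false, nat_lit 512, nat_lit 57088, nat_lit 2, nat_lit 2⟩, ⟨true, nat_lit 256, nat_lit 57088, nat_lit 2, nat_lit 2⟩,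
    ⟨false, nat_lit 8192, nat_lit 57344, nat_lit 1, nat_lit 1⟩]

def r80_1_4 : List Wr := [
    ⟨false, nat_lit 16, nat_lit 31, nat_lit 2, nat_lit 0⟩, ⟨false, nat_lit 2, nat_lit 19, nat_lit 1, nat_lit 1⟩, ⟨true, nat_lit 1, nat_lit 19, nat_lit 1, nat_lit 1⟩,
    ⟨true, nat_lit 8, nat_lit 28, nat_lit 1, nat_lit 1⟩, ⟨false, nat_lit 256, nat_lit 484, nat_lit 1, nat_lit 3⟩, ⟨false, nat_lit 128, nat_lit 484, nat_lit 2, nat_lit 0⟩,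
    ⟨true, nat_lit 4, nat_lit 412, nat_lit 2, nat_lit 0⟩, ⟨false, nat_lit 32768, nat_lit 65120, nat_lit 3, nat_lit 1⟩, ⟨false, nat_lit 2048, nat_lit 36448, nat_lit 2, nat_lit 1⟩,
    ⟨true, nat_lit 64, nat_lit 35296, nat_lit 2, nat_lit 1⟩, ⟨false, nat_lit 4096, nat_lit 38432, nat_lit 1, nat_lit 3⟩, ⟨true, nat_lit 1024, nat_lit 40480, nat_lit 2, nat_lit 1⟩,
    ⟨false, nat_lit 16384, nat_lit 57888, nat_lit 2, nat_lit 0⟩, ⟨false, nat_lit 512, nat_lit 56864, nat_lit 2, nat_lit 2⟩, ⟨true, nat_lit 32, nat_lit 57312, nat_lit 3, nat_lit 2⟩,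
    ⟨false, nat_lit 8192, nat_lit 57344, nat_lit 1, nat_lit 1⟩]

def l80_1 : List (Nat × List Wr × Nat) := [
  (nat_lit 4, r80_1_0, nat_lit 0), (nat_lit 5, r80_1_1, nat_lit 1), (nat_lit 6, r80_1_2, nat_lit 0),
  (nat_lit 6, r80_1_3, nat_lit 0), (nat_lit 6, r80_1_4, nat_lit 0)]

def r80_2_0 : List Wr := [
    ⟨false, nat_lit 16, nat_lit 31, nat_lit 2, nat_lit 0⟩, ⟨false, nat_lit 2, nat_lit 19, nat_lit 1, nat_lit 1⟩, ⟨true, nat_lit 1, nat_lit 19, nat_lit 1, nat_lit 1⟩,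
    ⟨false, nat_lit 8, nat_lit 28, nat_lit 1, nat_lit 1⟩, ⟨true, nat_lit 4, nat_lit 28, nat_lit 1, nat_lit 1⟩, ⟨true, nat_lit 128, nat_lit 224, nat_lit 1, nat_lit 1⟩,
    ⟨false, nat_lit 2048, nat_lit 3936, nat_lit 2, nat_lit 1⟩, ⟨false, nat_lit 256, nat_lit 2400, nat_lit 1, nat_lit 2⟩, ⟨true, nat_lit 64, nat_lit 2528, nat_lit 2, nat_lit 0⟩,
    ⟨false, nat_lit 32768, nat_lit 63008, nat_lit 2, nat_lit 2⟩, ⟨false, nat_lit 1024, nat_lit 36384, nat_lit 2, nat_lit 0⟩, ⟨true, nat_lit 32, nat_lit 36320, nat_lit 2, nat_lit 2⟩,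
    ⟨false, nat_lit 16384, nat_lit 61952, nat_lit 2, nat_lit 0⟩, ⟨false, nat_lit 4096, nat_lit 53760, nat_lit 1, nat_lit 2⟩, ⟨true, nat_lit 512, nat_lit 56832, nat_lit 2, nat_lit 1⟩,
    ⟨false, nat_lit 8192, nat_lit 57344, nat_lit 1, nat_lit 1⟩]

def r80_2_1 : List Wr := [
    ⟨false, nat_lit 16, nat_lit 31, nat_lit 2, nat_lit 0⟩, ⟨false, nat_lit 2, nat_lit 19, nat_lit 1, nat_lit 1⟩, ⟨true, nat_lit 1, nat_lit 19, nat_lit 1, nat_lit 1⟩,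
    ⟨true, nat_lit 8, nat_lit 28, nat_lit 1, nat_lit 1⟩, ⟨false, nat_lit 2048, nat_lit 4068, nat_lit 2, nat_lit 3⟩, ⟨false, nat_lit 128, nat_lit 2276, nat_lit 2, nat_lit 0⟩,
    ⟨true, nat_lit 4, nat_lit 2204, nat_lit 2, nat_lit 0⟩, ⟨true, nat_lit 64, nat_lit 2272, nat_lit 1, nat_lit 2⟩, ⟨false, nat_lit 1024, nat_lit 3872, nat_lit 2, nat_lit 0⟩,
    ⟨false, nat_lit 256, nat_lit 3360, nat_lit 1, nat_lit 2⟩, ⟨true, nat_lit 32, nat_lit 3552, nat_lit 2, nat_lit 1⟩, ⟨false, nat_lit 32768, nat_lit 61952, nat_lit 2, nat_lit 0⟩,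
    ⟨false, nat_lit 4096, nat_lit 37376, nat_lit 1, nat_lit 1⟩, ⟨true, nat_lit 512, nat_lit 40448, nat_lit 2, nat_lit 0⟩, ⟨false, nat_lit 16384, nat_lit 57344, nat_lit 1, nat_lit 1⟩,
    ⟨false, nat_lit 8192, nat_lit 57344, nat_lit 1, nat_lit 1⟩]

def r80_2_2 : List Wr := [
    ⟨false, nat_lit 16, nat_lit 31, nat_lit 2, nat_lit 0⟩, ⟨false, nat_lit 2, nat_lit 19, nat_lit 1, nat_lit 1⟩, ⟨true, nat_lit 1, nat_lit 19, nat_lit 1, nat_lit 1⟩,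
    ⟨true, nat_lit 8, nat_lit 28, nat_lit 1, nat_lit 1⟩, ⟨false, nat_lit 4096, nat_lit 8164, nat_lit 2, nat_lit 4⟩, ⟨false, nat_lit 128, nat_lit 4324, nat_lit 2, nat_lit 0⟩,
    ⟨true, nat_lit 4, nat_lit 4252, nat_lit 2, nat_lit 0⟩, ⟨false, nat_lit 2048, nat_lit 8032, nat_lit 2, nat_lit 2⟩, ⟨false, nat_lit 1024, nat_lit 8032, nat_lit 2, nat_lit 2⟩,
    ⟨false, nat_lit 256, nat_lit 7520, nat_lit 2, nat_lit 1⟩, ⟨true, nat_lit 64, nat_lit 7648, nat_lit 2, nat_lit 2⟩, ⟨false, nat_lit 32768, nat_lit 57888, nat_lit 2, nat_lit 0⟩,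
    ⟨false, nat_lit 512, nat_lit 40480, nat_lit 2, nat_lit 1⟩, ⟨true, nat_lit 32, nat_lit 40928, nat_lit 3, nat_lit 1⟩, ⟨false, nat_lit 16384, nat_lit 57344, nat_lit 1, nat_lit 1⟩,
    ⟨false, nat_lit 8192, nat_lit 57344, nat_lit 1, nat_lit 1⟩]

def l80_2 : List (Nat × List Wr × Nat) := [
  (nat_lit 6, r80_2_0, nat_lit 0), (nat_lit 4, r80_2_1, nat_lit 0), (nat_lit 6, r80_2_2, nat_lit 0)]

end Pool.Agent.EC4.Run
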