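import Pool.Agent.Lib.MP_ec4eff_co.R5.Srch

/-! Generated file (project R5): results of the first lune -/

namespace Pool.Agent.EC4.Run

def r89_0_0 : List Wr := [
    ⟨false, nat_lit 32, nat_lit 63, nat_lit 2, nat_lit 1⟩, ⟨false, nat_lit 4, nat_lit 39, nat_lit 1, nat_lit 2⟩, ⟨true, nat_lit 2, nat_lit 39, nat_lit 1, nat_lit 2⟩,
    ⟨false, nat_lit 256, nat_lit 473, nat_lit 2, nat_lit 1⟩, ⟨false, nat_lit 16, nat_lit 313, nat_lit 2, nat_lit 0⟩, ⟨true, nat_lit 1, nat_lit 311, nat_lit 2, nat_lit 1⟩,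
    ⟨false, nat_lit 2048, nat_lit 3784, nat_lit 2, nat_lit 1⟩, ⟨false, nat_lit 128, nat_lit 2504, nat_lit 2, nat_lit 0⟩, ⟨true, nat_lit 8, nat_lit 2488, nat_lit 2, nat_lit 1⟩,
    ⟨false, nat_lit 32768, nat_lit 63040, nat_lit 2, nat_lit 2⟩, ⟨false, nat_lit 1024, nat_lit 36416, nat_lit 2, nat_lit 0⟩, ⟨true, nat_lit 64, nat_lit 36288, nat_lit 2, nat_lit 1⟩,
    ⟨false, nat_lit 16384, nat_lit 61952, nat_lit 2, nat_lit 0⟩, ⟨false, nat_lit 4096, nat_lit 53760, nat_lit 1, nat_lit 2⟩, ⟨true, nat_lit 512, nat_lit 56832, nat_lit 2, nat_lit 1⟩,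
    ⟨false, nat_lit 8192, nat_lit 57344, nat_lit 1, nat_lit 1⟩]

def r89_0_1 : List Wr := [
    ⟨false, nat_lit 32, nat_lit 63, nat_lit 2, nat_lit 1⟩, ⟨false, nat_lit 4, nat_lit 39, nat_lit 1, nat_lit 2⟩, ⟨true, nat_lit 1, nat_lit 37, nat_lit 1, nat_lit 1⟩,
    ⟨false, nat_lit 256, nat_lit 474, nat_lit 2, nat_lit 1⟩, ⟨false, nat_lit 16, nat_lit 314, nat_lit 2, nat_lit 0⟩, ⟨true, nat_lit 2, nat_lit 310, nat_lit 1, nat_lit 3⟩,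
    ⟨true, nat_lit 128, nat_lit 456, nat_lit 1, nat_lit 2⟩, ⟨false, nat_lit 2048, nat_lit 3656, nat_lit 2, nat_lit 0⟩, ⟨false, nat_lit 64, nat_lit 2504, nat_lit 2, nat_lit 0⟩,
    ⟨true, nat_lit 8, nat_lit 2552, nat_lit 2, nat_lit 2⟩, ⟨true, nat_lit 1024, nat_lit 3584, nat_lit 1, nat_lit 1⟩, ⟨false, nat_lit 32768, nat_lit 61952, nat_lit 2, nat_lit 0⟩,
    ⟨false, nat_lit 4096, nat_lit 37376, nat_lit 1, nat_lit 1⟩, ⟨true, nat_lit 512, nat_lit 40448, nat_lit 2, nat_lit 0⟩, ⟨false, nat_lit 16384, nat_lit 57344, nat_lit 1, nat_lit 1⟩,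
    ⟨false, nat_lit 8192, nat_lit 57344, nat_lit 1, nat_lit 1⟩]

def r89_0_2 : List Wr := [
    ⟨false, nat_lit 32, nat_lit 63, nat_lit 2, nat_lit 1⟩, ⟨false, nat_lit 4, nat_lit 39, nat_lit 1, nat_lit 2⟩, ⟨true, nat_lit 1, nat_lit 37, nat_lit 1, nat_lit 1⟩,
    ⟨false, nat_lit 256, nat_lit 474, nat_lit 2, nat_lit 1⟩, ⟨false, nat_lit 16, nat_lit 314, nat_lit 2, nat_lit 0⟩, ⟨true, nat_lit 2, nat_lit 310, nat_lit 1, nat_lit 3⟩,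
    ⟨false, nat_lit 2048, nat_lit 3784, nat_lit 2, nat_lit 1⟩, ⟨false, nat_lit 128, nat_lit 2504, nat_lit 2, nat_lit 0⟩, ⟨true, nat_lit 8, nat_lit 2488, nat_lit 2, nat_lit 1⟩,
    ⟨true, nat_lit 64, nat_lit 2496, nat_lit 1, nat_lit 2⟩, ⟨true, nat_lit 1024, nat_lit 3584, nat_lit 1, nat_lit 1⟩, ⟨false, nat_lit 32768, nat_lit 61952, nat_lit 2, nat_lit 0⟩,
    ⟨false, nat_lit 4096, nat_lit 37376, nat_lit 1, nat_lit 1⟩, ⟨true, nat_lit 512, nat_lit 40448, nat_lit 2, nat_lit 0⟩, ⟨false, nat_lit 16384, nat_lit 57344, nat_lit 1, nat_lit 1⟩,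
    ⟨false, nat_lit 8192, nat_lit 57344, nat_lit 1, nat_lit 1⟩]

def r89_0_3 : List Wr := [
    ⟨false, nat_lit 256, nat_lit 511, nat_lit 3, nat_lit 1⟩, ⟨false, nat_lit 32, nat_lit 319, nat_lit 2, nat_lit 2⟩, ⟨true, nat_lit 1, nat_lit 289, nat_lit 1, nat_lit 1⟩,
    ⟨true, nat_lit 16, nat_lit 318, nat_lit 2, nat_lit 1⟩, ⟨false, nat_lit 128, nat_lit 462, nat_lit 2, nat_lit 1⟩, ⟨false, nat_lit 8, nat_lit 446, nat_lit 2, nat_lit 2⟩,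
    ⟨true, nat_lit 4, nat_lit 446, nat_lit 2, nat_lit 2⟩, ⟨false, nat_lit 2048, nat_lit 3650, nat_lit 2, nat_lit 0⟩, ⟨false, nat_lit 64, nat_lit 2498, nat_lit 2, nat_lit 0⟩,
    ⟨true, nat_lit 2, nat_lit 2558, nat_lit 2, nat_lit 4⟩, ⟨true, nat_lit 1024, nat_lit 3584, nat_lit 1, nat_lit 1⟩, ⟨false, nat_lit 32768, nat_lit 61952, nat_lit 2, nat_lit 0⟩,
    ⟨false, nat_lit 4096, nat_lit 37376, nat_lit 1, nat_lit 1⟩, ⟨true, nat_lit 512, nat_lit 40448, nat_lit 2, nat_lit 0⟩, ⟨false, nat_lit 16384, nat_lit 57344, nat_lit 1, nat_lit 1⟩,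
    ⟨false, nat_lit 8192, nat_lit 57344, nat_lit 1, nat_lit 1⟩]

def r89_0_4 : List Wr := [
    ⟨false, nat_lit 32, nat_lit 63, nat_lit 2, nat_lit 1⟩, ⟨false, nat_lit 2, nat_lit 35, nat_lit 1, nat_lit 1⟩, ⟨true, nat_lit 1, nat_lit 35, nat_lit 1, nat_lit 1⟩,
    ⟨false, nat_lit 2048, nat_lit 4060, nat_lit 3, nat_lit 1⟩, ⟨false, nat_lit 256, nat_lit 2524, nat_lit 2, nat_lit 2⟩, ⟨true, nat_lit 16, nat_lit 2364, nat_lit 2, nat_lit 1⟩,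
    ⟨false, nat_lit 128, nat_lit 2508, nat_lit 2, nat_lit 1⟩, ⟨true, nat_lit 8, nat_lit 2492, nat_lit 2, nat_lit 2⟩, ⟨false, nat_lit 1024, nat_lit 3652, nat_lit 2, nat_lit 0⟩,
    ⟨false, nat_lit 64, nat_lit 3524, nat_lit 2, nat_lit 1⟩, ⟨true, nat_lit 4, nat_lit 3580, nat_lit 2, nat_lit 4⟩, ⟨false, nat_lit 32768, nat_lit 61952, nat_lit 2, nat_lit 0⟩,
    ⟨false, nat_lit 4096, nat_lit 37376, nat_lit 1, nat_lit 1⟩, ⟨true, nat_lit 512, nat_lit 40448, nat_lit 2, nat_lit 0⟩, ⟨false, nat_lit 16384, nat_lit 57344, nat_lit 1, nat_lit 1⟩,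
    ⟨false, nat_lit 8192, nat_lit 57344, nat_lit 1, nat_lit 1⟩]

def r89_0_5 : List Wr := [
    ⟨false, nat_lit 32, nat_lit 63, nat_lit 2, nat_lit 1⟩, ⟨false, nat_lit 2, nat_lit 35, nat_lit 1, nat_lit 1⟩, ⟨true, nat_lit 1, nat_lit 35, nat_lit 1, nat_lit 1⟩,
    ⟨true, nat_lit 16, nat_lit 60, nat_lit 1, nat_lit 2⟩, ⟨false, nat_lit 256, nat_lit 460, nat_lit 2, nat_lit 0⟩, ⟨false, nat_lit 8, nat_lit 316, nat_lit 2, nat_lit 0⟩,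
    ⟨true, nat_lit 4, nat_lit 316, nat_lit 1, nat_lit 3⟩, ⟨false, nat_lit 32768, nat_lit 65216, nat_lit 3, nat_lit 1⟩, ⟨false, nat_lit 2048, nat_lit 36544, nat_lit 2, nat_lit 1⟩,
    ⟨true, nat_lit 128, nat_lit 35264, nat_lit 2, nat_lit 0⟩, ⟨false, nat_lit 4096, nat_lit 38464, nat_lit 1, nat_lit 3⟩, ⟨true, nat_lit 1024, nat_lit 40512, nat_lit 2, nat_lit 1⟩,
    ⟨false, nat_lit 16384, nat_lit 57920, nat_lit 2, nat_lit 0⟩, ⟨false, nat_lit 512, nat_lit 56896, nat_lit 2, nat_lit 2⟩, ⟨true, nat_lit 64, nat_lit 57280, nat_lit 3, nat_lit 1⟩,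
    ⟨false, nat_lit 8192, nat_lit 57344, nat_lit 1, nat_lit 1⟩]

def r89_0_6 : List Wr := [
    ⟨false, nat_lit 32, nat_lit 63, nat_lit 2, nat_lit 1⟩, ⟨false, nat_lit 2, nat_lit 35, nat_lit 1, nat_lit 1⟩, ⟨true, nat_lit 1, nat_lit 35, nat_lit 1, nat_lit 1⟩,
    ⟨false, nat_lit 256, nat_lit 476, nat_lit 2, nat_lit 1⟩, ⟨false, nat_lit 16, nat_lit 316, nat_lit 2, nat_lit 0⟩, ⟨true, nat_lit 4, nat_lit 308, nat_lit 1, nat_lit 2⟩,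
    ⟨true, nat_lit 128, nat_lit 456, nat_lit 1, nat_lit 2⟩, ⟨false, nat_lit 2048, nat_lit 3656, nat_lit 2, nat_lit 0⟩, ⟨false, nat_lit 64, nat_lit 2504, nat_lit 2, nat_lit 0⟩,
    ⟨true, nat_lit 8, nat_lit 2552, nat_lit 2, nat_lit 2⟩, ⟨true, nat_lit 1024, nat_lit 3584, nat_lit 1, nat_lit 1⟩, ⟨false, nat_lit 32768, nat_lit 61952, nat_lit 2, nat_lit 0⟩,
    ⟨false, nat_lit 4096, nat_lit 37376, nat_lit 1, nat_lit 1⟩, ⟨true, nat_lit 512, nat_lit 40448, nat_lit 2, nat_lit 0⟩, ⟨false, nat_lit 16384, nat_lit 57344, nat_lit 1, nat_lit 1⟩,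
    ⟨false, nat_lit 8192, nat_lit 57344, nat_lit 1, nat_lit 1⟩]

def l89_0 : List (Nat × List Wr × Nat) := [
  (nat_lit 4, r89_0_0, nat_lit 0), (nat_lit 6, r89_0_1, nat_lit 0), (nat_lit 6, r89_0_2, nat_lit 0),
  (nat_lit 6, r89_0_3, nat_lit 0), (nat_lit 6, r89_0_4, nat_lit 0), (nat_lit 6, r89_0_5, nat_lit 0),
  (nat_lit 4, r89_0_6, nat_lit 0)]

def r89_1_0 : List Wr := [
    ⟨false, nat_lit 32, nat_lit 63, nat_lit 2, nat_lit 1⟩, ⟨false, nat_lit 2, nat_lit 35, nat_lit 1, nat_lit 1⟩, ⟨true, nat_lit 1, nat_lit 35, nat_lit 1, nat_lit 1⟩,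
    ⟨false, nat_lit 256, nat_lit 476, nat_lit 2, nat_lit 1⟩, ⟨false, nat_lit 16, nat_lit 316, nat_lit 2, nat_lit 0⟩, ⟨true, nat_lit 4, nat_lit 308, nat_lit 1, nat_lit 2⟩,
    ⟨false, nat_lit 2048, nat_lit 3784, nat_lit 2, nat_lit 1⟩, ⟨false, nat_lit 128, nat_lit 2504, nat_lit 2, nat_lit 0⟩, ⟨true, nat_lit 8, nat_lit 2488, nat_lit 2, nat_lit 1⟩,
    ⟨true, nat_lit 64, nat_lit 2496, nat_lit 1, nat_lit 2⟩, ⟨true, nat_lit 1024, nat_lit 3584, nat_lit 1, nat_lit 1⟩, ⟨false, nat_lit 32768, nat_lit 61952, nat_lit 2, nat_lit 0⟩,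
    ⟨false, nat_lit 4096, nat_lit 37376, nat_lit 1, nat_lit 1⟩, ⟨true, nat_lit 512, nat_lit 40448, nat_lit 2, nat_lit 0⟩, ⟨false, nat_lit 16384, nat_lit 57344, nat_lit 1, nat_lit 1⟩,
    ⟨false, nat_lit 8192, nat_lit 57344, nat_lit 1, nat_lit 1⟩]

def r89_1_1 : List Wr := [
    ⟨false, nat_lit 32, nat_lit 63, nat_lit 2, nat_lit 1⟩, ⟨false, nat_lit 2, nat_lit 35, nat_lit 1, nat_lit 1⟩, ⟨true, nat_lit 1, nat_lit 35, nat_lit 1, nat_lit 1⟩,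
    ⟨false, nat_lit 256, nat_lit 476, nat_lit 2, nat_lit 1⟩, ⟨false, nat_lit 16, nat_lit 316, nat_lit 2, nat_lit 0⟩, ⟨true, nat_lit 4, nat_lit 308, nat_lit 1, nat_lit 2⟩,
    ⟨false, nat_lit 2048, nat_lit 3784, nat_lit 2, nat_lit 1⟩, ⟨false, nat_lit 128, nat_lit 2504, nat_lit 2, nat_lit 0⟩, ⟨true, nat_lit 8, nat_lit 2488, nat_lit 2, nat_lit 1⟩,
    ⟨false, nat_lit 1024, nat_lit 3648, nat_lit 1, nat_lit 2⟩, ⟨true, nat_lit 64, nat_lit 3520, nat_lit 1, nat_lit 3⟩, ⟨false, nat_lit 32768, nat_lit 61952, nat_lit 2, nat_lit 0⟩,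
    ⟨false, nat_lit 4096, nat_lit 37376, nat_lit 1, nat_lit 1⟩, ⟨true, nat_lit 512, nat_lit 40448, nat_lit 2, nat_lit 0⟩, ⟨false, nat_lit 16384, nat_lit 57344, nat_lit 1, nat_lit 1⟩,
    ⟨false, nat_lit 8192, nat_lit 57344, nat_lit 1, nat_lit 1⟩]

def r89_1_2 : List Wr := [
    ⟨false, nat_lit 32, nat_lit 63, nat_lit 2, nat_lit 1⟩, ⟨false, nat_lit 2, nat_lit 35, nat_lit 1, nat_lit 1⟩, ⟨true, nat_lit 1, nat_lit 35, nat_lit 1, nat_lit 1⟩,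
    ⟨false, nat_lit 256, nat_lit 476, nat_lit 2, nat_lit 1⟩, ⟨false, nat_lit 16, nat_lit 316, nat_lit 2, nat_lit 0⟩, ⟨true, nat_lit 4, nat_lit 308, nat_lit 1, nat_lit 2⟩,
    ⟨false, nat_lit 2048, nat_lit 3784, nat_lit 2, nat_lit 1⟩, ⟨false, nat_lit 128, nat_lit 2504, nat_lit 2, nat_lit 0⟩, ⟨true, nat_lit 8, nat_lit 2488, nat_lit 2, nat_lit 1⟩,
    ⟨false, nat_lit 1024, nat_lit 3648, nat_lit 1, nat_lit 2⟩, ⟨true, nat_lit 64, nat_lit 3520, nat_lit 1, nat_lit 3⟩, ⟨false, nat_lit 32768, nat_lit 61952, nat_lit 2, nat_lit 0⟩,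
    ⟨false, nat_lit 4096, nat_lit 37376, nat_lit 1, nat_lit 1⟩, ⟨true, nat_lit 512, nat_lit 40448, nat_lit 2, nat_lit 0⟩, ⟨false, nat_lit 16384, nat_lit 57344, nat_lit 1, nat_lit 1⟩,
    ⟨false, nat_lit 8192, nat_lit 57344, nat_lit 1, nat_lit 1⟩]

def r89_1_3 : List Wr := [
    ⟨false, nat_lit 32, nat_lit 63, nat_lit 2, nat_lit 1⟩, ⟨false, nat_lit 2, nat_lit 35, nat_lit 1, nat_lit 1⟩, ⟨true, nat_lit 1, nat_lit 35, nat_lit 1, nat_lit 1⟩,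
    ⟨false, nat_lit 256, nat_lit 476, nat_lit 2, nat_lit 1⟩, ⟨false, nat_lit 16, nat_lit 316, nat_lit 2, nat_lit 0⟩, ⟨true, nat_lit 4, nat_lit 308, nat_lit 1, nat_lit 2⟩,
    ⟨false, nat_lit 2048, nat_lit 3784, nat_lit 2, nat_lit 1⟩, ⟨false, nat_lit 128, nat_lit 2504, nat_lit 2, nat_lit 0⟩, ⟨true, nat_lit 8, nat_lit 2488, nat_lit 2, nat_lit 1⟩,
    ⟨true, nat_lit 1024, nat_lit 3648, nat_lit 1, nat_lit 2⟩, ⟨false, nat_lit 4096, nat_lit 4672, nat_lit 1, nat_lit 1⟩, ⟨false, nat_lit 512, nat_lit 7744, nat_lit 2, nat_lit 0⟩,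
    ⟨true, nat_lit 64, nat_lit 8128, nat_lit 2, nat_lit 2⟩, ⟨false, nat_lit 32768, nat_lit 57344, nat_lit 1, nat_lit 1⟩, ⟨false, nat_lit 16384, nat_lit 57344, nat_lit 1, nat_lit 1⟩,
    ⟨false, nat_lit 8192, nat_lit 57344, nat_lit 1, nat_lit 1⟩]

def l89_1 : List (Nat × List Wr × Nat) := [
  (nat_lit 4, r89_1_0, nat_lit 0), (nat_lit 5, r89_1_1, nat_lit 1), (nat_lit 6, r89_1_2, nat_lit 0),
  (nat_lit 6, r89_1_3, nat_lit 0)]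

def r89_2_0 : List Wr := [
    ⟨false, nat_lit 32, nat_lit 63, nat_lit 2, nat_lit 1⟩, ⟨false, nat_lit 2, nat_lit 35, nat_lit 1, nat_lit 1⟩, ⟨true, nat_lit 1, nat_lit 35, nat_lit 1, nat_lit 1⟩,
    ⟨false, nat_lit 256, nat_lit 476, nat_lit 2, nat_lit 1⟩, ⟨false, nat_lit 16, nat_lit 316, nat_lit 2, nat_lit 0⟩, ⟨true, nat_lit 4, nat_lit 308, nat_lit 1, nat_lit 2⟩,
    ⟨false, nat_lit 2048, nat_lit 3784, nat_lit 2, nat_lit 1⟩, ⟨false, nat_lit 128, nat_lit 2504, nat_lit 2, nat_lit 0⟩, ⟨true, nat_lit 8, nat_lit 2488, nat_lit 2, nat_lit 1⟩,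
    ⟨false, nat_lit 4096, nat_lit 5696, nat_lit 1, nat_lit 2⟩, ⟨false, nat_lit 1024, nat_lit 7744, nat_lit 2, nat_lit 0⟩, ⟨true, nat_lit 64, nat_lit 7616, nat_lit 2, nat_lit 1⟩,
    ⟨true, nat_lit 512, nat_lit 7680, nat_lit 1, nat_lit 2⟩, ⟨false, nat_lit 32768, nat_lit 57344, nat_lit 1, nat_lit 1⟩, ⟨false, nat_lit 16384, nat_lit 57344, nat_lit 1, nat_lit 1⟩,
    ⟨false, nat_lit 8192, nat_lit 57344, nat_lit 1, nat_lit 1⟩]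

def r89_2_1 : List Wr := [
    ⟨false, nat_lit 32, nat_lit 63, nat_lit 2, nat_lit 1⟩, ⟨false, nat_lit 2, nat_lit 35, nat_lit 1, nat_lit 1⟩, ⟨true, nat_lit 1, nat_lit 35, nat_lit 1, nat_lit 1⟩,
    ⟨false, nat_lit 256, nat_lit 476, nat_lit 2, nat_lit 1⟩, ⟨false, nat_lit 16, nat_lit 316, nat_lit 2, nat_lit 0⟩, ⟨true, nat_lit 4, nat_lit 308, nat_lit 1, nat_lit 2⟩,
    ⟨true, nat_lit 8, nat_lit 312, nat_lit 1, nat_lit 2⟩, ⟨false, nat_lit 32768, nat_lit 65216, nat_lit 3, nat_lit 1⟩, ⟨false, nat_lit 2048, nat_lit 36544, nat_lit 2, nat_lit 1⟩,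
    ⟨true, nat_lit 128, nat_lit 35264, nat_lit 2, nat_lit 0⟩, ⟨false, nat_lit 4096, nat_lit 38464, nat_lit 1, nat_lit 3⟩, ⟨true, nat_lit 1024, nat_lit 40512, nat_lit 2, nat_lit 1⟩,
    ⟨false, nat_lit 16384, nat_lit 57920, nat_lit 2, nat_lit 0⟩, ⟨false, nat_lit 512, nat_lit 56896, nat_lit 2, nat_lit 2⟩, ⟨true, nat_lit 64, nat_lit 57280, nat_lit 3, nat_lit 1⟩,
    ⟨false, nat_lit 8192, nat_lit 57344, nat_lit 1, nat_lit 1⟩]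

def r89_2_2 : List Wr := [
    ⟨false, nat_lit 32, nat_lit 63, nat_lit 2, nat_lit 1⟩, ⟨false, nat_lit 2, nat_lit 35, nat_lit 1, nat_lit 1⟩, ⟨true, nat_lit 1, nat_lit 35, nat_lit 1, nat_lit 1⟩,
    ⟨false, nat_lit 256, nat_lit 476, nat_lit 2, nat_lit 1⟩, ⟨false, nat_lit 16, nat_lit 316, nat_lit 2, nat_lit 0⟩, ⟨true, nat_lit 4, nat_lit 308, nat_lit 1, nat_lit 2⟩,
    ⟨false, nat_lit 2048, nat_lit 3784, nat_lit 2, nat_lit 1⟩, ⟨false, nat_lit 128, nat_lit 2504, nat_lit 2, nat_lit 0⟩, ⟨true, nat_lit 8, nat_lit 2488, nat_lit 2, nat_lit 1⟩,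
    ⟨false, nat_lit 32768, nat_lit 63040, nat_lit 2, nat_lit 2⟩, ⟨false, nat_lit 4096, nat_lit 38464, nat_lit 1, nat_lit 3⟩, ⟨true, nat_lit 1024, nat_lit 40512, nat_lit 2, nat_lit 1⟩,
    ⟨false, nat_lit 16384, nat_lit 57920, nat_lit 2, nat_lit 0⟩, ⟨false, nat_lit 512, nat_lit 56896, nat_lit 2, nat_lit 2⟩, ⟨true, nat_lit 64, nat_lit 57280, nat_lit 3, nat_lit 1⟩,
    ⟨false, nat_lit 8192, nat_lit 57344, nat_lit 1, nat_lit 1⟩]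

def r89_2_3 : List Wr := [
    ⟨false, nat_lit 32, nat_lit 63, nat_lit 2, nat_lit 1⟩, ⟨false, nat_lit 2, nat_lit 35, nat_lit 1, nat_lit 1⟩, ⟨true, nat_lit 1, nat_lit 35, nat_lit 1, nat_lit 1⟩,
    ⟨false, nat_lit 32768, nat_lit 65500, nat_lit 4, nat_lit 2⟩, ⟨false, nat_lit 16, nat_lit 32828, nat_lit 2, nat_lit 0⟩, ⟨true, nat_lit 4, nat_lit 32820, nat_lit 1, nat_lit 2⟩,
    ⟨false, nat_lit 2048, nat_lit 36808, nat_lit 2, nat_lit 3⟩, ⟨true, nat_lit 256, nat_lit 35272, nat_lit 2, nat_lit 1⟩, ⟨false, nat_lit 4096, nat_lit 38600, nat_lit 2, nat_lit 2⟩,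
    ⟨false, nat_lit 128, nat_lit 39368, nat_lit 2, nat_lit 2⟩, ⟨true, nat_lit 8, nat_lit 39352, nat_lit 3, nat_lit 0⟩, ⟨true, nat_lit 1024, nat_lit 40512, nat_lit 2, nat_lit 1⟩,
    ⟨false, nat_lit 16384, nat_lit 57920, nat_lit 2, nat_lit 0⟩, ⟨false, nat_lit 512, nat_lit 56896, nat_lit 2, nat_lit 2⟩, ⟨true, nat_lit 64, nat_lit 57280, nat_lit 3, nat_lit 1⟩,
    ⟨false, nat_lit 8192, nat_lit 57344, nat_lit 1, nat_lit 1⟩]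

def r89_2_4 : List Wr := [
    ⟨true, nat_lit 1, nat_lit 1, nat_lit 0, nat_lit 2⟩, ⟨false, nat_lit 32, nat_lit 62, nat_lit 2, nat_lit 0⟩, ⟨false, nat_lit 4, nat_lit 38, nat_lit 1, nat_lit 1⟩,
    ⟨true, nat_lit 2, nat_lit 38, nat_lit 1, nat_lit 1⟩, ⟨true, nat_lit 16, nat_lit 56, nat_lit 1, nat_lit 1⟩, ⟨true, nat_lit 256, nat_lit 456, nat_lit 1, nat_lit 2⟩,
    ⟨false, nat_lit 2048, nat_lit 3784, nat_lit 2, nat_lit 1⟩, ⟨false, nat_lit 128, nat_lit 2504, nat_lit 2, nat_lit 0⟩, ⟨true, nat_lit 8, nat_lit 2488, nat_lit 2, nat_lit 1⟩,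
    ⟨false, nat_lit 32768, nat_lit 63040, nat_lit 2, nat_lit 2⟩, ⟨false, nat_lit 1024, nat_lit 36416, nat_lit 2, nat_lit 0⟩, ⟨true, nat_lit 64, nat_lit 36288, nat_lit 2, nat_lit 1⟩,
    ⟨false, nat_lit 16384, nat_lit 61952, nat_lit 2, nat_lit 0⟩, ⟨false, nat_lit 4096, nat_lit 53760, nat_lit 1, nat_lit 2⟩, ⟨true, nat_lit 512, nat_lit 56832, nat_lit 2, nat_lit 1⟩,
    ⟨false, nat_lit 8192, nat_lit 57344, nat_lit 1, nat_lit 1⟩]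

def r89_2_5 : List Wr := [
    ⟨false, nat_lit 4, nat_lit 7, nat_lit 1, nat_lit 1⟩, ⟨false, nat_lit 2, nat_lit 7, nat_lit 1, nat_lit 1⟩, ⟨true, nat_lit 1, nat_lit 7, nat_lit 1, nat_lit 1⟩,
    ⟨false, nat_lit 32, nat_lit 56, nat_lit 1, nat_lit 1⟩, ⟨true, nat_lit 16, nat_lit 56, nat_lit 1, nat_lit 1⟩, ⟨true, nat_lit 256, nat_lit 456, nat_lit 1, nat_lit 2⟩,
    ⟨false, nat_lit 2048, nat_lit 3784, nat_lit 2, nat_lit 1⟩, ⟨false, nat_lit 128, nat_lit 2504, nat_lit 2, nat_lit 0⟩, ⟨true, nat_lit 8, nat_lit 2488, nat_lit 2, nat_lit 1⟩,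
    ⟨false, nat_lit 32768, nat_lit 63040, nat_lit 2, nat_lit 2⟩, ⟨false, nat_lit 1024, nat_lit 36416, nat_lit 2, nat_lit 0⟩, ⟨true, nat_lit 64, nat_lit 36288, nat_lit 2, nat_lit 1⟩,
    ⟨false, nat_lit 16384, nat_lit 61952, nat_lit 2, nat_lit 0⟩, ⟨false, nat_lit 4096, nat_lit 53760, nat_lit 1, nat_lit 2⟩, ⟨true, nat_lit 512, nat_lit 56832, nat_lit 2, nat_lit 1⟩,
    ⟨false, nat_lit 8192, nat_lit 57344, nat_lit 1, nat_lit 1⟩]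

def r89_2_6 : List Wr := [
    ⟨true, nat_lit 1, nat_lit 1, nat_lit 0, nat_lit 2⟩, ⟨false, nat_lit 32, nat_lit 62, nat_lit 2, nat_lit 0⟩, ⟨false, nat_lit 4, nat_lit 38, nat_lit 1, nat_lit 1⟩,
    ⟨true, nat_lit 2, nat_lit 38, nat_lit 1, nat_lit 1⟩, ⟨true, nat_lit 16, nat_lit 56, nat_lit 1, nat_lit 1⟩, ⟨false, nat_lit 2048, nat_lit 4040, nat_lit 2, nat_lit 2⟩,
    ⟨false, nat_lit 256, nat_lit 2504, nat_lit 2, nat_lit 0⟩, ⟨true, nat_lit 8, nat_lit 2360, nat_lit 2, nat_lit 0⟩, ⟨true, nat_lit 128, nat_lit 2496, nat_lit 1, nat_lit 2⟩,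
    ⟨false, nat_lit 32768, nat_lit 63040, nat_lit 2, nat_lit 2⟩, ⟨false, nat_lit 1024, nat_lit 36416, nat_lit 2, nat_lit 0⟩, ⟨true, nat_lit 64, nat_lit 36288, nat_lit 2, nat_lit 1⟩,
    ⟨false, nat_lit 16384, nat_lit 61952, nat_lit 2, nat_lit 0⟩, ⟨false, nat_lit 4096, nat_lit 53760, nat_lit 1, nat_lit 2⟩, ⟨true, nat_lit 512, nat_lit 56832, nat_lit 2, nat_lit 1⟩,
    ⟨false, nat_lit 8192, nat_lit 57344, nat_lit 1, nat_lit 1⟩]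

def r89_2_7 : List Wr := [
    ⟨false, nat_lit 4, nat_lit 7, nat_lit 1, nat_lit 1⟩, ⟨false, nat_lit 2, nat_lit 7, nat_lit 1, nat_lit 1⟩, ⟨true, nat_lit 1, nat_lit 7, nat_lit 1, nat_lit 1⟩,
    ⟨false, nat_lit 32, nat_lit 56, nat_lit 1, nat_lit 1⟩, ⟨true, nat_lit 16, nat_lit 56, nat_lit 1, nat_lit 1⟩, ⟨false, nat_lit 2048, nat_lit 4040, nat_lit 2, nat_lit 2⟩,
    ⟨false, nat_lit 256, nat_lit 2504, nat_lit 2, nat_lit 0⟩, ⟨true, nat_lit 8, nat_lit 2360, nat_lit 2, nat_lit 0⟩, ⟨true, nat_lit 128, nat_lit 2496, nat_lit 1, nat_lit 2⟩,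
    ⟨false, nat_lit 32768, nat_lit 63040, nat_lit 2, nat_lit 2⟩, ⟨false, nat_lit 1024, nat_lit 36416, nat_lit 2, nat_lit 0⟩, ⟨true, nat_lit 64, nat_lit 36288, nat_lit 2, nat_lit 1⟩,
    ⟨false, nat_lit 16384, nat_lit 61952, nat_lit 2, nat_lit 0⟩, ⟨false, nat_lit 4096, nat_lit 53760, nat_lit 1, nat_lit 2⟩, ⟨true, nat_lit 512, nat_lit 56832, nat_lit 2, nat_lit 1⟩,
    ⟨false, nat_lit 8192, nat_lit 57344, nat_lit 1, nat_lit 1⟩]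

def r89_2_8 : List Wr := [
    ⟨true, nat_lit 1, nat_lit 1, nat_lit 0, nat_lit 2⟩, ⟨false, nat_lit 32, nat_lit 62, nat_lit 2, nat_lit 0⟩, ⟨false, nat_lit 4, nat_lit 38, nat_lit 1, nat_lit 1⟩,
    ⟨true, nat_lit 2, nat_lit 38, nat_lit 1, nat_lit 1⟩, ⟨true, nat_lit 16, nat_lit 56, nat_lit 1, nat_lit 1⟩, ⟨false, nat_lit 32768, nat_lit 65480, nat_lit 3, nat_lit 3⟩,
    ⟨false, nat_lit 256, nat_lit 33224, nat_lit 2, nat_lit 0⟩, ⟨true, nat_lit 8, nat_lit 33080, nat_lit 2, nat_lit 0⟩, ⟨false, nat_lit 4096, nat_lit 40640, nat_lit 2, nat_lit 2⟩,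
    ⟨false, nat_lit 2048, nat_lit 40640, nat_lit 2, nat_lit 2⟩, ⟨true, nat_lit 128, nat_lit 39360, nat_lit 2, nat_lit 1⟩, ⟨true, nat_lit 1024, nat_lit 40512, nat_lit 2, nat_lit 1⟩,
    ⟨false, nat_lit 16384, nat_lit 57920, nat_lit 2, nat_lit 0⟩, ⟨false, nat_lit 512, nat_lit 56896, nat_lit 2, nat_lit 2⟩, ⟨true, nat_lit 64, nat_lit 57280, nat_lit 3, nat_lit 1⟩,
    ⟨false, nat_lit 8192, nat_lit 57344, nat_lit 1, nat_lit 1⟩]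

def r89_2_9 : List Wr := [
    ⟨false, nat_lit 4, nat_lit 7, nat_lit 1, nat_lit 1⟩, ⟨false, nat_lit 2, nat_lit 7, nat_lit 1, nat_lit 1⟩, ⟨true, nat_lit 1, nat_lit 7, nat_lit 1, nat_lit 1⟩,
    ⟨false, nat_lit 32, nat_lit 56, nat_lit 1, nat_lit 1⟩, ⟨true, nat_lit 16, nat_lit 56, nat_lit 1, nat_lit 1⟩, ⟨false, nat_lit 32768, nat_lit 65480, nat_lit 3, nat_lit 3⟩,
    ⟨false, nat_lit 256, nat_lit 33224, nat_lit 2, nat_lit 0⟩, ⟨true, nat_lit 8, nat_lit 33080, nat_lit 2, nat_lit 0⟩, ⟨false, nat_lit 4096, nat_lit 40640, nat_lit 2, nat_lit 2⟩,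
    ⟨false, nat_lit 2048, nat_lit 40640, nat_lit 2, nat_lit 2⟩, ⟨true, nat_lit 128, nat_lit 39360, nat_lit 2, nat_lit 1⟩, ⟨true, nat_lit 1024, nat_lit 40512, nat_lit 2, nat_lit 1⟩,
    ⟨false, nat_lit 16384, nat_lit 57920, nat_lit 2, nat_lit 0⟩, ⟨false, nat_lit 512, nat_lit 56896, nat_lit 2, nat_lit 2⟩, ⟨true, nat_lit 64, nat_lit 57280, nat_lit 3, nat_lit 1⟩,
    ⟨false, nat_lit 8192, nat_lit 57344, nat_lit 1, nat_lit 1⟩]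

def l89_2 : List (Nat × List Wr × Nat) := [
  (nat_lit 6, r89_2_0, nat_lit 0), (nat_lit 6, r89_2_1, nat_lit 0), (nat_lit 6, r89_2_2, nat_lit 0),
  (nat_lit 6, r89_2_3, nat_lit 0), (nat_lit 6, r89_2_4, nat_lit 0), (nat_lit 6, r89_2_5, nat_lit 0),
  (nat_lit 6, r89_2_6, nat_lit 0), (nat_lit 6, r89_2_7, nat_lit 0), (nat_lit 6, r89_2_8, nat_lit 0),
  (nat_lit 6, r89_2_9, nat_lit 0)]

end Pool.Agent.EC4.Run
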