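import Pool.Agent.Lib.MP_ec4eff_co.R5.Srch

/-! Generated file (project R5): results of the first lune -/

namespace Pool.Agent.EC4.Run

def r57_0_0 : List Wr := [
    ⟨false, nat_lit 16384, nat_lit 32767, nat_lit 5, nat_lit 1⟩, ⟨false, nat_lit 8, nat_lit 16399, nat_lit 2, nat_lit 0⟩, ⟨true, nat_lit 1, nat_lit 16393, nat_lit 1, nat_lit 1⟩,
    ⟨false, nat_lit 128, nat_lit 16630, nat_lit 2, nat_lit 2⟩, ⟨true, nat_lit 16, nat_lit 16534, nat_lit 1, nat_lit 3⟩, ⟨false, nat_lit 2048, nat_lit 20326, nat_lit 2, nat_lit 4⟩,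
    ⟨false, nat_lit 1024, nat_lit 20326, nat_lit 3, nat_lit 1⟩, ⟨true, nat_lit 4, nat_lit 19614, nat_lit 3, nat_lit 0⟩, ⟨false, nat_lit 8192, nat_lit 29538, nat_lit 3, nat_lit 0⟩,
    ⟨false, nat_lit 512, nat_lit 28514, nat_lit 3, nat_lit 1⟩, ⟨true, nat_lit 64, nat_lit 28386, nat_lit 3, nat_lit 1⟩, ⟨false, nat_lit 256, nat_lit 28450, nat_lit 2, nat_lit 3⟩,
    ⟨true, nat_lit 32, nat_lit 28642, nat_lit 3, nat_lit 2⟩, ⟨false, nat_lit 32768, nat_lit 36866, nat_lit 1, nat_lit 1⟩, ⟨false, nat_lit 4096, nat_lit 61442, nat_lit 2, nat_lit 0⟩,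
    ⟨false, nat_lit 2, nat_lit 65534, nat_lit 4, nat_lit 4⟩]

def r57_0_1 : List Wr := [
    ⟨false, nat_lit 16384, nat_lit 32767, nat_lit 5, nat_lit 1⟩, ⟨false, nat_lit 8, nat_lit 16399, nat_lit 2, nat_lit 0⟩, ⟨true, nat_lit 1, nat_lit 16393, nat_lit 1, nat_lit 1⟩,
    ⟨false, nat_lit 1024, nat_lit 18422, nat_lit 3, nat_lit 2⟩, ⟨true, nat_lit 128, nat_lit 17654, nat_lit 2, nat_lit 3⟩, ⟨false, nat_lit 512, nat_lit 18294, nat_lit 3, nat_lit 1⟩,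
    ⟨false, nat_lit 64, nat_lit 18166, nat_lit 3, nat_lit 1⟩, ⟨true, nat_lit 4, nat_lit 18126, nat_lit 3, nat_lit 0⟩, ⟨true, nat_lit 32, nat_lit 18162, nat_lit 2, nat_lit 3⟩,
    ⟨true, nat_lit 2048, nat_lit 18706, nat_lit 1, nat_lit 3⟩, ⟨false, nat_lit 8192, nat_lit 28946, nat_lit 2, nat_lit 1⟩, ⟨false, nat_lit 256, nat_lit 28434, nat_lit 3, nat_lit 0⟩,
    ⟨true, nat_lit 16, nat_lit 28658, nat_lit 3, nat_lit 3⟩, ⟨false, nat_lit 32768, nat_lit 36866, nat_lit 1, nat_lit 1⟩, ⟨false, nat_lit 4096, nat_lit 61442, nat_lit 2, nat_lit 0⟩,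
    ⟨false, nat_lit 2, nat_lit 65534, nat_lit 4, nat_lit 4⟩]

def r57_0_2 : List Wr := [
    ⟨false, nat_lit 16384, nat_lit 32767, nat_lit 5, nat_lit 1⟩, ⟨false, nat_lit 8, nat_lit 16399, nat_lit 2, nat_lit 0⟩, ⟨true, nat_lit 1, nat_lit 16393, nat_lit 1, nat_lit 1⟩,
    ⟨false, nat_lit 1024, nat_lit 18422, nat_lit 3, nat_lit 2⟩, ⟨true, nat_lit 128, nat_lit 17654, nat_lit 2, nat_lit 3⟩, ⟨false, nat_lit 512, nat_lit 18294, nat_lit 3, nat_lit 1⟩,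
    ⟨false, nat_lit 64, nat_lit 18166, nat_lit 3, nat_lit 1⟩, ⟨true, nat_lit 4, nat_lit 18126, nat_lit 3, nat_lit 0⟩, ⟨true, nat_lit 32, nat_lit 18162, nat_lit 2, nat_lit 3⟩,
    ⟨false, nat_lit 8192, nat_lit 30994, nat_lit 2, nat_lit 2⟩, ⟨false, nat_lit 2048, nat_lit 26898, nat_lit 2, nat_lit 1⟩, ⟨true, nat_lit 16, nat_lit 28402, nat_lit 3, nat_lit 2⟩,
    ⟨true, nat_lit 256, nat_lit 28418, nat_lit 2, nat_lit 2⟩, ⟨false, nat_lit 32768, nat_lit 36866, nat_lit 1, nat_lit 1⟩, ⟨false, nat_lit 4096, nat_lit 61442, nat_lit 2, nat_lit 0⟩,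
    ⟨false, nat_lit 2, nat_lit 65534, nat_lit 4, nat_lit 4⟩]

def r57_0_3 : List Wr := [
    ⟨false, nat_lit 16384, nat_lit 32767, nat_lit 4, nat_lit 4⟩, ⟨false, nat_lit 8, nat_lit 16399, nat_lit 2, nat_lit 0⟩, ⟨true, nat_lit 1, nat_lit 16393, nat_lit 1, nat_lit 1⟩,
    ⟨false, nat_lit 1024, nat_lit 18422, nat_lit 3, nat_lit 2⟩, ⟨true, nat_lit 128, nat_lit 17654, nat_lit 2, nat_lit 3⟩, ⟨false, nat_lit 512, nat_lit 18294, nat_lit 3, nat_lit 1⟩,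
    ⟨false, nat_lit 64, nat_lit 18166, nat_lit 3, nat_lit 1⟩, ⟨true, nat_lit 4, nat_lit 18126, nat_lit 3, nat_lit 0⟩, ⟨false, nat_lit 8192, nat_lit 31026, nat_lit 3, nat_lit 0⟩,
    ⟨false, nat_lit 32, nat_lit 26354, nat_lit 3, nat_lit 1⟩, ⟨true, nat_lit 16, nat_lit 26354, nat_lit 2, nat_lit 4⟩, ⟨false, nat_lit 2048, nat_lit 26882, nat_lit 1, nat_lit 3⟩,
    ⟨true, nat_lit 256, nat_lit 28418, nat_lit 2, nat_lit 2⟩, ⟨false, nat_lit 32768, nat_lit 36866, nat_lit 1, nat_lit 1⟩, ⟨false, nat_lit 4096, nat_lit 61442, nat_lit 2, nat_lit 0⟩,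
    ⟨false, nat_lit 2, nat_lit 65534, nat_lit 5, nat_lit 1⟩]

def r57_0_4 : List Wr := [
    ⟨false, nat_lit 1024, nat_lit 2047, nat_lit 3, nat_lit 3⟩, ⟨false, nat_lit 8, nat_lit 1039, nat_lit 2, nat_lit 0⟩, ⟨true, nat_lit 1, nat_lit 1033, nat_lit 1, nat_lit 1⟩,
    ⟨false, nat_lit 128, nat_lit 1270, nat_lit 2, nat_lit 2⟩, ⟨false, nat_lit 64, nat_lit 1270, nat_lit 2, nat_lit 2⟩, ⟨false, nat_lit 16, nat_lit 1238, nat_lit 2, nat_lit 1⟩,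
    ⟨true, nat_lit 4, nat_lit 1246, nat_lit 2, nat_lit 2⟩, ⟨false, nat_lit 512, nat_lit 1826, nat_lit 2, nat_lit 0⟩, ⟨false, nat_lit 32, nat_lit 1762, nat_lit 2, nat_lit 1⟩,
    ⟨true, nat_lit 2, nat_lit 1790, nat_lit 3, nat_lit 1⟩, ⟨false, nat_lit 16384, nat_lit 30976, nat_lit 2, nat_lit 0⟩, ⟨false, nat_lit 2048, nat_lit 18688, nat_lit 1, nat_lit 1⟩,
    ⟨true, nat_lit 256, nat_lit 20224, nat_lit 2, nat_lit 0⟩, ⟨false, nat_lit 8192, nat_lit 28672, nat_lit 1, nat_lit 1⟩, ⟨true, nat_lit 4096, nat_lit 28672, nat_lit 1, nat_lit 1⟩,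
    ⟨false, nat_lit 32768, nat_lit 32768, nat_lit 0, nat_lit 2⟩]

def r57_0_5 : List Wr := [
    ⟨false, nat_lit 1024, nat_lit 2047, nat_lit 3, nat_lit 3⟩, ⟨false, nat_lit 8, nat_lit 1039, nat_lit 2, nat_lit 0⟩, ⟨true, nat_lit 1, nat_lit 1033, nat_lit 1, nat_lit 1⟩,
    ⟨true, nat_lit 128, nat_lit 1270, nat_lit 2, nat_lit 2⟩, ⟨false, nat_lit 16384, nat_lit 31606, nat_lit 4, nat_lit 0⟩, ⟨false, nat_lit 16, nat_lit 17558, nat_lit 2, nat_lit 1⟩,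
    ⟨true, nat_lit 4, nat_lit 17566, nat_lit 2, nat_lit 2⟩, ⟨false, nat_lit 512, nat_lit 18274, nat_lit 2, nat_lit 2⟩, ⟨true, nat_lit 64, nat_lit 18146, nat_lit 2, nat_lit 2⟩,
    ⟨true, nat_lit 2048, nat_lit 18722, nat_lit 1, nat_lit 3⟩, ⟨false, nat_lit 8192, nat_lit 28962, nat_lit 2, nat_lit 1⟩, ⟨false, nat_lit 256, nat_lit 28450, nat_lit 3, nat_lit 0⟩,
    ⟨true, nat_lit 2, nat_lit 28638, nat_lit 4, nat_lit 1⟩, ⟨false, nat_lit 32768, nat_lit 36896, nat_lit 1, nat_lit 1⟩, ⟨false, nat_lit 4096, nat_lit 61472, nat_lit 2, nat_lit 0⟩,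
    ⟨false, nat_lit 32, nat_lit 65504, nat_lit 3, nat_lit 3⟩]

def r57_0_6 : List Wr := [
    ⟨false, nat_lit 1024, nat_lit 2047, nat_lit 3, nat_lit 3⟩, ⟨false, nat_lit 8, nat_lit 1039, nat_lit 2, nat_lit 0⟩, ⟨true, nat_lit 1, nat_lit 1033, nat_lit 1, nat_lit 1⟩,
    ⟨true, nat_lit 128, nat_lit 1270, nat_lit 2, nat_lit 2⟩, ⟨false, nat_lit 16384, nat_lit 31606, nat_lit 4, nat_lit 0⟩, ⟨false, nat_lit 16, nat_lit 17558, nat_lit 2, nat_lit 1⟩,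
    ⟨true, nat_lit 4, nat_lit 17566, nat_lit 2, nat_lit 2⟩, ⟨false, nat_lit 512, nat_lit 18274, nat_lit 2, nat_lit 2⟩, ⟨true, nat_lit 64, nat_lit 18146, nat_lit 2, nat_lit 2⟩,
    ⟨false, nat_lit 8192, nat_lit 31010, nat_lit 2, nat_lit 2⟩, ⟨false, nat_lit 2048, nat_lit 26914, nat_lit 2, nat_lit 1⟩, ⟨true, nat_lit 2, nat_lit 28382, nat_lit 4, nat_lit 0⟩,
    ⟨true, nat_lit 256, nat_lit 28448, nat_lit 2, nat_lit 2⟩, ⟨false, nat_lit 32768, nat_lit 36896, nat_lit 1, nat_lit 1⟩, ⟨false, nat_lit 4096, nat_lit 61472, nat_lit 2, nat_lit 0⟩,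
    ⟨false, nat_lit 32, nat_lit 65504, nat_lit 3, nat_lit 3⟩]

def r57_0_7 : List Wr := [
    ⟨false, nat_lit 1024, nat_lit 2047, nat_lit 3, nat_lit 3⟩, ⟨false, nat_lit 8, nat_lit 1039, nat_lit 2, nat_lit 0⟩, ⟨true, nat_lit 1, nat_lit 1033, nat_lit 1, nat_lit 1⟩,
    ⟨false, nat_lit 16384, nat_lit 31734, nat_lit 4, nat_lit 1⟩, ⟨false, nat_lit 128, nat_lit 17654, nat_lit 3, nat_lit 0⟩, ⟨true, nat_lit 4, nat_lit 17550, nat_lit 2, nat_lit 1⟩,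
    ⟨true, nat_lit 16, nat_lit 17554, nat_lit 1, nat_lit 3⟩, ⟨false, nat_lit 512, nat_lit 18274, nat_lit 2, nat_lit 2⟩, ⟨true, nat_lit 64, nat_lit 18146, nat_lit 2, nat_lit 2⟩,
    ⟨true, nat_lit 2048, nat_lit 18722, nat_lit 1, nat_lit 3⟩, ⟨false, nat_lit 8192, nat_lit 28962, nat_lit 2, nat_lit 1⟩, ⟨false, nat_lit 256, nat_lit 28450, nat_lit 3, nat_lit 0⟩,
    ⟨true, nat_lit 2, nat_lit 28638, nat_lit 4, nat_lit 1⟩, ⟨false, nat_lit 32768, nat_lit 36896, nat_lit 1, nat_lit 1⟩, ⟨false, nat_lit 4096, nat_lit 61472, nat_lit 2, nat_lit 0⟩,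
    ⟨false, nat_lit 32, nat_lit 65504, nat_lit 3, nat_lit 3⟩]

def r57_0_8 : List Wr := [
    ⟨false, nat_lit 1024, nat_lit 2047, nat_lit 3, nat_lit 3⟩, ⟨false, nat_lit 8, nat_lit 1039, nat_lit 2, nat_lit 0⟩, ⟨true, nat_lit 1, nat_lit 1033, nat_lit 1, nat_lit 1⟩,
    ⟨false, nat_lit 16384, nat_lit 31734, nat_lit 4, nat_lit 1⟩, ⟨false, nat_lit 128, nat_lit 17654, nat_lit 3, nat_lit 0⟩, ⟨true, nat_lit 4, nat_lit 17550, nat_lit 2, nat_lit 1⟩,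
    ⟨true, nat_lit 16, nat_lit 17554, nat_lit 1, nat_lit 3⟩, ⟨false, nat_lit 512, nat_lit 18274, nat_lit 2, nat_lit 2⟩, ⟨true, nat_lit 64, nat_lit 18146, nat_lit 2, nat_lit 2⟩,
    ⟨false, nat_lit 8192, nat_lit 31010, nat_lit 2, nat_lit 2⟩, ⟨false, nat_lit 2048, nat_lit 26914, nat_lit 2, nat_lit 1⟩, ⟨true, nat_lit 2, nat_lit 28382, nat_lit 4, nat_lit 0⟩,
    ⟨true, nat_lit 256, nat_lit 28448, nat_lit 2, nat_lit 2⟩, ⟨false, nat_lit 32768, nat_lit 36896, nat_lit 1, nat_lit 1⟩, ⟨false, nat_lit 4096, nat_lit 61472, nat_lit 2, nat_lit 0⟩,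
    ⟨false, nat_lit 32, nat_lit 65504, nat_lit 3, nat_lit 3⟩]

def r57_0_9 : List Wr := [
    ⟨true, nat_lit 1, nat_lit 1, nat_lit 0, nat_lit 2⟩, ⟨false, nat_lit 8, nat_lit 14, nat_lit 1, nat_lit 1⟩, ⟨true, nat_lit 4, nat_lit 14, nat_lit 1, nat_lit 1⟩,
    ⟨false, nat_lit 128, nat_lit 242, nat_lit 2, nat_lit 0⟩, ⟨false, nat_lit 16, nat_lit 146, nat_lit 1, nat_lit 1⟩, ⟨true, nat_lit 2, nat_lit 158, nat_lit 2, nat_lit 0⟩,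
    ⟨false, nat_lit 16384, nat_lit 32608, nat_lit 3, nat_lit 1⟩, ⟨false, nat_lit 1024, nat_lit 18272, nat_lit 2, nat_lit 1⟩, ⟨true, nat_lit 64, nat_lit 17632, nat_lit 2, nat_lit 0⟩,
    ⟨false, nat_lit 8192, nat_lit 31520, nat_lit 2, nat_lit 2⟩, ⟨false, nat_lit 2048, nat_lit 27424, nat_lit 2, nat_lit 1⟩, ⟨false, nat_lit 512, nat_lit 28448, nat_lit 2, nat_lit 2⟩,
    ⟨true, nat_lit 256, nat_lit 28448, nat_lit 2, nat_lit 2⟩, ⟨false, nat_lit 32768, nat_lit 36896, nat_lit 1, nat_lit 1⟩, ⟨false, nat_lit 4096, nat_lit 61472, nat_lit 2, nat_lit 0⟩,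
    ⟨false, nat_lit 32, nat_lit 65504, nat_lit 3, nat_lit 3⟩]

def r57_0_10 : List Wr := [
    ⟨false, nat_lit 16384, nat_lit 32767, nat_lit 4, nat_lit 4⟩, ⟨false, nat_lit 8, nat_lit 16399, nat_lit 2, nat_lit 0⟩, ⟨true, nat_lit 1, nat_lit 16393, nat_lit 1, nat_lit 1⟩,
    ⟨true, nat_lit 128, nat_lit 16630, nat_lit 2, nat_lit 2⟩, ⟨false, nat_lit 2048, nat_lit 20342, nat_lit 3, nat_lit 2⟩, ⟨false, nat_lit 16, nat_lit 18582, nat_lit 2, nat_lit 1⟩,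
    ⟨true, nat_lit 4, nat_lit 18590, nat_lit 2, nat_lit 2⟩, ⟨true, nat_lit 1024, nat_lit 20322, nat_lit 2, nat_lit 3⟩, ⟨false, nat_lit 8192, nat_lit 29538, nat_lit 3, nat_lit 0⟩,
    ⟨false, nat_lit 512, nat_lit 28514, nat_lit 3, nat_lit 1⟩, ⟨true, nat_lit 64, nat_lit 28386, nat_lit 3, nat_lit 1⟩, ⟨false, nat_lit 256, nat_lit 28450, nat_lit 2, nat_lit 3⟩,
    ⟨true, nat_lit 32, nat_lit 28642, nat_lit 3, nat_lit 2⟩, ⟨false, nat_lit 32768, nat_lit 36866, nat_lit 1, nat_lit 1⟩, ⟨false, nat_lit 4096, nat_lit 61442, nat_lit 2, nat_lit 0⟩,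
    ⟨false, nat_lit 2, nat_lit 65534, nat_lit 5, nat_lit 1⟩]

def r57_0_11 : List Wr := [
    ⟨false, nat_lit 16384, nat_lit 32767, nat_lit 4, nat_lit 4⟩, ⟨false, nat_lit 8, nat_lit 16399, nat_lit 2, nat_lit 0⟩, ⟨true, nat_lit 1, nat_lit 16393, nat_lit 1, nat_lit 1⟩,
    ⟨false, nat_lit 2048, nat_lit 20470, nat_lit 3, nat_lit 3⟩, ⟨false, nat_lit 128, nat_lit 18678, nat_lit 3, nat_lit 0⟩, ⟨true, nat_lit 4, nat_lit 18574, nat_lit 2, nat_lit 1⟩,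
    ⟨true, nat_lit 16, nat_lit 18578, nat_lit 1, nat_lit 3⟩, ⟨true, nat_lit 1024, nat_lit 20322, nat_lit 2, nat_lit 3⟩, ⟨false, nat_lit 8192, nat_lit 29538, nat_lit 3, nat_lit 0⟩,
    ⟨false, nat_lit 512, nat_lit 28514, nat_lit 3, nat_lit 1⟩, ⟨true, nat_lit 64, nat_lit 28386, nat_lit 3, nat_lit 1⟩, ⟨false, nat_lit 256, nat_lit 28450, nat_lit 2, nat_lit 3⟩,
    ⟨true, nat_lit 32, nat_lit 28642, nat_lit 3, nat_lit 2⟩, ⟨false, nat_lit 32768, nat_lit 36866, nat_lit 1, nat_lit 1⟩, ⟨false, nat_lit 4096, nat_lit 61442, nat_lit 2, nat_lit 0⟩,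
    ⟨false, nat_lit 2, nat_lit 65534, nat_lit 5, nat_lit 1⟩]

def l57_0 : List (Nat × List Wr × Nat) := [
  (nat_lit 6, r57_0_0, nat_lit 0), (nat_lit 6, r57_0_1, nat_lit 0), (nat_lit 6, r57_0_2, nat_lit 0),
  (nat_lit 6, r57_0_3, nat_lit 0), (nat_lit 6, r57_0_4, nat_lit 0), (nat_lit 6, r57_0_5, nat_lit 0),
  (nat_lit 6, r57_0_6, nat_lit 0), (nat_lit 6, r57_0_7, nat_lit 0), (nat_lit 6, r57_0_8, nat_lit 0),
  (nat_lit 6, r57_0_9, nat_lit 0), (nat_lit 6, r57_0_10, nat_lit 0), (nat_lit 6, r57_0_11, nat_lit 0)]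

end Pool.Agent.EC4.Run
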