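import Pool.Agent.Lib.MP_ec4eff_co.R5.Srch

/-! Generated file (project R5): results of the first lune -/

namespace Pool.Agent.EC4.Run

def r85_0_0 : List Wr := [
    ⟨false, nat_lit 16, nat_lit 31, nat_lit 1, nat_lit 3⟩, ⟨false, nat_lit 8, nat_lit 31, nat_lit 2, nat_lit 0⟩, ⟨false, nat_lit 2, nat_lit 27, nat_lit 1, nat_lit 2⟩,
    ⟨true, nat_lit 1, nat_lit 27, nat_lit 1, nat_lit 2⟩, ⟨false, nat_lit 256, nat_lit 484, nat_lit 2, nat_lit 0⟩, ⟨false, nat_lit 32, nat_lit 292, nat_lit 1, nat_lit 1⟩,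
    ⟨true, nat_lit 4, nat_lit 316, nat_lit 2, nat_lit 0⟩, ⟨false, nat_lit 32768, nat_lit 65216, nat_lit 3, nat_lit 1⟩, ⟨false, nat_lit 4096, nat_lit 40640, nat_lit 2, nat_lit 2⟩,
    ⟨true, nat_lit 128, nat_lit 37312, nat_lit 2, nat_lit 0⟩, ⟨false, nat_lit 2048, nat_lit 40512, nat_lit 2, nat_lit 1⟩, ⟨true, nat_lit 512, nat_lit 39488, nat_lit 1, nat_lit 3⟩,
    ⟨false, nat_lit 16384, nat_lit 58432, nat_lit 2, nat_lit 0⟩, ⟨false, nat_lit 1024, nat_lit 56384, nat_lit 2, nat_lit 1⟩, ⟨true, nat_lit 64, nat_lit 57280, nat_lit 3, nat_lit 1⟩,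
    ⟨false, nat_lit 8192, nat_lit 57344, nat_lit 1, nat_lit 1⟩]

def r85_0_1 : List Wr := [
    ⟨false, nat_lit 16, nat_lit 31, nat_lit 2, nat_lit 0⟩, ⟨false, nat_lit 2, nat_lit 19, nat_lit 1, nat_lit 1⟩, ⟨true, nat_lit 1, nat_lit 19, nat_lit 1, nat_lit 1⟩,
    ⟨false, nat_lit 256, nat_lit 492, nat_lit 2, nat_lit 1⟩, ⟨false, nat_lit 32, nat_lit 300, nat_lit 1, nat_lit 2⟩, ⟨true, nat_lit 8, nat_lit 316, nat_lit 2, nat_lit 0⟩,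
    ⟨false, nat_lit 4096, nat_lit 7876, nat_lit 2, nat_lit 2⟩, ⟨false, nat_lit 128, nat_lit 4548, nat_lit 2, nat_lit 0⟩, ⟨true, nat_lit 4, nat_lit 4540, nat_lit 2, nat_lit 2⟩,
    ⟨false, nat_lit 2048, nat_lit 7744, nat_lit 2, nat_lit 0⟩, ⟨false, nat_lit 512, nat_lit 6720, nat_lit 1, nat_lit 2⟩, ⟨true, nat_lit 64, nat_lit 7104, nat_lit 2, nat_lit 1⟩,
    ⟨true, nat_lit 1024, nat_lit 7168, nat_lit 1, nat_lit 1⟩, ⟨false, nat_lit 32768, nat_lit 57344, nat_lit 1, nat_lit 1⟩, ⟨false, nat_lit 16384, nat_lit 57344, nat_lit 1, nat_lit 1⟩,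
    ⟨false, nat_lit 8192, nat_lit 57344, nat_lit 1, nat_lit 1⟩]

def r85_0_2 : List Wr := [
    ⟨false, nat_lit 16, nat_lit 31, nat_lit 2, nat_lit 0⟩, ⟨false, nat_lit 2, nat_lit 19, nat_lit 1, nat_lit 1⟩, ⟨true, nat_lit 1, nat_lit 19, nat_lit 1, nat_lit 1⟩,
    ⟨false, nat_lit 256, nat_lit 492, nat_lit 2, nat_lit 1⟩, ⟨false, nat_lit 32, nat_lit 300, nat_lit 1, nat_lit 2⟩, ⟨false, nat_lit 8, nat_lit 316, nat_lit 2, nat_lit 0⟩,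
    ⟨true, nat_lit 4, nat_lit 316, nat_lit 1, nat_lit 3⟩, ⟨false, nat_lit 32768, nat_lit 65216, nat_lit 3, nat_lit 1⟩, ⟨false, nat_lit 4096, nat_lit 40640, nat_lit 2, nat_lit 2⟩,
    ⟨true, nat_lit 128, nat_lit 37312, nat_lit 2, nat_lit 0⟩, ⟨false, nat_lit 2048, nat_lit 40512, nat_lit 2, nat_lit 1⟩, ⟨true, nat_lit 512, nat_lit 39488, nat_lit 1, nat_lit 3⟩,
    ⟨false, nat_lit 16384, nat_lit 58432, nat_lit 2, nat_lit 0⟩, ⟨false, nat_lit 1024, nat_lit 56384, nat_lit 2, nat_lit 1⟩, ⟨true, nat_lit 64, nat_lit 57280, nat_lit 3, nat_lit 1⟩,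
    ⟨false, nat_lit 8192, nat_lit 57344, nat_lit 1, nat_lit 1⟩]

def r85_0_3 : List Wr := [
    ⟨false, nat_lit 16, nat_lit 31, nat_lit 2, nat_lit 0⟩, ⟨false, nat_lit 2, nat_lit 19, nat_lit 1, nat_lit 1⟩, ⟨true, nat_lit 1, nat_lit 19, nat_lit 1, nat_lit 1⟩,
    ⟨false, nat_lit 256, nat_lit 492, nat_lit 2, nat_lit 1⟩, ⟨false, nat_lit 32, nat_lit 300, nat_lit 1, nat_lit 2⟩, ⟨true, nat_lit 8, nat_lit 316, nat_lit 2, nat_lit 0⟩,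
    ⟨false, nat_lit 4096, nat_lit 7876, nat_lit 2, nat_lit 2⟩, ⟨false, nat_lit 128, nat_lit 4548, nat_lit 2, nat_lit 0⟩, ⟨true, nat_lit 4, nat_lit 4540, nat_lit 2, nat_lit 2⟩,
    ⟨false, nat_lit 32768, nat_lit 60992, nat_lit 2, nat_lit 2⟩, ⟨false, nat_lit 2048, nat_lit 40512, nat_lit 2, nat_lit 1⟩, ⟨true, nat_lit 512, nat_lit 39488, nat_lit 1, nat_lit 3⟩,
    ⟨false, nat_lit 16384, nat_lit 58432, nat_lit 2, nat_lit 0⟩, ⟨false, nat_lit 1024, nat_lit 56384, nat_lit 2, nat_lit 1⟩, ⟨true, nat_lit 64, nat_lit 57280, nat_lit 3, nat_lit 1⟩,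
    ⟨false, nat_lit 8192, nat_lit 57344, nat_lit 1, nat_lit 1⟩]

def r85_0_4 : List Wr := [
    ⟨false, nat_lit 16, nat_lit 31, nat_lit 2, nat_lit 0⟩, ⟨false, nat_lit 2, nat_lit 19, nat_lit 1, nat_lit 1⟩, ⟨true, nat_lit 1, nat_lit 19, nat_lit 1, nat_lit 1⟩,
    ⟨false, nat_lit 256, nat_lit 492, nat_lit 2, nat_lit 1⟩, ⟨false, nat_lit 32, nat_lit 300, nat_lit 1, nat_lit 2⟩, ⟨true, nat_lit 8, nat_lit 316, nat_lit 2, nat_lit 0⟩,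
    ⟨false, nat_lit 32768, nat_lit 65220, nat_lit 3, nat_lit 2⟩, ⟨false, nat_lit 128, nat_lit 33220, nat_lit 2, nat_lit 0⟩, ⟨true, nat_lit 4, nat_lit 33212, nat_lit 2, nat_lit 2⟩,
    ⟨false, nat_lit 4096, nat_lit 40512, nat_lit 2, nat_lit 1⟩, ⟨true, nat_lit 512, nat_lit 37440, nat_lit 1, nat_lit 2⟩, ⟨true, nat_lit 2048, nat_lit 40000, nat_lit 1, nat_lit 3⟩,
    ⟨false, nat_lit 16384, nat_lit 58432, nat_lit 2, nat_lit 0⟩, ⟨false, nat_lit 1024, nat_lit 56384, nat_lit 2, nat_lit 1⟩, ⟨true, nat_lit 64, nat_lit 57280, nat_lit 3, nat_lit 1⟩,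
    ⟨false, nat_lit 8192, nat_lit 57344, nat_lit 1, nat_lit 1⟩]

def r85_0_5 : List Wr := [
    ⟨false, nat_lit 16, nat_lit 31, nat_lit 2, nat_lit 0⟩, ⟨false, nat_lit 2, nat_lit 19, nat_lit 1, nat_lit 1⟩, ⟨true, nat_lit 1, nat_lit 19, nat_lit 1, nat_lit 1⟩,
    ⟨false, nat_lit 256, nat_lit 492, nat_lit 2, nat_lit 1⟩, ⟨false, nat_lit 32, nat_lit 300, nat_lit 1, nat_lit 2⟩, ⟨true, nat_lit 8, nat_lit 316, nat_lit 2, nat_lit 0⟩,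
    ⟨false, nat_lit 32768, nat_lit 65220, nat_lit 3, nat_lit 2⟩, ⟨false, nat_lit 128, nat_lit 33220, nat_lit 2, nat_lit 0⟩, ⟨true, nat_lit 4, nat_lit 33212, nat_lit 2, nat_lit 2⟩,
    ⟨false, nat_lit 4096, nat_lit 40512, nat_lit 2, nat_lit 1⟩, ⟨true, nat_lit 512, nat_lit 37440, nat_lit 1, nat_lit 2⟩, ⟨false, nat_lit 16384, nat_lit 60480, nat_lit 2, nat_lit 1⟩,
    ⟨false, nat_lit 2048, nat_lit 56384, nat_lit 2, nat_lit 1⟩, ⟨true, nat_lit 64, nat_lit 56256, nat_lit 3, nat_lit 0⟩, ⟨true, nat_lit 1024, nat_lit 56320, nat_lit 1, nat_lit 3⟩,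
    ⟨false, nat_lit 8192, nat_lit 57344, nat_lit 1, nat_lit 1⟩]

def r85_0_6 : List Wr := [
    ⟨false, nat_lit 16, nat_lit 31, nat_lit 2, nat_lit 0⟩, ⟨false, nat_lit 2, nat_lit 19, nat_lit 1, nat_lit 1⟩, ⟨true, nat_lit 1, nat_lit 19, nat_lit 1, nat_lit 1⟩,
    ⟨false, nat_lit 32768, nat_lit 65516, nat_lit 4, nat_lit 2⟩, ⟨false, nat_lit 32, nat_lit 32812, nat_lit 1, nat_lit 2⟩, ⟨true, nat_lit 8, nat_lit 32828, nat_lit 2, nat_lit 0⟩,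
    ⟨false, nat_lit 4096, nat_lit 40900, nat_lit 2, nat_lit 4⟩, ⟨true, nat_lit 256, nat_lit 37316, nat_lit 2, nat_lit 1⟩, ⟨false, nat_lit 2048, nat_lit 40644, nat_lit 3, nat_lit 0⟩,
    ⟨false, nat_lit 128, nat_lit 39364, nat_lit 2, nat_lit 2⟩, ⟨true, nat_lit 4, nat_lit 39356, nat_lit 3, nat_lit 1⟩, ⟨true, nat_lit 512, nat_lit 39488, nat_lit 1, nat_lit 3⟩,
    ⟨false, nat_lit 16384, nat_lit 58432, nat_lit 2, nat_lit 0⟩, ⟨false, nat_lit 1024, nat_lit 56384, nat_lit 2, nat_lit 1⟩, ⟨true, nat_lit 64, nat_lit 57280, nat_lit 3, nat_lit 1⟩,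
    ⟨false, nat_lit 8192, nat_lit 57344, nat_lit 1, nat_lit 1⟩]

def r85_0_7 : List Wr := [
    ⟨false, nat_lit 16, nat_lit 31, nat_lit 2, nat_lit 0⟩, ⟨false, nat_lit 2, nat_lit 19, nat_lit 1, nat_lit 1⟩, ⟨true, nat_lit 1, nat_lit 19, nat_lit 1, nat_lit 1⟩,
    ⟨false, nat_lit 512, nat_lit 1004, nat_lit 2, nat_lit 2⟩, ⟨false, nat_lit 256, nat_lit 1004, nat_lit 2, nat_lit 2⟩, ⟨true, nat_lit 8, nat_lit 796, nat_lit 2, nat_lit 0⟩,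
    ⟨true, nat_lit 128, nat_lit 996, nat_lit 2, nat_lit 1⟩, ⟨false, nat_lit 32768, nat_lit 64612, nat_lit 3, nat_lit 1⟩, ⟨false, nat_lit 4096, nat_lit 40036, nat_lit 2, nat_lit 2⟩,
    ⟨true, nat_lit 32, nat_lit 37796, nat_lit 2, nat_lit 2⟩, ⟨false, nat_lit 2048, nat_lit 40004, nat_lit 2, nat_lit 1⟩, ⟨true, nat_lit 64, nat_lit 39876, nat_lit 2, nat_lit 3⟩,
    ⟨false, nat_lit 16384, nat_lit 58372, nat_lit 2, nat_lit 0⟩, ⟨false, nat_lit 1024, nat_lit 56324, nat_lit 2, nat_lit 1⟩, ⟨true, nat_lit 4, nat_lit 57340, nat_lit 4, nat_lit 2⟩,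
    ⟨false, nat_lit 8192, nat_lit 57344, nat_lit 1, nat_lit 1⟩]

def r85_0_8 : List Wr := [
    ⟨false, nat_lit 16, nat_lit 31, nat_lit 2, nat_lit 0⟩, ⟨false, nat_lit 2, nat_lit 19, nat_lit 1, nat_lit 1⟩, ⟨true, nat_lit 1, nat_lit 19, nat_lit 1, nat_lit 1⟩,
    ⟨false, nat_lit 4096, nat_lit 8172, nat_lit 3, nat_lit 2⟩, ⟨false, nat_lit 256, nat_lit 4588, nat_lit 2, nat_lit 2⟩, ⟨true, nat_lit 8, nat_lit 4380, nat_lit 2, nat_lit 0⟩,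
    ⟨true, nat_lit 128, nat_lit 4580, nat_lit 2, nat_lit 1⟩, ⟨false, nat_lit 32768, nat_lit 61028, nat_lit 3, nat_lit 1⟩, ⟨false, nat_lit 64, nat_lit 37348, nat_lit 2, nat_lit 2⟩,
    ⟨true, nat_lit 32, nat_lit 37348, nat_lit 2, nat_lit 2⟩, ⟨false, nat_lit 2048, nat_lit 40452, nat_lit 2, nat_lit 1⟩, ⟨true, nat_lit 512, nat_lit 39428, nat_lit 1, nat_lit 3⟩,
    ⟨false, nat_lit 16384, nat_lit 58372, nat_lit 2, nat_lit 0⟩, ⟨false, nat_lit 1024, nat_lit 56324, nat_lit 2, nat_lit 1⟩, ⟨true, nat_lit 4, nat_lit 57340, nat_lit 4, nat_lit 2⟩,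
    ⟨false, nat_lit 8192, nat_lit 57344, nat_lit 1, nat_lit 1⟩]

def r85_0_9 : List Wr := [
    ⟨false, nat_lit 16, nat_lit 31, nat_lit 2, nat_lit 0⟩, ⟨false, nat_lit 2, nat_lit 19, nat_lit 1, nat_lit 1⟩, ⟨true, nat_lit 1, nat_lit 19, nat_lit 1, nat_lit 1⟩,
    ⟨false, nat_lit 4096, nat_lit 8172, nat_lit 3, nat_lit 2⟩, ⟨false, nat_lit 256, nat_lit 4588, nat_lit 2, nat_lit 2⟩, ⟨true, nat_lit 8, nat_lit 4380, nat_lit 2, nat_lit 0⟩,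
    ⟨false, nat_lit 128, nat_lit 4580, nat_lit 2, nat_lit 1⟩, ⟨true, nat_lit 32, nat_lit 4516, nat_lit 1, nat_lit 3⟩, ⟨false, nat_lit 2048, nat_lit 7748, nat_lit 2, nat_lit 1⟩,
    ⟨false, nat_lit 64, nat_lit 6596, nat_lit 2, nat_lit 1⟩, ⟨true, nat_lit 4, nat_lit 6652, nat_lit 3, nat_lit 1⟩, ⟨false, nat_lit 32768, nat_lit 58880, nat_lit 2, nat_lit 0⟩,
    ⟨false, nat_lit 1024, nat_lit 40448, nat_lit 2, nat_lit 0⟩, ⟨true, nat_lit 512, nat_lit 40448, nat_lit 1, nat_lit 3⟩, ⟨false, nat_lit 16384, nat_lit 57344, nat_lit 1, nat_lit 1⟩,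
    ⟨false, nat_lit 8192, nat_lit 57344, nat_lit 1, nat_lit 1⟩]

def r85_0_10 : List Wr := [
    ⟨false, nat_lit 16, nat_lit 31, nat_lit 2, nat_lit 0⟩, ⟨false, nat_lit 2, nat_lit 19, nat_lit 1, nat_lit 1⟩, ⟨true, nat_lit 1, nat_lit 19, nat_lit 1, nat_lit 1⟩,
    ⟨false, nat_lit 32768, nat_lit 65516, nat_lit 4, nat_lit 2⟩, ⟨false, nat_lit 256, nat_lit 33260, nat_lit 2, nat_lit 2⟩, ⟨true, nat_lit 8, nat_lit 33052, nat_lit 2, nat_lit 0⟩,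
    ⟨false, nat_lit 128, nat_lit 33252, nat_lit 2, nat_lit 1⟩, ⟨true, nat_lit 32, nat_lit 33188, nat_lit 1, nat_lit 3⟩, ⟨false, nat_lit 4096, nat_lit 40516, nat_lit 2, nat_lit 2⟩,
    ⟨false, nat_lit 2048, nat_lit 40516, nat_lit 2, nat_lit 2⟩, ⟨false, nat_lit 512, nat_lit 39492, nat_lit 2, nat_lit 1⟩, ⟨true, nat_lit 4, nat_lit 39868, nat_lit 3, nat_lit 2⟩,
    ⟨false, nat_lit 16384, nat_lit 58432, nat_lit 2, nat_lit 0⟩, ⟨false, nat_lit 1024, nat_lit 56384, nat_lit 2, nat_lit 1⟩, ⟨true, nat_lit 64, nat_lit 57280, nat_lit 3, nat_lit 1⟩,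
    ⟨false, nat_lit 8192, nat_lit 57344, nat_lit 1, nat_lit 1⟩]

def r85_0_11 : List Wr := [
    ⟨false, nat_lit 16, nat_lit 31, nat_lit 2, nat_lit 0⟩, ⟨false, nat_lit 2, nat_lit 19, nat_lit 1, nat_lit 1⟩, ⟨true, nat_lit 1, nat_lit 19, nat_lit 1, nat_lit 1⟩,
    ⟨true, nat_lit 8, nat_lit 28, nat_lit 1, nat_lit 1⟩, ⟨false, nat_lit 4096, nat_lit 8164, nat_lit 3, nat_lit 1⟩, ⟨false, nat_lit 256, nat_lit 4580, nat_lit 2, nat_lit 1⟩,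
    ⟨true, nat_lit 4, nat_lit 4380, nat_lit 2, nat_lit 0⟩, ⟨false, nat_lit 2048, nat_lit 7904, nat_lit 2, nat_lit 2⟩, ⟨false, nat_lit 512, nat_lit 6880, nat_lit 2, nat_lit 1⟩,
    ⟨false, nat_lit 128, nat_lit 7136, nat_lit 2, nat_lit 2⟩, ⟨true, nat_lit 64, nat_lit 7136, nat_lit 2, nat_lit 2⟩, ⟨false, nat_lit 32768, nat_lit 58400, nat_lit 2, nat_lit 0⟩,
    ⟨false, nat_lit 1024, nat_lit 39968, nat_lit 2, nat_lit 0⟩, ⟨true, nat_lit 32, nat_lit 40928, nat_lit 2, nat_lit 4⟩, ⟨false, nat_lit 16384, nat_lit 57344, nat_lit 1, nat_lit 1⟩,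
    ⟨false, nat_lit 8192, nat_lit 57344, nat_lit 1, nat_lit 1⟩]

def r85_0_12 : List Wr := [
    ⟨false, nat_lit 16, nat_lit 31, nat_lit 2, nat_lit 0⟩, ⟨false, nat_lit 2, nat_lit 19, nat_lit 1, nat_lit 1⟩, ⟨true, nat_lit 1, nat_lit 19, nat_lit 1, nat_lit 1⟩,
    ⟨false, nat_lit 32768, nat_lit 65516, nat_lit 4, nat_lit 2⟩, ⟨false, nat_lit 4096, nat_lit 40940, nat_lit 3, nat_lit 3⟩, ⟨true, nat_lit 8, nat_lit 36892, nat_lit 2, nat_lit 0⟩,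
    ⟨false, nat_lit 512, nat_lit 37860, nat_lit 2, nat_lit 3⟩, ⟨true, nat_lit 256, nat_lit 37860, nat_lit 2, nat_lit 3⟩, ⟨false, nat_lit 2048, nat_lit 40164, nat_lit 3, nat_lit 0⟩,
    ⟨false, nat_lit 128, nat_lit 39908, nat_lit 3, nat_lit 1⟩, ⟨true, nat_lit 4, nat_lit 39836, nat_lit 3, nat_lit 1⟩, ⟨true, nat_lit 64, nat_lit 39904, nat_lit 2, nat_lit 3⟩,
    ⟨false, nat_lit 16384, nat_lit 58400, nat_lit 2, nat_lit 0⟩, ⟨false, nat_lit 1024, nat_lit 56352, nat_lit 2, nat_lit 1⟩, ⟨true, nat_lit 32, nat_lit 57312, nat_lit 3, nat_lit 2⟩,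
    ⟨false, nat_lit 8192, nat_lit 57344, nat_lit 1, nat_lit 1⟩]

def r85_0_13 : List Wr := [
    ⟨false, nat_lit 16, nat_lit 31, nat_lit 2, nat_lit 0⟩, ⟨false, nat_lit 2, nat_lit 19, nat_lit 1, nat_lit 1⟩, ⟨true, nat_lit 1, nat_lit 19, nat_lit 1, nat_lit 1⟩,
    ⟨true, nat_lit 8, nat_lit 28, nat_lit 1, nat_lit 1⟩, ⟨false, nat_lit 32768, nat_lit 65508, nat_lit 4, nat_lit 1⟩, ⟨false, nat_lit 256, nat_lit 33252, nat_lit 2, nat_lit 1⟩,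
    ⟨true, nat_lit 4, nat_lit 33052, nat_lit 2, nat_lit 0⟩, ⟨true, nat_lit 4096, nat_lit 40672, nat_lit 2, nat_lit 3⟩, ⟨false, nat_lit 16384, nat_lit 61152, nat_lit 3, nat_lit 1⟩,
    ⟨false, nat_lit 2048, nat_lit 57056, nat_lit 3, nat_lit 1⟩, ⟨true, nat_lit 128, nat_lit 55776, nat_lit 3, nat_lit 0⟩, ⟨false, nat_lit 1024, nat_lit 56928, nat_lit 2, nat_lit 3⟩,
    ⟨true, nat_lit 512, nat_lit 56928, nat_lit 2, nat_lit 3⟩, ⟨false, nat_lit 8192, nat_lit 57440, nat_lit 2, nat_lit 0⟩, ⟨false, nat_lit 64, nat_lit 65504, nat_lit 3, nat_lit 3⟩,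
    ⟨false, nat_lit 32, nat_lit 65504, nat_lit 3, nat_lit 3⟩]

def l85_0 : List (Nat × List Wr × Nat) := [
  (nat_lit 6, r85_0_0, nat_lit 0), (nat_lit 6, r85_0_1, nat_lit 0), (nat_lit 6, r85_0_2, nat_lit 0),
  (nat_lit 6, r85_0_3, nat_lit 0), (nat_lit 6, r85_0_4, nat_lit 0), (nat_lit 6, r85_0_5, nat_lit 0),
  (nat_lit 6, r85_0_6, nat_lit 0), (nat_lit 6, r85_0_7, nat_lit 0), (nat_lit 6, r85_0_8, nat_lit 0),
  (nat_lit 6, r85_0_9, nat_lit 0), (nat_lit 6, r85_0_10, nat_lit 0), (nat_lit 6, r85_0_11, nat_lit 0),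
  (nat_lit 6, r85_0_12, nat_lit 0), (nat_lit 6, r85_0_13, nat_lit 0)]

def r85_1_0 : List Wr := [
    ⟨false, nat_lit 16, nat_lit 31, nat_lit 2, nat_lit 0⟩, ⟨false, nat_lit 2, nat_lit 19, nat_lit 1, nat_lit 1⟩, ⟨true, nat_lit 1, nat_lit 19, nat_lit 1, nat_lit 1⟩,
    ⟨true, nat_lit 8, nat_lit 28, nat_lit 1, nat_lit 1⟩, ⟨false, nat_lit 256, nat_lit 484, nat_lit 2, nat_lit 0⟩, ⟨false, nat_lit 32, nat_lit 292, nat_lit 1, nat_lit 1⟩,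
    ⟨true, nat_lit 4, nat_lit 316, nat_lit 2, nat_lit 0⟩, ⟨false, nat_lit 4096, nat_lit 7872, nat_lit 2, nat_lit 1⟩, ⟨false, nat_lit 512, nat_lit 4800, nat_lit 1, nat_lit 2⟩,
    ⟨true, nat_lit 128, nat_lit 5056, nat_lit 2, nat_lit 0⟩, ⟨true, nat_lit 2048, nat_lit 7232, nat_lit 1, nat_lit 2⟩, ⟨false, nat_lit 32768, nat_lit 58432, nat_lit 2, nat_lit 0⟩,
    ⟨false, nat_lit 1024, nat_lit 40000, nat_lit 2, nat_lit 0⟩, ⟨true, nat_lit 64, nat_lit 40896, nat_lit 2, nat_lit 3⟩, ⟨false, nat_lit 16384, nat_lit 57344, nat_lit 1, nat_lit 1⟩,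
    ⟨false, nat_lit 8192, nat_lit 57344, nat_lit 1, nat_lit 1⟩]

def l85_1 : List (Nat × List Wr × Nat) := [
  (nat_lit 4, r85_1_0, nat_lit 0)]

def r85_2_0 : List Wr := [
    ⟨false, nat_lit 16, nat_lit 31, nat_lit 2, nat_lit 0⟩, ⟨false, nat_lit 2, nat_lit 19, nat_lit 1, nat_lit 1⟩, ⟨true, nat_lit 1, nat_lit 19, nat_lit 1, nat_lit 1⟩,
    ⟨true, nat_lit 8, nat_lit 28, nat_lit 1, nat_lit 1⟩, ⟨false, nat_lit 256, nat_lit 484, nat_lit 2, nat_lit 0⟩, ⟨false, nat_lit 32, nat_lit 292, nat_lit 1, nat_lit 1⟩,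
    ⟨true, nat_lit 4, nat_lit 316, nat_lit 2, nat_lit 0⟩, ⟨false, nat_lit 4096, nat_lit 7872, nat_lit 2, nat_lit 1⟩, ⟨false, nat_lit 512, nat_lit 4800, nat_lit 1, nat_lit 2⟩,
    ⟨true, nat_lit 128, nat_lit 5056, nat_lit 2, nat_lit 0⟩, ⟨false, nat_lit 32768, nat_lit 60480, nat_lit 2, nat_lit 1⟩, ⟨false, nat_lit 2048, nat_lit 40000, nat_lit 2, nat_lit 0⟩,
    ⟨true, nat_lit 64, nat_lit 39872, nat_lit 2, nat_lit 2⟩, ⟨true, nat_lit 1024, nat_lit 39936, nat_lit 1, nat_lit 2⟩, ⟨false, nat_lit 16384, nat_lit 57344, nat_lit 1, nat_lit 1⟩,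
    ⟨false, nat_lit 8192, nat_lit 57344, nat_lit 1, nat_lit 1⟩]

def l85_2 : List (Nat × List Wr × Nat) := [
  (nat_lit 4, r85_2_0, nat_lit 0)]

def r85_3_0 : List Wr := [
    ⟨false, nat_lit 16, nat_lit 31, nat_lit 2, nat_lit 0⟩, ⟨false, nat_lit 2, nat_lit 19, nat_lit 1, nat_lit 1⟩, ⟨true, nat_lit 1, nat_lit 19, nat_lit 1, nat_lit 1⟩,
    ⟨true, nat_lit 8, nat_lit 28, nat_lit 1, nat_lit 1⟩, ⟨false, nat_lit 256, nat_lit 484, nat_lit 2, nat_lit 0⟩, ⟨false, nat_lit 32, nat_lit 292, nat_lit 1, nat_lit 1⟩,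
    ⟨true, nat_lit 4, nat_lit 316, nat_lit 2, nat_lit 0⟩, ⟨false, nat_lit 4096, nat_lit 7872, nat_lit 2, nat_lit 1⟩, ⟨false, nat_lit 512, nat_lit 4800, nat_lit 1, nat_lit 2⟩,
    ⟨true, nat_lit 128, nat_lit 5056, nat_lit 2, nat_lit 0⟩, ⟨false, nat_lit 32768, nat_lit 60480, nat_lit 2, nat_lit 1⟩, ⟨false, nat_lit 2048, nat_lit 40000, nat_lit 2, nat_lit 0⟩,
    ⟨true, nat_lit 64, nat_lit 39872, nat_lit 2, nat_lit 2⟩, ⟨false, nat_lit 16384, nat_lit 58368, nat_lit 1, nat_lit 2⟩, ⟨true, nat_lit 1024, nat_lit 56320, nat_lit 1, nat_lit 3⟩,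
    ⟨false, nat_lit 8192, nat_lit 57344, nat_lit 1, nat_lit 1⟩]

def r85_3_1 : List Wr := [
    ⟨false, nat_lit 16, nat_lit 31, nat_lit 2, nat_lit 0⟩, ⟨false, nat_lit 2, nat_lit 19, nat_lit 1, nat_lit 1⟩, ⟨true, nat_lit 1, nat_lit 19, nat_lit 1, nat_lit 1⟩,
    ⟨true, nat_lit 8, nat_lit 28, nat_lit 1, nat_lit 1⟩, ⟨false, nat_lit 256, nat_lit 484, nat_lit 2, nat_lit 0⟩, ⟨false, nat_lit 32, nat_lit 292, nat_lit 1, nat_lit 1⟩,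
    ⟨true, nat_lit 4, nat_lit 316, nat_lit 2, nat_lit 0⟩, ⟨false, nat_lit 4096, nat_lit 7872, nat_lit 2, nat_lit 1⟩, ⟨false, nat_lit 512, nat_lit 4800, nat_lit 1, nat_lit 2⟩,
    ⟨true, nat_lit 128, nat_lit 5056, nat_lit 2, nat_lit 0⟩, ⟨false, nat_lit 32768, nat_lit 60480, nat_lit 2, nat_lit 1⟩, ⟨false, nat_lit 2048, nat_lit 40000, nat_lit 2, nat_lit 0⟩,
    ⟨true, nat_lit 64, nat_lit 39872, nat_lit 2, nat_lit 2⟩, ⟨false, nat_lit 16384, nat_lit 58368, nat_lit 1, nat_lit 2⟩, ⟨true, nat_lit 1024, nat_lit 56320, nat_lit 1, nat_lit 3⟩,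
    ⟨false, nat_lit 8192, nat_lit 57344, nat_lit 1, nat_lit 1⟩]

def l85_3 : List (Nat × List Wr × Nat) := [
  (nat_lit 5, r85_3_0, nat_lit 1), (nat_lit 6, r85_3_1, nat_lit 0)]

def r85_4_0 : List Wr := [
    ⟨false, nat_lit 16, nat_lit 31, nat_lit 2, nat_lit 0⟩, ⟨false, nat_lit 2, nat_lit 19, nat_lit 1, nat_lit 1⟩, ⟨true, nat_lit 1, nat_lit 19, nat_lit 1, nat_lit 1⟩,
    ⟨true, nat_lit 8, nat_lit 28, nat_lit 1, nat_lit 1⟩, ⟨false, nat_lit 256, nat_lit 484, nat_lit 2, nat_lit 0⟩, ⟨false, nat_lit 32, nat_lit 292, nat_lit 1, nat_lit 1⟩,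
    ⟨true, nat_lit 4, nat_lit 316, nat_lit 2, nat_lit 0⟩, ⟨false, nat_lit 32768, nat_lit 65216, nat_lit 3, nat_lit 1⟩, ⟨false, nat_lit 4096, nat_lit 40640, nat_lit 2, nat_lit 2⟩,
    ⟨true, nat_lit 128, nat_lit 37312, nat_lit 2, nat_lit 0⟩, ⟨false, nat_lit 2048, nat_lit 40512, nat_lit 2, nat_lit 1⟩, ⟨true, nat_lit 512, nat_lit 39488, nat_lit 1, nat_lit 3⟩,
    ⟨false, nat_lit 16384, nat_lit 58432, nat_lit 2, nat_lit 0⟩, ⟨false, nat_lit 1024, nat_lit 56384, nat_lit 2, nat_lit 1⟩, ⟨true, nat_lit 64, nat_lit 57280, nat_lit 3, nat_lit 1⟩,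
    ⟨false, nat_lit 8192, nat_lit 57344, nat_lit 1, nat_lit 1⟩]

def r85_4_1 : List Wr := [
    ⟨false, nat_lit 16, nat_lit 31, nat_lit 2, nat_lit 0⟩, ⟨false, nat_lit 2, nat_lit 19, nat_lit 1, nat_lit 1⟩, ⟨true, nat_lit 1, nat_lit 19, nat_lit 1, nat_lit 1⟩,
    ⟨true, nat_lit 8, nat_lit 28, nat_lit 1, nat_lit 1⟩, ⟨false, nat_lit 256, nat_lit 484, nat_lit 2, nat_lit 0⟩, ⟨false, nat_lit 32, nat_lit 292, nat_lit 1, nat_lit 1⟩,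
    ⟨true, nat_lit 4, nat_lit 316, nat_lit 2, nat_lit 0⟩, ⟨false, nat_lit 32768, nat_lit 65216, nat_lit 3, nat_lit 1⟩, ⟨false, nat_lit 4096, nat_lit 40640, nat_lit 2, nat_lit 2⟩,
    ⟨true, nat_lit 128, nat_lit 37312, nat_lit 2, nat_lit 0⟩, ⟨true, nat_lit 2048, nat_lit 40512, nat_lit 2, nat_lit 1⟩, ⟨false, nat_lit 16384, nat_lit 58944, nat_lit 2, nat_lit 1⟩,
    ⟨false, nat_lit 1024, nat_lit 56896, nat_lit 2, nat_lit 2⟩, ⟨false, nat_lit 512, nat_lit 56896, nat_lit 2, nat_lit 2⟩, ⟨true, nat_lit 64, nat_lit 57280, nat_lit 2, nat_lit 4⟩,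
    ⟨false, nat_lit 8192, nat_lit 57344, nat_lit 1, nat_lit 1⟩]

def r85_4_2 : List Wr := [
    ⟨false, nat_lit 16, nat_lit 31, nat_lit 2, nat_lit 0⟩, ⟨false, nat_lit 2, nat_lit 19, nat_lit 1, nat_lit 1⟩, ⟨true, nat_lit 1, nat_lit 19, nat_lit 1, nat_lit 1⟩,
    ⟨true, nat_lit 8, nat_lit 28, nat_lit 1, nat_lit 1⟩, ⟨false, nat_lit 256, nat_lit 484, nat_lit 2, nat_lit 0⟩, ⟨false, nat_lit 32, nat_lit 292, nat_lit 1, nat_lit 1⟩,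
    ⟨true, nat_lit 4, nat_lit 316, nat_lit 2, nat_lit 0⟩, ⟨false, nat_lit 32768, nat_lit 65216, nat_lit 3, nat_lit 1⟩, ⟨false, nat_lit 4096, nat_lit 40640, nat_lit 2, nat_lit 2⟩,
    ⟨true, nat_lit 128, nat_lit 37312, nat_lit 2, nat_lit 0⟩, ⟨false, nat_lit 2048, nat_lit 40512, nat_lit 2, nat_lit 1⟩, ⟨true, nat_lit 512, nat_lit 39488, nat_lit 1, nat_lit 3⟩,
    ⟨false, nat_lit 16384, nat_lit 58432, nat_lit 1, nat_lit 3⟩, ⟨false, nat_lit 8192, nat_lit 58432, nat_lit 2, nat_lit 0⟩, ⟨false, nat_lit 1024, nat_lit 64576, nat_lit 2, nat_lit 2⟩,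
    ⟨false, nat_lit 64, nat_lit 65472, nat_lit 3, nat_lit 2⟩]

def r85_4_3 : List Wr := [
    ⟨false, nat_lit 16, nat_lit 31, nat_lit 2, nat_lit 0⟩, ⟨false, nat_lit 2, nat_lit 19, nat_lit 1, nat_lit 1⟩, ⟨true, nat_lit 1, nat_lit 19, nat_lit 1, nat_lit 1⟩,
    ⟨true, nat_lit 8, nat_lit 28, nat_lit 1, nat_lit 1⟩, ⟨false, nat_lit 32768, nat_lit 65508, nat_lit 3, nat_lit 4⟩, ⟨true, nat_lit 256, nat_lit 33252, nat_lit 2, nat_lit 1⟩,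
    ⟨false, nat_lit 4096, nat_lit 40676, nat_lit 3, nat_lit 1⟩, ⟨false, nat_lit 128, nat_lit 37348, nat_lit 2, nat_lit 2⟩, ⟨true, nat_lit 32, nat_lit 37284, nat_lit 2, nat_lit 1⟩,
    ⟨false, nat_lit 2048, nat_lit 40516, nat_lit 2, nat_lit 2⟩, ⟨false, nat_lit 512, nat_lit 39492, nat_lit 2, nat_lit 1⟩, ⟨true, nat_lit 4, nat_lit 39868, nat_lit 3, nat_lit 2⟩,
    ⟨false, nat_lit 16384, nat_lit 58432, nat_lit 2, nat_lit 0⟩, ⟨false, nat_lit 1024, nat_lit 56384, nat_lit 2, nat_lit 1⟩, ⟨true, nat_lit 64, nat_lit 57280, nat_lit 3, nat_lit 1⟩,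
    ⟨false, nat_lit 8192, nat_lit 57344, nat_lit 1, nat_lit 1⟩]

def r85_4_4 : List Wr := [
    ⟨false, nat_lit 16, nat_lit 31, nat_lit 2, nat_lit 0⟩, ⟨false, nat_lit 2, nat_lit 19, nat_lit 1, nat_lit 1⟩, ⟨true, nat_lit 1, nat_lit 19, nat_lit 1, nat_lit 1⟩,
    ⟨true, nat_lit 8, nat_lit 28, nat_lit 1, nat_lit 1⟩, ⟨false, nat_lit 32768, nat_lit 65508, nat_lit 3, nat_lit 4⟩, ⟨false, nat_lit 256, nat_lit 33252, nat_lit 2, nat_lit 1⟩,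
    ⟨true, nat_lit 32, nat_lit 33060, nat_lit 1, nat_lit 2⟩, ⟨false, nat_lit 4096, nat_lit 40644, nat_lit 3, nat_lit 0⟩, ⟨false, nat_lit 128, nat_lit 37316, nat_lit 2, nat_lit 1⟩,
    ⟨true, nat_lit 4, nat_lit 37308, nat_lit 3, nat_lit 0⟩, ⟨false, nat_lit 16384, nat_lit 60992, nat_lit 2, nat_lit 2⟩, ⟨false, nat_lit 2048, nat_lit 56896, nat_lit 2, nat_lit 2⟩,
    ⟨true, nat_lit 512, nat_lit 55872, nat_lit 2, nat_lit 1⟩, ⟨false, nat_lit 8192, nat_lit 58432, nat_lit 2, nat_lit 0⟩, ⟨false, nat_lit 1024, nat_lit 64576, nat_lit 2, nat_lit 2⟩,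
    ⟨false, nat_lit 64, nat_lit 65472, nat_lit 3, nat_lit 2⟩]

def r85_4_5 : List Wr := [
    ⟨false, nat_lit 16, nat_lit 31, nat_lit 2, nat_lit 0⟩, ⟨false, nat_lit 2, nat_lit 19, nat_lit 1, nat_lit 1⟩, ⟨true, nat_lit 1, nat_lit 19, nat_lit 1, nat_lit 1⟩,
    ⟨false, nat_lit 8, nat_lit 28, nat_lit 1, nat_lit 1⟩, ⟨true, nat_lit 4, nat_lit 28, nat_lit 1, nat_lit 1⟩, ⟨false, nat_lit 32768, nat_lit 65504, nat_lit 3, nat_lit 3⟩,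
    ⟨false, nat_lit 256, nat_lit 33248, nat_lit 2, nat_lit 0⟩, ⟨true, nat_lit 32, nat_lit 33056, nat_lit 1, nat_lit 1⟩, ⟨false, nat_lit 4096, nat_lit 40640, nat_lit 2, nat_lit 2⟩,
    ⟨false, nat_lit 2048, nat_lit 40640, nat_lit 2, nat_lit 2⟩, ⟨false, nat_lit 512, nat_lit 39616, nat_lit 2, nat_lit 1⟩, ⟨true, nat_lit 128, nat_lit 39872, nat_lit 2, nat_lit 2⟩,
    ⟨false, nat_lit 16384, nat_lit 58432, nat_lit 2, nat_lit 0⟩, ⟨false, nat_lit 1024, nat_lit 56384, nat_lit 2, nat_lit 1⟩, ⟨true, nat_lit 64, nat_lit 57280, nat_lit 3, nat_lit 1⟩,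
    ⟨false, nat_lit 8192, nat_lit 57344, nat_lit 1, nat_lit 1⟩]

def r85_4_6 : List Wr := [
    ⟨false, nat_lit 16, nat_lit 31, nat_lit 2, nat_lit 0⟩, ⟨false, nat_lit 2, nat_lit 19, nat_lit 1, nat_lit 1⟩, ⟨true, nat_lit 1, nat_lit 19, nat_lit 1, nat_lit 1⟩,
    ⟨true, nat_lit 8, nat_lit 28, nat_lit 1, nat_lit 1⟩, ⟨false, nat_lit 256, nat_lit 484, nat_lit 2, nat_lit 0⟩, ⟨false, nat_lit 32, nat_lit 292, nat_lit 1, nat_lit 1⟩,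
    ⟨true, nat_lit 4, nat_lit 316, nat_lit 2, nat_lit 0⟩, ⟨false, nat_lit 32768, nat_lit 65216, nat_lit 2, nat_lit 4⟩, ⟨false, nat_lit 4096, nat_lit 40640, nat_lit 2, nat_lit 2⟩,
    ⟨false, nat_lit 2048, nat_lit 40640, nat_lit 2, nat_lit 2⟩, ⟨false, nat_lit 512, nat_lit 39616, nat_lit 2, nat_lit 1⟩, ⟨true, nat_lit 128, nat_lit 39872, nat_lit 2, nat_lit 2⟩,
    ⟨false, nat_lit 16384, nat_lit 58432, nat_lit 2, nat_lit 0⟩, ⟨false, nat_lit 1024, nat_lit 56384, nat_lit 2, nat_lit 1⟩, ⟨true, nat_lit 64, nat_lit 57280, nat_lit 3, nat_lit 1⟩,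
    ⟨false, nat_lit 8192, nat_lit 57344, nat_lit 1, nat_lit 1⟩]

def r85_4_7 : List Wr := [
    ⟨false, nat_lit 16, nat_lit 31, nat_lit 2, nat_lit 0⟩, ⟨false, nat_lit 2, nat_lit 19, nat_lit 1, nat_lit 1⟩, ⟨true, nat_lit 1, nat_lit 19, nat_lit 1, nat_lit 1⟩,
    ⟨true, nat_lit 8, nat_lit 28, nat_lit 1, nat_lit 1⟩, ⟨false, nat_lit 256, nat_lit 484, nat_lit 2, nat_lit 0⟩, ⟨false, nat_lit 32, nat_lit 292, nat_lit 1, nat_lit 1⟩,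
    ⟨true, nat_lit 4, nat_lit 316, nat_lit 2, nat_lit 0⟩, ⟨true, nat_lit 128, nat_lit 448, nat_lit 1, nat_lit 1⟩, ⟨false, nat_lit 32768, nat_lit 65088, nat_lit 2, nat_lit 3⟩,
    ⟨true, nat_lit 4096, nat_lit 40512, nat_lit 2, nat_lit 1⟩, ⟨false, nat_lit 16384, nat_lit 60992, nat_lit 2, nat_lit 2⟩, ⟨false, nat_lit 2048, nat_lit 56896, nat_lit 2, nat_lit 2⟩,
    ⟨true, nat_lit 512, nat_lit 55872, nat_lit 2, nat_lit 1⟩, ⟨false, nat_lit 8192, nat_lit 58432, nat_lit 2, nat_lit 0⟩, ⟨false, nat_lit 1024, nat_lit 64576, nat_lit 2, nat_lit 2⟩,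
    ⟨false, nat_lit 64, nat_lit 65472, nat_lit 3, nat_lit 2⟩]

def l85_4 : List (Nat × List Wr × Nat) := [
  (nat_lit 2, r85_4_0, nat_lit 0), (nat_lit 6, r85_4_1, nat_lit 0), (nat_lit 6, r85_4_2, nat_lit 0),
  (nat_lit 6, r85_4_3, nat_lit 0), (nat_lit 6, r85_4_4, nat_lit 0), (nat_lit 6, r85_4_5, nat_lit 0),
  (nat_lit 6, r85_4_6, nat_lit 0), (nat_lit 6, r85_4_7, nat_lit 0)]

end Pool.Agent.EC4.Run
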