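import Pool.Agent.Lib.MP_ec4eff_co.R5.Srch

/-! Generated file (project R5): results of the first lune -/

namespace Pool.Agent.EC4.Run

def r88_0_0 : List Wr := [
    ⟨false, nat_lit 32, nat_lit 63, nat_lit 2, nat_lit 1⟩, ⟨false, nat_lit 4, nat_lit 39, nat_lit 1, nat_lit 2⟩, ⟨true, nat_lit 2, nat_lit 39, nat_lit 1, nat_lit 2⟩,
    ⟨false, nat_lit 256, nat_lit 473, nat_lit 2, nat_lit 1⟩, ⟨false, nat_lit 16, nat_lit 313, nat_lit 2, nat_lit 0⟩, ⟨true, nat_lit 1, nat_lit 311, nat_lit 2, nat_lit 1⟩,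
    ⟨false, nat_lit 2048, nat_lit 3784, nat_lit 2, nat_lit 1⟩, ⟨false, nat_lit 128, nat_lit 2504, nat_lit 2, nat_lit 0⟩, ⟨true, nat_lit 8, nat_lit 2488, nat_lit 2, nat_lit 1⟩,
    ⟨false, nat_lit 16384, nat_lit 30272, nat_lit 2, nat_lit 1⟩, ⟨false, nat_lit 1024, nat_lit 20032, nat_lit 2, nat_lit 0⟩, ⟨true, nat_lit 64, nat_lit 19904, nat_lit 2, nat_lit 1⟩,
    ⟨true, nat_lit 8192, nat_lit 29184, nat_lit 1, nat_lit 2⟩, ⟨false, nat_lit 32768, nat_lit 37376, nat_lit 1, nat_lit 1⟩, ⟨false, nat_lit 4096, nat_lit 61952, nat_lit 2, nat_lit 0⟩,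
    ⟨false, nat_lit 512, nat_lit 65024, nat_lit 2, nat_lit 2⟩]

def r88_0_1 : List Wr := [
    ⟨false, nat_lit 32, nat_lit 63, nat_lit 2, nat_lit 1⟩, ⟨false, nat_lit 4, nat_lit 39, nat_lit 1, nat_lit 2⟩, ⟨true, nat_lit 2, nat_lit 39, nat_lit 1, nat_lit 2⟩,
    ⟨false, nat_lit 256, nat_lit 473, nat_lit 2, nat_lit 1⟩, ⟨false, nat_lit 16, nat_lit 313, nat_lit 2, nat_lit 0⟩, ⟨true, nat_lit 1, nat_lit 311, nat_lit 2, nat_lit 1⟩,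
    ⟨false, nat_lit 2048, nat_lit 3784, nat_lit 2, nat_lit 1⟩, ⟨false, nat_lit 128, nat_lit 2504, nat_lit 2, nat_lit 0⟩, ⟨true, nat_lit 8, nat_lit 2488, nat_lit 2, nat_lit 1⟩,
    ⟨false, nat_lit 16384, nat_lit 30272, nat_lit 2, nat_lit 1⟩, ⟨false, nat_lit 1024, nat_lit 20032, nat_lit 2, nat_lit 0⟩, ⟨true, nat_lit 64, nat_lit 19904, nat_lit 2, nat_lit 1⟩,
    ⟨false, nat_lit 32768, nat_lit 45568, nat_lit 1, nat_lit 2⟩, ⟨false, nat_lit 8192, nat_lit 61952, nat_lit 2, nat_lit 0⟩, ⟨true, nat_lit 512, nat_lit 60928, nat_lit 2, nat_lit 1⟩,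
    ⟨false, nat_lit 4096, nat_lit 61440, nat_lit 1, nat_lit 2⟩]

def r88_0_2 : List Wr := [
    ⟨false, nat_lit 32, nat_lit 63, nat_lit 2, nat_lit 1⟩, ⟨false, nat_lit 2, nat_lit 35, nat_lit 1, nat_lit 1⟩, ⟨true, nat_lit 1, nat_lit 35, nat_lit 1, nat_lit 1⟩,
    ⟨false, nat_lit 256, nat_lit 476, nat_lit 2, nat_lit 1⟩, ⟨false, nat_lit 16, nat_lit 316, nat_lit 2, nat_lit 0⟩, ⟨true, nat_lit 4, nat_lit 308, nat_lit 1, nat_lit 2⟩,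
    ⟨false, nat_lit 2048, nat_lit 3784, nat_lit 2, nat_lit 1⟩, ⟨false, nat_lit 128, nat_lit 2504, nat_lit 2, nat_lit 0⟩, ⟨true, nat_lit 8, nat_lit 2488, nat_lit 2, nat_lit 1⟩,
    ⟨true, nat_lit 1024, nat_lit 3648, nat_lit 1, nat_lit 2⟩, ⟨false, nat_lit 16384, nat_lit 29248, nat_lit 2, nat_lit 0⟩, ⟨false, nat_lit 512, nat_lit 20032, nat_lit 2, nat_lit 0⟩,
    ⟨true, nat_lit 64, nat_lit 20416, nat_lit 2, nat_lit 2⟩, ⟨false, nat_lit 8192, nat_lit 28672, nat_lit 1, nat_lit 1⟩, ⟨true, nat_lit 4096, nat_lit 28672, nat_lit 1, nat_lit 1⟩,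
    ⟨false, nat_lit 32768, nat_lit 32768, nat_lit 0, nat_lit 2⟩]

def r88_0_3 : List Wr := [
    ⟨false, nat_lit 32, nat_lit 63, nat_lit 2, nat_lit 1⟩, ⟨false, nat_lit 2, nat_lit 35, nat_lit 1, nat_lit 1⟩, ⟨true, nat_lit 1, nat_lit 35, nat_lit 1, nat_lit 1⟩,
    ⟨false, nat_lit 256, nat_lit 476, nat_lit 2, nat_lit 1⟩, ⟨false, nat_lit 16, nat_lit 316, nat_lit 2, nat_lit 0⟩, ⟨true, nat_lit 4, nat_lit 308, nat_lit 1, nat_lit 2⟩,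
    ⟨false, nat_lit 2048, nat_lit 3784, nat_lit 2, nat_lit 1⟩, ⟨false, nat_lit 128, nat_lit 2504, nat_lit 2, nat_lit 0⟩, ⟨true, nat_lit 8, nat_lit 2488, nat_lit 2, nat_lit 1⟩,
    ⟨false, nat_lit 16384, nat_lit 30272, nat_lit 2, nat_lit 1⟩, ⟨false, nat_lit 1024, nat_lit 20032, nat_lit 2, nat_lit 0⟩, ⟨true, nat_lit 64, nat_lit 19904, nat_lit 2, nat_lit 1⟩,
    ⟨true, nat_lit 512, nat_lit 19968, nat_lit 1, nat_lit 2⟩, ⟨false, nat_lit 8192, nat_lit 28672, nat_lit 1, nat_lit 1⟩, ⟨true, nat_lit 4096, nat_lit 28672, nat_lit 1, nat_lit 1⟩,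
    ⟨false, nat_lit 32768, nat_lit 32768, nat_lit 0, nat_lit 2⟩]

def r88_0_4 : List Wr := [
    ⟨true, nat_lit 1, nat_lit 1, nat_lit 0, nat_lit 2⟩, ⟨false, nat_lit 32, nat_lit 62, nat_lit 2, nat_lit 0⟩, ⟨false, nat_lit 4, nat_lit 38, nat_lit 1, nat_lit 1⟩,
    ⟨true, nat_lit 2, nat_lit 38, nat_lit 1, nat_lit 1⟩, ⟨true, nat_lit 16, nat_lit 56, nat_lit 1, nat_lit 1⟩, ⟨true, nat_lit 256, nat_lit 456, nat_lit 1, nat_lit 2⟩,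
    ⟨false, nat_lit 2048, nat_lit 3784, nat_lit 2, nat_lit 1⟩, ⟨false, nat_lit 128, nat_lit 2504, nat_lit 2, nat_lit 0⟩, ⟨true, nat_lit 8, nat_lit 2488, nat_lit 2, nat_lit 1⟩,
    ⟨false, nat_lit 16384, nat_lit 30272, nat_lit 2, nat_lit 1⟩, ⟨false, nat_lit 1024, nat_lit 20032, nat_lit 2, nat_lit 0⟩, ⟨true, nat_lit 64, nat_lit 19904, nat_lit 2, nat_lit 1⟩,
    ⟨true, nat_lit 8192, nat_lit 29184, nat_lit 1, nat_lit 2⟩, ⟨false, nat_lit 32768, nat_lit 37376, nat_lit 1, nat_lit 1⟩, ⟨false, nat_lit 4096, nat_lit 61952, nat_lit 2, nat_lit 0⟩,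
    ⟨false, nat_lit 512, nat_lit 65024, nat_lit 2, nat_lit 2⟩]

def l88_0 : List (Nat × List Wr × Nat) := [
  (nat_lit 4, r88_0_0, nat_lit 0), (nat_lit 4, r88_0_1, nat_lit 0), (nat_lit 6, r88_0_2, nat_lit 0),
  (nat_lit 6, r88_0_3, nat_lit 0), (nat_lit 6, r88_0_4, nat_lit 0)]

def r88_1_0 : List Wr := [
    ⟨false, nat_lit 4, nat_lit 7, nat_lit 1, nat_lit 1⟩, ⟨false, nat_lit 2, nat_lit 7, nat_lit 1, nat_lit 1⟩, ⟨true, nat_lit 1, nat_lit 7, nat_lit 1, nat_lit 1⟩,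
    ⟨false, nat_lit 32, nat_lit 56, nat_lit 1, nat_lit 1⟩, ⟨true, nat_lit 16, nat_lit 56, nat_lit 1, nat_lit 1⟩, ⟨true, nat_lit 256, nat_lit 456, nat_lit 1, nat_lit 2⟩,
    ⟨false, nat_lit 2048, nat_lit 3784, nat_lit 2, nat_lit 1⟩, ⟨false, nat_lit 128, nat_lit 2504, nat_lit 2, nat_lit 0⟩, ⟨true, nat_lit 8, nat_lit 2488, nat_lit 2, nat_lit 1⟩,
    ⟨false, nat_lit 16384, nat_lit 30272, nat_lit 2, nat_lit 1⟩, ⟨false, nat_lit 1024, nat_lit 20032, nat_lit 2, nat_lit 0⟩, ⟨true, nat_lit 64, nat_lit 19904, nat_lit 2, nat_lit 1⟩,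
    ⟨true, nat_lit 8192, nat_lit 29184, nat_lit 1, nat_lit 2⟩, ⟨false, nat_lit 32768, nat_lit 37376, nat_lit 1, nat_lit 1⟩, ⟨false, nat_lit 4096, nat_lit 61952, nat_lit 2, nat_lit 0⟩,
    ⟨false, nat_lit 512, nat_lit 65024, nat_lit 2, nat_lit 2⟩]

def r88_1_1 : List Wr := [
    ⟨true, nat_lit 1, nat_lit 1, nat_lit 0, nat_lit 2⟩, ⟨false, nat_lit 32, nat_lit 62, nat_lit 2, nat_lit 0⟩, ⟨false, nat_lit 4, nat_lit 38, nat_lit 1, nat_lit 1⟩,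
    ⟨true, nat_lit 2, nat_lit 38, nat_lit 1, nat_lit 1⟩, ⟨true, nat_lit 16, nat_lit 56, nat_lit 1, nat_lit 1⟩, ⟨true, nat_lit 256, nat_lit 456, nat_lit 1, nat_lit 2⟩,
    ⟨false, nat_lit 2048, nat_lit 3784, nat_lit 2, nat_lit 1⟩, ⟨false, nat_lit 128, nat_lit 2504, nat_lit 2, nat_lit 0⟩, ⟨true, nat_lit 8, nat_lit 2488, nat_lit 2, nat_lit 1⟩,
    ⟨false, nat_lit 16384, nat_lit 30272, nat_lit 2, nat_lit 1⟩, ⟨false, nat_lit 1024, nat_lit 20032, nat_lit 2, nat_lit 0⟩, ⟨true, nat_lit 64, nat_lit 19904, nat_lit 2, nat_lit 1⟩,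
    ⟨false, nat_lit 32768, nat_lit 45568, nat_lit 1, nat_lit 2⟩, ⟨false, nat_lit 8192, nat_lit 61952, nat_lit 2, nat_lit 0⟩, ⟨true, nat_lit 512, nat_lit 60928, nat_lit 2, nat_lit 1⟩,
    ⟨false, nat_lit 4096, nat_lit 61440, nat_lit 1, nat_lit 2⟩]

def r88_1_2 : List Wr := [
    ⟨false, nat_lit 4, nat_lit 7, nat_lit 1, nat_lit 1⟩, ⟨false, nat_lit 2, nat_lit 7, nat_lit 1, nat_lit 1⟩, ⟨true, nat_lit 1, nat_lit 7, nat_lit 1, nat_lit 1⟩,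
    ⟨false, nat_lit 32, nat_lit 56, nat_lit 1, nat_lit 1⟩, ⟨true, nat_lit 16, nat_lit 56, nat_lit 1, nat_lit 1⟩, ⟨true, nat_lit 256, nat_lit 456, nat_lit 1, nat_lit 2⟩,
    ⟨false, nat_lit 2048, nat_lit 3784, nat_lit 2, nat_lit 1⟩, ⟨false, nat_lit 128, nat_lit 2504, nat_lit 2, nat_lit 0⟩, ⟨true, nat_lit 8, nat_lit 2488, nat_lit 2, nat_lit 1⟩,
    ⟨false, nat_lit 16384, nat_lit 30272, nat_lit 2, nat_lit 1⟩, ⟨false, nat_lit 1024, nat_lit 20032, nat_lit 2, nat_lit 0⟩, ⟨true, nat_lit 64, nat_lit 19904, nat_lit 2, nat_lit 1⟩,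
    ⟨false, nat_lit 32768, nat_lit 45568, nat_lit 1, nat_lit 2⟩, ⟨false, nat_lit 8192, nat_lit 61952, nat_lit 2, nat_lit 0⟩, ⟨true, nat_lit 512, nat_lit 60928, nat_lit 2, nat_lit 1⟩,
    ⟨false, nat_lit 4096, nat_lit 61440, nat_lit 1, nat_lit 2⟩]

def r88_1_3 : List Wr := [
    ⟨true, nat_lit 1, nat_lit 1, nat_lit 0, nat_lit 2⟩, ⟨false, nat_lit 32, nat_lit 62, nat_lit 2, nat_lit 0⟩, ⟨false, nat_lit 4, nat_lit 38, nat_lit 1, nat_lit 1⟩,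
    ⟨true, nat_lit 2, nat_lit 38, nat_lit 1, nat_lit 1⟩, ⟨true, nat_lit 16, nat_lit 56, nat_lit 1, nat_lit 1⟩, ⟨false, nat_lit 2048, nat_lit 4040, nat_lit 2, nat_lit 2⟩,
    ⟨false, nat_lit 256, nat_lit 2504, nat_lit 2, nat_lit 0⟩, ⟨true, nat_lit 8, nat_lit 2360, nat_lit 2, nat_lit 0⟩, ⟨true, nat_lit 128, nat_lit 2496, nat_lit 1, nat_lit 2⟩,
    ⟨false, nat_lit 16384, nat_lit 30272, nat_lit 2, nat_lit 1⟩, ⟨false, nat_lit 1024, nat_lit 20032, nat_lit 2, nat_lit 0⟩, ⟨true, nat_lit 64, nat_lit 19904, nat_lit 2, nat_lit 1⟩,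
    ⟨true, nat_lit 8192, nat_lit 29184, nat_lit 1, nat_lit 2⟩, ⟨false, nat_lit 32768, nat_lit 37376, nat_lit 1, nat_lit 1⟩, ⟨false, nat_lit 4096, nat_lit 61952, nat_lit 2, nat_lit 0⟩,
    ⟨false, nat_lit 512, nat_lit 65024, nat_lit 2, nat_lit 2⟩]

def r88_1_4 : List Wr := [
    ⟨false, nat_lit 4, nat_lit 7, nat_lit 1, nat_lit 1⟩, ⟨false, nat_lit 2, nat_lit 7, nat_lit 1, nat_lit 1⟩, ⟨true, nat_lit 1, nat_lit 7, nat_lit 1, nat_lit 1⟩,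
    ⟨false, nat_lit 32, nat_lit 56, nat_lit 1, nat_lit 1⟩, ⟨true, nat_lit 16, nat_lit 56, nat_lit 1, nat_lit 1⟩, ⟨false, nat_lit 2048, nat_lit 4040, nat_lit 2, nat_lit 2⟩,
    ⟨false, nat_lit 256, nat_lit 2504, nat_lit 2, nat_lit 0⟩, ⟨true, nat_lit 8, nat_lit 2360, nat_lit 2, nat_lit 0⟩, ⟨true, nat_lit 128, nat_lit 2496, nat_lit 1, nat_lit 2⟩,
    ⟨false, nat_lit 16384, nat_lit 30272, nat_lit 2, nat_lit 1⟩, ⟨false, nat_lit 1024, nat_lit 20032, nat_lit 2, nat_lit 0⟩, ⟨true, nat_lit 64, nat_lit 19904, nat_lit 2, nat_lit 1⟩,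
    ⟨true, nat_lit 8192, nat_lit 29184, nat_lit 1, nat_lit 2⟩, ⟨false, nat_lit 32768, nat_lit 37376, nat_lit 1, nat_lit 1⟩, ⟨false, nat_lit 4096, nat_lit 61952, nat_lit 2, nat_lit 0⟩,
    ⟨false, nat_lit 512, nat_lit 65024, nat_lit 2, nat_lit 2⟩]

def l88_1 : List (Nat × List Wr × Nat) := [
  (nat_lit 6, r88_1_0, nat_lit 0), (nat_lit 6, r88_1_1, nat_lit 0), (nat_lit 6, r88_1_2, nat_lit 0),
  (nat_lit 6, r88_1_3, nat_lit 0), (nat_lit 6, r88_1_4, nat_lit 0)]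

def r88_2_0 : List Wr := [
    ⟨true, nat_lit 1, nat_lit 1, nat_lit 0, nat_lit 2⟩, ⟨false, nat_lit 32, nat_lit 62, nat_lit 2, nat_lit 0⟩, ⟨false, nat_lit 4, nat_lit 38, nat_lit 1, nat_lit 1⟩,
    ⟨true, nat_lit 2, nat_lit 38, nat_lit 1, nat_lit 1⟩, ⟨true, nat_lit 16, nat_lit 56, nat_lit 1, nat_lit 1⟩, ⟨false, nat_lit 2048, nat_lit 4040, nat_lit 2, nat_lit 2⟩,
    ⟨false, nat_lit 256, nat_lit 2504, nat_lit 2, nat_lit 0⟩, ⟨true, nat_lit 8, nat_lit 2360, nat_lit 2, nat_lit 0⟩, ⟨true, nat_lit 128, nat_lit 2496, nat_lit 1, nat_lit 2⟩,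
    ⟨false, nat_lit 16384, nat_lit 30272, nat_lit 2, nat_lit 1⟩, ⟨false, nat_lit 1024, nat_lit 20032, nat_lit 2, nat_lit 0⟩, ⟨true, nat_lit 64, nat_lit 19904, nat_lit 2, nat_lit 1⟩,
    ⟨false, nat_lit 32768, nat_lit 45568, nat_lit 1, nat_lit 2⟩, ⟨false, nat_lit 8192, nat_lit 61952, nat_lit 2, nat_lit 0⟩, ⟨true, nat_lit 512, nat_lit 60928, nat_lit 2, nat_lit 1⟩,
    ⟨false, nat_lit 4096, nat_lit 61440, nat_lit 1, nat_lit 2⟩]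

def r88_2_1 : List Wr := [
    ⟨false, nat_lit 4, nat_lit 7, nat_lit 1, nat_lit 1⟩, ⟨false, nat_lit 2, nat_lit 7, nat_lit 1, nat_lit 1⟩, ⟨true, nat_lit 1, nat_lit 7, nat_lit 1, nat_lit 1⟩,
    ⟨false, nat_lit 32, nat_lit 56, nat_lit 1, nat_lit 1⟩, ⟨true, nat_lit 16, nat_lit 56, nat_lit 1, nat_lit 1⟩, ⟨false, nat_lit 2048, nat_lit 4040, nat_lit 2, nat_lit 2⟩,
    ⟨false, nat_lit 256, nat_lit 2504, nat_lit 2, nat_lit 0⟩, ⟨true, nat_lit 8, nat_lit 2360, nat_lit 2, nat_lit 0⟩, ⟨true, nat_lit 128, nat_lit 2496, nat_lit 1, nat_lit 2⟩,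
    ⟨false, nat_lit 16384, nat_lit 30272, nat_lit 2, nat_lit 1⟩, ⟨false, nat_lit 1024, nat_lit 20032, nat_lit 2, nat_lit 0⟩, ⟨true, nat_lit 64, nat_lit 19904, nat_lit 2, nat_lit 1⟩,
    ⟨false, nat_lit 32768, nat_lit 45568, nat_lit 1, nat_lit 2⟩, ⟨false, nat_lit 8192, nat_lit 61952, nat_lit 2, nat_lit 0⟩, ⟨true, nat_lit 512, nat_lit 60928, nat_lit 2, nat_lit 1⟩,
    ⟨false, nat_lit 4096, nat_lit 61440, nat_lit 1, nat_lit 2⟩]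

def l88_2 : List (Nat × List Wr × Nat) := [
  (nat_lit 6, r88_2_0, nat_lit 0), (nat_lit 6, r88_2_1, nat_lit 0)]

end Pool.Agent.EC4.Run
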