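import Pool.Agent.Lib.MP_ec4eff_co.R5.Srch

/-! Generated file (project R5): results of the first lune -/

namespace Pool.Agent.EC4.Run

def r2_0_0 : List Wr := [
    ⟨false, nat_lit 4096, nat_lit 8191, nat_lit 4, nat_lit 2⟩, ⟨false, nat_lit 32, nat_lit 4159, nat_lit 2, nat_lit 2⟩, ⟨true, nat_lit 4, nat_lit 4135, nat_lit 2, nat_lit 0⟩,
    ⟨false, nat_lit 128, nat_lit 4315, nat_lit 2, nat_lit 2⟩, ⟨true, nat_lit 16, nat_lit 4283, nat_lit 2, nat_lit 2⟩, ⟨false, nat_lit 512, nat_lit 4939, nat_lit 2, nat_lit 2⟩,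
    ⟨false, nat_lit 64, nat_lit 4811, nat_lit 2, nat_lit 2⟩, ⟨true, nat_lit 2, nat_lit 4855, nat_lit 3, nat_lit 1⟩, ⟨false, nat_lit 2048, nat_lit 7433, nat_lit 2, nat_lit 1⟩,
    ⟨false, nat_lit 256, nat_lit 6921, nat_lit 2, nat_lit 1⟩, ⟨true, nat_lit 8, nat_lit 7161, nat_lit 3, nat_lit 2⟩, ⟨false, nat_lit 32768, nat_lit 58369, nat_lit 2, nat_lit 0⟩,
    ⟨false, nat_lit 1024, nat_lit 39937, nat_lit 2, nat_lit 0⟩, ⟨true, nat_lit 1, nat_lit 40959, nat_lit 4, nat_lit 3⟩, ⟨false, nat_lit 16384, nat_lit 57344, nat_lit 1, nat_lit 1⟩,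
    ⟨false, nat_lit 8192, nat_lit 57344, nat_lit 1, nat_lit 1⟩]

def r2_0_1 : List Wr := [
    ⟨true, nat_lit 4, nat_lit 7, nat_lit 1, nat_lit 1⟩, ⟨false, nat_lit 128, nat_lit 251, nat_lit 2, nat_lit 2⟩, ⟨false, nat_lit 32, nat_lit 187, nat_lit 2, nat_lit 1⟩,
    ⟨true, nat_lit 2, nat_lit 167, nat_lit 2, nat_lit 0⟩, ⟨false, nat_lit 4096, nat_lit 8025, nat_lit 3, nat_lit 1⟩, ⟨false, nat_lit 64, nat_lit 4313, nat_lit 2, nat_lit 1⟩,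
    ⟨true, nat_lit 16, nat_lit 4345, nat_lit 2, nat_lit 2⟩, ⟨true, nat_lit 512, nat_lit 4873, nat_lit 1, nat_lit 3⟩, ⟨false, nat_lit 2048, nat_lit 7433, nat_lit 2, nat_lit 1⟩,
    ⟨false, nat_lit 256, nat_lit 6921, nat_lit 2, nat_lit 1⟩, ⟨true, nat_lit 8, nat_lit 7161, nat_lit 3, nat_lit 2⟩, ⟨false, nat_lit 32768, nat_lit 58369, nat_lit 2, nat_lit 0⟩,
    ⟨false, nat_lit 1024, nat_lit 39937, nat_lit 2, nat_lit 0⟩, ⟨true, nat_lit 1, nat_lit 40959, nat_lit 4, nat_lit 3⟩, ⟨false, nat_lit 16384, nat_lit 57344, nat_lit 1, nat_lit 1⟩,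
    ⟨false, nat_lit 8192, nat_lit 57344, nat_lit 1, nat_lit 1⟩]

def r2_0_2 : List Wr := [
    ⟨true, nat_lit 4, nat_lit 7, nat_lit 1, nat_lit 1⟩, ⟨false, nat_lit 128, nat_lit 251, nat_lit 2, nat_lit 2⟩, ⟨false, nat_lit 32, nat_lit 187, nat_lit 2, nat_lit 1⟩,
    ⟨true, nat_lit 2, nat_lit 167, nat_lit 2, nat_lit 0⟩, ⟨false, nat_lit 4096, nat_lit 8025, nat_lit 3, nat_lit 1⟩, ⟨false, nat_lit 64, nat_lit 4313, nat_lit 2, nat_lit 1⟩,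
    ⟨true, nat_lit 16, nat_lit 4345, nat_lit 2, nat_lit 2⟩, ⟨false, nat_lit 2048, nat_lit 7945, nat_lit 2, nat_lit 2⟩, ⟨false, nat_lit 512, nat_lit 6921, nat_lit 2, nat_lit 1⟩,
    ⟨true, nat_lit 8, nat_lit 6905, nat_lit 3, nat_lit 1⟩, ⟨true, nat_lit 256, nat_lit 6913, nat_lit 1, nat_lit 3⟩, ⟨false, nat_lit 32768, nat_lit 58369, nat_lit 2, nat_lit 0⟩,
    ⟨false, nat_lit 1024, nat_lit 39937, nat_lit 2, nat_lit 0⟩, ⟨true, nat_lit 1, nat_lit 40959, nat_lit 4, nat_lit 3⟩, ⟨false, nat_lit 16384, nat_lit 57344, nat_lit 1, nat_lit 1⟩,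
    ⟨false, nat_lit 8192, nat_lit 57344, nat_lit 1, nat_lit 1⟩]

def r2_0_3 : List Wr := [
    ⟨true, nat_lit 4, nat_lit 7, nat_lit 1, nat_lit 1⟩, ⟨false, nat_lit 4096, nat_lit 8187, nat_lit 4, nat_lit 1⟩, ⟨false, nat_lit 32, nat_lit 4155, nat_lit 2, nat_lit 1⟩,
    ⟨true, nat_lit 2, nat_lit 4135, nat_lit 2, nat_lit 0⟩, ⟨false, nat_lit 512, nat_lit 5081, nat_lit 2, nat_lit 3⟩, ⟨false, nat_lit 64, nat_lit 4697, nat_lit 2, nat_lit 1⟩,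
    ⟨true, nat_lit 16, nat_lit 4729, nat_lit 2, nat_lit 2⟩, ⟨false, nat_lit 32768, nat_lit 60809, nat_lit 3, nat_lit 1⟩, ⟨false, nat_lit 256, nat_lit 37769, nat_lit 2, nat_lit 2⟩,
    ⟨true, nat_lit 8, nat_lit 37753, nat_lit 3, nat_lit 1⟩, ⟨false, nat_lit 2048, nat_lit 40065, nat_lit 2, nat_lit 1⟩, ⟨true, nat_lit 128, nat_lit 39809, nat_lit 2, nat_lit 2⟩,
    ⟨false, nat_lit 16384, nat_lit 58369, nat_lit 2, nat_lit 0⟩, ⟨false, nat_lit 1024, nat_lit 56321, nat_lit 2, nat_lit 1⟩, ⟨true, nat_lit 1, nat_lit 57343, nat_lit 4, nat_lit 4⟩,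
    ⟨false, nat_lit 8192, nat_lit 57344, nat_lit 1, nat_lit 1⟩]

def r2_0_4 : List Wr := [
    ⟨true, nat_lit 4, nat_lit 7, nat_lit 1, nat_lit 1⟩, ⟨false, nat_lit 4096, nat_lit 8187, nat_lit 4, nat_lit 1⟩, ⟨false, nat_lit 32, nat_lit 4155, nat_lit 2, nat_lit 1⟩,
    ⟨true, nat_lit 2, nat_lit 4135, nat_lit 2, nat_lit 0⟩, ⟨false, nat_lit 512, nat_lit 5081, nat_lit 2, nat_lit 3⟩, ⟨false, nat_lit 64, nat_lit 4697, nat_lit 2, nat_lit 1⟩,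
    ⟨false, nat_lit 16, nat_lit 4729, nat_lit 2, nat_lit 2⟩, ⟨true, nat_lit 8, nat_lit 4729, nat_lit 2, nat_lit 2⟩, ⟨false, nat_lit 2048, nat_lit 7553, nat_lit 2, nat_lit 1⟩,
    ⟨false, nat_lit 256, nat_lit 7041, nat_lit 2, nat_lit 1⟩, ⟨true, nat_lit 1, nat_lit 7039, nat_lit 3, nat_lit 3⟩, ⟨false, nat_lit 32768, nat_lit 58496, nat_lit 2, nat_lit 0⟩,
    ⟨false, nat_lit 1024, nat_lit 40064, nat_lit 2, nat_lit 0⟩, ⟨true, nat_lit 128, nat_lit 40832, nat_lit 2, nat_lit 2⟩, ⟨false, nat_lit 16384, nat_lit 57344, nat_lit 1, nat_lit 1⟩,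
    ⟨false, nat_lit 8192, nat_lit 57344, nat_lit 1, nat_lit 1⟩]

def r2_0_5 : List Wr := [
    ⟨true, nat_lit 4, nat_lit 7, nat_lit 1, nat_lit 1⟩, ⟨false, nat_lit 4096, nat_lit 8187, nat_lit 4, nat_lit 1⟩, ⟨false, nat_lit 32, nat_lit 4155, nat_lit 2, nat_lit 1⟩,
    ⟨true, nat_lit 2, nat_lit 4135, nat_lit 2, nat_lit 0⟩, ⟨false, nat_lit 64, nat_lit 4185, nat_lit 1, nat_lit 3⟩, ⟨true, nat_lit 16, nat_lit 4217, nat_lit 2, nat_lit 1⟩,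
    ⟨false, nat_lit 512, nat_lit 5001, nat_lit 2, nat_lit 1⟩, ⟨false, nat_lit 8, nat_lit 4729, nat_lit 2, nat_lit 2⟩, ⟨true, nat_lit 1, nat_lit 4735, nat_lit 3, nat_lit 1⟩,
    ⟨false, nat_lit 32768, nat_lit 60800, nat_lit 2, nat_lit 2⟩, ⟨false, nat_lit 2048, nat_lit 40320, nat_lit 2, nat_lit 1⟩, ⟨true, nat_lit 256, nat_lit 39808, nat_lit 2, nat_lit 1⟩,
    ⟨false, nat_lit 16384, nat_lit 58496, nat_lit 2, nat_lit 0⟩, ⟨false, nat_lit 1024, nat_lit 56448, nat_lit 2, nat_lit 1⟩, ⟨true, nat_lit 128, nat_lit 57216, nat_lit 2, nat_lit 3⟩,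
    ⟨false, nat_lit 8192, nat_lit 57344, nat_lit 1, nat_lit 1⟩]

def r2_0_6 : List Wr := [
    ⟨true, nat_lit 4, nat_lit 7, nat_lit 1, nat_lit 1⟩, ⟨false, nat_lit 4096, nat_lit 8187, nat_lit 4, nat_lit 1⟩, ⟨false, nat_lit 32, nat_lit 4155, nat_lit 2, nat_lit 1⟩,
    ⟨true, nat_lit 2, nat_lit 4135, nat_lit 2, nat_lit 0⟩, ⟨true, nat_lit 64, nat_lit 4185, nat_lit 1, nat_lit 3⟩, ⟨false, nat_lit 32768, nat_lit 61337, nat_lit 3, nat_lit 3⟩,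
    ⟨false, nat_lit 256, nat_lit 37273, nat_lit 2, nat_lit 2⟩, ⟨true, nat_lit 16, nat_lit 37241, nat_lit 3, nat_lit 0⟩, ⟨false, nat_lit 2048, nat_lit 40585, nat_lit 3, nat_lit 0⟩,
    ⟨false, nat_lit 128, nat_lit 39305, nat_lit 2, nat_lit 2⟩, ⟨true, nat_lit 1, nat_lit 39415, nat_lit 3, nat_lit 3⟩, ⟨true, nat_lit 512, nat_lit 39432, nat_lit 1, nat_lit 3⟩,
    ⟨false, nat_lit 16384, nat_lit 58376, nat_lit 2, nat_lit 0⟩, ⟨false, nat_lit 1024, nat_lit 56328, nat_lit 2, nat_lit 1⟩, ⟨true, nat_lit 8, nat_lit 57336, nat_lit 4, nat_lit 1⟩,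
    ⟨false, nat_lit 8192, nat_lit 57344, nat_lit 1, nat_lit 1⟩]

def r2_0_7 : List Wr := [
    ⟨true, nat_lit 4, nat_lit 7, nat_lit 1, nat_lit 1⟩, ⟨false, nat_lit 256, nat_lit 507, nat_lit 2, nat_lit 3⟩, ⟨false, nat_lit 32, nat_lit 315, nat_lit 2, nat_lit 1⟩,
    ⟨true, nat_lit 2, nat_lit 295, nat_lit 2, nat_lit 0⟩, ⟨false, nat_lit 128, nat_lit 473, nat_lit 2, nat_lit 1⟩, ⟨false, nat_lit 16, nat_lit 441, nat_lit 2, nat_lit 1⟩,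
    ⟨true, nat_lit 1, nat_lit 439, nat_lit 2, nat_lit 2⟩, ⟨false, nat_lit 32768, nat_lit 65096, nat_lit 3, nat_lit 1⟩, ⟨false, nat_lit 4096, nat_lit 40520, nat_lit 2, nat_lit 2⟩,
    ⟨true, nat_lit 64, nat_lit 37320, nat_lit 2, nat_lit 1⟩, ⟨false, nat_lit 2048, nat_lit 40456, nat_lit 2, nat_lit 1⟩, ⟨true, nat_lit 512, nat_lit 39432, nat_lit 1, nat_lit 3⟩,
    ⟨false, nat_lit 16384, nat_lit 58376, nat_lit 2, nat_lit 0⟩, ⟨false, nat_lit 1024, nat_lit 56328, nat_lit 2, nat_lit 1⟩, ⟨true, nat_lit 8, nat_lit 57336, nat_lit 4, nat_lit 1⟩,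
    ⟨false, nat_lit 8192, nat_lit 57344, nat_lit 1, nat_lit 1⟩]

def r2_0_8 : List Wr := [
    ⟨true, nat_lit 4, nat_lit 7, nat_lit 1, nat_lit 1⟩, ⟨false, nat_lit 32768, nat_lit 65531, nat_lit 4, nat_lit 4⟩, ⟨false, nat_lit 32, nat_lit 32827, nat_lit 2, nat_lit 1⟩,
    ⟨true, nat_lit 2, nat_lit 32807, nat_lit 2, nat_lit 0⟩, ⟨false, nat_lit 256, nat_lit 33241, nat_lit 2, nat_lit 2⟩, ⟨true, nat_lit 16, nat_lit 33081, nat_lit 2, nat_lit 1⟩,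
    ⟨false, nat_lit 4096, nat_lit 40649, nat_lit 3, nat_lit 1⟩, ⟨false, nat_lit 128, nat_lit 37321, nat_lit 2, nat_lit 2⟩, ⟨true, nat_lit 1, nat_lit 37303, nat_lit 3, nat_lit 1⟩,
    ⟨false, nat_lit 2048, nat_lit 40520, nat_lit 2, nat_lit 2⟩, ⟨false, nat_lit 512, nat_lit 39496, nat_lit 2, nat_lit 1⟩, ⟨true, nat_lit 64, nat_lit 39880, nat_lit 2, nat_lit 3⟩,
    ⟨false, nat_lit 16384, nat_lit 58376, nat_lit 2, nat_lit 0⟩, ⟨false, nat_lit 1024, nat_lit 56328, nat_lit 2, nat_lit 1⟩, ⟨true, nat_lit 8, nat_lit 57336, nat_lit 4, nat_lit 1⟩,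
    ⟨false, nat_lit 8192, nat_lit 57344, nat_lit 1, nat_lit 1⟩]

def r2_0_9 : List Wr := [
    ⟨false, nat_lit 4, nat_lit 7, nat_lit 1, nat_lit 1⟩, ⟨true, nat_lit 2, nat_lit 7, nat_lit 1, nat_lit 1⟩, ⟨false, nat_lit 256, nat_lit 505, nat_lit 2, nat_lit 2⟩,
    ⟨false, nat_lit 32, nat_lit 313, nat_lit 2, nat_lit 0⟩, ⟨true, nat_lit 1, nat_lit 295, nat_lit 2, nat_lit 0⟩, ⟨false, nat_lit 32768, nat_lit 65240, nat_lit 3, nat_lit 3⟩,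
    ⟨false, nat_lit 128, nat_lit 33240, nat_lit 2, nat_lit 1⟩, ⟨true, nat_lit 16, nat_lit 33208, nat_lit 2, nat_lit 1⟩, ⟨false, nat_lit 4096, nat_lit 40520, nat_lit 2, nat_lit 2⟩,
    ⟨false, nat_lit 2048, nat_lit 40520, nat_lit 2, nat_lit 2⟩, ⟨false, nat_lit 512, nat_lit 39496, nat_lit 2, nat_lit 1⟩, ⟨true, nat_lit 64, nat_lit 39880, nat_lit 2, nat_lit 3⟩,
    ⟨false, nat_lit 16384, nat_lit 58376, nat_lit 2, nat_lit 0⟩, ⟨false, nat_lit 1024, nat_lit 56328, nat_lit 2, nat_lit 1⟩, ⟨true, nat_lit 8, nat_lit 57336, nat_lit 4, nat_lit 1⟩,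
    ⟨false, nat_lit 8192, nat_lit 57344, nat_lit 1, nat_lit 1⟩]

def r2_0_10 : List Wr := [
    ⟨false, nat_lit 4, nat_lit 7, nat_lit 1, nat_lit 1⟩, ⟨true, nat_lit 2, nat_lit 7, nat_lit 1, nat_lit 1⟩, ⟨false, nat_lit 32768, nat_lit 65529, nat_lit 4, nat_lit 3⟩,
    ⟨false, nat_lit 32, nat_lit 32825, nat_lit 2, nat_lit 0⟩, ⟨true, nat_lit 1, nat_lit 32807, nat_lit 2, nat_lit 0⟩, ⟨true, nat_lit 128, nat_lit 32984, nat_lit 1, nat_lit 3⟩,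
    ⟨false, nat_lit 4096, nat_lit 40792, nat_lit 3, nat_lit 1⟩, ⟨false, nat_lit 64, nat_lit 37080, nat_lit 2, nat_lit 1⟩, ⟨true, nat_lit 16, nat_lit 37112, nat_lit 2, nat_lit 2⟩,
    ⟨false, nat_lit 2048, nat_lit 40712, nat_lit 2, nat_lit 2⟩, ⟨false, nat_lit 512, nat_lit 39688, nat_lit 2, nat_lit 1⟩, ⟨true, nat_lit 8, nat_lit 39672, nat_lit 3, nat_lit 1⟩,
    ⟨false, nat_lit 16384, nat_lit 58624, nat_lit 2, nat_lit 0⟩, ⟨false, nat_lit 1024, nat_lit 56576, nat_lit 2, nat_lit 1⟩, ⟨true, nat_lit 256, nat_lit 57088, nat_lit 2, nat_lit 2⟩,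
    ⟨false, nat_lit 8192, nat_lit 57344, nat_lit 1, nat_lit 1⟩]

def r2_0_11 : List Wr := [
    ⟨false, nat_lit 4, nat_lit 7, nat_lit 1, nat_lit 1⟩, ⟨true, nat_lit 2, nat_lit 7, nat_lit 1, nat_lit 1⟩, ⟨false, nat_lit 32768, nat_lit 65529, nat_lit 4, nat_lit 3⟩,
    ⟨false, nat_lit 32, nat_lit 32825, nat_lit 2, nat_lit 0⟩, ⟨true, nat_lit 1, nat_lit 32807, nat_lit 2, nat_lit 0⟩, ⟨false, nat_lit 4096, nat_lit 40920, nat_lit 3, nat_lit 2⟩,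
    ⟨false, nat_lit 128, nat_lit 37080, nat_lit 2, nat_lit 1⟩, ⟨true, nat_lit 16, nat_lit 37048, nat_lit 2, nat_lit 1⟩, ⟨false, nat_lit 16384, nat_lit 61256, nat_lit 3, nat_lit 1⟩,
    ⟨false, nat_lit 512, nat_lit 54088, nat_lit 2, nat_lit 2⟩, ⟨true, nat_lit 64, nat_lit 53960, nat_lit 2, nat_lit 2⟩, ⟨false, nat_lit 2048, nat_lit 56584, nat_lit 2, nat_lit 2⟩,
    ⟨true, nat_lit 256, nat_lit 56072, nat_lit 2, nat_lit 2⟩, ⟨false, nat_lit 8192, nat_lit 58376, nat_lit 2, nat_lit 0⟩, ⟨false, nat_lit 1024, nat_lit 64520, nat_lit 2, nat_lit 2⟩,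
    ⟨false, nat_lit 8, nat_lit 65528, nat_lit 4, nat_lit 2⟩]

def r2_0_12 : List Wr := [
    ⟨false, nat_lit 4, nat_lit 7, nat_lit 1, nat_lit 1⟩, ⟨true, nat_lit 2, nat_lit 7, nat_lit 1, nat_lit 1⟩, ⟨false, nat_lit 32768, nat_lit 65529, nat_lit 4, nat_lit 3⟩,
    ⟨false, nat_lit 32, nat_lit 32825, nat_lit 2, nat_lit 0⟩, ⟨true, nat_lit 1, nat_lit 32807, nat_lit 2, nat_lit 0⟩, ⟨false, nat_lit 4096, nat_lit 40920, nat_lit 3, nat_lit 2⟩,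
    ⟨false, nat_lit 128, nat_lit 37080, nat_lit 2, nat_lit 1⟩, ⟨true, nat_lit 16, nat_lit 37048, nat_lit 2, nat_lit 1⟩, ⟨true, nat_lit 64, nat_lit 37064, nat_lit 1, nat_lit 3⟩,
    ⟨false, nat_lit 2048, nat_lit 40712, nat_lit 2, nat_lit 2⟩, ⟨false, nat_lit 512, nat_lit 39688, nat_lit 2, nat_lit 1⟩, ⟨true, nat_lit 8, nat_lit 39672, nat_lit 3, nat_lit 1⟩,
    ⟨false, nat_lit 16384, nat_lit 58624, nat_lit 2, nat_lit 0⟩, ⟨false, nat_lit 1024, nat_lit 56576, nat_lit 2, nat_lit 1⟩, ⟨true, nat_lit 256, nat_lit 57088, nat_lit 2, nat_lit 2⟩,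
    ⟨false, nat_lit 8192, nat_lit 57344, nat_lit 1, nat_lit 1⟩]

def l2_0 : List (Nat × List Wr × Nat) := [
  (nat_lit 6, r2_0_0, nat_lit 0), (nat_lit 6, r2_0_1, nat_lit 0), (nat_lit 6, r2_0_2, nat_lit 0),
  (nat_lit 6, r2_0_3, nat_lit 0), (nat_lit 6, r2_0_4, nat_lit 0), (nat_lit 6, r2_0_5, nat_lit 0),
  (nat_lit 6, r2_0_6, nat_lit 0), (nat_lit 6, r2_0_7, nat_lit 0), (nat_lit 6, r2_0_8, nat_lit 0),
  (nat_lit 6, r2_0_9, nat_lit 0), (nat_lit 6, r2_0_10, nat_lit 0), (nat_lit 6, r2_0_11, nat_lit 0),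
  (nat_lit 6, r2_0_12, nat_lit 0)]

end Pool.Agent.EC4.Run
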