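import Pool.Agent.Lib.MP_ec4eff_co.R5.Srch

/-! Generated file (project R5): results of the first lune -/

namespace Pool.Agent.EC4.Run

def r83_0_0 : List Wr := [
    ⟨false, nat_lit 16, nat_lit 31, nat_lit 2, nat_lit 0⟩, ⟨false, nat_lit 2, nat_lit 19, nat_lit 1, nat_lit 1⟩, ⟨true, nat_lit 1, nat_lit 19, nat_lit 1, nat_lit 1⟩,
    ⟨false, nat_lit 256, nat_lit 492, nat_lit 2, nat_lit 1⟩, ⟨false, nat_lit 32, nat_lit 300, nat_lit 1, nat_lit 2⟩, ⟨true, nat_lit 8, nat_lit 316, nat_lit 2, nat_lit 0⟩,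
    ⟨false, nat_lit 2048, nat_lit 3780, nat_lit 2, nat_lit 1⟩, ⟨false, nat_lit 128, nat_lit 2500, nat_lit 2, nat_lit 0⟩, ⟨true, nat_lit 4, nat_lit 2492, nat_lit 2, nat_lit 2⟩,
    ⟨true, nat_lit 1024, nat_lit 3648, nat_lit 1, nat_lit 2⟩, ⟨false, nat_lit 16384, nat_lit 29248, nat_lit 2, nat_lit 0⟩, ⟨false, nat_lit 512, nat_lit 20032, nat_lit 2, nat_lit 0⟩,
    ⟨true, nat_lit 64, nat_lit 20416, nat_lit 2, nat_lit 2⟩, ⟨false, nat_lit 8192, nat_lit 28672, nat_lit 1, nat_lit 1⟩, ⟨true, nat_lit 4096, nat_lit 28672, nat_lit 1, nat_lit 1⟩,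
    ⟨false, nat_lit 32768, nat_lit 32768, nat_lit 0, nat_lit 2⟩]

def r83_0_1 : List Wr := [
    ⟨false, nat_lit 16, nat_lit 31, nat_lit 2, nat_lit 0⟩, ⟨false, nat_lit 2, nat_lit 19, nat_lit 1, nat_lit 1⟩, ⟨true, nat_lit 1, nat_lit 19, nat_lit 1, nat_lit 1⟩,
    ⟨false, nat_lit 256, nat_lit 492, nat_lit 2, nat_lit 1⟩, ⟨false, nat_lit 32, nat_lit 300, nat_lit 1, nat_lit 2⟩, ⟨true, nat_lit 8, nat_lit 316, nat_lit 2, nat_lit 0⟩,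
    ⟨false, nat_lit 2048, nat_lit 3780, nat_lit 2, nat_lit 1⟩, ⟨false, nat_lit 128, nat_lit 2500, nat_lit 2, nat_lit 0⟩, ⟨true, nat_lit 4, nat_lit 2492, nat_lit 2, nat_lit 2⟩,
    ⟨false, nat_lit 16384, nat_lit 30272, nat_lit 2, nat_lit 1⟩, ⟨false, nat_lit 1024, nat_lit 20032, nat_lit 2, nat_lit 0⟩, ⟨true, nat_lit 64, nat_lit 19904, nat_lit 2, nat_lit 1⟩,
    ⟨true, nat_lit 512, nat_lit 19968, nat_lit 1, nat_lit 2⟩, ⟨false, nat_lit 8192, nat_lit 28672, nat_lit 1, nat_lit 1⟩, ⟨true, nat_lit 4096, nat_lit 28672, nat_lit 1, nat_lit 1⟩,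
    ⟨false, nat_lit 32768, nat_lit 32768, nat_lit 0, nat_lit 2⟩]

def r83_0_2 : List Wr := [
    ⟨false, nat_lit 16, nat_lit 31, nat_lit 2, nat_lit 0⟩, ⟨false, nat_lit 2, nat_lit 19, nat_lit 1, nat_lit 1⟩, ⟨true, nat_lit 1, nat_lit 19, nat_lit 1, nat_lit 1⟩,
    ⟨false, nat_lit 2048, nat_lit 4076, nat_lit 3, nat_lit 1⟩, ⟨false, nat_lit 256, nat_lit 2540, nat_lit 2, nat_lit 2⟩, ⟨true, nat_lit 8, nat_lit 2332, nat_lit 2, nat_lit 0⟩,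
    ⟨true, nat_lit 128, nat_lit 2532, nat_lit 2, nat_lit 1⟩, ⟨false, nat_lit 1024, nat_lit 3684, nat_lit 2, nat_lit 1⟩, ⟨false, nat_lit 64, nat_lit 3556, nat_lit 2, nat_lit 2⟩,
    ⟨true, nat_lit 32, nat_lit 3556, nat_lit 2, nat_lit 2⟩, ⟨false, nat_lit 16384, nat_lit 29188, nat_lit 2, nat_lit 0⟩, ⟨false, nat_lit 512, nat_lit 19972, nat_lit 2, nat_lit 0⟩,
    ⟨true, nat_lit 4, nat_lit 20476, nat_lit 3, nat_lit 3⟩, ⟨false, nat_lit 8192, nat_lit 28672, nat_lit 1, nat_lit 1⟩, ⟨true, nat_lit 4096, nat_lit 28672, nat_lit 1, nat_lit 1⟩,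
    ⟨false, nat_lit 32768, nat_lit 32768, nat_lit 0, nat_lit 2⟩]

def r83_0_3 : List Wr := [
    ⟨false, nat_lit 16, nat_lit 31, nat_lit 2, nat_lit 0⟩, ⟨false, nat_lit 2, nat_lit 19, nat_lit 1, nat_lit 1⟩, ⟨true, nat_lit 1, nat_lit 19, nat_lit 1, nat_lit 1⟩,
    ⟨false, nat_lit 2048, nat_lit 4076, nat_lit 3, nat_lit 1⟩, ⟨false, nat_lit 256, nat_lit 2540, nat_lit 2, nat_lit 2⟩, ⟨true, nat_lit 8, nat_lit 2332, nat_lit 2, nat_lit 0⟩,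
    ⟨true, nat_lit 128, nat_lit 2532, nat_lit 2, nat_lit 1⟩, ⟨false, nat_lit 16384, nat_lit 30308, nat_lit 3, nat_lit 0⟩, ⟨false, nat_lit 1024, nat_lit 20068, nat_lit 2, nat_lit 2⟩,
    ⟨true, nat_lit 32, nat_lit 19876, nat_lit 2, nat_lit 2⟩, ⟨false, nat_lit 512, nat_lit 20036, nat_lit 2, nat_lit 1⟩, ⟨true, nat_lit 64, nat_lit 20420, nat_lit 2, nat_lit 3⟩,
    ⟨true, nat_lit 8192, nat_lit 28676, nat_lit 1, nat_lit 2⟩, ⟨false, nat_lit 32768, nat_lit 36868, nat_lit 1, nat_lit 1⟩, ⟨false, nat_lit 4096, nat_lit 61444, nat_lit 2, nat_lit 0⟩,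
    ⟨false, nat_lit 4, nat_lit 65532, nat_lit 4, nat_lit 3⟩]

def r83_0_4 : List Wr := [
    ⟨false, nat_lit 16, nat_lit 31, nat_lit 2, nat_lit 0⟩, ⟨false, nat_lit 2, nat_lit 19, nat_lit 1, nat_lit 1⟩, ⟨true, nat_lit 1, nat_lit 19, nat_lit 1, nat_lit 1⟩,
    ⟨false, nat_lit 2048, nat_lit 4076, nat_lit 3, nat_lit 1⟩, ⟨false, nat_lit 256, nat_lit 2540, nat_lit 2, nat_lit 2⟩, ⟨true, nat_lit 8, nat_lit 2332, nat_lit 2, nat_lit 0⟩,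
    ⟨true, nat_lit 128, nat_lit 2532, nat_lit 2, nat_lit 1⟩, ⟨false, nat_lit 16384, nat_lit 30308, nat_lit 3, nat_lit 0⟩, ⟨false, nat_lit 1024, nat_lit 20068, nat_lit 2, nat_lit 2⟩,
    ⟨true, nat_lit 32, nat_lit 19876, nat_lit 2, nat_lit 2⟩, ⟨false, nat_lit 512, nat_lit 20036, nat_lit 2, nat_lit 1⟩, ⟨true, nat_lit 64, nat_lit 20420, nat_lit 2, nat_lit 3⟩,
    ⟨false, nat_lit 32768, nat_lit 45060, nat_lit 1, nat_lit 2⟩, ⟨false, nat_lit 8192, nat_lit 61444, nat_lit 2, nat_lit 0⟩, ⟨true, nat_lit 4, nat_lit 61436, nat_lit 4, nat_lit 2⟩,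
    ⟨false, nat_lit 4096, nat_lit 61440, nat_lit 1, nat_lit 2⟩]

def r83_0_5 : List Wr := [
    ⟨false, nat_lit 16, nat_lit 31, nat_lit 2, nat_lit 0⟩, ⟨false, nat_lit 2, nat_lit 19, nat_lit 1, nat_lit 1⟩, ⟨true, nat_lit 1, nat_lit 19, nat_lit 1, nat_lit 1⟩,
    ⟨false, nat_lit 2048, nat_lit 4076, nat_lit 3, nat_lit 1⟩, ⟨false, nat_lit 256, nat_lit 2540, nat_lit 2, nat_lit 2⟩, ⟨true, nat_lit 8, nat_lit 2332, nat_lit 2, nat_lit 0⟩,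
    ⟨false, nat_lit 128, nat_lit 2532, nat_lit 2, nat_lit 1⟩, ⟨true, nat_lit 32, nat_lit 2468, nat_lit 1, nat_lit 3⟩, ⟨false, nat_lit 16384, nat_lit 30276, nat_lit 2, nat_lit 2⟩,
    ⟨true, nat_lit 1024, nat_lit 20036, nat_lit 2, nat_lit 1⟩, ⟨false, nat_lit 8192, nat_lit 29252, nat_lit 2, nat_lit 1⟩, ⟨false, nat_lit 512, nat_lit 28228, nat_lit 2, nat_lit 2⟩,
    ⟨true, nat_lit 64, nat_lit 28612, nat_lit 3, nat_lit 1⟩, ⟨false, nat_lit 32768, nat_lit 36868, nat_lit 1, nat_lit 1⟩, ⟨false, nat_lit 4096, nat_lit 61444, nat_lit 2, nat_lit 0⟩,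
    ⟨false, nat_lit 4, nat_lit 65532, nat_lit 4, nat_lit 3⟩]

def r83_0_6 : List Wr := [
    ⟨false, nat_lit 16, nat_lit 31, nat_lit 2, nat_lit 0⟩, ⟨false, nat_lit 2, nat_lit 19, nat_lit 1, nat_lit 1⟩, ⟨true, nat_lit 1, nat_lit 19, nat_lit 1, nat_lit 1⟩,
    ⟨false, nat_lit 2048, nat_lit 4076, nat_lit 3, nat_lit 1⟩, ⟨false, nat_lit 256, nat_lit 2540, nat_lit 2, nat_lit 2⟩, ⟨true, nat_lit 8, nat_lit 2332, nat_lit 2, nat_lit 0⟩,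
    ⟨false, nat_lit 128, nat_lit 2532, nat_lit 2, nat_lit 1⟩, ⟨false, nat_lit 32, nat_lit 2468, nat_lit 1, nat_lit 3⟩, ⟨true, nat_lit 4, nat_lit 2492, nat_lit 2, nat_lit 2⟩,
    ⟨false, nat_lit 16384, nat_lit 30272, nat_lit 2, nat_lit 1⟩, ⟨false, nat_lit 1024, nat_lit 20032, nat_lit 2, nat_lit 0⟩, ⟨true, nat_lit 64, nat_lit 19904, nat_lit 2, nat_lit 1⟩,
    ⟨true, nat_lit 8192, nat_lit 29184, nat_lit 1, nat_lit 2⟩, ⟨false, nat_lit 32768, nat_lit 37376, nat_lit 1, nat_lit 1⟩, ⟨false, nat_lit 4096, nat_lit 61952, nat_lit 2, nat_lit 0⟩,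
    ⟨false, nat_lit 512, nat_lit 65024, nat_lit 2, nat_lit 2⟩]

def r83_0_7 : List Wr := [
    ⟨false, nat_lit 16, nat_lit 31, nat_lit 2, nat_lit 0⟩, ⟨false, nat_lit 2, nat_lit 19, nat_lit 1, nat_lit 1⟩, ⟨true, nat_lit 1, nat_lit 19, nat_lit 1, nat_lit 1⟩,
    ⟨false, nat_lit 2048, nat_lit 4076, nat_lit 3, nat_lit 1⟩, ⟨false, nat_lit 256, nat_lit 2540, nat_lit 2, nat_lit 2⟩, ⟨true, nat_lit 8, nat_lit 2332, nat_lit 2, nat_lit 0⟩,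
    ⟨false, nat_lit 128, nat_lit 2532, nat_lit 2, nat_lit 1⟩, ⟨true, nat_lit 32, nat_lit 2468, nat_lit 1, nat_lit 3⟩, ⟨false, nat_lit 1024, nat_lit 3652, nat_lit 2, nat_lit 0⟩,
    ⟨false, nat_lit 64, nat_lit 3524, nat_lit 2, nat_lit 1⟩, ⟨true, nat_lit 4, nat_lit 3580, nat_lit 3, nat_lit 1⟩, ⟨false, nat_lit 16384, nat_lit 29184, nat_lit 1, nat_lit 2⟩,
    ⟨true, nat_lit 8192, nat_lit 29184, nat_lit 1, nat_lit 2⟩, ⟨false, nat_lit 32768, nat_lit 37376, nat_lit 1, nat_lit 1⟩, ⟨false, nat_lit 4096, nat_lit 61952, nat_lit 2, nat_lit 0⟩,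
    ⟨false, nat_lit 512, nat_lit 65024, nat_lit 2, nat_lit 2⟩]

def r83_0_8 : List Wr := [
    ⟨false, nat_lit 16, nat_lit 31, nat_lit 2, nat_lit 0⟩, ⟨false, nat_lit 2, nat_lit 19, nat_lit 1, nat_lit 1⟩, ⟨true, nat_lit 1, nat_lit 19, nat_lit 1, nat_lit 1⟩,
    ⟨false, nat_lit 2048, nat_lit 4076, nat_lit 3, nat_lit 1⟩, ⟨false, nat_lit 256, nat_lit 2540, nat_lit 2, nat_lit 2⟩, ⟨true, nat_lit 8, nat_lit 2332, nat_lit 2, nat_lit 0⟩,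
    ⟨false, nat_lit 128, nat_lit 2532, nat_lit 2, nat_lit 1⟩, ⟨false, nat_lit 32, nat_lit 2468, nat_lit 1, nat_lit 3⟩, ⟨true, nat_lit 4, nat_lit 2492, nat_lit 2, nat_lit 2⟩,
    ⟨false, nat_lit 16384, nat_lit 30272, nat_lit 2, nat_lit 1⟩, ⟨false, nat_lit 1024, nat_lit 20032, nat_lit 2, nat_lit 0⟩, ⟨true, nat_lit 64, nat_lit 19904, nat_lit 2, nat_lit 1⟩,
    ⟨false, nat_lit 32768, nat_lit 45568, nat_lit 1, nat_lit 2⟩, ⟨false, nat_lit 8192, nat_lit 61952, nat_lit 2, nat_lit 0⟩, ⟨true, nat_lit 512, nat_lit 60928, nat_lit 2, nat_lit 1⟩,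
    ⟨false, nat_lit 4096, nat_lit 61440, nat_lit 1, nat_lit 2⟩]

def r83_0_9 : List Wr := [
    ⟨false, nat_lit 16, nat_lit 31, nat_lit 2, nat_lit 0⟩, ⟨false, nat_lit 2, nat_lit 19, nat_lit 1, nat_lit 1⟩, ⟨true, nat_lit 1, nat_lit 19, nat_lit 1, nat_lit 1⟩,
    ⟨false, nat_lit 2048, nat_lit 4076, nat_lit 3, nat_lit 1⟩, ⟨false, nat_lit 256, nat_lit 2540, nat_lit 2, nat_lit 2⟩, ⟨true, nat_lit 8, nat_lit 2332, nat_lit 2, nat_lit 0⟩,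
    ⟨false, nat_lit 128, nat_lit 2532, nat_lit 2, nat_lit 1⟩, ⟨true, nat_lit 32, nat_lit 2468, nat_lit 1, nat_lit 3⟩, ⟨false, nat_lit 1024, nat_lit 3652, nat_lit 2, nat_lit 0⟩,
    ⟨false, nat_lit 64, nat_lit 3524, nat_lit 2, nat_lit 1⟩, ⟨true, nat_lit 4, nat_lit 3580, nat_lit 3, nat_lit 1⟩, ⟨true, nat_lit 16384, nat_lit 29184, nat_lit 1, nat_lit 2⟩,
    ⟨false, nat_lit 32768, nat_lit 45568, nat_lit 1, nat_lit 2⟩, ⟨false, nat_lit 8192, nat_lit 61952, nat_lit 2, nat_lit 0⟩, ⟨true, nat_lit 512, nat_lit 60928, nat_lit 2, nat_lit 1⟩,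
    ⟨false, nat_lit 4096, nat_lit 61440, nat_lit 1, nat_lit 2⟩]

def r83_0_10 : List Wr := [
    ⟨false, nat_lit 16, nat_lit 31, nat_lit 2, nat_lit 0⟩, ⟨false, nat_lit 2, nat_lit 19, nat_lit 1, nat_lit 1⟩, ⟨true, nat_lit 1, nat_lit 19, nat_lit 1, nat_lit 1⟩,
    ⟨false, nat_lit 2048, nat_lit 4076, nat_lit 3, nat_lit 1⟩, ⟨false, nat_lit 256, nat_lit 2540, nat_lit 2, nat_lit 2⟩, ⟨true, nat_lit 8, nat_lit 2332, nat_lit 2, nat_lit 0⟩,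
    ⟨false, nat_lit 128, nat_lit 2532, nat_lit 2, nat_lit 1⟩, ⟨true, nat_lit 32, nat_lit 2468, nat_lit 1, nat_lit 3⟩, ⟨false, nat_lit 1024, nat_lit 3652, nat_lit 2, nat_lit 0⟩,
    ⟨false, nat_lit 64, nat_lit 3524, nat_lit 2, nat_lit 1⟩, ⟨true, nat_lit 4, nat_lit 3580, nat_lit 3, nat_lit 1⟩, ⟨false, nat_lit 32768, nat_lit 61952, nat_lit 1, nat_lit 3⟩,
    ⟨false, nat_lit 16384, nat_lit 61952, nat_lit 2, nat_lit 0⟩, ⟨true, nat_lit 512, nat_lit 52736, nat_lit 2, nat_lit 0⟩, ⟨false, nat_lit 8192, nat_lit 61440, nat_lit 1, nat_lit 2⟩,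
    ⟨false, nat_lit 4096, nat_lit 61440, nat_lit 1, nat_lit 2⟩]

def r83_0_11 : List Wr := [
    ⟨false, nat_lit 16, nat_lit 31, nat_lit 2, nat_lit 0⟩, ⟨false, nat_lit 2, nat_lit 19, nat_lit 1, nat_lit 1⟩, ⟨true, nat_lit 1, nat_lit 19, nat_lit 1, nat_lit 1⟩,
    ⟨false, nat_lit 8, nat_lit 28, nat_lit 1, nat_lit 1⟩, ⟨true, nat_lit 4, nat_lit 28, nat_lit 1, nat_lit 1⟩, ⟨true, nat_lit 256, nat_lit 480, nat_lit 1, nat_lit 2⟩,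
    ⟨false, nat_lit 2048, nat_lit 3808, nat_lit 2, nat_lit 1⟩, ⟨false, nat_lit 128, nat_lit 2528, nat_lit 2, nat_lit 0⟩, ⟨true, nat_lit 32, nat_lit 2464, nat_lit 1, nat_lit 2⟩,
    ⟨false, nat_lit 16384, nat_lit 30272, nat_lit 2, nat_lit 1⟩, ⟨false, nat_lit 1024, nat_lit 20032, nat_lit 2, nat_lit 0⟩, ⟨true, nat_lit 64, nat_lit 19904, nat_lit 2, nat_lit 1⟩,
    ⟨true, nat_lit 8192, nat_lit 29184, nat_lit 1, nat_lit 2⟩, ⟨false, nat_lit 32768, nat_lit 37376, nat_lit 1, nat_lit 1⟩, ⟨false, nat_lit 4096, nat_lit 61952, nat_lit 2, nat_lit 0⟩,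
    ⟨false, nat_lit 512, nat_lit 65024, nat_lit 2, nat_lit 2⟩]

def r83_0_12 : List Wr := [
    ⟨false, nat_lit 16, nat_lit 31, nat_lit 2, nat_lit 0⟩, ⟨false, nat_lit 2, nat_lit 19, nat_lit 1, nat_lit 1⟩, ⟨true, nat_lit 1, nat_lit 19, nat_lit 1, nat_lit 1⟩,
    ⟨false, nat_lit 8, nat_lit 28, nat_lit 1, nat_lit 1⟩, ⟨true, nat_lit 4, nat_lit 28, nat_lit 1, nat_lit 1⟩, ⟨true, nat_lit 256, nat_lit 480, nat_lit 1, nat_lit 2⟩,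
    ⟨false, nat_lit 2048, nat_lit 3808, nat_lit 2, nat_lit 1⟩, ⟨false, nat_lit 128, nat_lit 2528, nat_lit 2, nat_lit 0⟩, ⟨true, nat_lit 32, nat_lit 2464, nat_lit 1, nat_lit 2⟩,
    ⟨false, nat_lit 16384, nat_lit 30272, nat_lit 2, nat_lit 1⟩, ⟨false, nat_lit 1024, nat_lit 20032, nat_lit 2, nat_lit 0⟩, ⟨true, nat_lit 64, nat_lit 19904, nat_lit 2, nat_lit 1⟩,
    ⟨false, nat_lit 32768, nat_lit 45568, nat_lit 1, nat_lit 2⟩, ⟨false, nat_lit 8192, nat_lit 61952, nat_lit 2, nat_lit 0⟩, ⟨true, nat_lit 512, nat_lit 60928, nat_lit 2, nat_lit 1⟩,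
    ⟨false, nat_lit 4096, nat_lit 61440, nat_lit 1, nat_lit 2⟩]

def r83_0_13 : List Wr := [
    ⟨false, nat_lit 2048, nat_lit 4095, nat_lit 3, nat_lit 4⟩, ⟨false, nat_lit 16, nat_lit 2079, nat_lit 2, nat_lit 1⟩, ⟨true, nat_lit 2, nat_lit 2067, nat_lit 1, nat_lit 2⟩,
    ⟨false, nat_lit 256, nat_lit 2541, nat_lit 3, nat_lit 0⟩, ⟨false, nat_lit 8, nat_lit 2333, nat_lit 2, nat_lit 1⟩, ⟨true, nat_lit 1, nat_lit 2331, nat_lit 2, nat_lit 1⟩,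
    ⟨false, nat_lit 16384, nat_lit 30436, nat_lit 3, nat_lit 1⟩, ⟨false, nat_lit 128, nat_lit 18916, nat_lit 2, nat_lit 2⟩, ⟨true, nat_lit 32, nat_lit 18852, nat_lit 2, nat_lit 1⟩,
    ⟨true, nat_lit 1024, nat_lit 20036, nat_lit 2, nat_lit 1⟩, ⟨false, nat_lit 8192, nat_lit 29252, nat_lit 2, nat_lit 1⟩, ⟨false, nat_lit 512, nat_lit 28228, nat_lit 2, nat_lit 2⟩,
    ⟨true, nat_lit 64, nat_lit 28612, nat_lit 3, nat_lit 1⟩, ⟨false, nat_lit 32768, nat_lit 36868, nat_lit 1, nat_lit 1⟩, ⟨false, nat_lit 4096, nat_lit 61444, nat_lit 2, nat_lit 0⟩,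
    ⟨false, nat_lit 4, nat_lit 65532, nat_lit 4, nat_lit 3⟩]

def r83_0_14 : List Wr := [
    ⟨false, nat_lit 16, nat_lit 31, nat_lit 2, nat_lit 0⟩, ⟨false, nat_lit 2, nat_lit 19, nat_lit 1, nat_lit 1⟩, ⟨true, nat_lit 1, nat_lit 19, nat_lit 1, nat_lit 1⟩,
    ⟨true, nat_lit 8, nat_lit 28, nat_lit 1, nat_lit 1⟩, ⟨false, nat_lit 2048, nat_lit 4068, nat_lit 2, nat_lit 3⟩, ⟨true, nat_lit 256, nat_lit 2532, nat_lit 2, nat_lit 1⟩,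
    ⟨false, nat_lit 16384, nat_lit 30436, nat_lit 3, nat_lit 1⟩, ⟨false, nat_lit 128, nat_lit 18916, nat_lit 2, nat_lit 2⟩, ⟨true, nat_lit 32, nat_lit 18852, nat_lit 2, nat_lit 1⟩,
    ⟨true, nat_lit 1024, nat_lit 20036, nat_lit 2, nat_lit 1⟩, ⟨false, nat_lit 8192, nat_lit 29252, nat_lit 2, nat_lit 1⟩, ⟨false, nat_lit 512, nat_lit 28228, nat_lit 2, nat_lit 2⟩,
    ⟨true, nat_lit 64, nat_lit 28612, nat_lit 3, nat_lit 1⟩, ⟨false, nat_lit 32768, nat_lit 36868, nat_lit 1, nat_lit 1⟩, ⟨false, nat_lit 4096, nat_lit 61444, nat_lit 2, nat_lit 0⟩,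
    ⟨false, nat_lit 4, nat_lit 65532, nat_lit 4, nat_lit 3⟩]

def r83_0_15 : List Wr := [
    ⟨false, nat_lit 16, nat_lit 31, nat_lit 2, nat_lit 0⟩, ⟨false, nat_lit 2, nat_lit 19, nat_lit 1, nat_lit 1⟩, ⟨true, nat_lit 1, nat_lit 19, nat_lit 1, nat_lit 1⟩,
    ⟨false, nat_lit 8, nat_lit 28, nat_lit 1, nat_lit 1⟩, ⟨true, nat_lit 4, nat_lit 28, nat_lit 1, nat_lit 1⟩, ⟨false, nat_lit 2048, nat_lit 4064, nat_lit 2, nat_lit 2⟩,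
    ⟨false, nat_lit 256, nat_lit 2528, nat_lit 2, nat_lit 0⟩, ⟨true, nat_lit 32, nat_lit 2336, nat_lit 1, nat_lit 1⟩, ⟨true, nat_lit 128, nat_lit 2496, nat_lit 1, nat_lit 2⟩,
    ⟨false, nat_lit 16384, nat_lit 30272, nat_lit 2, nat_lit 1⟩, ⟨false, nat_lit 1024, nat_lit 20032, nat_lit 2, nat_lit 0⟩, ⟨true, nat_lit 64, nat_lit 19904, nat_lit 2, nat_lit 1⟩,
    ⟨true, nat_lit 8192, nat_lit 29184, nat_lit 1, nat_lit 2⟩, ⟨false, nat_lit 32768, nat_lit 37376, nat_lit 1, nat_lit 1⟩, ⟨false, nat_lit 4096, nat_lit 61952, nat_lit 2, nat_lit 0⟩,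
    ⟨false, nat_lit 512, nat_lit 65024, nat_lit 2, nat_lit 2⟩]

def r83_0_16 : List Wr := [
    ⟨false, nat_lit 16, nat_lit 31, nat_lit 2, nat_lit 0⟩, ⟨false, nat_lit 2, nat_lit 19, nat_lit 1, nat_lit 1⟩, ⟨true, nat_lit 1, nat_lit 19, nat_lit 1, nat_lit 1⟩,
    ⟨true, nat_lit 8, nat_lit 28, nat_lit 1, nat_lit 1⟩, ⟨false, nat_lit 256, nat_lit 484, nat_lit 2, nat_lit 0⟩, ⟨false, nat_lit 32, nat_lit 292, nat_lit 1, nat_lit 1⟩,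
    ⟨true, nat_lit 4, nat_lit 316, nat_lit 2, nat_lit 0⟩, ⟨false, nat_lit 2048, nat_lit 3776, nat_lit 1, nat_lit 3⟩, ⟨true, nat_lit 128, nat_lit 2496, nat_lit 1, nat_lit 2⟩,
    ⟨false, nat_lit 16384, nat_lit 30272, nat_lit 2, nat_lit 1⟩, ⟨false, nat_lit 1024, nat_lit 20032, nat_lit 2, nat_lit 0⟩, ⟨true, nat_lit 64, nat_lit 19904, nat_lit 2, nat_lit 1⟩,
    ⟨true, nat_lit 8192, nat_lit 29184, nat_lit 1, nat_lit 2⟩, ⟨false, nat_lit 32768, nat_lit 37376, nat_lit 1, nat_lit 1⟩, ⟨false, nat_lit 4096, nat_lit 61952, nat_lit 2, nat_lit 0⟩,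
    ⟨false, nat_lit 512, nat_lit 65024, nat_lit 2, nat_lit 2⟩]

def r83_0_17 : List Wr := [
    ⟨false, nat_lit 16, nat_lit 31, nat_lit 2, nat_lit 0⟩, ⟨false, nat_lit 2, nat_lit 19, nat_lit 1, nat_lit 1⟩, ⟨true, nat_lit 1, nat_lit 19, nat_lit 1, nat_lit 1⟩,
    ⟨false, nat_lit 8, nat_lit 28, nat_lit 1, nat_lit 1⟩, ⟨true, nat_lit 4, nat_lit 28, nat_lit 1, nat_lit 1⟩, ⟨false, nat_lit 2048, nat_lit 4064, nat_lit 2, nat_lit 2⟩,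
    ⟨false, nat_lit 256, nat_lit 2528, nat_lit 2, nat_lit 0⟩, ⟨true, nat_lit 32, nat_lit 2336, nat_lit 1, nat_lit 1⟩, ⟨true, nat_lit 128, nat_lit 2496, nat_lit 1, nat_lit 2⟩,
    ⟨false, nat_lit 16384, nat_lit 30272, nat_lit 2, nat_lit 1⟩, ⟨false, nat_lit 1024, nat_lit 20032, nat_lit 2, nat_lit 0⟩, ⟨true, nat_lit 64, nat_lit 19904, nat_lit 2, nat_lit 1⟩,
    ⟨false, nat_lit 32768, nat_lit 45568, nat_lit 1, nat_lit 2⟩, ⟨false, nat_lit 8192, nat_lit 61952, nat_lit 2, nat_lit 0⟩, ⟨true, nat_lit 512, nat_lit 60928, nat_lit 2, nat_lit 1⟩,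
    ⟨false, nat_lit 4096, nat_lit 61440, nat_lit 1, nat_lit 2⟩]

def l83_0 : List (Nat × List Wr × Nat) := [
  (nat_lit 6, r83_0_0, nat_lit 0), (nat_lit 6, r83_0_1, nat_lit 0), (nat_lit 6, r83_0_2, nat_lit 0),
  (nat_lit 6, r83_0_3, nat_lit 0), (nat_lit 6, r83_0_4, nat_lit 0), (nat_lit 6, r83_0_5, nat_lit 0),
  (nat_lit 6, r83_0_6, nat_lit 0), (nat_lit 6, r83_0_7, nat_lit 0), (nat_lit 6, r83_0_8, nat_lit 0),
  (nat_lit 6, r83_0_9, nat_lit 0), (nat_lit 6, r83_0_10, nat_lit 0), (nat_lit 6, r83_0_11, nat_lit 0),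
  (nat_lit 6, r83_0_12, nat_lit 0), (nat_lit 6, r83_0_13, nat_lit 0), (nat_lit 6, r83_0_14, nat_lit 0),
  (nat_lit 6, r83_0_15, nat_lit 0), (nat_lit 6, r83_0_16, nat_lit 0), (nat_lit 6, r83_0_17, nat_lit 0)]

def r83_1_0 : List Wr := [
    ⟨false, nat_lit 16, nat_lit 31, nat_lit 2, nat_lit 0⟩, ⟨false, nat_lit 2, nat_lit 19, nat_lit 1, nat_lit 1⟩, ⟨true, nat_lit 1, nat_lit 19, nat_lit 1, nat_lit 1⟩,
    ⟨true, nat_lit 8, nat_lit 28, nat_lit 1, nat_lit 1⟩, ⟨false, nat_lit 256, nat_lit 484, nat_lit 2, nat_lit 0⟩, ⟨false, nat_lit 32, nat_lit 292, nat_lit 1, nat_lit 1⟩,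
    ⟨true, nat_lit 4, nat_lit 316, nat_lit 2, nat_lit 0⟩, ⟨false, nat_lit 2048, nat_lit 3776, nat_lit 1, nat_lit 3⟩, ⟨true, nat_lit 128, nat_lit 2496, nat_lit 1, nat_lit 2⟩,
    ⟨false, nat_lit 16384, nat_lit 30272, nat_lit 2, nat_lit 1⟩, ⟨false, nat_lit 1024, nat_lit 20032, nat_lit 2, nat_lit 0⟩, ⟨true, nat_lit 64, nat_lit 19904, nat_lit 2, nat_lit 1⟩,
    ⟨false, nat_lit 32768, nat_lit 45568, nat_lit 1, nat_lit 2⟩, ⟨false, nat_lit 8192, nat_lit 61952, nat_lit 2, nat_lit 0⟩, ⟨true, nat_lit 512, nat_lit 60928, nat_lit 2, nat_lit 1⟩,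
    ⟨false, nat_lit 4096, nat_lit 61440, nat_lit 1, nat_lit 2⟩]

def l83_1 : List (Nat × List Wr × Nat) := [
  (nat_lit 6, r83_1_0, nat_lit 0)]

def r83_2_0 : List Wr := [
    ⟨false, nat_lit 16, nat_lit 31, nat_lit 2, nat_lit 0⟩, ⟨false, nat_lit 2, nat_lit 19, nat_lit 1, nat_lit 1⟩, ⟨true, nat_lit 1, nat_lit 19, nat_lit 1, nat_lit 1⟩,
    ⟨true, nat_lit 8, nat_lit 28, nat_lit 1, nat_lit 1⟩, ⟨false, nat_lit 256, nat_lit 484, nat_lit 2, nat_lit 0⟩, ⟨false, nat_lit 32, nat_lit 292, nat_lit 1, nat_lit 1⟩,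
    ⟨true, nat_lit 4, nat_lit 316, nat_lit 2, nat_lit 0⟩, ⟨true, nat_lit 128, nat_lit 448, nat_lit 1, nat_lit 1⟩, ⟨true, nat_lit 2048, nat_lit 3648, nat_lit 1, nat_lit 2⟩,
    ⟨false, nat_lit 16384, nat_lit 30272, nat_lit 2, nat_lit 1⟩, ⟨false, nat_lit 1024, nat_lit 20032, nat_lit 2, nat_lit 0⟩, ⟨true, nat_lit 64, nat_lit 19904, nat_lit 2, nat_lit 1⟩,
    ⟨true, nat_lit 8192, nat_lit 29184, nat_lit 1, nat_lit 2⟩, ⟨false, nat_lit 32768, nat_lit 37376, nat_lit 1, nat_lit 1⟩, ⟨false, nat_lit 4096, nat_lit 61952, nat_lit 2, nat_lit 0⟩,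
    ⟨false, nat_lit 512, nat_lit 65024, nat_lit 2, nat_lit 2⟩]

def l83_2 : List (Nat × List Wr × Nat) := [
  (nat_lit 4, r83_2_0, nat_lit 0)]

def r83_3_0 : List Wr := [
    ⟨false, nat_lit 16, nat_lit 31, nat_lit 2, nat_lit 0⟩, ⟨false, nat_lit 2, nat_lit 19, nat_lit 1, nat_lit 1⟩, ⟨true, nat_lit 1, nat_lit 19, nat_lit 1, nat_lit 1⟩,
    ⟨true, nat_lit 8, nat_lit 28, nat_lit 1, nat_lit 1⟩, ⟨false, nat_lit 256, nat_lit 484, nat_lit 2, nat_lit 0⟩, ⟨false, nat_lit 32, nat_lit 292, nat_lit 1, nat_lit 1⟩,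
    ⟨true, nat_lit 4, nat_lit 316, nat_lit 2, nat_lit 0⟩, ⟨false, nat_lit 2048, nat_lit 3776, nat_lit 1, nat_lit 3⟩, ⟨true, nat_lit 128, nat_lit 2496, nat_lit 1, nat_lit 2⟩,
    ⟨false, nat_lit 16384, nat_lit 30272, nat_lit 2, nat_lit 1⟩, ⟨false, nat_lit 1024, nat_lit 20032, nat_lit 2, nat_lit 0⟩, ⟨true, nat_lit 64, nat_lit 19904, nat_lit 2, nat_lit 1⟩,
    ⟨true, nat_lit 8192, nat_lit 29184, nat_lit 1, nat_lit 2⟩, ⟨false, nat_lit 32768, nat_lit 37376, nat_lit 1, nat_lit 1⟩, ⟨false, nat_lit 4096, nat_lit 61952, nat_lit 2, nat_lit 0⟩,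
    ⟨false, nat_lit 512, nat_lit 65024, nat_lit 2, nat_lit 2⟩]

def l83_3 : List (Nat × List Wr × Nat) := [
  (nat_lit 5, r83_3_0, nat_lit 1)]

def r83_4_0 : List Wr := [
    ⟨false, nat_lit 16, nat_lit 31, nat_lit 2, nat_lit 0⟩, ⟨false, nat_lit 2, nat_lit 19, nat_lit 1, nat_lit 1⟩, ⟨true, nat_lit 1, nat_lit 19, nat_lit 1, nat_lit 1⟩,
    ⟨true, nat_lit 8, nat_lit 28, nat_lit 1, nat_lit 1⟩, ⟨false, nat_lit 256, nat_lit 484, nat_lit 2, nat_lit 0⟩, ⟨false, nat_lit 32, nat_lit 292, nat_lit 1, nat_lit 1⟩,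
    ⟨true, nat_lit 4, nat_lit 316, nat_lit 2, nat_lit 0⟩, ⟨true, nat_lit 128, nat_lit 448, nat_lit 1, nat_lit 1⟩, ⟨true, nat_lit 2048, nat_lit 3648, nat_lit 1, nat_lit 2⟩,
    ⟨false, nat_lit 16384, nat_lit 30272, nat_lit 2, nat_lit 1⟩, ⟨false, nat_lit 1024, nat_lit 20032, nat_lit 2, nat_lit 0⟩, ⟨true, nat_lit 64, nat_lit 19904, nat_lit 2, nat_lit 1⟩,
    ⟨false, nat_lit 32768, nat_lit 45568, nat_lit 1, nat_lit 2⟩, ⟨false, nat_lit 8192, nat_lit 61952, nat_lit 2, nat_lit 0⟩, ⟨true, nat_lit 512, nat_lit 60928, nat_lit 2, nat_lit 1⟩,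
    ⟨false, nat_lit 4096, nat_lit 61440, nat_lit 1, nat_lit 2⟩]

def l83_4 : List (Nat × List Wr × Nat) := [
  (nat_lit 4, r83_4_0, nat_lit 0)]

def r83_5_0 : List Wr := [
    ⟨false, nat_lit 16, nat_lit 31, nat_lit 2, nat_lit 0⟩, ⟨false, nat_lit 2, nat_lit 19, nat_lit 1, nat_lit 1⟩, ⟨true, nat_lit 1, nat_lit 19, nat_lit 1, nat_lit 1⟩,
    ⟨true, nat_lit 8, nat_lit 28, nat_lit 1, nat_lit 1⟩, ⟨false, nat_lit 256, nat_lit 484, nat_lit 2, nat_lit 0⟩, ⟨false, nat_lit 32, nat_lit 292, nat_lit 1, nat_lit 1⟩,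
    ⟨true, nat_lit 4, nat_lit 316, nat_lit 2, nat_lit 0⟩, ⟨false, nat_lit 2048, nat_lit 3776, nat_lit 1, nat_lit 3⟩, ⟨true, nat_lit 128, nat_lit 2496, nat_lit 1, nat_lit 2⟩,
    ⟨false, nat_lit 16384, nat_lit 30272, nat_lit 2, nat_lit 1⟩, ⟨false, nat_lit 1024, nat_lit 20032, nat_lit 2, nat_lit 0⟩, ⟨true, nat_lit 64, nat_lit 19904, nat_lit 2, nat_lit 1⟩,
    ⟨false, nat_lit 32768, nat_lit 45568, nat_lit 1, nat_lit 2⟩, ⟨false, nat_lit 8192, nat_lit 61952, nat_lit 2, nat_lit 0⟩, ⟨true, nat_lit 512, nat_lit 60928, nat_lit 2, nat_lit 1⟩,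
    ⟨false, nat_lit 4096, nat_lit 61440, nat_lit 1, nat_lit 2⟩]

def r83_5_1 : List Wr := [
    ⟨false, nat_lit 16, nat_lit 31, nat_lit 2, nat_lit 0⟩, ⟨false, nat_lit 2, nat_lit 19, nat_lit 1, nat_lit 1⟩, ⟨true, nat_lit 1, nat_lit 19, nat_lit 1, nat_lit 1⟩,
    ⟨true, nat_lit 8, nat_lit 28, nat_lit 1, nat_lit 1⟩, ⟨false, nat_lit 256, nat_lit 484, nat_lit 2, nat_lit 0⟩, ⟨false, nat_lit 32, nat_lit 292, nat_lit 1, nat_lit 1⟩,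
    ⟨true, nat_lit 4, nat_lit 316, nat_lit 2, nat_lit 0⟩, ⟨false, nat_lit 32768, nat_lit 65216, nat_lit 2, nat_lit 4⟩, ⟨false, nat_lit 2048, nat_lit 36544, nat_lit 2, nat_lit 1⟩,
    ⟨true, nat_lit 128, nat_lit 35264, nat_lit 2, nat_lit 0⟩, ⟨false, nat_lit 16384, nat_lit 63040, nat_lit 2, nat_lit 2⟩, ⟨true, nat_lit 1024, nat_lit 52800, nat_lit 2, nat_lit 1⟩,
    ⟨false, nat_lit 8192, nat_lit 62016, nat_lit 2, nat_lit 1⟩, ⟨false, nat_lit 512, nat_lit 60992, nat_lit 2, nat_lit 2⟩, ⟨true, nat_lit 64, nat_lit 61376, nat_lit 3, nat_lit 1⟩,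
    ⟨false, nat_lit 4096, nat_lit 61440, nat_lit 1, nat_lit 2⟩]

def l83_5 : List (Nat × List Wr × Nat) := [
  (nat_lit 5, r83_5_0, nat_lit 1), (nat_lit 6, r83_5_1, nat_lit 0)]

def r83_6_0 : List Wr := [
    ⟨false, nat_lit 16, nat_lit 31, nat_lit 2, nat_lit 0⟩, ⟨false, nat_lit 2, nat_lit 19, nat_lit 1, nat_lit 1⟩, ⟨true, nat_lit 1, nat_lit 19, nat_lit 1, nat_lit 1⟩,
    ⟨true, nat_lit 8, nat_lit 28, nat_lit 1, nat_lit 1⟩, ⟨false, nat_lit 256, nat_lit 484, nat_lit 2, nat_lit 0⟩, ⟨false, nat_lit 32, nat_lit 292, nat_lit 1, nat_lit 1⟩,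
    ⟨true, nat_lit 4, nat_lit 316, nat_lit 2, nat_lit 0⟩, ⟨true, nat_lit 128, nat_lit 448, nat_lit 1, nat_lit 1⟩, ⟨false, nat_lit 16384, nat_lit 32320, nat_lit 2, nat_lit 2⟩,
    ⟨false, nat_lit 2048, nat_lit 20032, nat_lit 2, nat_lit 0⟩, ⟨true, nat_lit 64, nat_lit 18880, nat_lit 2, nat_lit 0⟩, ⟨true, nat_lit 1024, nat_lit 19968, nat_lit 1, nat_lit 2⟩,
    ⟨true, nat_lit 8192, nat_lit 29184, nat_lit 1, nat_lit 2⟩, ⟨false, nat_lit 32768, nat_lit 37376, nat_lit 1, nat_lit 1⟩, ⟨false, nat_lit 4096, nat_lit 61952, nat_lit 2, nat_lit 0⟩,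
    ⟨false, nat_lit 512, nat_lit 65024, nat_lit 2, nat_lit 2⟩]

def l83_6 : List (Nat × List Wr × Nat) := [
  (nat_lit 4, r83_6_0, nat_lit 0)]

def r83_7_0 : List Wr := [
    ⟨false, nat_lit 16, nat_lit 31, nat_lit 2, nat_lit 0⟩, ⟨false, nat_lit 2, nat_lit 19, nat_lit 1, nat_lit 1⟩, ⟨true, nat_lit 1, nat_lit 19, nat_lit 1, nat_lit 1⟩,
    ⟨true, nat_lit 8, nat_lit 28, nat_lit 1, nat_lit 1⟩, ⟨false, nat_lit 256, nat_lit 484, nat_lit 2, nat_lit 0⟩, ⟨false, nat_lit 32, nat_lit 292, nat_lit 1, nat_lit 1⟩,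
    ⟨true, nat_lit 4, nat_lit 316, nat_lit 2, nat_lit 0⟩, ⟨true, nat_lit 128, nat_lit 448, nat_lit 1, nat_lit 1⟩, ⟨false, nat_lit 16384, nat_lit 32320, nat_lit 2, nat_lit 2⟩,
    ⟨false, nat_lit 2048, nat_lit 20032, nat_lit 2, nat_lit 0⟩, ⟨true, nat_lit 64, nat_lit 18880, nat_lit 2, nat_lit 0⟩, ⟨false, nat_lit 8192, nat_lit 30208, nat_lit 1, nat_lit 3⟩,
    ⟨true, nat_lit 1024, nat_lit 28160, nat_lit 1, nat_lit 3⟩, ⟨false, nat_lit 32768, nat_lit 37376, nat_lit 1, nat_lit 1⟩, ⟨false, nat_lit 4096, nat_lit 61952, nat_lit 2, nat_lit 0⟩,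
    ⟨false, nat_lit 512, nat_lit 65024, nat_lit 2, nat_lit 2⟩]

def r83_7_1 : List Wr := [
    ⟨false, nat_lit 16, nat_lit 31, nat_lit 2, nat_lit 0⟩, ⟨false, nat_lit 2, nat_lit 19, nat_lit 1, nat_lit 1⟩, ⟨true, nat_lit 1, nat_lit 19, nat_lit 1, nat_lit 1⟩,
    ⟨true, nat_lit 8, nat_lit 28, nat_lit 1, nat_lit 1⟩, ⟨false, nat_lit 256, nat_lit 484, nat_lit 2, nat_lit 0⟩, ⟨false, nat_lit 32, nat_lit 292, nat_lit 1, nat_lit 1⟩,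
    ⟨true, nat_lit 4, nat_lit 316, nat_lit 2, nat_lit 0⟩, ⟨true, nat_lit 128, nat_lit 448, nat_lit 1, nat_lit 1⟩, ⟨false, nat_lit 16384, nat_lit 32320, nat_lit 2, nat_lit 2⟩,
    ⟨false, nat_lit 2048, nat_lit 20032, nat_lit 2, nat_lit 0⟩, ⟨true, nat_lit 64, nat_lit 18880, nat_lit 2, nat_lit 0⟩, ⟨false, nat_lit 8192, nat_lit 30208, nat_lit 1, nat_lit 3⟩,
    ⟨true, nat_lit 1024, nat_lit 28160, nat_lit 1, nat_lit 3⟩, ⟨false, nat_lit 32768, nat_lit 37376, nat_lit 1, nat_lit 1⟩, ⟨false, nat_lit 4096, nat_lit 61952, nat_lit 2, nat_lit 0⟩,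
    ⟨false, nat_lit 512, nat_lit 65024, nat_lit 2, nat_lit 2⟩]

def r83_7_2 : List Wr := [
    ⟨false, nat_lit 16, nat_lit 31, nat_lit 2, nat_lit 0⟩, ⟨false, nat_lit 2, nat_lit 19, nat_lit 1, nat_lit 1⟩, ⟨true, nat_lit 1, nat_lit 19, nat_lit 1, nat_lit 1⟩,
    ⟨true, nat_lit 8, nat_lit 28, nat_lit 1, nat_lit 1⟩, ⟨false, nat_lit 256, nat_lit 484, nat_lit 2, nat_lit 0⟩, ⟨false, nat_lit 32, nat_lit 292, nat_lit 1, nat_lit 1⟩,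
    ⟨true, nat_lit 4, nat_lit 316, nat_lit 2, nat_lit 0⟩, ⟨true, nat_lit 128, nat_lit 448, nat_lit 1, nat_lit 1⟩, ⟨false, nat_lit 16384, nat_lit 32320, nat_lit 2, nat_lit 2⟩,
    ⟨false, nat_lit 2048, nat_lit 20032, nat_lit 2, nat_lit 0⟩, ⟨true, nat_lit 64, nat_lit 18880, nat_lit 2, nat_lit 0⟩, ⟨true, nat_lit 1024, nat_lit 19968, nat_lit 1, nat_lit 2⟩,
    ⟨false, nat_lit 32768, nat_lit 45568, nat_lit 1, nat_lit 2⟩, ⟨false, nat_lit 8192, nat_lit 61952, nat_lit 2, nat_lit 0⟩, ⟨true, nat_lit 512, nat_lit 60928, nat_lit 2, nat_lit 1⟩,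
    ⟨false, nat_lit 4096, nat_lit 61440, nat_lit 1, nat_lit 2⟩]

def l83_7 : List (Nat × List Wr × Nat) := [
  (nat_lit 5, r83_7_0, nat_lit 1), (nat_lit 6, r83_7_1, nat_lit 0), (nat_lit 4, r83_7_2, nat_lit 0)]

end Pool.Agent.EC4.Run
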