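import Pool.Agent.Lib.MP_ec4eff_co.R5.Srch

/-! Generated file (project R5): results of the first lune -/

namespace Pool.Agent.EC4.Run

def r91_0_0 : List Wr := [
    ⟨false, nat_lit 32, nat_lit 63, nat_lit 2, nat_lit 1⟩, ⟨false, nat_lit 4, nat_lit 39, nat_lit 1, nat_lit 2⟩, ⟨true, nat_lit 1, nat_lit 37, nat_lit 1, nat_lit 1⟩,
    ⟨false, nat_lit 4096, nat_lit 8154, nat_lit 3, nat_lit 2⟩, ⟨false, nat_lit 16, nat_lit 4154, nat_lit 2, nat_lit 0⟩, ⟨true, nat_lit 2, nat_lit 4150, nat_lit 1, nat_lit 3⟩,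
    ⟨true, nat_lit 512, nat_lit 5064, nat_lit 2, nat_lit 1⟩, ⟨false, nat_lit 32768, nat_lit 60872, nat_lit 3, nat_lit 1⟩, ⟨false, nat_lit 256, nat_lit 37832, nat_lit 2, nat_lit 2⟩,
    ⟨true, nat_lit 64, nat_lit 37704, nat_lit 2, nat_lit 1⟩, ⟨false, nat_lit 2048, nat_lit 40072, nat_lit 2, nat_lit 1⟩, ⟨true, nat_lit 128, nat_lit 39816, nat_lit 2, nat_lit 2⟩,
    ⟨false, nat_lit 16384, nat_lit 58376, nat_lit 2, nat_lit 0⟩, ⟨false, nat_lit 1024, nat_lit 56328, nat_lit 2, nat_lit 1⟩, ⟨true, nat_lit 8, nat_lit 57336, nat_lit 4, nat_lit 1⟩,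
    ⟨false, nat_lit 8192, nat_lit 57344, nat_lit 1, nat_lit 1⟩]

def r91_0_1 : List Wr := [
    ⟨false, nat_lit 32, nat_lit 63, nat_lit 2, nat_lit 1⟩, ⟨false, nat_lit 4, nat_lit 39, nat_lit 1, nat_lit 2⟩, ⟨true, nat_lit 1, nat_lit 37, nat_lit 1, nat_lit 1⟩,
    ⟨false, nat_lit 4096, nat_lit 8154, nat_lit 3, nat_lit 2⟩, ⟨false, nat_lit 16, nat_lit 4154, nat_lit 2, nat_lit 0⟩, ⟨true, nat_lit 2, nat_lit 4150, nat_lit 1, nat_lit 3⟩,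
    ⟨false, nat_lit 512, nat_lit 5064, nat_lit 2, nat_lit 1⟩, ⟨true, nat_lit 64, nat_lit 4680, nat_lit 1, nat_lit 2⟩, ⟨false, nat_lit 2048, nat_lit 7560, nat_lit 2, nat_lit 1⟩,
    ⟨false, nat_lit 256, nat_lit 7048, nat_lit 2, nat_lit 1⟩, ⟨true, nat_lit 8, nat_lit 7032, nat_lit 3, nat_lit 0⟩, ⟨false, nat_lit 32768, nat_lit 58496, nat_lit 2, nat_lit 0⟩,
    ⟨false, nat_lit 1024, nat_lit 40064, nat_lit 2, nat_lit 0⟩, ⟨true, nat_lit 128, nat_lit 40832, nat_lit 2, nat_lit 2⟩, ⟨false, nat_lit 16384, nat_lit 57344, nat_lit 1, nat_lit 1⟩,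
    ⟨false, nat_lit 8192, nat_lit 57344, nat_lit 1, nat_lit 1⟩]

def r91_0_2 : List Wr := [
    ⟨false, nat_lit 32, nat_lit 63, nat_lit 2, nat_lit 1⟩, ⟨false, nat_lit 2, nat_lit 35, nat_lit 1, nat_lit 1⟩, ⟨true, nat_lit 1, nat_lit 35, nat_lit 1, nat_lit 1⟩,
    ⟨false, nat_lit 4096, nat_lit 8156, nat_lit 3, nat_lit 2⟩, ⟨false, nat_lit 16, nat_lit 4156, nat_lit 2, nat_lit 0⟩, ⟨true, nat_lit 4, nat_lit 4148, nat_lit 1, nat_lit 2⟩,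
    ⟨true, nat_lit 512, nat_lit 5064, nat_lit 2, nat_lit 1⟩, ⟨false, nat_lit 32768, nat_lit 60872, nat_lit 3, nat_lit 1⟩, ⟨false, nat_lit 256, nat_lit 37832, nat_lit 2, nat_lit 2⟩,
    ⟨true, nat_lit 64, nat_lit 37704, nat_lit 2, nat_lit 1⟩, ⟨false, nat_lit 2048, nat_lit 40072, nat_lit 2, nat_lit 1⟩, ⟨true, nat_lit 128, nat_lit 39816, nat_lit 2, nat_lit 2⟩,
    ⟨false, nat_lit 16384, nat_lit 58376, nat_lit 2, nat_lit 0⟩, ⟨false, nat_lit 1024, nat_lit 56328, nat_lit 2, nat_lit 1⟩, ⟨true, nat_lit 8, nat_lit 57336, nat_lit 4, nat_lit 1⟩,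
    ⟨false, nat_lit 8192, nat_lit 57344, nat_lit 1, nat_lit 1⟩]

def r91_0_3 : List Wr := [
    ⟨false, nat_lit 32, nat_lit 63, nat_lit 2, nat_lit 1⟩, ⟨false, nat_lit 2, nat_lit 35, nat_lit 1, nat_lit 1⟩, ⟨true, nat_lit 1, nat_lit 35, nat_lit 1, nat_lit 1⟩,
    ⟨false, nat_lit 4096, nat_lit 8156, nat_lit 3, nat_lit 2⟩, ⟨false, nat_lit 16, nat_lit 4156, nat_lit 2, nat_lit 0⟩, ⟨true, nat_lit 4, nat_lit 4148, nat_lit 1, nat_lit 2⟩,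
    ⟨false, nat_lit 512, nat_lit 5064, nat_lit 2, nat_lit 1⟩, ⟨true, nat_lit 64, nat_lit 4680, nat_lit 1, nat_lit 2⟩, ⟨false, nat_lit 2048, nat_lit 7560, nat_lit 2, nat_lit 1⟩,
    ⟨false, nat_lit 256, nat_lit 7048, nat_lit 2, nat_lit 1⟩, ⟨true, nat_lit 8, nat_lit 7032, nat_lit 3, nat_lit 0⟩, ⟨false, nat_lit 32768, nat_lit 58496, nat_lit 2, nat_lit 0⟩,
    ⟨false, nat_lit 1024, nat_lit 40064, nat_lit 2, nat_lit 0⟩, ⟨true, nat_lit 128, nat_lit 40832, nat_lit 2, nat_lit 2⟩, ⟨false, nat_lit 16384, nat_lit 57344, nat_lit 1, nat_lit 1⟩,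
    ⟨false, nat_lit 8192, nat_lit 57344, nat_lit 1, nat_lit 1⟩]

def r91_0_4 : List Wr := [
    ⟨true, nat_lit 1, nat_lit 1, nat_lit 0, nat_lit 2⟩, ⟨false, nat_lit 32, nat_lit 62, nat_lit 2, nat_lit 0⟩, ⟨false, nat_lit 4, nat_lit 38, nat_lit 1, nat_lit 1⟩,
    ⟨true, nat_lit 2, nat_lit 38, nat_lit 1, nat_lit 1⟩, ⟨false, nat_lit 512, nat_lit 984, nat_lit 2, nat_lit 1⟩, ⟨false, nat_lit 64, nat_lit 600, nat_lit 1, nat_lit 2⟩,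
    ⟨true, nat_lit 16, nat_lit 632, nat_lit 2, nat_lit 0⟩, ⟨false, nat_lit 4096, nat_lit 7560, nat_lit 2, nat_lit 1⟩, ⟨false, nat_lit 256, nat_lit 5000, nat_lit 2, nat_lit 0⟩,
    ⟨true, nat_lit 8, nat_lit 4984, nat_lit 2, nat_lit 2⟩, ⟨true, nat_lit 2048, nat_lit 7296, nat_lit 1, nat_lit 2⟩, ⟨false, nat_lit 32768, nat_lit 58496, nat_lit 2, nat_lit 0⟩,
    ⟨false, nat_lit 1024, nat_lit 40064, nat_lit 2, nat_lit 0⟩, ⟨true, nat_lit 128, nat_lit 40832, nat_lit 2, nat_lit 2⟩, ⟨false, nat_lit 16384, nat_lit 57344, nat_lit 1, nat_lit 1⟩,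
    ⟨false, nat_lit 8192, nat_lit 57344, nat_lit 1, nat_lit 1⟩]

def r91_0_5 : List Wr := [
    ⟨false, nat_lit 4, nat_lit 7, nat_lit 1, nat_lit 1⟩, ⟨false, nat_lit 2, nat_lit 7, nat_lit 1, nat_lit 1⟩, ⟨true, nat_lit 1, nat_lit 7, nat_lit 1, nat_lit 1⟩,
    ⟨true, nat_lit 32, nat_lit 56, nat_lit 1, nat_lit 1⟩, ⟨false, nat_lit 512, nat_lit 984, nat_lit 2, nat_lit 1⟩, ⟨false, nat_lit 64, nat_lit 600, nat_lit 1, nat_lit 2⟩,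
    ⟨true, nat_lit 16, nat_lit 632, nat_lit 2, nat_lit 0⟩, ⟨false, nat_lit 4096, nat_lit 7560, nat_lit 2, nat_lit 1⟩, ⟨false, nat_lit 256, nat_lit 5000, nat_lit 2, nat_lit 0⟩,
    ⟨true, nat_lit 8, nat_lit 4984, nat_lit 2, nat_lit 2⟩, ⟨true, nat_lit 2048, nat_lit 7296, nat_lit 1, nat_lit 2⟩, ⟨false, nat_lit 32768, nat_lit 58496, nat_lit 2, nat_lit 0⟩,
    ⟨false, nat_lit 1024, nat_lit 40064, nat_lit 2, nat_lit 0⟩, ⟨true, nat_lit 128, nat_lit 40832, nat_lit 2, nat_lit 2⟩, ⟨false, nat_lit 16384, nat_lit 57344, nat_lit 1, nat_lit 1⟩,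
    ⟨false, nat_lit 8192, nat_lit 57344, nat_lit 1, nat_lit 1⟩]

def r91_0_6 : List Wr := [
    ⟨true, nat_lit 1, nat_lit 1, nat_lit 0, nat_lit 2⟩, ⟨false, nat_lit 32, nat_lit 62, nat_lit 2, nat_lit 0⟩, ⟨false, nat_lit 4, nat_lit 38, nat_lit 1, nat_lit 1⟩,
    ⟨true, nat_lit 2, nat_lit 38, nat_lit 1, nat_lit 1⟩, ⟨false, nat_lit 512, nat_lit 984, nat_lit 2, nat_lit 1⟩, ⟨false, nat_lit 64, nat_lit 600, nat_lit 1, nat_lit 2⟩,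
    ⟨true, nat_lit 16, nat_lit 632, nat_lit 2, nat_lit 0⟩, ⟨false, nat_lit 4096, nat_lit 7560, nat_lit 2, nat_lit 1⟩, ⟨false, nat_lit 256, nat_lit 5000, nat_lit 2, nat_lit 0⟩,
    ⟨true, nat_lit 8, nat_lit 4984, nat_lit 2, nat_lit 2⟩, ⟨false, nat_lit 32768, nat_lit 60544, nat_lit 2, nat_lit 1⟩, ⟨false, nat_lit 2048, nat_lit 40064, nat_lit 2, nat_lit 0⟩,
    ⟨true, nat_lit 128, nat_lit 39808, nat_lit 2, nat_lit 1⟩, ⟨true, nat_lit 1024, nat_lit 39936, nat_lit 1, nat_lit 2⟩, ⟨false, nat_lit 16384, nat_lit 57344, nat_lit 1, nat_lit 1⟩,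
    ⟨false, nat_lit 8192, nat_lit 57344, nat_lit 1, nat_lit 1⟩]

def l91_0 : List (Nat × List Wr × Nat) := [
  (nat_lit 6, r91_0_0, nat_lit 0), (nat_lit 6, r91_0_1, nat_lit 0), (nat_lit 4, r91_0_2, nat_lit 0),
  (nat_lit 4, r91_0_3, nat_lit 0), (nat_lit 6, r91_0_4, nat_lit 0), (nat_lit 6, r91_0_5, nat_lit 0),
  (nat_lit 6, r91_0_6, nat_lit 0)]

def r91_1_0 : List Wr := [
    ⟨false, nat_lit 4, nat_lit 7, nat_lit 1, nat_lit 1⟩, ⟨false, nat_lit 2, nat_lit 7, nat_lit 1, nat_lit 1⟩, ⟨true, nat_lit 1, nat_lit 7, nat_lit 1, nat_lit 1⟩,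
    ⟨true, nat_lit 32, nat_lit 56, nat_lit 1, nat_lit 1⟩, ⟨false, nat_lit 512, nat_lit 984, nat_lit 2, nat_lit 1⟩, ⟨false, nat_lit 64, nat_lit 600, nat_lit 1, nat_lit 2⟩,
    ⟨true, nat_lit 16, nat_lit 632, nat_lit 2, nat_lit 0⟩, ⟨false, nat_lit 4096, nat_lit 7560, nat_lit 2, nat_lit 1⟩, ⟨false, nat_lit 256, nat_lit 5000, nat_lit 2, nat_lit 0⟩,
    ⟨true, nat_lit 8, nat_lit 4984, nat_lit 2, nat_lit 2⟩, ⟨false, nat_lit 32768, nat_lit 60544, nat_lit 2, nat_lit 1⟩, ⟨false, nat_lit 2048, nat_lit 40064, nat_lit 2, nat_lit 0⟩,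
    ⟨true, nat_lit 128, nat_lit 39808, nat_lit 2, nat_lit 1⟩, ⟨true, nat_lit 1024, nat_lit 39936, nat_lit 1, nat_lit 2⟩, ⟨false, nat_lit 16384, nat_lit 57344, nat_lit 1, nat_lit 1⟩,
    ⟨false, nat_lit 8192, nat_lit 57344, nat_lit 1, nat_lit 1⟩]

def r91_1_1 : List Wr := [
    ⟨true, nat_lit 1, nat_lit 1, nat_lit 0, nat_lit 2⟩, ⟨false, nat_lit 32, nat_lit 62, nat_lit 2, nat_lit 0⟩, ⟨false, nat_lit 4, nat_lit 38, nat_lit 1, nat_lit 1⟩,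
    ⟨true, nat_lit 2, nat_lit 38, nat_lit 1, nat_lit 1⟩, ⟨false, nat_lit 4096, nat_lit 8152, nat_lit 3, nat_lit 1⟩, ⟨false, nat_lit 512, nat_lit 5080, nat_lit 2, nat_lit 2⟩,
    ⟨true, nat_lit 16, nat_lit 4664, nat_lit 2, nat_lit 0⟩, ⟨true, nat_lit 256, nat_lit 5064, nat_lit 2, nat_lit 1⟩, ⟨false, nat_lit 2048, nat_lit 7368, nat_lit 2, nat_lit 1⟩,
    ⟨false, nat_lit 128, nat_lit 7112, nat_lit 2, nat_lit 2⟩, ⟨true, nat_lit 64, nat_lit 7112, nat_lit 2, nat_lit 2⟩, ⟨false, nat_lit 32768, nat_lit 58376, nat_lit 2, nat_lit 0⟩,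
    ⟨false, nat_lit 1024, nat_lit 39944, nat_lit 2, nat_lit 0⟩, ⟨true, nat_lit 8, nat_lit 40952, nat_lit 3, nat_lit 3⟩, ⟨false, nat_lit 16384, nat_lit 57344, nat_lit 1, nat_lit 1⟩,
    ⟨false, nat_lit 8192, nat_lit 57344, nat_lit 1, nat_lit 1⟩]

def r91_1_2 : List Wr := [
    ⟨false, nat_lit 4, nat_lit 7, nat_lit 1, nat_lit 1⟩, ⟨false, nat_lit 2, nat_lit 7, nat_lit 1, nat_lit 1⟩, ⟨true, nat_lit 1, nat_lit 7, nat_lit 1, nat_lit 1⟩,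
    ⟨true, nat_lit 32, nat_lit 56, nat_lit 1, nat_lit 1⟩, ⟨false, nat_lit 4096, nat_lit 8152, nat_lit 3, nat_lit 1⟩, ⟨false, nat_lit 512, nat_lit 5080, nat_lit 2, nat_lit 2⟩,
    ⟨true, nat_lit 16, nat_lit 4664, nat_lit 2, nat_lit 0⟩, ⟨true, nat_lit 256, nat_lit 5064, nat_lit 2, nat_lit 1⟩, ⟨false, nat_lit 2048, nat_lit 7368, nat_lit 2, nat_lit 1⟩,
    ⟨false, nat_lit 128, nat_lit 7112, nat_lit 2, nat_lit 2⟩, ⟨true, nat_lit 64, nat_lit 7112, nat_lit 2, nat_lit 2⟩, ⟨false, nat_lit 32768, nat_lit 58376, nat_lit 2, nat_lit 0⟩,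
    ⟨false, nat_lit 1024, nat_lit 39944, nat_lit 2, nat_lit 0⟩, ⟨true, nat_lit 8, nat_lit 40952, nat_lit 3, nat_lit 3⟩, ⟨false, nat_lit 16384, nat_lit 57344, nat_lit 1, nat_lit 1⟩,
    ⟨false, nat_lit 8192, nat_lit 57344, nat_lit 1, nat_lit 1⟩]

def l91_1 : List (Nat × List Wr × Nat) := [
  (nat_lit 6, r91_1_0, nat_lit 0), (nat_lit 6, r91_1_1, nat_lit 0), (nat_lit 6, r91_1_2, nat_lit 0)]

end Pool.Agent.EC4.Run
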