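import Pool.Agent.Lib.MP_ec4eff_co.R5.Srch

/-! Generated file (project R5): results of the first lune -/

namespace Pool.Agent.EC4.Run

def r19_0_0 : List Wr := [
    ⟨true, nat_lit 4, nat_lit 7, nat_lit 1, nat_lit 1⟩, ⟨false, nat_lit 128, nat_lit 251, nat_lit 2, nat_lit 2⟩, ⟨false, nat_lit 8, nat_lit 139, nat_lit 1, nat_lit 2⟩,
    ⟨true, nat_lit 2, nat_lit 143, nat_lit 2, nat_lit 0⟩, ⟨false, nat_lit 64, nat_lit 241, nat_lit 2, nat_lit 0⟩, ⟨false, nat_lit 16, nat_lit 209, nat_lit 1, nat_lit 2⟩,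
    ⟨true, nat_lit 1, nat_lit 223, nat_lit 2, nat_lit 2⟩, ⟨false, nat_lit 2048, nat_lit 3872, nat_lit 2, nat_lit 0⟩, ⟨false, nat_lit 256, nat_lit 2336, nat_lit 1, nat_lit 1⟩,
    ⟨true, nat_lit 32, nat_lit 2528, nat_lit 2, nat_lit 0⟩, ⟨true, nat_lit 1024, nat_lit 3584, nat_lit 1, nat_lit 1⟩, ⟨false, nat_lit 32768, nat_lit 61952, nat_lit 2, nat_lit 0⟩,
    ⟨false, nat_lit 4096, nat_lit 37376, nat_lit 1, nat_lit 1⟩, ⟨true, nat_lit 512, nat_lit 40448, nat_lit 2, nat_lit 0⟩, ⟨false, nat_lit 16384, nat_lit 57344, nat_lit 1, nat_lit 1⟩,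
    ⟨false, nat_lit 8192, nat_lit 57344, nat_lit 1, nat_lit 1⟩]

def r19_0_1 : List Wr := [
    ⟨false, nat_lit 2048, nat_lit 4095, nat_lit 4, nat_lit 1⟩, ⟨false, nat_lit 128, nat_lit 2303, nat_lit 3, nat_lit 1⟩, ⟨true, nat_lit 4, nat_lit 2183, nat_lit 2, nat_lit 0⟩,
    ⟨false, nat_lit 256, nat_lit 2427, nat_lit 2, nat_lit 3⟩, ⟨false, nat_lit 64, nat_lit 2555, nat_lit 3, nat_lit 1⟩, ⟨false, nat_lit 16, nat_lit 2523, nat_lit 2, nat_lit 3⟩,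
    ⟨true, nat_lit 8, nat_lit 2523, nat_lit 2, nat_lit 3⟩, ⟨false, nat_lit 1024, nat_lit 3619, nat_lit 2, nat_lit 1⟩, ⟨false, nat_lit 32, nat_lit 3555, nat_lit 3, nat_lit 0⟩,
    ⟨false, nat_lit 2, nat_lit 3583, nat_lit 3, nat_lit 3⟩, ⟨true, nat_lit 1, nat_lit 3583, nat_lit 3, nat_lit 3⟩, ⟨false, nat_lit 32768, nat_lit 61952, nat_lit 2, nat_lit 0⟩,
    ⟨false, nat_lit 4096, nat_lit 37376, nat_lit 1, nat_lit 1⟩, ⟨true, nat_lit 512, nat_lit 40448, nat_lit 2, nat_lit 0⟩, ⟨false, nat_lit 16384, nat_lit 57344, nat_lit 1, nat_lit 1⟩,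
    ⟨false, nat_lit 8192, nat_lit 57344, nat_lit 1, nat_lit 1⟩]

def r19_0_2 : List Wr := [
    ⟨false, nat_lit 2048, nat_lit 4095, nat_lit 4, nat_lit 1⟩, ⟨false, nat_lit 128, nat_lit 2303, nat_lit 3, nat_lit 1⟩, ⟨true, nat_lit 4, nat_lit 2183, nat_lit 2, nat_lit 0⟩,
    ⟨false, nat_lit 256, nat_lit 2427, nat_lit 2, nat_lit 3⟩, ⟨false, nat_lit 64, nat_lit 2555, nat_lit 3, nat_lit 1⟩, ⟨false, nat_lit 16, nat_lit 2523, nat_lit 2, nat_lit 3⟩,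
    ⟨true, nat_lit 8, nat_lit 2523, nat_lit 2, nat_lit 3⟩, ⟨false, nat_lit 1024, nat_lit 3619, nat_lit 2, nat_lit 1⟩, ⟨false, nat_lit 32, nat_lit 3555, nat_lit 3, nat_lit 0⟩,
    ⟨true, nat_lit 2, nat_lit 3583, nat_lit 3, nat_lit 3⟩, ⟨false, nat_lit 4096, nat_lit 4609, nat_lit 1, nat_lit 1⟩, ⟨false, nat_lit 512, nat_lit 7681, nat_lit 2, nat_lit 0⟩,
    ⟨true, nat_lit 1, nat_lit 8191, nat_lit 4, nat_lit 2⟩, ⟨false, nat_lit 32768, nat_lit 57344, nat_lit 1, nat_lit 1⟩, ⟨false, nat_lit 16384, nat_lit 57344, nat_lit 1, nat_lit 1⟩,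
    ⟨false, nat_lit 8192, nat_lit 57344, nat_lit 1, nat_lit 1⟩]

def r19_0_3 : List Wr := [
    ⟨false, nat_lit 2048, nat_lit 4095, nat_lit 4, nat_lit 1⟩, ⟨false, nat_lit 128, nat_lit 2303, nat_lit 3, nat_lit 1⟩, ⟨true, nat_lit 4, nat_lit 2183, nat_lit 2, nat_lit 0⟩,
    ⟨false, nat_lit 256, nat_lit 2427, nat_lit 2, nat_lit 3⟩, ⟨false, nat_lit 64, nat_lit 2555, nat_lit 3, nat_lit 1⟩, ⟨false, nat_lit 16, nat_lit 2523, nat_lit 2, nat_lit 3⟩,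
    ⟨true, nat_lit 8, nat_lit 2523, nat_lit 2, nat_lit 3⟩, ⟨false, nat_lit 32768, nat_lit 63011, nat_lit 3, nat_lit 1⟩, ⟨false, nat_lit 32, nat_lit 35299, nat_lit 3, nat_lit 0⟩,
    ⟨true, nat_lit 2, nat_lit 35327, nat_lit 3, nat_lit 3⟩, ⟨false, nat_lit 4096, nat_lit 38401, nat_lit 1, nat_lit 3⟩, ⟨true, nat_lit 1024, nat_lit 40449, nat_lit 2, nat_lit 1⟩,
    ⟨false, nat_lit 16384, nat_lit 57857, nat_lit 2, nat_lit 0⟩, ⟨false, nat_lit 512, nat_lit 56833, nat_lit 2, nat_lit 2⟩, ⟨true, nat_lit 1, nat_lit 57343, nat_lit 5, nat_lit 1⟩,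
    ⟨false, nat_lit 8192, nat_lit 57344, nat_lit 1, nat_lit 1⟩]

def r19_0_4 : List Wr := [
    ⟨false, nat_lit 2048, nat_lit 4095, nat_lit 4, nat_lit 1⟩, ⟨false, nat_lit 128, nat_lit 2303, nat_lit 3, nat_lit 1⟩, ⟨true, nat_lit 4, nat_lit 2183, nat_lit 2, nat_lit 0⟩,
    ⟨false, nat_lit 64, nat_lit 2299, nat_lit 2, nat_lit 3⟩, ⟨true, nat_lit 16, nat_lit 2267, nat_lit 2, nat_lit 2⟩, ⟨false, nat_lit 256, nat_lit 2347, nat_lit 2, nat_lit 1⟩,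
    ⟨false, nat_lit 8, nat_lit 2523, nat_lit 2, nat_lit 3⟩, ⟨true, nat_lit 2, nat_lit 2527, nat_lit 3, nat_lit 1⟩, ⟨false, nat_lit 4096, nat_lit 5665, nat_lit 1, nat_lit 3⟩,
    ⟨false, nat_lit 1024, nat_lit 7713, nat_lit 2, nat_lit 1⟩, ⟨true, nat_lit 32, nat_lit 7649, nat_lit 3, nat_lit 0⟩, ⟨false, nat_lit 32768, nat_lit 57857, nat_lit 2, nat_lit 0⟩,
    ⟨false, nat_lit 512, nat_lit 40449, nat_lit 2, nat_lit 1⟩, ⟨true, nat_lit 1, nat_lit 40959, nat_lit 4, nat_lit 3⟩, ⟨false, nat_lit 16384, nat_lit 57344, nat_lit 1, nat_lit 1⟩,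
    ⟨false, nat_lit 8192, nat_lit 57344, nat_lit 1, nat_lit 1⟩]

def r19_0_5 : List Wr := [
    ⟨false, nat_lit 2048, nat_lit 4095, nat_lit 4, nat_lit 1⟩, ⟨false, nat_lit 128, nat_lit 2303, nat_lit 3, nat_lit 1⟩, ⟨true, nat_lit 4, nat_lit 2183, nat_lit 2, nat_lit 0⟩,
    ⟨false, nat_lit 64, nat_lit 2299, nat_lit 2, nat_lit 3⟩, ⟨true, nat_lit 16, nat_lit 2267, nat_lit 2, nat_lit 2⟩, ⟨false, nat_lit 256, nat_lit 2347, nat_lit 2, nat_lit 1⟩,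
    ⟨false, nat_lit 8, nat_lit 2523, nat_lit 2, nat_lit 3⟩, ⟨true, nat_lit 2, nat_lit 2527, nat_lit 3, nat_lit 1⟩, ⟨true, nat_lit 32, nat_lit 2529, nat_lit 2, nat_lit 1⟩,
    ⟨false, nat_lit 32768, nat_lit 62977, nat_lit 2, nat_lit 2⟩, ⟨false, nat_lit 1024, nat_lit 36353, nat_lit 2, nat_lit 0⟩, ⟨true, nat_lit 1, nat_lit 36351, nat_lit 4, nat_lit 1⟩,
    ⟨false, nat_lit 16384, nat_lit 61952, nat_lit 2, nat_lit 0⟩, ⟨false, nat_lit 4096, nat_lit 53760, nat_lit 1, nat_lit 2⟩, ⟨true, nat_lit 512, nat_lit 56832, nat_lit 2, nat_lit 1⟩,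
    ⟨false, nat_lit 8192, nat_lit 57344, nat_lit 1, nat_lit 1⟩]

def r19_0_6 : List Wr := [
    ⟨true, nat_lit 4, nat_lit 7, nat_lit 1, nat_lit 1⟩, ⟨true, nat_lit 128, nat_lit 251, nat_lit 2, nat_lit 2⟩, ⟨false, nat_lit 2048, nat_lit 3963, nat_lit 3, nat_lit 2⟩,
    ⟨false, nat_lit 16, nat_lit 2203, nat_lit 2, nat_lit 1⟩, ⟨true, nat_lit 2, nat_lit 2199, nat_lit 2, nat_lit 1⟩, ⟨false, nat_lit 256, nat_lit 2409, nat_lit 2, nat_lit 1⟩,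
    ⟨false, nat_lit 64, nat_lit 2537, nat_lit 2, nat_lit 2⟩, ⟨true, nat_lit 8, nat_lit 2521, nat_lit 2, nat_lit 2⟩, ⟨true, nat_lit 32, nat_lit 2529, nat_lit 2, nat_lit 1⟩,
    ⟨false, nat_lit 32768, nat_lit 62977, nat_lit 2, nat_lit 2⟩, ⟨false, nat_lit 1024, nat_lit 36353, nat_lit 2, nat_lit 0⟩, ⟨true, nat_lit 1, nat_lit 36351, nat_lit 4, nat_lit 1⟩,
    ⟨false, nat_lit 16384, nat_lit 61952, nat_lit 2, nat_lit 0⟩, ⟨false, nat_lit 4096, nat_lit 53760, nat_lit 1, nat_lit 2⟩, ⟨true, nat_lit 512, nat_lit 56832, nat_lit 2, nat_lit 1⟩,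
    ⟨false, nat_lit 8192, nat_lit 57344, nat_lit 1, nat_lit 1⟩]

def r19_0_7 : List Wr := [
    ⟨true, nat_lit 4, nat_lit 7, nat_lit 1, nat_lit 1⟩, ⟨false, nat_lit 2048, nat_lit 4091, nat_lit 3, nat_lit 3⟩, ⟨false, nat_lit 128, nat_lit 2299, nat_lit 3, nat_lit 0⟩,
    ⟨true, nat_lit 2, nat_lit 2183, nat_lit 2, nat_lit 0⟩, ⟨true, nat_lit 16, nat_lit 2201, nat_lit 1, nat_lit 3⟩, ⟨false, nat_lit 256, nat_lit 2409, nat_lit 2, nat_lit 1⟩,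
    ⟨false, nat_lit 64, nat_lit 2537, nat_lit 2, nat_lit 2⟩, ⟨true, nat_lit 8, nat_lit 2521, nat_lit 2, nat_lit 2⟩, ⟨true, nat_lit 32, nat_lit 2529, nat_lit 2, nat_lit 1⟩,
    ⟨false, nat_lit 32768, nat_lit 62977, nat_lit 2, nat_lit 2⟩, ⟨false, nat_lit 1024, nat_lit 36353, nat_lit 2, nat_lit 0⟩, ⟨true, nat_lit 1, nat_lit 36351, nat_lit 4, nat_lit 1⟩,
    ⟨false, nat_lit 16384, nat_lit 61952, nat_lit 2, nat_lit 0⟩, ⟨false, nat_lit 4096, nat_lit 53760, nat_lit 1, nat_lit 2⟩, ⟨true, nat_lit 512, nat_lit 56832, nat_lit 2, nat_lit 1⟩,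
    ⟨false, nat_lit 8192, nat_lit 57344, nat_lit 1, nat_lit 1⟩]

def r19_0_8 : List Wr := [
    ⟨true, nat_lit 4, nat_lit 7, nat_lit 1, nat_lit 1⟩, ⟨false, nat_lit 32768, nat_lit 65531, nat_lit 4, nat_lit 4⟩, ⟨false, nat_lit 128, nat_lit 33019, nat_lit 3, nat_lit 0⟩,
    ⟨true, nat_lit 2, nat_lit 32903, nat_lit 2, nat_lit 0⟩, ⟨false, nat_lit 2048, nat_lit 36729, nat_lit 3, nat_lit 2⟩, ⟨false, nat_lit 256, nat_lit 35193, nat_lit 2, nat_lit 3⟩,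
    ⟨false, nat_lit 64, nat_lit 35321, nat_lit 3, nat_lit 1⟩, ⟨true, nat_lit 16, nat_lit 35289, nat_lit 2, nat_lit 3⟩, ⟨false, nat_lit 4096, nat_lit 38441, nat_lit 2, nat_lit 2⟩,
    ⟨false, nat_lit 32, nat_lit 39401, nat_lit 3, nat_lit 1⟩, ⟨true, nat_lit 8, nat_lit 39417, nat_lit 3, nat_lit 2⟩, ⟨true, nat_lit 1024, nat_lit 40449, nat_lit 2, nat_lit 1⟩,
    ⟨false, nat_lit 16384, nat_lit 57857, nat_lit 2, nat_lit 0⟩, ⟨false, nat_lit 512, nat_lit 56833, nat_lit 2, nat_lit 2⟩, ⟨true, nat_lit 1, nat_lit 57343, nat_lit 5, nat_lit 1⟩,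
    ⟨false, nat_lit 8192, nat_lit 57344, nat_lit 1, nat_lit 1⟩]

def r19_0_9 : List Wr := [
    ⟨true, nat_lit 4, nat_lit 7, nat_lit 1, nat_lit 1⟩, ⟨false, nat_lit 128, nat_lit 251, nat_lit 2, nat_lit 2⟩, ⟨false, nat_lit 16, nat_lit 155, nat_lit 1, nat_lit 3⟩,
    ⟨true, nat_lit 2, nat_lit 151, nat_lit 2, nat_lit 0⟩, ⟨false, nat_lit 64, nat_lit 233, nat_lit 2, nat_lit 0⟩, ⟨false, nat_lit 8, nat_lit 217, nat_lit 1, nat_lit 3⟩,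
    ⟨true, nat_lit 1, nat_lit 223, nat_lit 2, nat_lit 2⟩, ⟨false, nat_lit 2048, nat_lit 3872, nat_lit 2, nat_lit 0⟩, ⟨false, nat_lit 256, nat_lit 2336, nat_lit 1, nat_lit 1⟩,
    ⟨true, nat_lit 32, nat_lit 2528, nat_lit 2, nat_lit 0⟩, ⟨true, nat_lit 1024, nat_lit 3584, nat_lit 1, nat_lit 1⟩, ⟨false, nat_lit 32768, nat_lit 61952, nat_lit 2, nat_lit 0⟩,
    ⟨false, nat_lit 4096, nat_lit 37376, nat_lit 1, nat_lit 1⟩, ⟨true, nat_lit 512, nat_lit 40448, nat_lit 2, nat_lit 0⟩, ⟨false, nat_lit 16384, nat_lit 57344, nat_lit 1, nat_lit 1⟩,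
    ⟨false, nat_lit 8192, nat_lit 57344, nat_lit 1, nat_lit 1⟩]

def r19_0_10 : List Wr := [
    ⟨false, nat_lit 4, nat_lit 7, nat_lit 1, nat_lit 1⟩, ⟨true, nat_lit 2, nat_lit 7, nat_lit 1, nat_lit 1⟩, ⟨false, nat_lit 128, nat_lit 249, nat_lit 2, nat_lit 1⟩,
    ⟨false, nat_lit 16, nat_lit 153, nat_lit 1, nat_lit 2⟩, ⟨true, nat_lit 1, nat_lit 151, nat_lit 2, nat_lit 0⟩, ⟨false, nat_lit 2048, nat_lit 3944, nat_lit 2, nat_lit 2⟩,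
    ⟨false, nat_lit 64, nat_lit 2280, nat_lit 2, nat_lit 0⟩, ⟨true, nat_lit 8, nat_lit 2264, nat_lit 1, nat_lit 3⟩, ⟨false, nat_lit 1024, nat_lit 3872, nat_lit 2, nat_lit 0⟩,
    ⟨false, nat_lit 256, nat_lit 3360, nat_lit 1, nat_lit 2⟩, ⟨true, nat_lit 32, nat_lit 3552, nat_lit 2, nat_lit 1⟩, ⟨false, nat_lit 32768, nat_lit 61952, nat_lit 2, nat_lit 0⟩,
    ⟨false, nat_lit 4096, nat_lit 37376, nat_lit 1, nat_lit 1⟩, ⟨true, nat_lit 512, nat_lit 40448, nat_lit 2, nat_lit 0⟩, ⟨false, nat_lit 16384, nat_lit 57344, nat_lit 1, nat_lit 1⟩,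
    ⟨false, nat_lit 8192, nat_lit 57344, nat_lit 1, nat_lit 1⟩]

def l19_0 : List (Nat × List Wr × Nat) := [
  (nat_lit 4, r19_0_0, nat_lit 0), (nat_lit 6, r19_0_1, nat_lit 0), (nat_lit 6, r19_0_2, nat_lit 0),
  (nat_lit 6, r19_0_3, nat_lit 0), (nat_lit 6, r19_0_4, nat_lit 0), (nat_lit 4, r19_0_5, nat_lit 0),
  (nat_lit 6, r19_0_6, nat_lit 0), (nat_lit 6, r19_0_7, nat_lit 0), (nat_lit 6, r19_0_8, nat_lit 0),
  (nat_lit 6, r19_0_9, nat_lit 0), (nat_lit 6, r19_0_10, nat_lit 0)]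

def r19_1_0 : List Wr := [
    ⟨false, nat_lit 4, nat_lit 7, nat_lit 1, nat_lit 1⟩, ⟨true, nat_lit 2, nat_lit 7, nat_lit 1, nat_lit 1⟩, ⟨false, nat_lit 128, nat_lit 249, nat_lit 2, nat_lit 1⟩,
    ⟨false, nat_lit 8, nat_lit 137, nat_lit 1, nat_lit 1⟩, ⟨true, nat_lit 1, nat_lit 143, nat_lit 2, nat_lit 0⟩, ⟨false, nat_lit 2048, nat_lit 3952, nat_lit 2, nat_lit 2⟩,
    ⟨false, nat_lit 64, nat_lit 2288, nat_lit 2, nat_lit 0⟩, ⟨true, nat_lit 16, nat_lit 2256, nat_lit 1, nat_lit 2⟩, ⟨false, nat_lit 1024, nat_lit 3872, nat_lit 2, nat_lit 0⟩,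
    ⟨false, nat_lit 256, nat_lit 3360, nat_lit 1, nat_lit 2⟩, ⟨true, nat_lit 32, nat_lit 3552, nat_lit 2, nat_lit 1⟩, ⟨false, nat_lit 32768, nat_lit 61952, nat_lit 2, nat_lit 0⟩,
    ⟨false, nat_lit 4096, nat_lit 37376, nat_lit 1, nat_lit 1⟩, ⟨true, nat_lit 512, nat_lit 40448, nat_lit 2, nat_lit 0⟩, ⟨false, nat_lit 16384, nat_lit 57344, nat_lit 1, nat_lit 1⟩,
    ⟨false, nat_lit 8192, nat_lit 57344, nat_lit 1, nat_lit 1⟩]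

def r19_1_1 : List Wr := [
    ⟨false, nat_lit 4, nat_lit 7, nat_lit 1, nat_lit 1⟩, ⟨false, nat_lit 2, nat_lit 7, nat_lit 1, nat_lit 1⟩, ⟨true, nat_lit 1, nat_lit 7, nat_lit 1, nat_lit 1⟩,
    ⟨false, nat_lit 128, nat_lit 248, nat_lit 2, nat_lit 0⟩, ⟨false, nat_lit 16, nat_lit 152, nat_lit 1, nat_lit 1⟩, ⟨true, nat_lit 8, nat_lit 152, nat_lit 1, nat_lit 1⟩,
    ⟨false, nat_lit 2048, nat_lit 3936, nat_lit 2, nat_lit 1⟩, ⟨false, nat_lit 256, nat_lit 2400, nat_lit 1, nat_lit 2⟩, ⟨true, nat_lit 64, nat_lit 2528, nat_lit 2, nat_lit 0⟩,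
    ⟨false, nat_lit 32768, nat_lit 63008, nat_lit 2, nat_lit 2⟩, ⟨false, nat_lit 1024, nat_lit 36384, nat_lit 2, nat_lit 0⟩, ⟨true, nat_lit 32, nat_lit 36320, nat_lit 2, nat_lit 2⟩,
    ⟨false, nat_lit 16384, nat_lit 61952, nat_lit 2, nat_lit 0⟩, ⟨false, nat_lit 4096, nat_lit 53760, nat_lit 1, nat_lit 2⟩, ⟨true, nat_lit 512, nat_lit 56832, nat_lit 2, nat_lit 1⟩,
    ⟨false, nat_lit 8192, nat_lit 57344, nat_lit 1, nat_lit 1⟩]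

def r19_1_2 : List Wr := [
    ⟨false, nat_lit 4, nat_lit 7, nat_lit 1, nat_lit 1⟩, ⟨true, nat_lit 2, nat_lit 7, nat_lit 1, nat_lit 1⟩, ⟨false, nat_lit 16, nat_lit 25, nat_lit 1, nat_lit 1⟩,
    ⟨false, nat_lit 8, nat_lit 25, nat_lit 1, nat_lit 1⟩, ⟨true, nat_lit 1, nat_lit 31, nat_lit 2, nat_lit 0⟩, ⟨true, nat_lit 128, nat_lit 224, nat_lit 1, nat_lit 1⟩,
    ⟨false, nat_lit 2048, nat_lit 3936, nat_lit 2, nat_lit 1⟩, ⟨false, nat_lit 256, nat_lit 2400, nat_lit 1, nat_lit 2⟩, ⟨true, nat_lit 64, nat_lit 2528, nat_lit 2, nat_lit 0⟩,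
    ⟨false, nat_lit 32768, nat_lit 63008, nat_lit 2, nat_lit 2⟩, ⟨false, nat_lit 1024, nat_lit 36384, nat_lit 2, nat_lit 0⟩, ⟨true, nat_lit 32, nat_lit 36320, nat_lit 2, nat_lit 2⟩,
    ⟨false, nat_lit 16384, nat_lit 61952, nat_lit 2, nat_lit 0⟩, ⟨false, nat_lit 4096, nat_lit 53760, nat_lit 1, nat_lit 2⟩, ⟨true, nat_lit 512, nat_lit 56832, nat_lit 2, nat_lit 1⟩,
    ⟨false, nat_lit 8192, nat_lit 57344, nat_lit 1, nat_lit 1⟩]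

def l19_1 : List (Nat × List Wr × Nat) := [
  (nat_lit 4, r19_1_0, nat_lit 0), (nat_lit 6, r19_1_1, nat_lit 0), (nat_lit 6, r19_1_2, nat_lit 0)]

end Pool.Agent.EC4.Run
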