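import Pool.Agent.Lib.MP_ec4eff_co.R5.Srch

/-! Generated file (project R5): results of the first lune -/

namespace Pool.Agent.EC4.Run

def r24_0_0 : List Wr := [
    ⟨false, nat_lit 4, nat_lit 7, nat_lit 1, nat_lit 1⟩, ⟨true, nat_lit 2, nat_lit 7, nat_lit 1, nat_lit 1⟩, ⟨false, nat_lit 512, nat_lit 1017, nat_lit 3, nat_lit 0⟩,
    ⟨false, nat_lit 8, nat_lit 521, nat_lit 1, nat_lit 1⟩, ⟨true, nat_lit 1, nat_lit 527, nat_lit 2, nat_lit 0⟩, ⟨true, nat_lit 64, nat_lit 624, nat_lit 1, nat_lit 2⟩,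
    ⟨false, nat_lit 32768, nat_lit 64944, nat_lit 3, nat_lit 2⟩, ⟨false, nat_lit 256, nat_lit 33712, nat_lit 2, nat_lit 1⟩, ⟨true, nat_lit 32, nat_lit 33648, nat_lit 2, nat_lit 1⟩,
    ⟨true, nat_lit 4096, nat_lit 40080, nat_lit 2, nat_lit 1⟩, ⟨false, nat_lit 16384, nat_lit 60560, nat_lit 2, nat_lit 2⟩, ⟨false, nat_lit 2048, nat_lit 56464, nat_lit 2, nat_lit 2⟩,
    ⟨true, nat_lit 128, nat_lit 56208, nat_lit 3, nat_lit 0⟩, ⟨false, nat_lit 8192, nat_lit 58384, nat_lit 2, nat_lit 0⟩, ⟨false, nat_lit 1024, nat_lit 64528, nat_lit 2, nat_lit 2⟩,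
    ⟨false, nat_lit 16, nat_lit 65520, nat_lit 3, nat_lit 4⟩]

def l24_0 : List (Nat × List Wr × Nat) := [
  (nat_lit 6, r24_0_0, nat_lit 0)]

def r61_0_0 : List Wr := [
    ⟨true, nat_lit 8, nat_lit 15, nat_lit 1, nat_lit 2⟩, ⟨false, nat_lit 128, nat_lit 247, nat_lit 2, nat_lit 2⟩, ⟨false, nat_lit 4, nat_lit 143, nat_lit 2, nat_lit 0⟩,
    ⟨true, nat_lit 1, nat_lit 141, nat_lit 1, nat_lit 2⟩, ⟨false, nat_lit 64, nat_lit 242, nat_lit 2, nat_lit 0⟩, ⟨false, nat_lit 16, nat_lit 210, nat_lit 1, nat_lit 2⟩,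
    ⟨true, nat_lit 2, nat_lit 222, nat_lit 2, nat_lit 1⟩, ⟨false, nat_lit 2048, nat_lit 3872, nat_lit 2, nat_lit 0⟩, ⟨false, nat_lit 256, nat_lit 2336, nat_lit 1, nat_lit 1⟩,
    ⟨true, nat_lit 32, nat_lit 2528, nat_lit 2, nat_lit 0⟩, ⟨true, nat_lit 1024, nat_lit 3584, nat_lit 1, nat_lit 1⟩, ⟨false, nat_lit 32768, nat_lit 61952, nat_lit 2, nat_lit 0⟩,
    ⟨false, nat_lit 4096, nat_lit 37376, nat_lit 1, nat_lit 1⟩, ⟨true, nat_lit 512, nat_lit 40448, nat_lit 2, nat_lit 0⟩, ⟨false, nat_lit 16384, nat_lit 57344, nat_lit 1, nat_lit 1⟩,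
    ⟨false, nat_lit 8192, nat_lit 57344, nat_lit 1, nat_lit 1⟩]

def r61_0_1 : List Wr := [
    ⟨false, nat_lit 16, nat_lit 31, nat_lit 1, nat_lit 3⟩, ⟨false, nat_lit 8, nat_lit 31, nat_lit 2, nat_lit 0⟩, ⟨true, nat_lit 1, nat_lit 25, nat_lit 1, nat_lit 1⟩,
    ⟨false, nat_lit 2048, nat_lit 4070, nat_lit 3, nat_lit 1⟩, ⟨false, nat_lit 128, nat_lit 2278, nat_lit 2, nat_lit 1⟩, ⟨true, nat_lit 4, nat_lit 2206, nat_lit 2, nat_lit 1⟩,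
    ⟨false, nat_lit 256, nat_lit 2402, nat_lit 1, nat_lit 3⟩, ⟨true, nat_lit 64, nat_lit 2530, nat_lit 2, nat_lit 1⟩, ⟨false, nat_lit 1024, nat_lit 3618, nat_lit 2, nat_lit 0⟩,
    ⟨false, nat_lit 32, nat_lit 3554, nat_lit 2, nat_lit 2⟩, ⟨true, nat_lit 2, nat_lit 3582, nat_lit 3, nat_lit 2⟩, ⟨false, nat_lit 32768, nat_lit 61952, nat_lit 2, nat_lit 0⟩,
    ⟨false, nat_lit 4096, nat_lit 37376, nat_lit 1, nat_lit 1⟩, ⟨true, nat_lit 512, nat_lit 40448, nat_lit 2, nat_lit 0⟩, ⟨false, nat_lit 16384, nat_lit 57344, nat_lit 1, nat_lit 1⟩,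
    ⟨false, nat_lit 8192, nat_lit 57344, nat_lit 1, nat_lit 1⟩]

def r61_0_2 : List Wr := [
    ⟨false, nat_lit 2048, nat_lit 4095, nat_lit 4, nat_lit 1⟩, ⟨false, nat_lit 8, nat_lit 2063, nat_lit 2, nat_lit 0⟩, ⟨true, nat_lit 1, nat_lit 2057, nat_lit 1, nat_lit 1⟩,
    ⟨false, nat_lit 128, nat_lit 2294, nat_lit 2, nat_lit 2⟩, ⟨true, nat_lit 16, nat_lit 2198, nat_lit 1, nat_lit 3⟩, ⟨false, nat_lit 256, nat_lit 2406, nat_lit 2, nat_lit 1⟩,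
    ⟨false, nat_lit 64, nat_lit 2534, nat_lit 2, nat_lit 2⟩, ⟨true, nat_lit 4, nat_lit 2526, nat_lit 3, nat_lit 0⟩, ⟨true, nat_lit 32, nat_lit 2530, nat_lit 2, nat_lit 1⟩,
    ⟨false, nat_lit 32768, nat_lit 62978, nat_lit 2, nat_lit 2⟩, ⟨false, nat_lit 1024, nat_lit 36354, nat_lit 2, nat_lit 0⟩, ⟨true, nat_lit 2, nat_lit 36350, nat_lit 3, nat_lit 3⟩,
    ⟨false, nat_lit 16384, nat_lit 61952, nat_lit 2, nat_lit 0⟩, ⟨false, nat_lit 4096, nat_lit 53760, nat_lit 1, nat_lit 2⟩, ⟨true, nat_lit 512, nat_lit 56832, nat_lit 2, nat_lit 1⟩,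
    ⟨false, nat_lit 8192, nat_lit 57344, nat_lit 1, nat_lit 1⟩]

def r61_0_3 : List Wr := [
    ⟨true, nat_lit 1, nat_lit 1, nat_lit 0, nat_lit 2⟩, ⟨true, nat_lit 8, nat_lit 14, nat_lit 1, nat_lit 1⟩, ⟨false, nat_lit 128, nat_lit 246, nat_lit 2, nat_lit 1⟩,
    ⟨false, nat_lit 16, nat_lit 150, nat_lit 1, nat_lit 2⟩, ⟨true, nat_lit 4, nat_lit 158, nat_lit 2, nat_lit 0⟩, ⟨false, nat_lit 2048, nat_lit 3938, nat_lit 2, nat_lit 2⟩,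
    ⟨false, nat_lit 64, nat_lit 2274, nat_lit 2, nat_lit 0⟩, ⟨true, nat_lit 2, nat_lit 2270, nat_lit 2, nat_lit 2⟩, ⟨false, nat_lit 1024, nat_lit 3872, nat_lit 2, nat_lit 0⟩,
    ⟨false, nat_lit 256, nat_lit 3360, nat_lit 1, nat_lit 2⟩, ⟨true, nat_lit 32, nat_lit 3552, nat_lit 2, nat_lit 1⟩, ⟨false, nat_lit 32768, nat_lit 61952, nat_lit 2, nat_lit 0⟩,
    ⟨false, nat_lit 4096, nat_lit 37376, nat_lit 1, nat_lit 1⟩, ⟨true, nat_lit 512, nat_lit 40448, nat_lit 2, nat_lit 0⟩, ⟨false, nat_lit 16384, nat_lit 57344, nat_lit 1, nat_lit 1⟩,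
    ⟨false, nat_lit 8192, nat_lit 57344, nat_lit 1, nat_lit 1⟩]

def l61_0 : List (Nat × List Wr × Nat) := [
  (nat_lit 4, r61_0_0, nat_lit 0), (nat_lit 6, r61_0_1, nat_lit 0), (nat_lit 6, r61_0_2, nat_lit 0),
  (nat_lit 6, r61_0_3, nat_lit 0)]

def r61_1_0 : List Wr := [
    ⟨false, nat_lit 128, nat_lit 255, nat_lit 2, nat_lit 3⟩, ⟨false, nat_lit 8, nat_lit 143, nat_lit 2, nat_lit 0⟩, ⟨true, nat_lit 1, nat_lit 137, nat_lit 1, nat_lit 1⟩,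
    ⟨true, nat_lit 4, nat_lit 142, nat_lit 1, nat_lit 2⟩, ⟨false, nat_lit 64, nat_lit 242, nat_lit 2, nat_lit 0⟩, ⟨false, nat_lit 16, nat_lit 210, nat_lit 1, nat_lit 2⟩,
    ⟨true, nat_lit 2, nat_lit 222, nat_lit 2, nat_lit 1⟩, ⟨false, nat_lit 2048, nat_lit 3872, nat_lit 2, nat_lit 0⟩, ⟨false, nat_lit 256, nat_lit 2336, nat_lit 1, nat_lit 1⟩,
    ⟨true, nat_lit 32, nat_lit 2528, nat_lit 2, nat_lit 0⟩, ⟨true, nat_lit 1024, nat_lit 3584, nat_lit 1, nat_lit 1⟩, ⟨false, nat_lit 32768, nat_lit 61952, nat_lit 2, nat_lit 0⟩,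
    ⟨false, nat_lit 4096, nat_lit 37376, nat_lit 1, nat_lit 1⟩, ⟨true, nat_lit 512, nat_lit 40448, nat_lit 2, nat_lit 0⟩, ⟨false, nat_lit 16384, nat_lit 57344, nat_lit 1, nat_lit 1⟩,
    ⟨false, nat_lit 8192, nat_lit 57344, nat_lit 1, nat_lit 1⟩]

def r61_1_1 : List Wr := [
    ⟨false, nat_lit 256, nat_lit 511, nat_lit 2, nat_lit 4⟩, ⟨false, nat_lit 8, nat_lit 271, nat_lit 2, nat_lit 0⟩, ⟨true, nat_lit 1, nat_lit 265, nat_lit 1, nat_lit 1⟩,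
    ⟨false, nat_lit 128, nat_lit 502, nat_lit 2, nat_lit 2⟩, ⟨false, nat_lit 64, nat_lit 502, nat_lit 2, nat_lit 2⟩, ⟨false, nat_lit 16, nat_lit 470, nat_lit 2, nat_lit 1⟩,
    ⟨true, nat_lit 4, nat_lit 478, nat_lit 2, nat_lit 2⟩, ⟨false, nat_lit 2048, nat_lit 3618, nat_lit 2, nat_lit 0⟩, ⟨false, nat_lit 32, nat_lit 2530, nat_lit 2, nat_lit 1⟩,
    ⟨true, nat_lit 2, nat_lit 2558, nat_lit 3, nat_lit 1⟩, ⟨true, nat_lit 1024, nat_lit 3584, nat_lit 1, nat_lit 1⟩, ⟨false, nat_lit 32768, nat_lit 61952, nat_lit 2, nat_lit 0⟩,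
    ⟨false, nat_lit 4096, nat_lit 37376, nat_lit 1, nat_lit 1⟩, ⟨true, nat_lit 512, nat_lit 40448, nat_lit 2, nat_lit 0⟩, ⟨false, nat_lit 16384, nat_lit 57344, nat_lit 1, nat_lit 1⟩,
    ⟨false, nat_lit 8192, nat_lit 57344, nat_lit 1, nat_lit 1⟩]

def r61_1_2 : List Wr := [
    ⟨true, nat_lit 1, nat_lit 1, nat_lit 0, nat_lit 2⟩, ⟨false, nat_lit 8, nat_lit 14, nat_lit 1, nat_lit 1⟩, ⟨true, nat_lit 4, nat_lit 14, nat_lit 1, nat_lit 1⟩,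
    ⟨false, nat_lit 128, nat_lit 242, nat_lit 2, nat_lit 0⟩, ⟨false, nat_lit 16, nat_lit 146, nat_lit 1, nat_lit 1⟩, ⟨true, nat_lit 2, nat_lit 158, nat_lit 2, nat_lit 0⟩,
    ⟨false, nat_lit 2048, nat_lit 3936, nat_lit 2, nat_lit 1⟩, ⟨false, nat_lit 256, nat_lit 2400, nat_lit 1, nat_lit 2⟩, ⟨true, nat_lit 64, nat_lit 2528, nat_lit 2, nat_lit 0⟩,
    ⟨false, nat_lit 32768, nat_lit 63008, nat_lit 2, nat_lit 2⟩, ⟨false, nat_lit 1024, nat_lit 36384, nat_lit 2, nat_lit 0⟩, ⟨true, nat_lit 32, nat_lit 36320, nat_lit 2, nat_lit 2⟩,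
    ⟨false, nat_lit 16384, nat_lit 61952, nat_lit 2, nat_lit 0⟩, ⟨false, nat_lit 4096, nat_lit 53760, nat_lit 1, nat_lit 2⟩, ⟨true, nat_lit 512, nat_lit 56832, nat_lit 2, nat_lit 1⟩,
    ⟨false, nat_lit 8192, nat_lit 57344, nat_lit 1, nat_lit 1⟩]

def l61_1 : List (Nat × List Wr × Nat) := [
  (nat_lit 4, r61_1_0, nat_lit 0), (nat_lit 6, r61_1_1, nat_lit 0), (nat_lit 6, r61_1_2, nat_lit 0)]

end Pool.Agent.EC4.Run
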