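import Pool.Agent.Lib.MP_ec4eff_co.R5.Srch

/-! Generated file (project R5): results of the first lune -/

namespace Pool.Agent.EC4.Run

def r48_0_0 : List Wr := [
    ⟨true, nat_lit 8, nat_lit 15, nat_lit 1, nat_lit 2⟩, ⟨false, nat_lit 64, nat_lit 119, nat_lit 2, nat_lit 1⟩, ⟨false, nat_lit 4, nat_lit 79, nat_lit 2, nat_lit 0⟩,
    ⟨true, nat_lit 1, nat_lit 77, nat_lit 1, nat_lit 2⟩, ⟨false, nat_lit 2048, nat_lit 4018, nat_lit 3, nat_lit 0⟩, ⟨false, nat_lit 32, nat_lit 2162, nat_lit 2, nat_lit 0⟩,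
    ⟨true, nat_lit 2, nat_lit 2158, nat_lit 2, nat_lit 1⟩, ⟨true, nat_lit 256, nat_lit 2448, nat_lit 1, nat_lit 2⟩, ⟨false, nat_lit 16384, nat_lit 30352, nat_lit 2, nat_lit 2⟩,
    ⟨false, nat_lit 1024, nat_lit 20112, nat_lit 2, nat_lit 1⟩, ⟨true, nat_lit 128, nat_lit 19856, nat_lit 2, nat_lit 1⟩, ⟨false, nat_lit 8192, nat_lit 29200, nat_lit 2, nat_lit 0⟩,
    ⟨false, nat_lit 512, nat_lit 28176, nat_lit 2, nat_lit 1⟩, ⟨true, nat_lit 16, nat_lit 28656, nat_lit 3, nat_lit 2⟩, ⟨true, nat_lit 4096, nat_lit 28672, nat_lit 1, nat_lit 1⟩,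
    ⟨false, nat_lit 32768, nat_lit 32768, nat_lit 0, nat_lit 2⟩]

def r48_0_1 : List Wr := [
    ⟨true, nat_lit 8, nat_lit 15, nat_lit 1, nat_lit 2⟩, ⟨false, nat_lit 64, nat_lit 119, nat_lit 2, nat_lit 1⟩, ⟨false, nat_lit 4, nat_lit 79, nat_lit 2, nat_lit 0⟩,
    ⟨true, nat_lit 1, nat_lit 77, nat_lit 1, nat_lit 2⟩, ⟨false, nat_lit 2048, nat_lit 4018, nat_lit 3, nat_lit 0⟩, ⟨false, nat_lit 32, nat_lit 2162, nat_lit 2, nat_lit 0⟩,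
    ⟨true, nat_lit 2, nat_lit 2158, nat_lit 2, nat_lit 1⟩, ⟨false, nat_lit 256, nat_lit 2448, nat_lit 1, nat_lit 2⟩, ⟨true, nat_lit 128, nat_lit 2448, nat_lit 1, nat_lit 2⟩,
    ⟨false, nat_lit 16384, nat_lit 30224, nat_lit 2, nat_lit 1⟩, ⟨false, nat_lit 1024, nat_lit 19984, nat_lit 2, nat_lit 0⟩, ⟨true, nat_lit 16, nat_lit 19952, nat_lit 3, nat_lit 0⟩,
    ⟨true, nat_lit 8192, nat_lit 29184, nat_lit 1, nat_lit 2⟩, ⟨false, nat_lit 32768, nat_lit 37376, nat_lit 1, nat_lit 1⟩, ⟨false, nat_lit 4096, nat_lit 61952, nat_lit 2, nat_lit 0⟩,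
    ⟨false, nat_lit 512, nat_lit 65024, nat_lit 2, nat_lit 2⟩]

def r48_0_2 : List Wr := [
    ⟨true, nat_lit 8, nat_lit 15, nat_lit 1, nat_lit 2⟩, ⟨false, nat_lit 64, nat_lit 119, nat_lit 2, nat_lit 1⟩, ⟨false, nat_lit 4, nat_lit 79, nat_lit 2, nat_lit 0⟩,
    ⟨true, nat_lit 1, nat_lit 77, nat_lit 1, nat_lit 2⟩, ⟨false, nat_lit 2048, nat_lit 4018, nat_lit 3, nat_lit 0⟩, ⟨false, nat_lit 32, nat_lit 2162, nat_lit 2, nat_lit 0⟩,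
    ⟨true, nat_lit 2, nat_lit 2158, nat_lit 2, nat_lit 1⟩, ⟨false, nat_lit 256, nat_lit 2448, nat_lit 1, nat_lit 2⟩, ⟨true, nat_lit 128, nat_lit 2448, nat_lit 1, nat_lit 2⟩,
    ⟨false, nat_lit 16384, nat_lit 30224, nat_lit 2, nat_lit 1⟩, ⟨false, nat_lit 1024, nat_lit 19984, nat_lit 2, nat_lit 0⟩, ⟨true, nat_lit 16, nat_lit 19952, nat_lit 3, nat_lit 0⟩,
    ⟨false, nat_lit 32768, nat_lit 45568, nat_lit 1, nat_lit 2⟩, ⟨false, nat_lit 8192, nat_lit 61952, nat_lit 2, nat_lit 0⟩, ⟨true, nat_lit 512, nat_lit 60928, nat_lit 2, nat_lit 1⟩,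
    ⟨false, nat_lit 4096, nat_lit 61440, nat_lit 1, nat_lit 2⟩]

def r48_0_3 : List Wr := [
    ⟨false, nat_lit 64, nat_lit 127, nat_lit 2, nat_lit 2⟩, ⟨false, nat_lit 8, nat_lit 79, nat_lit 2, nat_lit 0⟩, ⟨true, nat_lit 1, nat_lit 73, nat_lit 1, nat_lit 1⟩,
    ⟨true, nat_lit 4, nat_lit 78, nat_lit 1, nat_lit 2⟩, ⟨false, nat_lit 2048, nat_lit 4018, nat_lit 3, nat_lit 0⟩, ⟨false, nat_lit 32, nat_lit 2162, nat_lit 2, nat_lit 0⟩,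
    ⟨true, nat_lit 2, nat_lit 2158, nat_lit 2, nat_lit 1⟩, ⟨true, nat_lit 256, nat_lit 2448, nat_lit 1, nat_lit 2⟩, ⟨false, nat_lit 16384, nat_lit 30352, nat_lit 2, nat_lit 2⟩,
    ⟨false, nat_lit 1024, nat_lit 20112, nat_lit 2, nat_lit 1⟩, ⟨true, nat_lit 128, nat_lit 19856, nat_lit 2, nat_lit 1⟩, ⟨false, nat_lit 8192, nat_lit 29200, nat_lit 2, nat_lit 0⟩,
    ⟨false, nat_lit 512, nat_lit 28176, nat_lit 2, nat_lit 1⟩, ⟨true, nat_lit 16, nat_lit 28656, nat_lit 3, nat_lit 2⟩, ⟨true, nat_lit 4096, nat_lit 28672, nat_lit 1, nat_lit 1⟩,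
    ⟨false, nat_lit 32768, nat_lit 32768, nat_lit 0, nat_lit 2⟩]

def l48_0 : List (Nat × List Wr × Nat) := [
  (nat_lit 6, r48_0_0, nat_lit 0), (nat_lit 4, r48_0_1, nat_lit 0), (nat_lit 4, r48_0_2, nat_lit 0),
  (nat_lit 6, r48_0_3, nat_lit 0)]

def r48_1_0 : List Wr := [
    ⟨false, nat_lit 64, nat_lit 127, nat_lit 2, nat_lit 2⟩, ⟨false, nat_lit 8, nat_lit 79, nat_lit 2, nat_lit 0⟩, ⟨true, nat_lit 1, nat_lit 73, nat_lit 1, nat_lit 1⟩,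
    ⟨true, nat_lit 4, nat_lit 78, nat_lit 1, nat_lit 2⟩, ⟨false, nat_lit 2048, nat_lit 4018, nat_lit 3, nat_lit 0⟩, ⟨false, nat_lit 32, nat_lit 2162, nat_lit 2, nat_lit 0⟩,
    ⟨true, nat_lit 2, nat_lit 2158, nat_lit 2, nat_lit 1⟩, ⟨false, nat_lit 256, nat_lit 2448, nat_lit 1, nat_lit 2⟩, ⟨true, nat_lit 128, nat_lit 2448, nat_lit 1, nat_lit 2⟩,
    ⟨false, nat_lit 16384, nat_lit 30224, nat_lit 2, nat_lit 1⟩, ⟨false, nat_lit 1024, nat_lit 19984, nat_lit 2, nat_lit 0⟩, ⟨true, nat_lit 16, nat_lit 19952, nat_lit 3, nat_lit 0⟩,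
    ⟨true, nat_lit 8192, nat_lit 29184, nat_lit 1, nat_lit 2⟩, ⟨false, nat_lit 32768, nat_lit 37376, nat_lit 1, nat_lit 1⟩, ⟨false, nat_lit 4096, nat_lit 61952, nat_lit 2, nat_lit 0⟩,
    ⟨false, nat_lit 512, nat_lit 65024, nat_lit 2, nat_lit 2⟩]

def r48_1_1 : List Wr := [
    ⟨false, nat_lit 64, nat_lit 127, nat_lit 2, nat_lit 2⟩, ⟨false, nat_lit 8, nat_lit 79, nat_lit 2, nat_lit 0⟩, ⟨true, nat_lit 1, nat_lit 73, nat_lit 1, nat_lit 1⟩,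
    ⟨true, nat_lit 4, nat_lit 78, nat_lit 1, nat_lit 2⟩, ⟨false, nat_lit 2048, nat_lit 4018, nat_lit 3, nat_lit 0⟩, ⟨false, nat_lit 32, nat_lit 2162, nat_lit 2, nat_lit 0⟩,
    ⟨true, nat_lit 2, nat_lit 2158, nat_lit 2, nat_lit 1⟩, ⟨false, nat_lit 256, nat_lit 2448, nat_lit 1, nat_lit 2⟩, ⟨true, nat_lit 128, nat_lit 2448, nat_lit 1, nat_lit 2⟩,
    ⟨false, nat_lit 16384, nat_lit 30224, nat_lit 2, nat_lit 1⟩, ⟨false, nat_lit 1024, nat_lit 19984, nat_lit 2, nat_lit 0⟩, ⟨true, nat_lit 16, nat_lit 19952, nat_lit 3, nat_lit 0⟩,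
    ⟨false, nat_lit 32768, nat_lit 45568, nat_lit 1, nat_lit 2⟩, ⟨false, nat_lit 8192, nat_lit 61952, nat_lit 2, nat_lit 0⟩, ⟨true, nat_lit 512, nat_lit 60928, nat_lit 2, nat_lit 1⟩,
    ⟨false, nat_lit 4096, nat_lit 61440, nat_lit 1, nat_lit 2⟩]

def r48_1_2 : List Wr := [
    ⟨true, nat_lit 1, nat_lit 1, nat_lit 0, nat_lit 2⟩, ⟨true, nat_lit 8, nat_lit 14, nat_lit 1, nat_lit 1⟩, ⟨false, nat_lit 2048, nat_lit 4086, nat_lit 3, nat_lit 2⟩,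
    ⟨false, nat_lit 64, nat_lit 2166, nat_lit 2, nat_lit 1⟩, ⟨true, nat_lit 4, nat_lit 2126, nat_lit 2, nat_lit 0⟩, ⟨false, nat_lit 256, nat_lit 2482, nat_lit 2, nat_lit 1⟩,
    ⟨false, nat_lit 32, nat_lit 2418, nat_lit 2, nat_lit 1⟩, ⟨true, nat_lit 2, nat_lit 2414, nat_lit 2, nat_lit 2⟩, ⟨true, nat_lit 128, nat_lit 2448, nat_lit 1, nat_lit 2⟩,
    ⟨false, nat_lit 16384, nat_lit 30224, nat_lit 2, nat_lit 1⟩, ⟨false, nat_lit 1024, nat_lit 19984, nat_lit 2, nat_lit 0⟩, ⟨true, nat_lit 16, nat_lit 19952, nat_lit 3, nat_lit 0⟩,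
    ⟨true, nat_lit 8192, nat_lit 29184, nat_lit 1, nat_lit 2⟩, ⟨false, nat_lit 32768, nat_lit 37376, nat_lit 1, nat_lit 1⟩, ⟨false, nat_lit 4096, nat_lit 61952, nat_lit 2, nat_lit 0⟩,
    ⟨false, nat_lit 512, nat_lit 65024, nat_lit 2, nat_lit 2⟩]

def r48_1_3 : List Wr := [
    ⟨true, nat_lit 1, nat_lit 1, nat_lit 0, nat_lit 2⟩, ⟨true, nat_lit 8, nat_lit 14, nat_lit 1, nat_lit 1⟩, ⟨false, nat_lit 2048, nat_lit 4086, nat_lit 3, nat_lit 2⟩,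
    ⟨false, nat_lit 64, nat_lit 2166, nat_lit 2, nat_lit 1⟩, ⟨true, nat_lit 4, nat_lit 2126, nat_lit 2, nat_lit 0⟩, ⟨false, nat_lit 256, nat_lit 2482, nat_lit 2, nat_lit 1⟩,
    ⟨false, nat_lit 32, nat_lit 2418, nat_lit 2, nat_lit 1⟩, ⟨true, nat_lit 2, nat_lit 2414, nat_lit 2, nat_lit 2⟩, ⟨true, nat_lit 128, nat_lit 2448, nat_lit 1, nat_lit 2⟩,
    ⟨false, nat_lit 16384, nat_lit 30224, nat_lit 2, nat_lit 1⟩, ⟨false, nat_lit 1024, nat_lit 19984, nat_lit 2, nat_lit 0⟩, ⟨true, nat_lit 16, nat_lit 19952, nat_lit 3, nat_lit 0⟩,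
    ⟨false, nat_lit 32768, nat_lit 45568, nat_lit 1, nat_lit 2⟩, ⟨false, nat_lit 8192, nat_lit 61952, nat_lit 2, nat_lit 0⟩, ⟨true, nat_lit 512, nat_lit 60928, nat_lit 2, nat_lit 1⟩,
    ⟨false, nat_lit 4096, nat_lit 61440, nat_lit 1, nat_lit 2⟩]

def l48_1 : List (Nat × List Wr × Nat) := [
  (nat_lit 4, r48_1_0, nat_lit 0), (nat_lit 4, r48_1_1, nat_lit 0), (nat_lit 6, r48_1_2, nat_lit 0),
  (nat_lit 6, r48_1_3, nat_lit 0)]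

def r92_0_0 : List Wr := [
    ⟨false, nat_lit 4096, nat_lit 8191, nat_lit 4, nat_lit 2⟩, ⟨false, nat_lit 64, nat_lit 4223, nat_lit 3, nat_lit 0⟩, ⟨true, nat_lit 1, nat_lit 4161, nat_lit 1, nat_lit 1⟩,
    ⟨false, nat_lit 512, nat_lit 5054, nat_lit 2, nat_lit 4⟩, ⟨false, nat_lit 256, nat_lit 5054, nat_lit 3, nat_lit 1⟩, ⟨false, nat_lit 32, nat_lit 4990, nat_lit 3, nat_lit 1⟩,
    ⟨true, nat_lit 8, nat_lit 4974, nat_lit 2, nat_lit 3⟩, ⟨false, nat_lit 32768, nat_lit 60566, nat_lit 3, nat_lit 1⟩, ⟨false, nat_lit 16, nat_lit 37750, nat_lit 3, nat_lit 1⟩,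
    ⟨true, nat_lit 4, nat_lit 37758, nat_lit 3, nat_lit 2⟩, ⟨false, nat_lit 2048, nat_lit 40066, nat_lit 2, nat_lit 1⟩, ⟨true, nat_lit 128, nat_lit 39810, nat_lit 2, nat_lit 2⟩,
    ⟨false, nat_lit 16384, nat_lit 58370, nat_lit 2, nat_lit 0⟩, ⟨false, nat_lit 1024, nat_lit 56322, nat_lit 2, nat_lit 1⟩, ⟨true, nat_lit 2, nat_lit 57342, nat_lit 4, nat_lit 3⟩,
    ⟨false, nat_lit 8192, nat_lit 57344, nat_lit 1, nat_lit 1⟩]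

def r92_0_1 : List Wr := [
    ⟨true, nat_lit 1, nat_lit 1, nat_lit 0, nat_lit 2⟩, ⟨false, nat_lit 64, nat_lit 126, nat_lit 2, nat_lit 1⟩, ⟨false, nat_lit 4, nat_lit 70, nat_lit 1, nat_lit 1⟩,
    ⟨true, nat_lit 2, nat_lit 70, nat_lit 1, nat_lit 1⟩, ⟨false, nat_lit 512, nat_lit 952, nat_lit 2, nat_lit 1⟩, ⟨false, nat_lit 32, nat_lit 632, nat_lit 2, nat_lit 0⟩,
    ⟨true, nat_lit 8, nat_lit 616, nat_lit 1, nat_lit 2⟩, ⟨false, nat_lit 4096, nat_lit 7568, nat_lit 2, nat_lit 1⟩, ⟨false, nat_lit 256, nat_lit 5008, nat_lit 2, nat_lit 0⟩,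
    ⟨true, nat_lit 16, nat_lit 4976, nat_lit 2, nat_lit 1⟩, ⟨true, nat_lit 2048, nat_lit 7296, nat_lit 1, nat_lit 2⟩, ⟨false, nat_lit 32768, nat_lit 58496, nat_lit 2, nat_lit 0⟩,
    ⟨false, nat_lit 1024, nat_lit 40064, nat_lit 2, nat_lit 0⟩, ⟨true, nat_lit 128, nat_lit 40832, nat_lit 2, nat_lit 2⟩, ⟨false, nat_lit 16384, nat_lit 57344, nat_lit 1, nat_lit 1⟩,
    ⟨false, nat_lit 8192, nat_lit 57344, nat_lit 1, nat_lit 1⟩]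

def r92_0_2 : List Wr := [
    ⟨false, nat_lit 4, nat_lit 7, nat_lit 1, nat_lit 1⟩, ⟨false, nat_lit 2, nat_lit 7, nat_lit 1, nat_lit 1⟩, ⟨true, nat_lit 1, nat_lit 7, nat_lit 1, nat_lit 1⟩,
    ⟨true, nat_lit 64, nat_lit 120, nat_lit 1, nat_lit 2⟩, ⟨false, nat_lit 512, nat_lit 952, nat_lit 2, nat_lit 1⟩, ⟨false, nat_lit 32, nat_lit 632, nat_lit 2, nat_lit 0⟩,
    ⟨true, nat_lit 8, nat_lit 616, nat_lit 1, nat_lit 2⟩, ⟨false, nat_lit 4096, nat_lit 7568, nat_lit 2, nat_lit 1⟩, ⟨false, nat_lit 256, nat_lit 5008, nat_lit 2, nat_lit 0⟩,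
    ⟨true, nat_lit 16, nat_lit 4976, nat_lit 2, nat_lit 1⟩, ⟨true, nat_lit 2048, nat_lit 7296, nat_lit 1, nat_lit 2⟩, ⟨false, nat_lit 32768, nat_lit 58496, nat_lit 2, nat_lit 0⟩,
    ⟨false, nat_lit 1024, nat_lit 40064, nat_lit 2, nat_lit 0⟩, ⟨true, nat_lit 128, nat_lit 40832, nat_lit 2, nat_lit 2⟩, ⟨false, nat_lit 16384, nat_lit 57344, nat_lit 1, nat_lit 1⟩,
    ⟨false, nat_lit 8192, nat_lit 57344, nat_lit 1, nat_lit 1⟩]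

def r92_0_3 : List Wr := [
    ⟨true, nat_lit 1, nat_lit 1, nat_lit 0, nat_lit 2⟩, ⟨false, nat_lit 64, nat_lit 126, nat_lit 2, nat_lit 1⟩, ⟨false, nat_lit 4, nat_lit 70, nat_lit 1, nat_lit 1⟩,
    ⟨true, nat_lit 2, nat_lit 70, nat_lit 1, nat_lit 1⟩, ⟨false, nat_lit 512, nat_lit 952, nat_lit 2, nat_lit 1⟩, ⟨false, nat_lit 32, nat_lit 632, nat_lit 2, nat_lit 0⟩,
    ⟨true, nat_lit 8, nat_lit 616, nat_lit 1, nat_lit 2⟩, ⟨false, nat_lit 4096, nat_lit 7568, nat_lit 2, nat_lit 1⟩, ⟨false, nat_lit 256, nat_lit 5008, nat_lit 2, nat_lit 0⟩,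
    ⟨true, nat_lit 16, nat_lit 4976, nat_lit 2, nat_lit 1⟩, ⟨false, nat_lit 32768, nat_lit 60544, nat_lit 2, nat_lit 1⟩, ⟨false, nat_lit 2048, nat_lit 40064, nat_lit 2, nat_lit 0⟩,
    ⟨true, nat_lit 128, nat_lit 39808, nat_lit 2, nat_lit 1⟩, ⟨true, nat_lit 1024, nat_lit 39936, nat_lit 1, nat_lit 2⟩, ⟨false, nat_lit 16384, nat_lit 57344, nat_lit 1, nat_lit 1⟩,
    ⟨false, nat_lit 8192, nat_lit 57344, nat_lit 1, nat_lit 1⟩]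

def r92_0_4 : List Wr := [
    ⟨false, nat_lit 4, nat_lit 7, nat_lit 1, nat_lit 1⟩, ⟨false, nat_lit 2, nat_lit 7, nat_lit 1, nat_lit 1⟩, ⟨true, nat_lit 1, nat_lit 7, nat_lit 1, nat_lit 1⟩,
    ⟨true, nat_lit 64, nat_lit 120, nat_lit 1, nat_lit 2⟩, ⟨false, nat_lit 512, nat_lit 952, nat_lit 2, nat_lit 1⟩, ⟨false, nat_lit 32, nat_lit 632, nat_lit 2, nat_lit 0⟩,
    ⟨true, nat_lit 8, nat_lit 616, nat_lit 1, nat_lit 2⟩, ⟨false, nat_lit 4096, nat_lit 7568, nat_lit 2, nat_lit 1⟩, ⟨false, nat_lit 256, nat_lit 5008, nat_lit 2, nat_lit 0⟩,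
    ⟨true, nat_lit 16, nat_lit 4976, nat_lit 2, nat_lit 1⟩, ⟨false, nat_lit 32768, nat_lit 60544, nat_lit 2, nat_lit 1⟩, ⟨false, nat_lit 2048, nat_lit 40064, nat_lit 2, nat_lit 0⟩,
    ⟨true, nat_lit 128, nat_lit 39808, nat_lit 2, nat_lit 1⟩, ⟨true, nat_lit 1024, nat_lit 39936, nat_lit 1, nat_lit 2⟩, ⟨false, nat_lit 16384, nat_lit 57344, nat_lit 1, nat_lit 1⟩,
    ⟨false, nat_lit 8192, nat_lit 57344, nat_lit 1, nat_lit 1⟩]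

def r92_0_5 : List Wr := [
    ⟨false, nat_lit 512, nat_lit 1023, nat_lit 3, nat_lit 2⟩, ⟨false, nat_lit 2, nat_lit 515, nat_lit 1, nat_lit 1⟩, ⟨true, nat_lit 1, nat_lit 515, nat_lit 1, nat_lit 1⟩,
    ⟨false, nat_lit 32768, nat_lit 65020, nat_lit 4, nat_lit 2⟩, ⟨false, nat_lit 4096, nat_lit 40444, nat_lit 3, nat_lit 3⟩, ⟨true, nat_lit 64, nat_lit 37500, nat_lit 3, nat_lit 0⟩,
    ⟨false, nat_lit 256, nat_lit 37820, nat_lit 3, nat_lit 1⟩, ⟨true, nat_lit 32, nat_lit 37756, nat_lit 2, nat_lit 4⟩, ⟨false, nat_lit 2048, nat_lit 40092, nat_lit 3, nat_lit 0⟩,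
    ⟨false, nat_lit 16, nat_lit 39804, nat_lit 3, nat_lit 2⟩, ⟨true, nat_lit 8, nat_lit 39804, nat_lit 3, nat_lit 2⟩, ⟨true, nat_lit 128, nat_lit 39812, nat_lit 2, nat_lit 2⟩,
    ⟨false, nat_lit 16384, nat_lit 58372, nat_lit 2, nat_lit 0⟩, ⟨false, nat_lit 1024, nat_lit 56324, nat_lit 2, nat_lit 1⟩, ⟨true, nat_lit 4, nat_lit 57340, nat_lit 4, nat_lit 2⟩,
    ⟨false, nat_lit 8192, nat_lit 57344, nat_lit 1, nat_lit 1⟩]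

def r92_0_6 : List Wr := [
    ⟨false, nat_lit 512, nat_lit 1023, nat_lit 3, nat_lit 2⟩, ⟨false, nat_lit 2, nat_lit 515, nat_lit 1, nat_lit 1⟩, ⟨true, nat_lit 1, nat_lit 515, nat_lit 1, nat_lit 1⟩,
    ⟨true, nat_lit 64, nat_lit 636, nat_lit 2, nat_lit 1⟩, ⟨false, nat_lit 4096, nat_lit 7612, nat_lit 3, nat_lit 1⟩, ⟨false, nat_lit 32, nat_lit 4732, nat_lit 2, nat_lit 2⟩,
    ⟨true, nat_lit 8, nat_lit 4716, nat_lit 2, nat_lit 1⟩, ⟨true, nat_lit 256, nat_lit 5012, nat_lit 2, nat_lit 1⟩, ⟨false, nat_lit 2048, nat_lit 7316, nat_lit 2, nat_lit 1⟩,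
    ⟨false, nat_lit 128, nat_lit 7060, nat_lit 2, nat_lit 2⟩, ⟨true, nat_lit 16, nat_lit 7156, nat_lit 3, nat_lit 1⟩, ⟨false, nat_lit 32768, nat_lit 58372, nat_lit 2, nat_lit 0⟩,
    ⟨false, nat_lit 1024, nat_lit 39940, nat_lit 2, nat_lit 0⟩, ⟨true, nat_lit 4, nat_lit 40956, nat_lit 3, nat_lit 4⟩, ⟨false, nat_lit 16384, nat_lit 57344, nat_lit 1, nat_lit 1⟩,
    ⟨false, nat_lit 8192, nat_lit 57344, nat_lit 1, nat_lit 1⟩]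

def r92_0_7 : List Wr := [
    ⟨false, nat_lit 4, nat_lit 7, nat_lit 1, nat_lit 1⟩, ⟨false, nat_lit 2, nat_lit 7, nat_lit 1, nat_lit 1⟩, ⟨true, nat_lit 1, nat_lit 7, nat_lit 1, nat_lit 1⟩,
    ⟨false, nat_lit 512, nat_lit 1016, nat_lit 2, nat_lit 2⟩, ⟨false, nat_lit 64, nat_lit 632, nat_lit 2, nat_lit 0⟩, ⟨true, nat_lit 8, nat_lit 584, nat_lit 1, nat_lit 1⟩,
    ⟨true, nat_lit 32, nat_lit 624, nat_lit 1, nat_lit 2⟩, ⟨false, nat_lit 4096, nat_lit 7568, nat_lit 2, nat_lit 1⟩, ⟨false, nat_lit 256, nat_lit 5008, nat_lit 2, nat_lit 0⟩,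
    ⟨true, nat_lit 16, nat_lit 4976, nat_lit 2, nat_lit 1⟩, ⟨true, nat_lit 2048, nat_lit 7296, nat_lit 1, nat_lit 2⟩, ⟨false, nat_lit 32768, nat_lit 58496, nat_lit 2, nat_lit 0⟩,
    ⟨false, nat_lit 1024, nat_lit 40064, nat_lit 2, nat_lit 0⟩, ⟨true, nat_lit 128, nat_lit 40832, nat_lit 2, nat_lit 2⟩, ⟨false, nat_lit 16384, nat_lit 57344, nat_lit 1, nat_lit 1⟩,
    ⟨false, nat_lit 8192, nat_lit 57344, nat_lit 1, nat_lit 1⟩]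

def l92_0 : List (Nat × List Wr × Nat) := [
  (nat_lit 6, r92_0_0, nat_lit 0), (nat_lit 6, r92_0_1, nat_lit 0), (nat_lit 6, r92_0_2, nat_lit 0),
  (nat_lit 6, r92_0_3, nat_lit 0), (nat_lit 6, r92_0_4, nat_lit 0), (nat_lit 6, r92_0_5, nat_lit 0),
  (nat_lit 6, r92_0_6, nat_lit 0), (nat_lit 6, r92_0_7, nat_lit 0)]

def r92_1_0 : List Wr := [
    ⟨false, nat_lit 4, nat_lit 7, nat_lit 1, nat_lit 1⟩, ⟨false, nat_lit 2, nat_lit 7, nat_lit 1, nat_lit 1⟩, ⟨true, nat_lit 1, nat_lit 7, nat_lit 1, nat_lit 1⟩,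
    ⟨false, nat_lit 512, nat_lit 1016, nat_lit 2, nat_lit 2⟩, ⟨false, nat_lit 64, nat_lit 632, nat_lit 2, nat_lit 0⟩, ⟨true, nat_lit 8, nat_lit 584, nat_lit 1, nat_lit 1⟩,
    ⟨true, nat_lit 32, nat_lit 624, nat_lit 1, nat_lit 2⟩, ⟨false, nat_lit 4096, nat_lit 7568, nat_lit 2, nat_lit 1⟩, ⟨false, nat_lit 256, nat_lit 5008, nat_lit 2, nat_lit 0⟩,
    ⟨true, nat_lit 16, nat_lit 4976, nat_lit 2, nat_lit 1⟩, ⟨false, nat_lit 32768, nat_lit 60544, nat_lit 2, nat_lit 1⟩, ⟨false, nat_lit 2048, nat_lit 40064, nat_lit 2, nat_lit 0⟩,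
    ⟨true, nat_lit 128, nat_lit 39808, nat_lit 2, nat_lit 1⟩, ⟨true, nat_lit 1024, nat_lit 39936, nat_lit 1, nat_lit 2⟩, ⟨false, nat_lit 16384, nat_lit 57344, nat_lit 1, nat_lit 1⟩,
    ⟨false, nat_lit 8192, nat_lit 57344, nat_lit 1, nat_lit 1⟩]

def l92_1 : List (Nat × List Wr × Nat) := [
  (nat_lit 6, r92_1_0, nat_lit 0)]

end Pool.Agent.EC4.Run
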