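import Pool.Agent.Lib.MP_ec4eff_co.R5.Srch

/-! Generated file (project R5): results of the first lune -/

namespace Pool.Agent.EC4.Run

def r60_0_0 : List Wr := [
    ⟨true, nat_lit 8, nat_lit 15, nat_lit 1, nat_lit 2⟩, ⟨false, nat_lit 16384, nat_lit 32759, nat_lit 4, nat_lit 3⟩, ⟨false, nat_lit 4, nat_lit 16399, nat_lit 2, nat_lit 0⟩,
    ⟨true, nat_lit 1, nat_lit 16397, nat_lit 1, nat_lit 2⟩, ⟨false, nat_lit 128, nat_lit 16626, nat_lit 2, nat_lit 1⟩, ⟨true, nat_lit 16, nat_lit 16530, nat_lit 1, nat_lit 2⟩,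
    ⟨false, nat_lit 2048, nat_lit 20322, nat_lit 3, nat_lit 0⟩, ⟨false, nat_lit 64, nat_lit 18658, nat_lit 2, nat_lit 1⟩, ⟨true, nat_lit 2, nat_lit 18654, nat_lit 3, nat_lit 0⟩,
    ⟨true, nat_lit 256, nat_lit 18720, nat_lit 1, nat_lit 2⟩, ⟨false, nat_lit 8192, nat_lit 30240, nat_lit 2, nat_lit 1⟩, ⟨false, nat_lit 1024, nat_lit 28192, nat_lit 2, nat_lit 1⟩,
    ⟨true, nat_lit 32, nat_lit 28128, nat_lit 3, nat_lit 0⟩, ⟨false, nat_lit 32768, nat_lit 37376, nat_lit 1, nat_lit 1⟩, ⟨false, nat_lit 4096, nat_lit 61952, nat_lit 2, nat_lit 0⟩,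
    ⟨false, nat_lit 512, nat_lit 65024, nat_lit 2, nat_lit 2⟩]

def r60_0_1 : List Wr := [
    ⟨false, nat_lit 2048, nat_lit 4095, nat_lit 4, nat_lit 1⟩, ⟨false, nat_lit 8, nat_lit 2063, nat_lit 2, nat_lit 0⟩, ⟨true, nat_lit 1, nat_lit 2057, nat_lit 1, nat_lit 1⟩,
    ⟨false, nat_lit 128, nat_lit 2294, nat_lit 2, nat_lit 2⟩, ⟨true, nat_lit 16, nat_lit 2198, nat_lit 1, nat_lit 3⟩, ⟨false, nat_lit 256, nat_lit 2406, nat_lit 2, nat_lit 1⟩,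
    ⟨false, nat_lit 64, nat_lit 2534, nat_lit 2, nat_lit 2⟩, ⟨true, nat_lit 4, nat_lit 2526, nat_lit 3, nat_lit 0⟩, ⟨true, nat_lit 32, nat_lit 2530, nat_lit 2, nat_lit 1⟩,
    ⟨false, nat_lit 16384, nat_lit 30210, nat_lit 2, nat_lit 1⟩, ⟨false, nat_lit 1024, nat_lit 19970, nat_lit 2, nat_lit 0⟩, ⟨true, nat_lit 2, nat_lit 19966, nat_lit 3, nat_lit 3⟩,
    ⟨true, nat_lit 8192, nat_lit 29184, nat_lit 1, nat_lit 2⟩, ⟨false, nat_lit 32768, nat_lit 37376, nat_lit 1, nat_lit 1⟩, ⟨false, nat_lit 4096, nat_lit 61952, nat_lit 2, nat_lit 0⟩,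
    ⟨false, nat_lit 512, nat_lit 65024, nat_lit 2, nat_lit 2⟩]

def r60_0_2 : List Wr := [
    ⟨false, nat_lit 2048, nat_lit 4095, nat_lit 4, nat_lit 1⟩, ⟨false, nat_lit 8, nat_lit 2063, nat_lit 2, nat_lit 0⟩, ⟨true, nat_lit 1, nat_lit 2057, nat_lit 1, nat_lit 1⟩,
    ⟨false, nat_lit 128, nat_lit 2294, nat_lit 2, nat_lit 2⟩, ⟨true, nat_lit 16, nat_lit 2198, nat_lit 1, nat_lit 3⟩, ⟨false, nat_lit 256, nat_lit 2406, nat_lit 2, nat_lit 1⟩,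
    ⟨false, nat_lit 64, nat_lit 2534, nat_lit 2, nat_lit 2⟩, ⟨true, nat_lit 4, nat_lit 2526, nat_lit 3, nat_lit 0⟩, ⟨true, nat_lit 32, nat_lit 2530, nat_lit 2, nat_lit 1⟩,
    ⟨false, nat_lit 16384, nat_lit 30210, nat_lit 2, nat_lit 1⟩, ⟨false, nat_lit 1024, nat_lit 19970, nat_lit 2, nat_lit 0⟩, ⟨true, nat_lit 2, nat_lit 19966, nat_lit 3, nat_lit 3⟩,
    ⟨false, nat_lit 32768, nat_lit 45568, nat_lit 1, nat_lit 2⟩, ⟨false, nat_lit 8192, nat_lit 61952, nat_lit 2, nat_lit 0⟩, ⟨true, nat_lit 512, nat_lit 60928, nat_lit 2, nat_lit 1⟩,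
    ⟨false, nat_lit 4096, nat_lit 61440, nat_lit 1, nat_lit 2⟩]

def r60_0_3 : List Wr := [
    ⟨false, nat_lit 16384, nat_lit 32767, nat_lit 5, nat_lit 1⟩, ⟨false, nat_lit 8, nat_lit 16399, nat_lit 2, nat_lit 0⟩, ⟨true, nat_lit 1, nat_lit 16393, nat_lit 1, nat_lit 1⟩,
    ⟨true, nat_lit 128, nat_lit 16630, nat_lit 2, nat_lit 2⟩, ⟨false, nat_lit 8192, nat_lit 32630, nat_lit 4, nat_lit 1⟩, ⟨false, nat_lit 2048, nat_lit 28534, nat_lit 3, nat_lit 3⟩,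
    ⟨true, nat_lit 16, nat_lit 26774, nat_lit 2, nat_lit 2⟩, ⟨false, nat_lit 1024, nat_lit 28518, nat_lit 3, nat_lit 2⟩, ⟨true, nat_lit 64, nat_lit 27878, nat_lit 3, nat_lit 1⟩,
    ⟨false, nat_lit 512, nat_lit 28454, nat_lit 3, nat_lit 1⟩, ⟨false, nat_lit 256, nat_lit 28454, nat_lit 2, nat_lit 4⟩, ⟨true, nat_lit 4, nat_lit 28638, nat_lit 4, nat_lit 1⟩,
    ⟨true, nat_lit 32, nat_lit 28642, nat_lit 3, nat_lit 2⟩, ⟨false, nat_lit 32768, nat_lit 36866, nat_lit 1, nat_lit 1⟩, ⟨false, nat_lit 4096, nat_lit 61442, nat_lit 2, nat_lit 0⟩,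
    ⟨false, nat_lit 2, nat_lit 65534, nat_lit 4, nat_lit 4⟩]

def r60_0_4 : List Wr := [
    ⟨true, nat_lit 1, nat_lit 1, nat_lit 0, nat_lit 2⟩, ⟨true, nat_lit 8, nat_lit 14, nat_lit 1, nat_lit 1⟩, ⟨false, nat_lit 128, nat_lit 246, nat_lit 2, nat_lit 1⟩,
    ⟨false, nat_lit 16, nat_lit 150, nat_lit 1, nat_lit 2⟩, ⟨true, nat_lit 4, nat_lit 158, nat_lit 2, nat_lit 0⟩, ⟨false, nat_lit 16384, nat_lit 32610, nat_lit 3, nat_lit 2⟩,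
    ⟨false, nat_lit 64, nat_lit 16610, nat_lit 2, nat_lit 0⟩, ⟨true, nat_lit 2, nat_lit 16606, nat_lit 2, nat_lit 2⟩, ⟨false, nat_lit 2048, nat_lit 20256, nat_lit 2, nat_lit 1⟩,
    ⟨true, nat_lit 256, nat_lit 18720, nat_lit 1, nat_lit 2⟩, ⟨false, nat_lit 8192, nat_lit 30240, nat_lit 2, nat_lit 1⟩, ⟨false, nat_lit 1024, nat_lit 28192, nat_lit 2, nat_lit 1⟩,
    ⟨true, nat_lit 32, nat_lit 28128, nat_lit 3, nat_lit 0⟩, ⟨false, nat_lit 32768, nat_lit 37376, nat_lit 1, nat_lit 1⟩, ⟨false, nat_lit 4096, nat_lit 61952, nat_lit 2, nat_lit 0⟩,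
    ⟨false, nat_lit 512, nat_lit 65024, nat_lit 2, nat_lit 2⟩]

def r60_0_5 : List Wr := [
    ⟨true, nat_lit 1, nat_lit 1, nat_lit 0, nat_lit 2⟩, ⟨false, nat_lit 8, nat_lit 14, nat_lit 1, nat_lit 1⟩, ⟨true, nat_lit 4, nat_lit 14, nat_lit 1, nat_lit 1⟩,
    ⟨false, nat_lit 128, nat_lit 242, nat_lit 2, nat_lit 0⟩, ⟨false, nat_lit 16, nat_lit 146, nat_lit 1, nat_lit 1⟩, ⟨true, nat_lit 2, nat_lit 158, nat_lit 2, nat_lit 0⟩,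
    ⟨false, nat_lit 2048, nat_lit 3936, nat_lit 2, nat_lit 1⟩, ⟨false, nat_lit 256, nat_lit 2400, nat_lit 1, nat_lit 2⟩, ⟨true, nat_lit 64, nat_lit 2528, nat_lit 2, nat_lit 0⟩,
    ⟨false, nat_lit 16384, nat_lit 30240, nat_lit 2, nat_lit 1⟩, ⟨false, nat_lit 1024, nat_lit 20000, nat_lit 2, nat_lit 0⟩, ⟨true, nat_lit 32, nat_lit 19936, nat_lit 2, nat_lit 2⟩,
    ⟨true, nat_lit 8192, nat_lit 29184, nat_lit 1, nat_lit 2⟩, ⟨false, nat_lit 32768, nat_lit 37376, nat_lit 1, nat_lit 1⟩, ⟨false, nat_lit 4096, nat_lit 61952, nat_lit 2, nat_lit 0⟩,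
    ⟨false, nat_lit 512, nat_lit 65024, nat_lit 2, nat_lit 2⟩]

def r60_0_6 : List Wr := [
    ⟨true, nat_lit 1, nat_lit 1, nat_lit 0, nat_lit 2⟩, ⟨false, nat_lit 8, nat_lit 14, nat_lit 1, nat_lit 1⟩, ⟨true, nat_lit 4, nat_lit 14, nat_lit 1, nat_lit 1⟩,
    ⟨false, nat_lit 128, nat_lit 242, nat_lit 2, nat_lit 0⟩, ⟨false, nat_lit 16, nat_lit 146, nat_lit 1, nat_lit 1⟩, ⟨true, nat_lit 2, nat_lit 158, nat_lit 2, nat_lit 0⟩,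
    ⟨false, nat_lit 2048, nat_lit 3936, nat_lit 2, nat_lit 1⟩, ⟨false, nat_lit 256, nat_lit 2400, nat_lit 1, nat_lit 2⟩, ⟨true, nat_lit 64, nat_lit 2528, nat_lit 2, nat_lit 0⟩,
    ⟨false, nat_lit 16384, nat_lit 30240, nat_lit 2, nat_lit 1⟩, ⟨false, nat_lit 1024, nat_lit 20000, nat_lit 2, nat_lit 0⟩, ⟨true, nat_lit 32, nat_lit 19936, nat_lit 2, nat_lit 2⟩,
    ⟨false, nat_lit 32768, nat_lit 45568, nat_lit 1, nat_lit 2⟩, ⟨false, nat_lit 8192, nat_lit 61952, nat_lit 2, nat_lit 0⟩, ⟨true, nat_lit 512, nat_lit 60928, nat_lit 2, nat_lit 1⟩,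
    ⟨false, nat_lit 4096, nat_lit 61440, nat_lit 1, nat_lit 2⟩]

def r60_0_7 : List Wr := [
    ⟨true, nat_lit 1, nat_lit 1, nat_lit 0, nat_lit 2⟩, ⟨false, nat_lit 8, nat_lit 14, nat_lit 1, nat_lit 1⟩, ⟨true, nat_lit 4, nat_lit 14, nat_lit 1, nat_lit 1⟩,
    ⟨false, nat_lit 128, nat_lit 242, nat_lit 2, nat_lit 0⟩, ⟨false, nat_lit 16, nat_lit 146, nat_lit 1, nat_lit 1⟩, ⟨true, nat_lit 2, nat_lit 158, nat_lit 2, nat_lit 0⟩,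
    ⟨false, nat_lit 16384, nat_lit 32608, nat_lit 3, nat_lit 1⟩, ⟨false, nat_lit 2048, nat_lit 20320, nat_lit 2, nat_lit 2⟩, ⟨true, nat_lit 64, nat_lit 18656, nat_lit 2, nat_lit 0⟩,
    ⟨true, nat_lit 1024, nat_lit 20256, nat_lit 2, nat_lit 1⟩, ⟨false, nat_lit 8192, nat_lit 29472, nat_lit 2, nat_lit 1⟩, ⟨false, nat_lit 512, nat_lit 28448, nat_lit 2, nat_lit 2⟩,
    ⟨true, nat_lit 256, nat_lit 28448, nat_lit 2, nat_lit 2⟩, ⟨false, nat_lit 32768, nat_lit 36896, nat_lit 1, nat_lit 1⟩, ⟨false, nat_lit 4096, nat_lit 61472, nat_lit 2, nat_lit 0⟩,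
    ⟨false, nat_lit 32, nat_lit 65504, nat_lit 3, nat_lit 3⟩]

def r60_0_8 : List Wr := [
    ⟨false, nat_lit 16384, nat_lit 32767, nat_lit 4, nat_lit 4⟩, ⟨false, nat_lit 8, nat_lit 16399, nat_lit 2, nat_lit 0⟩, ⟨true, nat_lit 1, nat_lit 16393, nat_lit 1, nat_lit 1⟩,
    ⟨false, nat_lit 128, nat_lit 16630, nat_lit 2, nat_lit 2⟩, ⟨true, nat_lit 4, nat_lit 16526, nat_lit 1, nat_lit 3⟩, ⟨true, nat_lit 16, nat_lit 16530, nat_lit 1, nat_lit 2⟩,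
    ⟨false, nat_lit 2048, nat_lit 20322, nat_lit 3, nat_lit 0⟩, ⟨false, nat_lit 64, nat_lit 18658, nat_lit 2, nat_lit 1⟩, ⟨true, nat_lit 2, nat_lit 18654, nat_lit 3, nat_lit 0⟩,
    ⟨true, nat_lit 256, nat_lit 18720, nat_lit 1, nat_lit 2⟩, ⟨false, nat_lit 8192, nat_lit 30240, nat_lit 2, nat_lit 1⟩, ⟨false, nat_lit 1024, nat_lit 28192, nat_lit 2, nat_lit 1⟩,
    ⟨true, nat_lit 32, nat_lit 28128, nat_lit 3, nat_lit 0⟩, ⟨false, nat_lit 32768, nat_lit 37376, nat_lit 1, nat_lit 1⟩, ⟨false, nat_lit 4096, nat_lit 61952, nat_lit 2, nat_lit 0⟩,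
    ⟨false, nat_lit 512, nat_lit 65024, nat_lit 2, nat_lit 2⟩]

def l60_0 : List (Nat × List Wr × Nat) := [
  (nat_lit 4, r60_0_0, nat_lit 0), (nat_lit 6, r60_0_1, nat_lit 0), (nat_lit 6, r60_0_2, nat_lit 0),
  (nat_lit 6, r60_0_3, nat_lit 0), (nat_lit 6, r60_0_4, nat_lit 0), (nat_lit 6, r60_0_5, nat_lit 0),
  (nat_lit 6, r60_0_6, nat_lit 0), (nat_lit 6, r60_0_7, nat_lit 0), (nat_lit 6, r60_0_8, nat_lit 0)]

def r60_1_0 : List Wr := [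
    ⟨false, nat_lit 16384, nat_lit 32767, nat_lit 4, nat_lit 4⟩, ⟨false, nat_lit 8, nat_lit 16399, nat_lit 2, nat_lit 0⟩, ⟨true, nat_lit 1, nat_lit 16393, nat_lit 1, nat_lit 1⟩,
    ⟨true, nat_lit 4, nat_lit 16398, nat_lit 1, nat_lit 2⟩, ⟨false, nat_lit 128, nat_lit 16626, nat_lit 2, nat_lit 1⟩, ⟨true, nat_lit 16, nat_lit 16530, nat_lit 1, nat_lit 2⟩,
    ⟨false, nat_lit 2048, nat_lit 20322, nat_lit 3, nat_lit 0⟩, ⟨false, nat_lit 64, nat_lit 18658, nat_lit 2, nat_lit 1⟩, ⟨true, nat_lit 2, nat_lit 18654, nat_lit 3, nat_lit 0⟩,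
    ⟨true, nat_lit 256, nat_lit 18720, nat_lit 1, nat_lit 2⟩, ⟨false, nat_lit 8192, nat_lit 30240, nat_lit 2, nat_lit 1⟩, ⟨false, nat_lit 1024, nat_lit 28192, nat_lit 2, nat_lit 1⟩,
    ⟨true, nat_lit 32, nat_lit 28128, nat_lit 3, nat_lit 0⟩, ⟨false, nat_lit 32768, nat_lit 37376, nat_lit 1, nat_lit 1⟩, ⟨false, nat_lit 4096, nat_lit 61952, nat_lit 2, nat_lit 0⟩,
    ⟨false, nat_lit 512, nat_lit 65024, nat_lit 2, nat_lit 2⟩]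

def r60_1_1 : List Wr := [
    ⟨false, nat_lit 16384, nat_lit 32767, nat_lit 4, nat_lit 4⟩, ⟨false, nat_lit 8, nat_lit 16399, nat_lit 2, nat_lit 0⟩, ⟨true, nat_lit 1, nat_lit 16393, nat_lit 1, nat_lit 1⟩,
    ⟨false, nat_lit 128, nat_lit 16630, nat_lit 2, nat_lit 2⟩, ⟨true, nat_lit 4, nat_lit 16526, nat_lit 1, nat_lit 3⟩, ⟨true, nat_lit 16, nat_lit 16530, nat_lit 1, nat_lit 2⟩,
    ⟨false, nat_lit 2048, nat_lit 20322, nat_lit 3, nat_lit 0⟩, ⟨false, nat_lit 64, nat_lit 18658, nat_lit 2, nat_lit 1⟩, ⟨true, nat_lit 2, nat_lit 18654, nat_lit 3, nat_lit 0⟩,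
    ⟨true, nat_lit 256, nat_lit 18720, nat_lit 1, nat_lit 2⟩, ⟨false, nat_lit 8192, nat_lit 30240, nat_lit 2, nat_lit 1⟩, ⟨false, nat_lit 1024, nat_lit 28192, nat_lit 2, nat_lit 1⟩,
    ⟨true, nat_lit 32, nat_lit 28128, nat_lit 3, nat_lit 0⟩, ⟨false, nat_lit 32768, nat_lit 37376, nat_lit 1, nat_lit 1⟩, ⟨false, nat_lit 4096, nat_lit 61952, nat_lit 2, nat_lit 0⟩,
    ⟨false, nat_lit 512, nat_lit 65024, nat_lit 2, nat_lit 2⟩]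

def l60_1 : List (Nat × List Wr × Nat) := [
  (nat_lit 4, r60_1_0, nat_lit 0), (nat_lit 5, r60_1_1, nat_lit 1)]

end Pool.Agent.EC4.Run
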