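import Pool.Agent.Lib.MP_ec4eff_co.R5.Srch

/-! Generated file (project R5): results of the first lune -/

namespace Pool.Agent.EC4.Run

def r76_0_0 : List Wr := [
    ⟨false, nat_lit 16384, nat_lit 32767, nat_lit 5, nat_lit 1⟩, ⟨false, nat_lit 16, nat_lit 16415, nat_lit 2, nat_lit 1⟩, ⟨true, nat_lit 1, nat_lit 16401, nat_lit 1, nat_lit 1⟩,
    ⟨false, nat_lit 128, nat_lit 16622, nat_lit 2, nat_lit 2⟩, ⟨true, nat_lit 8, nat_lit 16542, nat_lit 2, nat_lit 1⟩, ⟨false, nat_lit 2048, nat_lit 20326, nat_lit 2, nat_lit 4⟩,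
    ⟨false, nat_lit 1024, nat_lit 20326, nat_lit 3, nat_lit 1⟩, ⟨true, nat_lit 2, nat_lit 19610, nat_lit 2, nat_lit 2⟩, ⟨false, nat_lit 8192, nat_lit 29540, nat_lit 3, nat_lit 0⟩,
    ⟨false, nat_lit 512, nat_lit 28516, nat_lit 3, nat_lit 1⟩, ⟨true, nat_lit 64, nat_lit 28388, nat_lit 3, nat_lit 1⟩, ⟨false, nat_lit 256, nat_lit 28452, nat_lit 2, nat_lit 3⟩,
    ⟨true, nat_lit 32, nat_lit 28644, nat_lit 3, nat_lit 2⟩, ⟨false, nat_lit 32768, nat_lit 36868, nat_lit 1, nat_lit 1⟩, ⟨false, nat_lit 4096, nat_lit 61444, nat_lit 2, nat_lit 0⟩,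
    ⟨false, nat_lit 4, nat_lit 65532, nat_lit 4, nat_lit 3⟩]

def r76_0_1 : List Wr := [
    ⟨false, nat_lit 16, nat_lit 31, nat_lit 2, nat_lit 0⟩, ⟨false, nat_lit 2, nat_lit 19, nat_lit 1, nat_lit 1⟩, ⟨true, nat_lit 1, nat_lit 19, nat_lit 1, nat_lit 1⟩,
    ⟨false, nat_lit 16384, nat_lit 32748, nat_lit 4, nat_lit 1⟩, ⟨false, nat_lit 128, nat_lit 16620, nat_lit 2, nat_lit 1⟩, ⟨true, nat_lit 8, nat_lit 16540, nat_lit 2, nat_lit 0⟩,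
    ⟨false, nat_lit 1024, nat_lit 18276, nat_lit 2, nat_lit 2⟩, ⟨true, nat_lit 64, nat_lit 17636, nat_lit 2, nat_lit 1⟩, ⟨false, nat_lit 2048, nat_lit 19236, nat_lit 2, nat_lit 1⟩,
    ⟨false, nat_lit 512, nat_lit 20260, nat_lit 2, nat_lit 2⟩, ⟨true, nat_lit 4, nat_lit 20188, nat_lit 3, nat_lit 1⟩, ⟨true, nat_lit 256, nat_lit 20256, nat_lit 2, nat_lit 1⟩,
    ⟨true, nat_lit 8192, nat_lit 28704, nat_lit 1, nat_lit 2⟩, ⟨false, nat_lit 32768, nat_lit 36896, nat_lit 1, nat_lit 1⟩, ⟨false, nat_lit 4096, nat_lit 61472, nat_lit 2, nat_lit 0⟩,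
    ⟨false, nat_lit 32, nat_lit 65504, nat_lit 3, nat_lit 3⟩]

def r76_0_2 : List Wr := [
    ⟨false, nat_lit 16, nat_lit 31, nat_lit 2, nat_lit 0⟩, ⟨false, nat_lit 2, nat_lit 19, nat_lit 1, nat_lit 1⟩, ⟨true, nat_lit 1, nat_lit 19, nat_lit 1, nat_lit 1⟩,
    ⟨false, nat_lit 16384, nat_lit 32748, nat_lit 4, nat_lit 1⟩, ⟨false, nat_lit 128, nat_lit 16620, nat_lit 2, nat_lit 1⟩, ⟨true, nat_lit 8, nat_lit 16540, nat_lit 2, nat_lit 0⟩,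
    ⟨false, nat_lit 1024, nat_lit 18276, nat_lit 2, nat_lit 2⟩, ⟨true, nat_lit 64, nat_lit 17636, nat_lit 2, nat_lit 1⟩, ⟨false, nat_lit 2048, nat_lit 19236, nat_lit 2, nat_lit 1⟩,
    ⟨false, nat_lit 512, nat_lit 20260, nat_lit 2, nat_lit 2⟩, ⟨true, nat_lit 4, nat_lit 20188, nat_lit 3, nat_lit 1⟩, ⟨false, nat_lit 8192, nat_lit 28960, nat_lit 1, nat_lit 3⟩,
    ⟨true, nat_lit 256, nat_lit 28448, nat_lit 2, nat_lit 2⟩, ⟨false, nat_lit 32768, nat_lit 36896, nat_lit 1, nat_lit 1⟩, ⟨false, nat_lit 4096, nat_lit 61472, nat_lit 2, nat_lit 0⟩,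
    ⟨false, nat_lit 32, nat_lit 65504, nat_lit 3, nat_lit 3⟩]

def r76_0_3 : List Wr := [
    ⟨false, nat_lit 16, nat_lit 31, nat_lit 2, nat_lit 0⟩, ⟨false, nat_lit 2, nat_lit 19, nat_lit 1, nat_lit 1⟩, ⟨true, nat_lit 1, nat_lit 19, nat_lit 1, nat_lit 1⟩,
    ⟨false, nat_lit 16384, nat_lit 32748, nat_lit 4, nat_lit 1⟩, ⟨false, nat_lit 128, nat_lit 16620, nat_lit 2, nat_lit 1⟩, ⟨true, nat_lit 8, nat_lit 16540, nat_lit 2, nat_lit 0⟩,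
    ⟨false, nat_lit 1024, nat_lit 18276, nat_lit 2, nat_lit 2⟩, ⟨false, nat_lit 64, nat_lit 17636, nat_lit 2, nat_lit 1⟩, ⟨true, nat_lit 4, nat_lit 17628, nat_lit 2, nat_lit 2⟩,
    ⟨false, nat_lit 8192, nat_lit 31520, nat_lit 2, nat_lit 2⟩, ⟨false, nat_lit 2048, nat_lit 27424, nat_lit 2, nat_lit 1⟩, ⟨false, nat_lit 512, nat_lit 28448, nat_lit 2, nat_lit 2⟩,
    ⟨true, nat_lit 256, nat_lit 28448, nat_lit 2, nat_lit 2⟩, ⟨false, nat_lit 32768, nat_lit 36896, nat_lit 1, nat_lit 1⟩, ⟨false, nat_lit 4096, nat_lit 61472, nat_lit 2, nat_lit 0⟩,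
    ⟨false, nat_lit 32, nat_lit 65504, nat_lit 3, nat_lit 3⟩]

def r76_0_4 : List Wr := [
    ⟨false, nat_lit 16, nat_lit 31, nat_lit 2, nat_lit 0⟩, ⟨false, nat_lit 2, nat_lit 19, nat_lit 1, nat_lit 1⟩, ⟨true, nat_lit 1, nat_lit 19, nat_lit 1, nat_lit 1⟩,
    ⟨false, nat_lit 16384, nat_lit 32748, nat_lit 4, nat_lit 1⟩, ⟨false, nat_lit 128, nat_lit 16620, nat_lit 2, nat_lit 1⟩, ⟨true, nat_lit 8, nat_lit 16540, nat_lit 2, nat_lit 0⟩,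
    ⟨false, nat_lit 1024, nat_lit 18276, nat_lit 2, nat_lit 2⟩, ⟨true, nat_lit 64, nat_lit 17636, nat_lit 2, nat_lit 1⟩, ⟨false, nat_lit 2048, nat_lit 19236, nat_lit 2, nat_lit 1⟩,
    ⟨false, nat_lit 512, nat_lit 20260, nat_lit 2, nat_lit 2⟩, ⟨true, nat_lit 4, nat_lit 20188, nat_lit 3, nat_lit 1⟩, ⟨false, nat_lit 8192, nat_lit 28960, nat_lit 1, nat_lit 3⟩,
    ⟨true, nat_lit 256, nat_lit 28448, nat_lit 2, nat_lit 2⟩, ⟨false, nat_lit 32768, nat_lit 36896, nat_lit 1, nat_lit 1⟩, ⟨false, nat_lit 4096, nat_lit 61472, nat_lit 2, nat_lit 0⟩,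
    ⟨false, nat_lit 32, nat_lit 65504, nat_lit 3, nat_lit 3⟩]

def r76_0_5 : List Wr := [
    ⟨false, nat_lit 16, nat_lit 31, nat_lit 2, nat_lit 0⟩, ⟨false, nat_lit 2, nat_lit 19, nat_lit 1, nat_lit 1⟩, ⟨true, nat_lit 1, nat_lit 19, nat_lit 1, nat_lit 1⟩,
    ⟨false, nat_lit 16384, nat_lit 32748, nat_lit 4, nat_lit 1⟩, ⟨false, nat_lit 128, nat_lit 16620, nat_lit 2, nat_lit 1⟩, ⟨true, nat_lit 8, nat_lit 16540, nat_lit 2, nat_lit 0⟩,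
    ⟨false, nat_lit 1024, nat_lit 18276, nat_lit 2, nat_lit 2⟩, ⟨true, nat_lit 64, nat_lit 17636, nat_lit 2, nat_lit 1⟩, ⟨false, nat_lit 2048, nat_lit 19236, nat_lit 2, nat_lit 1⟩,
    ⟨false, nat_lit 512, nat_lit 20260, nat_lit 2, nat_lit 2⟩, ⟨true, nat_lit 4, nat_lit 20188, nat_lit 3, nat_lit 1⟩, ⟨true, nat_lit 256, nat_lit 20256, nat_lit 2, nat_lit 1⟩,
    ⟨false, nat_lit 32768, nat_lit 45088, nat_lit 1, nat_lit 2⟩, ⟨false, nat_lit 8192, nat_lit 61472, nat_lit 2, nat_lit 0⟩, ⟨true, nat_lit 32, nat_lit 61408, nat_lit 3, nat_lit 2⟩,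
    ⟨false, nat_lit 4096, nat_lit 61440, nat_lit 1, nat_lit 2⟩]

def r76_0_6 : List Wr := [
    ⟨false, nat_lit 16, nat_lit 31, nat_lit 2, nat_lit 0⟩, ⟨false, nat_lit 2, nat_lit 19, nat_lit 1, nat_lit 1⟩, ⟨true, nat_lit 1, nat_lit 19, nat_lit 1, nat_lit 1⟩,
    ⟨false, nat_lit 16384, nat_lit 32748, nat_lit 4, nat_lit 1⟩, ⟨false, nat_lit 128, nat_lit 16620, nat_lit 2, nat_lit 1⟩, ⟨true, nat_lit 8, nat_lit 16540, nat_lit 2, nat_lit 0⟩,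
    ⟨true, nat_lit 1024, nat_lit 18276, nat_lit 2, nat_lit 2⟩, ⟨false, nat_lit 8192, nat_lit 31588, nat_lit 3, nat_lit 1⟩, ⟨false, nat_lit 2048, nat_lit 27492, nat_lit 2, nat_lit 3⟩,
    ⟨true, nat_lit 64, nat_lit 27876, nat_lit 3, nat_lit 0⟩, ⟨false, nat_lit 512, nat_lit 28452, nat_lit 2, nat_lit 3⟩, ⟨false, nat_lit 256, nat_lit 28452, nat_lit 2, nat_lit 3⟩,
    ⟨true, nat_lit 32, nat_lit 28644, nat_lit 3, nat_lit 2⟩, ⟨false, nat_lit 32768, nat_lit 36868, nat_lit 1, nat_lit 1⟩, ⟨false, nat_lit 4096, nat_lit 61444, nat_lit 2, nat_lit 0⟩,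
    ⟨false, nat_lit 4, nat_lit 65532, nat_lit 4, nat_lit 3⟩]

def l76_0 : List (Nat × List Wr × Nat) := [
  (nat_lit 6, r76_0_0, nat_lit 0), (nat_lit 4, r76_0_1, nat_lit 0), (nat_lit 5, r76_0_2, nat_lit 1),
  (nat_lit 6, r76_0_3, nat_lit 0), (nat_lit 6, r76_0_4, nat_lit 0), (nat_lit 4, r76_0_5, nat_lit 0),
  (nat_lit 6, r76_0_6, nat_lit 0)]

def r76_1_0 : List Wr := [
    ⟨false, nat_lit 16, nat_lit 31, nat_lit 2, nat_lit 0⟩, ⟨false, nat_lit 2, nat_lit 19, nat_lit 1, nat_lit 1⟩, ⟨true, nat_lit 1, nat_lit 19, nat_lit 1, nat_lit 1⟩,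
    ⟨true, nat_lit 8, nat_lit 28, nat_lit 1, nat_lit 1⟩, ⟨true, nat_lit 128, nat_lit 228, nat_lit 1, nat_lit 2⟩, ⟨false, nat_lit 1024, nat_lit 1892, nat_lit 2, nat_lit 1⟩,
    ⟨false, nat_lit 64, nat_lit 1252, nat_lit 2, nat_lit 0⟩, ⟨true, nat_lit 4, nat_lit 1244, nat_lit 2, nat_lit 1⟩, ⟨false, nat_lit 16384, nat_lit 31520, nat_lit 2, nat_lit 2⟩,
    ⟨false, nat_lit 512, nat_lit 18208, nat_lit 2, nat_lit 0⟩, ⟨true, nat_lit 32, nat_lit 18144, nat_lit 2, nat_lit 1⟩, ⟨false, nat_lit 8192, nat_lit 30976, nat_lit 2, nat_lit 0⟩,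
    ⟨false, nat_lit 2048, nat_lit 26880, nat_lit 1, nat_lit 2⟩, ⟨true, nat_lit 256, nat_lit 28416, nat_lit 2, nat_lit 1⟩, ⟨true, nat_lit 4096, nat_lit 28672, nat_lit 1, nat_lit 1⟩,
    ⟨false, nat_lit 32768, nat_lit 32768, nat_lit 0, nat_lit 2⟩]

def l76_1 : List (Nat × List Wr × Nat) := [
  (nat_lit 6, r76_1_0, nat_lit 0)]

def r76_2_0 : List Wr := [
    ⟨false, nat_lit 16, nat_lit 31, nat_lit 2, nat_lit 0⟩, ⟨false, nat_lit 2, nat_lit 19, nat_lit 1, nat_lit 1⟩, ⟨true, nat_lit 1, nat_lit 19, nat_lit 1, nat_lit 1⟩,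
    ⟨true, nat_lit 8, nat_lit 28, nat_lit 1, nat_lit 1⟩, ⟨false, nat_lit 1024, nat_lit 2020, nat_lit 2, nat_lit 2⟩, ⟨false, nat_lit 128, nat_lit 1252, nat_lit 2, nat_lit 0⟩,
    ⟨true, nat_lit 4, nat_lit 1180, nat_lit 2, nat_lit 0⟩, ⟨false, nat_lit 16384, nat_lit 31584, nat_lit 3, nat_lit 0⟩, ⟨false, nat_lit 512, nat_lit 18272, nat_lit 2, nat_lit 1⟩,
    ⟨true, nat_lit 64, nat_lit 18144, nat_lit 2, nat_lit 1⟩, ⟨false, nat_lit 2048, nat_lit 18720, nat_lit 1, nat_lit 2⟩, ⟨true, nat_lit 256, nat_lit 20256, nat_lit 2, nat_lit 1⟩,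
    ⟨true, nat_lit 8192, nat_lit 28704, nat_lit 1, nat_lit 2⟩, ⟨false, nat_lit 32768, nat_lit 36896, nat_lit 1, nat_lit 1⟩, ⟨false, nat_lit 4096, nat_lit 61472, nat_lit 2, nat_lit 0⟩,
    ⟨false, nat_lit 32, nat_lit 65504, nat_lit 3, nat_lit 3⟩]

def l76_2 : List (Nat × List Wr × Nat) := [
  (nat_lit 4, r76_2_0, nat_lit 0)]

def r76_3_0 : List Wr := [
    ⟨false, nat_lit 16, nat_lit 31, nat_lit 2, nat_lit 0⟩, ⟨false, nat_lit 2, nat_lit 19, nat_lit 1, nat_lit 1⟩, ⟨true, nat_lit 1, nat_lit 19, nat_lit 1, nat_lit 1⟩,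
    ⟨true, nat_lit 8, nat_lit 28, nat_lit 1, nat_lit 1⟩, ⟨false, nat_lit 1024, nat_lit 2020, nat_lit 2, nat_lit 2⟩, ⟨false, nat_lit 128, nat_lit 1252, nat_lit 2, nat_lit 0⟩,
    ⟨true, nat_lit 4, nat_lit 1180, nat_lit 2, nat_lit 0⟩, ⟨false, nat_lit 16384, nat_lit 31584, nat_lit 3, nat_lit 0⟩, ⟨false, nat_lit 512, nat_lit 18272, nat_lit 2, nat_lit 1⟩,
    ⟨true, nat_lit 64, nat_lit 18144, nat_lit 2, nat_lit 1⟩, ⟨true, nat_lit 2048, nat_lit 18720, nat_lit 1, nat_lit 2⟩, ⟨false, nat_lit 8192, nat_lit 28960, nat_lit 1, nat_lit 3⟩,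
    ⟨true, nat_lit 256, nat_lit 28448, nat_lit 2, nat_lit 2⟩, ⟨false, nat_lit 32768, nat_lit 36896, nat_lit 1, nat_lit 1⟩, ⟨false, nat_lit 4096, nat_lit 61472, nat_lit 2, nat_lit 0⟩,
    ⟨false, nat_lit 32, nat_lit 65504, nat_lit 3, nat_lit 3⟩]

def r76_3_1 : List Wr := [
    ⟨false, nat_lit 16, nat_lit 31, nat_lit 2, nat_lit 0⟩, ⟨false, nat_lit 2, nat_lit 19, nat_lit 1, nat_lit 1⟩, ⟨true, nat_lit 1, nat_lit 19, nat_lit 1, nat_lit 1⟩,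
    ⟨true, nat_lit 8, nat_lit 28, nat_lit 1, nat_lit 1⟩, ⟨false, nat_lit 1024, nat_lit 2020, nat_lit 2, nat_lit 2⟩, ⟨false, nat_lit 128, nat_lit 1252, nat_lit 2, nat_lit 0⟩,
    ⟨true, nat_lit 4, nat_lit 1180, nat_lit 2, nat_lit 0⟩, ⟨false, nat_lit 16384, nat_lit 31584, nat_lit 3, nat_lit 0⟩, ⟨false, nat_lit 512, nat_lit 18272, nat_lit 2, nat_lit 1⟩,
    ⟨true, nat_lit 64, nat_lit 18144, nat_lit 2, nat_lit 1⟩, ⟨true, nat_lit 2048, nat_lit 18720, nat_lit 1, nat_lit 2⟩, ⟨false, nat_lit 8192, nat_lit 28960, nat_lit 1, nat_lit 3⟩,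
    ⟨true, nat_lit 256, nat_lit 28448, nat_lit 2, nat_lit 2⟩, ⟨false, nat_lit 32768, nat_lit 36896, nat_lit 1, nat_lit 1⟩, ⟨false, nat_lit 4096, nat_lit 61472, nat_lit 2, nat_lit 0⟩,
    ⟨false, nat_lit 32, nat_lit 65504, nat_lit 3, nat_lit 3⟩]

def r76_3_2 : List Wr := [
    ⟨false, nat_lit 16, nat_lit 31, nat_lit 2, nat_lit 0⟩, ⟨false, nat_lit 2, nat_lit 19, nat_lit 1, nat_lit 1⟩, ⟨true, nat_lit 1, nat_lit 19, nat_lit 1, nat_lit 1⟩,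
    ⟨true, nat_lit 8, nat_lit 28, nat_lit 1, nat_lit 1⟩, ⟨false, nat_lit 1024, nat_lit 2020, nat_lit 2, nat_lit 2⟩, ⟨false, nat_lit 128, nat_lit 1252, nat_lit 2, nat_lit 0⟩,
    ⟨true, nat_lit 4, nat_lit 1180, nat_lit 2, nat_lit 0⟩, ⟨false, nat_lit 16384, nat_lit 31584, nat_lit 3, nat_lit 0⟩, ⟨false, nat_lit 512, nat_lit 18272, nat_lit 2, nat_lit 1⟩,
    ⟨true, nat_lit 64, nat_lit 18144, nat_lit 2, nat_lit 1⟩, ⟨false, nat_lit 2048, nat_lit 18720, nat_lit 1, nat_lit 2⟩, ⟨true, nat_lit 256, nat_lit 20256, nat_lit 2, nat_lit 1⟩,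
    ⟨false, nat_lit 32768, nat_lit 45088, nat_lit 1, nat_lit 2⟩, ⟨false, nat_lit 8192, nat_lit 61472, nat_lit 2, nat_lit 0⟩, ⟨true, nat_lit 32, nat_lit 61408, nat_lit 3, nat_lit 2⟩,
    ⟨false, nat_lit 4096, nat_lit 61440, nat_lit 1, nat_lit 2⟩]

def r76_3_3 : List Wr := [
    ⟨false, nat_lit 16, nat_lit 31, nat_lit 2, nat_lit 0⟩, ⟨false, nat_lit 2, nat_lit 19, nat_lit 1, nat_lit 1⟩, ⟨true, nat_lit 1, nat_lit 19, nat_lit 1, nat_lit 1⟩,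
    ⟨true, nat_lit 8, nat_lit 28, nat_lit 1, nat_lit 1⟩, ⟨false, nat_lit 1024, nat_lit 2020, nat_lit 2, nat_lit 2⟩, ⟨false, nat_lit 128, nat_lit 1252, nat_lit 2, nat_lit 0⟩,
    ⟨true, nat_lit 4, nat_lit 1180, nat_lit 2, nat_lit 0⟩, ⟨true, nat_lit 64, nat_lit 1248, nat_lit 1, nat_lit 2⟩, ⟨false, nat_lit 16384, nat_lit 31520, nat_lit 2, nat_lit 2⟩,
    ⟨false, nat_lit 512, nat_lit 18208, nat_lit 2, nat_lit 0⟩, ⟨true, nat_lit 32, nat_lit 18144, nat_lit 2, nat_lit 1⟩, ⟨false, nat_lit 8192, nat_lit 30976, nat_lit 2, nat_lit 0⟩,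
    ⟨false, nat_lit 2048, nat_lit 26880, nat_lit 1, nat_lit 2⟩, ⟨true, nat_lit 256, nat_lit 28416, nat_lit 2, nat_lit 1⟩, ⟨true, nat_lit 4096, nat_lit 28672, nat_lit 1, nat_lit 1⟩,
    ⟨false, nat_lit 32768, nat_lit 32768, nat_lit 0, nat_lit 2⟩]

def l76_3 : List (Nat × List Wr × Nat) := [
  (nat_lit 5, r76_3_0, nat_lit 1), (nat_lit 6, r76_3_1, nat_lit 0), (nat_lit 4, r76_3_2, nat_lit 0),
  (nat_lit 6, r76_3_3, nat_lit 0)]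

def r76_4_0 : List Wr := [
    ⟨false, nat_lit 16, nat_lit 31, nat_lit 2, nat_lit 0⟩, ⟨false, nat_lit 2, nat_lit 19, nat_lit 1, nat_lit 1⟩, ⟨true, nat_lit 1, nat_lit 19, nat_lit 1, nat_lit 1⟩,
    ⟨false, nat_lit 8, nat_lit 28, nat_lit 1, nat_lit 1⟩, ⟨true, nat_lit 4, nat_lit 28, nat_lit 1, nat_lit 1⟩, ⟨true, nat_lit 128, nat_lit 224, nat_lit 1, nat_lit 1⟩,
    ⟨false, nat_lit 16384, nat_lit 32608, nat_lit 3, nat_lit 1⟩, ⟨false, nat_lit 1024, nat_lit 18272, nat_lit 2, nat_lit 1⟩, ⟨true, nat_lit 64, nat_lit 17632, nat_lit 2, nat_lit 0⟩,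
    ⟨false, nat_lit 8192, nat_lit 31520, nat_lit 2, nat_lit 2⟩, ⟨false, nat_lit 2048, nat_lit 27424, nat_lit 2, nat_lit 1⟩, ⟨false, nat_lit 512, nat_lit 28448, nat_lit 2, nat_lit 2⟩,
    ⟨true, nat_lit 256, nat_lit 28448, nat_lit 2, nat_lit 2⟩, ⟨false, nat_lit 32768, nat_lit 36896, nat_lit 1, nat_lit 1⟩, ⟨false, nat_lit 4096, nat_lit 61472, nat_lit 2, nat_lit 0⟩,
    ⟨false, nat_lit 32, nat_lit 65504, nat_lit 3, nat_lit 3⟩]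

def r76_4_1 : List Wr := [
    ⟨false, nat_lit 16, nat_lit 31, nat_lit 2, nat_lit 0⟩, ⟨false, nat_lit 2, nat_lit 19, nat_lit 1, nat_lit 1⟩, ⟨true, nat_lit 1, nat_lit 19, nat_lit 1, nat_lit 1⟩,
    ⟨true, nat_lit 8, nat_lit 28, nat_lit 1, nat_lit 1⟩, ⟨false, nat_lit 16384, nat_lit 32740, nat_lit 3, nat_lit 3⟩, ⟨false, nat_lit 128, nat_lit 16612, nat_lit 2, nat_lit 0⟩,
    ⟨true, nat_lit 4, nat_lit 16540, nat_lit 2, nat_lit 0⟩, ⟨false, nat_lit 2048, nat_lit 20320, nat_lit 2, nat_lit 2⟩, ⟨false, nat_lit 1024, nat_lit 20320, nat_lit 2, nat_lit 2⟩,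
    ⟨true, nat_lit 64, nat_lit 19680, nat_lit 2, nat_lit 1⟩, ⟨true, nat_lit 512, nat_lit 20256, nat_lit 2, nat_lit 1⟩, ⟨false, nat_lit 8192, nat_lit 28960, nat_lit 2, nat_lit 0⟩,
    ⟨false, nat_lit 256, nat_lit 28448, nat_lit 2, nat_lit 2⟩, ⟨true, nat_lit 32, nat_lit 28640, nat_lit 3, nat_lit 1⟩, ⟨true, nat_lit 4096, nat_lit 28672, nat_lit 1, nat_lit 1⟩,
    ⟨false, nat_lit 32768, nat_lit 32768, nat_lit 0, nat_lit 2⟩]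

def l76_4 : List (Nat × List Wr × Nat) := [
  (nat_lit 6, r76_4_0, nat_lit 0), (nat_lit 6, r76_4_1, nat_lit 0)]

def r74_0_0 : List Wr := [
    ⟨true, nat_lit 1, nat_lit 1, nat_lit 0, nat_lit 2⟩, ⟨true, nat_lit 16, nat_lit 30, nat_lit 1, nat_lit 2⟩, ⟨false, nat_lit 128, nat_lit 238, nat_lit 2, nat_lit 1⟩,
    ⟨false, nat_lit 8, nat_lit 158, nat_lit 2, nat_lit 0⟩, ⟨true, nat_lit 2, nat_lit 154, nat_lit 1, nat_lit 2⟩, ⟨false, nat_lit 1024, nat_lit 1892, nat_lit 2, nat_lit 1⟩,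
    ⟨false, nat_lit 64, nat_lit 1252, nat_lit 2, nat_lit 0⟩, ⟨true, nat_lit 4, nat_lit 1244, nat_lit 2, nat_lit 1⟩, ⟨true, nat_lit 512, nat_lit 1824, nat_lit 1, nat_lit 2⟩,
    ⟨false, nat_lit 8192, nat_lit 14624, nat_lit 2, nat_lit 0⟩, ⟨false, nat_lit 256, nat_lit 10016, nat_lit 2, nat_lit 0⟩, ⟨true, nat_lit 32, nat_lit 10208, nat_lit 2, nat_lit 2⟩,
    ⟨true, nat_lit 4096, nat_lit 14336, nat_lit 1, nat_lit 1⟩, ⟨false, nat_lit 32768, nat_lit 51200, nat_lit 1, nat_lit 1⟩, ⟨false, nat_lit 16384, nat_lit 51200, nat_lit 1, nat_lit 1⟩,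
    ⟨false, nat_lit 2048, nat_lit 63488, nat_lit 2, nat_lit 0⟩]

def r74_0_1 : List Wr := [
    ⟨true, nat_lit 1, nat_lit 1, nat_lit 0, nat_lit 2⟩, ⟨true, nat_lit 16, nat_lit 30, nat_lit 1, nat_lit 2⟩, ⟨false, nat_lit 128, nat_lit 238, nat_lit 2, nat_lit 1⟩,
    ⟨false, nat_lit 8, nat_lit 158, nat_lit 2, nat_lit 0⟩, ⟨true, nat_lit 2, nat_lit 154, nat_lit 1, nat_lit 2⟩, ⟨false, nat_lit 1024, nat_lit 1892, nat_lit 2, nat_lit 1⟩,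
    ⟨false, nat_lit 64, nat_lit 1252, nat_lit 2, nat_lit 0⟩, ⟨true, nat_lit 4, nat_lit 1244, nat_lit 2, nat_lit 1⟩, ⟨false, nat_lit 8192, nat_lit 15136, nat_lit 2, nat_lit 1⟩,
    ⟨false, nat_lit 512, nat_lit 10016, nat_lit 2, nat_lit 0⟩, ⟨true, nat_lit 32, nat_lit 9952, nat_lit 2, nat_lit 1⟩, ⟨true, nat_lit 256, nat_lit 9984, nat_lit 1, nat_lit 2⟩,
    ⟨true, nat_lit 4096, nat_lit 14336, nat_lit 1, nat_lit 1⟩, ⟨false, nat_lit 32768, nat_lit 51200, nat_lit 1, nat_lit 1⟩, ⟨false, nat_lit 16384, nat_lit 51200, nat_lit 1, nat_lit 1⟩,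
    ⟨false, nat_lit 2048, nat_lit 63488, nat_lit 2, nat_lit 0⟩]

def r74_0_2 : List Wr := [
    ⟨true, nat_lit 128, nat_lit 255, nat_lit 2, nat_lit 3⟩, ⟨false, nat_lit 8192, nat_lit 16255, nat_lit 4, nat_lit 2⟩, ⟨false, nat_lit 1024, nat_lit 10111, nat_lit 3, nat_lit 3⟩,
    ⟨true, nat_lit 16, nat_lit 9375, nat_lit 3, nat_lit 0⟩, ⟨false, nat_lit 64, nat_lit 9455, nat_lit 3, nat_lit 1⟩, ⟨true, nat_lit 8, nat_lit 9439, nat_lit 2, nat_lit 4⟩,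
    ⟨false, nat_lit 512, nat_lit 10023, nat_lit 3, nat_lit 0⟩, ⟨false, nat_lit 4, nat_lit 9951, nat_lit 3, nat_lit 2⟩, ⟨true, nat_lit 2, nat_lit 9951, nat_lit 3, nat_lit 2⟩,
    ⟨true, nat_lit 32, nat_lit 9953, nat_lit 2, nat_lit 2⟩, ⟨false, nat_lit 4096, nat_lit 14593, nat_lit 2, nat_lit 0⟩, ⟨false, nat_lit 256, nat_lit 14081, nat_lit 2, nat_lit 1⟩,
    ⟨true, nat_lit 1, nat_lit 14335, nat_lit 4, nat_lit 2⟩, ⟨false, nat_lit 32768, nat_lit 51200, nat_lit 1, nat_lit 1⟩, ⟨false, nat_lit 16384, nat_lit 51200, nat_lit 1, nat_lit 1⟩,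
    ⟨false, nat_lit 2048, nat_lit 63488, nat_lit 2, nat_lit 0⟩]

def r74_0_3 : List Wr := [
    ⟨false, nat_lit 128, nat_lit 255, nat_lit 2, nat_lit 3⟩, ⟨true, nat_lit 16, nat_lit 159, nat_lit 2, nat_lit 1⟩, ⟨false, nat_lit 1024, nat_lit 1903, nat_lit 3, nat_lit 1⟩,
    ⟨false, nat_lit 8, nat_lit 1183, nat_lit 2, nat_lit 2⟩, ⟨true, nat_lit 2, nat_lit 1179, nat_lit 2, nat_lit 1⟩, ⟨true, nat_lit 64, nat_lit 1253, nat_lit 2, nat_lit 1⟩,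
    ⟨false, nat_lit 512, nat_lit 1829, nat_lit 2, nat_lit 1⟩, ⟨false, nat_lit 32, nat_lit 1765, nat_lit 2, nat_lit 2⟩, ⟨true, nat_lit 4, nat_lit 1789, nat_lit 3, nat_lit 1⟩,
    ⟨false, nat_lit 8192, nat_lit 14593, nat_lit 2, nat_lit 0⟩, ⟨false, nat_lit 256, nat_lit 9985, nat_lit 2, nat_lit 0⟩, ⟨true, nat_lit 1, nat_lit 10239, nat_lit 3, nat_lit 4⟩,
    ⟨true, nat_lit 4096, nat_lit 14336, nat_lit 1, nat_lit 1⟩, ⟨false, nat_lit 32768, nat_lit 51200, nat_lit 1, nat_lit 1⟩, ⟨false, nat_lit 16384, nat_lit 51200, nat_lit 1, nat_lit 1⟩,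
    ⟨false, nat_lit 2048, nat_lit 63488, nat_lit 2, nat_lit 0⟩]

def r74_0_4 : List Wr := [
    ⟨true, nat_lit 1, nat_lit 1, nat_lit 0, nat_lit 2⟩, ⟨false, nat_lit 128, nat_lit 254, nat_lit 2, nat_lit 2⟩, ⟨false, nat_lit 16, nat_lit 158, nat_lit 2, nat_lit 0⟩,
    ⟨true, nat_lit 2, nat_lit 146, nat_lit 1, nat_lit 1⟩, ⟨true, nat_lit 8, nat_lit 156, nat_lit 1, nat_lit 2⟩, ⟨false, nat_lit 1024, nat_lit 1892, nat_lit 2, nat_lit 1⟩,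
    ⟨false, nat_lit 64, nat_lit 1252, nat_lit 2, nat_lit 0⟩, ⟨true, nat_lit 4, nat_lit 1244, nat_lit 2, nat_lit 1⟩, ⟨true, nat_lit 512, nat_lit 1824, nat_lit 1, nat_lit 2⟩,
    ⟨false, nat_lit 8192, nat_lit 14624, nat_lit 2, nat_lit 0⟩, ⟨false, nat_lit 256, nat_lit 10016, nat_lit 2, nat_lit 0⟩, ⟨true, nat_lit 32, nat_lit 10208, nat_lit 2, nat_lit 2⟩,
    ⟨true, nat_lit 4096, nat_lit 14336, nat_lit 1, nat_lit 1⟩, ⟨false, nat_lit 32768, nat_lit 51200, nat_lit 1, nat_lit 1⟩, ⟨false, nat_lit 16384, nat_lit 51200, nat_lit 1, nat_lit 1⟩,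
    ⟨false, nat_lit 2048, nat_lit 63488, nat_lit 2, nat_lit 0⟩]

def r74_0_5 : List Wr := [
    ⟨false, nat_lit 16, nat_lit 31, nat_lit 2, nat_lit 0⟩, ⟨false, nat_lit 2, nat_lit 19, nat_lit 1, nat_lit 1⟩, ⟨true, nat_lit 1, nat_lit 19, nat_lit 1, nat_lit 1⟩,
    ⟨false, nat_lit 128, nat_lit 236, nat_lit 1, nat_lit 3⟩, ⟨true, nat_lit 8, nat_lit 156, nat_lit 1, nat_lit 2⟩, ⟨false, nat_lit 1024, nat_lit 1892, nat_lit 2, nat_lit 1⟩,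
    ⟨false, nat_lit 64, nat_lit 1252, nat_lit 2, nat_lit 0⟩, ⟨true, nat_lit 4, nat_lit 1244, nat_lit 2, nat_lit 1⟩, ⟨true, nat_lit 512, nat_lit 1824, nat_lit 1, nat_lit 2⟩,
    ⟨false, nat_lit 8192, nat_lit 14624, nat_lit 2, nat_lit 0⟩, ⟨false, nat_lit 256, nat_lit 10016, nat_lit 2, nat_lit 0⟩, ⟨true, nat_lit 32, nat_lit 10208, nat_lit 2, nat_lit 2⟩,
    ⟨true, nat_lit 4096, nat_lit 14336, nat_lit 1, nat_lit 1⟩, ⟨false, nat_lit 32768, nat_lit 51200, nat_lit 1, nat_lit 1⟩, ⟨false, nat_lit 16384, nat_lit 51200, nat_lit 1, nat_lit 1⟩,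
    ⟨false, nat_lit 2048, nat_lit 63488, nat_lit 2, nat_lit 0⟩]

def l74_0 : List (Nat × List Wr × Nat) := [
  (nat_lit 6, r74_0_0, nat_lit 0), (nat_lit 6, r74_0_1, nat_lit 0), (nat_lit 6, r74_0_2, nat_lit 0),
  (nat_lit 6, r74_0_3, nat_lit 0), (nat_lit 6, r74_0_4, nat_lit 0), (nat_lit 6, r74_0_5, nat_lit 0)]

def r74_1_0 : List Wr := [
    ⟨true, nat_lit 1, nat_lit 1, nat_lit 0, nat_lit 2⟩, ⟨false, nat_lit 128, nat_lit 254, nat_lit 2, nat_lit 2⟩, ⟨false, nat_lit 16, nat_lit 158, nat_lit 2, nat_lit 0⟩,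
    ⟨true, nat_lit 2, nat_lit 146, nat_lit 1, nat_lit 1⟩, ⟨true, nat_lit 8, nat_lit 156, nat_lit 1, nat_lit 2⟩, ⟨false, nat_lit 1024, nat_lit 1892, nat_lit 2, nat_lit 1⟩,
    ⟨false, nat_lit 64, nat_lit 1252, nat_lit 2, nat_lit 0⟩, ⟨true, nat_lit 4, nat_lit 1244, nat_lit 2, nat_lit 1⟩, ⟨false, nat_lit 8192, nat_lit 15136, nat_lit 2, nat_lit 1⟩,
    ⟨false, nat_lit 512, nat_lit 10016, nat_lit 2, nat_lit 0⟩, ⟨true, nat_lit 32, nat_lit 9952, nat_lit 2, nat_lit 1⟩, ⟨true, nat_lit 256, nat_lit 9984, nat_lit 1, nat_lit 2⟩,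
    ⟨true, nat_lit 4096, nat_lit 14336, nat_lit 1, nat_lit 1⟩, ⟨false, nat_lit 32768, nat_lit 51200, nat_lit 1, nat_lit 1⟩, ⟨false, nat_lit 16384, nat_lit 51200, nat_lit 1, nat_lit 1⟩,
    ⟨false, nat_lit 2048, nat_lit 63488, nat_lit 2, nat_lit 0⟩]

def r74_1_1 : List Wr := [
    ⟨false, nat_lit 16, nat_lit 31, nat_lit 2, nat_lit 0⟩, ⟨false, nat_lit 2, nat_lit 19, nat_lit 1, nat_lit 1⟩, ⟨true, nat_lit 1, nat_lit 19, nat_lit 1, nat_lit 1⟩,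
    ⟨false, nat_lit 128, nat_lit 236, nat_lit 1, nat_lit 3⟩, ⟨true, nat_lit 8, nat_lit 156, nat_lit 1, nat_lit 2⟩, ⟨false, nat_lit 1024, nat_lit 1892, nat_lit 2, nat_lit 1⟩,
    ⟨false, nat_lit 64, nat_lit 1252, nat_lit 2, nat_lit 0⟩, ⟨true, nat_lit 4, nat_lit 1244, nat_lit 2, nat_lit 1⟩, ⟨false, nat_lit 8192, nat_lit 15136, nat_lit 2, nat_lit 1⟩,
    ⟨false, nat_lit 512, nat_lit 10016, nat_lit 2, nat_lit 0⟩, ⟨true, nat_lit 32, nat_lit 9952, nat_lit 2, nat_lit 1⟩, ⟨true, nat_lit 256, nat_lit 9984, nat_lit 1, nat_lit 2⟩,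
    ⟨true, nat_lit 4096, nat_lit 14336, nat_lit 1, nat_lit 1⟩, ⟨false, nat_lit 32768, nat_lit 51200, nat_lit 1, nat_lit 1⟩, ⟨false, nat_lit 16384, nat_lit 51200, nat_lit 1, nat_lit 1⟩,
    ⟨false, nat_lit 2048, nat_lit 63488, nat_lit 2, nat_lit 0⟩]

def r74_1_2 : List Wr := [
    ⟨false, nat_lit 16, nat_lit 31, nat_lit 2, nat_lit 0⟩, ⟨false, nat_lit 2, nat_lit 19, nat_lit 1, nat_lit 1⟩, ⟨true, nat_lit 1, nat_lit 19, nat_lit 1, nat_lit 1⟩,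
    ⟨true, nat_lit 8, nat_lit 28, nat_lit 1, nat_lit 1⟩, ⟨true, nat_lit 128, nat_lit 228, nat_lit 1, nat_lit 2⟩, ⟨false, nat_lit 8192, nat_lit 16228, nat_lit 3, nat_lit 1⟩,
    ⟨false, nat_lit 1024, nat_lit 10084, nat_lit 2, nat_lit 2⟩, ⟨true, nat_lit 64, nat_lit 9444, nat_lit 2, nat_lit 1⟩, ⟨false, nat_lit 512, nat_lit 10020, nat_lit 2, nat_lit 1⟩,
    ⟨true, nat_lit 32, nat_lit 9956, nat_lit 2, nat_lit 2⟩, ⟨false, nat_lit 4096, nat_lit 14596, nat_lit 2, nat_lit 0⟩, ⟨false, nat_lit 256, nat_lit 14084, nat_lit 2, nat_lit 1⟩,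
    ⟨true, nat_lit 4, nat_lit 14332, nat_lit 3, nat_lit 3⟩, ⟨false, nat_lit 32768, nat_lit 51200, nat_lit 1, nat_lit 1⟩, ⟨false, nat_lit 16384, nat_lit 51200, nat_lit 1, nat_lit 1⟩,
    ⟨false, nat_lit 2048, nat_lit 63488, nat_lit 2, nat_lit 0⟩]

def l74_1 : List (Nat × List Wr × Nat) := [
  (nat_lit 6, r74_1_0, nat_lit 0), (nat_lit 6, r74_1_1, nat_lit 0), (nat_lit 6, r74_1_2, nat_lit 0)]

def r74_2_0 : List Wr := [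
    ⟨false, nat_lit 16, nat_lit 31, nat_lit 2, nat_lit 0⟩, ⟨false, nat_lit 2, nat_lit 19, nat_lit 1, nat_lit 1⟩, ⟨true, nat_lit 1, nat_lit 19, nat_lit 1, nat_lit 1⟩,
    ⟨true, nat_lit 8, nat_lit 28, nat_lit 1, nat_lit 1⟩, ⟨true, nat_lit 128, nat_lit 228, nat_lit 1, nat_lit 2⟩, ⟨false, nat_lit 1024, nat_lit 1892, nat_lit 2, nat_lit 1⟩,
    ⟨false, nat_lit 64, nat_lit 1252, nat_lit 2, nat_lit 0⟩, ⟨true, nat_lit 4, nat_lit 1244, nat_lit 2, nat_lit 1⟩, ⟨true, nat_lit 512, nat_lit 1824, nat_lit 1, nat_lit 2⟩,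
    ⟨false, nat_lit 8192, nat_lit 14624, nat_lit 2, nat_lit 0⟩, ⟨false, nat_lit 256, nat_lit 10016, nat_lit 2, nat_lit 0⟩, ⟨true, nat_lit 32, nat_lit 10208, nat_lit 2, nat_lit 2⟩,
    ⟨true, nat_lit 4096, nat_lit 14336, nat_lit 1, nat_lit 1⟩, ⟨false, nat_lit 32768, nat_lit 51200, nat_lit 1, nat_lit 1⟩, ⟨false, nat_lit 16384, nat_lit 51200, nat_lit 1, nat_lit 1⟩,
    ⟨false, nat_lit 2048, nat_lit 63488, nat_lit 2, nat_lit 0⟩]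

def l74_2 : List (Nat × List Wr × Nat) := [
  (nat_lit 4, r74_2_0, nat_lit 0)]

def r74_3_0 : List Wr := [
    ⟨false, nat_lit 16, nat_lit 31, nat_lit 2, nat_lit 0⟩, ⟨false, nat_lit 2, nat_lit 19, nat_lit 1, nat_lit 1⟩, ⟨true, nat_lit 1, nat_lit 19, nat_lit 1, nat_lit 1⟩,
    ⟨false, nat_lit 128, nat_lit 236, nat_lit 1, nat_lit 3⟩, ⟨true, nat_lit 8, nat_lit 156, nat_lit 1, nat_lit 2⟩, ⟨false, nat_lit 1024, nat_lit 1892, nat_lit 2, nat_lit 1⟩,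
    ⟨false, nat_lit 64, nat_lit 1252, nat_lit 2, nat_lit 0⟩, ⟨true, nat_lit 4, nat_lit 1244, nat_lit 2, nat_lit 1⟩, ⟨true, nat_lit 512, nat_lit 1824, nat_lit 1, nat_lit 2⟩,
    ⟨false, nat_lit 8192, nat_lit 14624, nat_lit 2, nat_lit 0⟩, ⟨false, nat_lit 256, nat_lit 10016, nat_lit 2, nat_lit 0⟩, ⟨true, nat_lit 32, nat_lit 10208, nat_lit 2, nat_lit 2⟩,
    ⟨true, nat_lit 4096, nat_lit 14336, nat_lit 1, nat_lit 1⟩, ⟨false, nat_lit 32768, nat_lit 51200, nat_lit 1, nat_lit 1⟩, ⟨false, nat_lit 16384, nat_lit 51200, nat_lit 1, nat_lit 1⟩,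
    ⟨false, nat_lit 2048, nat_lit 63488, nat_lit 2, nat_lit 0⟩]

def l74_3 : List (Nat × List Wr × Nat) := [
  (nat_lit 5, r74_3_0, nat_lit 1)]

def r74_4_0 : List Wr := [
    ⟨false, nat_lit 16, nat_lit 31, nat_lit 2, nat_lit 0⟩, ⟨false, nat_lit 2, nat_lit 19, nat_lit 1, nat_lit 1⟩, ⟨true, nat_lit 1, nat_lit 19, nat_lit 1, nat_lit 1⟩,
    ⟨true, nat_lit 8, nat_lit 28, nat_lit 1, nat_lit 1⟩, ⟨true, nat_lit 128, nat_lit 228, nat_lit 1, nat_lit 2⟩, ⟨false, nat_lit 1024, nat_lit 1892, nat_lit 2, nat_lit 1⟩,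
    ⟨false, nat_lit 64, nat_lit 1252, nat_lit 2, nat_lit 0⟩, ⟨true, nat_lit 4, nat_lit 1244, nat_lit 2, nat_lit 1⟩, ⟨false, nat_lit 8192, nat_lit 15136, nat_lit 2, nat_lit 1⟩,
    ⟨false, nat_lit 512, nat_lit 10016, nat_lit 2, nat_lit 0⟩, ⟨true, nat_lit 32, nat_lit 9952, nat_lit 2, nat_lit 1⟩, ⟨true, nat_lit 256, nat_lit 9984, nat_lit 1, nat_lit 2⟩,
    ⟨true, nat_lit 4096, nat_lit 14336, nat_lit 1, nat_lit 1⟩, ⟨false, nat_lit 32768, nat_lit 51200, nat_lit 1, nat_lit 1⟩, ⟨false, nat_lit 16384, nat_lit 51200, nat_lit 1, nat_lit 1⟩,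
    ⟨false, nat_lit 2048, nat_lit 63488, nat_lit 2, nat_lit 0⟩]

def l74_4 : List (Nat × List Wr × Nat) := [
  (nat_lit 4, r74_4_0, nat_lit 0)]

end Pool.Agent.EC4.Run
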