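import Pool.Agent.Lib.MP_ec4eff_co.R5.Srch

/-! Generated file (project R5): results of the first lune -/

namespace Pool.Agent.EC4.Run

def r74_5_0 : List Wr := [
    ⟨false, nat_lit 16, nat_lit 31, nat_lit 2, nat_lit 0⟩, ⟨false, nat_lit 2, nat_lit 19, nat_lit 1, nat_lit 1⟩, ⟨true, nat_lit 1, nat_lit 19, nat_lit 1, nat_lit 1⟩,
    ⟨true, nat_lit 8, nat_lit 28, nat_lit 1, nat_lit 1⟩, ⟨true, nat_lit 128, nat_lit 228, nat_lit 1, nat_lit 2⟩, ⟨false, nat_lit 1024, nat_lit 1892, nat_lit 2, nat_lit 1⟩,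
    ⟨false, nat_lit 64, nat_lit 1252, nat_lit 2, nat_lit 0⟩, ⟨true, nat_lit 4, nat_lit 1244, nat_lit 2, nat_lit 1⟩, ⟨false, nat_lit 8192, nat_lit 15136, nat_lit 2, nat_lit 1⟩,
    ⟨false, nat_lit 512, nat_lit 10016, nat_lit 2, nat_lit 0⟩, ⟨true, nat_lit 32, nat_lit 9952, nat_lit 2, nat_lit 1⟩, ⟨false, nat_lit 4096, nat_lit 14592, nat_lit 1, nat_lit 2⟩,
    ⟨true, nat_lit 256, nat_lit 14080, nat_lit 1, nat_lit 3⟩, ⟨false, nat_lit 32768, nat_lit 51200, nat_lit 1, nat_lit 1⟩, ⟨false, nat_lit 16384, nat_lit 51200, nat_lit 1, nat_lit 1⟩,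
    ⟨false, nat_lit 2048, nat_lit 63488, nat_lit 2, nat_lit 0⟩]

def r74_5_1 : List Wr := [
    ⟨false, nat_lit 16, nat_lit 31, nat_lit 2, nat_lit 0⟩, ⟨false, nat_lit 2, nat_lit 19, nat_lit 1, nat_lit 1⟩, ⟨true, nat_lit 1, nat_lit 19, nat_lit 1, nat_lit 1⟩,
    ⟨false, nat_lit 128, nat_lit 236, nat_lit 1, nat_lit 3⟩, ⟨true, nat_lit 8, nat_lit 156, nat_lit 1, nat_lit 2⟩, ⟨false, nat_lit 1024, nat_lit 1892, nat_lit 2, nat_lit 1⟩,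
    ⟨false, nat_lit 64, nat_lit 1252, nat_lit 2, nat_lit 0⟩, ⟨true, nat_lit 4, nat_lit 1244, nat_lit 2, nat_lit 1⟩, ⟨false, nat_lit 8192, nat_lit 15136, nat_lit 2, nat_lit 1⟩,
    ⟨false, nat_lit 512, nat_lit 10016, nat_lit 2, nat_lit 0⟩, ⟨true, nat_lit 32, nat_lit 9952, nat_lit 2, nat_lit 1⟩, ⟨true, nat_lit 256, nat_lit 9984, nat_lit 1, nat_lit 2⟩,
    ⟨true, nat_lit 4096, nat_lit 14336, nat_lit 1, nat_lit 1⟩, ⟨false, nat_lit 32768, nat_lit 51200, nat_lit 1, nat_lit 1⟩, ⟨false, nat_lit 16384, nat_lit 51200, nat_lit 1, nat_lit 1⟩,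
    ⟨false, nat_lit 2048, nat_lit 63488, nat_lit 2, nat_lit 0⟩]

def r74_5_2 : List Wr := [
    ⟨false, nat_lit 16, nat_lit 31, nat_lit 2, nat_lit 0⟩, ⟨false, nat_lit 2, nat_lit 19, nat_lit 1, nat_lit 1⟩, ⟨true, nat_lit 1, nat_lit 19, nat_lit 1, nat_lit 1⟩,
    ⟨false, nat_lit 128, nat_lit 236, nat_lit 1, nat_lit 3⟩, ⟨true, nat_lit 8, nat_lit 156, nat_lit 1, nat_lit 2⟩, ⟨false, nat_lit 1024, nat_lit 1892, nat_lit 2, nat_lit 1⟩,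
    ⟨false, nat_lit 64, nat_lit 1252, nat_lit 2, nat_lit 0⟩, ⟨true, nat_lit 4, nat_lit 1244, nat_lit 2, nat_lit 1⟩, ⟨false, nat_lit 8192, nat_lit 15136, nat_lit 2, nat_lit 1⟩,
    ⟨false, nat_lit 512, nat_lit 10016, nat_lit 2, nat_lit 0⟩, ⟨true, nat_lit 32, nat_lit 9952, nat_lit 2, nat_lit 1⟩, ⟨false, nat_lit 4096, nat_lit 14592, nat_lit 1, nat_lit 2⟩,
    ⟨true, nat_lit 256, nat_lit 14080, nat_lit 1, nat_lit 3⟩, ⟨false, nat_lit 32768, nat_lit 51200, nat_lit 1, nat_lit 1⟩, ⟨false, nat_lit 16384, nat_lit 51200, nat_lit 1, nat_lit 1⟩,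
    ⟨false, nat_lit 2048, nat_lit 63488, nat_lit 2, nat_lit 0⟩]

def r74_5_3 : List Wr := [
    ⟨false, nat_lit 16, nat_lit 31, nat_lit 2, nat_lit 0⟩, ⟨false, nat_lit 2, nat_lit 19, nat_lit 1, nat_lit 1⟩, ⟨true, nat_lit 1, nat_lit 19, nat_lit 1, nat_lit 1⟩,
    ⟨false, nat_lit 8192, nat_lit 16364, nat_lit 3, nat_lit 3⟩, ⟨false, nat_lit 128, nat_lit 8428, nat_lit 2, nat_lit 1⟩, ⟨true, nat_lit 8, nat_lit 8348, nat_lit 2, nat_lit 0⟩,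
    ⟨false, nat_lit 1024, nat_lit 10084, nat_lit 2, nat_lit 2⟩, ⟨true, nat_lit 64, nat_lit 9444, nat_lit 2, nat_lit 1⟩, ⟨false, nat_lit 512, nat_lit 10020, nat_lit 2, nat_lit 1⟩,
    ⟨false, nat_lit 32, nat_lit 9956, nat_lit 2, nat_lit 2⟩, ⟨true, nat_lit 4, nat_lit 9980, nat_lit 3, nat_lit 1⟩, ⟨true, nat_lit 256, nat_lit 9984, nat_lit 1, nat_lit 2⟩,
    ⟨true, nat_lit 4096, nat_lit 14336, nat_lit 1, nat_lit 1⟩, ⟨false, nat_lit 32768, nat_lit 51200, nat_lit 1, nat_lit 1⟩, ⟨false, nat_lit 16384, nat_lit 51200, nat_lit 1, nat_lit 1⟩,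
    ⟨false, nat_lit 2048, nat_lit 63488, nat_lit 2, nat_lit 0⟩]

def r74_5_4 : List Wr := [
    ⟨false, nat_lit 16, nat_lit 31, nat_lit 2, nat_lit 0⟩, ⟨false, nat_lit 2, nat_lit 19, nat_lit 1, nat_lit 1⟩, ⟨true, nat_lit 1, nat_lit 19, nat_lit 1, nat_lit 1⟩,
    ⟨true, nat_lit 8, nat_lit 28, nat_lit 1, nat_lit 1⟩, ⟨true, nat_lit 128, nat_lit 228, nat_lit 1, nat_lit 2⟩, ⟨false, nat_lit 1024, nat_lit 1892, nat_lit 2, nat_lit 1⟩,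
    ⟨false, nat_lit 64, nat_lit 1252, nat_lit 2, nat_lit 0⟩, ⟨true, nat_lit 4, nat_lit 1244, nat_lit 2, nat_lit 1⟩, ⟨false, nat_lit 8192, nat_lit 15136, nat_lit 2, nat_lit 1⟩,
    ⟨false, nat_lit 512, nat_lit 10016, nat_lit 2, nat_lit 0⟩, ⟨true, nat_lit 32, nat_lit 9952, nat_lit 2, nat_lit 1⟩, ⟨false, nat_lit 4096, nat_lit 14592, nat_lit 1, nat_lit 2⟩,
    ⟨true, nat_lit 256, nat_lit 14080, nat_lit 1, nat_lit 3⟩, ⟨false, nat_lit 32768, nat_lit 51200, nat_lit 1, nat_lit 1⟩, ⟨false, nat_lit 16384, nat_lit 51200, nat_lit 1, nat_lit 1⟩,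
    ⟨false, nat_lit 2048, nat_lit 63488, nat_lit 2, nat_lit 0⟩]

def l74_5 : List (Nat × List Wr × Nat) := [
  (nat_lit 5, r74_5_0, nat_lit 1), (nat_lit 5, r74_5_1, nat_lit 1), (nat_lit 6, r74_5_2, nat_lit 2),
  (nat_lit 6, r74_5_3, nat_lit 0), (nat_lit 6, r74_5_4, nat_lit 0)]

def r74_6_0 : List Wr := [
    ⟨false, nat_lit 16, nat_lit 31, nat_lit 2, nat_lit 0⟩, ⟨false, nat_lit 2, nat_lit 19, nat_lit 1, nat_lit 1⟩, ⟨true, nat_lit 1, nat_lit 19, nat_lit 1, nat_lit 1⟩,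
    ⟨true, nat_lit 8, nat_lit 28, nat_lit 1, nat_lit 1⟩, ⟨true, nat_lit 128, nat_lit 228, nat_lit 1, nat_lit 2⟩, ⟨false, nat_lit 1024, nat_lit 1892, nat_lit 2, nat_lit 1⟩,
    ⟨false, nat_lit 64, nat_lit 1252, nat_lit 2, nat_lit 0⟩, ⟨true, nat_lit 4, nat_lit 1244, nat_lit 2, nat_lit 1⟩, ⟨false, nat_lit 8192, nat_lit 15136, nat_lit 2, nat_lit 1⟩,
    ⟨false, nat_lit 512, nat_lit 10016, nat_lit 2, nat_lit 0⟩, ⟨true, nat_lit 32, nat_lit 9952, nat_lit 2, nat_lit 1⟩, ⟨true, nat_lit 4096, nat_lit 14592, nat_lit 1, nat_lit 2⟩,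
    ⟨false, nat_lit 16384, nat_lit 18688, nat_lit 1, nat_lit 1⟩, ⟨false, nat_lit 2048, nat_lit 30976, nat_lit 2, nat_lit 0⟩, ⟨true, nat_lit 256, nat_lit 32512, nat_lit 2, nat_lit 2⟩,
    ⟨false, nat_lit 32768, nat_lit 32768, nat_lit 0, nat_lit 2⟩]

def r74_6_1 : List Wr := [
    ⟨false, nat_lit 16, nat_lit 31, nat_lit 2, nat_lit 0⟩, ⟨false, nat_lit 2, nat_lit 19, nat_lit 1, nat_lit 1⟩, ⟨true, nat_lit 1, nat_lit 19, nat_lit 1, nat_lit 1⟩,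
    ⟨false, nat_lit 32768, nat_lit 65516, nat_lit 4, nat_lit 2⟩, ⟨false, nat_lit 128, nat_lit 33004, nat_lit 2, nat_lit 1⟩, ⟨true, nat_lit 8, nat_lit 32924, nat_lit 2, nat_lit 0⟩,
    ⟨true, nat_lit 1024, nat_lit 34660, nat_lit 2, nat_lit 2⟩, ⟨false, nat_lit 16384, nat_lit 64356, nat_lit 3, nat_lit 2⟩, ⟨false, nat_lit 8192, nat_lit 64356, nat_lit 3, nat_lit 2⟩,
    ⟨true, nat_lit 64, nat_lit 58596, nat_lit 3, nat_lit 0⟩, ⟨false, nat_lit 4096, nat_lit 64292, nat_lit 2, nat_lit 4⟩, ⟨true, nat_lit 512, nat_lit 63268, nat_lit 3, nat_lit 1⟩,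
    ⟨false, nat_lit 2048, nat_lit 63780, nat_lit 3, nat_lit 0⟩, ⟨false, nat_lit 32, nat_lit 65252, nat_lit 3, nat_lit 3⟩, ⟨true, nat_lit 4, nat_lit 65276, nat_lit 4, nat_lit 2⟩,
    ⟨false, nat_lit 256, nat_lit 65280, nat_lit 2, nat_lit 3⟩]

def l74_6 : List (Nat × List Wr × Nat) := [
  (nat_lit 6, r74_6_0, nat_lit 0), (nat_lit 6, r74_6_1, nat_lit 0)]

def r74_7_0 : List Wr := [
    ⟨false, nat_lit 16, nat_lit 31, nat_lit 2, nat_lit 0⟩, ⟨false, nat_lit 2, nat_lit 19, nat_lit 1, nat_lit 1⟩, ⟨true, nat_lit 1, nat_lit 19, nat_lit 1, nat_lit 1⟩,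
    ⟨true, nat_lit 8, nat_lit 28, nat_lit 1, nat_lit 1⟩, ⟨true, nat_lit 128, nat_lit 228, nat_lit 1, nat_lit 2⟩, ⟨false, nat_lit 1024, nat_lit 1892, nat_lit 2, nat_lit 1⟩,
    ⟨false, nat_lit 64, nat_lit 1252, nat_lit 2, nat_lit 0⟩, ⟨true, nat_lit 4, nat_lit 1244, nat_lit 2, nat_lit 1⟩, ⟨false, nat_lit 8192, nat_lit 15136, nat_lit 2, nat_lit 1⟩,
    ⟨false, nat_lit 512, nat_lit 10016, nat_lit 2, nat_lit 0⟩, ⟨true, nat_lit 32, nat_lit 9952, nat_lit 2, nat_lit 1⟩, ⟨false, nat_lit 16384, nat_lit 22784, nat_lit 1, nat_lit 2⟩,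
    ⟨false, nat_lit 4096, nat_lit 30976, nat_lit 2, nat_lit 0⟩, ⟨true, nat_lit 256, nat_lit 30464, nat_lit 2, nat_lit 1⟩, ⟨true, nat_lit 2048, nat_lit 30720, nat_lit 1, nat_lit 2⟩,
    ⟨false, nat_lit 32768, nat_lit 32768, nat_lit 0, nat_lit 2⟩]

def l74_7 : List (Nat × List Wr × Nat) := [
  (nat_lit 6, r74_7_0, nat_lit 0)]

def r74_8_0 : List Wr := [
    ⟨false, nat_lit 16, nat_lit 31, nat_lit 2, nat_lit 0⟩, ⟨false, nat_lit 2, nat_lit 19, nat_lit 1, nat_lit 1⟩, ⟨true, nat_lit 1, nat_lit 19, nat_lit 1, nat_lit 1⟩,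
    ⟨true, nat_lit 8, nat_lit 28, nat_lit 1, nat_lit 1⟩, ⟨false, nat_lit 1024, nat_lit 2020, nat_lit 2, nat_lit 2⟩, ⟨false, nat_lit 128, nat_lit 1252, nat_lit 2, nat_lit 0⟩,
    ⟨true, nat_lit 4, nat_lit 1180, nat_lit 2, nat_lit 0⟩, ⟨true, nat_lit 64, nat_lit 1248, nat_lit 1, nat_lit 2⟩, ⟨true, nat_lit 512, nat_lit 1824, nat_lit 1, nat_lit 2⟩,
    ⟨false, nat_lit 8192, nat_lit 14624, nat_lit 2, nat_lit 0⟩, ⟨false, nat_lit 256, nat_lit 10016, nat_lit 2, nat_lit 0⟩, ⟨true, nat_lit 32, nat_lit 10208, nat_lit 2, nat_lit 2⟩,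
    ⟨true, nat_lit 4096, nat_lit 14336, nat_lit 1, nat_lit 1⟩, ⟨false, nat_lit 32768, nat_lit 51200, nat_lit 1, nat_lit 1⟩, ⟨false, nat_lit 16384, nat_lit 51200, nat_lit 1, nat_lit 1⟩,
    ⟨false, nat_lit 2048, nat_lit 63488, nat_lit 2, nat_lit 0⟩]

def l74_8 : List (Nat × List Wr × Nat) := [
  (nat_lit 4, r74_8_0, nat_lit 0)]

def r74_9_0 : List Wr := [
    ⟨false, nat_lit 16, nat_lit 31, nat_lit 2, nat_lit 0⟩, ⟨false, nat_lit 2, nat_lit 19, nat_lit 1, nat_lit 1⟩, ⟨true, nat_lit 1, nat_lit 19, nat_lit 1, nat_lit 1⟩,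
    ⟨true, nat_lit 8, nat_lit 28, nat_lit 1, nat_lit 1⟩, ⟨false, nat_lit 1024, nat_lit 2020, nat_lit 2, nat_lit 2⟩, ⟨false, nat_lit 128, nat_lit 1252, nat_lit 2, nat_lit 0⟩,
    ⟨true, nat_lit 4, nat_lit 1180, nat_lit 2, nat_lit 0⟩, ⟨false, nat_lit 512, nat_lit 1888, nat_lit 1, nat_lit 3⟩, ⟨true, nat_lit 64, nat_lit 1760, nat_lit 1, nat_lit 3⟩,
    ⟨false, nat_lit 8192, nat_lit 14624, nat_lit 2, nat_lit 0⟩, ⟨false, nat_lit 256, nat_lit 10016, nat_lit 2, nat_lit 0⟩, ⟨true, nat_lit 32, nat_lit 10208, nat_lit 2, nat_lit 2⟩,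
    ⟨true, nat_lit 4096, nat_lit 14336, nat_lit 1, nat_lit 1⟩, ⟨false, nat_lit 32768, nat_lit 51200, nat_lit 1, nat_lit 1⟩, ⟨false, nat_lit 16384, nat_lit 51200, nat_lit 1, nat_lit 1⟩,
    ⟨false, nat_lit 2048, nat_lit 63488, nat_lit 2, nat_lit 0⟩]

def r74_9_1 : List Wr := [
    ⟨false, nat_lit 16, nat_lit 31, nat_lit 2, nat_lit 0⟩, ⟨false, nat_lit 2, nat_lit 19, nat_lit 1, nat_lit 1⟩, ⟨true, nat_lit 1, nat_lit 19, nat_lit 1, nat_lit 1⟩,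
    ⟨true, nat_lit 8, nat_lit 28, nat_lit 1, nat_lit 1⟩, ⟨false, nat_lit 1024, nat_lit 2020, nat_lit 2, nat_lit 2⟩, ⟨false, nat_lit 128, nat_lit 1252, nat_lit 2, nat_lit 0⟩,
    ⟨true, nat_lit 4, nat_lit 1180, nat_lit 2, nat_lit 0⟩, ⟨false, nat_lit 512, nat_lit 1888, nat_lit 1, nat_lit 3⟩, ⟨true, nat_lit 64, nat_lit 1760, nat_lit 1, nat_lit 3⟩,
    ⟨false, nat_lit 8192, nat_lit 14624, nat_lit 2, nat_lit 0⟩, ⟨false, nat_lit 256, nat_lit 10016, nat_lit 2, nat_lit 0⟩, ⟨true, nat_lit 32, nat_lit 10208, nat_lit 2, nat_lit 2⟩,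
    ⟨true, nat_lit 4096, nat_lit 14336, nat_lit 1, nat_lit 1⟩, ⟨false, nat_lit 32768, nat_lit 51200, nat_lit 1, nat_lit 1⟩, ⟨false, nat_lit 16384, nat_lit 51200, nat_lit 1, nat_lit 1⟩,
    ⟨false, nat_lit 2048, nat_lit 63488, nat_lit 2, nat_lit 0⟩]

def l74_9 : List (Nat × List Wr × Nat) := [
  (nat_lit 5, r74_9_0, nat_lit 1), (nat_lit 6, r74_9_1, nat_lit 0)]

def r74_10_0 : List Wr := [
    ⟨false, nat_lit 16, nat_lit 31, nat_lit 2, nat_lit 0⟩, ⟨false, nat_lit 2, nat_lit 19, nat_lit 1, nat_lit 1⟩, ⟨true, nat_lit 1, nat_lit 19, nat_lit 1, nat_lit 1⟩,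
    ⟨true, nat_lit 8, nat_lit 28, nat_lit 1, nat_lit 1⟩, ⟨false, nat_lit 1024, nat_lit 2020, nat_lit 2, nat_lit 2⟩, ⟨false, nat_lit 128, nat_lit 1252, nat_lit 2, nat_lit 0⟩,
    ⟨true, nat_lit 4, nat_lit 1180, nat_lit 2, nat_lit 0⟩, ⟨true, nat_lit 64, nat_lit 1248, nat_lit 1, nat_lit 2⟩, ⟨false, nat_lit 8192, nat_lit 15136, nat_lit 2, nat_lit 1⟩,
    ⟨false, nat_lit 512, nat_lit 10016, nat_lit 2, nat_lit 0⟩, ⟨true, nat_lit 32, nat_lit 9952, nat_lit 2, nat_lit 1⟩, ⟨true, nat_lit 256, nat_lit 9984, nat_lit 1, nat_lit 2⟩,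
    ⟨true, nat_lit 4096, nat_lit 14336, nat_lit 1, nat_lit 1⟩, ⟨false, nat_lit 32768, nat_lit 51200, nat_lit 1, nat_lit 1⟩, ⟨false, nat_lit 16384, nat_lit 51200, nat_lit 1, nat_lit 1⟩,
    ⟨false, nat_lit 2048, nat_lit 63488, nat_lit 2, nat_lit 0⟩]

def l74_10 : List (Nat × List Wr × Nat) := [
  (nat_lit 4, r74_10_0, nat_lit 0)]

def r74_11_0 : List Wr := [
    ⟨false, nat_lit 16, nat_lit 31, nat_lit 2, nat_lit 0⟩, ⟨false, nat_lit 2, nat_lit 19, nat_lit 1, nat_lit 1⟩, ⟨true, nat_lit 1, nat_lit 19, nat_lit 1, nat_lit 1⟩,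
    ⟨true, nat_lit 8, nat_lit 28, nat_lit 1, nat_lit 1⟩, ⟨false, nat_lit 1024, nat_lit 2020, nat_lit 2, nat_lit 2⟩, ⟨false, nat_lit 128, nat_lit 1252, nat_lit 2, nat_lit 0⟩,
    ⟨true, nat_lit 4, nat_lit 1180, nat_lit 2, nat_lit 0⟩, ⟨true, nat_lit 64, nat_lit 1248, nat_lit 1, nat_lit 2⟩, ⟨false, nat_lit 8192, nat_lit 15136, nat_lit 2, nat_lit 1⟩,
    ⟨false, nat_lit 512, nat_lit 10016, nat_lit 2, nat_lit 0⟩, ⟨true, nat_lit 32, nat_lit 9952, nat_lit 2, nat_lit 1⟩, ⟨false, nat_lit 4096, nat_lit 14592, nat_lit 1, nat_lit 2⟩,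
    ⟨true, nat_lit 256, nat_lit 14080, nat_lit 1, nat_lit 3⟩, ⟨false, nat_lit 32768, nat_lit 51200, nat_lit 1, nat_lit 1⟩, ⟨false, nat_lit 16384, nat_lit 51200, nat_lit 1, nat_lit 1⟩,
    ⟨false, nat_lit 2048, nat_lit 63488, nat_lit 2, nat_lit 0⟩]

def r74_11_1 : List Wr := [
    ⟨false, nat_lit 16, nat_lit 31, nat_lit 2, nat_lit 0⟩, ⟨false, nat_lit 2, nat_lit 19, nat_lit 1, nat_lit 1⟩, ⟨true, nat_lit 1, nat_lit 19, nat_lit 1, nat_lit 1⟩,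
    ⟨true, nat_lit 8, nat_lit 28, nat_lit 1, nat_lit 1⟩, ⟨false, nat_lit 1024, nat_lit 2020, nat_lit 2, nat_lit 2⟩, ⟨false, nat_lit 128, nat_lit 1252, nat_lit 2, nat_lit 0⟩,
    ⟨true, nat_lit 4, nat_lit 1180, nat_lit 2, nat_lit 0⟩, ⟨true, nat_lit 64, nat_lit 1248, nat_lit 1, nat_lit 2⟩, ⟨false, nat_lit 8192, nat_lit 15136, nat_lit 2, nat_lit 1⟩,
    ⟨false, nat_lit 512, nat_lit 10016, nat_lit 2, nat_lit 0⟩, ⟨true, nat_lit 32, nat_lit 9952, nat_lit 2, nat_lit 1⟩, ⟨false, nat_lit 4096, nat_lit 14592, nat_lit 1, nat_lit 2⟩,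
    ⟨true, nat_lit 256, nat_lit 14080, nat_lit 1, nat_lit 3⟩, ⟨false, nat_lit 32768, nat_lit 51200, nat_lit 1, nat_lit 1⟩, ⟨false, nat_lit 16384, nat_lit 51200, nat_lit 1, nat_lit 1⟩,
    ⟨false, nat_lit 2048, nat_lit 63488, nat_lit 2, nat_lit 0⟩]

def r74_11_2 : List Wr := [
    ⟨false, nat_lit 16, nat_lit 31, nat_lit 2, nat_lit 0⟩, ⟨false, nat_lit 2, nat_lit 19, nat_lit 1, nat_lit 1⟩, ⟨true, nat_lit 1, nat_lit 19, nat_lit 1, nat_lit 1⟩,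
    ⟨true, nat_lit 8, nat_lit 28, nat_lit 1, nat_lit 1⟩, ⟨false, nat_lit 1024, nat_lit 2020, nat_lit 2, nat_lit 2⟩, ⟨false, nat_lit 128, nat_lit 1252, nat_lit 2, nat_lit 0⟩,
    ⟨true, nat_lit 4, nat_lit 1180, nat_lit 2, nat_lit 0⟩, ⟨true, nat_lit 64, nat_lit 1248, nat_lit 1, nat_lit 2⟩, ⟨false, nat_lit 8192, nat_lit 15136, nat_lit 2, nat_lit 1⟩,
    ⟨false, nat_lit 512, nat_lit 10016, nat_lit 2, nat_lit 0⟩, ⟨true, nat_lit 32, nat_lit 9952, nat_lit 2, nat_lit 1⟩, ⟨true, nat_lit 4096, nat_lit 14592, nat_lit 1, nat_lit 2⟩,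
    ⟨false, nat_lit 16384, nat_lit 18688, nat_lit 1, nat_lit 1⟩, ⟨false, nat_lit 2048, nat_lit 30976, nat_lit 2, nat_lit 0⟩, ⟨true, nat_lit 256, nat_lit 32512, nat_lit 2, nat_lit 2⟩,
    ⟨false, nat_lit 32768, nat_lit 32768, nat_lit 0, nat_lit 2⟩]

def r74_11_3 : List Wr := [
    ⟨false, nat_lit 16, nat_lit 31, nat_lit 2, nat_lit 0⟩, ⟨false, nat_lit 2, nat_lit 19, nat_lit 1, nat_lit 1⟩, ⟨true, nat_lit 1, nat_lit 19, nat_lit 1, nat_lit 1⟩,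
    ⟨true, nat_lit 8, nat_lit 28, nat_lit 1, nat_lit 1⟩, ⟨false, nat_lit 1024, nat_lit 2020, nat_lit 2, nat_lit 2⟩, ⟨false, nat_lit 128, nat_lit 1252, nat_lit 2, nat_lit 0⟩,
    ⟨true, nat_lit 4, nat_lit 1180, nat_lit 2, nat_lit 0⟩, ⟨true, nat_lit 64, nat_lit 1248, nat_lit 1, nat_lit 2⟩, ⟨false, nat_lit 8192, nat_lit 15136, nat_lit 2, nat_lit 1⟩,
    ⟨false, nat_lit 512, nat_lit 10016, nat_lit 2, nat_lit 0⟩, ⟨true, nat_lit 32, nat_lit 9952, nat_lit 2, nat_lit 1⟩, ⟨false, nat_lit 16384, nat_lit 22784, nat_lit 1, nat_lit 2⟩,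
    ⟨false, nat_lit 4096, nat_lit 30976, nat_lit 2, nat_lit 0⟩, ⟨true, nat_lit 256, nat_lit 30464, nat_lit 2, nat_lit 1⟩, ⟨true, nat_lit 2048, nat_lit 30720, nat_lit 1, nat_lit 2⟩,
    ⟨false, nat_lit 32768, nat_lit 32768, nat_lit 0, nat_lit 2⟩]

def r74_11_4 : List Wr := [
    ⟨false, nat_lit 16, nat_lit 31, nat_lit 2, nat_lit 0⟩, ⟨false, nat_lit 2, nat_lit 19, nat_lit 1, nat_lit 1⟩, ⟨true, nat_lit 1, nat_lit 19, nat_lit 1, nat_lit 1⟩,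
    ⟨true, nat_lit 8, nat_lit 28, nat_lit 1, nat_lit 1⟩, ⟨false, nat_lit 32768, nat_lit 65508, nat_lit 3, nat_lit 4⟩, ⟨false, nat_lit 128, nat_lit 32996, nat_lit 2, nat_lit 0⟩,
    ⟨true, nat_lit 4, nat_lit 32924, nat_lit 2, nat_lit 0⟩, ⟨false, nat_lit 8192, nat_lit 48992, nat_lit 3, nat_lit 1⟩, ⟨false, nat_lit 1024, nat_lit 42848, nat_lit 2, nat_lit 2⟩,
    ⟨true, nat_lit 64, nat_lit 42208, nat_lit 2, nat_lit 1⟩, ⟨true, nat_lit 512, nat_lit 42784, nat_lit 2, nat_lit 1⟩, ⟨false, nat_lit 16384, nat_lit 55584, nat_lit 2, nat_lit 1⟩,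
    ⟨false, nat_lit 4096, nat_lit 63776, nat_lit 2, nat_lit 2⟩, ⟨true, nat_lit 32, nat_lit 63200, nat_lit 3, nat_lit 1⟩, ⟨false, nat_lit 2048, nat_lit 63744, nat_lit 2, nat_lit 1⟩,
    ⟨false, nat_lit 256, nat_lit 65280, nat_lit 2, nat_lit 3⟩]

def l74_11 : List (Nat × List Wr × Nat) := [
  (nat_lit 5, r74_11_0, nat_lit 1), (nat_lit 6, r74_11_1, nat_lit 0), (nat_lit 6, r74_11_2, nat_lit 0),
  (nat_lit 6, r74_11_3, nat_lit 0), (nat_lit 6, r74_11_4, nat_lit 0)]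

end Pool.Agent.EC4.Run
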