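import Pool.Agent.Lib.MP_ec4eff_co.R5.Dec
import Pool.Agent.Lib.MP_ec4eff_co.R5.Run.D42
import Pool.Agent.Lib.MP_ec4eff_co.R5.Run.D43

/-! Generated file (project R5): the first lune -/

namespace Pool.Agent.EC4.Run

theorem a76 : runA (l76_0 ++ (l76_1 ++ (l76_2 ++ (l76_3 ++ (l76_4))))) [1, 1, 0, 0, 0, 1, 0, 1] = false := by decide +kernel

theorem a74 : runA (l74_0 ++ (l74_1 ++ (l74_2 ++ (l74_3 ++ (l74_4 ++ (l74_5 ++ (l74_6 ++ (l74_7 ++ (l74_8 ++ (l74_9 ++ (l74_10 ++ (l74_11)))))))))))) [1, 1, 0, 0, 0, 0, 1, 1] = false := by decide +kernel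

end Pool.Agent.EC4.Run
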