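import Pool.Agent.Lib.MP_ec4eff_co.R5.Srch

/-! Generated file (project R5): results of the first lune -/

namespace Pool.Agent.EC4.Run

def r66_0_0 : List Wr := [
    ⟨true, nat_lit 8, nat_lit 15, nat_lit 1, nat_lit 2⟩, ⟨false, nat_lit 16, nat_lit 23, nat_lit 1, nat_lit 2⟩, ⟨false, nat_lit 4, nat_lit 31, nat_lit 2, nat_lit 0⟩,
    ⟨true, nat_lit 1, nat_lit 29, nat_lit 1, nat_lit 2⟩, ⟨false, nat_lit 256, nat_lit 482, nat_lit 2, nat_lit 0⟩, ⟨false, nat_lit 32, nat_lit 290, nat_lit 1, nat_lit 1⟩,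
    ⟨true, nat_lit 2, nat_lit 318, nat_lit 2, nat_lit 1⟩, ⟨false, nat_lit 32768, nat_lit 65216, nat_lit 3, nat_lit 1⟩, ⟨false, nat_lit 4096, nat_lit 40640, nat_lit 2, nat_lit 2⟩,
    ⟨true, nat_lit 128, nat_lit 37312, nat_lit 2, nat_lit 0⟩, ⟨false, nat_lit 2048, nat_lit 40512, nat_lit 2, nat_lit 1⟩, ⟨true, nat_lit 512, nat_lit 39488, nat_lit 1, nat_lit 3⟩,
    ⟨false, nat_lit 16384, nat_lit 58432, nat_lit 2, nat_lit 0⟩, ⟨false, nat_lit 1024, nat_lit 56384, nat_lit 2, nat_lit 1⟩, ⟨true, nat_lit 64, nat_lit 57280, nat_lit 3, nat_lit 1⟩,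
    ⟨false, nat_lit 8192, nat_lit 57344, nat_lit 1, nat_lit 1⟩]

def r66_0_1 : List Wr := [
    ⟨true, nat_lit 8, nat_lit 15, nat_lit 1, nat_lit 2⟩, ⟨false, nat_lit 256, nat_lit 503, nat_lit 3, nat_lit 0⟩, ⟨false, nat_lit 4, nat_lit 271, nat_lit 2, nat_lit 0⟩,
    ⟨true, nat_lit 1, nat_lit 269, nat_lit 1, nat_lit 2⟩, ⟨false, nat_lit 4096, nat_lit 7922, nat_lit 3, nat_lit 1⟩, ⟨false, nat_lit 128, nat_lit 4594, nat_lit 2, nat_lit 2⟩,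
    ⟨true, nat_lit 32, nat_lit 4530, nat_lit 2, nat_lit 1⟩, ⟨true, nat_lit 512, nat_lit 4690, nat_lit 1, nat_lit 3⟩, ⟨false, nat_lit 2048, nat_lit 7250, nat_lit 2, nat_lit 1⟩,
    ⟨false, nat_lit 64, nat_lit 7122, nat_lit 3, nat_lit 0⟩, ⟨true, nat_lit 16, nat_lit 7154, nat_lit 2, nat_lit 4⟩, ⟨false, nat_lit 32768, nat_lit 58370, nat_lit 2, nat_lit 0⟩,
    ⟨false, nat_lit 1024, nat_lit 39938, nat_lit 2, nat_lit 0⟩, ⟨true, nat_lit 2, nat_lit 40958, nat_lit 4, nat_lit 2⟩, ⟨false, nat_lit 16384, nat_lit 57344, nat_lit 1, nat_lit 1⟩,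
    ⟨false, nat_lit 8192, nat_lit 57344, nat_lit 1, nat_lit 1⟩]

def r66_0_2 : List Wr := [
    ⟨true, nat_lit 8, nat_lit 15, nat_lit 1, nat_lit 2⟩, ⟨false, nat_lit 256, nat_lit 503, nat_lit 3, nat_lit 0⟩, ⟨false, nat_lit 4, nat_lit 271, nat_lit 2, nat_lit 0⟩,
    ⟨true, nat_lit 1, nat_lit 269, nat_lit 1, nat_lit 2⟩, ⟨false, nat_lit 4096, nat_lit 7922, nat_lit 3, nat_lit 1⟩, ⟨false, nat_lit 128, nat_lit 4594, nat_lit 2, nat_lit 2⟩,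
    ⟨true, nat_lit 32, nat_lit 4530, nat_lit 2, nat_lit 1⟩, ⟨false, nat_lit 2048, nat_lit 7762, nat_lit 2, nat_lit 2⟩, ⟨false, nat_lit 512, nat_lit 6738, nat_lit 2, nat_lit 1⟩,
    ⟨true, nat_lit 16, nat_lit 7090, nat_lit 2, nat_lit 3⟩, ⟨true, nat_lit 64, nat_lit 7106, nat_lit 2, nat_lit 2⟩, ⟨false, nat_lit 32768, nat_lit 58370, nat_lit 2, nat_lit 0⟩,
    ⟨false, nat_lit 1024, nat_lit 39938, nat_lit 2, nat_lit 0⟩, ⟨true, nat_lit 2, nat_lit 40958, nat_lit 4, nat_lit 2⟩, ⟨false, nat_lit 16384, nat_lit 57344, nat_lit 1, nat_lit 1⟩,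
    ⟨false, nat_lit 8192, nat_lit 57344, nat_lit 1, nat_lit 1⟩]

def r66_0_3 : List Wr := [
    ⟨true, nat_lit 8, nat_lit 15, nat_lit 1, nat_lit 2⟩, ⟨false, nat_lit 256, nat_lit 503, nat_lit 3, nat_lit 0⟩, ⟨false, nat_lit 4, nat_lit 271, nat_lit 2, nat_lit 0⟩,
    ⟨true, nat_lit 1, nat_lit 269, nat_lit 1, nat_lit 2⟩, ⟨true, nat_lit 32, nat_lit 306, nat_lit 1, nat_lit 2⟩, ⟨false, nat_lit 4096, nat_lit 7890, nat_lit 3, nat_lit 0⟩,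
    ⟨false, nat_lit 128, nat_lit 4562, nat_lit 2, nat_lit 1⟩, ⟨true, nat_lit 16, nat_lit 4530, nat_lit 2, nat_lit 1⟩, ⟨true, nat_lit 512, nat_lit 4674, nat_lit 1, nat_lit 2⟩,
    ⟨false, nat_lit 32768, nat_lit 60482, nat_lit 2, nat_lit 2⟩, ⟨false, nat_lit 2048, nat_lit 40002, nat_lit 2, nat_lit 1⟩, ⟨true, nat_lit 64, nat_lit 39874, nat_lit 3, nat_lit 0⟩,
    ⟨false, nat_lit 16384, nat_lit 58370, nat_lit 2, nat_lit 0⟩, ⟨false, nat_lit 1024, nat_lit 56322, nat_lit 2, nat_lit 1⟩, ⟨true, nat_lit 2, nat_lit 57342, nat_lit 4, nat_lit 3⟩,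
    ⟨false, nat_lit 8192, nat_lit 57344, nat_lit 1, nat_lit 1⟩]

def r66_0_4 : List Wr := [
    ⟨true, nat_lit 8, nat_lit 15, nat_lit 1, nat_lit 2⟩, ⟨false, nat_lit 256, nat_lit 503, nat_lit 3, nat_lit 0⟩, ⟨false, nat_lit 4, nat_lit 271, nat_lit 2, nat_lit 0⟩,
    ⟨true, nat_lit 1, nat_lit 269, nat_lit 1, nat_lit 2⟩, ⟨false, nat_lit 32, nat_lit 306, nat_lit 1, nat_lit 2⟩, ⟨true, nat_lit 16, nat_lit 306, nat_lit 1, nat_lit 2⟩,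
    ⟨false, nat_lit 32768, nat_lit 65218, nat_lit 3, nat_lit 2⟩, ⟨false, nat_lit 128, nat_lit 33218, nat_lit 2, nat_lit 0⟩, ⟨true, nat_lit 2, nat_lit 33214, nat_lit 3, nat_lit 0⟩,
    ⟨true, nat_lit 4096, nat_lit 40512, nat_lit 2, nat_lit 1⟩, ⟨false, nat_lit 16384, nat_lit 60992, nat_lit 2, nat_lit 2⟩, ⟨false, nat_lit 2048, nat_lit 56896, nat_lit 2, nat_lit 2⟩,
    ⟨true, nat_lit 512, nat_lit 55872, nat_lit 2, nat_lit 1⟩, ⟨false, nat_lit 8192, nat_lit 58432, nat_lit 2, nat_lit 0⟩, ⟨false, nat_lit 1024, nat_lit 64576, nat_lit 2, nat_lit 2⟩,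
    ⟨false, nat_lit 64, nat_lit 65472, nat_lit 3, nat_lit 2⟩]

def r66_0_5 : List Wr := [
    ⟨false, nat_lit 16, nat_lit 31, nat_lit 1, nat_lit 3⟩, ⟨false, nat_lit 8, nat_lit 31, nat_lit 2, nat_lit 0⟩, ⟨true, nat_lit 1, nat_lit 25, nat_lit 1, nat_lit 1⟩,
    ⟨true, nat_lit 4, nat_lit 30, nat_lit 1, nat_lit 2⟩, ⟨false, nat_lit 256, nat_lit 482, nat_lit 2, nat_lit 0⟩, ⟨false, nat_lit 32, nat_lit 290, nat_lit 1, nat_lit 1⟩,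
    ⟨true, nat_lit 2, nat_lit 318, nat_lit 2, nat_lit 1⟩, ⟨false, nat_lit 32768, nat_lit 65216, nat_lit 3, nat_lit 1⟩, ⟨false, nat_lit 4096, nat_lit 40640, nat_lit 2, nat_lit 2⟩,
    ⟨true, nat_lit 128, nat_lit 37312, nat_lit 2, nat_lit 0⟩, ⟨false, nat_lit 2048, nat_lit 40512, nat_lit 2, nat_lit 1⟩, ⟨true, nat_lit 512, nat_lit 39488, nat_lit 1, nat_lit 3⟩,
    ⟨false, nat_lit 16384, nat_lit 58432, nat_lit 2, nat_lit 0⟩, ⟨false, nat_lit 1024, nat_lit 56384, nat_lit 2, nat_lit 1⟩, ⟨true, nat_lit 64, nat_lit 57280, nat_lit 3, nat_lit 1⟩,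
    ⟨false, nat_lit 8192, nat_lit 57344, nat_lit 1, nat_lit 1⟩]

def r66_0_6 : List Wr := [
    ⟨false, nat_lit 4096, nat_lit 8191, nat_lit 4, nat_lit 2⟩, ⟨false, nat_lit 256, nat_lit 4607, nat_lit 3, nat_lit 2⟩, ⟨false, nat_lit 128, nat_lit 4607, nat_lit 3, nat_lit 2⟩,
    ⟨false, nat_lit 32, nat_lit 4543, nat_lit 2, nat_lit 4⟩, ⟨true, nat_lit 8, nat_lit 4527, nat_lit 3, nat_lit 0⟩, ⟨false, nat_lit 512, nat_lit 4695, nat_lit 2, nat_lit 2⟩,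
    ⟨false, nat_lit 16, nat_lit 5047, nat_lit 3, nat_lit 1⟩, ⟨true, nat_lit 1, nat_lit 5049, nat_lit 2, nat_lit 3⟩, ⟨false, nat_lit 2048, nat_lit 7238, nat_lit 2, nat_lit 1⟩,
    ⟨false, nat_lit 64, nat_lit 7110, nat_lit 3, nat_lit 0⟩, ⟨true, nat_lit 4, nat_lit 7166, nat_lit 3, nat_lit 3⟩, ⟨false, nat_lit 32768, nat_lit 58370, nat_lit 2, nat_lit 0⟩,
    ⟨false, nat_lit 1024, nat_lit 39938, nat_lit 2, nat_lit 0⟩, ⟨true, nat_lit 2, nat_lit 40958, nat_lit 4, nat_lit 2⟩, ⟨false, nat_lit 16384, nat_lit 57344, nat_lit 1, nat_lit 1⟩,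
    ⟨false, nat_lit 8192, nat_lit 57344, nat_lit 1, nat_lit 1⟩]

def r66_0_7 : List Wr := [
    ⟨true, nat_lit 1, nat_lit 1, nat_lit 0, nat_lit 2⟩, ⟨false, nat_lit 4096, nat_lit 8190, nat_lit 4, nat_lit 1⟩, ⟨false, nat_lit 256, nat_lit 4606, nat_lit 3, nat_lit 1⟩,
    ⟨true, nat_lit 8, nat_lit 4366, nat_lit 2, nat_lit 0⟩, ⟨false, nat_lit 512, nat_lit 4854, nat_lit 2, nat_lit 3⟩, ⟨false, nat_lit 128, nat_lit 5110, nat_lit 3, nat_lit 1⟩,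
    ⟨false, nat_lit 32, nat_lit 5046, nat_lit 2, nat_lit 3⟩, ⟨true, nat_lit 16, nat_lit 5046, nat_lit 2, nat_lit 3⟩, ⟨false, nat_lit 2048, nat_lit 7238, nat_lit 2, nat_lit 1⟩,
    ⟨false, nat_lit 64, nat_lit 7110, nat_lit 3, nat_lit 0⟩, ⟨true, nat_lit 4, nat_lit 7166, nat_lit 3, nat_lit 3⟩, ⟨false, nat_lit 32768, nat_lit 58370, nat_lit 2, nat_lit 0⟩,
    ⟨false, nat_lit 1024, nat_lit 39938, nat_lit 2, nat_lit 0⟩, ⟨true, nat_lit 2, nat_lit 40958, nat_lit 4, nat_lit 2⟩, ⟨false, nat_lit 16384, nat_lit 57344, nat_lit 1, nat_lit 1⟩,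
    ⟨false, nat_lit 8192, nat_lit 57344, nat_lit 1, nat_lit 1⟩]

def r66_0_8 : List Wr := [
    ⟨false, nat_lit 256, nat_lit 511, nat_lit 3, nat_lit 1⟩, ⟨false, nat_lit 8, nat_lit 271, nat_lit 2, nat_lit 0⟩, ⟨true, nat_lit 1, nat_lit 265, nat_lit 1, nat_lit 1⟩,
    ⟨false, nat_lit 4096, nat_lit 7926, nat_lit 3, nat_lit 2⟩, ⟨false, nat_lit 512, nat_lit 4854, nat_lit 2, nat_lit 3⟩, ⟨false, nat_lit 128, nat_lit 5110, nat_lit 3, nat_lit 1⟩,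
    ⟨false, nat_lit 32, nat_lit 5046, nat_lit 2, nat_lit 3⟩, ⟨true, nat_lit 16, nat_lit 5046, nat_lit 2, nat_lit 3⟩, ⟨false, nat_lit 2048, nat_lit 7238, nat_lit 2, nat_lit 1⟩,
    ⟨false, nat_lit 64, nat_lit 7110, nat_lit 3, nat_lit 0⟩, ⟨true, nat_lit 4, nat_lit 7166, nat_lit 3, nat_lit 3⟩, ⟨false, nat_lit 32768, nat_lit 58370, nat_lit 2, nat_lit 0⟩,
    ⟨false, nat_lit 1024, nat_lit 39938, nat_lit 2, nat_lit 0⟩, ⟨true, nat_lit 2, nat_lit 40958, nat_lit 4, nat_lit 2⟩, ⟨false, nat_lit 16384, nat_lit 57344, nat_lit 1, nat_lit 1⟩,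
    ⟨false, nat_lit 8192, nat_lit 57344, nat_lit 1, nat_lit 1⟩]

def r66_0_9 : List Wr := [
    ⟨false, nat_lit 256, nat_lit 511, nat_lit 3, nat_lit 1⟩, ⟨false, nat_lit 8, nat_lit 271, nat_lit 2, nat_lit 0⟩, ⟨true, nat_lit 1, nat_lit 265, nat_lit 1, nat_lit 1⟩,
    ⟨true, nat_lit 32, nat_lit 310, nat_lit 1, nat_lit 3⟩, ⟨false, nat_lit 4096, nat_lit 7894, nat_lit 3, nat_lit 1⟩, ⟨false, nat_lit 16, nat_lit 4406, nat_lit 2, nat_lit 1⟩,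
    ⟨true, nat_lit 4, nat_lit 4414, nat_lit 2, nat_lit 2⟩, ⟨false, nat_lit 2048, nat_lit 7874, nat_lit 2, nat_lit 2⟩, ⟨false, nat_lit 512, nat_lit 6850, nat_lit 2, nat_lit 1⟩,
    ⟨false, nat_lit 128, nat_lit 7106, nat_lit 2, nat_lit 2⟩, ⟨true, nat_lit 64, nat_lit 7106, nat_lit 2, nat_lit 2⟩, ⟨false, nat_lit 32768, nat_lit 58370, nat_lit 2, nat_lit 0⟩,
    ⟨false, nat_lit 1024, nat_lit 39938, nat_lit 2, nat_lit 0⟩, ⟨true, nat_lit 2, nat_lit 40958, nat_lit 4, nat_lit 2⟩, ⟨false, nat_lit 16384, nat_lit 57344, nat_lit 1, nat_lit 1⟩,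
    ⟨false, nat_lit 8192, nat_lit 57344, nat_lit 1, nat_lit 1⟩]

def r66_0_10 : List Wr := [
    ⟨false, nat_lit 256, nat_lit 511, nat_lit 3, nat_lit 1⟩, ⟨false, nat_lit 8, nat_lit 271, nat_lit 2, nat_lit 0⟩, ⟨true, nat_lit 1, nat_lit 265, nat_lit 1, nat_lit 1⟩,
    ⟨false, nat_lit 32, nat_lit 310, nat_lit 1, nat_lit 3⟩, ⟨true, nat_lit 4, nat_lit 302, nat_lit 1, nat_lit 3⟩, ⟨false, nat_lit 4096, nat_lit 7890, nat_lit 3, nat_lit 0⟩,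
    ⟨false, nat_lit 128, nat_lit 4562, nat_lit 2, nat_lit 1⟩, ⟨true, nat_lit 16, nat_lit 4530, nat_lit 2, nat_lit 1⟩, ⟨true, nat_lit 512, nat_lit 4674, nat_lit 1, nat_lit 2⟩,
    ⟨false, nat_lit 32768, nat_lit 60482, nat_lit 2, nat_lit 2⟩, ⟨false, nat_lit 2048, nat_lit 40002, nat_lit 2, nat_lit 1⟩, ⟨true, nat_lit 64, nat_lit 39874, nat_lit 3, nat_lit 0⟩,
    ⟨false, nat_lit 16384, nat_lit 58370, nat_lit 2, nat_lit 0⟩, ⟨false, nat_lit 1024, nat_lit 56322, nat_lit 2, nat_lit 1⟩, ⟨true, nat_lit 2, nat_lit 57342, nat_lit 4, nat_lit 3⟩,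
    ⟨false, nat_lit 8192, nat_lit 57344, nat_lit 1, nat_lit 1⟩]

def r66_0_11 : List Wr := [
    ⟨false, nat_lit 256, nat_lit 511, nat_lit 3, nat_lit 1⟩, ⟨false, nat_lit 8, nat_lit 271, nat_lit 2, nat_lit 0⟩, ⟨true, nat_lit 1, nat_lit 265, nat_lit 1, nat_lit 1⟩,
    ⟨true, nat_lit 32, nat_lit 310, nat_lit 1, nat_lit 3⟩, ⟨false, nat_lit 128, nat_lit 470, nat_lit 2, nat_lit 1⟩, ⟨false, nat_lit 16, nat_lit 438, nat_lit 2, nat_lit 1⟩,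
    ⟨true, nat_lit 4, nat_lit 446, nat_lit 2, nat_lit 2⟩, ⟨false, nat_lit 4096, nat_lit 7746, nat_lit 2, nat_lit 1⟩, ⟨true, nat_lit 512, nat_lit 4674, nat_lit 1, nat_lit 2⟩,
    ⟨false, nat_lit 32768, nat_lit 60482, nat_lit 2, nat_lit 2⟩, ⟨false, nat_lit 2048, nat_lit 40002, nat_lit 2, nat_lit 1⟩, ⟨true, nat_lit 64, nat_lit 39874, nat_lit 3, nat_lit 0⟩,
    ⟨false, nat_lit 16384, nat_lit 58370, nat_lit 2, nat_lit 0⟩, ⟨false, nat_lit 1024, nat_lit 56322, nat_lit 2, nat_lit 1⟩, ⟨true, nat_lit 2, nat_lit 57342, nat_lit 4, nat_lit 3⟩,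
    ⟨false, nat_lit 8192, nat_lit 57344, nat_lit 1, nat_lit 1⟩]

def r66_0_12 : List Wr := [
    ⟨false, nat_lit 256, nat_lit 511, nat_lit 3, nat_lit 1⟩, ⟨false, nat_lit 8, nat_lit 271, nat_lit 2, nat_lit 0⟩, ⟨true, nat_lit 1, nat_lit 265, nat_lit 1, nat_lit 1⟩,
    ⟨true, nat_lit 32, nat_lit 310, nat_lit 1, nat_lit 3⟩, ⟨false, nat_lit 128, nat_lit 470, nat_lit 2, nat_lit 1⟩, ⟨false, nat_lit 16, nat_lit 438, nat_lit 2, nat_lit 1⟩,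
    ⟨true, nat_lit 4, nat_lit 446, nat_lit 2, nat_lit 2⟩, ⟨false, nat_lit 32768, nat_lit 65090, nat_lit 3, nat_lit 1⟩, ⟨false, nat_lit 4096, nat_lit 40514, nat_lit 2, nat_lit 2⟩,
    ⟨true, nat_lit 2, nat_lit 37310, nat_lit 3, nat_lit 1⟩, ⟨false, nat_lit 2048, nat_lit 40512, nat_lit 2, nat_lit 1⟩, ⟨true, nat_lit 512, nat_lit 39488, nat_lit 1, nat_lit 3⟩,
    ⟨false, nat_lit 16384, nat_lit 58432, nat_lit 2, nat_lit 0⟩, ⟨false, nat_lit 1024, nat_lit 56384, nat_lit 2, nat_lit 1⟩, ⟨true, nat_lit 64, nat_lit 57280, nat_lit 3, nat_lit 1⟩,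
    ⟨false, nat_lit 8192, nat_lit 57344, nat_lit 1, nat_lit 1⟩]

def r66_0_13 : List Wr := [
    ⟨false, nat_lit 256, nat_lit 511, nat_lit 3, nat_lit 1⟩, ⟨false, nat_lit 8, nat_lit 271, nat_lit 2, nat_lit 0⟩, ⟨true, nat_lit 1, nat_lit 265, nat_lit 1, nat_lit 1⟩,
    ⟨true, nat_lit 32, nat_lit 310, nat_lit 1, nat_lit 3⟩, ⟨false, nat_lit 128, nat_lit 470, nat_lit 2, nat_lit 1⟩, ⟨false, nat_lit 16, nat_lit 438, nat_lit 2, nat_lit 1⟩,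
    ⟨true, nat_lit 4, nat_lit 446, nat_lit 2, nat_lit 2⟩, ⟨false, nat_lit 4096, nat_lit 7746, nat_lit 2, nat_lit 1⟩, ⟨false, nat_lit 64, nat_lit 4546, nat_lit 2, nat_lit 0⟩,
    ⟨true, nat_lit 2, nat_lit 4606, nat_lit 3, nat_lit 1⟩, ⟨true, nat_lit 2048, nat_lit 7680, nat_lit 1, nat_lit 2⟩, ⟨false, nat_lit 32768, nat_lit 58880, nat_lit 2, nat_lit 0⟩,
    ⟨false, nat_lit 1024, nat_lit 40448, nat_lit 2, nat_lit 0⟩, ⟨true, nat_lit 512, nat_lit 40448, nat_lit 1, nat_lit 3⟩, ⟨false, nat_lit 16384, nat_lit 57344, nat_lit 1, nat_lit 1⟩,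
    ⟨false, nat_lit 8192, nat_lit 57344, nat_lit 1, nat_lit 1⟩]

def r66_0_14 : List Wr := [
    ⟨false, nat_lit 256, nat_lit 511, nat_lit 3, nat_lit 1⟩, ⟨false, nat_lit 8, nat_lit 271, nat_lit 2, nat_lit 0⟩, ⟨true, nat_lit 1, nat_lit 265, nat_lit 1, nat_lit 1⟩,
    ⟨true, nat_lit 32, nat_lit 310, nat_lit 1, nat_lit 3⟩, ⟨false, nat_lit 128, nat_lit 470, nat_lit 2, nat_lit 1⟩, ⟨false, nat_lit 16, nat_lit 438, nat_lit 2, nat_lit 1⟩,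
    ⟨true, nat_lit 4, nat_lit 446, nat_lit 2, nat_lit 2⟩, ⟨false, nat_lit 4096, nat_lit 7746, nat_lit 2, nat_lit 1⟩, ⟨false, nat_lit 64, nat_lit 4546, nat_lit 2, nat_lit 0⟩,
    ⟨true, nat_lit 2, nat_lit 4606, nat_lit 3, nat_lit 1⟩, ⟨false, nat_lit 32768, nat_lit 60928, nat_lit 2, nat_lit 1⟩, ⟨false, nat_lit 2048, nat_lit 40448, nat_lit 2, nat_lit 0⟩,
    ⟨true, nat_lit 512, nat_lit 39424, nat_lit 1, nat_lit 2⟩, ⟨true, nat_lit 1024, nat_lit 39936, nat_lit 1, nat_lit 2⟩, ⟨false, nat_lit 16384, nat_lit 57344, nat_lit 1, nat_lit 1⟩,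
    ⟨false, nat_lit 8192, nat_lit 57344, nat_lit 1, nat_lit 1⟩]

def r66_0_15 : List Wr := [
    ⟨false, nat_lit 256, nat_lit 511, nat_lit 3, nat_lit 1⟩, ⟨false, nat_lit 8, nat_lit 271, nat_lit 2, nat_lit 0⟩, ⟨true, nat_lit 1, nat_lit 265, nat_lit 1, nat_lit 1⟩,
    ⟨false, nat_lit 32768, nat_lit 65270, nat_lit 4, nat_lit 2⟩, ⟨false, nat_lit 4096, nat_lit 40694, nat_lit 3, nat_lit 3⟩, ⟨true, nat_lit 32, nat_lit 37174, nat_lit 2, nat_lit 2⟩,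
    ⟨false, nat_lit 512, nat_lit 37590, nat_lit 2, nat_lit 3⟩, ⟨true, nat_lit 16, nat_lit 37686, nat_lit 2, nat_lit 3⟩, ⟨false, nat_lit 2048, nat_lit 40134, nat_lit 3, nat_lit 0⟩,
    ⟨false, nat_lit 128, nat_lit 39878, nat_lit 3, nat_lit 1⟩, ⟨true, nat_lit 4, nat_lit 39870, nat_lit 3, nat_lit 3⟩, ⟨true, nat_lit 64, nat_lit 39874, nat_lit 2, nat_lit 3⟩,
    ⟨false, nat_lit 16384, nat_lit 58370, nat_lit 2, nat_lit 0⟩, ⟨false, nat_lit 1024, nat_lit 56322, nat_lit 2, nat_lit 1⟩, ⟨true, nat_lit 2, nat_lit 57342, nat_lit 5, nat_lit 0⟩,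
    ⟨false, nat_lit 8192, nat_lit 57344, nat_lit 1, nat_lit 1⟩]

def r66_0_16 : List Wr := [
    ⟨false, nat_lit 256, nat_lit 511, nat_lit 3, nat_lit 1⟩, ⟨false, nat_lit 8, nat_lit 271, nat_lit 2, nat_lit 0⟩, ⟨true, nat_lit 1, nat_lit 265, nat_lit 1, nat_lit 1⟩,
    ⟨true, nat_lit 32, nat_lit 310, nat_lit 1, nat_lit 3⟩, ⟨false, nat_lit 32768, nat_lit 65238, nat_lit 4, nat_lit 1⟩, ⟨false, nat_lit 16, nat_lit 33078, nat_lit 2, nat_lit 1⟩,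
    ⟨true, nat_lit 4, nat_lit 33086, nat_lit 2, nat_lit 2⟩, ⟨true, nat_lit 4096, nat_lit 40642, nat_lit 2, nat_lit 3⟩, ⟨false, nat_lit 16384, nat_lit 61122, nat_lit 3, nat_lit 1⟩,
    ⟨false, nat_lit 2048, nat_lit 57026, nat_lit 3, nat_lit 1⟩, ⟨true, nat_lit 128, nat_lit 55746, nat_lit 3, nat_lit 0⟩, ⟨false, nat_lit 1024, nat_lit 56898, nat_lit 2, nat_lit 3⟩,
    ⟨true, nat_lit 512, nat_lit 56898, nat_lit 2, nat_lit 3⟩, ⟨false, nat_lit 8192, nat_lit 57410, nat_lit 2, nat_lit 0⟩, ⟨false, nat_lit 64, nat_lit 65474, nat_lit 3, nat_lit 3⟩,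
    ⟨false, nat_lit 2, nat_lit 65534, nat_lit 5, nat_lit 1⟩]

def r66_0_17 : List Wr := [
    ⟨true, nat_lit 1, nat_lit 1, nat_lit 0, nat_lit 2⟩, ⟨false, nat_lit 4096, nat_lit 8190, nat_lit 4, nat_lit 1⟩, ⟨false, nat_lit 256, nat_lit 4606, nat_lit 3, nat_lit 1⟩,
    ⟨true, nat_lit 8, nat_lit 4366, nat_lit 2, nat_lit 0⟩, ⟨false, nat_lit 128, nat_lit 4598, nat_lit 2, nat_lit 3⟩, ⟨true, nat_lit 32, nat_lit 4534, nat_lit 2, nat_lit 2⟩,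
    ⟨false, nat_lit 512, nat_lit 4694, nat_lit 2, nat_lit 1⟩, ⟨false, nat_lit 16, nat_lit 5046, nat_lit 2, nat_lit 3⟩, ⟨true, nat_lit 4, nat_lit 5054, nat_lit 3, nat_lit 1⟩,
    ⟨false, nat_lit 32768, nat_lit 60482, nat_lit 2, nat_lit 2⟩, ⟨false, nat_lit 2048, nat_lit 40002, nat_lit 2, nat_lit 1⟩, ⟨true, nat_lit 64, nat_lit 39874, nat_lit 3, nat_lit 0⟩,
    ⟨false, nat_lit 16384, nat_lit 58370, nat_lit 2, nat_lit 0⟩, ⟨false, nat_lit 1024, nat_lit 56322, nat_lit 2, nat_lit 1⟩, ⟨true, nat_lit 2, nat_lit 57342, nat_lit 4, nat_lit 3⟩,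
    ⟨false, nat_lit 8192, nat_lit 57344, nat_lit 1, nat_lit 1⟩]

def r66_0_18 : List Wr := [
    ⟨false, nat_lit 256, nat_lit 511, nat_lit 3, nat_lit 1⟩, ⟨false, nat_lit 8, nat_lit 271, nat_lit 2, nat_lit 0⟩, ⟨true, nat_lit 1, nat_lit 265, nat_lit 1, nat_lit 1⟩,
    ⟨false, nat_lit 4096, nat_lit 7926, nat_lit 3, nat_lit 2⟩, ⟨false, nat_lit 128, nat_lit 4598, nat_lit 2, nat_lit 3⟩, ⟨true, nat_lit 32, nat_lit 4534, nat_lit 2, nat_lit 2⟩,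
    ⟨false, nat_lit 512, nat_lit 4694, nat_lit 2, nat_lit 1⟩, ⟨false, nat_lit 16, nat_lit 5046, nat_lit 2, nat_lit 3⟩, ⟨true, nat_lit 4, nat_lit 5054, nat_lit 3, nat_lit 1⟩,
    ⟨false, nat_lit 32768, nat_lit 60482, nat_lit 2, nat_lit 2⟩, ⟨false, nat_lit 2048, nat_lit 40002, nat_lit 2, nat_lit 1⟩, ⟨true, nat_lit 64, nat_lit 39874, nat_lit 3, nat_lit 0⟩,
    ⟨false, nat_lit 16384, nat_lit 58370, nat_lit 2, nat_lit 0⟩, ⟨false, nat_lit 1024, nat_lit 56322, nat_lit 2, nat_lit 1⟩, ⟨true, nat_lit 2, nat_lit 57342, nat_lit 4, nat_lit 3⟩,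
    ⟨false, nat_lit 8192, nat_lit 57344, nat_lit 1, nat_lit 1⟩]

def r66_0_19 : List Wr := [
    ⟨false, nat_lit 256, nat_lit 511, nat_lit 3, nat_lit 1⟩, ⟨false, nat_lit 8, nat_lit 271, nat_lit 2, nat_lit 0⟩, ⟨true, nat_lit 1, nat_lit 265, nat_lit 1, nat_lit 1⟩,
    ⟨true, nat_lit 4, nat_lit 270, nat_lit 1, nat_lit 2⟩, ⟨false, nat_lit 4096, nat_lit 7922, nat_lit 3, nat_lit 1⟩, ⟨false, nat_lit 128, nat_lit 4594, nat_lit 2, nat_lit 2⟩,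
    ⟨true, nat_lit 32, nat_lit 4530, nat_lit 2, nat_lit 1⟩, ⟨true, nat_lit 512, nat_lit 4690, nat_lit 1, nat_lit 3⟩, ⟨false, nat_lit 2048, nat_lit 7250, nat_lit 2, nat_lit 1⟩,
    ⟨false, nat_lit 64, nat_lit 7122, nat_lit 3, nat_lit 0⟩, ⟨true, nat_lit 16, nat_lit 7154, nat_lit 2, nat_lit 4⟩, ⟨false, nat_lit 32768, nat_lit 58370, nat_lit 2, nat_lit 0⟩,
    ⟨false, nat_lit 1024, nat_lit 39938, nat_lit 2, nat_lit 0⟩, ⟨true, nat_lit 2, nat_lit 40958, nat_lit 4, nat_lit 2⟩, ⟨false, nat_lit 16384, nat_lit 57344, nat_lit 1, nat_lit 1⟩,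
    ⟨false, nat_lit 8192, nat_lit 57344, nat_lit 1, nat_lit 1⟩]

def r66_0_20 : List Wr := [
    ⟨false, nat_lit 256, nat_lit 511, nat_lit 3, nat_lit 1⟩, ⟨false, nat_lit 8, nat_lit 271, nat_lit 2, nat_lit 0⟩, ⟨true, nat_lit 1, nat_lit 265, nat_lit 1, nat_lit 1⟩,
    ⟨false, nat_lit 128, nat_lit 502, nat_lit 2, nat_lit 2⟩, ⟨false, nat_lit 32, nat_lit 438, nat_lit 2, nat_lit 1⟩, ⟨true, nat_lit 4, nat_lit 430, nat_lit 2, nat_lit 1⟩,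
    ⟨false, nat_lit 4096, nat_lit 7762, nat_lit 2, nat_lit 2⟩, ⟨true, nat_lit 512, nat_lit 4690, nat_lit 1, nat_lit 3⟩, ⟨false, nat_lit 2048, nat_lit 7250, nat_lit 2, nat_lit 1⟩,
    ⟨false, nat_lit 64, nat_lit 7122, nat_lit 3, nat_lit 0⟩, ⟨true, nat_lit 16, nat_lit 7154, nat_lit 2, nat_lit 4⟩, ⟨false, nat_lit 32768, nat_lit 58370, nat_lit 2, nat_lit 0⟩,
    ⟨false, nat_lit 1024, nat_lit 39938, nat_lit 2, nat_lit 0⟩, ⟨true, nat_lit 2, nat_lit 40958, nat_lit 4, nat_lit 2⟩, ⟨false, nat_lit 16384, nat_lit 57344, nat_lit 1, nat_lit 1⟩,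
    ⟨false, nat_lit 8192, nat_lit 57344, nat_lit 1, nat_lit 1⟩]

def r66_0_21 : List Wr := [
    ⟨false, nat_lit 256, nat_lit 511, nat_lit 3, nat_lit 1⟩, ⟨false, nat_lit 8, nat_lit 271, nat_lit 2, nat_lit 0⟩, ⟨true, nat_lit 1, nat_lit 265, nat_lit 1, nat_lit 1⟩,
    ⟨true, nat_lit 4, nat_lit 270, nat_lit 1, nat_lit 2⟩, ⟨false, nat_lit 4096, nat_lit 7922, nat_lit 3, nat_lit 1⟩, ⟨false, nat_lit 128, nat_lit 4594, nat_lit 2, nat_lit 2⟩,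
    ⟨true, nat_lit 32, nat_lit 4530, nat_lit 2, nat_lit 1⟩, ⟨false, nat_lit 2048, nat_lit 7762, nat_lit 2, nat_lit 2⟩, ⟨false, nat_lit 512, nat_lit 6738, nat_lit 2, nat_lit 1⟩,
    ⟨true, nat_lit 16, nat_lit 7090, nat_lit 2, nat_lit 3⟩, ⟨true, nat_lit 64, nat_lit 7106, nat_lit 2, nat_lit 2⟩, ⟨false, nat_lit 32768, nat_lit 58370, nat_lit 2, nat_lit 0⟩,
    ⟨false, nat_lit 1024, nat_lit 39938, nat_lit 2, nat_lit 0⟩, ⟨true, nat_lit 2, nat_lit 40958, nat_lit 4, nat_lit 2⟩, ⟨false, nat_lit 16384, nat_lit 57344, nat_lit 1, nat_lit 1⟩,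
    ⟨false, nat_lit 8192, nat_lit 57344, nat_lit 1, nat_lit 1⟩]

def r66_0_22 : List Wr := [
    ⟨false, nat_lit 256, nat_lit 511, nat_lit 3, nat_lit 1⟩, ⟨false, nat_lit 8, nat_lit 271, nat_lit 2, nat_lit 0⟩, ⟨true, nat_lit 1, nat_lit 265, nat_lit 1, nat_lit 1⟩,
    ⟨false, nat_lit 128, nat_lit 502, nat_lit 2, nat_lit 2⟩, ⟨false, nat_lit 32, nat_lit 438, nat_lit 2, nat_lit 1⟩, ⟨true, nat_lit 4, nat_lit 430, nat_lit 2, nat_lit 1⟩,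
    ⟨false, nat_lit 4096, nat_lit 7762, nat_lit 2, nat_lit 2⟩, ⟨false, nat_lit 2048, nat_lit 7762, nat_lit 2, nat_lit 2⟩, ⟨false, nat_lit 512, nat_lit 6738, nat_lit 2, nat_lit 1⟩,
    ⟨true, nat_lit 16, nat_lit 7090, nat_lit 2, nat_lit 3⟩, ⟨true, nat_lit 64, nat_lit 7106, nat_lit 2, nat_lit 2⟩, ⟨false, nat_lit 32768, nat_lit 58370, nat_lit 2, nat_lit 0⟩,
    ⟨false, nat_lit 1024, nat_lit 39938, nat_lit 2, nat_lit 0⟩, ⟨true, nat_lit 2, nat_lit 40958, nat_lit 4, nat_lit 2⟩, ⟨false, nat_lit 16384, nat_lit 57344, nat_lit 1, nat_lit 1⟩,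
    ⟨false, nat_lit 8192, nat_lit 57344, nat_lit 1, nat_lit 1⟩]

def l66_0 : List (Nat × List Wr × Nat) := [
  (nat_lit 6, r66_0_0, nat_lit 0), (nat_lit 6, r66_0_1, nat_lit 0), (nat_lit 6, r66_0_2, nat_lit 0),
  (nat_lit 4, r66_0_3, nat_lit 0), (nat_lit 6, r66_0_4, nat_lit 0), (nat_lit 6, r66_0_5, nat_lit 0),
  (nat_lit 6, r66_0_6, nat_lit 0), (nat_lit 6, r66_0_7, nat_lit 0), (nat_lit 6, r66_0_8, nat_lit 0),
  (nat_lit 6, r66_0_9, nat_lit 0), (nat_lit 6, r66_0_10, nat_lit 0), (nat_lit 6, r66_0_11, nat_lit 0),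
  (nat_lit 6, r66_0_12, nat_lit 0), (nat_lit 6, r66_0_13, nat_lit 0), (nat_lit 6, r66_0_14, nat_lit 0),
  (nat_lit 6, r66_0_15, nat_lit 0), (nat_lit 6, r66_0_16, nat_lit 0), (nat_lit 6, r66_0_17, nat_lit 0),
  (nat_lit 6, r66_0_18, nat_lit 0), (nat_lit 6, r66_0_19, nat_lit 0), (nat_lit 6, r66_0_20, nat_lit 0),
  (nat_lit 6, r66_0_21, nat_lit 0), (nat_lit 6, r66_0_22, nat_lit 0)]

end Pool.Agent.EC4.Run
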