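import Pool.Agent.Lib.MP_ec4eff_co.R5.Srch

/-! Generated file (project R5): results of the first lune -/

namespace Pool.Agent.EC4.Run

def r66_1_0 : List Wr := [
    ⟨false, nat_lit 256, nat_lit 511, nat_lit 3, nat_lit 1⟩, ⟨false, nat_lit 8, nat_lit 271, nat_lit 2, nat_lit 0⟩, ⟨true, nat_lit 1, nat_lit 265, nat_lit 1, nat_lit 1⟩,
    ⟨false, nat_lit 128, nat_lit 502, nat_lit 2, nat_lit 2⟩, ⟨false, nat_lit 32, nat_lit 438, nat_lit 2, nat_lit 1⟩, ⟨true, nat_lit 4, nat_lit 430, nat_lit 2, nat_lit 1⟩,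
    ⟨true, nat_lit 16, nat_lit 434, nat_lit 1, nat_lit 3⟩, ⟨false, nat_lit 4096, nat_lit 7746, nat_lit 2, nat_lit 1⟩, ⟨true, nat_lit 512, nat_lit 4674, nat_lit 1, nat_lit 2⟩,
    ⟨false, nat_lit 32768, nat_lit 60482, nat_lit 2, nat_lit 2⟩, ⟨false, nat_lit 2048, nat_lit 40002, nat_lit 2, nat_lit 1⟩, ⟨true, nat_lit 64, nat_lit 39874, nat_lit 3, nat_lit 0⟩,
    ⟨false, nat_lit 16384, nat_lit 58370, nat_lit 2, nat_lit 0⟩, ⟨false, nat_lit 1024, nat_lit 56322, nat_lit 2, nat_lit 1⟩, ⟨true, nat_lit 2, nat_lit 57342, nat_lit 4, nat_lit 3⟩,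
    ⟨false, nat_lit 8192, nat_lit 57344, nat_lit 1, nat_lit 1⟩]

def r66_1_1 : List Wr := [
    ⟨false, nat_lit 256, nat_lit 511, nat_lit 3, nat_lit 1⟩, ⟨false, nat_lit 8, nat_lit 271, nat_lit 2, nat_lit 0⟩, ⟨true, nat_lit 1, nat_lit 265, nat_lit 1, nat_lit 1⟩,
    ⟨false, nat_lit 128, nat_lit 502, nat_lit 2, nat_lit 2⟩, ⟨false, nat_lit 32, nat_lit 438, nat_lit 2, nat_lit 1⟩, ⟨true, nat_lit 4, nat_lit 430, nat_lit 2, nat_lit 1⟩,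
    ⟨true, nat_lit 16, nat_lit 434, nat_lit 1, nat_lit 3⟩, ⟨false, nat_lit 32768, nat_lit 65090, nat_lit 3, nat_lit 1⟩, ⟨false, nat_lit 4096, nat_lit 40514, nat_lit 2, nat_lit 2⟩,
    ⟨true, nat_lit 2, nat_lit 37310, nat_lit 3, nat_lit 1⟩, ⟨false, nat_lit 2048, nat_lit 40512, nat_lit 2, nat_lit 1⟩, ⟨true, nat_lit 512, nat_lit 39488, nat_lit 1, nat_lit 3⟩,
    ⟨false, nat_lit 16384, nat_lit 58432, nat_lit 2, nat_lit 0⟩, ⟨false, nat_lit 1024, nat_lit 56384, nat_lit 2, nat_lit 1⟩, ⟨true, nat_lit 64, nat_lit 57280, nat_lit 3, nat_lit 1⟩,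
    ⟨false, nat_lit 8192, nat_lit 57344, nat_lit 1, nat_lit 1⟩]

def r66_1_2 : List Wr := [
    ⟨false, nat_lit 256, nat_lit 511, nat_lit 3, nat_lit 1⟩, ⟨false, nat_lit 8, nat_lit 271, nat_lit 2, nat_lit 0⟩, ⟨true, nat_lit 1, nat_lit 265, nat_lit 1, nat_lit 1⟩,
    ⟨false, nat_lit 128, nat_lit 502, nat_lit 2, nat_lit 2⟩, ⟨false, nat_lit 32, nat_lit 438, nat_lit 2, nat_lit 1⟩, ⟨true, nat_lit 4, nat_lit 430, nat_lit 2, nat_lit 1⟩,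
    ⟨true, nat_lit 16, nat_lit 434, nat_lit 1, nat_lit 3⟩, ⟨false, nat_lit 4096, nat_lit 7746, nat_lit 2, nat_lit 1⟩, ⟨false, nat_lit 64, nat_lit 4546, nat_lit 2, nat_lit 0⟩,
    ⟨true, nat_lit 2, nat_lit 4606, nat_lit 3, nat_lit 1⟩, ⟨true, nat_lit 2048, nat_lit 7680, nat_lit 1, nat_lit 2⟩, ⟨false, nat_lit 32768, nat_lit 58880, nat_lit 2, nat_lit 0⟩,
    ⟨false, nat_lit 1024, nat_lit 40448, nat_lit 2, nat_lit 0⟩, ⟨true, nat_lit 512, nat_lit 40448, nat_lit 1, nat_lit 3⟩, ⟨false, nat_lit 16384, nat_lit 57344, nat_lit 1, nat_lit 1⟩,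
    ⟨false, nat_lit 8192, nat_lit 57344, nat_lit 1, nat_lit 1⟩]

def r66_1_3 : List Wr := [
    ⟨false, nat_lit 256, nat_lit 511, nat_lit 3, nat_lit 1⟩, ⟨false, nat_lit 8, nat_lit 271, nat_lit 2, nat_lit 0⟩, ⟨true, nat_lit 1, nat_lit 265, nat_lit 1, nat_lit 1⟩,
    ⟨false, nat_lit 128, nat_lit 502, nat_lit 2, nat_lit 2⟩, ⟨false, nat_lit 32, nat_lit 438, nat_lit 2, nat_lit 1⟩, ⟨true, nat_lit 4, nat_lit 430, nat_lit 2, nat_lit 1⟩,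
    ⟨true, nat_lit 16, nat_lit 434, nat_lit 1, nat_lit 3⟩, ⟨false, nat_lit 4096, nat_lit 7746, nat_lit 2, nat_lit 1⟩, ⟨false, nat_lit 64, nat_lit 4546, nat_lit 2, nat_lit 0⟩,
    ⟨true, nat_lit 2, nat_lit 4606, nat_lit 3, nat_lit 1⟩, ⟨false, nat_lit 32768, nat_lit 60928, nat_lit 2, nat_lit 1⟩, ⟨false, nat_lit 2048, nat_lit 40448, nat_lit 2, nat_lit 0⟩,
    ⟨true, nat_lit 512, nat_lit 39424, nat_lit 1, nat_lit 2⟩, ⟨true, nat_lit 1024, nat_lit 39936, nat_lit 1, nat_lit 2⟩, ⟨false, nat_lit 16384, nat_lit 57344, nat_lit 1, nat_lit 1⟩,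
    ⟨false, nat_lit 8192, nat_lit 57344, nat_lit 1, nat_lit 1⟩]

def r66_1_4 : List Wr := [
    ⟨false, nat_lit 256, nat_lit 511, nat_lit 3, nat_lit 1⟩, ⟨false, nat_lit 8, nat_lit 271, nat_lit 2, nat_lit 0⟩, ⟨true, nat_lit 1, nat_lit 265, nat_lit 1, nat_lit 1⟩,
    ⟨false, nat_lit 4096, nat_lit 7926, nat_lit 3, nat_lit 2⟩, ⟨false, nat_lit 32, nat_lit 4406, nat_lit 2, nat_lit 1⟩, ⟨true, nat_lit 4, nat_lit 4398, nat_lit 2, nat_lit 1⟩,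
    ⟨false, nat_lit 512, nat_lit 4818, nat_lit 2, nat_lit 1⟩, ⟨false, nat_lit 128, nat_lit 5074, nat_lit 2, nat_lit 2⟩, ⟨true, nat_lit 16, nat_lit 5042, nat_lit 2, nat_lit 2⟩,
    ⟨true, nat_lit 64, nat_lit 5058, nat_lit 2, nat_lit 1⟩, ⟨true, nat_lit 2048, nat_lit 7170, nat_lit 1, nat_lit 2⟩, ⟨false, nat_lit 32768, nat_lit 58370, nat_lit 2, nat_lit 0⟩,
    ⟨false, nat_lit 1024, nat_lit 39938, nat_lit 2, nat_lit 0⟩, ⟨true, nat_lit 2, nat_lit 40958, nat_lit 4, nat_lit 2⟩, ⟨false, nat_lit 16384, nat_lit 57344, nat_lit 1, nat_lit 1⟩,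
    ⟨false, nat_lit 8192, nat_lit 57344, nat_lit 1, nat_lit 1⟩]

def r66_1_5 : List Wr := [
    ⟨false, nat_lit 256, nat_lit 511, nat_lit 3, nat_lit 1⟩, ⟨false, nat_lit 8, nat_lit 271, nat_lit 2, nat_lit 0⟩, ⟨true, nat_lit 1, nat_lit 265, nat_lit 1, nat_lit 1⟩,
    ⟨false, nat_lit 4096, nat_lit 7926, nat_lit 3, nat_lit 2⟩, ⟨false, nat_lit 32, nat_lit 4406, nat_lit 2, nat_lit 1⟩, ⟨true, nat_lit 4, nat_lit 4398, nat_lit 2, nat_lit 1⟩,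
    ⟨false, nat_lit 512, nat_lit 4818, nat_lit 2, nat_lit 1⟩, ⟨false, nat_lit 128, nat_lit 5074, nat_lit 2, nat_lit 2⟩, ⟨true, nat_lit 16, nat_lit 5042, nat_lit 2, nat_lit 2⟩,
    ⟨false, nat_lit 2048, nat_lit 7234, nat_lit 1, nat_lit 3⟩, ⟨true, nat_lit 64, nat_lit 7106, nat_lit 2, nat_lit 2⟩, ⟨false, nat_lit 32768, nat_lit 58370, nat_lit 2, nat_lit 0⟩,
    ⟨false, nat_lit 1024, nat_lit 39938, nat_lit 2, nat_lit 0⟩, ⟨true, nat_lit 2, nat_lit 40958, nat_lit 4, nat_lit 2⟩, ⟨false, nat_lit 16384, nat_lit 57344, nat_lit 1, nat_lit 1⟩,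
    ⟨false, nat_lit 8192, nat_lit 57344, nat_lit 1, nat_lit 1⟩]

def r66_1_6 : List Wr := [
    ⟨false, nat_lit 256, nat_lit 511, nat_lit 3, nat_lit 1⟩, ⟨false, nat_lit 8, nat_lit 271, nat_lit 2, nat_lit 0⟩, ⟨true, nat_lit 1, nat_lit 265, nat_lit 1, nat_lit 1⟩,
    ⟨false, nat_lit 4096, nat_lit 7926, nat_lit 3, nat_lit 2⟩, ⟨false, nat_lit 32, nat_lit 4406, nat_lit 2, nat_lit 1⟩, ⟨true, nat_lit 4, nat_lit 4398, nat_lit 2, nat_lit 1⟩,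
    ⟨true, nat_lit 16, nat_lit 4402, nat_lit 1, nat_lit 3⟩, ⟨false, nat_lit 2048, nat_lit 7874, nat_lit 2, nat_lit 2⟩, ⟨false, nat_lit 512, nat_lit 6850, nat_lit 2, nat_lit 1⟩,
    ⟨false, nat_lit 128, nat_lit 7106, nat_lit 2, nat_lit 2⟩, ⟨true, nat_lit 64, nat_lit 7106, nat_lit 2, nat_lit 2⟩, ⟨false, nat_lit 32768, nat_lit 58370, nat_lit 2, nat_lit 0⟩,
    ⟨false, nat_lit 1024, nat_lit 39938, nat_lit 2, nat_lit 0⟩, ⟨true, nat_lit 2, nat_lit 40958, nat_lit 4, nat_lit 2⟩, ⟨false, nat_lit 16384, nat_lit 57344, nat_lit 1, nat_lit 1⟩,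
    ⟨false, nat_lit 8192, nat_lit 57344, nat_lit 1, nat_lit 1⟩]

def r66_1_7 : List Wr := [
    ⟨false, nat_lit 256, nat_lit 511, nat_lit 3, nat_lit 1⟩, ⟨false, nat_lit 8, nat_lit 271, nat_lit 2, nat_lit 0⟩, ⟨true, nat_lit 1, nat_lit 265, nat_lit 1, nat_lit 1⟩,
    ⟨false, nat_lit 4096, nat_lit 7926, nat_lit 3, nat_lit 2⟩, ⟨false, nat_lit 32, nat_lit 4406, nat_lit 2, nat_lit 1⟩, ⟨true, nat_lit 4, nat_lit 4398, nat_lit 2, nat_lit 1⟩,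
    ⟨false, nat_lit 512, nat_lit 4818, nat_lit 2, nat_lit 1⟩, ⟨false, nat_lit 128, nat_lit 5074, nat_lit 2, nat_lit 2⟩, ⟨true, nat_lit 16, nat_lit 5042, nat_lit 2, nat_lit 2⟩,
    ⟨false, nat_lit 2048, nat_lit 7234, nat_lit 1, nat_lit 3⟩, ⟨true, nat_lit 64, nat_lit 7106, nat_lit 2, nat_lit 2⟩, ⟨false, nat_lit 32768, nat_lit 58370, nat_lit 2, nat_lit 0⟩,
    ⟨false, nat_lit 1024, nat_lit 39938, nat_lit 2, nat_lit 0⟩, ⟨true, nat_lit 2, nat_lit 40958, nat_lit 4, nat_lit 2⟩, ⟨false, nat_lit 16384, nat_lit 57344, nat_lit 1, nat_lit 1⟩,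
    ⟨false, nat_lit 8192, nat_lit 57344, nat_lit 1, nat_lit 1⟩]

def r66_1_8 : List Wr := [
    ⟨false, nat_lit 256, nat_lit 511, nat_lit 3, nat_lit 1⟩, ⟨false, nat_lit 8, nat_lit 271, nat_lit 2, nat_lit 0⟩, ⟨true, nat_lit 1, nat_lit 265, nat_lit 1, nat_lit 1⟩,
    ⟨false, nat_lit 4096, nat_lit 7926, nat_lit 3, nat_lit 2⟩, ⟨false, nat_lit 32, nat_lit 4406, nat_lit 2, nat_lit 1⟩, ⟨true, nat_lit 4, nat_lit 4398, nat_lit 2, nat_lit 1⟩,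
    ⟨false, nat_lit 512, nat_lit 4818, nat_lit 2, nat_lit 1⟩, ⟨false, nat_lit 128, nat_lit 5074, nat_lit 2, nat_lit 2⟩, ⟨true, nat_lit 16, nat_lit 5042, nat_lit 2, nat_lit 2⟩,
    ⟨true, nat_lit 64, nat_lit 5058, nat_lit 2, nat_lit 1⟩, ⟨false, nat_lit 32768, nat_lit 60418, nat_lit 2, nat_lit 1⟩, ⟨false, nat_lit 2048, nat_lit 39938, nat_lit 2, nat_lit 0⟩,
    ⟨true, nat_lit 2, nat_lit 39934, nat_lit 4, nat_lit 1⟩, ⟨true, nat_lit 1024, nat_lit 39936, nat_lit 1, nat_lit 2⟩, ⟨false, nat_lit 16384, nat_lit 57344, nat_lit 1, nat_lit 1⟩,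
    ⟨false, nat_lit 8192, nat_lit 57344, nat_lit 1, nat_lit 1⟩]

def r66_1_9 : List Wr := [
    ⟨false, nat_lit 256, nat_lit 511, nat_lit 3, nat_lit 1⟩, ⟨false, nat_lit 8, nat_lit 271, nat_lit 2, nat_lit 0⟩, ⟨true, nat_lit 1, nat_lit 265, nat_lit 1, nat_lit 1⟩,
    ⟨false, nat_lit 4096, nat_lit 7926, nat_lit 3, nat_lit 2⟩, ⟨false, nat_lit 32, nat_lit 4406, nat_lit 2, nat_lit 1⟩, ⟨true, nat_lit 4, nat_lit 4398, nat_lit 2, nat_lit 1⟩,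
    ⟨false, nat_lit 512, nat_lit 4818, nat_lit 2, nat_lit 1⟩, ⟨false, nat_lit 128, nat_lit 5074, nat_lit 2, nat_lit 2⟩, ⟨true, nat_lit 16, nat_lit 5042, nat_lit 2, nat_lit 2⟩,
    ⟨true, nat_lit 64, nat_lit 5058, nat_lit 2, nat_lit 1⟩, ⟨false, nat_lit 32768, nat_lit 60418, nat_lit 2, nat_lit 1⟩, ⟨false, nat_lit 2048, nat_lit 39938, nat_lit 2, nat_lit 0⟩,
    ⟨true, nat_lit 2, nat_lit 39934, nat_lit 4, nat_lit 1⟩, ⟨false, nat_lit 16384, nat_lit 58368, nat_lit 1, nat_lit 2⟩, ⟨true, nat_lit 1024, nat_lit 56320, nat_lit 1, nat_lit 3⟩,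
    ⟨false, nat_lit 8192, nat_lit 57344, nat_lit 1, nat_lit 1⟩]

def r66_1_10 : List Wr := [
    ⟨false, nat_lit 256, nat_lit 511, nat_lit 3, nat_lit 1⟩, ⟨false, nat_lit 8, nat_lit 271, nat_lit 2, nat_lit 0⟩, ⟨true, nat_lit 1, nat_lit 265, nat_lit 1, nat_lit 1⟩,
    ⟨false, nat_lit 4096, nat_lit 7926, nat_lit 3, nat_lit 2⟩, ⟨false, nat_lit 32, nat_lit 4406, nat_lit 2, nat_lit 1⟩, ⟨true, nat_lit 4, nat_lit 4398, nat_lit 2, nat_lit 1⟩,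
    ⟨false, nat_lit 512, nat_lit 4818, nat_lit 2, nat_lit 1⟩, ⟨false, nat_lit 128, nat_lit 5074, nat_lit 2, nat_lit 2⟩, ⟨true, nat_lit 16, nat_lit 5042, nat_lit 2, nat_lit 2⟩,
    ⟨true, nat_lit 64, nat_lit 5058, nat_lit 2, nat_lit 1⟩, ⟨false, nat_lit 32768, nat_lit 60418, nat_lit 2, nat_lit 1⟩, ⟨false, nat_lit 2048, nat_lit 39938, nat_lit 2, nat_lit 0⟩,
    ⟨true, nat_lit 2, nat_lit 39934, nat_lit 4, nat_lit 1⟩, ⟨false, nat_lit 16384, nat_lit 58368, nat_lit 1, nat_lit 2⟩, ⟨true, nat_lit 1024, nat_lit 56320, nat_lit 1, nat_lit 3⟩,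
    ⟨false, nat_lit 8192, nat_lit 57344, nat_lit 1, nat_lit 1⟩]

def l66_1 : List (Nat × List Wr × Nat) := [
  (nat_lit 6, r66_1_0, nat_lit 0), (nat_lit 6, r66_1_1, nat_lit 0), (nat_lit 6, r66_1_2, nat_lit 0),
  (nat_lit 6, r66_1_3, nat_lit 0), (nat_lit 4, r66_1_4, nat_lit 0), (nat_lit 5, r66_1_5, nat_lit 1),
  (nat_lit 6, r66_1_6, nat_lit 0), (nat_lit 6, r66_1_7, nat_lit 0), (nat_lit 4, r66_1_8, nat_lit 0),
  (nat_lit 5, r66_1_9, nat_lit 1), (nat_lit 6, r66_1_10, nat_lit 0)]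

def r66_2_0 : List Wr := [
    ⟨false, nat_lit 256, nat_lit 511, nat_lit 3, nat_lit 1⟩, ⟨false, nat_lit 8, nat_lit 271, nat_lit 2, nat_lit 0⟩, ⟨true, nat_lit 1, nat_lit 265, nat_lit 1, nat_lit 1⟩,
    ⟨true, nat_lit 4, nat_lit 270, nat_lit 1, nat_lit 2⟩, ⟨true, nat_lit 32, nat_lit 306, nat_lit 1, nat_lit 2⟩, ⟨false, nat_lit 4096, nat_lit 7890, nat_lit 3, nat_lit 0⟩,
    ⟨false, nat_lit 128, nat_lit 4562, nat_lit 2, nat_lit 1⟩, ⟨true, nat_lit 16, nat_lit 4530, nat_lit 2, nat_lit 1⟩, ⟨true, nat_lit 512, nat_lit 4674, nat_lit 1, nat_lit 2⟩,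
    ⟨false, nat_lit 32768, nat_lit 60482, nat_lit 2, nat_lit 2⟩, ⟨false, nat_lit 2048, nat_lit 40002, nat_lit 2, nat_lit 1⟩, ⟨true, nat_lit 64, nat_lit 39874, nat_lit 3, nat_lit 0⟩,
    ⟨false, nat_lit 16384, nat_lit 58370, nat_lit 2, nat_lit 0⟩, ⟨false, nat_lit 1024, nat_lit 56322, nat_lit 2, nat_lit 1⟩, ⟨true, nat_lit 2, nat_lit 57342, nat_lit 4, nat_lit 3⟩,
    ⟨false, nat_lit 8192, nat_lit 57344, nat_lit 1, nat_lit 1⟩]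

def l66_2 : List (Nat × List Wr × Nat) := [
  (nat_lit 4, r66_2_0, nat_lit 0)]

def r66_3_0 : List Wr := [
    ⟨false, nat_lit 256, nat_lit 511, nat_lit 3, nat_lit 1⟩, ⟨false, nat_lit 8, nat_lit 271, nat_lit 2, nat_lit 0⟩, ⟨true, nat_lit 1, nat_lit 265, nat_lit 1, nat_lit 1⟩,
    ⟨false, nat_lit 32, nat_lit 310, nat_lit 1, nat_lit 3⟩, ⟨true, nat_lit 4, nat_lit 302, nat_lit 1, nat_lit 3⟩, ⟨false, nat_lit 4096, nat_lit 7890, nat_lit 3, nat_lit 0⟩,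
    ⟨false, nat_lit 128, nat_lit 4562, nat_lit 2, nat_lit 1⟩, ⟨true, nat_lit 16, nat_lit 4530, nat_lit 2, nat_lit 1⟩, ⟨true, nat_lit 512, nat_lit 4674, nat_lit 1, nat_lit 2⟩,
    ⟨false, nat_lit 32768, nat_lit 60482, nat_lit 2, nat_lit 2⟩, ⟨false, nat_lit 2048, nat_lit 40002, nat_lit 2, nat_lit 1⟩, ⟨true, nat_lit 64, nat_lit 39874, nat_lit 3, nat_lit 0⟩,
    ⟨false, nat_lit 16384, nat_lit 58370, nat_lit 2, nat_lit 0⟩, ⟨false, nat_lit 1024, nat_lit 56322, nat_lit 2, nat_lit 1⟩, ⟨true, nat_lit 2, nat_lit 57342, nat_lit 4, nat_lit 3⟩,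
    ⟨false, nat_lit 8192, nat_lit 57344, nat_lit 1, nat_lit 1⟩]

def r66_3_1 : List Wr := [
    ⟨false, nat_lit 256, nat_lit 511, nat_lit 3, nat_lit 1⟩, ⟨false, nat_lit 8, nat_lit 271, nat_lit 2, nat_lit 0⟩, ⟨true, nat_lit 1, nat_lit 265, nat_lit 1, nat_lit 1⟩,
    ⟨false, nat_lit 4096, nat_lit 7926, nat_lit 3, nat_lit 2⟩, ⟨false, nat_lit 32, nat_lit 4406, nat_lit 2, nat_lit 1⟩, ⟨true, nat_lit 4, nat_lit 4398, nat_lit 2, nat_lit 1⟩,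
    ⟨true, nat_lit 512, nat_lit 4818, nat_lit 1, nat_lit 4⟩, ⟨false, nat_lit 32768, nat_lit 60626, nat_lit 3, nat_lit 1⟩, ⟨false, nat_lit 128, nat_lit 37842, nat_lit 3, nat_lit 0⟩,
    ⟨true, nat_lit 16, nat_lit 37810, nat_lit 2, nat_lit 3⟩, ⟨false, nat_lit 2048, nat_lit 40002, nat_lit 2, nat_lit 1⟩, ⟨true, nat_lit 64, nat_lit 39874, nat_lit 2, nat_lit 3⟩,
    ⟨false, nat_lit 16384, nat_lit 58370, nat_lit 2, nat_lit 0⟩, ⟨false, nat_lit 1024, nat_lit 56322, nat_lit 2, nat_lit 1⟩, ⟨true, nat_lit 2, nat_lit 57342, nat_lit 5, nat_lit 0⟩,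
    ⟨false, nat_lit 8192, nat_lit 57344, nat_lit 1, nat_lit 1⟩]

def r66_3_2 : List Wr := [
    ⟨false, nat_lit 256, nat_lit 511, nat_lit 3, nat_lit 1⟩, ⟨false, nat_lit 8, nat_lit 271, nat_lit 2, nat_lit 0⟩, ⟨true, nat_lit 1, nat_lit 265, nat_lit 1, nat_lit 1⟩,
    ⟨false, nat_lit 4096, nat_lit 7926, nat_lit 3, nat_lit 2⟩, ⟨false, nat_lit 32, nat_lit 4406, nat_lit 2, nat_lit 1⟩, ⟨true, nat_lit 4, nat_lit 4398, nat_lit 2, nat_lit 1⟩,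
    ⟨false, nat_lit 32768, nat_lit 61138, nat_lit 3, nat_lit 2⟩, ⟨false, nat_lit 512, nat_lit 37586, nat_lit 2, nat_lit 2⟩, ⟨true, nat_lit 16, nat_lit 37682, nat_lit 2, nat_lit 2⟩,
    ⟨true, nat_lit 128, nat_lit 37826, nat_lit 2, nat_lit 2⟩, ⟨false, nat_lit 2048, nat_lit 40002, nat_lit 2, nat_lit 1⟩, ⟨true, nat_lit 64, nat_lit 39874, nat_lit 2, nat_lit 3⟩,
    ⟨false, nat_lit 16384, nat_lit 58370, nat_lit 2, nat_lit 0⟩, ⟨false, nat_lit 1024, nat_lit 56322, nat_lit 2, nat_lit 1⟩, ⟨true, nat_lit 2, nat_lit 57342, nat_lit 5, nat_lit 0⟩,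
    ⟨false, nat_lit 8192, nat_lit 57344, nat_lit 1, nat_lit 1⟩]

def r66_3_3 : List Wr := [
    ⟨false, nat_lit 256, nat_lit 511, nat_lit 3, nat_lit 1⟩, ⟨false, nat_lit 8, nat_lit 271, nat_lit 2, nat_lit 0⟩, ⟨true, nat_lit 1, nat_lit 265, nat_lit 1, nat_lit 1⟩,
    ⟨false, nat_lit 4096, nat_lit 7926, nat_lit 3, nat_lit 2⟩, ⟨false, nat_lit 32, nat_lit 4406, nat_lit 2, nat_lit 1⟩, ⟨true, nat_lit 4, nat_lit 4398, nat_lit 2, nat_lit 1⟩,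
    ⟨false, nat_lit 32768, nat_lit 61138, nat_lit 3, nat_lit 2⟩, ⟨false, nat_lit 512, nat_lit 37586, nat_lit 2, nat_lit 2⟩, ⟨true, nat_lit 16, nat_lit 37682, nat_lit 2, nat_lit 2⟩,
    ⟨false, nat_lit 2048, nat_lit 40130, nat_lit 2, nat_lit 2⟩, ⟨false, nat_lit 128, nat_lit 39874, nat_lit 2, nat_lit 3⟩, ⟨true, nat_lit 64, nat_lit 39874, nat_lit 2, nat_lit 3⟩,
    ⟨false, nat_lit 16384, nat_lit 58370, nat_lit 2, nat_lit 0⟩, ⟨false, nat_lit 1024, nat_lit 56322, nat_lit 2, nat_lit 1⟩, ⟨true, nat_lit 2, nat_lit 57342, nat_lit 5, nat_lit 0⟩,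
    ⟨false, nat_lit 8192, nat_lit 57344, nat_lit 1, nat_lit 1⟩]

def r66_3_4 : List Wr := [
    ⟨false, nat_lit 256, nat_lit 511, nat_lit 3, nat_lit 1⟩, ⟨false, nat_lit 8, nat_lit 271, nat_lit 2, nat_lit 0⟩, ⟨true, nat_lit 1, nat_lit 265, nat_lit 1, nat_lit 1⟩,
    ⟨false, nat_lit 4096, nat_lit 7926, nat_lit 3, nat_lit 2⟩, ⟨false, nat_lit 32, nat_lit 4406, nat_lit 2, nat_lit 1⟩, ⟨true, nat_lit 4, nat_lit 4398, nat_lit 2, nat_lit 1⟩,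
    ⟨false, nat_lit 32768, nat_lit 61138, nat_lit 3, nat_lit 2⟩, ⟨false, nat_lit 512, nat_lit 37586, nat_lit 2, nat_lit 2⟩, ⟨true, nat_lit 16, nat_lit 37682, nat_lit 2, nat_lit 2⟩,
    ⟨false, nat_lit 2048, nat_lit 40130, nat_lit 2, nat_lit 2⟩, ⟨false, nat_lit 128, nat_lit 39874, nat_lit 2, nat_lit 3⟩, ⟨true, nat_lit 64, nat_lit 39874, nat_lit 2, nat_lit 3⟩,
    ⟨false, nat_lit 16384, nat_lit 58370, nat_lit 2, nat_lit 0⟩, ⟨false, nat_lit 1024, nat_lit 56322, nat_lit 2, nat_lit 1⟩, ⟨true, nat_lit 2, nat_lit 57342, nat_lit 5, nat_lit 0⟩,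
    ⟨false, nat_lit 8192, nat_lit 57344, nat_lit 1, nat_lit 1⟩]

def r66_3_5 : List Wr := [
    ⟨false, nat_lit 256, nat_lit 511, nat_lit 3, nat_lit 1⟩, ⟨false, nat_lit 8, nat_lit 271, nat_lit 2, nat_lit 0⟩, ⟨true, nat_lit 1, nat_lit 265, nat_lit 1, nat_lit 1⟩,
    ⟨false, nat_lit 32768, nat_lit 65270, nat_lit 4, nat_lit 2⟩, ⟨false, nat_lit 32, nat_lit 33078, nat_lit 2, nat_lit 1⟩, ⟨true, nat_lit 4, nat_lit 33070, nat_lit 2, nat_lit 1⟩,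
    ⟨false, nat_lit 4096, nat_lit 40658, nat_lit 2, nat_lit 4⟩, ⟨false, nat_lit 2048, nat_lit 40658, nat_lit 3, nat_lit 1⟩, ⟨false, nat_lit 128, nat_lit 39378, nat_lit 3, nat_lit 0⟩,
    ⟨false, nat_lit 16, nat_lit 39346, nat_lit 2, nat_lit 3⟩, ⟨true, nat_lit 2, nat_lit 39358, nat_lit 3, nat_lit 2⟩, ⟨true, nat_lit 512, nat_lit 39488, nat_lit 1, nat_lit 3⟩,
    ⟨false, nat_lit 16384, nat_lit 58432, nat_lit 2, nat_lit 0⟩, ⟨false, nat_lit 1024, nat_lit 56384, nat_lit 2, nat_lit 1⟩, ⟨true, nat_lit 64, nat_lit 57280, nat_lit 3, nat_lit 1⟩,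
    ⟨false, nat_lit 8192, nat_lit 57344, nat_lit 1, nat_lit 1⟩]

def r66_3_6 : List Wr := [
    ⟨false, nat_lit 256, nat_lit 511, nat_lit 3, nat_lit 1⟩, ⟨false, nat_lit 8, nat_lit 271, nat_lit 2, nat_lit 0⟩, ⟨true, nat_lit 1, nat_lit 265, nat_lit 1, nat_lit 1⟩,
    ⟨false, nat_lit 32768, nat_lit 65270, nat_lit 4, nat_lit 2⟩, ⟨false, nat_lit 32, nat_lit 33078, nat_lit 2, nat_lit 1⟩, ⟨true, nat_lit 4, nat_lit 33070, nat_lit 2, nat_lit 1⟩,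
    ⟨true, nat_lit 16, nat_lit 33074, nat_lit 1, nat_lit 3⟩, ⟨true, nat_lit 4096, nat_lit 40642, nat_lit 2, nat_lit 3⟩, ⟨false, nat_lit 16384, nat_lit 61122, nat_lit 3, nat_lit 1⟩,
    ⟨false, nat_lit 2048, nat_lit 57026, nat_lit 3, nat_lit 1⟩, ⟨true, nat_lit 128, nat_lit 55746, nat_lit 3, nat_lit 0⟩, ⟨false, nat_lit 1024, nat_lit 56898, nat_lit 2, nat_lit 3⟩,
    ⟨true, nat_lit 512, nat_lit 56898, nat_lit 2, nat_lit 3⟩, ⟨false, nat_lit 8192, nat_lit 57410, nat_lit 2, nat_lit 0⟩, ⟨false, nat_lit 64, nat_lit 65474, nat_lit 3, nat_lit 3⟩,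
    ⟨false, nat_lit 2, nat_lit 65534, nat_lit 5, nat_lit 1⟩]

def r66_3_7 : List Wr := [
    ⟨false, nat_lit 256, nat_lit 511, nat_lit 3, nat_lit 1⟩, ⟨false, nat_lit 8, nat_lit 271, nat_lit 2, nat_lit 0⟩, ⟨true, nat_lit 1, nat_lit 265, nat_lit 1, nat_lit 1⟩,
    ⟨true, nat_lit 4, nat_lit 270, nat_lit 1, nat_lit 2⟩, ⟨false, nat_lit 32, nat_lit 306, nat_lit 1, nat_lit 2⟩, ⟨true, nat_lit 16, nat_lit 306, nat_lit 1, nat_lit 2⟩,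
    ⟨false, nat_lit 32768, nat_lit 65218, nat_lit 3, nat_lit 2⟩, ⟨false, nat_lit 128, nat_lit 33218, nat_lit 2, nat_lit 0⟩, ⟨true, nat_lit 2, nat_lit 33214, nat_lit 3, nat_lit 0⟩,
    ⟨true, nat_lit 4096, nat_lit 40512, nat_lit 2, nat_lit 1⟩, ⟨false, nat_lit 16384, nat_lit 60992, nat_lit 2, nat_lit 2⟩, ⟨false, nat_lit 2048, nat_lit 56896, nat_lit 2, nat_lit 2⟩,
    ⟨true, nat_lit 512, nat_lit 55872, nat_lit 2, nat_lit 1⟩, ⟨false, nat_lit 8192, nat_lit 58432, nat_lit 2, nat_lit 0⟩, ⟨false, nat_lit 1024, nat_lit 64576, nat_lit 2, nat_lit 2⟩,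
    ⟨false, nat_lit 64, nat_lit 65472, nat_lit 3, nat_lit 2⟩]

def r66_3_8 : List Wr := [
    ⟨false, nat_lit 4096, nat_lit 8191, nat_lit 4, nat_lit 2⟩, ⟨false, nat_lit 8, nat_lit 4111, nat_lit 2, nat_lit 0⟩, ⟨true, nat_lit 1, nat_lit 4105, nat_lit 1, nat_lit 1⟩,
    ⟨true, nat_lit 256, nat_lit 4598, nat_lit 2, nat_lit 3⟩, ⟨false, nat_lit 512, nat_lit 4854, nat_lit 2, nat_lit 3⟩, ⟨false, nat_lit 16, nat_lit 4886, nat_lit 2, nat_lit 1⟩,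
    ⟨true, nat_lit 4, nat_lit 4894, nat_lit 2, nat_lit 2⟩, ⟨false, nat_lit 32768, nat_lit 60642, nat_lit 3, nat_lit 1⟩, ⟨false, nat_lit 128, nat_lit 37858, nat_lit 3, nat_lit 0⟩,
    ⟨true, nat_lit 2, nat_lit 37790, nat_lit 3, nat_lit 1⟩, ⟨false, nat_lit 2048, nat_lit 40032, nat_lit 2, nat_lit 1⟩, ⟨true, nat_lit 64, nat_lit 39904, nat_lit 2, nat_lit 3⟩,
    ⟨false, nat_lit 16384, nat_lit 58400, nat_lit 2, nat_lit 0⟩, ⟨false, nat_lit 1024, nat_lit 56352, nat_lit 2, nat_lit 1⟩, ⟨true, nat_lit 32, nat_lit 57312, nat_lit 3, nat_lit 2⟩,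
    ⟨false, nat_lit 8192, nat_lit 57344, nat_lit 1, nat_lit 1⟩]

def r66_3_9 : List Wr := [
    ⟨false, nat_lit 4096, nat_lit 8191, nat_lit 4, nat_lit 2⟩, ⟨false, nat_lit 8, nat_lit 4111, nat_lit 2, nat_lit 0⟩, ⟨true, nat_lit 1, nat_lit 4105, nat_lit 1, nat_lit 1⟩,
    ⟨false, nat_lit 512, nat_lit 5110, nat_lit 2, nat_lit 4⟩, ⟨false, nat_lit 256, nat_lit 5110, nat_lit 3, nat_lit 1⟩, ⟨true, nat_lit 4, nat_lit 4878, nat_lit 2, nat_lit 1⟩,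
    ⟨false, nat_lit 2048, nat_lit 7410, nat_lit 3, nat_lit 0⟩, ⟨false, nat_lit 128, nat_lit 7154, nat_lit 3, nat_lit 1⟩, ⟨true, nat_lit 16, nat_lit 7058, nat_lit 2, nat_lit 2⟩,
    ⟨false, nat_lit 64, nat_lit 7138, nat_lit 2, nat_lit 3⟩, ⟨true, nat_lit 32, nat_lit 7138, nat_lit 2, nat_lit 3⟩, ⟨false, nat_lit 32768, nat_lit 58370, nat_lit 2, nat_lit 0⟩,
    ⟨false, nat_lit 1024, nat_lit 39938, nat_lit 2, nat_lit 0⟩, ⟨true, nat_lit 2, nat_lit 40958, nat_lit 4, nat_lit 2⟩, ⟨false, nat_lit 16384, nat_lit 57344, nat_lit 1, nat_lit 1⟩,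
    ⟨false, nat_lit 8192, nat_lit 57344, nat_lit 1, nat_lit 1⟩]

def r66_3_10 : List Wr := [
    ⟨false, nat_lit 4096, nat_lit 8191, nat_lit 4, nat_lit 2⟩, ⟨false, nat_lit 8, nat_lit 4111, nat_lit 2, nat_lit 0⟩, ⟨true, nat_lit 1, nat_lit 4105, nat_lit 1, nat_lit 1⟩,
    ⟨false, nat_lit 512, nat_lit 5110, nat_lit 2, nat_lit 4⟩, ⟨false, nat_lit 256, nat_lit 5110, nat_lit 3, nat_lit 1⟩, ⟨true, nat_lit 4, nat_lit 4878, nat_lit 2, nat_lit 1⟩,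
    ⟨true, nat_lit 16, nat_lit 4882, nat_lit 1, nat_lit 3⟩, ⟨false, nat_lit 32768, nat_lit 60642, nat_lit 3, nat_lit 1⟩, ⟨false, nat_lit 128, nat_lit 37858, nat_lit 3, nat_lit 0⟩,
    ⟨true, nat_lit 2, nat_lit 37790, nat_lit 3, nat_lit 1⟩, ⟨false, nat_lit 2048, nat_lit 40032, nat_lit 2, nat_lit 1⟩, ⟨true, nat_lit 64, nat_lit 39904, nat_lit 2, nat_lit 3⟩,
    ⟨false, nat_lit 16384, nat_lit 58400, nat_lit 2, nat_lit 0⟩, ⟨false, nat_lit 1024, nat_lit 56352, nat_lit 2, nat_lit 1⟩, ⟨true, nat_lit 32, nat_lit 57312, nat_lit 3, nat_lit 2⟩,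
    ⟨false, nat_lit 8192, nat_lit 57344, nat_lit 1, nat_lit 1⟩]

def l66_3 : List (Nat × List Wr × Nat) := [
  (nat_lit 5, r66_3_0, nat_lit 1), (nat_lit 4, r66_3_1, nat_lit 0), (nat_lit 4, r66_3_2, nat_lit 0),
  (nat_lit 5, r66_3_3, nat_lit 1), (nat_lit 6, r66_3_4, nat_lit 0), (nat_lit 6, r66_3_5, nat_lit 0),
  (nat_lit 6, r66_3_6, nat_lit 0), (nat_lit 6, r66_3_7, nat_lit 0), (nat_lit 6, r66_3_8, nat_lit 0),
  (nat_lit 6, r66_3_9, nat_lit 0), (nat_lit 6, r66_3_10, nat_lit 0)]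

end Pool.Agent.EC4.Run
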