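import Pool.Agent.Lib.MP_ec4eff_co.R5.Dec
import Pool.Agent.Lib.MP_ec4eff_co.R5.Run.D4
import Pool.Agent.Lib.MP_ec4eff_co.R5.Run.D5

/-! Generated file (project R5): the first lune -/

namespace Pool.Agent.EC4.Run

theorem a66 : runA (l66_0 ++ (l66_1 ++ (l66_2 ++ (l66_3)))) [1, 0, 1, 1, 0, 1, 0, 0] = false := by decide +kernel

end Pool.Agent.EC4.Run
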