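import Pool.Agent.Lib.MP_ec4eff_co.R5.Srch

/-! Generated file (project R5): results of the first lune -/

namespace Pool.Agent.EC4.Run

def r46_0_0 : List Wr := [
    ⟨true, nat_lit 8, nat_lit 15, nat_lit 1, nat_lit 2⟩, ⟨false, nat_lit 64, nat_lit 119, nat_lit 2, nat_lit 1⟩, ⟨false, nat_lit 4, nat_lit 79, nat_lit 2, nat_lit 0⟩,
    ⟨true, nat_lit 1, nat_lit 77, nat_lit 1, nat_lit 2⟩, ⟨false, nat_lit 1024, nat_lit 1970, nat_lit 2, nat_lit 2⟩, ⟨false, nat_lit 32, nat_lit 1138, nat_lit 2, nat_lit 0⟩,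
    ⟨true, nat_lit 2, nat_lit 1134, nat_lit 2, nat_lit 1⟩, ⟨false, nat_lit 512, nat_lit 1936, nat_lit 2, nat_lit 0⟩, ⟨false, nat_lit 128, nat_lit 1680, nat_lit 1, nat_lit 2⟩,
    ⟨true, nat_lit 16, nat_lit 1776, nat_lit 2, nat_lit 1⟩, ⟨true, nat_lit 256, nat_lit 1792, nat_lit 1, nat_lit 1⟩, ⟨false, nat_lit 32768, nat_lit 63488, nat_lit 2, nat_lit 0⟩,
    ⟨false, nat_lit 4096, nat_lit 38912, nat_lit 1, nat_lit 1⟩, ⟨true, nat_lit 2048, nat_lit 38912, nat_lit 1, nat_lit 1⟩, ⟨false, nat_lit 16384, nat_lit 57344, nat_lit 1, nat_lit 1⟩,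
    ⟨false, nat_lit 8192, nat_lit 57344, nat_lit 1, nat_lit 1⟩]

def r46_0_1 : List Wr := [
    ⟨true, nat_lit 8, nat_lit 15, nat_lit 1, nat_lit 2⟩, ⟨false, nat_lit 64, nat_lit 119, nat_lit 2, nat_lit 1⟩, ⟨false, nat_lit 4, nat_lit 79, nat_lit 2, nat_lit 0⟩,
    ⟨true, nat_lit 1, nat_lit 77, nat_lit 1, nat_lit 2⟩, ⟨false, nat_lit 1024, nat_lit 1970, nat_lit 2, nat_lit 2⟩, ⟨false, nat_lit 32, nat_lit 1138, nat_lit 2, nat_lit 0⟩,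
    ⟨true, nat_lit 2, nat_lit 1134, nat_lit 2, nat_lit 1⟩, ⟨false, nat_lit 512, nat_lit 1936, nat_lit 2, nat_lit 0⟩, ⟨false, nat_lit 128, nat_lit 1680, nat_lit 1, nat_lit 2⟩,
    ⟨true, nat_lit 16, nat_lit 1776, nat_lit 2, nat_lit 1⟩, ⟨false, nat_lit 4096, nat_lit 6400, nat_lit 1, nat_lit 1⟩, ⟨false, nat_lit 2048, nat_lit 6400, nat_lit 1, nat_lit 1⟩,
    ⟨true, nat_lit 256, nat_lit 7936, nat_lit 2, nat_lit 0⟩, ⟨false, nat_lit 32768, nat_lit 57344, nat_lit 1, nat_lit 1⟩, ⟨false, nat_lit 16384, nat_lit 57344, nat_lit 1, nat_lit 1⟩,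
    ⟨false, nat_lit 8192, nat_lit 57344, nat_lit 1, nat_lit 1⟩]

def r46_0_2 : List Wr := [
    ⟨true, nat_lit 8, nat_lit 15, nat_lit 1, nat_lit 2⟩, ⟨false, nat_lit 64, nat_lit 119, nat_lit 2, nat_lit 1⟩, ⟨false, nat_lit 4, nat_lit 79, nat_lit 2, nat_lit 0⟩,
    ⟨true, nat_lit 1, nat_lit 77, nat_lit 1, nat_lit 2⟩, ⟨false, nat_lit 32768, nat_lit 65458, nat_lit 4, nat_lit 1⟩, ⟨false, nat_lit 32, nat_lit 32882, nat_lit 2, nat_lit 0⟩,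
    ⟨true, nat_lit 2, nat_lit 32878, nat_lit 2, nat_lit 1⟩, ⟨true, nat_lit 1024, nat_lit 34704, nat_lit 2, nat_lit 1⟩, ⟨false, nat_lit 4096, nat_lit 39824, nat_lit 2, nat_lit 2⟩,
    ⟨false, nat_lit 512, nat_lit 38800, nat_lit 2, nat_lit 2⟩, ⟨true, nat_lit 128, nat_lit 38544, nat_lit 2, nat_lit 1⟩, ⟨true, nat_lit 2048, nat_lit 39184, nat_lit 1, nat_lit 3⟩,
    ⟨false, nat_lit 16384, nat_lit 57616, nat_lit 2, nat_lit 0⟩, ⟨false, nat_lit 256, nat_lit 57104, nat_lit 3, nat_lit 0⟩, ⟨true, nat_lit 16, nat_lit 57328, nat_lit 3, nat_lit 3⟩,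
    ⟨false, nat_lit 8192, nat_lit 57344, nat_lit 1, nat_lit 1⟩]

def r46_0_3 : List Wr := [
    ⟨true, nat_lit 8, nat_lit 15, nat_lit 1, nat_lit 2⟩, ⟨false, nat_lit 64, nat_lit 119, nat_lit 2, nat_lit 1⟩, ⟨false, nat_lit 4, nat_lit 79, nat_lit 2, nat_lit 0⟩,
    ⟨true, nat_lit 1, nat_lit 77, nat_lit 1, nat_lit 2⟩, ⟨false, nat_lit 32768, nat_lit 65458, nat_lit 4, nat_lit 1⟩, ⟨false, nat_lit 32, nat_lit 32882, nat_lit 2, nat_lit 0⟩,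
    ⟨true, nat_lit 2, nat_lit 32878, nat_lit 2, nat_lit 1⟩, ⟨true, nat_lit 1024, nat_lit 34704, nat_lit 2, nat_lit 1⟩, ⟨false, nat_lit 4096, nat_lit 39824, nat_lit 2, nat_lit 2⟩,
    ⟨false, nat_lit 512, nat_lit 38800, nat_lit 2, nat_lit 2⟩, ⟨true, nat_lit 128, nat_lit 38544, nat_lit 2, nat_lit 1⟩, ⟨false, nat_lit 16384, nat_lit 59664, nat_lit 2, nat_lit 1⟩,
    ⟨false, nat_lit 2048, nat_lit 55568, nat_lit 2, nat_lit 1⟩, ⟨true, nat_lit 16, nat_lit 57072, nat_lit 3, nat_lit 2⟩, ⟨true, nat_lit 256, nat_lit 57088, nat_lit 2, nat_lit 2⟩,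
    ⟨false, nat_lit 8192, nat_lit 57344, nat_lit 1, nat_lit 1⟩]

def r46_0_4 : List Wr := [
    ⟨true, nat_lit 8, nat_lit 15, nat_lit 1, nat_lit 2⟩, ⟨false, nat_lit 64, nat_lit 119, nat_lit 2, nat_lit 1⟩, ⟨false, nat_lit 4, nat_lit 79, nat_lit 2, nat_lit 0⟩,
    ⟨true, nat_lit 1, nat_lit 77, nat_lit 1, nat_lit 2⟩, ⟨false, nat_lit 32768, nat_lit 65458, nat_lit 4, nat_lit 1⟩, ⟨false, nat_lit 32, nat_lit 32882, nat_lit 2, nat_lit 0⟩,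
    ⟨true, nat_lit 2, nat_lit 32878, nat_lit 2, nat_lit 1⟩, ⟨true, nat_lit 1024, nat_lit 34704, nat_lit 2, nat_lit 1⟩, ⟨false, nat_lit 16384, nat_lit 64400, nat_lit 3, nat_lit 1⟩,
    ⟨false, nat_lit 4096, nat_lit 56208, nat_lit 2, nat_lit 3⟩, ⟨true, nat_lit 128, nat_lit 54416, nat_lit 2, nat_lit 1⟩, ⟨false, nat_lit 2048, nat_lit 56080, nat_lit 2, nat_lit 2⟩,
    ⟨true, nat_lit 512, nat_lit 57104, nat_lit 2, nat_lit 3⟩, ⟨false, nat_lit 8192, nat_lit 57616, nat_lit 2, nat_lit 0⟩, ⟨false, nat_lit 256, nat_lit 65296, nat_lit 3, nat_lit 1⟩,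
    ⟨false, nat_lit 16, nat_lit 65520, nat_lit 4, nat_lit 1⟩]

def r46_0_5 : List Wr := [
    ⟨false, nat_lit 64, nat_lit 127, nat_lit 2, nat_lit 2⟩, ⟨false, nat_lit 8, nat_lit 79, nat_lit 2, nat_lit 0⟩, ⟨true, nat_lit 1, nat_lit 73, nat_lit 1, nat_lit 1⟩,
    ⟨false, nat_lit 1024, nat_lit 1974, nat_lit 3, nat_lit 0⟩, ⟨false, nat_lit 32, nat_lit 1142, nat_lit 2, nat_lit 1⟩, ⟨true, nat_lit 4, nat_lit 1134, nat_lit 2, nat_lit 1⟩,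
    ⟨true, nat_lit 128, nat_lit 1170, nat_lit 1, nat_lit 2⟩, ⟨false, nat_lit 32768, nat_lit 64274, nat_lit 3, nat_lit 1⟩, ⟨false, nat_lit 512, nat_lit 34578, nat_lit 2, nat_lit 1⟩,
    ⟨true, nat_lit 16, nat_lit 34546, nat_lit 3, nat_lit 0⟩, ⟨false, nat_lit 4096, nat_lit 39170, nat_lit 1, nat_lit 3⟩, ⟨true, nat_lit 256, nat_lit 38658, nat_lit 2, nat_lit 1⟩,
    ⟨false, nat_lit 16384, nat_lit 59394, nat_lit 2, nat_lit 0⟩, ⟨false, nat_lit 2048, nat_lit 55298, nat_lit 1, nat_lit 3⟩, ⟨true, nat_lit 2, nat_lit 57342, nat_lit 4, nat_lit 3⟩,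
    ⟨false, nat_lit 8192, nat_lit 57344, nat_lit 1, nat_lit 1⟩]

def r46_0_6 : List Wr := [
    ⟨false, nat_lit 64, nat_lit 127, nat_lit 2, nat_lit 2⟩, ⟨false, nat_lit 8, nat_lit 79, nat_lit 2, nat_lit 0⟩, ⟨true, nat_lit 1, nat_lit 73, nat_lit 1, nat_lit 1⟩,
    ⟨false, nat_lit 1024, nat_lit 1974, nat_lit 3, nat_lit 0⟩, ⟨false, nat_lit 32, nat_lit 1142, nat_lit 2, nat_lit 1⟩, ⟨true, nat_lit 4, nat_lit 1134, nat_lit 2, nat_lit 1⟩,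
    ⟨true, nat_lit 128, nat_lit 1170, nat_lit 1, nat_lit 2⟩, ⟨false, nat_lit 32768, nat_lit 64274, nat_lit 3, nat_lit 1⟩, ⟨false, nat_lit 512, nat_lit 34578, nat_lit 2, nat_lit 1⟩,
    ⟨true, nat_lit 16, nat_lit 34546, nat_lit 3, nat_lit 0⟩, ⟨false, nat_lit 2048, nat_lit 35074, nat_lit 1, nat_lit 2⟩, ⟨true, nat_lit 256, nat_lit 36610, nat_lit 2, nat_lit 1⟩,
    ⟨false, nat_lit 16384, nat_lit 61442, nat_lit 2, nat_lit 0⟩, ⟨false, nat_lit 4096, nat_lit 53250, nat_lit 1, nat_lit 2⟩, ⟨true, nat_lit 2, nat_lit 57342, nat_lit 4, nat_lit 3⟩,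
    ⟨false, nat_lit 8192, nat_lit 57344, nat_lit 1, nat_lit 1⟩]

def l46_0 : List (Nat × List Wr × Nat) := [
  (nat_lit 6, r46_0_0, nat_lit 0), (nat_lit 6, r46_0_1, nat_lit 0), (nat_lit 6, r46_0_2, nat_lit 0),
  (nat_lit 6, r46_0_3, nat_lit 0), (nat_lit 4, r46_0_4, nat_lit 0), (nat_lit 6, r46_0_5, nat_lit 0),
  (nat_lit 4, r46_0_6, nat_lit 0)]

def r46_1_0 : List Wr := [
    ⟨false, nat_lit 64, nat_lit 127, nat_lit 2, nat_lit 2⟩, ⟨false, nat_lit 8, nat_lit 79, nat_lit 2, nat_lit 0⟩, ⟨true, nat_lit 1, nat_lit 73, nat_lit 1, nat_lit 1⟩,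
    ⟨false, nat_lit 1024, nat_lit 1974, nat_lit 3, nat_lit 0⟩, ⟨false, nat_lit 32, nat_lit 1142, nat_lit 2, nat_lit 1⟩, ⟨true, nat_lit 4, nat_lit 1134, nat_lit 2, nat_lit 1⟩,
    ⟨false, nat_lit 128, nat_lit 1170, nat_lit 1, nat_lit 2⟩, ⟨true, nat_lit 16, nat_lit 1266, nat_lit 2, nat_lit 1⟩, ⟨false, nat_lit 2048, nat_lit 2818, nat_lit 1, nat_lit 2⟩,
    ⟨false, nat_lit 512, nat_lit 3842, nat_lit 2, nat_lit 0⟩, ⟨true, nat_lit 2, nat_lit 3838, nat_lit 3, nat_lit 2⟩, ⟨false, nat_lit 32768, nat_lit 61696, nat_lit 2, nat_lit 0⟩,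
    ⟨false, nat_lit 4096, nat_lit 37120, nat_lit 1, nat_lit 1⟩, ⟨true, nat_lit 256, nat_lit 40704, nat_lit 2, nat_lit 1⟩, ⟨false, nat_lit 16384, nat_lit 57344, nat_lit 1, nat_lit 1⟩,
    ⟨false, nat_lit 8192, nat_lit 57344, nat_lit 1, nat_lit 1⟩]

def r46_1_1 : List Wr := [
    ⟨false, nat_lit 64, nat_lit 127, nat_lit 2, nat_lit 2⟩, ⟨false, nat_lit 8, nat_lit 79, nat_lit 2, nat_lit 0⟩, ⟨true, nat_lit 1, nat_lit 73, nat_lit 1, nat_lit 1⟩,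
    ⟨false, nat_lit 1024, nat_lit 1974, nat_lit 3, nat_lit 0⟩, ⟨false, nat_lit 32, nat_lit 1142, nat_lit 2, nat_lit 1⟩, ⟨true, nat_lit 4, nat_lit 1134, nat_lit 2, nat_lit 1⟩,
    ⟨false, nat_lit 128, nat_lit 1170, nat_lit 1, nat_lit 2⟩, ⟨true, nat_lit 16, nat_lit 1266, nat_lit 2, nat_lit 1⟩, ⟨false, nat_lit 4096, nat_lit 6914, nat_lit 1, nat_lit 3⟩,
    ⟨false, nat_lit 512, nat_lit 5890, nat_lit 2, nat_lit 0⟩, ⟨true, nat_lit 2, nat_lit 5886, nat_lit 3, nat_lit 2⟩, ⟨false, nat_lit 32768, nat_lit 59648, nat_lit 2, nat_lit 0⟩,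
    ⟨false, nat_lit 2048, nat_lit 39168, nat_lit 1, nat_lit 2⟩, ⟨true, nat_lit 256, nat_lit 40704, nat_lit 2, nat_lit 1⟩, ⟨false, nat_lit 16384, nat_lit 57344, nat_lit 1, nat_lit 1⟩,
    ⟨false, nat_lit 8192, nat_lit 57344, nat_lit 1, nat_lit 1⟩]

def r46_1_2 : List Wr := [
    ⟨false, nat_lit 64, nat_lit 127, nat_lit 2, nat_lit 2⟩, ⟨false, nat_lit 8, nat_lit 79, nat_lit 2, nat_lit 0⟩, ⟨true, nat_lit 1, nat_lit 73, nat_lit 1, nat_lit 1⟩,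
    ⟨true, nat_lit 4, nat_lit 78, nat_lit 1, nat_lit 2⟩, ⟨false, nat_lit 1024, nat_lit 1970, nat_lit 2, nat_lit 2⟩, ⟨false, nat_lit 32, nat_lit 1138, nat_lit 2, nat_lit 0⟩,
    ⟨true, nat_lit 2, nat_lit 1134, nat_lit 2, nat_lit 1⟩, ⟨false, nat_lit 512, nat_lit 1936, nat_lit 2, nat_lit 0⟩, ⟨false, nat_lit 128, nat_lit 1680, nat_lit 1, nat_lit 2⟩,
    ⟨true, nat_lit 16, nat_lit 1776, nat_lit 2, nat_lit 1⟩, ⟨true, nat_lit 256, nat_lit 1792, nat_lit 1, nat_lit 1⟩, ⟨false, nat_lit 32768, nat_lit 63488, nat_lit 2, nat_lit 0⟩,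
    ⟨false, nat_lit 4096, nat_lit 38912, nat_lit 1, nat_lit 1⟩, ⟨true, nat_lit 2048, nat_lit 38912, nat_lit 1, nat_lit 1⟩, ⟨false, nat_lit 16384, nat_lit 57344, nat_lit 1, nat_lit 1⟩,
    ⟨false, nat_lit 8192, nat_lit 57344, nat_lit 1, nat_lit 1⟩]

def r46_1_3 : List Wr := [
    ⟨false, nat_lit 64, nat_lit 127, nat_lit 2, nat_lit 2⟩, ⟨false, nat_lit 8, nat_lit 79, nat_lit 2, nat_lit 0⟩, ⟨true, nat_lit 1, nat_lit 73, nat_lit 1, nat_lit 1⟩,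
    ⟨true, nat_lit 4, nat_lit 78, nat_lit 1, nat_lit 2⟩, ⟨false, nat_lit 1024, nat_lit 1970, nat_lit 2, nat_lit 2⟩, ⟨false, nat_lit 32, nat_lit 1138, nat_lit 2, nat_lit 0⟩,
    ⟨true, nat_lit 2, nat_lit 1134, nat_lit 2, nat_lit 1⟩, ⟨false, nat_lit 512, nat_lit 1936, nat_lit 2, nat_lit 0⟩, ⟨false, nat_lit 128, nat_lit 1680, nat_lit 1, nat_lit 2⟩,
    ⟨true, nat_lit 16, nat_lit 1776, nat_lit 2, nat_lit 1⟩, ⟨false, nat_lit 4096, nat_lit 6400, nat_lit 1, nat_lit 1⟩, ⟨false, nat_lit 2048, nat_lit 6400, nat_lit 1, nat_lit 1⟩,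
    ⟨true, nat_lit 256, nat_lit 7936, nat_lit 2, nat_lit 0⟩, ⟨false, nat_lit 32768, nat_lit 57344, nat_lit 1, nat_lit 1⟩, ⟨false, nat_lit 16384, nat_lit 57344, nat_lit 1, nat_lit 1⟩,
    ⟨false, nat_lit 8192, nat_lit 57344, nat_lit 1, nat_lit 1⟩]

def r46_1_4 : List Wr := [
    ⟨false, nat_lit 64, nat_lit 127, nat_lit 2, nat_lit 2⟩, ⟨false, nat_lit 8, nat_lit 79, nat_lit 2, nat_lit 0⟩, ⟨true, nat_lit 1, nat_lit 73, nat_lit 1, nat_lit 1⟩,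
    ⟨true, nat_lit 4, nat_lit 78, nat_lit 1, nat_lit 2⟩, ⟨false, nat_lit 32768, nat_lit 65458, nat_lit 4, nat_lit 1⟩, ⟨false, nat_lit 32, nat_lit 32882, nat_lit 2, nat_lit 0⟩,
    ⟨true, nat_lit 2, nat_lit 32878, nat_lit 2, nat_lit 1⟩, ⟨true, nat_lit 1024, nat_lit 34704, nat_lit 2, nat_lit 1⟩, ⟨false, nat_lit 4096, nat_lit 39824, nat_lit 2, nat_lit 2⟩,
    ⟨false, nat_lit 512, nat_lit 38800, nat_lit 2, nat_lit 2⟩, ⟨true, nat_lit 128, nat_lit 38544, nat_lit 2, nat_lit 1⟩, ⟨true, nat_lit 2048, nat_lit 39184, nat_lit 1, nat_lit 3⟩,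
    ⟨false, nat_lit 16384, nat_lit 57616, nat_lit 2, nat_lit 0⟩, ⟨false, nat_lit 256, nat_lit 57104, nat_lit 3, nat_lit 0⟩, ⟨true, nat_lit 16, nat_lit 57328, nat_lit 3, nat_lit 3⟩,
    ⟨false, nat_lit 8192, nat_lit 57344, nat_lit 1, nat_lit 1⟩]

def r46_1_5 : List Wr := [
    ⟨false, nat_lit 64, nat_lit 127, nat_lit 2, nat_lit 2⟩, ⟨false, nat_lit 8, nat_lit 79, nat_lit 2, nat_lit 0⟩, ⟨true, nat_lit 1, nat_lit 73, nat_lit 1, nat_lit 1⟩,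
    ⟨true, nat_lit 4, nat_lit 78, nat_lit 1, nat_lit 2⟩, ⟨false, nat_lit 32768, nat_lit 65458, nat_lit 4, nat_lit 1⟩, ⟨false, nat_lit 32, nat_lit 32882, nat_lit 2, nat_lit 0⟩,
    ⟨true, nat_lit 2, nat_lit 32878, nat_lit 2, nat_lit 1⟩, ⟨true, nat_lit 1024, nat_lit 34704, nat_lit 2, nat_lit 1⟩, ⟨false, nat_lit 4096, nat_lit 39824, nat_lit 2, nat_lit 2⟩,
    ⟨false, nat_lit 512, nat_lit 38800, nat_lit 2, nat_lit 2⟩, ⟨true, nat_lit 128, nat_lit 38544, nat_lit 2, nat_lit 1⟩, ⟨false, nat_lit 16384, nat_lit 59664, nat_lit 2, nat_lit 1⟩,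
    ⟨false, nat_lit 2048, nat_lit 55568, nat_lit 2, nat_lit 1⟩, ⟨true, nat_lit 16, nat_lit 57072, nat_lit 3, nat_lit 2⟩, ⟨true, nat_lit 256, nat_lit 57088, nat_lit 2, nat_lit 2⟩,
    ⟨false, nat_lit 8192, nat_lit 57344, nat_lit 1, nat_lit 1⟩]

def r46_1_6 : List Wr := [
    ⟨false, nat_lit 64, nat_lit 127, nat_lit 2, nat_lit 2⟩, ⟨false, nat_lit 8, nat_lit 79, nat_lit 2, nat_lit 0⟩, ⟨true, nat_lit 1, nat_lit 73, nat_lit 1, nat_lit 1⟩,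
    ⟨true, nat_lit 4, nat_lit 78, nat_lit 1, nat_lit 2⟩, ⟨false, nat_lit 32768, nat_lit 65458, nat_lit 4, nat_lit 1⟩, ⟨false, nat_lit 32, nat_lit 32882, nat_lit 2, nat_lit 0⟩,
    ⟨true, nat_lit 2, nat_lit 32878, nat_lit 2, nat_lit 1⟩, ⟨true, nat_lit 1024, nat_lit 34704, nat_lit 2, nat_lit 1⟩, ⟨false, nat_lit 16384, nat_lit 64400, nat_lit 3, nat_lit 1⟩,
    ⟨false, nat_lit 4096, nat_lit 56208, nat_lit 2, nat_lit 3⟩, ⟨true, nat_lit 128, nat_lit 54416, nat_lit 2, nat_lit 1⟩, ⟨false, nat_lit 2048, nat_lit 56080, nat_lit 2, nat_lit 2⟩,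
    ⟨true, nat_lit 512, nat_lit 57104, nat_lit 2, nat_lit 3⟩, ⟨false, nat_lit 8192, nat_lit 57616, nat_lit 2, nat_lit 0⟩, ⟨false, nat_lit 256, nat_lit 65296, nat_lit 3, nat_lit 1⟩,
    ⟨false, nat_lit 16, nat_lit 65520, nat_lit 4, nat_lit 1⟩]

def r46_1_7 : List Wr := [
    ⟨false, nat_lit 1024, nat_lit 2047, nat_lit 3, nat_lit 3⟩, ⟨false, nat_lit 8, nat_lit 1039, nat_lit 2, nat_lit 0⟩, ⟨true, nat_lit 1, nat_lit 1033, nat_lit 1, nat_lit 1⟩,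
    ⟨false, nat_lit 128, nat_lit 1270, nat_lit 2, nat_lit 2⟩, ⟨false, nat_lit 64, nat_lit 1270, nat_lit 2, nat_lit 2⟩, ⟨true, nat_lit 4, nat_lit 1230, nat_lit 2, nat_lit 1⟩,
    ⟨true, nat_lit 32, nat_lit 1266, nat_lit 2, nat_lit 1⟩, ⟨false, nat_lit 512, nat_lit 1810, nat_lit 2, nat_lit 0⟩, ⟨false, nat_lit 16, nat_lit 1778, nat_lit 2, nat_lit 2⟩,
    ⟨true, nat_lit 2, nat_lit 1790, nat_lit 3, nat_lit 1⟩, ⟨true, nat_lit 256, nat_lit 1792, nat_lit 1, nat_lit 1⟩, ⟨false, nat_lit 32768, nat_lit 63488, nat_lit 2, nat_lit 0⟩,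
    ⟨false, nat_lit 4096, nat_lit 38912, nat_lit 1, nat_lit 1⟩, ⟨true, nat_lit 2048, nat_lit 38912, nat_lit 1, nat_lit 1⟩, ⟨false, nat_lit 16384, nat_lit 57344, nat_lit 1, nat_lit 1⟩,
    ⟨false, nat_lit 8192, nat_lit 57344, nat_lit 1, nat_lit 1⟩]

def r46_1_8 : List Wr := [
    ⟨false, nat_lit 1024, nat_lit 2047, nat_lit 3, nat_lit 3⟩, ⟨false, nat_lit 8, nat_lit 1039, nat_lit 2, nat_lit 0⟩, ⟨true, nat_lit 1, nat_lit 1033, nat_lit 1, nat_lit 1⟩,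
    ⟨false, nat_lit 128, nat_lit 1270, nat_lit 2, nat_lit 2⟩, ⟨false, nat_lit 64, nat_lit 1270, nat_lit 2, nat_lit 2⟩, ⟨true, nat_lit 4, nat_lit 1230, nat_lit 2, nat_lit 1⟩,
    ⟨true, nat_lit 32, nat_lit 1266, nat_lit 2, nat_lit 1⟩, ⟨false, nat_lit 512, nat_lit 1810, nat_lit 2, nat_lit 0⟩, ⟨false, nat_lit 16, nat_lit 1778, nat_lit 2, nat_lit 2⟩,
    ⟨true, nat_lit 2, nat_lit 1790, nat_lit 3, nat_lit 1⟩, ⟨false, nat_lit 4096, nat_lit 6400, nat_lit 1, nat_lit 1⟩, ⟨false, nat_lit 2048, nat_lit 6400, nat_lit 1, nat_lit 1⟩,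
    ⟨true, nat_lit 256, nat_lit 7936, nat_lit 2, nat_lit 0⟩, ⟨false, nat_lit 32768, nat_lit 57344, nat_lit 1, nat_lit 1⟩, ⟨false, nat_lit 16384, nat_lit 57344, nat_lit 1, nat_lit 1⟩,
    ⟨false, nat_lit 8192, nat_lit 57344, nat_lit 1, nat_lit 1⟩]

def r46_1_9 : List Wr := [
    ⟨false, nat_lit 32768, nat_lit 65535, nat_lit 5, nat_lit 2⟩, ⟨false, nat_lit 8, nat_lit 32783, nat_lit 2, nat_lit 0⟩, ⟨true, nat_lit 1, nat_lit 32777, nat_lit 1, nat_lit 1⟩,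
    ⟨true, nat_lit 1024, nat_lit 34806, nat_lit 3, nat_lit 2⟩, ⟨false, nat_lit 4096, nat_lit 39926, nat_lit 3, nat_lit 3⟩, ⟨false, nat_lit 128, nat_lit 38134, nat_lit 2, nat_lit 4⟩,
    ⟨true, nat_lit 64, nat_lit 38134, nat_lit 3, nat_lit 1⟩, ⟨false, nat_lit 512, nat_lit 38710, nat_lit 3, nat_lit 1⟩, ⟨true, nat_lit 32, nat_lit 38646, nat_lit 3, nat_lit 2⟩,
    ⟨false, nat_lit 2048, nat_lit 39190, nat_lit 2, nat_lit 2⟩, ⟨false, nat_lit 16, nat_lit 40694, nat_lit 3, nat_lit 3⟩, ⟨true, nat_lit 4, nat_lit 40702, nat_lit 4, nat_lit 1⟩,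
    ⟨false, nat_lit 16384, nat_lit 57602, nat_lit 2, nat_lit 0⟩, ⟨false, nat_lit 256, nat_lit 57090, nat_lit 3, nat_lit 0⟩, ⟨true, nat_lit 2, nat_lit 57342, nat_lit 4, nat_lit 3⟩,
    ⟨false, nat_lit 8192, nat_lit 57344, nat_lit 1, nat_lit 1⟩]

def r46_1_10 : List Wr := [
    ⟨true, nat_lit 1, nat_lit 1, nat_lit 0, nat_lit 2⟩, ⟨true, nat_lit 8, nat_lit 14, nat_lit 1, nat_lit 1⟩, ⟨false, nat_lit 32768, nat_lit 65526, nat_lit 4, nat_lit 3⟩,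
    ⟨false, nat_lit 64, nat_lit 32886, nat_lit 2, nat_lit 1⟩, ⟨true, nat_lit 4, nat_lit 32846, nat_lit 2, nat_lit 0⟩, ⟨false, nat_lit 1024, nat_lit 34738, nat_lit 3, nat_lit 0⟩,
    ⟨false, nat_lit 32, nat_lit 33906, nat_lit 2, nat_lit 1⟩, ⟨true, nat_lit 2, nat_lit 33902, nat_lit 2, nat_lit 2⟩, ⟨false, nat_lit 16384, nat_lit 64400, nat_lit 3, nat_lit 1⟩,
    ⟨false, nat_lit 4096, nat_lit 56208, nat_lit 2, nat_lit 3⟩, ⟨true, nat_lit 128, nat_lit 54416, nat_lit 2, nat_lit 1⟩, ⟨false, nat_lit 2048, nat_lit 56080, nat_lit 2, nat_lit 2⟩,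
    ⟨true, nat_lit 512, nat_lit 57104, nat_lit 2, nat_lit 3⟩, ⟨false, nat_lit 8192, nat_lit 57616, nat_lit 2, nat_lit 0⟩, ⟨false, nat_lit 256, nat_lit 65296, nat_lit 3, nat_lit 1⟩,
    ⟨false, nat_lit 16, nat_lit 65520, nat_lit 4, nat_lit 1⟩]

def r46_1_11 : List Wr := [
    ⟨true, nat_lit 1, nat_lit 1, nat_lit 0, nat_lit 2⟩, ⟨false, nat_lit 8, nat_lit 14, nat_lit 1, nat_lit 1⟩, ⟨true, nat_lit 4, nat_lit 14, nat_lit 1, nat_lit 1⟩,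
    ⟨false, nat_lit 32768, nat_lit 65522, nat_lit 4, nat_lit 2⟩, ⟨false, nat_lit 64, nat_lit 32882, nat_lit 2, nat_lit 0⟩, ⟨true, nat_lit 2, nat_lit 32846, nat_lit 2, nat_lit 0⟩,
    ⟨false, nat_lit 16384, nat_lit 65456, nat_lit 3, nat_lit 3⟩, ⟨false, nat_lit 1024, nat_lit 51120, nat_lit 3, nat_lit 0⟩, ⟨true, nat_lit 32, nat_lit 50288, nat_lit 2, nat_lit 1⟩,
    ⟨false, nat_lit 4096, nat_lit 56208, nat_lit 2, nat_lit 3⟩, ⟨false, nat_lit 2048, nat_lit 56208, nat_lit 2, nat_lit 3⟩, ⟨false, nat_lit 512, nat_lit 57232, nat_lit 3, nat_lit 1⟩,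
    ⟨true, nat_lit 128, nat_lit 56976, nat_lit 2, nat_lit 3⟩, ⟨false, nat_lit 8192, nat_lit 57616, nat_lit 2, nat_lit 0⟩, ⟨false, nat_lit 256, nat_lit 65296, nat_lit 3, nat_lit 1⟩,
    ⟨false, nat_lit 16, nat_lit 65520, nat_lit 4, nat_lit 1⟩]

def l46_1 : List (Nat × List Wr × Nat) := [
  (nat_lit 4, r46_1_0, nat_lit 0), (nat_lit 6, r46_1_1, nat_lit 0), (nat_lit 6, r46_1_2, nat_lit 0),
  (nat_lit 6, r46_1_3, nat_lit 0), (nat_lit 6, r46_1_4, nat_lit 0), (nat_lit 6, r46_1_5, nat_lit 0),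
  (nat_lit 4, r46_1_6, nat_lit 0), (nat_lit 6, r46_1_7, nat_lit 0), (nat_lit 6, r46_1_8, nat_lit 0),
  (nat_lit 6, r46_1_9, nat_lit 0), (nat_lit 6, r46_1_10, nat_lit 0), (nat_lit 6, r46_1_11, nat_lit 0)]

end Pool.Agent.EC4.Run
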