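import Pool.Agent.Lib.MP_ec4eff_co.R5.Srch

/-! Generated file (project R5): results of the first lune -/

namespace Pool.Agent.EC4.Run

def r62_0_0 : List Wr := [
    ⟨true, nat_lit 8, nat_lit 15, nat_lit 1, nat_lit 2⟩, ⟨false, nat_lit 16, nat_lit 23, nat_lit 1, nat_lit 2⟩, ⟨false, nat_lit 4, nat_lit 31, nat_lit 2, nat_lit 0⟩,
    ⟨true, nat_lit 1, nat_lit 29, nat_lit 1, nat_lit 2⟩, ⟨false, nat_lit 4096, nat_lit 8162, nat_lit 3, nat_lit 1⟩, ⟨false, nat_lit 128, nat_lit 4322, nat_lit 2, nat_lit 0⟩,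
    ⟨true, nat_lit 2, nat_lit 4254, nat_lit 2, nat_lit 1⟩, ⟨true, nat_lit 512, nat_lit 4960, nat_lit 1, nat_lit 3⟩, ⟨false, nat_lit 2048, nat_lit 7520, nat_lit 2, nat_lit 1⟩,
    ⟨false, nat_lit 256, nat_lit 7008, nat_lit 2, nat_lit 1⟩, ⟨true, nat_lit 64, nat_lit 7136, nat_lit 2, nat_lit 2⟩, ⟨false, nat_lit 32768, nat_lit 58400, nat_lit 2, nat_lit 0⟩,
    ⟨false, nat_lit 1024, nat_lit 39968, nat_lit 2, nat_lit 0⟩, ⟨true, nat_lit 32, nat_lit 40928, nat_lit 3, nat_lit 1⟩, ⟨false, nat_lit 16384, nat_lit 57344, nat_lit 1, nat_lit 1⟩,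
    ⟨false, nat_lit 8192, nat_lit 57344, nat_lit 1, nat_lit 1⟩]

def r62_0_1 : List Wr := [
    ⟨true, nat_lit 8, nat_lit 15, nat_lit 1, nat_lit 2⟩, ⟨false, nat_lit 16, nat_lit 23, nat_lit 1, nat_lit 2⟩, ⟨false, nat_lit 4, nat_lit 31, nat_lit 2, nat_lit 0⟩,
    ⟨true, nat_lit 1, nat_lit 29, nat_lit 1, nat_lit 2⟩, ⟨false, nat_lit 4096, nat_lit 8162, nat_lit 3, nat_lit 1⟩, ⟨false, nat_lit 128, nat_lit 4322, nat_lit 2, nat_lit 0⟩,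
    ⟨true, nat_lit 2, nat_lit 4254, nat_lit 2, nat_lit 1⟩, ⟨false, nat_lit 2048, nat_lit 8032, nat_lit 2, nat_lit 2⟩, ⟨false, nat_lit 512, nat_lit 7008, nat_lit 2, nat_lit 1⟩,
    ⟨true, nat_lit 64, nat_lit 6880, nat_lit 2, nat_lit 1⟩, ⟨true, nat_lit 256, nat_lit 6944, nat_lit 1, nat_lit 3⟩, ⟨false, nat_lit 32768, nat_lit 58400, nat_lit 2, nat_lit 0⟩,
    ⟨false, nat_lit 1024, nat_lit 39968, nat_lit 2, nat_lit 0⟩, ⟨true, nat_lit 32, nat_lit 40928, nat_lit 3, nat_lit 1⟩, ⟨false, nat_lit 16384, nat_lit 57344, nat_lit 1, nat_lit 1⟩,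
    ⟨false, nat_lit 8192, nat_lit 57344, nat_lit 1, nat_lit 1⟩]

def r62_0_2 : List Wr := [
    ⟨true, nat_lit 8, nat_lit 15, nat_lit 1, nat_lit 2⟩, ⟨false, nat_lit 4096, nat_lit 8183, nat_lit 4, nat_lit 1⟩, ⟨false, nat_lit 4, nat_lit 4111, nat_lit 2, nat_lit 0⟩,
    ⟨true, nat_lit 1, nat_lit 4109, nat_lit 1, nat_lit 2⟩, ⟨true, nat_lit 128, nat_lit 4338, nat_lit 2, nat_lit 1⟩, ⟨false, nat_lit 512, nat_lit 4978, nat_lit 2, nat_lit 2⟩,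
    ⟨false, nat_lit 64, nat_lit 4850, nat_lit 2, nat_lit 2⟩, ⟨true, nat_lit 16, nat_lit 4818, nat_lit 2, nat_lit 1⟩, ⟨false, nat_lit 2048, nat_lit 7458, nat_lit 2, nat_lit 1⟩,
    ⟨false, nat_lit 256, nat_lit 6946, nat_lit 2, nat_lit 1⟩, ⟨true, nat_lit 2, nat_lit 7134, nat_lit 3, nat_lit 2⟩, ⟨false, nat_lit 32768, nat_lit 58400, nat_lit 2, nat_lit 0⟩,
    ⟨false, nat_lit 1024, nat_lit 39968, nat_lit 2, nat_lit 0⟩, ⟨true, nat_lit 32, nat_lit 40928, nat_lit 3, nat_lit 1⟩, ⟨false, nat_lit 16384, nat_lit 57344, nat_lit 1, nat_lit 1⟩,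
    ⟨false, nat_lit 8192, nat_lit 57344, nat_lit 1, nat_lit 1⟩]

def r62_0_3 : List Wr := [
    ⟨true, nat_lit 8, nat_lit 15, nat_lit 1, nat_lit 2⟩, ⟨false, nat_lit 4096, nat_lit 8183, nat_lit 4, nat_lit 1⟩, ⟨false, nat_lit 4, nat_lit 4111, nat_lit 2, nat_lit 0⟩,
    ⟨true, nat_lit 1, nat_lit 4109, nat_lit 1, nat_lit 2⟩, ⟨false, nat_lit 128, nat_lit 4338, nat_lit 2, nat_lit 1⟩, ⟨true, nat_lit 16, nat_lit 4242, nat_lit 1, nat_lit 2⟩,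
    ⟨false, nat_lit 512, nat_lit 4962, nat_lit 2, nat_lit 1⟩, ⟨false, nat_lit 64, nat_lit 4834, nat_lit 2, nat_lit 1⟩, ⟨true, nat_lit 2, nat_lit 4830, nat_lit 3, nat_lit 0⟩,
    ⟨false, nat_lit 32768, nat_lit 60704, nat_lit 2, nat_lit 2⟩, ⟨false, nat_lit 2048, nat_lit 40224, nat_lit 2, nat_lit 1⟩, ⟨true, nat_lit 256, nat_lit 39712, nat_lit 2, nat_lit 1⟩,
    ⟨false, nat_lit 16384, nat_lit 58400, nat_lit 2, nat_lit 0⟩, ⟨false, nat_lit 1024, nat_lit 56352, nat_lit 2, nat_lit 1⟩, ⟨true, nat_lit 32, nat_lit 57312, nat_lit 3, nat_lit 2⟩,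
    ⟨false, nat_lit 8192, nat_lit 57344, nat_lit 1, nat_lit 1⟩]

def r62_0_4 : List Wr := [
    ⟨false, nat_lit 16, nat_lit 31, nat_lit 1, nat_lit 3⟩, ⟨false, nat_lit 8, nat_lit 31, nat_lit 2, nat_lit 0⟩, ⟨true, nat_lit 1, nat_lit 25, nat_lit 1, nat_lit 1⟩,
    ⟨true, nat_lit 4, nat_lit 30, nat_lit 1, nat_lit 2⟩, ⟨false, nat_lit 4096, nat_lit 8162, nat_lit 3, nat_lit 1⟩, ⟨false, nat_lit 128, nat_lit 4322, nat_lit 2, nat_lit 0⟩,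
    ⟨true, nat_lit 2, nat_lit 4254, nat_lit 2, nat_lit 1⟩, ⟨true, nat_lit 512, nat_lit 4960, nat_lit 1, nat_lit 3⟩, ⟨false, nat_lit 2048, nat_lit 7520, nat_lit 2, nat_lit 1⟩,
    ⟨false, nat_lit 256, nat_lit 7008, nat_lit 2, nat_lit 1⟩, ⟨true, nat_lit 64, nat_lit 7136, nat_lit 2, nat_lit 2⟩, ⟨false, nat_lit 32768, nat_lit 58400, nat_lit 2, nat_lit 0⟩,
    ⟨false, nat_lit 1024, nat_lit 39968, nat_lit 2, nat_lit 0⟩, ⟨true, nat_lit 32, nat_lit 40928, nat_lit 3, nat_lit 1⟩, ⟨false, nat_lit 16384, nat_lit 57344, nat_lit 1, nat_lit 1⟩,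
    ⟨false, nat_lit 8192, nat_lit 57344, nat_lit 1, nat_lit 1⟩]

def r62_0_5 : List Wr := [
    ⟨false, nat_lit 16, nat_lit 31, nat_lit 1, nat_lit 3⟩, ⟨false, nat_lit 8, nat_lit 31, nat_lit 2, nat_lit 0⟩, ⟨true, nat_lit 1, nat_lit 25, nat_lit 1, nat_lit 1⟩,
    ⟨true, nat_lit 4, nat_lit 30, nat_lit 1, nat_lit 2⟩, ⟨false, nat_lit 4096, nat_lit 8162, nat_lit 3, nat_lit 1⟩, ⟨false, nat_lit 128, nat_lit 4322, nat_lit 2, nat_lit 0⟩,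
    ⟨true, nat_lit 2, nat_lit 4254, nat_lit 2, nat_lit 1⟩, ⟨false, nat_lit 2048, nat_lit 8032, nat_lit 2, nat_lit 2⟩, ⟨false, nat_lit 512, nat_lit 7008, nat_lit 2, nat_lit 1⟩,
    ⟨true, nat_lit 64, nat_lit 6880, nat_lit 2, nat_lit 1⟩, ⟨true, nat_lit 256, nat_lit 6944, nat_lit 1, nat_lit 3⟩, ⟨false, nat_lit 32768, nat_lit 58400, nat_lit 2, nat_lit 0⟩,
    ⟨false, nat_lit 1024, nat_lit 39968, nat_lit 2, nat_lit 0⟩, ⟨true, nat_lit 32, nat_lit 40928, nat_lit 3, nat_lit 1⟩, ⟨false, nat_lit 16384, nat_lit 57344, nat_lit 1, nat_lit 1⟩,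
    ⟨false, nat_lit 8192, nat_lit 57344, nat_lit 1, nat_lit 1⟩]

def r62_0_6 : List Wr := [
    ⟨true, nat_lit 1, nat_lit 1, nat_lit 0, nat_lit 2⟩, ⟨true, nat_lit 8, nat_lit 14, nat_lit 1, nat_lit 1⟩, ⟨false, nat_lit 128, nat_lit 246, nat_lit 2, nat_lit 1⟩,
    ⟨false, nat_lit 16, nat_lit 150, nat_lit 1, nat_lit 2⟩, ⟨true, nat_lit 4, nat_lit 158, nat_lit 2, nat_lit 0⟩, ⟨false, nat_lit 4096, nat_lit 8034, nat_lit 3, nat_lit 0⟩,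
    ⟨false, nat_lit 64, nat_lit 4322, nat_lit 2, nat_lit 0⟩, ⟨true, nat_lit 2, nat_lit 4318, nat_lit 2, nat_lit 2⟩, ⟨true, nat_lit 512, nat_lit 4896, nat_lit 1, nat_lit 2⟩,
    ⟨false, nat_lit 32768, nat_lit 60704, nat_lit 2, nat_lit 2⟩, ⟨false, nat_lit 2048, nat_lit 40224, nat_lit 2, nat_lit 1⟩, ⟨true, nat_lit 256, nat_lit 39712, nat_lit 2, nat_lit 1⟩,
    ⟨false, nat_lit 16384, nat_lit 58400, nat_lit 2, nat_lit 0⟩, ⟨false, nat_lit 1024, nat_lit 56352, nat_lit 2, nat_lit 1⟩, ⟨true, nat_lit 32, nat_lit 57312, nat_lit 3, nat_lit 2⟩,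
    ⟨false, nat_lit 8192, nat_lit 57344, nat_lit 1, nat_lit 1⟩]

def r62_0_7 : List Wr := [
    ⟨false, nat_lit 4096, nat_lit 8191, nat_lit 4, nat_lit 2⟩, ⟨false, nat_lit 8, nat_lit 4111, nat_lit 2, nat_lit 0⟩, ⟨true, nat_lit 1, nat_lit 4105, nat_lit 1, nat_lit 1⟩,
    ⟨false, nat_lit 256, nat_lit 4598, nat_lit 2, nat_lit 3⟩, ⟨true, nat_lit 128, nat_lit 4598, nat_lit 2, nat_lit 3⟩, ⟨false, nat_lit 512, nat_lit 4726, nat_lit 2, nat_lit 2⟩,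
    ⟨false, nat_lit 64, nat_lit 5110, nat_lit 3, nat_lit 1⟩, ⟨true, nat_lit 4, nat_lit 5070, nat_lit 3, nat_lit 0⟩, ⟨false, nat_lit 2048, nat_lit 7218, nat_lit 2, nat_lit 1⟩,
    ⟨false, nat_lit 32, nat_lit 7154, nat_lit 3, nat_lit 1⟩, ⟨true, nat_lit 16, nat_lit 7154, nat_lit 2, nat_lit 4⟩, ⟨false, nat_lit 32768, nat_lit 58370, nat_lit 2, nat_lit 0⟩,
    ⟨false, nat_lit 1024, nat_lit 39938, nat_lit 2, nat_lit 0⟩, ⟨true, nat_lit 2, nat_lit 40958, nat_lit 4, nat_lit 2⟩, ⟨false, nat_lit 16384, nat_lit 57344, nat_lit 1, nat_lit 1⟩,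
    ⟨false, nat_lit 8192, nat_lit 57344, nat_lit 1, nat_lit 1⟩]

def r62_0_8 : List Wr := [
    ⟨false, nat_lit 4096, nat_lit 8191, nat_lit 4, nat_lit 2⟩, ⟨false, nat_lit 8, nat_lit 4111, nat_lit 2, nat_lit 0⟩, ⟨true, nat_lit 1, nat_lit 4105, nat_lit 1, nat_lit 1⟩,
    ⟨false, nat_lit 128, nat_lit 4342, nat_lit 2, nat_lit 2⟩, ⟨true, nat_lit 4, nat_lit 4238, nat_lit 1, nat_lit 3⟩, ⟨false, nat_lit 512, nat_lit 4978, nat_lit 2, nat_lit 2⟩,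
    ⟨false, nat_lit 64, nat_lit 4850, nat_lit 2, nat_lit 2⟩, ⟨true, nat_lit 16, nat_lit 4818, nat_lit 2, nat_lit 1⟩, ⟨false, nat_lit 2048, nat_lit 7458, nat_lit 2, nat_lit 1⟩,
    ⟨false, nat_lit 256, nat_lit 6946, nat_lit 2, nat_lit 1⟩, ⟨true, nat_lit 2, nat_lit 7134, nat_lit 3, nat_lit 2⟩, ⟨false, nat_lit 32768, nat_lit 58400, nat_lit 2, nat_lit 0⟩,
    ⟨false, nat_lit 1024, nat_lit 39968, nat_lit 2, nat_lit 0⟩, ⟨true, nat_lit 32, nat_lit 40928, nat_lit 3, nat_lit 1⟩, ⟨false, nat_lit 16384, nat_lit 57344, nat_lit 1, nat_lit 1⟩,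
    ⟨false, nat_lit 8192, nat_lit 57344, nat_lit 1, nat_lit 1⟩]

def r62_0_9 : List Wr := [
    ⟨false, nat_lit 4096, nat_lit 8191, nat_lit 4, nat_lit 2⟩, ⟨false, nat_lit 8, nat_lit 4111, nat_lit 2, nat_lit 0⟩, ⟨true, nat_lit 1, nat_lit 4105, nat_lit 1, nat_lit 1⟩,
    ⟨false, nat_lit 128, nat_lit 4342, nat_lit 2, nat_lit 2⟩, ⟨false, nat_lit 64, nat_lit 4342, nat_lit 2, nat_lit 2⟩, ⟨false, nat_lit 16, nat_lit 4310, nat_lit 2, nat_lit 1⟩,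
    ⟨true, nat_lit 4, nat_lit 4318, nat_lit 2, nat_lit 2⟩, ⟨true, nat_lit 512, nat_lit 4898, nat_lit 1, nat_lit 3⟩, ⟨false, nat_lit 2048, nat_lit 7458, nat_lit 2, nat_lit 1⟩,
    ⟨false, nat_lit 256, nat_lit 6946, nat_lit 2, nat_lit 1⟩, ⟨true, nat_lit 2, nat_lit 7134, nat_lit 3, nat_lit 2⟩, ⟨false, nat_lit 32768, nat_lit 58400, nat_lit 2, nat_lit 0⟩,
    ⟨false, nat_lit 1024, nat_lit 39968, nat_lit 2, nat_lit 0⟩, ⟨true, nat_lit 32, nat_lit 40928, nat_lit 3, nat_lit 1⟩, ⟨false, nat_lit 16384, nat_lit 57344, nat_lit 1, nat_lit 1⟩,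
    ⟨false, nat_lit 8192, nat_lit 57344, nat_lit 1, nat_lit 1⟩]

def r62_0_10 : List Wr := [
    ⟨false, nat_lit 4096, nat_lit 8191, nat_lit 4, nat_lit 2⟩, ⟨false, nat_lit 8, nat_lit 4111, nat_lit 2, nat_lit 0⟩, ⟨true, nat_lit 1, nat_lit 4105, nat_lit 1, nat_lit 1⟩,
    ⟨false, nat_lit 128, nat_lit 4342, nat_lit 2, nat_lit 2⟩, ⟨false, nat_lit 64, nat_lit 4342, nat_lit 2, nat_lit 2⟩, ⟨false, nat_lit 16, nat_lit 4310, nat_lit 2, nat_lit 1⟩,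
    ⟨true, nat_lit 4, nat_lit 4318, nat_lit 2, nat_lit 2⟩, ⟨false, nat_lit 2048, nat_lit 7970, nat_lit 2, nat_lit 2⟩, ⟨false, nat_lit 512, nat_lit 6946, nat_lit 2, nat_lit 1⟩,
    ⟨true, nat_lit 2, nat_lit 6878, nat_lit 3, nat_lit 1⟩, ⟨true, nat_lit 256, nat_lit 6944, nat_lit 1, nat_lit 3⟩, ⟨false, nat_lit 32768, nat_lit 58400, nat_lit 2, nat_lit 0⟩,
    ⟨false, nat_lit 1024, nat_lit 39968, nat_lit 2, nat_lit 0⟩, ⟨true, nat_lit 32, nat_lit 40928, nat_lit 3, nat_lit 1⟩, ⟨false, nat_lit 16384, nat_lit 57344, nat_lit 1, nat_lit 1⟩,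
    ⟨false, nat_lit 8192, nat_lit 57344, nat_lit 1, nat_lit 1⟩]

def r62_0_11 : List Wr := [
    ⟨false, nat_lit 4096, nat_lit 8191, nat_lit 4, nat_lit 2⟩, ⟨false, nat_lit 8, nat_lit 4111, nat_lit 2, nat_lit 0⟩, ⟨true, nat_lit 1, nat_lit 4105, nat_lit 1, nat_lit 1⟩,
    ⟨true, nat_lit 128, nat_lit 4342, nat_lit 2, nat_lit 2⟩, ⟨false, nat_lit 512, nat_lit 4982, nat_lit 2, nat_lit 3⟩, ⟨false, nat_lit 16, nat_lit 4758, nat_lit 2, nat_lit 1⟩,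
    ⟨false, nat_lit 4, nat_lit 4766, nat_lit 2, nat_lit 2⟩, ⟨true, nat_lit 2, nat_lit 4766, nat_lit 2, nat_lit 2⟩, ⟨false, nat_lit 2048, nat_lit 7520, nat_lit 2, nat_lit 1⟩,
    ⟨false, nat_lit 256, nat_lit 7008, nat_lit 2, nat_lit 1⟩, ⟨true, nat_lit 64, nat_lit 7136, nat_lit 2, nat_lit 2⟩, ⟨false, nat_lit 32768, nat_lit 58400, nat_lit 2, nat_lit 0⟩,
    ⟨false, nat_lit 1024, nat_lit 39968, nat_lit 2, nat_lit 0⟩, ⟨true, nat_lit 32, nat_lit 40928, nat_lit 3, nat_lit 1⟩, ⟨false, nat_lit 16384, nat_lit 57344, nat_lit 1, nat_lit 1⟩,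
    ⟨false, nat_lit 8192, nat_lit 57344, nat_lit 1, nat_lit 1⟩]

def r62_0_12 : List Wr := [
    ⟨false, nat_lit 4096, nat_lit 8191, nat_lit 4, nat_lit 2⟩, ⟨false, nat_lit 8, nat_lit 4111, nat_lit 2, nat_lit 0⟩, ⟨true, nat_lit 1, nat_lit 4105, nat_lit 1, nat_lit 1⟩,
    ⟨true, nat_lit 128, nat_lit 4342, nat_lit 2, nat_lit 2⟩, ⟨false, nat_lit 512, nat_lit 4982, nat_lit 2, nat_lit 3⟩, ⟨false, nat_lit 16, nat_lit 4758, nat_lit 2, nat_lit 1⟩,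
    ⟨true, nat_lit 4, nat_lit 4766, nat_lit 2, nat_lit 2⟩, ⟨false, nat_lit 256, nat_lit 4962, nat_lit 2, nat_lit 1⟩, ⟨false, nat_lit 64, nat_lit 5090, nat_lit 2, nat_lit 2⟩,
    ⟨true, nat_lit 2, nat_lit 5086, nat_lit 3, nat_lit 1⟩, ⟨true, nat_lit 2048, nat_lit 7200, nat_lit 1, nat_lit 2⟩, ⟨false, nat_lit 32768, nat_lit 58400, nat_lit 2, nat_lit 0⟩,
    ⟨false, nat_lit 1024, nat_lit 39968, nat_lit 2, nat_lit 0⟩, ⟨true, nat_lit 32, nat_lit 40928, nat_lit 3, nat_lit 1⟩, ⟨false, nat_lit 16384, nat_lit 57344, nat_lit 1, nat_lit 1⟩,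
    ⟨false, nat_lit 8192, nat_lit 57344, nat_lit 1, nat_lit 1⟩]

def r62_0_13 : List Wr := [
    ⟨false, nat_lit 4096, nat_lit 8191, nat_lit 4, nat_lit 2⟩, ⟨false, nat_lit 8, nat_lit 4111, nat_lit 2, nat_lit 0⟩, ⟨true, nat_lit 1, nat_lit 4105, nat_lit 1, nat_lit 1⟩,
    ⟨true, nat_lit 128, nat_lit 4342, nat_lit 2, nat_lit 2⟩, ⟨false, nat_lit 512, nat_lit 4982, nat_lit 2, nat_lit 3⟩, ⟨false, nat_lit 16, nat_lit 4758, nat_lit 2, nat_lit 1⟩,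
    ⟨true, nat_lit 4, nat_lit 4766, nat_lit 2, nat_lit 2⟩, ⟨false, nat_lit 256, nat_lit 4962, nat_lit 2, nat_lit 1⟩, ⟨false, nat_lit 64, nat_lit 5090, nat_lit 2, nat_lit 2⟩,
    ⟨true, nat_lit 2, nat_lit 5086, nat_lit 3, nat_lit 1⟩, ⟨false, nat_lit 32768, nat_lit 60448, nat_lit 2, nat_lit 1⟩, ⟨false, nat_lit 2048, nat_lit 39968, nat_lit 2, nat_lit 0⟩,
    ⟨true, nat_lit 32, nat_lit 39904, nat_lit 3, nat_lit 0⟩, ⟨true, nat_lit 1024, nat_lit 39936, nat_lit 1, nat_lit 2⟩, ⟨false, nat_lit 16384, nat_lit 57344, nat_lit 1, nat_lit 1⟩,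
    ⟨false, nat_lit 8192, nat_lit 57344, nat_lit 1, nat_lit 1⟩]

def r62_0_14 : List Wr := [
    ⟨false, nat_lit 4096, nat_lit 8191, nat_lit 4, nat_lit 2⟩, ⟨false, nat_lit 8, nat_lit 4111, nat_lit 2, nat_lit 0⟩, ⟨true, nat_lit 1, nat_lit 4105, nat_lit 1, nat_lit 1⟩,
    ⟨true, nat_lit 128, nat_lit 4342, nat_lit 2, nat_lit 2⟩, ⟨false, nat_lit 2048, nat_lit 8054, nat_lit 3, nat_lit 2⟩, ⟨false, nat_lit 16, nat_lit 6294, nat_lit 2, nat_lit 1⟩,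
    ⟨true, nat_lit 4, nat_lit 6302, nat_lit 2, nat_lit 2⟩, ⟨false, nat_lit 512, nat_lit 7010, nat_lit 2, nat_lit 2⟩, ⟨true, nat_lit 64, nat_lit 6882, nat_lit 2, nat_lit 2⟩,
    ⟨false, nat_lit 32768, nat_lit 58658, nat_lit 2, nat_lit 2⟩, ⟨false, nat_lit 256, nat_lit 39714, nat_lit 2, nat_lit 2⟩, ⟨true, nat_lit 2, nat_lit 39902, nat_lit 4, nat_lit 0⟩,
    ⟨false, nat_lit 16384, nat_lit 58400, nat_lit 2, nat_lit 0⟩, ⟨false, nat_lit 1024, nat_lit 56352, nat_lit 2, nat_lit 1⟩, ⟨true, nat_lit 32, nat_lit 57312, nat_lit 3, nat_lit 2⟩,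
    ⟨false, nat_lit 8192, nat_lit 57344, nat_lit 1, nat_lit 1⟩]

def l62_0 : List (Nat × List Wr × Nat) := [
  (nat_lit 6, r62_0_0, nat_lit 0), (nat_lit 6, r62_0_1, nat_lit 0), (nat_lit 4, r62_0_2, nat_lit 0),
  (nat_lit 4, r62_0_3, nat_lit 0), (nat_lit 6, r62_0_4, nat_lit 0), (nat_lit 6, r62_0_5, nat_lit 0),
  (nat_lit 6, r62_0_6, nat_lit 0), (nat_lit 6, r62_0_7, nat_lit 0), (nat_lit 6, r62_0_8, nat_lit 0),
  (nat_lit 6, r62_0_9, nat_lit 0), (nat_lit 6, r62_0_10, nat_lit 0), (nat_lit 6, r62_0_11, nat_lit 0),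
  (nat_lit 6, r62_0_12, nat_lit 0), (nat_lit 6, r62_0_13, nat_lit 0), (nat_lit 6, r62_0_14, nat_lit 0)]

def r62_1_0 : List Wr := [
    ⟨false, nat_lit 4096, nat_lit 8191, nat_lit 4, nat_lit 2⟩, ⟨false, nat_lit 8, nat_lit 4111, nat_lit 2, nat_lit 0⟩, ⟨true, nat_lit 1, nat_lit 4105, nat_lit 1, nat_lit 1⟩,
    ⟨false, nat_lit 128, nat_lit 4342, nat_lit 2, nat_lit 2⟩, ⟨true, nat_lit 4, nat_lit 4238, nat_lit 1, nat_lit 3⟩, ⟨true, nat_lit 16, nat_lit 4242, nat_lit 1, nat_lit 2⟩,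
    ⟨false, nat_lit 512, nat_lit 4962, nat_lit 2, nat_lit 1⟩, ⟨false, nat_lit 64, nat_lit 4834, nat_lit 2, nat_lit 1⟩, ⟨true, nat_lit 2, nat_lit 4830, nat_lit 3, nat_lit 0⟩,
    ⟨false, nat_lit 32768, nat_lit 60704, nat_lit 2, nat_lit 2⟩, ⟨false, nat_lit 2048, nat_lit 40224, nat_lit 2, nat_lit 1⟩, ⟨true, nat_lit 256, nat_lit 39712, nat_lit 2, nat_lit 1⟩,
    ⟨false, nat_lit 16384, nat_lit 58400, nat_lit 2, nat_lit 0⟩, ⟨false, nat_lit 1024, nat_lit 56352, nat_lit 2, nat_lit 1⟩, ⟨true, nat_lit 32, nat_lit 57312, nat_lit 3, nat_lit 2⟩,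
    ⟨false, nat_lit 8192, nat_lit 57344, nat_lit 1, nat_lit 1⟩]

def r62_1_1 : List Wr := [
    ⟨false, nat_lit 4096, nat_lit 8191, nat_lit 4, nat_lit 2⟩, ⟨false, nat_lit 8, nat_lit 4111, nat_lit 2, nat_lit 0⟩, ⟨true, nat_lit 1, nat_lit 4105, nat_lit 1, nat_lit 1⟩,
    ⟨false, nat_lit 32768, nat_lit 61430, nat_lit 4, nat_lit 2⟩, ⟨false, nat_lit 128, nat_lit 37110, nat_lit 3, nat_lit 0⟩, ⟨true, nat_lit 4, nat_lit 37006, nat_lit 2, nat_lit 1⟩,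
    ⟨false, nat_lit 512, nat_lit 37746, nat_lit 2, nat_lit 3⟩, ⟨true, nat_lit 64, nat_lit 37618, nat_lit 2, nat_lit 3⟩, ⟨false, nat_lit 2048, nat_lit 40242, nat_lit 3, nat_lit 0⟩,
    ⟨false, nat_lit 256, nat_lit 39730, nat_lit 2, nat_lit 3⟩, ⟨true, nat_lit 16, nat_lit 39890, nat_lit 3, nat_lit 1⟩, ⟨true, nat_lit 32, nat_lit 39906, nat_lit 3, nat_lit 1⟩,
    ⟨false, nat_lit 16384, nat_lit 58370, nat_lit 2, nat_lit 0⟩, ⟨false, nat_lit 1024, nat_lit 56322, nat_lit 2, nat_lit 1⟩, ⟨true, nat_lit 2, nat_lit 57342, nat_lit 4, nat_lit 3⟩,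
    ⟨false, nat_lit 8192, nat_lit 57344, nat_lit 1, nat_lit 1⟩]

def r62_1_2 : List Wr := [
    ⟨false, nat_lit 4096, nat_lit 8191, nat_lit 4, nat_lit 2⟩, ⟨false, nat_lit 8, nat_lit 4111, nat_lit 2, nat_lit 0⟩, ⟨true, nat_lit 1, nat_lit 4105, nat_lit 1, nat_lit 1⟩,
    ⟨true, nat_lit 4, nat_lit 4110, nat_lit 1, nat_lit 2⟩, ⟨true, nat_lit 128, nat_lit 4338, nat_lit 2, nat_lit 1⟩, ⟨false, nat_lit 512, nat_lit 4978, nat_lit 2, nat_lit 2⟩,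
    ⟨false, nat_lit 64, nat_lit 4850, nat_lit 2, nat_lit 2⟩, ⟨true, nat_lit 16, nat_lit 4818, nat_lit 2, nat_lit 1⟩, ⟨false, nat_lit 2048, nat_lit 7458, nat_lit 2, nat_lit 1⟩,
    ⟨false, nat_lit 256, nat_lit 6946, nat_lit 2, nat_lit 1⟩, ⟨true, nat_lit 2, nat_lit 7134, nat_lit 3, nat_lit 2⟩, ⟨false, nat_lit 32768, nat_lit 58400, nat_lit 2, nat_lit 0⟩,
    ⟨false, nat_lit 1024, nat_lit 39968, nat_lit 2, nat_lit 0⟩, ⟨true, nat_lit 32, nat_lit 40928, nat_lit 3, nat_lit 1⟩, ⟨false, nat_lit 16384, nat_lit 57344, nat_lit 1, nat_lit 1⟩,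
    ⟨false, nat_lit 8192, nat_lit 57344, nat_lit 1, nat_lit 1⟩]

def r62_1_3 : List Wr := [
    ⟨false, nat_lit 4096, nat_lit 8191, nat_lit 4, nat_lit 2⟩, ⟨false, nat_lit 8, nat_lit 4111, nat_lit 2, nat_lit 0⟩, ⟨true, nat_lit 1, nat_lit 4105, nat_lit 1, nat_lit 1⟩,
    ⟨false, nat_lit 128, nat_lit 4342, nat_lit 2, nat_lit 2⟩, ⟨true, nat_lit 4, nat_lit 4238, nat_lit 1, nat_lit 3⟩, ⟨false, nat_lit 512, nat_lit 4978, nat_lit 2, nat_lit 2⟩,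
    ⟨false, nat_lit 64, nat_lit 4850, nat_lit 2, nat_lit 2⟩, ⟨true, nat_lit 16, nat_lit 4818, nat_lit 2, nat_lit 1⟩, ⟨false, nat_lit 2048, nat_lit 7458, nat_lit 2, nat_lit 1⟩,
    ⟨false, nat_lit 256, nat_lit 6946, nat_lit 2, nat_lit 1⟩, ⟨true, nat_lit 2, nat_lit 7134, nat_lit 3, nat_lit 2⟩, ⟨false, nat_lit 32768, nat_lit 58400, nat_lit 2, nat_lit 0⟩,
    ⟨false, nat_lit 1024, nat_lit 39968, nat_lit 2, nat_lit 0⟩, ⟨true, nat_lit 32, nat_lit 40928, nat_lit 3, nat_lit 1⟩, ⟨false, nat_lit 16384, nat_lit 57344, nat_lit 1, nat_lit 1⟩,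
    ⟨false, nat_lit 8192, nat_lit 57344, nat_lit 1, nat_lit 1⟩]

def r62_1_4 : List Wr := [
    ⟨false, nat_lit 4096, nat_lit 8191, nat_lit 4, nat_lit 2⟩, ⟨false, nat_lit 8, nat_lit 4111, nat_lit 2, nat_lit 0⟩, ⟨true, nat_lit 1, nat_lit 4105, nat_lit 1, nat_lit 1⟩,
    ⟨false, nat_lit 512, nat_lit 5110, nat_lit 2, nat_lit 4⟩, ⟨false, nat_lit 128, nat_lit 4854, nat_lit 3, nat_lit 0⟩, ⟨true, nat_lit 4, nat_lit 4750, nat_lit 2, nat_lit 1⟩,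
    ⟨false, nat_lit 16, nat_lit 4754, nat_lit 1, nat_lit 3⟩, ⟨true, nat_lit 2, nat_lit 4766, nat_lit 2, nat_lit 2⟩, ⟨false, nat_lit 2048, nat_lit 7520, nat_lit 2, nat_lit 1⟩,
    ⟨false, nat_lit 256, nat_lit 7008, nat_lit 2, nat_lit 1⟩, ⟨true, nat_lit 64, nat_lit 7136, nat_lit 2, nat_lit 2⟩, ⟨false, nat_lit 32768, nat_lit 58400, nat_lit 2, nat_lit 0⟩,
    ⟨false, nat_lit 1024, nat_lit 39968, nat_lit 2, nat_lit 0⟩, ⟨true, nat_lit 32, nat_lit 40928, nat_lit 3, nat_lit 1⟩, ⟨false, nat_lit 16384, nat_lit 57344, nat_lit 1, nat_lit 1⟩,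
    ⟨false, nat_lit 8192, nat_lit 57344, nat_lit 1, nat_lit 1⟩]

def r62_1_5 : List Wr := [
    ⟨false, nat_lit 4096, nat_lit 8191, nat_lit 4, nat_lit 2⟩, ⟨false, nat_lit 8, nat_lit 4111, nat_lit 2, nat_lit 0⟩, ⟨true, nat_lit 1, nat_lit 4105, nat_lit 1, nat_lit 1⟩,
    ⟨false, nat_lit 512, nat_lit 5110, nat_lit 2, nat_lit 4⟩, ⟨false, nat_lit 128, nat_lit 4854, nat_lit 3, nat_lit 0⟩, ⟨true, nat_lit 4, nat_lit 4750, nat_lit 2, nat_lit 1⟩,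
    ⟨true, nat_lit 16, nat_lit 4754, nat_lit 1, nat_lit 3⟩, ⟨false, nat_lit 256, nat_lit 4962, nat_lit 2, nat_lit 1⟩, ⟨false, nat_lit 64, nat_lit 5090, nat_lit 2, nat_lit 2⟩,
    ⟨true, nat_lit 2, nat_lit 5086, nat_lit 3, nat_lit 1⟩, ⟨true, nat_lit 2048, nat_lit 7200, nat_lit 1, nat_lit 2⟩, ⟨false, nat_lit 32768, nat_lit 58400, nat_lit 2, nat_lit 0⟩,
    ⟨false, nat_lit 1024, nat_lit 39968, nat_lit 2, nat_lit 0⟩, ⟨true, nat_lit 32, nat_lit 40928, nat_lit 3, nat_lit 1⟩, ⟨false, nat_lit 16384, nat_lit 57344, nat_lit 1, nat_lit 1⟩,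
    ⟨false, nat_lit 8192, nat_lit 57344, nat_lit 1, nat_lit 1⟩]

def r62_1_6 : List Wr := [
    ⟨false, nat_lit 4096, nat_lit 8191, nat_lit 4, nat_lit 2⟩, ⟨false, nat_lit 8, nat_lit 4111, nat_lit 2, nat_lit 0⟩, ⟨true, nat_lit 1, nat_lit 4105, nat_lit 1, nat_lit 1⟩,
    ⟨false, nat_lit 512, nat_lit 5110, nat_lit 2, nat_lit 4⟩, ⟨false, nat_lit 128, nat_lit 4854, nat_lit 3, nat_lit 0⟩, ⟨true, nat_lit 4, nat_lit 4750, nat_lit 2, nat_lit 1⟩,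
    ⟨true, nat_lit 16, nat_lit 4754, nat_lit 1, nat_lit 3⟩, ⟨false, nat_lit 256, nat_lit 4962, nat_lit 2, nat_lit 1⟩, ⟨false, nat_lit 64, nat_lit 5090, nat_lit 2, nat_lit 2⟩,
    ⟨true, nat_lit 2, nat_lit 5086, nat_lit 3, nat_lit 1⟩, ⟨false, nat_lit 32768, nat_lit 60448, nat_lit 2, nat_lit 1⟩, ⟨false, nat_lit 2048, nat_lit 39968, nat_lit 2, nat_lit 0⟩,
    ⟨true, nat_lit 32, nat_lit 39904, nat_lit 3, nat_lit 0⟩, ⟨true, nat_lit 1024, nat_lit 39936, nat_lit 1, nat_lit 2⟩, ⟨false, nat_lit 16384, nat_lit 57344, nat_lit 1, nat_lit 1⟩,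
    ⟨false, nat_lit 8192, nat_lit 57344, nat_lit 1, nat_lit 1⟩]

def r62_1_7 : List Wr := [
    ⟨false, nat_lit 4096, nat_lit 8191, nat_lit 4, nat_lit 2⟩, ⟨false, nat_lit 8, nat_lit 4111, nat_lit 2, nat_lit 0⟩, ⟨true, nat_lit 1, nat_lit 4105, nat_lit 1, nat_lit 1⟩,
    ⟨false, nat_lit 2048, nat_lit 8182, nat_lit 3, nat_lit 3⟩, ⟨false, nat_lit 128, nat_lit 6390, nat_lit 3, nat_lit 0⟩, ⟨true, nat_lit 4, nat_lit 6286, nat_lit 2, nat_lit 1⟩,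
    ⟨false, nat_lit 512, nat_lit 7026, nat_lit 2, nat_lit 3⟩, ⟨false, nat_lit 256, nat_lit 7026, nat_lit 2, nat_lit 3⟩, ⟨false, nat_lit 64, nat_lit 7154, nat_lit 3, nat_lit 1⟩,
    ⟨false, nat_lit 16, nat_lit 7122, nat_lit 2, nat_lit 3⟩, ⟨true, nat_lit 2, nat_lit 7134, nat_lit 3, nat_lit 2⟩, ⟨false, nat_lit 32768, nat_lit 58400, nat_lit 2, nat_lit 0⟩,
    ⟨false, nat_lit 1024, nat_lit 39968, nat_lit 2, nat_lit 0⟩, ⟨true, nat_lit 32, nat_lit 40928, nat_lit 3, nat_lit 1⟩, ⟨false, nat_lit 16384, nat_lit 57344, nat_lit 1, nat_lit 1⟩,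
    ⟨false, nat_lit 8192, nat_lit 57344, nat_lit 1, nat_lit 1⟩]

def r62_1_8 : List Wr := [
    ⟨false, nat_lit 4096, nat_lit 8191, nat_lit 4, nat_lit 2⟩, ⟨false, nat_lit 8, nat_lit 4111, nat_lit 2, nat_lit 0⟩, ⟨true, nat_lit 1, nat_lit 4105, nat_lit 1, nat_lit 1⟩,
    ⟨false, nat_lit 2048, nat_lit 8182, nat_lit 3, nat_lit 3⟩, ⟨false, nat_lit 128, nat_lit 6390, nat_lit 3, nat_lit 0⟩, ⟨true, nat_lit 4, nat_lit 6286, nat_lit 2, nat_lit 1⟩,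
    ⟨false, nat_lit 512, nat_lit 7026, nat_lit 2, nat_lit 3⟩, ⟨false, nat_lit 256, nat_lit 7026, nat_lit 2, nat_lit 3⟩, ⟨false, nat_lit 64, nat_lit 7154, nat_lit 3, nat_lit 1⟩,
    ⟨true, nat_lit 16, nat_lit 7122, nat_lit 2, nat_lit 3⟩, ⟨false, nat_lit 1024, nat_lit 7202, nat_lit 2, nat_lit 0⟩, ⟨false, nat_lit 32, nat_lit 8162, nat_lit 3, nat_lit 1⟩,
    ⟨true, nat_lit 2, nat_lit 8190, nat_lit 4, nat_lit 1⟩, ⟨false, nat_lit 32768, nat_lit 57344, nat_lit 1, nat_lit 1⟩, ⟨false, nat_lit 16384, nat_lit 57344, nat_lit 1, nat_lit 1⟩,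
    ⟨false, nat_lit 8192, nat_lit 57344, nat_lit 1, nat_lit 1⟩]

def r62_1_9 : List Wr := [
    ⟨false, nat_lit 4096, nat_lit 8191, nat_lit 4, nat_lit 2⟩, ⟨false, nat_lit 8, nat_lit 4111, nat_lit 2, nat_lit 0⟩, ⟨true, nat_lit 1, nat_lit 4105, nat_lit 1, nat_lit 1⟩,
    ⟨false, nat_lit 2048, nat_lit 8182, nat_lit 3, nat_lit 3⟩, ⟨false, nat_lit 128, nat_lit 6390, nat_lit 3, nat_lit 0⟩, ⟨true, nat_lit 4, nat_lit 6286, nat_lit 2, nat_lit 1⟩,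
    ⟨true, nat_lit 512, nat_lit 7026, nat_lit 2, nat_lit 3⟩, ⟨false, nat_lit 32768, nat_lit 58738, nat_lit 3, nat_lit 1⟩, ⟨false, nat_lit 64, nat_lit 39666, nat_lit 3, nat_lit 1⟩,
    ⟨true, nat_lit 16, nat_lit 39634, nat_lit 2, nat_lit 3⟩, ⟨false, nat_lit 1024, nat_lit 40226, nat_lit 2, nat_lit 2⟩, ⟨true, nat_lit 256, nat_lit 40738, nat_lit 2, nat_lit 3⟩,
    ⟨false, nat_lit 16384, nat_lit 57378, nat_lit 2, nat_lit 0⟩, ⟨false, nat_lit 32, nat_lit 57314, nat_lit 3, nat_lit 3⟩, ⟨true, nat_lit 2, nat_lit 57342, nat_lit 5, nat_lit 0⟩,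
    ⟨false, nat_lit 8192, nat_lit 57344, nat_lit 1, nat_lit 1⟩]

def r62_1_10 : List Wr := [
    ⟨false, nat_lit 4096, nat_lit 8191, nat_lit 4, nat_lit 2⟩, ⟨false, nat_lit 8, nat_lit 4111, nat_lit 2, nat_lit 0⟩, ⟨true, nat_lit 1, nat_lit 4105, nat_lit 1, nat_lit 1⟩,
    ⟨false, nat_lit 2048, nat_lit 8182, nat_lit 3, nat_lit 3⟩, ⟨false, nat_lit 128, nat_lit 6390, nat_lit 3, nat_lit 0⟩, ⟨true, nat_lit 4, nat_lit 6286, nat_lit 2, nat_lit 1⟩,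
    ⟨false, nat_lit 32768, nat_lit 59250, nat_lit 3, nat_lit 2⟩, ⟨false, nat_lit 512, nat_lit 39794, nat_lit 3, nat_lit 1⟩, ⟨true, nat_lit 16, nat_lit 39570, nat_lit 2, nat_lit 2⟩,
    ⟨false, nat_lit 1024, nat_lit 40290, nat_lit 3, nat_lit 0⟩, ⟨false, nat_lit 256, nat_lit 40802, nat_lit 2, nat_lit 4⟩, ⟨false, nat_lit 64, nat_lit 40930, nat_lit 3, nat_lit 2⟩,
    ⟨false, nat_lit 32, nat_lit 40930, nat_lit 3, nat_lit 2⟩, ⟨true, nat_lit 2, nat_lit 40958, nat_lit 4, nat_lit 2⟩, ⟨false, nat_lit 16384, nat_lit 57344, nat_lit 1, nat_lit 1⟩,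
    ⟨false, nat_lit 8192, nat_lit 57344, nat_lit 1, nat_lit 1⟩]

def r62_1_11 : List Wr := [
    ⟨false, nat_lit 4096, nat_lit 8191, nat_lit 4, nat_lit 2⟩, ⟨false, nat_lit 8, nat_lit 4111, nat_lit 2, nat_lit 0⟩, ⟨true, nat_lit 1, nat_lit 4105, nat_lit 1, nat_lit 1⟩,
    ⟨false, nat_lit 2048, nat_lit 8182, nat_lit 3, nat_lit 3⟩, ⟨false, nat_lit 128, nat_lit 6390, nat_lit 3, nat_lit 0⟩, ⟨true, nat_lit 4, nat_lit 6286, nat_lit 2, nat_lit 1⟩,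
    ⟨false, nat_lit 32768, nat_lit 59250, nat_lit 3, nat_lit 2⟩, ⟨false, nat_lit 512, nat_lit 39794, nat_lit 3, nat_lit 1⟩, ⟨true, nat_lit 16, nat_lit 39570, nat_lit 2, nat_lit 2⟩,
    ⟨true, nat_lit 64, nat_lit 39650, nat_lit 2, nat_lit 3⟩, ⟨false, nat_lit 1024, nat_lit 40226, nat_lit 2, nat_lit 2⟩, ⟨true, nat_lit 256, nat_lit 40738, nat_lit 2, nat_lit 3⟩,
    ⟨false, nat_lit 16384, nat_lit 57378, nat_lit 2, nat_lit 0⟩, ⟨false, nat_lit 32, nat_lit 57314, nat_lit 3, nat_lit 3⟩, ⟨true, nat_lit 2, nat_lit 57342, nat_lit 5, nat_lit 0⟩,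
    ⟨false, nat_lit 8192, nat_lit 57344, nat_lit 1, nat_lit 1⟩]

def r62_1_12 : List Wr := [
    ⟨false, nat_lit 4096, nat_lit 8191, nat_lit 4, nat_lit 2⟩, ⟨false, nat_lit 8, nat_lit 4111, nat_lit 2, nat_lit 0⟩, ⟨true, nat_lit 1, nat_lit 4105, nat_lit 1, nat_lit 1⟩,
    ⟨false, nat_lit 2048, nat_lit 8182, nat_lit 3, nat_lit 3⟩, ⟨false, nat_lit 128, nat_lit 6390, nat_lit 3, nat_lit 0⟩, ⟨true, nat_lit 4, nat_lit 6286, nat_lit 2, nat_lit 1⟩,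
    ⟨true, nat_lit 16, nat_lit 6290, nat_lit 1, nat_lit 3⟩, ⟨false, nat_lit 512, nat_lit 7010, nat_lit 2, nat_lit 2⟩, ⟨true, nat_lit 64, nat_lit 6882, nat_lit 2, nat_lit 2⟩,
    ⟨false, nat_lit 32768, nat_lit 58658, nat_lit 2, nat_lit 2⟩, ⟨false, nat_lit 256, nat_lit 39714, nat_lit 2, nat_lit 2⟩, ⟨true, nat_lit 2, nat_lit 39902, nat_lit 4, nat_lit 0⟩,
    ⟨false, nat_lit 16384, nat_lit 58400, nat_lit 2, nat_lit 0⟩, ⟨false, nat_lit 1024, nat_lit 56352, nat_lit 2, nat_lit 1⟩, ⟨true, nat_lit 32, nat_lit 57312, nat_lit 3, nat_lit 2⟩,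
    ⟨false, nat_lit 8192, nat_lit 57344, nat_lit 1, nat_lit 1⟩]

def l62_1 : List (Nat × List Wr × Nat) := [
  (nat_lit 6, r62_1_0, nat_lit 0), (nat_lit 4, r62_1_1, nat_lit 0), (nat_lit 4, r62_1_2, nat_lit 0),
  (nat_lit 5, r62_1_3, nat_lit 1), (nat_lit 6, r62_1_4, nat_lit 0), (nat_lit 6, r62_1_5, nat_lit 0),
  (nat_lit 6, r62_1_6, nat_lit 0), (nat_lit 6, r62_1_7, nat_lit 0), (nat_lit 6, r62_1_8, nat_lit 0),
  (nat_lit 6, r62_1_9, nat_lit 0), (nat_lit 6, r62_1_10, nat_lit 0), (nat_lit 6, r62_1_11, nat_lit 0),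
  (nat_lit 6, r62_1_12, nat_lit 0)]

end Pool.Agent.EC4.Run
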