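import Pool.Agent.Lib.MP_ec4eff_co.R5.Srch

/-! Generated file (project R5): results of the first lune -/

namespace Pool.Agent.EC4.Run

def r62_2_0 : List Wr := [
    ⟨false, nat_lit 4096, nat_lit 8191, nat_lit 4, nat_lit 2⟩, ⟨false, nat_lit 8, nat_lit 4111, nat_lit 2, nat_lit 0⟩, ⟨true, nat_lit 1, nat_lit 4105, nat_lit 1, nat_lit 1⟩,
    ⟨true, nat_lit 4, nat_lit 4110, nat_lit 1, nat_lit 2⟩, ⟨false, nat_lit 128, nat_lit 4338, nat_lit 2, nat_lit 1⟩, ⟨true, nat_lit 16, nat_lit 4242, nat_lit 1, nat_lit 2⟩,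
    ⟨false, nat_lit 512, nat_lit 4962, nat_lit 2, nat_lit 1⟩, ⟨false, nat_lit 64, nat_lit 4834, nat_lit 2, nat_lit 1⟩, ⟨true, nat_lit 2, nat_lit 4830, nat_lit 3, nat_lit 0⟩,
    ⟨false, nat_lit 32768, nat_lit 60704, nat_lit 2, nat_lit 2⟩, ⟨false, nat_lit 2048, nat_lit 40224, nat_lit 2, nat_lit 1⟩, ⟨true, nat_lit 256, nat_lit 39712, nat_lit 2, nat_lit 1⟩,
    ⟨false, nat_lit 16384, nat_lit 58400, nat_lit 2, nat_lit 0⟩, ⟨false, nat_lit 1024, nat_lit 56352, nat_lit 2, nat_lit 1⟩, ⟨true, nat_lit 32, nat_lit 57312, nat_lit 3, nat_lit 2⟩,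
    ⟨false, nat_lit 8192, nat_lit 57344, nat_lit 1, nat_lit 1⟩]

def r62_2_1 : List Wr := [
    ⟨false, nat_lit 4096, nat_lit 8191, nat_lit 4, nat_lit 2⟩, ⟨false, nat_lit 8, nat_lit 4111, nat_lit 2, nat_lit 0⟩, ⟨true, nat_lit 1, nat_lit 4105, nat_lit 1, nat_lit 1⟩,
    ⟨false, nat_lit 128, nat_lit 4342, nat_lit 2, nat_lit 2⟩, ⟨true, nat_lit 4, nat_lit 4238, nat_lit 1, nat_lit 3⟩, ⟨true, nat_lit 16, nat_lit 4242, nat_lit 1, nat_lit 2⟩,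
    ⟨false, nat_lit 512, nat_lit 4962, nat_lit 2, nat_lit 1⟩, ⟨false, nat_lit 64, nat_lit 4834, nat_lit 2, nat_lit 1⟩, ⟨true, nat_lit 2, nat_lit 4830, nat_lit 3, nat_lit 0⟩,
    ⟨false, nat_lit 32768, nat_lit 60704, nat_lit 2, nat_lit 2⟩, ⟨false, nat_lit 2048, nat_lit 40224, nat_lit 2, nat_lit 1⟩, ⟨true, nat_lit 256, nat_lit 39712, nat_lit 2, nat_lit 1⟩,
    ⟨false, nat_lit 16384, nat_lit 58400, nat_lit 2, nat_lit 0⟩, ⟨false, nat_lit 1024, nat_lit 56352, nat_lit 2, nat_lit 1⟩, ⟨true, nat_lit 32, nat_lit 57312, nat_lit 3, nat_lit 2⟩,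
    ⟨false, nat_lit 8192, nat_lit 57344, nat_lit 1, nat_lit 1⟩]

def l62_2 : List (Nat × List Wr × Nat) := [
  (nat_lit 4, r62_2_0, nat_lit 0), (nat_lit 5, r62_2_1, nat_lit 1)]

def r15_0_0 : List Wr := [
    ⟨false, nat_lit 4, nat_lit 7, nat_lit 1, nat_lit 1⟩, ⟨true, nat_lit 2, nat_lit 7, nat_lit 1, nat_lit 1⟩, ⟨false, nat_lit 64, nat_lit 121, nat_lit 2, nat_lit 0⟩,
    ⟨false, nat_lit 8, nat_lit 73, nat_lit 1, nat_lit 1⟩, ⟨true, nat_lit 1, nat_lit 79, nat_lit 2, nat_lit 0⟩, ⟨false, nat_lit 4096, nat_lit 8112, nat_lit 3, nat_lit 0⟩,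
    ⟨false, nat_lit 256, nat_lit 4528, nat_lit 1, nat_lit 3⟩, ⟨true, nat_lit 32, nat_lit 4464, nat_lit 2, nat_lit 0⟩, ⟨true, nat_lit 512, nat_lit 4752, nat_lit 1, nat_lit 2⟩,
    ⟨false, nat_lit 32768, nat_lit 60560, nat_lit 2, nat_lit 2⟩, ⟨false, nat_lit 2048, nat_lit 40080, nat_lit 2, nat_lit 1⟩, ⟨true, nat_lit 128, nat_lit 39824, nat_lit 2, nat_lit 2⟩,
    ⟨false, nat_lit 16384, nat_lit 58384, nat_lit 2, nat_lit 0⟩, ⟨false, nat_lit 1024, nat_lit 56336, nat_lit 2, nat_lit 1⟩, ⟨true, nat_lit 16, nat_lit 57328, nat_lit 3, nat_lit 3⟩,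
    ⟨false, nat_lit 8192, nat_lit 57344, nat_lit 1, nat_lit 1⟩]

def l15_0 : List (Nat × List Wr × Nat) := [
  (nat_lit 5, r15_0_0, nat_lit 0)]

end Pool.Agent.EC4.Run
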