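import Pool.Agent.Lib.MP_ec4eff_co.R5.Dec
import Pool.Agent.Lib.MP_ec4eff_co.R5.Run.D7
import Pool.Agent.Lib.MP_ec4eff_co.R5.Run.D8

/-! Generated file (project R5): the first lune -/

namespace Pool.Agent.EC4.Run

theorem a62 : runA (l62_0 ++ (l62_1 ++ (l62_2))) [1, 0, 1, 0, 1, 1, 0, 0] = false := by decide +kernel

theorem a15 : runA (l15_0) [0, 1, 0, 2, 1, 0, 0] = false := by decide +kernel

theorem a0 : runA ([]) [0, 0, 0, 0, 4] = false := by decide +kernel

theorem a1 : runA ([]) [0, 0, 0, 4, 0] = false := by decide +kernel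

theorem a5 : runA ([]) [0, 0, 1, 3, 0, 0] = false := by decide +kernel

theorem a7 : runA ([]) [0, 0, 4, 0, 0] = false := by decide +kernel

theorem a9 : runA ([]) [0, 1, 0, 0, 3, 0] = false := by decide +kernel

theorem a16 : runA ([]) [0, 1, 0, 3, 0, 0] = false := by decide +kernel

theorem a29 : runA ([]) [0, 1, 3, 0, 0, 0] = false := by decide +kernel

theorem a36 : runA ([]) [0, 3, 0, 1, 0, 0] = false := by decide +kernel

theorem a37 : runA ([]) [0, 3, 1, 0, 0, 0] = false := by decide +kernel

theorem a39 : runA ([]) [1, 0, 0, 0, 0, 3] = false := by decide +kernel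

theorem a44 : runA ([]) [1, 0, 0, 0, 3, 0] = false := by decide +kernel

theorem a55 : runA ([]) [1, 0, 0, 3, 0, 0] = false := by decide +kernel

theorem a73 : runA ([]) [1, 0, 3, 0, 0, 0] = false := by decide +kernel

theorem a99 : runA ([]) [1, 3, 0, 0, 0, 0] = false := by decide +kernel

theorem a115 : runA ([]) [3, 0, 0, 0, 1, 0] = false := by decide +kernel

theorem a116 : runA ([]) [3, 0, 0, 1, 0, 0] = false := by decide +kernel

theorem a117 : runA ([]) [3, 0, 1, 0, 0, 0] = false := by decide +kernel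

theorem a118 : runA ([]) [3, 1, 0, 0, 0, 0] = false := by decide +kernel

end Pool.Agent.EC4.Run
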