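import Pool.Agent.Lib.MP_ec4eff_co.R5.Srch

/-! Generated file (project R5): results of the first lune -/

namespace Pool.Agent.EC4.Run

def r49_0_0 : List Wr := [
    ⟨true, nat_lit 8, nat_lit 15, nat_lit 1, nat_lit 2⟩, ⟨false, nat_lit 64, nat_lit 119, nat_lit 2, nat_lit 1⟩, ⟨false, nat_lit 4, nat_lit 79, nat_lit 2, nat_lit 0⟩,
    ⟨true, nat_lit 1, nat_lit 77, nat_lit 1, nat_lit 2⟩, ⟨false, nat_lit 128, nat_lit 178, nat_lit 1, nat_lit 2⟩, ⟨false, nat_lit 32, nat_lit 242, nat_lit 2, nat_lit 0⟩,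
    ⟨true, nat_lit 2, nat_lit 238, nat_lit 2, nat_lit 1⟩, ⟨false, nat_lit 2048, nat_lit 3856, nat_lit 2, nat_lit 0⟩, ⟨false, nat_lit 256, nat_lit 2320, nat_lit 1, nat_lit 1⟩,
    ⟨true, nat_lit 16, nat_lit 2544, nat_lit 2, nat_lit 1⟩, ⟨true, nat_lit 1024, nat_lit 3584, nat_lit 1, nat_lit 1⟩, ⟨false, nat_lit 32768, nat_lit 61952, nat_lit 2, nat_lit 0⟩,
    ⟨false, nat_lit 4096, nat_lit 37376, nat_lit 1, nat_lit 1⟩, ⟨true, nat_lit 512, nat_lit 40448, nat_lit 2, nat_lit 0⟩, ⟨false, nat_lit 16384, nat_lit 57344, nat_lit 1, nat_lit 1⟩,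
    ⟨false, nat_lit 8192, nat_lit 57344, nat_lit 1, nat_lit 1⟩]

def r49_0_1 : List Wr := [
    ⟨true, nat_lit 8, nat_lit 15, nat_lit 1, nat_lit 2⟩, ⟨false, nat_lit 64, nat_lit 119, nat_lit 2, nat_lit 1⟩, ⟨false, nat_lit 4, nat_lit 79, nat_lit 2, nat_lit 0⟩,
    ⟨true, nat_lit 1, nat_lit 77, nat_lit 1, nat_lit 2⟩, ⟨false, nat_lit 2048, nat_lit 4018, nat_lit 3, nat_lit 0⟩, ⟨false, nat_lit 32, nat_lit 2162, nat_lit 2, nat_lit 0⟩,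
    ⟨true, nat_lit 2, nat_lit 2158, nat_lit 2, nat_lit 1⟩, ⟨true, nat_lit 256, nat_lit 2448, nat_lit 1, nat_lit 2⟩, ⟨false, nat_lit 4096, nat_lit 5776, nat_lit 1, nat_lit 3⟩,
    ⟨false, nat_lit 1024, nat_lit 7824, nat_lit 2, nat_lit 1⟩, ⟨true, nat_lit 128, nat_lit 7568, nat_lit 2, nat_lit 1⟩, ⟨false, nat_lit 32768, nat_lit 57872, nat_lit 2, nat_lit 0⟩,
    ⟨false, nat_lit 512, nat_lit 40464, nat_lit 2, nat_lit 1⟩, ⟨true, nat_lit 16, nat_lit 40944, nat_lit 3, nat_lit 2⟩, ⟨false, nat_lit 16384, nat_lit 57344, nat_lit 1, nat_lit 1⟩,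
    ⟨false, nat_lit 8192, nat_lit 57344, nat_lit 1, nat_lit 1⟩]

def r49_0_2 : List Wr := [
    ⟨true, nat_lit 8, nat_lit 15, nat_lit 1, nat_lit 2⟩, ⟨false, nat_lit 64, nat_lit 119, nat_lit 2, nat_lit 1⟩, ⟨false, nat_lit 4, nat_lit 79, nat_lit 2, nat_lit 0⟩,
    ⟨true, nat_lit 1, nat_lit 77, nat_lit 1, nat_lit 2⟩, ⟨false, nat_lit 2048, nat_lit 4018, nat_lit 3, nat_lit 0⟩, ⟨false, nat_lit 32, nat_lit 2162, nat_lit 2, nat_lit 0⟩,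
    ⟨true, nat_lit 2, nat_lit 2158, nat_lit 2, nat_lit 1⟩, ⟨false, nat_lit 256, nat_lit 2448, nat_lit 1, nat_lit 2⟩, ⟨true, nat_lit 128, nat_lit 2448, nat_lit 1, nat_lit 2⟩,
    ⟨false, nat_lit 32768, nat_lit 62992, nat_lit 2, nat_lit 2⟩, ⟨false, nat_lit 1024, nat_lit 36368, nat_lit 2, nat_lit 0⟩, ⟨true, nat_lit 16, nat_lit 36336, nat_lit 3, nat_lit 0⟩,
    ⟨false, nat_lit 16384, nat_lit 61952, nat_lit 2, nat_lit 0⟩, ⟨false, nat_lit 4096, nat_lit 53760, nat_lit 1, nat_lit 2⟩, ⟨true, nat_lit 512, nat_lit 56832, nat_lit 2, nat_lit 1⟩,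
    ⟨false, nat_lit 8192, nat_lit 57344, nat_lit 1, nat_lit 1⟩]

def r49_0_3 : List Wr := [
    ⟨true, nat_lit 8, nat_lit 15, nat_lit 1, nat_lit 2⟩, ⟨false, nat_lit 64, nat_lit 119, nat_lit 2, nat_lit 1⟩, ⟨false, nat_lit 4, nat_lit 79, nat_lit 2, nat_lit 0⟩,
    ⟨true, nat_lit 1, nat_lit 77, nat_lit 1, nat_lit 2⟩, ⟨false, nat_lit 256, nat_lit 434, nat_lit 1, nat_lit 3⟩, ⟨false, nat_lit 32, nat_lit 370, nat_lit 2, nat_lit 0⟩,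
    ⟨true, nat_lit 2, nat_lit 366, nat_lit 2, nat_lit 1⟩, ⟨false, nat_lit 2048, nat_lit 3728, nat_lit 2, nat_lit 0⟩, ⟨false, nat_lit 128, nat_lit 2448, nat_lit 1, nat_lit 2⟩,
    ⟨true, nat_lit 16, nat_lit 2544, nat_lit 2, nat_lit 1⟩, ⟨true, nat_lit 1024, nat_lit 3584, nat_lit 1, nat_lit 1⟩, ⟨false, nat_lit 32768, nat_lit 61952, nat_lit 2, nat_lit 0⟩,
    ⟨false, nat_lit 4096, nat_lit 37376, nat_lit 1, nat_lit 1⟩, ⟨true, nat_lit 512, nat_lit 40448, nat_lit 2, nat_lit 0⟩, ⟨false, nat_lit 16384, nat_lit 57344, nat_lit 1, nat_lit 1⟩,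
    ⟨false, nat_lit 8192, nat_lit 57344, nat_lit 1, nat_lit 1⟩]

def l49_0 : List (Nat × List Wr × Nat) := [
  (nat_lit 4, r49_0_0, nat_lit 0), (nat_lit 6, r49_0_1, nat_lit 0), (nat_lit 4, r49_0_2, nat_lit 0),
  (nat_lit 6, r49_0_3, nat_lit 0)]

def r49_1_0 : List Wr := [
    ⟨false, nat_lit 64, nat_lit 127, nat_lit 2, nat_lit 2⟩, ⟨false, nat_lit 8, nat_lit 79, nat_lit 2, nat_lit 0⟩, ⟨true, nat_lit 1, nat_lit 73, nat_lit 1, nat_lit 1⟩,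
    ⟨false, nat_lit 256, nat_lit 438, nat_lit 2, nat_lit 1⟩, ⟨false, nat_lit 32, nat_lit 374, nat_lit 2, nat_lit 1⟩, ⟨true, nat_lit 4, nat_lit 366, nat_lit 2, nat_lit 1⟩,
    ⟨true, nat_lit 128, nat_lit 402, nat_lit 1, nat_lit 2⟩, ⟨false, nat_lit 32768, nat_lit 65042, nat_lit 3, nat_lit 1⟩, ⟨false, nat_lit 2048, nat_lit 36370, nat_lit 2, nat_lit 1⟩,
    ⟨true, nat_lit 16, nat_lit 35314, nat_lit 3, nat_lit 0⟩, ⟨false, nat_lit 4096, nat_lit 38402, nat_lit 1, nat_lit 3⟩, ⟨true, nat_lit 1024, nat_lit 40450, nat_lit 2, nat_lit 1⟩,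
    ⟨false, nat_lit 16384, nat_lit 57858, nat_lit 2, nat_lit 0⟩, ⟨false, nat_lit 512, nat_lit 56834, nat_lit 2, nat_lit 2⟩, ⟨true, nat_lit 2, nat_lit 57342, nat_lit 4, nat_lit 3⟩,
    ⟨false, nat_lit 8192, nat_lit 57344, nat_lit 1, nat_lit 1⟩]

def r49_1_1 : List Wr := [
    ⟨false, nat_lit 64, nat_lit 127, nat_lit 2, nat_lit 2⟩, ⟨false, nat_lit 8, nat_lit 79, nat_lit 2, nat_lit 0⟩, ⟨true, nat_lit 1, nat_lit 73, nat_lit 1, nat_lit 1⟩,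
    ⟨false, nat_lit 2048, nat_lit 4022, nat_lit 3, nat_lit 1⟩, ⟨false, nat_lit 32, nat_lit 2166, nat_lit 2, nat_lit 1⟩, ⟨true, nat_lit 4, nat_lit 2158, nat_lit 2, nat_lit 1⟩,
    ⟨false, nat_lit 256, nat_lit 2450, nat_lit 1, nat_lit 3⟩, ⟨true, nat_lit 16, nat_lit 2418, nat_lit 2, nat_lit 1⟩, ⟨false, nat_lit 1024, nat_lit 3714, nat_lit 2, nat_lit 0⟩,
    ⟨false, nat_lit 128, nat_lit 3458, nat_lit 1, nat_lit 3⟩, ⟨true, nat_lit 2, nat_lit 3582, nat_lit 3, nat_lit 2⟩, ⟨false, nat_lit 32768, nat_lit 61952, nat_lit 2, nat_lit 0⟩,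
    ⟨false, nat_lit 4096, nat_lit 37376, nat_lit 1, nat_lit 1⟩, ⟨true, nat_lit 512, nat_lit 40448, nat_lit 2, nat_lit 0⟩, ⟨false, nat_lit 16384, nat_lit 57344, nat_lit 1, nat_lit 1⟩,
    ⟨false, nat_lit 8192, nat_lit 57344, nat_lit 1, nat_lit 1⟩]

def r49_1_2 : List Wr := [
    ⟨false, nat_lit 64, nat_lit 127, nat_lit 2, nat_lit 2⟩, ⟨false, nat_lit 8, nat_lit 79, nat_lit 2, nat_lit 0⟩, ⟨true, nat_lit 1, nat_lit 73, nat_lit 1, nat_lit 1⟩,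
    ⟨false, nat_lit 2048, nat_lit 4022, nat_lit 3, nat_lit 1⟩, ⟨false, nat_lit 32, nat_lit 2166, nat_lit 2, nat_lit 1⟩, ⟨true, nat_lit 4, nat_lit 2158, nat_lit 2, nat_lit 1⟩,
    ⟨false, nat_lit 128, nat_lit 2194, nat_lit 1, nat_lit 2⟩, ⟨true, nat_lit 16, nat_lit 2290, nat_lit 2, nat_lit 1⟩, ⟨false, nat_lit 1024, nat_lit 3842, nat_lit 2, nat_lit 0⟩,
    ⟨false, nat_lit 256, nat_lit 3330, nat_lit 1, nat_lit 2⟩, ⟨true, nat_lit 2, nat_lit 3582, nat_lit 3, nat_lit 2⟩, ⟨false, nat_lit 32768, nat_lit 61952, nat_lit 2, nat_lit 0⟩,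
    ⟨false, nat_lit 4096, nat_lit 37376, nat_lit 1, nat_lit 1⟩, ⟨true, nat_lit 512, nat_lit 40448, nat_lit 2, nat_lit 0⟩, ⟨false, nat_lit 16384, nat_lit 57344, nat_lit 1, nat_lit 1⟩,
    ⟨false, nat_lit 8192, nat_lit 57344, nat_lit 1, nat_lit 1⟩]

def r49_1_3 : List Wr := [
    ⟨false, nat_lit 64, nat_lit 127, nat_lit 2, nat_lit 2⟩, ⟨false, nat_lit 8, nat_lit 79, nat_lit 2, nat_lit 0⟩, ⟨true, nat_lit 1, nat_lit 73, nat_lit 1, nat_lit 1⟩,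
    ⟨true, nat_lit 4, nat_lit 78, nat_lit 1, nat_lit 2⟩, ⟨false, nat_lit 128, nat_lit 178, nat_lit 1, nat_lit 2⟩, ⟨false, nat_lit 32, nat_lit 242, nat_lit 2, nat_lit 0⟩,
    ⟨true, nat_lit 2, nat_lit 238, nat_lit 2, nat_lit 1⟩, ⟨false, nat_lit 2048, nat_lit 3856, nat_lit 2, nat_lit 0⟩, ⟨false, nat_lit 256, nat_lit 2320, nat_lit 1, nat_lit 1⟩,
    ⟨true, nat_lit 16, nat_lit 2544, nat_lit 2, nat_lit 1⟩, ⟨true, nat_lit 1024, nat_lit 3584, nat_lit 1, nat_lit 1⟩, ⟨false, nat_lit 32768, nat_lit 61952, nat_lit 2, nat_lit 0⟩,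
    ⟨false, nat_lit 4096, nat_lit 37376, nat_lit 1, nat_lit 1⟩, ⟨true, nat_lit 512, nat_lit 40448, nat_lit 2, nat_lit 0⟩, ⟨false, nat_lit 16384, nat_lit 57344, nat_lit 1, nat_lit 1⟩,
    ⟨false, nat_lit 8192, nat_lit 57344, nat_lit 1, nat_lit 1⟩]

def r49_1_4 : List Wr := [
    ⟨false, nat_lit 64, nat_lit 127, nat_lit 2, nat_lit 2⟩, ⟨false, nat_lit 8, nat_lit 79, nat_lit 2, nat_lit 0⟩, ⟨true, nat_lit 1, nat_lit 73, nat_lit 1, nat_lit 1⟩,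
    ⟨false, nat_lit 32768, nat_lit 65462, nat_lit 4, nat_lit 2⟩, ⟨false, nat_lit 2048, nat_lit 36790, nat_lit 3, nat_lit 2⟩, ⟨true, nat_lit 4, nat_lit 34894, nat_lit 2, nat_lit 1⟩,
    ⟨false, nat_lit 256, nat_lit 35250, nat_lit 2, nat_lit 2⟩, ⟨true, nat_lit 32, nat_lit 35186, nat_lit 2, nat_lit 2⟩, ⟨false, nat_lit 4096, nat_lit 38546, nat_lit 2, nat_lit 2⟩,
    ⟨false, nat_lit 128, nat_lit 39314, nat_lit 2, nat_lit 2⟩, ⟨true, nat_lit 2, nat_lit 39406, nat_lit 3, nat_lit 2⟩, ⟨true, nat_lit 1024, nat_lit 40464, nat_lit 2, nat_lit 1⟩,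
    ⟨false, nat_lit 16384, nat_lit 57872, nat_lit 2, nat_lit 0⟩, ⟨false, nat_lit 512, nat_lit 56848, nat_lit 2, nat_lit 2⟩, ⟨true, nat_lit 16, nat_lit 57328, nat_lit 4, nat_lit 0⟩,
    ⟨false, nat_lit 8192, nat_lit 57344, nat_lit 1, nat_lit 1⟩]

def l49_1 : List (Nat × List Wr × Nat) := [
  (nat_lit 6, r49_1_0, nat_lit 0), (nat_lit 6, r49_1_1, nat_lit 0), (nat_lit 4, r49_1_2, nat_lit 0),
  (nat_lit 4, r49_1_3, nat_lit 0), (nat_lit 6, r49_1_4, nat_lit 0)]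

def r49_2_0 : List Wr := [
    ⟨false, nat_lit 64, nat_lit 127, nat_lit 2, nat_lit 2⟩, ⟨false, nat_lit 8, nat_lit 79, nat_lit 2, nat_lit 0⟩, ⟨true, nat_lit 1, nat_lit 73, nat_lit 1, nat_lit 1⟩,
    ⟨true, nat_lit 4, nat_lit 78, nat_lit 1, nat_lit 2⟩, ⟨false, nat_lit 2048, nat_lit 4018, nat_lit 3, nat_lit 0⟩, ⟨false, nat_lit 32, nat_lit 2162, nat_lit 2, nat_lit 0⟩,
    ⟨true, nat_lit 2, nat_lit 2158, nat_lit 2, nat_lit 1⟩, ⟨true, nat_lit 256, nat_lit 2448, nat_lit 1, nat_lit 2⟩, ⟨false, nat_lit 4096, nat_lit 5776, nat_lit 1, nat_lit 3⟩,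
    ⟨false, nat_lit 1024, nat_lit 7824, nat_lit 2, nat_lit 1⟩, ⟨true, nat_lit 128, nat_lit 7568, nat_lit 2, nat_lit 1⟩, ⟨false, nat_lit 32768, nat_lit 57872, nat_lit 2, nat_lit 0⟩,
    ⟨false, nat_lit 512, nat_lit 40464, nat_lit 2, nat_lit 1⟩, ⟨true, nat_lit 16, nat_lit 40944, nat_lit 3, nat_lit 2⟩, ⟨false, nat_lit 16384, nat_lit 57344, nat_lit 1, nat_lit 1⟩,
    ⟨false, nat_lit 8192, nat_lit 57344, nat_lit 1, nat_lit 1⟩]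

def r49_2_1 : List Wr := [
    ⟨false, nat_lit 64, nat_lit 127, nat_lit 2, nat_lit 2⟩, ⟨false, nat_lit 8, nat_lit 79, nat_lit 2, nat_lit 0⟩, ⟨true, nat_lit 1, nat_lit 73, nat_lit 1, nat_lit 1⟩,
    ⟨true, nat_lit 4, nat_lit 78, nat_lit 1, nat_lit 2⟩, ⟨false, nat_lit 2048, nat_lit 4018, nat_lit 3, nat_lit 0⟩, ⟨false, nat_lit 32, nat_lit 2162, nat_lit 2, nat_lit 0⟩,
    ⟨true, nat_lit 2, nat_lit 2158, nat_lit 2, nat_lit 1⟩, ⟨false, nat_lit 256, nat_lit 2448, nat_lit 1, nat_lit 2⟩, ⟨true, nat_lit 128, nat_lit 2448, nat_lit 1, nat_lit 2⟩,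
    ⟨false, nat_lit 32768, nat_lit 62992, nat_lit 2, nat_lit 2⟩, ⟨false, nat_lit 1024, nat_lit 36368, nat_lit 2, nat_lit 0⟩, ⟨true, nat_lit 16, nat_lit 36336, nat_lit 3, nat_lit 0⟩,
    ⟨false, nat_lit 16384, nat_lit 61952, nat_lit 2, nat_lit 0⟩, ⟨false, nat_lit 4096, nat_lit 53760, nat_lit 1, nat_lit 2⟩, ⟨true, nat_lit 512, nat_lit 56832, nat_lit 2, nat_lit 1⟩,
    ⟨false, nat_lit 8192, nat_lit 57344, nat_lit 1, nat_lit 1⟩]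

def r49_2_2 : List Wr := [
    ⟨false, nat_lit 64, nat_lit 127, nat_lit 2, nat_lit 2⟩, ⟨false, nat_lit 8, nat_lit 79, nat_lit 2, nat_lit 0⟩, ⟨true, nat_lit 1, nat_lit 73, nat_lit 1, nat_lit 1⟩,
    ⟨true, nat_lit 4, nat_lit 78, nat_lit 1, nat_lit 2⟩, ⟨false, nat_lit 256, nat_lit 434, nat_lit 1, nat_lit 3⟩, ⟨false, nat_lit 32, nat_lit 370, nat_lit 2, nat_lit 0⟩,
    ⟨true, nat_lit 2, nat_lit 366, nat_lit 2, nat_lit 1⟩, ⟨false, nat_lit 2048, nat_lit 3728, nat_lit 2, nat_lit 0⟩, ⟨false, nat_lit 128, nat_lit 2448, nat_lit 1, nat_lit 2⟩,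
    ⟨true, nat_lit 16, nat_lit 2544, nat_lit 2, nat_lit 1⟩, ⟨true, nat_lit 1024, nat_lit 3584, nat_lit 1, nat_lit 1⟩, ⟨false, nat_lit 32768, nat_lit 61952, nat_lit 2, nat_lit 0⟩,
    ⟨false, nat_lit 4096, nat_lit 37376, nat_lit 1, nat_lit 1⟩, ⟨true, nat_lit 512, nat_lit 40448, nat_lit 2, nat_lit 0⟩, ⟨false, nat_lit 16384, nat_lit 57344, nat_lit 1, nat_lit 1⟩,
    ⟨false, nat_lit 8192, nat_lit 57344, nat_lit 1, nat_lit 1⟩]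

def r49_2_3 : List Wr := [
    ⟨false, nat_lit 256, nat_lit 511, nat_lit 2, nat_lit 4⟩, ⟨false, nat_lit 8, nat_lit 271, nat_lit 2, nat_lit 0⟩, ⟨true, nat_lit 1, nat_lit 265, nat_lit 1, nat_lit 1⟩,
    ⟨false, nat_lit 128, nat_lit 502, nat_lit 2, nat_lit 2⟩, ⟨false, nat_lit 64, nat_lit 502, nat_lit 2, nat_lit 2⟩, ⟨true, nat_lit 4, nat_lit 462, nat_lit 2, nat_lit 1⟩,
    ⟨true, nat_lit 32, nat_lit 498, nat_lit 2, nat_lit 1⟩, ⟨false, nat_lit 2048, nat_lit 3602, nat_lit 2, nat_lit 0⟩, ⟨false, nat_lit 16, nat_lit 2546, nat_lit 2, nat_lit 2⟩,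
    ⟨true, nat_lit 2, nat_lit 2558, nat_lit 3, nat_lit 1⟩, ⟨true, nat_lit 1024, nat_lit 3584, nat_lit 1, nat_lit 1⟩, ⟨false, nat_lit 32768, nat_lit 61952, nat_lit 2, nat_lit 0⟩,
    ⟨false, nat_lit 4096, nat_lit 37376, nat_lit 1, nat_lit 1⟩, ⟨true, nat_lit 512, nat_lit 40448, nat_lit 2, nat_lit 0⟩, ⟨false, nat_lit 16384, nat_lit 57344, nat_lit 1, nat_lit 1⟩,
    ⟨false, nat_lit 8192, nat_lit 57344, nat_lit 1, nat_lit 1⟩]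

def r49_2_4 : List Wr := [
    ⟨false, nat_lit 32768, nat_lit 65535, nat_lit 5, nat_lit 2⟩, ⟨false, nat_lit 8, nat_lit 32783, nat_lit 2, nat_lit 0⟩, ⟨true, nat_lit 1, nat_lit 32777, nat_lit 1, nat_lit 1⟩,
    ⟨false, nat_lit 2048, nat_lit 36854, nat_lit 3, nat_lit 3⟩, ⟨true, nat_lit 64, nat_lit 34934, nat_lit 2, nat_lit 2⟩, ⟨false, nat_lit 4096, nat_lit 38838, nat_lit 3, nat_lit 2⟩,
    ⟨false, nat_lit 256, nat_lit 39350, nat_lit 3, nat_lit 1⟩, ⟨true, nat_lit 4, nat_lit 39246, nat_lit 3, nat_lit 0⟩, ⟨false, nat_lit 1024, nat_lit 40626, nat_lit 2, nat_lit 4⟩,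
    ⟨false, nat_lit 512, nat_lit 40626, nat_lit 3, nat_lit 1⟩, ⟨false, nat_lit 128, nat_lit 40882, nat_lit 3, nat_lit 2⟩, ⟨true, nat_lit 32, nat_lit 40946, nat_lit 3, nat_lit 3⟩,
    ⟨false, nat_lit 16384, nat_lit 57362, nat_lit 2, nat_lit 0⟩, ⟨false, nat_lit 16, nat_lit 57330, nat_lit 4, nat_lit 1⟩, ⟨true, nat_lit 2, nat_lit 57342, nat_lit 4, nat_lit 3⟩,
    ⟨false, nat_lit 8192, nat_lit 57344, nat_lit 1, nat_lit 1⟩]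

def r49_2_5 : List Wr := [
    ⟨true, nat_lit 1, nat_lit 1, nat_lit 0, nat_lit 2⟩, ⟨true, nat_lit 8, nat_lit 14, nat_lit 1, nat_lit 1⟩, ⟨false, nat_lit 2048, nat_lit 4086, nat_lit 3, nat_lit 2⟩,
    ⟨false, nat_lit 64, nat_lit 2166, nat_lit 2, nat_lit 1⟩, ⟨true, nat_lit 4, nat_lit 2126, nat_lit 2, nat_lit 0⟩, ⟨false, nat_lit 256, nat_lit 2482, nat_lit 2, nat_lit 1⟩,
    ⟨false, nat_lit 32, nat_lit 2418, nat_lit 2, nat_lit 1⟩, ⟨true, nat_lit 2, nat_lit 2414, nat_lit 2, nat_lit 2⟩, ⟨true, nat_lit 128, nat_lit 2448, nat_lit 1, nat_lit 2⟩,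
    ⟨false, nat_lit 32768, nat_lit 62992, nat_lit 2, nat_lit 2⟩, ⟨false, nat_lit 1024, nat_lit 36368, nat_lit 2, nat_lit 0⟩, ⟨true, nat_lit 16, nat_lit 36336, nat_lit 3, nat_lit 0⟩,
    ⟨false, nat_lit 16384, nat_lit 61952, nat_lit 2, nat_lit 0⟩, ⟨false, nat_lit 4096, nat_lit 53760, nat_lit 1, nat_lit 2⟩, ⟨true, nat_lit 512, nat_lit 56832, nat_lit 2, nat_lit 1⟩,
    ⟨false, nat_lit 8192, nat_lit 57344, nat_lit 1, nat_lit 1⟩]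

def l49_2 : List (Nat × List Wr × Nat) := [
  (nat_lit 6, r49_2_0, nat_lit 0), (nat_lit 4, r49_2_1, nat_lit 0), (nat_lit 6, r49_2_2, nat_lit 0),
  (nat_lit 6, r49_2_3, nat_lit 0), (nat_lit 6, r49_2_4, nat_lit 0), (nat_lit 6, r49_2_5, nat_lit 0)]

def r33_0_0 : List Wr := [
    ⟨true, nat_lit 4, nat_lit 7, nat_lit 1, nat_lit 1⟩, ⟨false, nat_lit 256, nat_lit 507, nat_lit 3, nat_lit 0⟩, ⟨false, nat_lit 16, nat_lit 283, nat_lit 1, nat_lit 3⟩,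
    ⟨true, nat_lit 2, nat_lit 279, nat_lit 2, nat_lit 0⟩, ⟨true, nat_lit 32, nat_lit 297, nat_lit 1, nat_lit 2⟩, ⟨false, nat_lit 4096, nat_lit 7881, nat_lit 3, nat_lit 0⟩,
    ⟨false, nat_lit 128, nat_lit 4553, nat_lit 2, nat_lit 1⟩, ⟨true, nat_lit 8, nat_lit 4537, nat_lit 2, nat_lit 2⟩, ⟨true, nat_lit 512, nat_lit 4673, nat_lit 1, nat_lit 2⟩,
    ⟨false, nat_lit 32768, nat_lit 60481, nat_lit 2, nat_lit 2⟩, ⟨false, nat_lit 2048, nat_lit 40001, nat_lit 2, nat_lit 1⟩, ⟨true, nat_lit 64, nat_lit 39873, nat_lit 3, nat_lit 0⟩,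
    ⟨false, nat_lit 16384, nat_lit 58369, nat_lit 2, nat_lit 0⟩, ⟨false, nat_lit 1024, nat_lit 56321, nat_lit 2, nat_lit 1⟩, ⟨true, nat_lit 1, nat_lit 57343, nat_lit 4, nat_lit 4⟩,
    ⟨false, nat_lit 8192, nat_lit 57344, nat_lit 1, nat_lit 1⟩]

def l33_0 : List (Nat × List Wr × Nat) := [
  (nat_lit 5, r33_0_0, nat_lit 0)]

end Pool.Agent.EC4.Run
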