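import Pool.Agent.Lib.MP_ec4eff_co.R5.Srch

/-! Generated file (project R5): results of the first lune -/

namespace Pool.Agent.EC4.Run

def r12_0_0 : List Wr := [
    ⟨true, nat_lit 4, nat_lit 7, nat_lit 1, nat_lit 1⟩, ⟨false, nat_lit 64, nat_lit 123, nat_lit 2, nat_lit 1⟩, ⟨false, nat_lit 8, nat_lit 75, nat_lit 1, nat_lit 2⟩,
    ⟨true, nat_lit 2, nat_lit 79, nat_lit 2, nat_lit 0⟩, ⟨false, nat_lit 4096, nat_lit 8113, nat_lit 3, nat_lit 1⟩, ⟨false, nat_lit 32, nat_lit 4209, nat_lit 2, nat_lit 0⟩,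
    ⟨true, nat_lit 1, nat_lit 4207, nat_lit 2, nat_lit 2⟩, ⟨true, nat_lit 512, nat_lit 5008, nat_lit 1, nat_lit 3⟩, ⟨false, nat_lit 2048, nat_lit 7568, nat_lit 2, nat_lit 1⟩,
    ⟨false, nat_lit 256, nat_lit 7056, nat_lit 2, nat_lit 1⟩, ⟨true, nat_lit 16, nat_lit 7024, nat_lit 2, nat_lit 2⟩, ⟨false, nat_lit 32768, nat_lit 58496, nat_lit 2, nat_lit 0⟩,
    ⟨false, nat_lit 1024, nat_lit 40064, nat_lit 2, nat_lit 0⟩, ⟨true, nat_lit 128, nat_lit 40832, nat_lit 2, nat_lit 2⟩, ⟨false, nat_lit 16384, nat_lit 57344, nat_lit 1, nat_lit 1⟩,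
    ⟨false, nat_lit 8192, nat_lit 57344, nat_lit 1, nat_lit 1⟩]

def r12_0_1 : List Wr := [
    ⟨true, nat_lit 4, nat_lit 7, nat_lit 1, nat_lit 1⟩, ⟨false, nat_lit 64, nat_lit 123, nat_lit 2, nat_lit 1⟩, ⟨false, nat_lit 8, nat_lit 75, nat_lit 1, nat_lit 2⟩,
    ⟨true, nat_lit 2, nat_lit 79, nat_lit 2, nat_lit 0⟩, ⟨false, nat_lit 4096, nat_lit 8113, nat_lit 3, nat_lit 1⟩, ⟨false, nat_lit 32, nat_lit 4209, nat_lit 2, nat_lit 0⟩,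
    ⟨true, nat_lit 1, nat_lit 4207, nat_lit 2, nat_lit 2⟩, ⟨false, nat_lit 2048, nat_lit 8080, nat_lit 2, nat_lit 2⟩, ⟨false, nat_lit 512, nat_lit 7056, nat_lit 2, nat_lit 1⟩,
    ⟨true, nat_lit 16, nat_lit 6768, nat_lit 2, nat_lit 1⟩, ⟨true, nat_lit 256, nat_lit 7040, nat_lit 1, nat_lit 3⟩, ⟨false, nat_lit 32768, nat_lit 58496, nat_lit 2, nat_lit 0⟩,
    ⟨false, nat_lit 1024, nat_lit 40064, nat_lit 2, nat_lit 0⟩, ⟨true, nat_lit 128, nat_lit 40832, nat_lit 2, nat_lit 2⟩, ⟨false, nat_lit 16384, nat_lit 57344, nat_lit 1, nat_lit 1⟩,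
    ⟨false, nat_lit 8192, nat_lit 57344, nat_lit 1, nat_lit 1⟩]

def r12_0_2 : List Wr := [
    ⟨true, nat_lit 4, nat_lit 7, nat_lit 1, nat_lit 1⟩, ⟨false, nat_lit 64, nat_lit 123, nat_lit 2, nat_lit 1⟩, ⟨false, nat_lit 8, nat_lit 75, nat_lit 1, nat_lit 2⟩,
    ⟨true, nat_lit 2, nat_lit 79, nat_lit 2, nat_lit 0⟩, ⟨false, nat_lit 4096, nat_lit 8113, nat_lit 3, nat_lit 1⟩, ⟨false, nat_lit 32, nat_lit 4209, nat_lit 2, nat_lit 0⟩,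
    ⟨true, nat_lit 1, nat_lit 4207, nat_lit 2, nat_lit 2⟩, ⟨true, nat_lit 256, nat_lit 4496, nat_lit 1, nat_lit 2⟩, ⟨false, nat_lit 2048, nat_lit 7824, nat_lit 2, nat_lit 1⟩,
    ⟨false, nat_lit 512, nat_lit 6800, nat_lit 1, nat_lit 3⟩, ⟨true, nat_lit 128, nat_lit 7056, nat_lit 2, nat_lit 1⟩, ⟨false, nat_lit 32768, nat_lit 58384, nat_lit 2, nat_lit 0⟩,
    ⟨false, nat_lit 1024, nat_lit 39952, nat_lit 2, nat_lit 0⟩, ⟨true, nat_lit 16, nat_lit 40944, nat_lit 3, nat_lit 2⟩, ⟨false, nat_lit 16384, nat_lit 57344, nat_lit 1, nat_lit 1⟩,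
    ⟨false, nat_lit 8192, nat_lit 57344, nat_lit 1, nat_lit 1⟩]

def r12_0_3 : List Wr := [
    ⟨true, nat_lit 4, nat_lit 7, nat_lit 1, nat_lit 1⟩, ⟨false, nat_lit 4096, nat_lit 8187, nat_lit 4, nat_lit 1⟩, ⟨false, nat_lit 64, nat_lit 4219, nat_lit 2, nat_lit 2⟩,
    ⟨true, nat_lit 2, nat_lit 4167, nat_lit 2, nat_lit 0⟩, ⟨true, nat_lit 32, nat_lit 4217, nat_lit 2, nat_lit 1⟩, ⟨false, nat_lit 512, nat_lit 5017, nat_lit 2, nat_lit 2⟩,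
    ⟨false, nat_lit 16, nat_lit 4729, nat_lit 2, nat_lit 2⟩, ⟨true, nat_lit 8, nat_lit 4729, nat_lit 2, nat_lit 2⟩, ⟨false, nat_lit 2048, nat_lit 7553, nat_lit 2, nat_lit 1⟩,
    ⟨false, nat_lit 256, nat_lit 7041, nat_lit 2, nat_lit 1⟩, ⟨true, nat_lit 1, nat_lit 7039, nat_lit 3, nat_lit 3⟩, ⟨false, nat_lit 32768, nat_lit 58496, nat_lit 2, nat_lit 0⟩,
    ⟨false, nat_lit 1024, nat_lit 40064, nat_lit 2, nat_lit 0⟩, ⟨true, nat_lit 128, nat_lit 40832, nat_lit 2, nat_lit 2⟩, ⟨false, nat_lit 16384, nat_lit 57344, nat_lit 1, nat_lit 1⟩,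
    ⟨false, nat_lit 8192, nat_lit 57344, nat_lit 1, nat_lit 1⟩]

def r12_0_4 : List Wr := [
    ⟨true, nat_lit 4, nat_lit 7, nat_lit 1, nat_lit 1⟩, ⟨false, nat_lit 4096, nat_lit 8187, nat_lit 4, nat_lit 1⟩, ⟨false, nat_lit 64, nat_lit 4219, nat_lit 2, nat_lit 2⟩,
    ⟨true, nat_lit 2, nat_lit 4167, nat_lit 2, nat_lit 0⟩, ⟨false, nat_lit 32, nat_lit 4217, nat_lit 2, nat_lit 1⟩, ⟨true, nat_lit 8, nat_lit 4201, nat_lit 1, nat_lit 3⟩,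
    ⟨false, nat_lit 512, nat_lit 5009, nat_lit 2, nat_lit 1⟩, ⟨false, nat_lit 16, nat_lit 4721, nat_lit 2, nat_lit 1⟩, ⟨true, nat_lit 1, nat_lit 4735, nat_lit 3, nat_lit 1⟩,
    ⟨false, nat_lit 32768, nat_lit 60800, nat_lit 2, nat_lit 2⟩, ⟨false, nat_lit 2048, nat_lit 40320, nat_lit 2, nat_lit 1⟩, ⟨true, nat_lit 256, nat_lit 39808, nat_lit 2, nat_lit 1⟩,
    ⟨false, nat_lit 16384, nat_lit 58496, nat_lit 2, nat_lit 0⟩, ⟨false, nat_lit 1024, nat_lit 56448, nat_lit 2, nat_lit 1⟩, ⟨true, nat_lit 128, nat_lit 57216, nat_lit 2, nat_lit 3⟩,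
    ⟨false, nat_lit 8192, nat_lit 57344, nat_lit 1, nat_lit 1⟩]

def r12_0_5 : List Wr := [
    ⟨true, nat_lit 4, nat_lit 7, nat_lit 1, nat_lit 1⟩, ⟨false, nat_lit 4096, nat_lit 8187, nat_lit 4, nat_lit 1⟩, ⟨false, nat_lit 64, nat_lit 4219, nat_lit 2, nat_lit 2⟩,
    ⟨true, nat_lit 2, nat_lit 4167, nat_lit 2, nat_lit 0⟩, ⟨true, nat_lit 32, nat_lit 4217, nat_lit 2, nat_lit 1⟩, ⟨false, nat_lit 32768, nat_lit 61337, nat_lit 3, nat_lit 3⟩,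
    ⟨false, nat_lit 256, nat_lit 37273, nat_lit 2, nat_lit 2⟩, ⟨true, nat_lit 8, nat_lit 37225, nat_lit 2, nat_lit 2⟩, ⟨false, nat_lit 2048, nat_lit 40593, nat_lit 3, nat_lit 0⟩,
    ⟨false, nat_lit 128, nat_lit 39313, nat_lit 2, nat_lit 2⟩, ⟨true, nat_lit 1, nat_lit 39407, nat_lit 3, nat_lit 3⟩, ⟨true, nat_lit 512, nat_lit 39440, nat_lit 1, nat_lit 3⟩,
    ⟨false, nat_lit 16384, nat_lit 58384, nat_lit 2, nat_lit 0⟩, ⟨false, nat_lit 1024, nat_lit 56336, nat_lit 2, nat_lit 1⟩, ⟨true, nat_lit 16, nat_lit 57328, nat_lit 4, nat_lit 0⟩,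
    ⟨false, nat_lit 8192, nat_lit 57344, nat_lit 1, nat_lit 1⟩]

def r12_0_6 : List Wr := [
    ⟨false, nat_lit 4, nat_lit 7, nat_lit 1, nat_lit 1⟩, ⟨true, nat_lit 2, nat_lit 7, nat_lit 1, nat_lit 1⟩, ⟨false, nat_lit 64, nat_lit 121, nat_lit 2, nat_lit 0⟩,
    ⟨false, nat_lit 8, nat_lit 73, nat_lit 1, nat_lit 1⟩, ⟨true, nat_lit 1, nat_lit 79, nat_lit 2, nat_lit 0⟩, ⟨false, nat_lit 4096, nat_lit 8112, nat_lit 3, nat_lit 0⟩,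
    ⟨false, nat_lit 128, nat_lit 4272, nat_lit 1, nat_lit 2⟩, ⟨true, nat_lit 32, nat_lit 4336, nat_lit 2, nat_lit 0⟩, ⟨true, nat_lit 512, nat_lit 4880, nat_lit 1, nat_lit 2⟩,
    ⟨false, nat_lit 32768, nat_lit 60688, nat_lit 2, nat_lit 2⟩, ⟨false, nat_lit 2048, nat_lit 40208, nat_lit 2, nat_lit 1⟩, ⟨true, nat_lit 256, nat_lit 39696, nat_lit 2, nat_lit 1⟩,
    ⟨false, nat_lit 16384, nat_lit 58384, nat_lit 2, nat_lit 0⟩, ⟨false, nat_lit 1024, nat_lit 56336, nat_lit 2, nat_lit 1⟩, ⟨true, nat_lit 16, nat_lit 57328, nat_lit 3, nat_lit 3⟩,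
    ⟨false, nat_lit 8192, nat_lit 57344, nat_lit 1, nat_lit 1⟩]

def r12_0_7 : List Wr := [
    ⟨false, nat_lit 4, nat_lit 7, nat_lit 1, nat_lit 1⟩, ⟨true, nat_lit 2, nat_lit 7, nat_lit 1, nat_lit 1⟩, ⟨false, nat_lit 64, nat_lit 121, nat_lit 2, nat_lit 0⟩,
    ⟨false, nat_lit 8, nat_lit 73, nat_lit 1, nat_lit 1⟩, ⟨true, nat_lit 1, nat_lit 79, nat_lit 2, nat_lit 0⟩, ⟨false, nat_lit 4096, nat_lit 8112, nat_lit 3, nat_lit 0⟩,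
    ⟨false, nat_lit 256, nat_lit 4528, nat_lit 1, nat_lit 3⟩, ⟨true, nat_lit 32, nat_lit 4464, nat_lit 2, nat_lit 0⟩, ⟨true, nat_lit 512, nat_lit 4752, nat_lit 1, nat_lit 2⟩,
    ⟨false, nat_lit 32768, nat_lit 60560, nat_lit 2, nat_lit 2⟩, ⟨false, nat_lit 2048, nat_lit 40080, nat_lit 2, nat_lit 1⟩, ⟨true, nat_lit 128, nat_lit 39824, nat_lit 2, nat_lit 2⟩,
    ⟨false, nat_lit 16384, nat_lit 58384, nat_lit 2, nat_lit 0⟩, ⟨false, nat_lit 1024, nat_lit 56336, nat_lit 2, nat_lit 1⟩, ⟨true, nat_lit 16, nat_lit 57328, nat_lit 3, nat_lit 3⟩,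
    ⟨false, nat_lit 8192, nat_lit 57344, nat_lit 1, nat_lit 1⟩]

def r12_0_8 : List Wr := [
    ⟨false, nat_lit 4, nat_lit 7, nat_lit 1, nat_lit 1⟩, ⟨true, nat_lit 2, nat_lit 7, nat_lit 1, nat_lit 1⟩, ⟨false, nat_lit 64, nat_lit 121, nat_lit 2, nat_lit 0⟩,
    ⟨false, nat_lit 8, nat_lit 73, nat_lit 1, nat_lit 1⟩, ⟨true, nat_lit 1, nat_lit 79, nat_lit 2, nat_lit 0⟩, ⟨true, nat_lit 32, nat_lit 112, nat_lit 1, nat_lit 1⟩,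
    ⟨false, nat_lit 32768, nat_lit 65424, nat_lit 3, nat_lit 2⟩, ⟨false, nat_lit 128, nat_lit 32912, nat_lit 1, nat_lit 1⟩, ⟨true, nat_lit 16, nat_lit 33008, nat_lit 2, nat_lit 0⟩,
    ⟨true, nat_lit 4096, nat_lit 40704, nat_lit 2, nat_lit 1⟩, ⟨false, nat_lit 16384, nat_lit 61184, nat_lit 2, nat_lit 2⟩, ⟨false, nat_lit 2048, nat_lit 57088, nat_lit 2, nat_lit 2⟩,
    ⟨true, nat_lit 512, nat_lit 56064, nat_lit 2, nat_lit 1⟩, ⟨false, nat_lit 8192, nat_lit 58624, nat_lit 2, nat_lit 0⟩, ⟨false, nat_lit 1024, nat_lit 64768, nat_lit 2, nat_lit 2⟩,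
    ⟨false, nat_lit 256, nat_lit 65280, nat_lit 2, nat_lit 3⟩]

def l12_0 : List (Nat × List Wr × Nat) := [
  (nat_lit 6, r12_0_0, nat_lit 0), (nat_lit 6, r12_0_1, nat_lit 0), (nat_lit 6, r12_0_2, nat_lit 0),
  (nat_lit 6, r12_0_3, nat_lit 0), (nat_lit 6, r12_0_4, nat_lit 0), (nat_lit 6, r12_0_5, nat_lit 0),
  (nat_lit 4, r12_0_6, nat_lit 0), (nat_lit 6, r12_0_7, nat_lit 0), (nat_lit 6, r12_0_8, nat_lit 0)]

def r31_0_0 : List Wr := [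
    ⟨true, nat_lit 4, nat_lit 7, nat_lit 1, nat_lit 1⟩, ⟨false, nat_lit 4096, nat_lit 8187, nat_lit 4, nat_lit 1⟩, ⟨false, nat_lit 16, nat_lit 4123, nat_lit 1, nat_lit 3⟩,
    ⟨true, nat_lit 2, nat_lit 4119, nat_lit 2, nat_lit 0⟩, ⟨true, nat_lit 128, nat_lit 4329, nat_lit 2, nat_lit 1⟩, ⟨false, nat_lit 512, nat_lit 4969, nat_lit 2, nat_lit 2⟩,
    ⟨false, nat_lit 64, nat_lit 4841, nat_lit 2, nat_lit 2⟩, ⟨true, nat_lit 8, nat_lit 4825, nat_lit 2, nat_lit 2⟩, ⟨false, nat_lit 2048, nat_lit 7457, nat_lit 2, nat_lit 1⟩,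
    ⟨false, nat_lit 256, nat_lit 6945, nat_lit 2, nat_lit 1⟩, ⟨true, nat_lit 1, nat_lit 7135, nat_lit 3, nat_lit 3⟩, ⟨false, nat_lit 32768, nat_lit 58400, nat_lit 2, nat_lit 0⟩,
    ⟨false, nat_lit 1024, nat_lit 39968, nat_lit 2, nat_lit 0⟩, ⟨true, nat_lit 32, nat_lit 40928, nat_lit 3, nat_lit 1⟩, ⟨false, nat_lit 16384, nat_lit 57344, nat_lit 1, nat_lit 1⟩,
    ⟨false, nat_lit 8192, nat_lit 57344, nat_lit 1, nat_lit 1⟩]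

def r31_0_1 : List Wr := [
    ⟨true, nat_lit 4, nat_lit 7, nat_lit 1, nat_lit 1⟩, ⟨false, nat_lit 4096, nat_lit 8187, nat_lit 4, nat_lit 1⟩, ⟨false, nat_lit 16, nat_lit 4123, nat_lit 1, nat_lit 3⟩,
    ⟨true, nat_lit 2, nat_lit 4119, nat_lit 2, nat_lit 0⟩, ⟨false, nat_lit 128, nat_lit 4329, nat_lit 2, nat_lit 1⟩, ⟨true, nat_lit 8, nat_lit 4249, nat_lit 1, nat_lit 3⟩,
    ⟨false, nat_lit 512, nat_lit 4961, nat_lit 2, nat_lit 1⟩, ⟨false, nat_lit 64, nat_lit 4833, nat_lit 2, nat_lit 1⟩, ⟨true, nat_lit 1, nat_lit 4831, nat_lit 3, nat_lit 1⟩,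
    ⟨false, nat_lit 32768, nat_lit 60704, nat_lit 2, nat_lit 2⟩, ⟨false, nat_lit 2048, nat_lit 40224, nat_lit 2, nat_lit 1⟩, ⟨true, nat_lit 256, nat_lit 39712, nat_lit 2, nat_lit 1⟩,
    ⟨false, nat_lit 16384, nat_lit 58400, nat_lit 2, nat_lit 0⟩, ⟨false, nat_lit 1024, nat_lit 56352, nat_lit 2, nat_lit 1⟩, ⟨true, nat_lit 32, nat_lit 57312, nat_lit 3, nat_lit 2⟩,
    ⟨false, nat_lit 8192, nat_lit 57344, nat_lit 1, nat_lit 1⟩]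

def r31_0_2 : List Wr := [
    ⟨false, nat_lit 4, nat_lit 7, nat_lit 1, nat_lit 1⟩, ⟨true, nat_lit 2, nat_lit 7, nat_lit 1, nat_lit 1⟩, ⟨false, nat_lit 128, nat_lit 249, nat_lit 2, nat_lit 1⟩,
    ⟨false, nat_lit 16, nat_lit 153, nat_lit 1, nat_lit 2⟩, ⟨true, nat_lit 1, nat_lit 151, nat_lit 2, nat_lit 0⟩, ⟨false, nat_lit 4096, nat_lit 8040, nat_lit 3, nat_lit 0⟩,
    ⟨false, nat_lit 64, nat_lit 4328, nat_lit 2, nat_lit 0⟩, ⟨true, nat_lit 8, nat_lit 4312, nat_lit 1, nat_lit 3⟩, ⟨true, nat_lit 512, nat_lit 4896, nat_lit 1, nat_lit 2⟩,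
    ⟨false, nat_lit 32768, nat_lit 60704, nat_lit 2, nat_lit 2⟩, ⟨false, nat_lit 2048, nat_lit 40224, nat_lit 2, nat_lit 1⟩, ⟨true, nat_lit 256, nat_lit 39712, nat_lit 2, nat_lit 1⟩,
    ⟨false, nat_lit 16384, nat_lit 58400, nat_lit 2, nat_lit 0⟩, ⟨false, nat_lit 1024, nat_lit 56352, nat_lit 2, nat_lit 1⟩, ⟨true, nat_lit 32, nat_lit 57312, nat_lit 3, nat_lit 2⟩,
    ⟨false, nat_lit 8192, nat_lit 57344, nat_lit 1, nat_lit 1⟩]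

def l31_0 : List (Nat × List Wr × Nat) := [
  (nat_lit 5, r31_0_0, nat_lit 0), (nat_lit 5, r31_0_1, nat_lit 0), (nat_lit 5, r31_0_2, nat_lit 0)]

def r42_0_0 : List Wr := [
    ⟨true, nat_lit 8, nat_lit 15, nat_lit 1, nat_lit 2⟩, ⟨false, nat_lit 64, nat_lit 119, nat_lit 2, nat_lit 1⟩, ⟨false, nat_lit 4, nat_lit 79, nat_lit 2, nat_lit 0⟩,
    ⟨true, nat_lit 1, nat_lit 77, nat_lit 1, nat_lit 2⟩, ⟨false, nat_lit 512, nat_lit 946, nat_lit 2, nat_lit 1⟩, ⟨false, nat_lit 32, nat_lit 626, nat_lit 2, nat_lit 0⟩,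
    ⟨true, nat_lit 2, nat_lit 622, nat_lit 2, nat_lit 1⟩, ⟨false, nat_lit 32768, nat_lit 64912, nat_lit 3, nat_lit 1⟩, ⟨false, nat_lit 256, nat_lit 33680, nat_lit 2, nat_lit 0⟩,
    ⟨true, nat_lit 16, nat_lit 33648, nat_lit 2, nat_lit 1⟩, ⟨false, nat_lit 4096, nat_lit 40064, nat_lit 1, nat_lit 3⟩, ⟨true, nat_lit 1024, nat_lit 38016, nat_lit 1, nat_lit 2⟩,
    ⟨false, nat_lit 16384, nat_lit 59520, nat_lit 2, nat_lit 0⟩, ⟨false, nat_lit 2048, nat_lit 55424, nat_lit 1, nat_lit 3⟩, ⟨true, nat_lit 128, nat_lit 57216, nat_lit 3, nat_lit 0⟩,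
    ⟨false, nat_lit 8192, nat_lit 57344, nat_lit 1, nat_lit 1⟩]

def r42_0_1 : List Wr := [
    ⟨false, nat_lit 64, nat_lit 127, nat_lit 2, nat_lit 2⟩, ⟨false, nat_lit 8, nat_lit 79, nat_lit 2, nat_lit 0⟩, ⟨true, nat_lit 1, nat_lit 73, nat_lit 1, nat_lit 1⟩,
    ⟨false, nat_lit 32768, nat_lit 65462, nat_lit 4, nat_lit 2⟩, ⟨false, nat_lit 32, nat_lit 32886, nat_lit 2, nat_lit 1⟩, ⟨true, nat_lit 4, nat_lit 32878, nat_lit 2, nat_lit 1⟩,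
    ⟨false, nat_lit 512, nat_lit 33682, nat_lit 2, nat_lit 1⟩, ⟨true, nat_lit 16, nat_lit 33394, nat_lit 2, nat_lit 1⟩, ⟨false, nat_lit 4096, nat_lit 40322, nat_lit 2, nat_lit 2⟩,
    ⟨false, nat_lit 256, nat_lit 37762, nat_lit 2, nat_lit 1⟩, ⟨true, nat_lit 2, nat_lit 37758, nat_lit 3, nat_lit 2⟩, ⟨true, nat_lit 1024, nat_lit 38016, nat_lit 1, nat_lit 2⟩,
    ⟨false, nat_lit 16384, nat_lit 59520, nat_lit 2, nat_lit 0⟩, ⟨false, nat_lit 2048, nat_lit 55424, nat_lit 1, nat_lit 3⟩, ⟨true, nat_lit 128, nat_lit 57216, nat_lit 3, nat_lit 0⟩,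
    ⟨false, nat_lit 8192, nat_lit 57344, nat_lit 1, nat_lit 1⟩]

def r42_0_2 : List Wr := [
    ⟨false, nat_lit 64, nat_lit 127, nat_lit 2, nat_lit 2⟩, ⟨false, nat_lit 8, nat_lit 79, nat_lit 2, nat_lit 0⟩, ⟨true, nat_lit 1, nat_lit 73, nat_lit 1, nat_lit 1⟩,
    ⟨true, nat_lit 4, nat_lit 78, nat_lit 1, nat_lit 2⟩, ⟨false, nat_lit 512, nat_lit 946, nat_lit 2, nat_lit 1⟩, ⟨false, nat_lit 32, nat_lit 626, nat_lit 2, nat_lit 0⟩,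
    ⟨true, nat_lit 2, nat_lit 622, nat_lit 2, nat_lit 1⟩, ⟨false, nat_lit 32768, nat_lit 64912, nat_lit 3, nat_lit 1⟩, ⟨false, nat_lit 256, nat_lit 33680, nat_lit 2, nat_lit 0⟩,
    ⟨true, nat_lit 16, nat_lit 33648, nat_lit 2, nat_lit 1⟩, ⟨false, nat_lit 4096, nat_lit 40064, nat_lit 1, nat_lit 3⟩, ⟨true, nat_lit 1024, nat_lit 38016, nat_lit 1, nat_lit 2⟩,
    ⟨false, nat_lit 16384, nat_lit 59520, nat_lit 2, nat_lit 0⟩, ⟨false, nat_lit 2048, nat_lit 55424, nat_lit 1, nat_lit 3⟩, ⟨true, nat_lit 128, nat_lit 57216, nat_lit 3, nat_lit 0⟩,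
    ⟨false, nat_lit 8192, nat_lit 57344, nat_lit 1, nat_lit 1⟩]

def l42_0 : List (Nat × List Wr × Nat) := [
  (nat_lit 5, r42_0_0, nat_lit 0), (nat_lit 5, r42_0_1, nat_lit 0), (nat_lit 5, r42_0_2, nat_lit 0)]

end Pool.Agent.EC4.Run
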