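import Pool.Agent.Lib.MP_ec4eff_co.R5.Srch

/-! Generated file (project R5): results of the first lune -/

namespace Pool.Agent.EC4.Run

def r65_0_0 : List Wr := [
    ⟨true, nat_lit 8, nat_lit 15, nat_lit 1, nat_lit 2⟩, ⟨false, nat_lit 16, nat_lit 23, nat_lit 1, nat_lit 2⟩, ⟨false, nat_lit 4, nat_lit 31, nat_lit 2, nat_lit 0⟩,
    ⟨true, nat_lit 1, nat_lit 29, nat_lit 1, nat_lit 2⟩, ⟨false, nat_lit 256, nat_lit 482, nat_lit 2, nat_lit 0⟩, ⟨false, nat_lit 32, nat_lit 290, nat_lit 1, nat_lit 1⟩,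
    ⟨true, nat_lit 2, nat_lit 318, nat_lit 2, nat_lit 1⟩, ⟨false, nat_lit 32768, nat_lit 65216, nat_lit 3, nat_lit 1⟩, ⟨false, nat_lit 2048, nat_lit 36544, nat_lit 2, nat_lit 1⟩,
    ⟨true, nat_lit 128, nat_lit 35264, nat_lit 2, nat_lit 0⟩, ⟨false, nat_lit 4096, nat_lit 38464, nat_lit 1, nat_lit 3⟩, ⟨true, nat_lit 1024, nat_lit 40512, nat_lit 2, nat_lit 1⟩,
    ⟨false, nat_lit 16384, nat_lit 57920, nat_lit 2, nat_lit 0⟩, ⟨false, nat_lit 512, nat_lit 56896, nat_lit 2, nat_lit 2⟩, ⟨true, nat_lit 64, nat_lit 57280, nat_lit 3, nat_lit 1⟩,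
    ⟨false, nat_lit 8192, nat_lit 57344, nat_lit 1, nat_lit 1⟩]

def r65_0_1 : List Wr := [
    ⟨true, nat_lit 8, nat_lit 15, nat_lit 1, nat_lit 2⟩, ⟨false, nat_lit 256, nat_lit 503, nat_lit 3, nat_lit 0⟩, ⟨false, nat_lit 4, nat_lit 271, nat_lit 2, nat_lit 0⟩,
    ⟨true, nat_lit 1, nat_lit 269, nat_lit 1, nat_lit 2⟩, ⟨true, nat_lit 32, nat_lit 306, nat_lit 1, nat_lit 2⟩, ⟨false, nat_lit 2048, nat_lit 3794, nat_lit 2, nat_lit 2⟩,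
    ⟨false, nat_lit 128, nat_lit 2514, nat_lit 2, nat_lit 1⟩, ⟨true, nat_lit 16, nat_lit 2482, nat_lit 2, nat_lit 1⟩, ⟨false, nat_lit 1024, nat_lit 3650, nat_lit 2, nat_lit 0⟩,
    ⟨false, nat_lit 64, nat_lit 3522, nat_lit 2, nat_lit 1⟩, ⟨true, nat_lit 2, nat_lit 3582, nat_lit 3, nat_lit 2⟩, ⟨false, nat_lit 32768, nat_lit 61952, nat_lit 2, nat_lit 0⟩,
    ⟨false, nat_lit 4096, nat_lit 37376, nat_lit 1, nat_lit 1⟩, ⟨true, nat_lit 512, nat_lit 40448, nat_lit 2, nat_lit 0⟩, ⟨false, nat_lit 16384, nat_lit 57344, nat_lit 1, nat_lit 1⟩,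
    ⟨false, nat_lit 8192, nat_lit 57344, nat_lit 1, nat_lit 1⟩]

def r65_0_2 : List Wr := [
    ⟨true, nat_lit 8, nat_lit 15, nat_lit 1, nat_lit 2⟩, ⟨false, nat_lit 256, nat_lit 503, nat_lit 3, nat_lit 0⟩, ⟨false, nat_lit 4, nat_lit 271, nat_lit 2, nat_lit 0⟩,
    ⟨true, nat_lit 1, nat_lit 269, nat_lit 1, nat_lit 2⟩, ⟨false, nat_lit 32, nat_lit 306, nat_lit 1, nat_lit 2⟩, ⟨true, nat_lit 16, nat_lit 306, nat_lit 1, nat_lit 2⟩,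
    ⟨false, nat_lit 2048, nat_lit 3778, nat_lit 2, nat_lit 1⟩, ⟨false, nat_lit 128, nat_lit 2498, nat_lit 2, nat_lit 0⟩, ⟨true, nat_lit 2, nat_lit 2494, nat_lit 3, nat_lit 0⟩,
    ⟨false, nat_lit 32768, nat_lit 63040, nat_lit 2, nat_lit 2⟩, ⟨false, nat_lit 1024, nat_lit 36416, nat_lit 2, nat_lit 0⟩, ⟨true, nat_lit 64, nat_lit 36288, nat_lit 2, nat_lit 1⟩,
    ⟨false, nat_lit 16384, nat_lit 61952, nat_lit 2, nat_lit 0⟩, ⟨false, nat_lit 4096, nat_lit 53760, nat_lit 1, nat_lit 2⟩, ⟨true, nat_lit 512, nat_lit 56832, nat_lit 2, nat_lit 1⟩,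
    ⟨false, nat_lit 8192, nat_lit 57344, nat_lit 1, nat_lit 1⟩]

def r65_0_3 : List Wr := [
    ⟨false, nat_lit 16, nat_lit 31, nat_lit 1, nat_lit 3⟩, ⟨false, nat_lit 8, nat_lit 31, nat_lit 2, nat_lit 0⟩, ⟨true, nat_lit 1, nat_lit 25, nat_lit 1, nat_lit 1⟩,
    ⟨false, nat_lit 2048, nat_lit 4070, nat_lit 3, nat_lit 1⟩, ⟨false, nat_lit 256, nat_lit 2534, nat_lit 2, nat_lit 2⟩, ⟨true, nat_lit 4, nat_lit 2334, nat_lit 2, nat_lit 1⟩,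
    ⟨false, nat_lit 128, nat_lit 2530, nat_lit 2, nat_lit 1⟩, ⟨true, nat_lit 32, nat_lit 2466, nat_lit 1, nat_lit 3⟩, ⟨false, nat_lit 1024, nat_lit 3650, nat_lit 2, nat_lit 0⟩,
    ⟨false, nat_lit 64, nat_lit 3522, nat_lit 2, nat_lit 1⟩, ⟨true, nat_lit 2, nat_lit 3582, nat_lit 3, nat_lit 2⟩, ⟨false, nat_lit 32768, nat_lit 61952, nat_lit 2, nat_lit 0⟩,
    ⟨false, nat_lit 4096, nat_lit 37376, nat_lit 1, nat_lit 1⟩, ⟨true, nat_lit 512, nat_lit 40448, nat_lit 2, nat_lit 0⟩, ⟨false, nat_lit 16384, nat_lit 57344, nat_lit 1, nat_lit 1⟩,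
    ⟨false, nat_lit 8192, nat_lit 57344, nat_lit 1, nat_lit 1⟩]

def r65_0_4 : List Wr := [
    ⟨false, nat_lit 16, nat_lit 31, nat_lit 1, nat_lit 3⟩, ⟨false, nat_lit 8, nat_lit 31, nat_lit 2, nat_lit 0⟩, ⟨true, nat_lit 1, nat_lit 25, nat_lit 1, nat_lit 1⟩,
    ⟨true, nat_lit 4, nat_lit 30, nat_lit 1, nat_lit 2⟩, ⟨false, nat_lit 256, nat_lit 482, nat_lit 2, nat_lit 0⟩, ⟨false, nat_lit 32, nat_lit 290, nat_lit 1, nat_lit 1⟩,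
    ⟨true, nat_lit 2, nat_lit 318, nat_lit 2, nat_lit 1⟩, ⟨false, nat_lit 32768, nat_lit 65216, nat_lit 3, nat_lit 1⟩, ⟨false, nat_lit 2048, nat_lit 36544, nat_lit 2, nat_lit 1⟩,
    ⟨true, nat_lit 128, nat_lit 35264, nat_lit 2, nat_lit 0⟩, ⟨false, nat_lit 4096, nat_lit 38464, nat_lit 1, nat_lit 3⟩, ⟨true, nat_lit 1024, nat_lit 40512, nat_lit 2, nat_lit 1⟩,
    ⟨false, nat_lit 16384, nat_lit 57920, nat_lit 2, nat_lit 0⟩, ⟨false, nat_lit 512, nat_lit 56896, nat_lit 2, nat_lit 2⟩, ⟨true, nat_lit 64, nat_lit 57280, nat_lit 3, nat_lit 1⟩,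
    ⟨false, nat_lit 8192, nat_lit 57344, nat_lit 1, nat_lit 1⟩]

def r65_0_5 : List Wr := [
    ⟨false, nat_lit 256, nat_lit 511, nat_lit 2, nat_lit 4⟩, ⟨false, nat_lit 32, nat_lit 319, nat_lit 2, nat_lit 2⟩, ⟨false, nat_lit 8, nat_lit 303, nat_lit 2, nat_lit 1⟩,
    ⟨true, nat_lit 1, nat_lit 297, nat_lit 1, nat_lit 2⟩, ⟨false, nat_lit 128, nat_lit 470, nat_lit 2, nat_lit 1⟩, ⟨false, nat_lit 16, nat_lit 438, nat_lit 2, nat_lit 1⟩,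
    ⟨true, nat_lit 4, nat_lit 446, nat_lit 2, nat_lit 2⟩, ⟨false, nat_lit 2048, nat_lit 3650, nat_lit 2, nat_lit 0⟩, ⟨false, nat_lit 64, nat_lit 2498, nat_lit 2, nat_lit 0⟩,
    ⟨true, nat_lit 2, nat_lit 2558, nat_lit 3, nat_lit 1⟩, ⟨true, nat_lit 1024, nat_lit 3584, nat_lit 1, nat_lit 1⟩, ⟨false, nat_lit 32768, nat_lit 61952, nat_lit 2, nat_lit 0⟩,
    ⟨false, nat_lit 4096, nat_lit 37376, nat_lit 1, nat_lit 1⟩, ⟨true, nat_lit 512, nat_lit 40448, nat_lit 2, nat_lit 0⟩, ⟨false, nat_lit 16384, nat_lit 57344, nat_lit 1, nat_lit 1⟩,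
    ⟨false, nat_lit 8192, nat_lit 57344, nat_lit 1, nat_lit 1⟩]

def l65_0 : List (Nat × List Wr × Nat) := [
  (nat_lit 6, r65_0_0, nat_lit 0), (nat_lit 4, r65_0_1, nat_lit 0), (nat_lit 4, r65_0_2, nat_lit 0),
  (nat_lit 6, r65_0_3, nat_lit 0), (nat_lit 6, r65_0_4, nat_lit 0), (nat_lit 6, r65_0_5, nat_lit 0)]

def r65_1_0 : List Wr := [
    ⟨false, nat_lit 256, nat_lit 511, nat_lit 3, nat_lit 1⟩, ⟨false, nat_lit 8, nat_lit 271, nat_lit 2, nat_lit 0⟩, ⟨true, nat_lit 1, nat_lit 265, nat_lit 1, nat_lit 1⟩,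
    ⟨true, nat_lit 32, nat_lit 310, nat_lit 1, nat_lit 3⟩, ⟨false, nat_lit 128, nat_lit 470, nat_lit 2, nat_lit 1⟩, ⟨false, nat_lit 16, nat_lit 438, nat_lit 2, nat_lit 1⟩,
    ⟨true, nat_lit 4, nat_lit 446, nat_lit 2, nat_lit 2⟩, ⟨false, nat_lit 2048, nat_lit 3650, nat_lit 2, nat_lit 0⟩, ⟨false, nat_lit 64, nat_lit 2498, nat_lit 2, nat_lit 0⟩,
    ⟨true, nat_lit 2, nat_lit 2558, nat_lit 3, nat_lit 1⟩, ⟨true, nat_lit 1024, nat_lit 3584, nat_lit 1, nat_lit 1⟩, ⟨false, nat_lit 32768, nat_lit 61952, nat_lit 2, nat_lit 0⟩,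
    ⟨false, nat_lit 4096, nat_lit 37376, nat_lit 1, nat_lit 1⟩, ⟨true, nat_lit 512, nat_lit 40448, nat_lit 2, nat_lit 0⟩, ⟨false, nat_lit 16384, nat_lit 57344, nat_lit 1, nat_lit 1⟩,
    ⟨false, nat_lit 8192, nat_lit 57344, nat_lit 1, nat_lit 1⟩]

def r65_1_1 : List Wr := [
    ⟨false, nat_lit 256, nat_lit 511, nat_lit 3, nat_lit 1⟩, ⟨false, nat_lit 8, nat_lit 271, nat_lit 2, nat_lit 0⟩, ⟨true, nat_lit 1, nat_lit 265, nat_lit 1, nat_lit 1⟩,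
    ⟨false, nat_lit 32, nat_lit 310, nat_lit 1, nat_lit 3⟩, ⟨true, nat_lit 4, nat_lit 302, nat_lit 1, nat_lit 3⟩, ⟨false, nat_lit 2048, nat_lit 3794, nat_lit 2, nat_lit 2⟩,
    ⟨false, nat_lit 128, nat_lit 2514, nat_lit 2, nat_lit 1⟩, ⟨true, nat_lit 16, nat_lit 2482, nat_lit 2, nat_lit 1⟩, ⟨false, nat_lit 1024, nat_lit 3650, nat_lit 2, nat_lit 0⟩,
    ⟨false, nat_lit 64, nat_lit 3522, nat_lit 2, nat_lit 1⟩, ⟨true, nat_lit 2, nat_lit 3582, nat_lit 3, nat_lit 2⟩, ⟨false, nat_lit 32768, nat_lit 61952, nat_lit 2, nat_lit 0⟩,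
    ⟨false, nat_lit 4096, nat_lit 37376, nat_lit 1, nat_lit 1⟩, ⟨true, nat_lit 512, nat_lit 40448, nat_lit 2, nat_lit 0⟩, ⟨false, nat_lit 16384, nat_lit 57344, nat_lit 1, nat_lit 1⟩,
    ⟨false, nat_lit 8192, nat_lit 57344, nat_lit 1, nat_lit 1⟩]

def r65_1_2 : List Wr := [
    ⟨false, nat_lit 256, nat_lit 511, nat_lit 3, nat_lit 1⟩, ⟨false, nat_lit 8, nat_lit 271, nat_lit 2, nat_lit 0⟩, ⟨true, nat_lit 1, nat_lit 265, nat_lit 1, nat_lit 1⟩,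
    ⟨true, nat_lit 32, nat_lit 310, nat_lit 1, nat_lit 3⟩, ⟨false, nat_lit 128, nat_lit 470, nat_lit 2, nat_lit 1⟩, ⟨false, nat_lit 16, nat_lit 438, nat_lit 2, nat_lit 1⟩,
    ⟨true, nat_lit 4, nat_lit 446, nat_lit 2, nat_lit 2⟩, ⟨false, nat_lit 2048, nat_lit 3650, nat_lit 1, nat_lit 3⟩, ⟨false, nat_lit 1024, nat_lit 3650, nat_lit 2, nat_lit 0⟩,
    ⟨false, nat_lit 64, nat_lit 3522, nat_lit 2, nat_lit 1⟩, ⟨true, nat_lit 2, nat_lit 3582, nat_lit 3, nat_lit 2⟩, ⟨false, nat_lit 32768, nat_lit 61952, nat_lit 2, nat_lit 0⟩,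
    ⟨false, nat_lit 4096, nat_lit 37376, nat_lit 1, nat_lit 1⟩, ⟨true, nat_lit 512, nat_lit 40448, nat_lit 2, nat_lit 0⟩, ⟨false, nat_lit 16384, nat_lit 57344, nat_lit 1, nat_lit 1⟩,
    ⟨false, nat_lit 8192, nat_lit 57344, nat_lit 1, nat_lit 1⟩]

def r65_1_3 : List Wr := [
    ⟨false, nat_lit 256, nat_lit 511, nat_lit 3, nat_lit 1⟩, ⟨false, nat_lit 8, nat_lit 271, nat_lit 2, nat_lit 0⟩, ⟨true, nat_lit 1, nat_lit 265, nat_lit 1, nat_lit 1⟩,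
    ⟨true, nat_lit 32, nat_lit 310, nat_lit 1, nat_lit 3⟩, ⟨false, nat_lit 128, nat_lit 470, nat_lit 2, nat_lit 1⟩, ⟨false, nat_lit 16, nat_lit 438, nat_lit 2, nat_lit 1⟩,
    ⟨true, nat_lit 4, nat_lit 446, nat_lit 2, nat_lit 2⟩, ⟨false, nat_lit 32768, nat_lit 65090, nat_lit 3, nat_lit 1⟩, ⟨false, nat_lit 2048, nat_lit 36418, nat_lit 2, nat_lit 1⟩,
    ⟨true, nat_lit 2, nat_lit 35262, nat_lit 3, nat_lit 1⟩, ⟨false, nat_lit 4096, nat_lit 38464, nat_lit 1, nat_lit 3⟩, ⟨true, nat_lit 1024, nat_lit 40512, nat_lit 2, nat_lit 1⟩,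
    ⟨false, nat_lit 16384, nat_lit 57920, nat_lit 2, nat_lit 0⟩, ⟨false, nat_lit 512, nat_lit 56896, nat_lit 2, nat_lit 2⟩, ⟨true, nat_lit 64, nat_lit 57280, nat_lit 3, nat_lit 1⟩,
    ⟨false, nat_lit 8192, nat_lit 57344, nat_lit 1, nat_lit 1⟩]

def r65_1_4 : List Wr := [
    ⟨false, nat_lit 256, nat_lit 511, nat_lit 3, nat_lit 1⟩, ⟨false, nat_lit 8, nat_lit 271, nat_lit 2, nat_lit 0⟩, ⟨true, nat_lit 1, nat_lit 265, nat_lit 1, nat_lit 1⟩,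
    ⟨true, nat_lit 32, nat_lit 310, nat_lit 1, nat_lit 3⟩, ⟨false, nat_lit 128, nat_lit 470, nat_lit 2, nat_lit 1⟩, ⟨false, nat_lit 16, nat_lit 438, nat_lit 2, nat_lit 1⟩,
    ⟨true, nat_lit 4, nat_lit 446, nat_lit 2, nat_lit 2⟩, ⟨false, nat_lit 2048, nat_lit 3650, nat_lit 2, nat_lit 0⟩, ⟨false, nat_lit 64, nat_lit 2498, nat_lit 2, nat_lit 0⟩,
    ⟨true, nat_lit 2, nat_lit 2558, nat_lit 3, nat_lit 1⟩, ⟨false, nat_lit 32768, nat_lit 62976, nat_lit 2, nat_lit 1⟩, ⟨false, nat_lit 4096, nat_lit 38400, nat_lit 1, nat_lit 2⟩,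
    ⟨false, nat_lit 1024, nat_lit 40448, nat_lit 2, nat_lit 0⟩, ⟨true, nat_lit 512, nat_lit 40448, nat_lit 1, nat_lit 3⟩, ⟨false, nat_lit 16384, nat_lit 57344, nat_lit 1, nat_lit 1⟩,
    ⟨false, nat_lit 8192, nat_lit 57344, nat_lit 1, nat_lit 1⟩]

def r65_1_5 : List Wr := [
    ⟨false, nat_lit 256, nat_lit 511, nat_lit 3, nat_lit 1⟩, ⟨false, nat_lit 8, nat_lit 271, nat_lit 2, nat_lit 0⟩, ⟨true, nat_lit 1, nat_lit 265, nat_lit 1, nat_lit 1⟩,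
    ⟨true, nat_lit 32, nat_lit 310, nat_lit 1, nat_lit 3⟩, ⟨false, nat_lit 128, nat_lit 470, nat_lit 2, nat_lit 1⟩, ⟨false, nat_lit 16, nat_lit 438, nat_lit 2, nat_lit 1⟩,
    ⟨true, nat_lit 4, nat_lit 446, nat_lit 2, nat_lit 2⟩, ⟨false, nat_lit 2048, nat_lit 3650, nat_lit 2, nat_lit 0⟩, ⟨false, nat_lit 64, nat_lit 2498, nat_lit 2, nat_lit 0⟩,
    ⟨true, nat_lit 2, nat_lit 2558, nat_lit 3, nat_lit 1⟩, ⟨true, nat_lit 1024, nat_lit 3584, nat_lit 1, nat_lit 1⟩, ⟨false, nat_lit 32768, nat_lit 61952, nat_lit 1, nat_lit 3⟩,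
    ⟨false, nat_lit 16384, nat_lit 61952, nat_lit 2, nat_lit 0⟩, ⟨false, nat_lit 4096, nat_lit 53760, nat_lit 1, nat_lit 2⟩, ⟨true, nat_lit 512, nat_lit 56832, nat_lit 2, nat_lit 1⟩,
    ⟨false, nat_lit 8192, nat_lit 57344, nat_lit 1, nat_lit 1⟩]

def r65_1_6 : List Wr := [
    ⟨false, nat_lit 256, nat_lit 511, nat_lit 3, nat_lit 1⟩, ⟨false, nat_lit 8, nat_lit 271, nat_lit 2, nat_lit 0⟩, ⟨true, nat_lit 1, nat_lit 265, nat_lit 1, nat_lit 1⟩,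
    ⟨false, nat_lit 32, nat_lit 310, nat_lit 1, nat_lit 3⟩, ⟨true, nat_lit 4, nat_lit 302, nat_lit 1, nat_lit 3⟩, ⟨true, nat_lit 16, nat_lit 306, nat_lit 1, nat_lit 2⟩,
    ⟨false, nat_lit 2048, nat_lit 3778, nat_lit 2, nat_lit 1⟩, ⟨false, nat_lit 128, nat_lit 2498, nat_lit 2, nat_lit 0⟩, ⟨true, nat_lit 2, nat_lit 2494, nat_lit 3, nat_lit 0⟩,
    ⟨false, nat_lit 32768, nat_lit 63040, nat_lit 2, nat_lit 2⟩, ⟨false, nat_lit 1024, nat_lit 36416, nat_lit 2, nat_lit 0⟩, ⟨true, nat_lit 64, nat_lit 36288, nat_lit 2, nat_lit 1⟩,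
    ⟨false, nat_lit 16384, nat_lit 61952, nat_lit 2, nat_lit 0⟩, ⟨false, nat_lit 4096, nat_lit 53760, nat_lit 1, nat_lit 2⟩, ⟨true, nat_lit 512, nat_lit 56832, nat_lit 2, nat_lit 1⟩,
    ⟨false, nat_lit 8192, nat_lit 57344, nat_lit 1, nat_lit 1⟩]

def l65_1 : List (Nat × List Wr × Nat) := [
  (nat_lit 2, r65_1_0, nat_lit 0), (nat_lit 6, r65_1_1, nat_lit 0), (nat_lit 6, r65_1_2, nat_lit 0),
  (nat_lit 6, r65_1_3, nat_lit 0), (nat_lit 6, r65_1_4, nat_lit 0), (nat_lit 6, r65_1_5, nat_lit 0),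
  (nat_lit 6, r65_1_6, nat_lit 0)]

def r65_2_0 : List Wr := [
    ⟨false, nat_lit 256, nat_lit 511, nat_lit 3, nat_lit 1⟩, ⟨false, nat_lit 8, nat_lit 271, nat_lit 2, nat_lit 0⟩, ⟨true, nat_lit 1, nat_lit 265, nat_lit 1, nat_lit 1⟩,
    ⟨false, nat_lit 128, nat_lit 502, nat_lit 2, nat_lit 2⟩, ⟨false, nat_lit 32, nat_lit 438, nat_lit 2, nat_lit 1⟩, ⟨true, nat_lit 4, nat_lit 430, nat_lit 2, nat_lit 1⟩,
    ⟨true, nat_lit 16, nat_lit 434, nat_lit 1, nat_lit 3⟩, ⟨false, nat_lit 2048, nat_lit 3650, nat_lit 2, nat_lit 0⟩, ⟨false, nat_lit 64, nat_lit 2498, nat_lit 2, nat_lit 0⟩,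
    ⟨true, nat_lit 2, nat_lit 2558, nat_lit 3, nat_lit 1⟩, ⟨true, nat_lit 1024, nat_lit 3584, nat_lit 1, nat_lit 1⟩, ⟨false, nat_lit 32768, nat_lit 61952, nat_lit 2, nat_lit 0⟩,
    ⟨false, nat_lit 4096, nat_lit 37376, nat_lit 1, nat_lit 1⟩, ⟨true, nat_lit 512, nat_lit 40448, nat_lit 2, nat_lit 0⟩, ⟨false, nat_lit 16384, nat_lit 57344, nat_lit 1, nat_lit 1⟩,
    ⟨false, nat_lit 8192, nat_lit 57344, nat_lit 1, nat_lit 1⟩]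

def r65_2_1 : List Wr := [
    ⟨false, nat_lit 256, nat_lit 511, nat_lit 3, nat_lit 1⟩, ⟨false, nat_lit 8, nat_lit 271, nat_lit 2, nat_lit 0⟩, ⟨true, nat_lit 1, nat_lit 265, nat_lit 1, nat_lit 1⟩,
    ⟨false, nat_lit 128, nat_lit 502, nat_lit 2, nat_lit 2⟩, ⟨false, nat_lit 32, nat_lit 438, nat_lit 2, nat_lit 1⟩, ⟨true, nat_lit 4, nat_lit 430, nat_lit 2, nat_lit 1⟩,
    ⟨false, nat_lit 2048, nat_lit 3666, nat_lit 2, nat_lit 1⟩, ⟨false, nat_lit 64, nat_lit 2514, nat_lit 2, nat_lit 1⟩, ⟨false, nat_lit 16, nat_lit 2546, nat_lit 2, nat_lit 2⟩,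
    ⟨true, nat_lit 2, nat_lit 2558, nat_lit 2, nat_lit 4⟩, ⟨true, nat_lit 1024, nat_lit 3584, nat_lit 1, nat_lit 1⟩, ⟨false, nat_lit 32768, nat_lit 61952, nat_lit 2, nat_lit 0⟩,
    ⟨false, nat_lit 4096, nat_lit 37376, nat_lit 1, nat_lit 1⟩, ⟨true, nat_lit 512, nat_lit 40448, nat_lit 2, nat_lit 0⟩, ⟨false, nat_lit 16384, nat_lit 57344, nat_lit 1, nat_lit 1⟩,
    ⟨false, nat_lit 8192, nat_lit 57344, nat_lit 1, nat_lit 1⟩]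

def r65_2_2 : List Wr := [
    ⟨false, nat_lit 256, nat_lit 511, nat_lit 3, nat_lit 1⟩, ⟨false, nat_lit 8, nat_lit 271, nat_lit 2, nat_lit 0⟩, ⟨true, nat_lit 1, nat_lit 265, nat_lit 1, nat_lit 1⟩,
    ⟨false, nat_lit 128, nat_lit 502, nat_lit 2, nat_lit 2⟩, ⟨false, nat_lit 32, nat_lit 438, nat_lit 2, nat_lit 1⟩, ⟨true, nat_lit 4, nat_lit 430, nat_lit 2, nat_lit 1⟩,
    ⟨true, nat_lit 16, nat_lit 434, nat_lit 1, nat_lit 3⟩, ⟨false, nat_lit 2048, nat_lit 3650, nat_lit 1, nat_lit 3⟩, ⟨false, nat_lit 1024, nat_lit 3650, nat_lit 2, nat_lit 0⟩,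
    ⟨false, nat_lit 64, nat_lit 3522, nat_lit 2, nat_lit 1⟩, ⟨true, nat_lit 2, nat_lit 3582, nat_lit 3, nat_lit 2⟩, ⟨false, nat_lit 32768, nat_lit 61952, nat_lit 2, nat_lit 0⟩,
    ⟨false, nat_lit 4096, nat_lit 37376, nat_lit 1, nat_lit 1⟩, ⟨true, nat_lit 512, nat_lit 40448, nat_lit 2, nat_lit 0⟩, ⟨false, nat_lit 16384, nat_lit 57344, nat_lit 1, nat_lit 1⟩,
    ⟨false, nat_lit 8192, nat_lit 57344, nat_lit 1, nat_lit 1⟩]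

def r65_2_3 : List Wr := [
    ⟨false, nat_lit 256, nat_lit 511, nat_lit 3, nat_lit 1⟩, ⟨false, nat_lit 8, nat_lit 271, nat_lit 2, nat_lit 0⟩, ⟨true, nat_lit 1, nat_lit 265, nat_lit 1, nat_lit 1⟩,
    ⟨false, nat_lit 128, nat_lit 502, nat_lit 2, nat_lit 2⟩, ⟨false, nat_lit 32, nat_lit 438, nat_lit 2, nat_lit 1⟩, ⟨true, nat_lit 4, nat_lit 430, nat_lit 2, nat_lit 1⟩,
    ⟨false, nat_lit 4096, nat_lit 7762, nat_lit 2, nat_lit 2⟩, ⟨false, nat_lit 2048, nat_lit 7762, nat_lit 2, nat_lit 2⟩, ⟨true, nat_lit 16, nat_lit 6578, nat_lit 2, nat_lit 2⟩,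
    ⟨false, nat_lit 1024, nat_lit 7746, nat_lit 2, nat_lit 1⟩, ⟨true, nat_lit 64, nat_lit 7618, nat_lit 2, nat_lit 2⟩, ⟨false, nat_lit 32768, nat_lit 57858, nat_lit 2, nat_lit 0⟩,
    ⟨false, nat_lit 512, nat_lit 40450, nat_lit 2, nat_lit 1⟩, ⟨true, nat_lit 2, nat_lit 40958, nat_lit 4, nat_lit 2⟩, ⟨false, nat_lit 16384, nat_lit 57344, nat_lit 1, nat_lit 1⟩,
    ⟨false, nat_lit 8192, nat_lit 57344, nat_lit 1, nat_lit 1⟩]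

def r65_2_4 : List Wr := [
    ⟨false, nat_lit 256, nat_lit 511, nat_lit 3, nat_lit 1⟩, ⟨false, nat_lit 8, nat_lit 271, nat_lit 2, nat_lit 0⟩, ⟨true, nat_lit 1, nat_lit 265, nat_lit 1, nat_lit 1⟩,
    ⟨false, nat_lit 128, nat_lit 502, nat_lit 2, nat_lit 2⟩, ⟨false, nat_lit 32, nat_lit 438, nat_lit 2, nat_lit 1⟩, ⟨true, nat_lit 4, nat_lit 430, nat_lit 2, nat_lit 1⟩,
    ⟨true, nat_lit 16, nat_lit 434, nat_lit 1, nat_lit 3⟩, ⟨false, nat_lit 32768, nat_lit 65090, nat_lit 3, nat_lit 1⟩, ⟨false, nat_lit 2048, nat_lit 36418, nat_lit 2, nat_lit 1⟩,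
    ⟨true, nat_lit 2, nat_lit 35262, nat_lit 3, nat_lit 1⟩, ⟨false, nat_lit 4096, nat_lit 38464, nat_lit 1, nat_lit 3⟩, ⟨true, nat_lit 1024, nat_lit 40512, nat_lit 2, nat_lit 1⟩,
    ⟨false, nat_lit 16384, nat_lit 57920, nat_lit 2, nat_lit 0⟩, ⟨false, nat_lit 512, nat_lit 56896, nat_lit 2, nat_lit 2⟩, ⟨true, nat_lit 64, nat_lit 57280, nat_lit 3, nat_lit 1⟩,
    ⟨false, nat_lit 8192, nat_lit 57344, nat_lit 1, nat_lit 1⟩]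

def r65_2_5 : List Wr := [
    ⟨false, nat_lit 256, nat_lit 511, nat_lit 3, nat_lit 1⟩, ⟨false, nat_lit 8, nat_lit 271, nat_lit 2, nat_lit 0⟩, ⟨true, nat_lit 1, nat_lit 265, nat_lit 1, nat_lit 1⟩,
    ⟨false, nat_lit 128, nat_lit 502, nat_lit 2, nat_lit 2⟩, ⟨false, nat_lit 32, nat_lit 438, nat_lit 2, nat_lit 1⟩, ⟨true, nat_lit 4, nat_lit 430, nat_lit 2, nat_lit 1⟩,
    ⟨true, nat_lit 16, nat_lit 434, nat_lit 1, nat_lit 3⟩, ⟨false, nat_lit 2048, nat_lit 3650, nat_lit 2, nat_lit 0⟩, ⟨false, nat_lit 64, nat_lit 2498, nat_lit 2, nat_lit 0⟩,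
    ⟨true, nat_lit 2, nat_lit 2558, nat_lit 3, nat_lit 1⟩, ⟨false, nat_lit 32768, nat_lit 62976, nat_lit 2, nat_lit 1⟩, ⟨false, nat_lit 4096, nat_lit 38400, nat_lit 1, nat_lit 2⟩,
    ⟨false, nat_lit 1024, nat_lit 40448, nat_lit 2, nat_lit 0⟩, ⟨true, nat_lit 512, nat_lit 40448, nat_lit 1, nat_lit 3⟩, ⟨false, nat_lit 16384, nat_lit 57344, nat_lit 1, nat_lit 1⟩,
    ⟨false, nat_lit 8192, nat_lit 57344, nat_lit 1, nat_lit 1⟩]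

def r65_2_6 : List Wr := [
    ⟨false, nat_lit 256, nat_lit 511, nat_lit 3, nat_lit 1⟩, ⟨false, nat_lit 8, nat_lit 271, nat_lit 2, nat_lit 0⟩, ⟨true, nat_lit 1, nat_lit 265, nat_lit 1, nat_lit 1⟩,
    ⟨false, nat_lit 128, nat_lit 502, nat_lit 2, nat_lit 2⟩, ⟨false, nat_lit 32, nat_lit 438, nat_lit 2, nat_lit 1⟩, ⟨true, nat_lit 4, nat_lit 430, nat_lit 2, nat_lit 1⟩,
    ⟨true, nat_lit 16, nat_lit 434, nat_lit 1, nat_lit 3⟩, ⟨false, nat_lit 2048, nat_lit 3650, nat_lit 2, nat_lit 0⟩, ⟨false, nat_lit 64, nat_lit 2498, nat_lit 2, nat_lit 0⟩,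
    ⟨true, nat_lit 2, nat_lit 2558, nat_lit 3, nat_lit 1⟩, ⟨true, nat_lit 1024, nat_lit 3584, nat_lit 1, nat_lit 1⟩, ⟨false, nat_lit 32768, nat_lit 61952, nat_lit 1, nat_lit 3⟩,
    ⟨false, nat_lit 16384, nat_lit 61952, nat_lit 2, nat_lit 0⟩, ⟨false, nat_lit 4096, nat_lit 53760, nat_lit 1, nat_lit 2⟩, ⟨true, nat_lit 512, nat_lit 56832, nat_lit 2, nat_lit 1⟩,
    ⟨false, nat_lit 8192, nat_lit 57344, nat_lit 1, nat_lit 1⟩]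

def l65_2 : List (Nat × List Wr × Nat) := [
  (nat_lit 2, r65_2_0, nat_lit 0), (nat_lit 6, r65_2_1, nat_lit 0), (nat_lit 6, r65_2_2, nat_lit 0),
  (nat_lit 6, r65_2_3, nat_lit 0), (nat_lit 6, r65_2_4, nat_lit 0), (nat_lit 6, r65_2_5, nat_lit 0),
  (nat_lit 6, r65_2_6, nat_lit 0)]

def r65_3_0 : List Wr := [
    ⟨false, nat_lit 256, nat_lit 511, nat_lit 3, nat_lit 1⟩, ⟨false, nat_lit 8, nat_lit 271, nat_lit 2, nat_lit 0⟩, ⟨true, nat_lit 1, nat_lit 265, nat_lit 1, nat_lit 1⟩,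
    ⟨true, nat_lit 4, nat_lit 270, nat_lit 1, nat_lit 2⟩, ⟨true, nat_lit 32, nat_lit 306, nat_lit 1, nat_lit 2⟩, ⟨false, nat_lit 2048, nat_lit 3794, nat_lit 2, nat_lit 2⟩,
    ⟨false, nat_lit 128, nat_lit 2514, nat_lit 2, nat_lit 1⟩, ⟨true, nat_lit 16, nat_lit 2482, nat_lit 2, nat_lit 1⟩, ⟨false, nat_lit 1024, nat_lit 3650, nat_lit 2, nat_lit 0⟩,
    ⟨false, nat_lit 64, nat_lit 3522, nat_lit 2, nat_lit 1⟩, ⟨true, nat_lit 2, nat_lit 3582, nat_lit 3, nat_lit 2⟩, ⟨false, nat_lit 32768, nat_lit 61952, nat_lit 2, nat_lit 0⟩,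
    ⟨false, nat_lit 4096, nat_lit 37376, nat_lit 1, nat_lit 1⟩, ⟨true, nat_lit 512, nat_lit 40448, nat_lit 2, nat_lit 0⟩, ⟨false, nat_lit 16384, nat_lit 57344, nat_lit 1, nat_lit 1⟩,
    ⟨false, nat_lit 8192, nat_lit 57344, nat_lit 1, nat_lit 1⟩]

def r65_3_1 : List Wr := [
    ⟨false, nat_lit 256, nat_lit 511, nat_lit 3, nat_lit 1⟩, ⟨false, nat_lit 8, nat_lit 271, nat_lit 2, nat_lit 0⟩, ⟨true, nat_lit 1, nat_lit 265, nat_lit 1, nat_lit 1⟩,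
    ⟨false, nat_lit 32, nat_lit 310, nat_lit 1, nat_lit 3⟩, ⟨true, nat_lit 4, nat_lit 302, nat_lit 1, nat_lit 3⟩, ⟨false, nat_lit 2048, nat_lit 3794, nat_lit 2, nat_lit 2⟩,
    ⟨false, nat_lit 128, nat_lit 2514, nat_lit 2, nat_lit 1⟩, ⟨true, nat_lit 16, nat_lit 2482, nat_lit 2, nat_lit 1⟩, ⟨false, nat_lit 1024, nat_lit 3650, nat_lit 2, nat_lit 0⟩,
    ⟨false, nat_lit 64, nat_lit 3522, nat_lit 2, nat_lit 1⟩, ⟨true, nat_lit 2, nat_lit 3582, nat_lit 3, nat_lit 2⟩, ⟨false, nat_lit 32768, nat_lit 61952, nat_lit 2, nat_lit 0⟩,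
    ⟨false, nat_lit 4096, nat_lit 37376, nat_lit 1, nat_lit 1⟩, ⟨true, nat_lit 512, nat_lit 40448, nat_lit 2, nat_lit 0⟩, ⟨false, nat_lit 16384, nat_lit 57344, nat_lit 1, nat_lit 1⟩,
    ⟨false, nat_lit 8192, nat_lit 57344, nat_lit 1, nat_lit 1⟩]

def r65_3_2 : List Wr := [
    ⟨false, nat_lit 256, nat_lit 511, nat_lit 3, nat_lit 1⟩, ⟨false, nat_lit 8, nat_lit 271, nat_lit 2, nat_lit 0⟩, ⟨true, nat_lit 1, nat_lit 265, nat_lit 1, nat_lit 1⟩,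
    ⟨false, nat_lit 32768, nat_lit 65270, nat_lit 4, nat_lit 2⟩, ⟨false, nat_lit 32, nat_lit 33078, nat_lit 2, nat_lit 1⟩, ⟨true, nat_lit 4, nat_lit 33070, nat_lit 2, nat_lit 1⟩,
    ⟨true, nat_lit 2048, nat_lit 36562, nat_lit 2, nat_lit 3⟩, ⟨false, nat_lit 4096, nat_lit 38610, nat_lit 2, nat_lit 3⟩, ⟨false, nat_lit 128, nat_lit 39378, nat_lit 3, nat_lit 0⟩,
    ⟨false, nat_lit 16, nat_lit 39346, nat_lit 2, nat_lit 3⟩, ⟨true, nat_lit 2, nat_lit 39358, nat_lit 3, nat_lit 2⟩, ⟨true, nat_lit 1024, nat_lit 40512, nat_lit 2, nat_lit 1⟩,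
    ⟨false, nat_lit 16384, nat_lit 57920, nat_lit 2, nat_lit 0⟩, ⟨false, nat_lit 512, nat_lit 56896, nat_lit 2, nat_lit 2⟩, ⟨true, nat_lit 64, nat_lit 57280, nat_lit 3, nat_lit 1⟩,
    ⟨false, nat_lit 8192, nat_lit 57344, nat_lit 1, nat_lit 1⟩]

def r65_3_3 : List Wr := [
    ⟨false, nat_lit 256, nat_lit 511, nat_lit 3, nat_lit 1⟩, ⟨false, nat_lit 8, nat_lit 271, nat_lit 2, nat_lit 0⟩, ⟨true, nat_lit 1, nat_lit 265, nat_lit 1, nat_lit 1⟩,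
    ⟨false, nat_lit 32768, nat_lit 65270, nat_lit 4, nat_lit 2⟩, ⟨false, nat_lit 32, nat_lit 33078, nat_lit 2, nat_lit 1⟩, ⟨true, nat_lit 4, nat_lit 33070, nat_lit 2, nat_lit 1⟩,
    ⟨false, nat_lit 4096, nat_lit 40658, nat_lit 2, nat_lit 4⟩, ⟨false, nat_lit 2048, nat_lit 40658, nat_lit 3, nat_lit 1⟩, ⟨true, nat_lit 16, nat_lit 39218, nat_lit 2, nat_lit 2⟩,
    ⟨false, nat_lit 128, nat_lit 39362, nat_lit 2, nat_lit 2⟩, ⟨true, nat_lit 2, nat_lit 39358, nat_lit 3, nat_lit 2⟩, ⟨true, nat_lit 1024, nat_lit 40512, nat_lit 2, nat_lit 1⟩,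
    ⟨false, nat_lit 16384, nat_lit 57920, nat_lit 2, nat_lit 0⟩, ⟨false, nat_lit 512, nat_lit 56896, nat_lit 2, nat_lit 2⟩, ⟨true, nat_lit 64, nat_lit 57280, nat_lit 3, nat_lit 1⟩,
    ⟨false, nat_lit 8192, nat_lit 57344, nat_lit 1, nat_lit 1⟩]

def r65_3_4 : List Wr := [
    ⟨false, nat_lit 256, nat_lit 511, nat_lit 3, nat_lit 1⟩, ⟨false, nat_lit 8, nat_lit 271, nat_lit 2, nat_lit 0⟩, ⟨true, nat_lit 1, nat_lit 265, nat_lit 1, nat_lit 1⟩,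
    ⟨false, nat_lit 32768, nat_lit 65270, nat_lit 4, nat_lit 2⟩, ⟨false, nat_lit 32, nat_lit 33078, nat_lit 2, nat_lit 1⟩, ⟨true, nat_lit 4, nat_lit 33070, nat_lit 2, nat_lit 1⟩,
    ⟨false, nat_lit 4096, nat_lit 40658, nat_lit 2, nat_lit 4⟩, ⟨false, nat_lit 2048, nat_lit 40658, nat_lit 3, nat_lit 1⟩, ⟨true, nat_lit 16, nat_lit 39218, nat_lit 2, nat_lit 2⟩,
    ⟨false, nat_lit 16384, nat_lit 59074, nat_lit 3, nat_lit 0⟩, ⟨false, nat_lit 1024, nat_lit 57026, nat_lit 3, nat_lit 1⟩, ⟨true, nat_lit 128, nat_lit 56770, nat_lit 3, nat_lit 1⟩,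
    ⟨false, nat_lit 512, nat_lit 56898, nat_lit 2, nat_lit 3⟩, ⟨false, nat_lit 64, nat_lit 57282, nat_lit 3, nat_lit 2⟩, ⟨true, nat_lit 2, nat_lit 57342, nat_lit 4, nat_lit 3⟩,
    ⟨false, nat_lit 8192, nat_lit 57344, nat_lit 1, nat_lit 1⟩]

def l65_3 : List (Nat × List Wr × Nat) := [
  (nat_lit 4, r65_3_0, nat_lit 0), (nat_lit 5, r65_3_1, nat_lit 1), (nat_lit 6, r65_3_2, nat_lit 0),
  (nat_lit 6, r65_3_3, nat_lit 0), (nat_lit 6, r65_3_4, nat_lit 0)]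

def r65_4_0 : List Wr := [
    ⟨false, nat_lit 256, nat_lit 511, nat_lit 3, nat_lit 1⟩, ⟨false, nat_lit 8, nat_lit 271, nat_lit 2, nat_lit 0⟩, ⟨true, nat_lit 1, nat_lit 265, nat_lit 1, nat_lit 1⟩,
    ⟨true, nat_lit 4, nat_lit 270, nat_lit 1, nat_lit 2⟩, ⟨false, nat_lit 32, nat_lit 306, nat_lit 1, nat_lit 2⟩, ⟨true, nat_lit 16, nat_lit 306, nat_lit 1, nat_lit 2⟩,
    ⟨false, nat_lit 2048, nat_lit 3778, nat_lit 2, nat_lit 1⟩, ⟨false, nat_lit 128, nat_lit 2498, nat_lit 2, nat_lit 0⟩, ⟨true, nat_lit 2, nat_lit 2494, nat_lit 3, nat_lit 0⟩,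
    ⟨false, nat_lit 32768, nat_lit 63040, nat_lit 2, nat_lit 2⟩, ⟨false, nat_lit 1024, nat_lit 36416, nat_lit 2, nat_lit 0⟩, ⟨true, nat_lit 64, nat_lit 36288, nat_lit 2, nat_lit 1⟩,
    ⟨false, nat_lit 16384, nat_lit 61952, nat_lit 2, nat_lit 0⟩, ⟨false, nat_lit 4096, nat_lit 53760, nat_lit 1, nat_lit 2⟩, ⟨true, nat_lit 512, nat_lit 56832, nat_lit 2, nat_lit 1⟩,
    ⟨false, nat_lit 8192, nat_lit 57344, nat_lit 1, nat_lit 1⟩]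

def r65_4_1 : List Wr := [
    ⟨false, nat_lit 256, nat_lit 511, nat_lit 3, nat_lit 1⟩, ⟨false, nat_lit 8, nat_lit 271, nat_lit 2, nat_lit 0⟩, ⟨true, nat_lit 1, nat_lit 265, nat_lit 1, nat_lit 1⟩,
    ⟨false, nat_lit 32, nat_lit 310, nat_lit 1, nat_lit 3⟩, ⟨true, nat_lit 4, nat_lit 302, nat_lit 1, nat_lit 3⟩, ⟨true, nat_lit 16, nat_lit 306, nat_lit 1, nat_lit 2⟩,
    ⟨false, nat_lit 2048, nat_lit 3778, nat_lit 2, nat_lit 1⟩, ⟨false, nat_lit 128, nat_lit 2498, nat_lit 2, nat_lit 0⟩, ⟨true, nat_lit 2, nat_lit 2494, nat_lit 3, nat_lit 0⟩,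
    ⟨false, nat_lit 32768, nat_lit 63040, nat_lit 2, nat_lit 2⟩, ⟨false, nat_lit 1024, nat_lit 36416, nat_lit 2, nat_lit 0⟩, ⟨true, nat_lit 64, nat_lit 36288, nat_lit 2, nat_lit 1⟩,
    ⟨false, nat_lit 16384, nat_lit 61952, nat_lit 2, nat_lit 0⟩, ⟨false, nat_lit 4096, nat_lit 53760, nat_lit 1, nat_lit 2⟩, ⟨true, nat_lit 512, nat_lit 56832, nat_lit 2, nat_lit 1⟩,
    ⟨false, nat_lit 8192, nat_lit 57344, nat_lit 1, nat_lit 1⟩]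

def r65_4_2 : List Wr := [
    ⟨true, nat_lit 1, nat_lit 1, nat_lit 0, nat_lit 2⟩, ⟨false, nat_lit 8, nat_lit 14, nat_lit 1, nat_lit 1⟩, ⟨true, nat_lit 4, nat_lit 14, nat_lit 1, nat_lit 1⟩,
    ⟨false, nat_lit 256, nat_lit 498, nat_lit 2, nat_lit 1⟩, ⟨false, nat_lit 16, nat_lit 274, nat_lit 1, nat_lit 1⟩, ⟨true, nat_lit 2, nat_lit 286, nat_lit 2, nat_lit 0⟩,
    ⟨false, nat_lit 2048, nat_lit 3808, nat_lit 2, nat_lit 1⟩, ⟨false, nat_lit 128, nat_lit 2528, nat_lit 2, nat_lit 0⟩, ⟨true, nat_lit 32, nat_lit 2464, nat_lit 1, nat_lit 2⟩,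
    ⟨false, nat_lit 32768, nat_lit 63040, nat_lit 2, nat_lit 2⟩, ⟨false, nat_lit 1024, nat_lit 36416, nat_lit 2, nat_lit 0⟩, ⟨true, nat_lit 64, nat_lit 36288, nat_lit 2, nat_lit 1⟩,
    ⟨false, nat_lit 16384, nat_lit 61952, nat_lit 2, nat_lit 0⟩, ⟨false, nat_lit 4096, nat_lit 53760, nat_lit 1, nat_lit 2⟩, ⟨true, nat_lit 512, nat_lit 56832, nat_lit 2, nat_lit 1⟩,
    ⟨false, nat_lit 8192, nat_lit 57344, nat_lit 1, nat_lit 1⟩]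

def l65_4 : List (Nat × List Wr × Nat) := [
  (nat_lit 4, r65_4_0, nat_lit 0), (nat_lit 5, r65_4_1, nat_lit 1), (nat_lit 6, r65_4_2, nat_lit 0)]

end Pool.Agent.EC4.Run
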