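import Pool.Agent.Lib.MP_ec4eff_co.R5.Dec
import Pool.Agent.Lib.MP_ec4eff_co.R5.Run.D19
import Pool.Agent.Lib.MP_ec4eff_co.R5.Run.D34

/-! Generated file (project R5): the other lunes -/

namespace Pool.Agent.EC4.Run

theorem b64_1 : allB l64_1 = true := by decide +kernel

theorem b85_0 : allB l85_0 = true := by decide +kernel

end Pool.Agent.EC4.Run
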