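import Pool.Agent.Lib.MP_ec4eff_co.R5.Dec
import Pool.Agent.Lib.MP_ec4eff_co.R5.Run.D15
import Pool.Agent.Lib.MP_ec4eff_co.R5.Run.D43

/-! Generated file (project R5): the other lunes -/

namespace Pool.Agent.EC4.Run

theorem b22_0 : allB l22_0 = true := by decide +kernel

theorem b74_7 : allB l74_7 = true := by decide +kernel

end Pool.Agent.EC4.Run
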