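import Pool.Agent.Lib.MP_ec4eff_co.R5.Dec
import Pool.Agent.Lib.MP_ec4eff_co.R5.Run.D16
import Pool.Agent.Lib.MP_ec4eff_co.R5.Run.D24
import Pool.Agent.Lib.MP_ec4eff_co.R5.Run.D25
import Pool.Agent.Lib.MP_ec4eff_co.R5.Run.D37
import Pool.Agent.Lib.MP_ec4eff_co.R5.Run.D39

/-! Generated file (project R5): the other lunes -/

namespace Pool.Agent.EC4.Run

theorem b79_2 : allB l79_2 = true := by decide +kernel

theorem b83_5 : allB l83_5 = true := by decide +kernel

theorem b67_1 : allB l67_1 = true := by decide +kernel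

theorem b47_0 : allB l47_0 = true := by decide +kernel

theorem b24_0 : allB l24_0 = true := by decide +kernel

end Pool.Agent.EC4.Run
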