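import Pool.Agent.Lib.MP_ec4eff_co.R5.Dec
import Pool.Agent.Lib.MP_ec4eff_co.R5.Run.D15
import Pool.Agent.Lib.MP_ec4eff_co.R5.Run.D19
import Pool.Agent.Lib.MP_ec4eff_co.R5.Run.D20
import Pool.Agent.Lib.MP_ec4eff_co.R5.Run.D32
import Pool.Agent.Lib.MP_ec4eff_co.R5.Run.D8

/-! Generated file (project R5): the other lunes -/

namespace Pool.Agent.EC4.Run

theorem b89_1 : allB l89_1 = true := by decide +kernel

theorem b64_5 : allB l64_5 = true := by decide +kernel

theorem b10_0 : allB l10_0 = true := by decide +kernel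

theorem b8_0 : allB l8_0 = true := by decide +kernel

theorem b15_0 : allB l15_0 = true := by decide +kernel

end Pool.Agent.EC4.Run
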