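import Pool.Agent.Lib.MP_ec4eff_co.R5.Dec
import Pool.Agent.Lib.MP_ec4eff_co.R5.Run.D13
import Pool.Agent.Lib.MP_ec4eff_co.R5.Run.D14
import Pool.Agent.Lib.MP_ec4eff_co.R5.Run.D34
import Pool.Agent.Lib.MP_ec4eff_co.R5.Run.D37
import Pool.Agent.Lib.MP_ec4eff_co.R5.Run.D42
import Pool.Agent.Lib.MP_ec4eff_co.R5.Run.D9

/-! Generated file (project R5): the other lunes -/

namespace Pool.Agent.EC4.Run

theorem b85_2 : allB l85_2 = true := by decide +kernel

theorem b83_3 : allB l83_3 = true := by decide +kernel

theorem b33_0 : allB l33_0 = true := by decide +kernel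

theorem b76_4 : allB l76_4 = true := by decide +kernel

theorem b97_0 : allB l97_0 = true := by decide +kernel

theorem b18_0 : allB l18_0 = true := by decide +kernel

end Pool.Agent.EC4.Run
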