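import Pool.Agent.Lib.MP_ec4eff_co.R5.Dec
import Pool.Agent.Lib.MP_ec4eff_co.R5.Run.D0
import Pool.Agent.Lib.MP_ec4eff_co.R5.Run.D21
import Pool.Agent.Lib.MP_ec4eff_co.R5.Run.D28
import Pool.Agent.Lib.MP_ec4eff_co.R5.Run.D35
import Pool.Agent.Lib.MP_ec4eff_co.R5.Run.D40

/-! Generated file (project R5): the other lunes -/

namespace Pool.Agent.EC4.Run

theorem b88_0 : allB l88_0 = true := by decide +kernel

theorem b92_1 : allB l92_1 = true := by decide +kernel

theorem b11_1 : allB l11_1 = true := by decide +kernel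

theorem b81_6 : allB l81_6 = true := by decide +kernel

theorem b30_0 : allB l30_0 = true := by decide +kernel

end Pool.Agent.EC4.Run
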