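import Pool.Agent.Lib.MP_ec4eff_co.R5.Run.A0
import Pool.Agent.Lib.MP_ec4eff_co.R5.Run.A1
import Pool.Agent.Lib.MP_ec4eff_co.R5.Run.A2
import Pool.Agent.Lib.MP_ec4eff_co.R5.Run.A3
import Pool.Agent.Lib.MP_ec4eff_co.R5.Run.A4
import Pool.Agent.Lib.MP_ec4eff_co.R5.Run.A5
import Pool.Agent.Lib.MP_ec4eff_co.R5.Run.A6
import Pool.Agent.Lib.MP_ec4eff_co.R5.Run.A7
import Pool.Agent.Lib.MP_ec4eff_co.R5.Run.A8
import Pool.Agent.Lib.MP_ec4eff_co.R5.Run.A9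
import Pool.Agent.Lib.MP_ec4eff_co.R5.Run.A10
import Pool.Agent.Lib.MP_ec4eff_co.R5.Run.A11
import Pool.Agent.Lib.MP_ec4eff_co.R5.Run.A12
import Pool.Agent.Lib.MP_ec4eff_co.R5.Run.A13
import Pool.Agent.Lib.MP_ec4eff_co.R5.Run.A14
import Pool.Agent.Lib.MP_ec4eff_co.R5.Run.A15
import Pool.Agent.Lib.MP_ec4eff_co.R5.Run.A16
import Pool.Agent.Lib.MP_ec4eff_co.R5.Run.A17
import Pool.Agent.Lib.MP_ec4eff_co.R5.Run.A18
import Pool.Agent.Lib.MP_ec4eff_co.R5.Run.A19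
import Pool.Agent.Lib.MP_ec4eff_co.R5.Run.A20
import Pool.Agent.Lib.MP_ec4eff_co.R5.Run.A21
import Pool.Agent.Lib.MP_ec4eff_co.R5.Run.A22
import Pool.Agent.Lib.MP_ec4eff_co.R5.Run.A23
import Pool.Agent.Lib.MP_ec4eff_co.R5.Run.A24
import Pool.Agent.Lib.MP_ec4eff_co.R5.Run.A25
import Pool.Agent.Lib.MP_ec4eff_co.R5.Run.A26
import Pool.Agent.Lib.MP_ec4eff_co.R5.Run.A27
import Pool.Agent.Lib.MP_ec4eff_co.R5.Run.A28
import Pool.Agent.Lib.MP_ec4eff_co.R5.Run.A29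
import Pool.Agent.Lib.MP_ec4eff_co.R5.Run.A30
import Pool.Agent.Lib.MP_ec4eff_co.R5.Run.A31
import Pool.Agent.Lib.MP_ec4eff_co.R5.Run.A32
import Pool.Agent.Lib.MP_ec4eff_co.R5.Run.A33
import Pool.Agent.Lib.MP_ec4eff_co.R5.Run.B0
import Pool.Agent.Lib.MP_ec4eff_co.R5.Run.B1
import Pool.Agent.Lib.MP_ec4eff_co.R5.Run.B2
import Pool.Agent.Lib.MP_ec4eff_co.R5.Run.B3
import Pool.Agent.Lib.MP_ec4eff_co.R5.Run.B4
import Pool.Agent.Lib.MP_ec4eff_co.R5.Run.B5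
import Pool.Agent.Lib.MP_ec4eff_co.R5.Run.B6
import Pool.Agent.Lib.MP_ec4eff_co.R5.Run.B7
import Pool.Agent.Lib.MP_ec4eff_co.R5.Run.B8
import Pool.Agent.Lib.MP_ec4eff_co.R5.Run.B9
import Pool.Agent.Lib.MP_ec4eff_co.R5.Run.B10
import Pool.Agent.Lib.MP_ec4eff_co.R5.Run.B11
import Pool.Agent.Lib.MP_ec4eff_co.R5.Run.B12
import Pool.Agent.Lib.MP_ec4eff_co.R5.Run.B13
import Pool.Agent.Lib.MP_ec4eff_co.R5.Run.B14
import Pool.Agent.Lib.MP_ec4eff_co.R5.Run.B15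
import Pool.Agent.Lib.MP_ec4eff_co.R5.Run.B16
import Pool.Agent.Lib.MP_ec4eff_co.R5.Run.B17
import Pool.Agent.Lib.MP_ec4eff_co.R5.Run.B18
import Pool.Agent.Lib.MP_ec4eff_co.R5.Run.B19
import Pool.Agent.Lib.MP_ec4eff_co.R5.Run.B20
import Pool.Agent.Lib.MP_ec4eff_co.R5.Run.B21
import Pool.Agent.Lib.MP_ec4eff_co.R5.Run.B22
import Pool.Agent.Lib.MP_ec4eff_co.R5.Run.B23
import Pool.Agent.Lib.MP_ec4eff_co.R5.Run.B24
import Pool.Agent.Lib.MP_ec4eff_co.R5.Run.B25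
import Pool.Agent.Lib.MP_ec4eff_co.R5.Run.B26
import Pool.Agent.Lib.MP_ec4eff_co.R5.Run.B27
import Pool.Agent.Lib.MP_ec4eff_co.R5.Run.B28
import Pool.Agent.Lib.MP_ec4eff_co.R5.Run.B29
import Pool.Agent.Lib.MP_ec4eff_co.R5.Run.B30
import Pool.Agent.Lib.MP_ec4eff_co.R5.Run.B31
import Pool.Agent.Lib.MP_ec4eff_co.R5.Run.B32
import Pool.Agent.Lib.MP_ec4eff_co.R5.Run.B33
import Pool.Agent.Lib.MP_ec4eff_co.R5.Run.B34
import Pool.Agent.Lib.MP_ec4eff_co.R5.Run.B35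
import Pool.Agent.Lib.MP_ec4eff_co.R5.Run.B36
import Pool.Agent.Lib.MP_ec4eff_co.R5.Run.B37
import Pool.Agent.Lib.MP_ec4eff_co.R5.Run.B38
import Pool.Agent.Lib.MP_ec4eff_co.R5.Run.B39
import Pool.Agent.Lib.MP_ec4eff_co.R5.Run.B40
import Pool.Agent.Lib.MP_ec4eff_co.R5.Run.B41
import Pool.Agent.Lib.MP_ec4eff_co.R5.Run.B42
import Pool.Agent.Lib.MP_ec4eff_co.R5.Run.B43
import Pool.Agent.Lib.MP_ec4eff_co.R5.Run.B44
import Pool.Agent.Lib.MP_ec4eff_co.R5.Run.B45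
import Pool.Agent.Lib.MP_ec4eff_co.R5.Run.B46
import Pool.Agent.Lib.MP_ec4eff_co.R5.Run.B47
import Pool.Agent.Lib.MP_ec4eff_co.R5.Run.B48
import Pool.Agent.Lib.MP_ec4eff_co.R5.Run.B49
import Pool.Agent.Lib.MP_ec4eff_co.R5.Run.B50
import Pool.Agent.Lib.MP_ec4eff_co.R5.Run.B51
import Pool.Agent.Lib.MP_ec4eff_co.R5.Run.B52
import Pool.Agent.Lib.MP_ec4eff_co.R5.Run.B53
import Pool.Agent.Lib.MP_ec4eff_co.R5.Run.B54
import Pool.Agent.Lib.MP_ec4eff_co.R5.Run.B55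
import Pool.Agent.Lib.MP_ec4eff_co.R5.Run.B56
import Pool.Agent.Lib.MP_ec4eff_co.R5.Run.B57
import Pool.Agent.Lib.MP_ec4eff_co.R5.Run.B58
import Pool.Agent.Lib.MP_ec4eff_co.R5.Run.B59
import Pool.Agent.Lib.MP_ec4eff_co.R5.Run.B60
import Pool.Agent.Lib.MP_ec4eff_co.R5.Run.B61
import Pool.Agent.Lib.MP_ec4eff_co.R5.Run.B62
import Pool.Agent.Lib.MP_ec4eff_co.R5.Run.B63
import Pool.Agent.Lib.MP_ec4eff_co.R5.Run.B64
import Pool.Agent.Lib.MP_ec4eff_co.R5.Run.B65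
import Pool.Agent.Lib.MP_ec4eff_co.R5.Run.B66
import Pool.Agent.Lib.MP_ec4eff_co.R5.Run.B67
import Pool.Agent.Lib.MP_ec4eff_co.R5.Run.B68
import Pool.Agent.Lib.MP_ec4eff_co.R5.Run.B69
import Pool.Agent.Lib.MP_ec4eff_co.R5.Run.B70
import Pool.Agent.Lib.MP_ec4eff_co.R5.Run.B71
import Pool.Agent.Lib.MP_ec4eff_co.R5.Run.B72

/-! Generated file (project R5): all runs -/

namespace Pool.Agent.EC4.Run

theorem n0 : NoRun [0, 0, 0, 0, 4] := noRun_of a0 rfl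
theorem n1 : NoRun [0, 0, 0, 4, 0] := noRun_of a1 rfl
theorem n2 : NoRun [0, 0, 1, 1, 1, 1, 0, 0] := noRun_of a2 b2_0
theorem n3 : NoRun [0, 0, 1, 1, 2, 0, 0] := noRun_of a3 rfl
theorem n4 : NoRun [0, 0, 1, 2, 1, 0, 0] := noRun_of a4 rfl
theorem n5 : NoRun [0, 0, 1, 3, 0, 0] := noRun_of a5 rfl
theorem n6 : NoRun [0, 0, 2, 2, 0, 0] := noRun_of a6 rfl
theorem n7 : NoRun [0, 0, 4, 0, 0] := noRun_of a7 rfl
theorem n8 : NoRun [0, 1, 0, 0, 1, 2, 0] := noRun_of a8 b8_0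
theorem n9 : NoRun [0, 1, 0, 0, 3, 0] := noRun_of a9 rfl
theorem n10 : NoRun [0, 1, 0, 1, 0, 2, 0] := noRun_of a10 b10_0
theorem n11 : NoRun [0, 1, 0, 1, 1, 0, 1, 0] := noRun_of a11 (allB_append b11_0 (allB_append b11_1 (allB_append b11_2 b11_3)))
theorem n12 : NoRun [0, 1, 0, 1, 1, 1, 0, 0] := noRun_of a12 b12_0
theorem n13 : NoRun [0, 1, 0, 1, 2, 0, 0] := noRun_of a13 rfl
theorem n14 : NoRun [0, 1, 0, 2, 0, 1, 0] := noRun_of a14 b14_0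
theorem n15 : NoRun [0, 1, 0, 2, 1, 0, 0] := noRun_of a15 b15_0
theorem n16 : NoRun [0, 1, 0, 3, 0, 0] := noRun_of a16 rfl
theorem n17 : NoRun [0, 1, 1, 0, 0, 1, 1, 0] := noRun_of a17 b17_0
theorem n18 : NoRun [0, 1, 1, 0, 0, 2, 0] := noRun_of a18 b18_0
theorem n19 : NoRun [0, 1, 1, 0, 1, 0, 1, 0] := noRun_of a19 (allB_append b19_0 b19_1)
theorem n20 : NoRun [0, 1, 1, 0, 1, 1, 0, 0] := noRun_of a20 (allB_append b20_0 b20_1)
theorem n21 : NoRun [0, 1, 1, 0, 2, 0, 0] := noRun_of a21 rfl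
theorem n22 : NoRun [0, 1, 1, 1, 0, 0, 1, 0] := noRun_of a22 (allB_append b22_0 b22_1)
theorem n23 : NoRun [0, 1, 1, 1, 0, 1, 0, 0] := noRun_of a23 b23_0
theorem n24 : NoRun [0, 1, 1, 1, 1, 0, 0, 0] := noRun_of a24 b24_0
theorem n25 : NoRun [0, 1, 1, 2, 0, 0, 0] := noRun_of a25 rfl
theorem n26 : NoRun [0, 1, 2, 0, 0, 1, 0] := noRun_of a26 rfl
theorem n27 : NoRun [0, 1, 2, 0, 1, 0, 0] := noRun_of a27 rfl
theorem n28 : NoRun [0, 1, 2, 1, 0, 0, 0] := noRun_of a28 rfl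
theorem n29 : NoRun [0, 1, 3, 0, 0, 0] := noRun_of a29 rfl
theorem n30 : NoRun [0, 2, 0, 0, 2, 0] := noRun_of a30 b30_0
theorem n31 : NoRun [0, 2, 0, 1, 1, 0, 0] := noRun_of a31 b31_0
theorem n32 : NoRun [0, 2, 0, 2, 0, 0] := noRun_of a32 rfl
theorem n33 : NoRun [0, 2, 1, 0, 1, 0, 0] := noRun_of a33 b33_0
theorem n34 : NoRun [0, 2, 1, 1, 0, 0, 0] := noRun_of a34 rfl
theorem n35 : NoRun [0, 2, 2, 0, 0, 0] := noRun_of a35 rfl
theorem n36 : NoRun [0, 3, 0, 1, 0, 0] := noRun_of a36 rfl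
theorem n37 : NoRun [0, 3, 1, 0, 0, 0] := noRun_of a37 rfl
theorem n38 : NoRun [1, 0, 0, 0, 0, 1, 2] := noRun_of a38 rfl
theorem n39 : NoRun [1, 0, 0, 0, 0, 3] := noRun_of a39 rfl
theorem n40 : NoRun [1, 0, 0, 0, 1, 0, 2] := noRun_of a40 rfl
theorem n41 : NoRun [1, 0, 0, 0, 1, 1, 1, 0] := noRun_of a41 (allB_append b41_0 b41_1)
theorem n42 : NoRun [1, 0, 0, 0, 1, 2, 0] := noRun_of a42 b42_0
theorem n43 : NoRun [1, 0, 0, 0, 2, 1, 0] := noRun_of a43 rfl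
theorem n44 : NoRun [1, 0, 0, 0, 3, 0] := noRun_of a44 rfl
theorem n45 : NoRun [1, 0, 0, 1, 0, 0, 2] := noRun_of a45 rfl
theorem n46 : NoRun [1, 0, 0, 1, 0, 1, 1, 0] := noRun_of a46 (allB_append b46_0 b46_1)
theorem n47 : NoRun [1, 0, 0, 1, 0, 2, 0] := noRun_of a47 b47_0
theorem n48 : NoRun [1, 0, 0, 1, 1, 0, 0, 1] := noRun_of a48 (allB_append b48_0 b48_1)
theorem n49 : NoRun [1, 0, 0, 1, 1, 0, 1, 0] := noRun_of a49 (allB_append b49_0 (allB_append b49_1 b49_2))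
theorem n50 : NoRun [1, 0, 0, 1, 1, 1, 0, 0] := noRun_of a50 b50_0
theorem n51 : NoRun [1, 0, 0, 1, 2, 0, 0] := noRun_of a51 rfl
theorem n52 : NoRun [1, 0, 0, 2, 0, 0, 1] := noRun_of a52 rfl
theorem n53 : NoRun [1, 0, 0, 2, 0, 1, 0] := noRun_of a53 b53_0
theorem n54 : NoRun [1, 0, 0, 2, 1, 0, 0] := noRun_of a54 rfl
theorem n55 : NoRun [1, 0, 0, 3, 0, 0] := noRun_of a55 rfl
theorem n56 : NoRun [1, 0, 1, 0, 0, 0, 2] := noRun_of a56 rfl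
theorem n57 : NoRun [1, 0, 1, 0, 0, 1, 0, 1] := noRun_of a57 b57_0
theorem n58 : NoRun [1, 0, 1, 0, 0, 1, 1, 0] := noRun_of a58 b58_0
theorem n59 : NoRun [1, 0, 1, 0, 0, 2, 0] := noRun_of a59 rfl
theorem n60 : NoRun [1, 0, 1, 0, 1, 0, 0, 1] := noRun_of a60 (allB_append b60_0 b60_1)
theorem n61 : NoRun [1, 0, 1, 0, 1, 0, 1, 0] := noRun_of a61 (allB_append b61_0 b61_1)
theorem n62 : NoRun [1, 0, 1, 0, 1, 1, 0, 0] := noRun_of a62 (allB_append b62_0 (allB_append b62_1 b62_2))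
theorem n63 : NoRun [1, 0, 1, 0, 2, 0, 0] := noRun_of a63 rfl
theorem n64 : NoRun [1, 0, 1, 1, 0, 0, 0, 1] := noRun_of a64 (allB_append b64_0 (allB_append b64_1 (allB_append b64_2 (allB_append b64_3 (allB_append b64_4 b64_5)))))
theorem n65 : NoRun [1, 0, 1, 1, 0, 0, 1, 0] := noRun_of a65 (allB_append b65_0 (allB_append b65_1 (allB_append b65_2 (allB_append b65_3 b65_4))))
theorem n66 : NoRun [1, 0, 1, 1, 0, 1, 0, 0] := noRun_of a66 (allB_append b66_0 (allB_append b66_1 (allB_append b66_2 b66_3)))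
theorem n67 : NoRun [1, 0, 1, 1, 1, 0, 0, 0] := noRun_of a67 (allB_append b67_0 b67_1)
theorem n68 : NoRun [1, 0, 1, 2, 0, 0, 0] := noRun_of a68 b68_0
theorem n69 : NoRun [1, 0, 2, 0, 0, 0, 1] := noRun_of a69 rfl
theorem n70 : NoRun [1, 0, 2, 0, 0, 1, 0] := noRun_of a70 rfl
theorem n71 : NoRun [1, 0, 2, 0, 1, 0, 0] := noRun_of a71 rfl
theorem n72 : NoRun [1, 0, 2, 1, 0, 0, 0] := noRun_of a72 rfl
theorem n73 : NoRun [1, 0, 3, 0, 0, 0] := noRun_of a73 rfl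
theorem n74 : NoRun [1, 1, 0, 0, 0, 0, 1, 1] := noRun_of a74 (allB_append b74_0 (allB_append b74_1 (allB_append b74_2 (allB_append b74_3 (allB_append b74_4 (allB_append b74_5 (allB_append b74_6 (allB_append b74_7 (allB_append b74_8 (allB_append b74_9 (allB_append b74_10 b74_11)))))))))))
theorem n75 : NoRun [1, 1, 0, 0, 0, 0, 2] := noRun_of a75 rfl
theorem n76 : NoRun [1, 1, 0, 0, 0, 1, 0, 1] := noRun_of a76 (allB_append b76_0 (allB_append b76_1 (allB_append b76_2 (allB_append b76_3 b76_4))))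
theorem n77 : NoRun [1, 1, 0, 0, 0, 1, 1, 0] := noRun_of a77 (allB_append b77_0 (allB_append b77_1 (allB_append b77_2 (allB_append b77_3 b77_4))))
theorem n78 : NoRun [1, 1, 0, 0, 0, 2, 0] := noRun_of a78 b78_0
theorem n79 : NoRun [1, 1, 0, 0, 1, 0, 0, 1] := noRun_of a79 (allB_append b79_0 (allB_append b79_1 (allB_append b79_2 b79_3)))
theorem n80 : NoRun [1, 1, 0, 0, 1, 0, 1, 0] := noRun_of a80 (allB_append b80_0 (allB_append b80_1 b80_2))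
theorem n81 : NoRun [1, 1, 0, 0, 1, 1, 0, 0] := noRun_of a81 (allB_append b81_0 (allB_append b81_1 (allB_append b81_2 (allB_append b81_3 (allB_append b81_4 (allB_append b81_5 b81_6))))))
theorem n82 : NoRun [1, 1, 0, 0, 2, 0, 0] := noRun_of a82 rfl
theorem n83 : NoRun [1, 1, 0, 1, 0, 0, 0, 1] := noRun_of a83 (allB_append b83_0 (allB_append b83_1 (allB_append b83_2 (allB_append b83_3 (allB_append b83_4 (allB_append b83_5 (allB_append b83_6 b83_7)))))))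
theorem n84 : NoRun [1, 1, 0, 1, 0, 0, 1, 0] := noRun_of a84 (allB_append b84_0 (allB_append b84_1 (allB_append b84_2 (allB_append b84_3 (allB_append b84_4 b84_5)))))
theorem n85 : NoRun [1, 1, 0, 1, 0, 1, 0, 0] := noRun_of a85 (allB_append b85_0 (allB_append b85_1 (allB_append b85_2 (allB_append b85_3 b85_4))))
theorem n86 : NoRun [1, 1, 0, 1, 1, 0, 0, 0] := noRun_of a86 (allB_append b86_0 (allB_append b86_1 (allB_append b86_2 (allB_append b86_3 b86_4))))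
theorem n87 : NoRun [1, 1, 0, 2, 0, 0, 0] := noRun_of a87 b87_0
theorem n88 : NoRun [1, 1, 1, 0, 0, 0, 0, 1] := noRun_of a88 (allB_append b88_0 (allB_append b88_1 b88_2))
theorem n89 : NoRun [1, 1, 1, 0, 0, 0, 1, 0] := noRun_of a89 (allB_append b89_0 (allB_append b89_1 b89_2))
theorem n90 : NoRun [1, 1, 1, 0, 0, 1, 0, 0] := noRun_of a90 b90_0
theorem n91 : NoRun [1, 1, 1, 0, 1, 0, 0, 0] := noRun_of a91 (allB_append b91_0 b91_1)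
theorem n92 : NoRun [1, 1, 1, 1, 0, 0, 0, 0] := noRun_of a92 (allB_append b92_0 b92_1)
theorem n93 : NoRun [1, 1, 2, 0, 0, 0, 0] := noRun_of a93 rfl
theorem n94 : NoRun [1, 2, 0, 0, 0, 0, 1] := noRun_of a94 rfl
theorem n95 : NoRun [1, 2, 0, 0, 0, 1, 0] := noRun_of a95 b95_0
theorem n96 : NoRun [1, 2, 0, 0, 1, 0, 0] := noRun_of a96 rfl
theorem n97 : NoRun [1, 2, 0, 1, 0, 0, 0] := noRun_of a97 b97_0
theorem n98 : NoRun [1, 2, 1, 0, 0, 0, 0] := noRun_of a98 rfl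
theorem n99 : NoRun [1, 3, 0, 0, 0, 0] := noRun_of a99 rfl
theorem n100 : NoRun [2, 0, 0, 0, 0, 2] := noRun_of a100 rfl
theorem n101 : NoRun [2, 0, 0, 0, 1, 1, 0] := noRun_of a101 rfl
theorem n102 : NoRun [2, 0, 0, 0, 2, 0] := noRun_of a102 rfl
theorem n103 : NoRun [2, 0, 0, 1, 0, 1, 0] := noRun_of a103 rfl
theorem n104 : NoRun [2, 0, 0, 1, 1, 0, 0] := noRun_of a104 rfl
theorem n105 : NoRun [2, 0, 0, 2, 0, 0] := noRun_of a105 rfl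
theorem n106 : NoRun [2, 0, 1, 0, 0, 1, 0] := noRun_of a106 rfl
theorem n107 : NoRun [2, 0, 1, 0, 1, 0, 0] := noRun_of a107 rfl
theorem n108 : NoRun [2, 0, 1, 1, 0, 0, 0] := noRun_of a108 rfl
theorem n109 : NoRun [2, 0, 2, 0, 0, 0] := noRun_of a109 rfl
theorem n110 : NoRun [2, 1, 0, 0, 0, 1, 0] := noRun_of a110 rfl
theorem n111 : NoRun [2, 1, 0, 0, 1, 0, 0] := noRun_of a111 rfl
theorem n112 : NoRun [2, 1, 0, 1, 0, 0, 0] := noRun_of a112 rfl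
theorem n113 : NoRun [2, 1, 1, 0, 0, 0, 0] := noRun_of a113 rfl
theorem n114 : NoRun [2, 2, 0, 0, 0, 0] := noRun_of a114 rfl
theorem n115 : NoRun [3, 0, 0, 0, 1, 0] := noRun_of a115 rfl
theorem n116 : NoRun [3, 0, 0, 1, 0, 0] := noRun_of a116 rfl
theorem n117 : NoRun [3, 0, 1, 0, 0, 0] := noRun_of a117 rfl
theorem n118 : NoRun [3, 1, 0, 0, 0, 0] := noRun_of a118 rfl

end Pool.Agent.EC4.Run
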